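import Pool.Agent.Lib.MP_671ac3_gt.Spec

/-!
# MP_671ac3_gt : ALL valuations -- definitions and specifications of the second part

`Final2`: `K` a convex polygon, `H` any planar convex body, `φ`, `ψ` any nonzero elements of `Φ²`.
-/

namespace Pool.MP671

open MeasureTheory

/-! ## Definitions -/

/-- as `SH`, but the lengths are known to agree (up to exchange) only for the directions on which
both norms are positive -/
structure SG (D D' : Data) (n n' : ℝ → ℝ) (e e' : ℝ) : Prop where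
  ok : D.Ok
  ok' : D'.Ok
  mate : Mate D D'
  q0 : D.q = 0
  q0' : D'.q = 0
  p0 : 0 < D.p
  e0 : 0 < e
  e0' : 0 < e'
  nn : ∀ x, 0 ≤ n x
  nn' : ∀ x, 0 ≤ n' x
  cx : ConvexOn ℝ Set.univ n
  cx' : ConvexOn ℝ Set.univ n'
  lp : ∀ a b, |n a - n b| ≤ e * |a - b|
  lp' : ∀ a b, |n' a - n' b| ≤ e' * |a - b|
  pr : ∀ j, j < D.m → 0 < n (D.s j) → 0 < n' (D.s j) →
    (D'.r j = D.r j ∧ D'.l j = D.l j) ∨ (D'.r j = D.l j ∧ D'.l j = D.r j)
  den : ∀ t, 0 < t → t < D.w → Dense (fun ξ => F D n e ξ t) (fun ξ => F D' n' e' ξ t)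

/-- as `DH`, for `n x = e |x - s_z|`; the edges of direction `z` (not the first, not the last) may be
missing -/
structure DN (D D' : Data) (e : ℝ) (z : ℕ) : Prop where
  ok : D.Ok
  ok' : D'.Ok
  mate : Mate D D'
  q0 : 0 < D.q
  pq : D.q < D.p
  hp : D'.p = D.p
  hq : D'.q = D.q
  e0 : 0 < e
  z0 : 0 < z
  z1 : z + 1 < D.m
  pos : ∀ j, j < D.m → j ≠ z → 0 < D.r j ∧ 0 < D.l j ∧ 0 < D'.r j ∧ 0 < D'.l j
  den : ∀ t, 0 < t → t < D.w → Dense (fun ξ => F D (fun x => e * |x - D.s z|) e ξ t)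
    (fun ξ => F D' (fun x => e * |x - D.s z|) e ξ t)

/-- area of `body D ∩ (body D + (ξ,t))` -/
noncomputable def Ar (D : Data) (ξ t : ℝ) : ℝ := ∫ y in t..D.w, max 0 (D.up ξ t y - D.lo ξ t y)

/-! ## A. Valuations -/

/-- NUL (80 lines). From SEG, REP, FRM (or directly). The triangle `b y ≤ x ≤ b' y`, `0 ≤ y ≤ h` contains
its top segment; divide by `h → 0`: `ee φ * |a - b| ≤ nn φ a + nn φ b`. By a change of frame this is the
triangle inequality. -/
def SpecNUL : Prop := ∀ φ, IsPhi φ → ∀ u v : Pl, nrm φ (u + v) ≤ nrm φ u + nrm φ v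

/-- NZB (100 lines). From SEG, REP. Squares of side `δ` have value `2 δ (ee φ + nn φ 0) + α δ²` (REP, with
`b = d = 0`). If `φ A = 0` for an `A` with interior points, this is `0` for all small `δ`, so
`ee φ + nn φ 0 = 0 = α`, and all squares, hence all compact convex sets, have value `0`. -/
def SpecNZB : Prop :=
  ∀ φ : Set Pl → ℝ, IsPhi φ → (∃ A, CC A ∧ φ A ≠ 0) → ∀ A, CC A → (interior A).Nonempty → 0 < φ A

/-- SP2 (60 lines). As `SUP` (adapt SUP.lean): `K ∩ (K + x)` has interior points for `x` in the interior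
of `dif K`. -/
def SpecSP2 : Prop :=
  ∀ (φ ψ : Set Pl → ℝ), IsPhi φ → IsPhi ψ →
    (∀ A, CC A → (interior A).Nonempty → 0 < φ A) →
    (∀ A, CC A → (interior A).Nonempty → 0 < ψ A) → ∀ K H : Set Pl, CC K → CC H →
    (interior K).Nonempty → (interior H).Nonempty → (∀ x, cov φ K x = cov ψ H x) → dif K = dif H

/-- F1N (60 lines). From COV, BOD, as F1: at `t = w` the covariogram is `2 ee * overlap`. -/
def SpecF1N : Prop :=
  ∀ (φ ψ : Set Pl → ℝ), IsPhi φ → IsPhi ψ → ∀ D D' : Data, D.Ok → D'.Ok → Mate D D' →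
    ee φ = 0 → 0 < ee ψ → (∀ x, cov φ (body D) x = cov ψ (body D') x) → D'.p = 0 ∨ D'.q = 0

/-- MIX (120 lines). From SEG, REP, BOD. A multiple of the area and a valuation with a perimeter part
cannot have the same covariogram. Let `s < s_0`, `x_B = q + Xp s r m` (the same for `D'`), `P = (x_B, w)`
(top right vertex of both bodies, the bottom left vertex is `0`; `P` is a vertex of the difference body),
`x = (1-ε) P`. (1) `body D ∩ (body D + x)` is contained in the set `(1-ε) w ≤ z.2 ≤ w`,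
`(1-ε) (x_B - s w) ≤ z.1 - s z.2 ≤ x_B - s w` (on `body D`: `z.1 - s z.2 ≤ x_B - s w` and
`s z.2 ≤ z.1`, because the slope of the boundary functions is `≥ s`), so by monotonicity and REP (with
`ee φ = nn φ = 0`) its value is `≤ C ε²`. (2) `body D' ∩ (body D' + x)` contains `(1-ε) P + ε body D'`, so
its value is `≥ c ε`, `c > 0` (a segment of a direction `v` with `nrm ψ v > 0` in `body D'`). -/
def SpecMIX : Prop :=
  ∀ (φ ψ : Set Pl → ℝ), IsPhi φ → IsPhi ψ → ∀ D D' : Data, D.Ok → D'.Ok → Mate D D' →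
    (interior (body D')).Nonempty → (∀ v, nrm φ v = 0) → (∃ v, 0 < nrm ψ v) →
    (∀ x, cov φ (body D) x = cov ψ (body D') x) → False

/-! ## B. Combinatorics -/

/-- CV2. `SpecCSV` for `SG` (the proof does not use `pr`: copy CSV.lean). -/
def SpecCV2 : Prop :=
  ∀ D D' n n' e e', SG D D' n n' e e' → ∀ t, 0 < t → t < D.w →
    VR D n e t = VR D' n' e' t ∧
    (0 < VR D n e t → ∀ k k', k < D.m - 1 → k' < D.m - 1 → Yp D.r (k + 1) = t →
      Yp D'.r (k' + 1) = t → Xp D.s D.r (k + 1) = Xp D.s D'.r (k' + 1))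

/-- MR2. Mirror images of `SG` and `DN` (see MIR.lean). -/
def SpecMR2 : Prop :=
  (∀ D D' n n' e e', SG D D' n n' e e' →
    SG (mir D) (mir D') (fun x => n (-x)) (fun x => n' (-x)) e e') ∧
  (∀ D D' e z, DN D D' e z → DN (mir D) (mir D') e (D.m - 1 - z))

/-- CE2. From CV2, MIR, MR2. `SpecCSE` for `SG` (the proof does not use `pr`: copy CSE.lean). -/
def SpecCE2 : Prop :=
  ∀ D D' n n' e e', SG D D' n n' e e' →
    (∀ M i j₀, M < D.m → (∀ j, M < j → j < D.m → D'.r j = D.r j) → D'.r M ≠ D.r M → i ≤ M →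
      0 < D.r i → (∀ j, i < j → j ≤ M → D.r j = 0) → j₀ < i → 0 < D.r j₀ → tp n e D.s (i - 1) = 0) ∧
    (∀ M i j₀, M < D.m → (∀ j, j < M → D'.l j = D.l j) → D'.l M ≠ D.l M → M ≤ i → i < D.m →
      0 < D.l i → (∀ j, M ≤ j → j < i → D.l j = 0) → i < j₀ → j₀ < D.m → 0 < D.l j₀ →
      tm n e D.s i = 0)

/-- CS2 (300 lines). From CV2, CE2, MIR, MR2. As CSS, but `pr` is weaker. `δ_j = r'_j - r_j = l_j - l'_j`,
`∑ δ_j = 0`, `∑ δ_j s_j = 0` (closing conditions, `Mate`). Let `J = {j : δ_j ≠ 0} ≠ ∅`, `M = max J`,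
`M₀ = min J`. `δ_j > 0` implies `r'_j > 0`, `l_j > 0`; `δ_j < 0` implies `r_j > 0`, `l'_j > 0`.
(1) There are `j₁ < u < j₂` with `δ_{j₁}, δ_{j₂} < 0 < δ_u` or with all signs reversed (otherwise the
signs change at most once; multiply `∑ δ_j (s_j - c) = 0` with a suitable `c`). After exchange of `D` and
`D'` (SG is symmetric) the first case holds. (2) Two indices `≤ M` with `r > 0` (`j₁, j₂`): by CE2 `n` has
slope `-e` on `(-∞, s_i]`, `i ≥ j₂` the last index `≤ M` with `r_i > 0`. Two indices `≥ M₀` with `l' > 0`: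
by CE2 for `(D',D)` `n'` has slope `e'` on `[s_i, ∞)`, `i ≤ j₁`. (3) If `l_j > 0` for some `j ≥ M₀`,
`j ≠ u`, then `n` has slope `e` on `[s_i, ∞)` for an `i ≤ u < j₂`: contradiction with (2), `e > 0`. So
`l_j = 0` for `j ≥ M₀`, `j ≠ u`; in the same way `r'_j = 0` for `j ≤ M`, `j ≠ u`. (4) `n (s_u) > 0` (slope `-e`
on `[s_u, s_{j₂}]`, `n ≥ 0`) and `n' (s_u) > 0`. So `pr` holds for `u`: `δ_u ≠ 0` gives `r'_u = l_u`, `l'_u = r_u`.
Let `T = l_u = r'_u`. (5) The rest as in CSS: `T < w`; `VR D T = VR D' T` gives `e' < e`, `VL D T = VL D' T`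
gives `e < e'`. (If `n = n' = 0`, then (2) is already a contradiction.) -/
def SpecCS2 : Prop :=
  ∀ D D' n n' e e', SG D D' n n' e e' → ∀ j, j < D.m → D'.r j = D.r j ∧ D'.l j = D.l j

/-- CHZ (200 lines). From TIL. As CSH (adapt CSH.lean): `tp k = 2 e (s_{k+1} - s_k)` for `z ≤ k`, `tp k = 0` for
`k < z`. Induction on `k ≥ z`: the heights `Yp r (k+1)` are positive (`r_0 > 0`), less than `w`
(`r_{m-1} > 0`) and strictly increasing for `k ≥ z`; the strict inequalities `x(c) < ρ t`, etc. need only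
that both parts of the chain contain an edge. -/
def SpecCHZ : Prop :=
  ∀ D D' e z, DN D D' e z → ∀ k, z ≤ k → k + 1 < D.m →
    Yp D'.r (k + 1) = Yp D.r (k + 1) ∧ Xp D.s D'.r (k + 1) = Xp D.s D.r (k + 1) ∧
    Yp D'.l (k + 1) = Yp D.l (k + 1) ∧ Xp D.s D'.l (k + 1) = Xp D.s D.l (k + 1)

/-- CDN (100 lines). From CHZ, MIR, MR2. CHZ and CHZ for the mirror images (`k` with `k < z`). -/
def SpecCDN : Prop :=
  ∀ D D' e z, DN D D' e z → ∀ j, j < D.m → D'.r j = D.r j ∧ D'.l j = D.l j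

/-- ZFR (80 lines). All terms of `F` are `≥ 0`. If `p > 0`: at `t = Yp r (i+1) ∈ (0,w)` the term of `k = i`
gives `tp i = 0`, at `t = w - Yp l (i+1) ∈ (0,w)` it gives `tm i = 0`; but
`tp i + tm i = 2 e (s_{i+1} - s_i) > 0`. If `q > 0`: the same with `Yp l`, `Yp r`. -/
def SpecZFR : Prop :=
  ∀ (D : Data) (n : ℝ → ℝ) (e : ℝ), D.Ok → (∀ a b, |n a - n b| ≤ e * |a - b|) → 0 < e →
    (0 < D.p ∨ 0 < D.q) →
    (∀ t, 0 < t → t < D.w → Dense (fun ξ => F D n e ξ t) (fun _ => 0)) →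
    ∀ i j, i < j → j < D.m → 0 < D.r i → 0 < D.l i → 0 < D.r j → 0 < D.l j → False

/-- M2L (60 lines). `δ_j = r'_j - r_j`: `∑ δ_j = 0`, `∑ δ_j s_j = 0` by the closing conditions. -/
def SpecM2L : Prop :=
  (∀ D D' : Data, D.Ok → D'.Ok → Mate D D' → D'.p = D.p → D'.q = D.q → ∀ a b,
    (∀ j, j < D.m → j ≠ a → j ≠ b → D'.r j = D.r j) →
    ∀ j, j < D.m → D'.r j = D.r j ∧ D'.l j = D.l j) ∧
  (∀ D D' : Data, D.Ok → D'.Ok → Mate D D' → D.m ≤ 1 →
    D'.q = D.q ∧ ∀ j, j < D.m → D'.r j = D.r j ∧ D'.l j = D.l j)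

/-! ## C. Faces -/

/-- FLC (100 lines). From CHA, BOD (see FLB.lean). Faces of the polygon that are not points have one of the
listed directions; scaling of the direction. -/
def SpecFLC : Prop :=
  (∀ D : Data, D.Ok → ∀ σ : ℝ, (0 < fl (body D) (σ, 1) ∨ 0 < fl (body D) (-σ, -1)) →
    ∃ j, j < D.m ∧ D.s j = σ) ∧
  (∀ (K : Set Pl) (v : Pl) (c : ℝ), 0 < c → (0 < fl K (c • v) ↔ 0 < fl K v))

/-! ## D. The area -/

/-- AF1 (120 lines). From BOD. `Ar D ξ t / (w - t)` tends to the overlap of `[x_B - p, x_B]` and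
`[ξ, ξ + q]` as `t → w` (continuity of `up`, `lo`), `x_B = q + Xp s r m` is the same for `D'`. Then as F1. -/
def SpecAF1 : Prop :=
  ∀ D D' : Data, D.Ok → D'.Ok → Mate D D' → ∀ α β : ℝ, 0 < α → 0 < β →
    (∀ ξ t, 0 ≤ t → t ≤ D.w → α * Ar D ξ t = β * Ar D' ξ t) →
    ((D'.p = D.p ∧ D'.q = D.q) ∨ (D'.p = D.q ∧ D'.q = D.p)) ∧ (0 < D.p → 0 < D.q → α = β)

/-- AFB (80 lines). From XX, BOD. Fubini (see FUB.lean, area part). -/
def SpecAFB : Prop :=
  ∀ D : Data, D.Ok → ∀ χ : ℝ → ℝ, Continuous χ → HasCompactSupport χ → ∀ t, 0 < t → t < D.w →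
    ∫ ξ, χ ξ * Ar D ξ t = ∫ y in t..D.w, D.T χ t y

/-- AKN (250 lines). From XX, KL, KNB, CHN, CHA, BOD. `A t = ∫ y in t..w, T t y` has the derivative
`A' t = - T t t + ∫ y in t..w, ∂_t T t y`, where `∂_t T t y = deriv L (y-t) (X1 (R y - L (y-t)) -
X1 (L y - L (y-t))) - deriv R (y-t) (X1 (R y - R (y-t)) - X1 (L y - R (y-t)))`. Kink of `A'`: `KNB` for
`T t t`; for the integral substitute `y → w + t - y` and use KL as in KNI.lean:
`jmp s l (w-t) (X1 (R w - L (w-t)) - X1 (L w - L (w-t))) + jmp s r t (X1 (R w - R (w-t)) - X1 (L w - R (w-t)))`.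
The sum is `∫ χ F` with `n = 0`, `e = 1` (see KNK.lean). -/
def SpecAKN : Prop :=
  ∀ D : Data, D.Ok → ∀ χ : ℝ → ℝ, Continuous χ → HasCompactSupport χ →
    ∃ A' : ℝ → ℝ, (∀ t, 0 < t → t < D.w →
        HasDerivAt (fun t => ∫ y in t..D.w, D.T χ t y) (A' t) t) ∧
      ∀ t, 0 < t → t < D.w → Kink A' t (∫ ξ, χ ξ * F D (fun _ => 0) 1 ξ t)

/-- AFQ (100 lines). From AFB, AKN (see FEQ.lean). -/
def SpecAFQ : Prop :=
  ∀ D D' : Data, D.Ok → D'.Ok → D'.w = D.w → ∀ α β : ℝ,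
    (∀ ξ t, 0 ≤ t → t ≤ D.w → α * Ar D ξ t = β * Ar D' ξ t) → ∀ t, 0 < t → t < D.w →
    Dense (fun ξ => F D (fun _ => 0) α ξ t) (fun ξ => F D' (fun _ => 0) β ξ t)

/-! ## E. The theorem -/

/-- The theorem for all valuations. -/
def Final2 : Prop :=
  ∀ (K H : Set Pl) (φ ψ : Set Pl → ℝ), IsPhi φ → IsPhi ψ → (∃ A, CC A ∧ φ A ≠ 0) →
    (∃ A, CC A ∧ ψ A ≠ 0) → (∃ S : Finset Pl, K = convexHull ℝ (S : Set Pl)) →
    (interior K).Nonempty → CC H → (interior H).Nonempty →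
    (∀ x, cov φ K x = cov ψ H x) → ∃ t, H = tr t K ∨ H = tr t (refl K)

end Pool.MP671
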