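import Pool.Agent.Lib.MP_671ac3_gt.Spec
import Pool.Agent.Lib.MP_671ac3_gt.Spec2

section
/-! Module KL: one-sided derivatives of a parametric integral. -/
namespace Pool.MP671

open MeasureTheory Filter Topology Set

namespace KL

theorem H_deriv (A B Ψ : ℝ → ℝ) (t₀ : ℝ) (CA CB : NNReal) (hA : LipschitzWith CA A)
    (hB : LipschitzWith CB B) (hΨ : Continuous Ψ) :
    HasDerivAt (fun t => ∫ y in t₀..t, Ψ (A y - B (y - t))) (Ψ (A t₀ - B 0)) t₀ := by
  rw [hasDerivAt_iff_isLittleO, Asymptotics.isLittleO_iff]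
  intro ε hε
  have hc := Metric.continuousAt_iff.mp (hΨ.continuousAt (x := A t₀ - B 0)) ε hε
  obtain ⟨η, hη, hc⟩ := hc
  have hK : (0 : ℝ) < CA + CB + 1 := by positivity
  have hev : ∀ᶠ t in 𝓝 t₀, |t - t₀| < η / (CA + CB + 1) := by
    have := Metric.ball_mem_nhds t₀ (div_pos hη hK)
    filter_upwards [this] with t ht
    rwa [Metric.mem_ball, Real.dist_eq] at ht
  filter_upwards [hev] with t ht
  have hcont : Continuous fun y => Ψ (A y - B (y - t)) :=
    hΨ.comp (hA.continuous.sub (hB.continuous.comp (continuous_id.sub continuous_const)))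
  rw [intervalIntegral.integral_same, sub_zero]
  have e : (∫ y in t₀..t, Ψ (A y - B (y - t))) - (t - t₀) • Ψ (A t₀ - B 0) =
      ∫ y in t₀..t, (Ψ (A y - B (y - t)) - Ψ (A t₀ - B 0)) := by
    rw [intervalIntegral.integral_sub (hcont.intervalIntegrable _ _)
      (continuous_const.intervalIntegrable _ _), intervalIntegral.integral_const]
  rw [e, Real.norm_eq_abs (t - t₀)]
  apply intervalIntegral.norm_integral_le_of_norm_le_const
  intro y hy
  have hy' := uIoc_subset_uIcc hy
  have h1 : |y - t₀| ≤ |t - t₀| := abs_sub_left_of_mem_uIcc hy'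
  have h2 : |t - y| ≤ |t - t₀| := abs_sub_right_of_mem_uIcc hy'
  have h3 : |A y - A t₀| ≤ CA * |y - t₀| := by
    have := hA.dist_le_mul y t₀
    rwa [Real.dist_eq, Real.dist_eq] at this
  have h4 : |B (y - t) - B 0| ≤ CB * |t - y| := by
    have := hB.dist_le_mul (y - t) 0
    rw [Real.dist_eq, Real.dist_eq, sub_zero, abs_sub_comm y t] at this
    exact this
  have h5 : dist (A y - B (y - t)) (A t₀ - B 0) < η := by
    rw [Real.dist_eq]
    have e1 : A y - B (y - t) - (A t₀ - B 0) = (A y - A t₀) - (B (y - t) - B 0) := by ring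
    rw [e1]
    calc |(A y - A t₀) - (B (y - t) - B 0)| ≤ |A y - A t₀| + |B (y - t) - B 0| := abs_sub _ _
      _ ≤ CA * |t - t₀| + CB * |t - t₀| :=
          add_le_add (h3.trans (mul_le_mul_of_nonneg_left h1 CA.2))
            (h4.trans (mul_le_mul_of_nonneg_left h2 CB.2))
      _ ≤ (CA + CB + 1) * |t - t₀| := by nlinarith [abs_nonneg (t - t₀)]
      _ < η := by rwa [lt_div_iff₀ hK, mul_comm] at ht
  have := (hc h5).le
  rwa [Real.dist_eq] at this

end KL

open KL in
theorem specKL : SpecKL := by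
  intro f A B Ψ Ψ' t₀ w cp cm δ M CA CB htw hδ hf hM hcp hcm hA hB hΨ hΨ'
  have hΨc : Continuous Ψ := continuous_iff_continuousAt.mpr fun z => (hΨ z).continuousAt
  have hcont : ∀ t, Continuous fun y => Ψ (A y - B (y - t)) := fun t =>
    hΨc.comp (hA.continuous.sub (hB.continuous.comp (continuous_id.sub continuous_const)))
  have hM0 : 0 ≤ M := (abs_nonneg _).trans (hM 0)
  have hint : ∀ t a b, IntervalIntegrable (fun y => f y * Ψ (A y - B (y - t))) volume a b := by
    intro t a b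
    have h := (hcont t).intervalIntegrable (μ := volume) a b
    rw [intervalIntegrable_iff] at h ⊢
    exact Integrable.bdd_mul (c := M) h hf.aestronglyMeasurable
      (Eventually.of_forall fun y => hM y)
  have hJ : ∀ t, ∫ y in t..w, f y * Ψ (A y - B (y - t)) =
      (∫ y in t₀..w, f y * Ψ (A y - B (y - t))) - ∫ y in t₀..t, f y * Ψ (A y - B (y - t)) := by
    intro t
    rw [intervalIntegral.integral_interval_sub_left (hint t _ _) (hint t _ _)]
  -- the first part
  have hJ1 : ∃ D, HasDerivAt (fun t => ∫ y in t₀..w, f y * Ψ (A y - B (y - t))) D t₀ := by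
    set R : ℝ := |A t₀| + CA * (w - t₀) + (|B 0| + CB * (w - t₀ + 1)) with hR
    have hR0 : 0 ≤ R := by
      have h1 : 0 ≤ (CA : ℝ) * (w - t₀) := mul_nonneg CA.2 (by linarith)
      have h2 : 0 ≤ (CB : ℝ) * (w - t₀ + 1) := mul_nonneg CB.2 (by linarith)
      positivity
    obtain ⟨K, hK⟩ := (isCompact_Icc (a := -R) (b := R)).exists_bound_of_continuousOn
      hΨ'.continuousOn
    have hK0 : 0 ≤ K := (norm_nonneg _).trans (hK 0 ⟨by linarith, hR0⟩)
    have harg : ∀ y ∈ Icc t₀ w, ∀ t ∈ Icc (t₀ - 1) (t₀ + 1), A y - B (y - t) ∈ Icc (-R) R := by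
      intro y hy t ht
      apply abs_le.mp
      have h1 : |A y| ≤ |A t₀| + CA * (w - t₀) := by
        have := hA.dist_le_mul y t₀
        rw [Real.dist_eq, Real.dist_eq, abs_of_nonneg (by linarith [hy.1] : 0 ≤ y - t₀)] at this
        have h2 : (CA : ℝ) * (y - t₀) ≤ CA * (w - t₀) :=
          mul_le_mul_of_nonneg_left (by linarith [hy.2]) CA.2
        have h3 := abs_sub_abs_le_abs_sub (A y) (A t₀)
        linarith
      have h2 : |B (y - t)| ≤ |B 0| + CB * (w - t₀ + 1) := by
        have := hB.dist_le_mul (y - t) 0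
        rw [Real.dist_eq, Real.dist_eq, sub_zero] at this
        have h4 : |y - t| ≤ w - t₀ + 1 := by
          rw [abs_le]
          constructor <;> linarith [hy.1, hy.2, ht.1, ht.2]
        have h5 : (CB : ℝ) * |y - t| ≤ CB * (w - t₀ + 1) := mul_le_mul_of_nonneg_left h4 CB.2
        have h3 := abs_sub_abs_le_abs_sub (B (y - t)) (B 0)
        linarith
      calc |A y - B (y - t)| ≤ |A y| + |B (y - t)| := abs_sub _ _
        _ ≤ R := by rw [hR]; exact add_le_add h1 h2
    have hIoc : uIoc t₀ w = Ioc t₀ w := uIoc_of_le htw.le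
    have hae : ∀ᵐ y : ℝ, DifferentiableAt ℝ B (y - t₀) :=
      (measurePreserving_sub_right volume t₀).quasiMeasurePreserving.ae
        hB.ae_differentiableAt_real
    have := intervalIntegral.hasDerivAt_integral_of_dominated_loc_of_lip (μ := volume)
      (F := fun t y => f y * Ψ (A y - B (y - t)))
      (F' := fun y => f y * (Ψ' (A y - B (y - t₀)) * deriv B (y - t₀)))
      (x₀ := t₀) (a := t₀) (b := w) (s := Icc (t₀ - 1) (t₀ + 1)) (bound := fun _ => M * K * CB)
      (Icc_mem_nhds (by linarith) (by linarith))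
      (Eventually.of_forall fun t => (hf.mul (hcont t).measurable).aestronglyMeasurable)
      (hint t₀ _ _)
      ((hf.mul ((hΨ'.comp (hA.continuous.sub
        (hB.continuous.comp (continuous_id.sub continuous_const)))).measurable.mul
          ((measurable_deriv B).comp (measurable_id.sub_const t₀)))).aestronglyMeasurable)
      (Eventually.of_forall fun y hy => by
        rw [hIoc] at hy
        have hy' : y ∈ Icc t₀ w := ⟨hy.1.le, hy.2⟩
        apply LipschitzOnWith.of_dist_le_mul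
        intro t ht t' ht'
        rw [Real.dist_eq, Real.dist_eq]
        have h1 : |Ψ (A y - B (y - t)) - Ψ (A y - B (y - t'))| ≤
            K * |(A y - B (y - t)) - (A y - B (y - t'))| := by
          have := (convex_Icc (-R) R).norm_image_sub_le_of_norm_hasDerivWithin_le
            (f := Ψ) (f' := Ψ') (fun x _ => (hΨ x).hasDerivWithinAt) hK (harg y hy' t' ht')
            (harg y hy' t ht)
          exact this
        have h2 : |(A y - B (y - t)) - (A y - B (y - t'))| ≤ CB * |t - t'| := by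
          have := hB.dist_le_mul (y - t') (y - t)
          rw [Real.dist_eq, Real.dist_eq] at this
          have e1 : (A y - B (y - t)) - (A y - B (y - t')) = B (y - t') - B (y - t) := by ring
          have e2 : (y - t') - (y - t) = t - t' := by ring
          rw [e1]
          rwa [e2] at this
        rw [← mul_sub, abs_mul]
        have e3 : ((Real.nnabs (M * K * CB) : NNReal) : ℝ) = M * K * CB := by
          rw [Real.coe_nnabs]
          exact abs_of_nonneg (mul_nonneg (mul_nonneg hM0 hK0) CB.2)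
        rw [e3]
        calc |f y| * |Ψ (A y - B (y - t)) - Ψ (A y - B (y - t'))|
            ≤ M * (K * (CB * |t - t'|)) :=
              mul_le_mul (hM y) (h1.trans (mul_le_mul_of_nonneg_left h2 hK0)) (abs_nonneg _) hM0
          _ = M * K * CB * |t - t'| := by ring)
      intervalIntegrable_const
      (by
        filter_upwards [hae] with y hy _
        have h1 : HasDerivAt (fun t => B (y - t)) (deriv B (y - t₀) * (-1)) t₀ := by
          have h2 : HasDerivAt (fun t : ℝ => y - t) (-1) t₀ := by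
            simpa using (hasDerivAt_id t₀).const_sub y
          exact HasDerivAt.comp t₀ hy.hasDerivAt h2
        have h3 : HasDerivAt (fun t => A y - B (y - t)) (deriv B (y - t₀)) t₀ := by
          have := h1.const_sub (A y)
          simpa using this
        exact ((hΨ (A y - B (y - t₀))).comp t₀ h3).const_mul (f y))
    exact ⟨_, this.2⟩
  obtain ⟨D, hD⟩ := hJ1
  -- the second part
  have hH := H_deriv A B Ψ t₀ CA CB hA hB hΨc
  have hR : HasDerivWithinAt (fun t => ∫ y in t₀..t, f y * Ψ (A y - B (y - t)))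
      (cp * Ψ (A t₀ - B 0)) (Ici t₀) t₀ := by
    have h1 := (hH.const_mul cp).hasDerivWithinAt (s := Ici t₀)
    refine h1.congr_of_eventuallyEq ?_ ?_
    · have : ∀ᶠ t in 𝓝[Ici t₀] t₀, t < t₀ + δ :=
        mem_nhdsWithin_of_mem_nhds (Iio_mem_nhds (by linarith))
      filter_upwards [this, self_mem_nhdsWithin] with t ht ht'
      rw [← intervalIntegral.integral_const_mul]
      apply intervalIntegral.integral_congr_ae
      refine Eventually.of_forall fun y hy => ?_
      rw [uIoc_of_le ht'] at hy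
      rw [hcp y ⟨hy.1, lt_of_le_of_lt hy.2 ht⟩]
    · simp
  have hL : HasDerivWithinAt (fun t => ∫ y in t₀..t, f y * Ψ (A y - B (y - t)))
      (cm * Ψ (A t₀ - B 0)) (Iic t₀) t₀ := by
    have h1 := (hH.const_mul cm).hasDerivWithinAt (s := Iic t₀)
    refine h1.congr_of_eventuallyEq ?_ ?_
    · have : ∀ᶠ t in 𝓝[Iic t₀] t₀, t₀ - δ < t :=
        mem_nhdsWithin_of_mem_nhds (Ioi_mem_nhds (by linarith))
      filter_upwards [this, self_mem_nhdsWithin] with t ht ht'
      rw [← intervalIntegral.integral_const_mul]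
      apply intervalIntegral.integral_congr_ae
      have hne : ∀ᵐ y : ℝ, y ∉ ({t₀} : Set ℝ) := (countable_singleton t₀).ae_notMem volume
      filter_upwards [hne] with y hy0 hy
      rw [uIoc_of_ge ht'] at hy
      have hy1 : y < t₀ := lt_of_le_of_ne hy.2 (fun h => hy0 (by rw [h]; rfl))
      rw [hcm y ⟨lt_trans ht hy.1, hy1⟩]
    · simp
  refine ⟨D - cp * Ψ (A t₀ - B 0), D - cm * Ψ (A t₀ - B 0), ?_, ?_, ?_⟩
  · have := hD.hasDerivWithinAt.sub hR
    exact this.congr (fun t _ => hJ t) (hJ t₀)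
  · have := hD.hasDerivWithinAt.sub hL
    exact this.congr (fun t _ => hJ t) (hJ t₀)
  · ring

end Pool.MP671
end

section
/-!
# MP_671ac3_gt, module KNB : kinks of the boundary terms
-/
namespace Pool.MP671

open MeasureTheory

namespace KNB

theorem kink_add {f g : ℝ → ℝ} {t a b : ℝ} (hf : Kink f t a) (hg : Kink g t b) :
    Kink (fun x => f x + g x) t (a + b) := by
  obtain ⟨x, y, h1, h2, h3⟩ := hf
  obtain ⟨x', y', h1', h2', h3'⟩ := hg
  exact ⟨x + x', y + y', h1.add h1', h2.add h2', by linarith⟩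

theorem kink_sub {f g : ℝ → ℝ} {t a b : ℝ} (hf : Kink f t a) (hg : Kink g t b) :
    Kink (fun x => f x - g x) t (a - b) := by
  obtain ⟨x, y, h1, h2, h3⟩ := hf
  obtain ⟨x', y', h1', h2', h3'⟩ := hg
  exact ⟨x - x', y - y', h1.sub h1', h2.sub h2', by linarith⟩

theorem kink_comp {f Ψ Ψ' : ℝ → ℝ} {t a : ℝ} (c : ℝ) (hf : Kink f t a)
    (hΨ : ∀ z, HasDerivAt Ψ (Ψ' z) z) :
    Kink (fun x => Ψ (f x - c)) t (a * Ψ' (f t - c)) := by
  obtain ⟨x, y, h1, h2, h3⟩ := hf
  refine ⟨Ψ' (f t - c) * x, Ψ' (f t - c) * y, ?_, ?_, by rw [← h3]; ring⟩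
  · exact (hΨ (f t - c)).comp_hasDerivWithinAt t (h1.sub_const c)
  · exact (hΨ (f t - c)).comp_hasDerivWithinAt t (h2.sub_const c)

theorem kink_comp' {f Ψ Ψ' : ℝ → ℝ} {t a : ℝ} (c : ℝ) (hf : Kink f t a)
    (hΨ : ∀ z, HasDerivAt Ψ (Ψ' z) z) :
    Kink (fun x => Ψ (c - f x)) t (-a * Ψ' (c - f t)) := by
  obtain ⟨x, y, h1, h2, h3⟩ := hf
  refine ⟨Ψ' (c - f t) * (-x), Ψ' (c - f t) * (-y), ?_, ?_, by rw [← h3]; ring⟩
  · exact (hΨ (c - f t)).comp_hasDerivWithinAt t (h1.const_sub c)
  · exact (hΨ (c - f t)).comp_hasDerivWithinAt t (h2.const_sub c)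

theorem right_deriv {g : ℝ → ℝ} {t δ c : ℝ} (hδ : 0 < δ)
    (h : ∀ y ∈ Set.Icc t (t + δ), g y = g t + c * (y - t)) :
    HasDerivWithinAt g c (Set.Ici t) t := by
  have h1 : HasDerivAt (fun y => g t + c * (y - t)) c t := by
    have := (((hasDerivAt_id t).sub_const t).const_mul c).const_add (g t)
    simpa using this
  refine h1.hasDerivWithinAt.congr_of_eventuallyEq ?_ (by simp)
  have : Set.Icc t (t + δ) ∈ nhdsWithin t (Set.Ici t) := Icc_mem_nhdsGE (by linarith)
  filter_upwards [this] with y hy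
  exact h y hy

theorem left_deriv {g : ℝ → ℝ} {t δ c : ℝ} (hδ : 0 < δ)
    (h : ∀ y ∈ Set.Icc (t - δ) t, g y = g t + c * (y - t)) :
    HasDerivWithinAt g c (Set.Iic t) t := by
  have h1 : HasDerivAt (fun y => g t + c * (y - t)) c t := by
    have := (((hasDerivAt_id t).sub_const t).const_mul c).const_add (g t)
    simpa using this
  refine h1.hasDerivWithinAt.congr_of_eventuallyEq ?_ (by simp)
  have : Set.Icc (t - δ) t ∈ nhdsWithin t (Set.Iic t) := Icc_mem_nhdsLE (by linarith)
  filter_upwards [this] with y hy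
  exact h y hy

/-- slopes of `L` on both sides -/
theorem slopeL (hC : SpecCHN) (D : Data) (hD : D.Ok) (t : ℝ) (h0 : 0 < t) (h1 : t < D.w) :
    ∃ i j δ, 0 < δ ∧ (∀ y ∈ Set.Icc t (t + δ), D.L y = D.L t + D.s j * (y - t)) ∧
      (∀ y ∈ Set.Icc (t - δ) t, D.L y = D.L t + D.s i * (y - t)) ∧
      ∀ κ : ℕ → ℝ, κ j - κ i = jmp D.m κ D.l t := by
  obtain ⟨i, j, δ, hij, hjm, hδ, h⟩ := hC D.m D.l hD.hl t h0 (by rw [hD.hlw]; exact h1)
  refine ⟨i, j, δ, hδ, (h D.s).1, (h D.s).2.1, fun κ => ?_⟩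
  rw [(h κ).2.2, jmp]

/-- slopes of `R` on both sides -/
theorem slopeR (hC : SpecCHN) (D : Data) (hD : D.Ok) (t : ℝ) (h0 : 0 < t) (h1 : t < D.w) :
    ∃ i j δ, 0 < δ ∧ (∀ y ∈ Set.Icc t (t + δ), D.R y = D.R t + D.s i * (y - t)) ∧
      (∀ y ∈ Set.Icc (t - δ) t, D.R y = D.R t + D.s j * (y - t)) ∧
      ∀ κ : ℕ → ℝ, κ j - κ i = jmp D.m κ D.r (D.w - t) := by
  obtain ⟨i, j, δ, hij, hjm, hδ, h⟩ := hC D.m D.r hD.hr (D.w - t) (by linarith)
    (by rw [hD.hrw]; linarith)
  refine ⟨i, j, δ, hδ, ?_, ?_, fun κ => ?_⟩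
  · intro y hy
    have := (h D.s).2.1 (D.w - y) ⟨by linarith [hy.2], by linarith [hy.1]⟩
    simp only [Data.R]
    rw [this]
    ring
  · intro y hy
    have := (h D.s).1 (D.w - y) ⟨by linarith [hy.2], by linarith [hy.1]⟩
    simp only [Data.R]
    rw [this]
    ring
  · rw [(h κ).2.2, jmp]

theorem kinkL (hC : SpecCHN) (D : Data) (hD : D.Ok) (t : ℝ) (h0 : 0 < t) (h1 : t < D.w) :
    Kink D.L t (jmp D.m D.s D.l t) := by
  obtain ⟨i, j, δ, hδ, ha, hb, hc⟩ := slopeL hC D hD t h0 h1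
  exact ⟨D.s j, D.s i, right_deriv hδ ha, left_deriv hδ hb, hc D.s⟩

theorem kinkR (hC : SpecCHN) (D : Data) (hD : D.Ok) (t : ℝ) (h0 : 0 < t) (h1 : t < D.w) :
    Kink D.R t (-jmp D.m D.s D.r (D.w - t)) := by
  obtain ⟨i, j, δ, hδ, ha, hb, hc⟩ := slopeR hC D hD t h0 h1
  exact ⟨D.s i, D.s j, right_deriv hδ ha, left_deriv hδ hb, by rw [← hc D.s]; ring⟩

/-- the kink does not change under reflection -/
theorem kink_refl {g : ℝ → ℝ} {w t a : ℝ} (h : Kink g (w - t) a) :
    Kink (fun x => g (w - x)) t a := by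
  obtain ⟨x, y, h1, h2, h3⟩ := h
  have hd : ∀ s : Set ℝ, HasDerivWithinAt (fun x : ℝ => w - x) (-1) s t := fun s =>
    ((hasDerivAt_id t).const_sub w).hasDerivWithinAt
  refine ⟨-y, -x, ?_, ?_, by linarith⟩
  · have := h2.comp (h := fun x : ℝ => w - x) t (hd (Set.Ici t)) (fun z hz => by
      simp only [Set.mem_Ici] at hz
      simp only [Set.mem_Iic]
      linarith)
    simpa [Function.comp_def] using this
  · have := h1.comp (h := fun x : ℝ => w - x) t (hd (Set.Iic t)) (fun z hz => by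
      simp only [Set.mem_Iic] at hz
      simp only [Set.mem_Ici]
      linarith)
    simpa [Function.comp_def] using this

end KNB

open KNB in
theorem specKNB (hXX : SpecXX) (hCHN : SpecCHN) (_hCHA : SpecCHA) (_hBOD : SpecBOD) :
    SpecKNB := by
  intro D hD χ hχ hχ' t h0 h1
  obtain ⟨-, hX2, -, -, -⟩ := hXX χ hχ hχ'
  constructor
  · have hL : Kink (fun x => D.L (D.w - x)) t (jmp D.m D.s D.l (D.w - t)) :=
      kink_refl (kinkL hCHN D hD (D.w - t) (by linarith) (by linarith))
    have hR : Kink (fun x => D.R (D.w - x)) t (-jmp D.m D.s D.r t) := by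
      have := kink_refl (kinkR hCHN D hD (D.w - t) (by linarith) (by linarith))
      rwa [sub_sub_cancel] at this
    have k1 := kink_comp' (D.R D.w) hL hX2
    have k2 := kink_comp' (D.R D.w) hR hX2
    have k3 := kink_comp' (D.L D.w) hL hX2
    have k4 := kink_comp' (D.L D.w) hR hX2
    have := kink_add (kink_sub (kink_sub k1 k2) k3) k4
    have e : (fun t => D.T χ t D.w) = fun x =>
        X2 χ (D.R D.w - D.L (D.w - x)) - X2 χ (D.R D.w - D.R (D.w - x))
          - X2 χ (D.L D.w - D.L (D.w - x)) + X2 χ (D.L D.w - D.R (D.w - x)) := rfl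
    rw [e]
    obtain ⟨x, y, ha, hb, hc⟩ := this
    exact ⟨x, y, ha, hb, by rw [hc]; ring⟩
  · have hL := kinkL hCHN D hD t h0 h1
    have hR := kinkR hCHN D hD t h0 h1
    have k1 := kink_comp (D.L 0) hR hX2
    have k2 := kink_comp (D.R 0) hR hX2
    have k3 := kink_comp (D.L 0) hL hX2
    have k4 := kink_comp (D.R 0) hL hX2
    have := kink_add (kink_sub (kink_sub k1 k2) k3) k4
    have e : (fun t => D.T χ t t) = fun x =>
        X2 χ (D.R x - D.L 0) - X2 χ (D.R x - D.R 0)
          - X2 χ (D.L x - D.L 0) + X2 χ (D.L x - D.R 0) := by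
      funext x
      simp only [Data.T, sub_self]
    rw [e]
    obtain ⟨x, y, ha, hb, hc⟩ := this
    exact ⟨x, y, ha, hb, by rw [hc]; ring⟩

end Pool.MP671
end

section
/-!
# MP_671ac3_gt, module KNI : kinks of the integral of the density
-/
namespace Pool.MP671

open MeasureTheory

namespace KNI

/-- a bounded measurable function which is constant on both sides of `t`, with jump `a` -/
def FF (f : ℝ → ℝ) (t a : ℝ) : Prop :=
  Measurable f ∧ (∃ M, ∀ y, |f y| ≤ M) ∧ ∃ cp cm δ, 0 < δ ∧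
    (∀ y ∈ Set.Ioo t (t + δ), f y = cp) ∧ (∀ y ∈ Set.Ioo (t - δ) t, f y = cm) ∧ cp - cm = a

theorem FF.refl {f : ℝ → ℝ} {w t a : ℝ} (h : FF f (w - t) a) : FF (fun y => f (w - y)) t (-a) := by
  obtain ⟨h1, ⟨M, h2⟩, cp, cm, δ, hδ, hp, hm, he⟩ := h
  refine ⟨h1.comp (by fun_prop), ⟨M, fun y => h2 _⟩, cm, cp, δ, hδ, ?_, ?_, by rw [← he]; ring⟩
  · intro y hy
    exact hm (w - y) ⟨by linarith [hy.2], by linarith [hy.1]⟩
  · intro y hy
    exact hp (w - y) ⟨by linarith [hy.2], by linarith [hy.1]⟩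

theorem int_mul {f g : ℝ → ℝ} {t a : ℝ} (hf : FF f t a) (hg : Continuous g) (x y : ℝ) :
    IntervalIntegrable (fun z => f z * g z) volume x y := by
  obtain ⟨h1, ⟨M, h2⟩, -⟩ := hf
  have hi := hg.intervalIntegrable (μ := volume) x y
  exact ⟨hi.1.bdd_mul h1.aestronglyMeasurable (Filter.Eventually.of_forall h2),
    hi.2.bdd_mul h1.aestronglyMeasurable (Filter.Eventually.of_forall h2)⟩

theorem term (hKL : SpecKL) {χ : ℝ → ℝ} (hχ : Continuous χ)
    (hX : ∀ z, HasDerivAt (X1 χ) (χ z) z) {f A B : ℝ → ℝ} {t w a : ℝ} {CA CB : NNReal}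
    (htw : t < w) (hf : FF f t a) (hA : LipschitzWith CA A) (hB : LipschitzWith CB B) :
    Kink (fun t => ∫ y in t..w, f y * X1 χ (A y - B (y - t))) t (-a * X1 χ (A t - B 0)) := by
  obtain ⟨h1, ⟨M, h2⟩, cp, cm, δ, hδ, hp, hm, he⟩ := hf
  have := hKL f A B (X1 χ) χ t w cp cm δ M CA CB htw hδ h1 h2 hp hm hA hB hX hχ
  rwa [he] at this

theorem deriv_aff {g : ℝ → ℝ} {a b c d x₀ y : ℝ}
    (h : ∀ z ∈ Set.Icc a b, g z = c + d * (z - x₀)) (hy : y ∈ Set.Ioo a b) : deriv g y = d := by
  have h1 : HasDerivAt (fun z => c + d * (z - x₀)) d y := by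
    have := (((hasDerivAt_id y).sub_const x₀).const_mul d).const_add c
    simpa using this
  have h2 : g =ᶠ[nhds y] fun z => c + d * (z - x₀) := by
    filter_upwards [Icc_mem_nhds hy.1 hy.2] with z hz
    exact h z hz
  exact (h1.congr_of_eventuallyEq h2).deriv

theorem bdd {n g : ℝ → ℝ} (hn : Continuous n) {C : NNReal} (hg : LipschitzWith C g) :
    ∃ M, ∀ y, |n (deriv g y)| ≤ M := by
  obtain ⟨M, hM⟩ := (isCompact_Icc (a := -(C : ℝ)) (b := (C : ℝ))).exists_bound_of_continuousOn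
    hn.continuousOn
  refine ⟨M, fun y => ?_⟩
  have h1 : |deriv g y| ≤ C := by
    have := norm_deriv_le_of_lipschitz (x₀ := y) hg
    simpa [Real.norm_eq_abs] using this
  exact hM (deriv g y) (abs_le.1 h1)

theorem ffL (hC : SpecCHN) (hB : SpecBOD) (D : Data) (hD : D.Ok) {n : ℝ → ℝ} (hn : Continuous n)
    (t : ℝ) (h0 : 0 < t) (h1 : t < D.w) :
    FF (fun y => n (deriv D.L y)) t (jmp D.m (fun j => n (D.s j)) D.l t) := by
  obtain ⟨i, j, δ, hδ, ha, hb, hc⟩ := KNB.slopeL hC D hD t h0 h1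
  obtain ⟨C, hL⟩ := (hB D hD).2.2.2.2.2.2.2.2.1
  refine ⟨hn.measurable.comp (measurable_deriv _), bdd hn hL, n (D.s j), n (D.s i), δ, hδ, ?_, ?_,
    hc (fun j => n (D.s j))⟩
  · intro y hy
    simp only [deriv_aff ha hy]
  · intro y hy
    simp only [deriv_aff hb hy]

theorem ffR (hC : SpecCHN) (hB : SpecBOD) (D : Data) (hD : D.Ok) {n : ℝ → ℝ} (hn : Continuous n)
    (t : ℝ) (h0 : 0 < t) (h1 : t < D.w) :
    FF (fun y => n (deriv D.R y)) t (-jmp D.m (fun j => n (D.s j)) D.r (D.w - t)) := by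
  obtain ⟨i, j, δ, hδ, ha, hb, hc⟩ := KNB.slopeR hC D hD t h0 h1
  obtain ⟨C, hR⟩ := (hB D hD).2.2.2.2.2.2.2.2.2.1
  refine ⟨hn.measurable.comp (measurable_deriv _), bdd hn hR, n (D.s i), n (D.s j), δ, hδ, ?_, ?_,
    by rw [← hc (fun j => n (D.s j))]; ring⟩
  · intro y hy
    simp only [deriv_aff ha hy]
  · intro y hy
    simp only [deriv_aff hb hy]

theorem lip_refl {g : ℝ → ℝ} {C : NNReal} (hg : LipschitzWith C g) (w : ℝ) :
    LipschitzWith C (fun y => -g (w - y)) := by
  refine LipschitzWith.of_dist_le_mul fun x y => ?_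
  have h1 := hg.dist_le_mul (w - x) (w - y)
  rw [dist_neg_neg]
  refine h1.trans (le_of_eq ?_)
  rw [Real.dist_eq, Real.dist_eq]
  congr 1
  rw [← abs_neg]
  congr 1
  ring

/-- reflection of the integral -/
theorem int_refl (h : ℝ → ℝ) (t w : ℝ) :
    ∫ y in t..w, h y = ∫ y in t..w, h (w + t - y) := by
  rw [intervalIntegral.integral_comp_sub_left (fun y => h y) (w + t)]
  congr 1 <;> ring

end KNI

open KNI KNB in
theorem specKNI (hKL : SpecKL) (hXX : SpecXX) (hCHN : SpecCHN) (_hCHA : SpecCHA)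
    (hBOD : SpecBOD) : SpecKNI := by
  intro D hD n χ hn hχ hχ' t h0 h1
  obtain ⟨hX, -, -, -, -⟩ := hXX χ hχ hχ'
  obtain ⟨CL, hL⟩ := (hBOD D hD).2.2.2.2.2.2.2.2.1
  obtain ⟨CR, hR⟩ := (hBOD D hD).2.2.2.2.2.2.2.2.2.1
  have hXc : Continuous (X1 χ) := continuous_iff_continuousAt.2 fun z => (hX z).continuousAt
  have f1 := ffR hCHN hBOD D hD hn t h0 h1
  have f2 := ffL hCHN hBOD D hD hn t h0 h1
  have f3 : FF (fun y => n (deriv D.R (D.w - y))) t (jmp D.m (fun j => n (D.s j)) D.r t) := by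
    have := (ffR hCHN hBOD D hD hn (D.w - t) (by linarith) (by linarith)).refl
    rwa [neg_neg, sub_sub_cancel] at this
  have f4 : FF (fun y => n (deriv D.L (D.w - y))) t
      (-jmp D.m (fun j => n (D.s j)) D.l (D.w - t)) :=
    (ffL hCHN hBOD D hD hn (D.w - t) (by linarith) (by linarith)).refl
  have hLr := lip_refl hL D.w
  have hRr := lip_refl hR D.w
  -- the eight kinks
  have k1 := term hKL hχ hX h1 f1 hR hL
  have k2 := term hKL hχ hX h1 f1 hR hR
  have k3 := term hKL hχ hX h1 f2 hL hL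
  have k4 := term hKL hχ hX h1 f2 hL hR
  have k5 := term hKL hχ hX h1 f3 hRr hRr
  have k6 := term hKL hχ hX h1 f3 hRr hLr
  have k7 := term hKL hχ hX h1 f4 hLr hRr
  have k8 := term hKL hχ hX h1 f4 hLr hLr
  have K := kink_add (kink_add (kink_add (kink_sub k1 k2) (kink_sub k3 k4)) (kink_sub k5 k6))
    (kink_sub k7 k8)
  have e : (fun t => ∫ y in t..D.w, D.P n χ t y) = fun x =>
      ((∫ (y : ℝ) in x..D.w, n (deriv D.R y) * X1 χ (D.R y - D.L (y - x))) -
              ∫ (y : ℝ) in x..D.w, n (deriv D.R y) * X1 χ (D.R y - D.R (y - x))) +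
            ((∫ (y : ℝ) in x..D.w, n (deriv D.L y) * X1 χ (D.L y - D.L (y - x))) -
              ∫ (y : ℝ) in x..D.w, n (deriv D.L y) * X1 χ (D.L y - D.R (y - x))) +
          ((∫ (y : ℝ) in x..D.w, n (deriv D.R (D.w - y)) *
              X1 χ (-D.R (D.w - y) - -D.R (D.w - (y - x)))) -
            ∫ (y : ℝ) in x..D.w, n (deriv D.R (D.w - y)) *
              X1 χ (-D.R (D.w - y) - -D.L (D.w - (y - x)))) +
        ((∫ (y : ℝ) in x..D.w, n (deriv D.L (D.w - y)) *
              X1 χ (-D.L (D.w - y) - -D.R (D.w - (y - x)))) -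
          ∫ (y : ℝ) in x..D.w, n (deriv D.L (D.w - y)) *
              X1 χ (-D.L (D.w - y) - -D.L (D.w - (y - x)))) := by
    funext x
    have i1 := int_mul f1 (g := fun y => X1 χ (D.R y - D.L (y - x)))
      (hXc.comp (hR.continuous.sub (hL.continuous.comp (by fun_prop)))) x D.w
    have i2 := int_mul f1 (g := fun y => X1 χ (D.R y - D.R (y - x)))
      (hXc.comp (hR.continuous.sub (hR.continuous.comp (by fun_prop)))) x D.w
    have i3 := int_mul f2 (g := fun y => X1 χ (D.L y - D.L (y - x)))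
      (hXc.comp (hL.continuous.sub (hL.continuous.comp (by fun_prop)))) x D.w
    have i4 := int_mul f2 (g := fun y => X1 χ (D.L y - D.R (y - x)))
      (hXc.comp (hL.continuous.sub (hR.continuous.comp (by fun_prop)))) x D.w
    have m5 : FF (fun y => n (deriv D.R (y - x))) (t + x)
        (-jmp D.m (fun j => n (D.s j)) D.r (D.w - t)) := by
      obtain ⟨h1, ⟨M, h2⟩, cp, cm, δ, hδ, hp, hm, he⟩ := f1
      exact ⟨h1.comp (f := fun y => y - x) (by fun_prop), ⟨M, fun y => h2 _⟩, cp, cm, δ, hδ,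
        fun y hy => hp (y - x) ⟨by linarith [hy.1], by linarith [hy.2]⟩,
        fun y hy => hm (y - x) ⟨by linarith [hy.1], by linarith [hy.2]⟩, he⟩
    have m7 : FF (fun y => n (deriv D.L (y - x))) (t + x)
        (jmp D.m (fun j => n (D.s j)) D.l t) := by
      obtain ⟨h1, ⟨M, h2⟩, cp, cm, δ, hδ, hp, hm, he⟩ := f2
      exact ⟨h1.comp (f := fun y => y - x) (by fun_prop), ⟨M, fun y => h2 _⟩, cp, cm, δ, hδ,
        fun y hy => hp (y - x) ⟨by linarith [hy.1], by linarith [hy.2]⟩,
        fun y hy => hm (y - x) ⟨by linarith [hy.1], by linarith [hy.2]⟩, he⟩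
    have i5 := int_mul m5 (g := fun y => X1 χ (D.R y - D.R (y - x)))
      (hXc.comp (hR.continuous.sub (hR.continuous.comp (by fun_prop)))) x D.w
    have i6 := int_mul m5 (g := fun y => X1 χ (D.L y - D.R (y - x)))
      (hXc.comp (hL.continuous.sub (hR.continuous.comp (by fun_prop)))) x D.w
    have i7 := int_mul m7 (g := fun y => X1 χ (D.R y - D.L (y - x)))
      (hXc.comp (hR.continuous.sub (hL.continuous.comp (by fun_prop)))) x D.w
    have i8 := int_mul m7 (g := fun y => X1 χ (D.L y - D.L (y - x)))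
      (hXc.comp (hL.continuous.sub (hL.continuous.comp (by fun_prop)))) x D.w
    have s : ∫ y in x..D.w, D.P n χ x y =
        (((∫ y in x..D.w, n (deriv D.R y) * X1 χ (D.R y - D.L (y - x)))
          - ∫ y in x..D.w, n (deriv D.R y) * X1 χ (D.R y - D.R (y - x)))
        + ((∫ y in x..D.w, n (deriv D.L y) * X1 χ (D.L y - D.L (y - x)))
          - ∫ y in x..D.w, n (deriv D.L y) * X1 χ (D.L y - D.R (y - x)))
        + ((∫ y in x..D.w, n (deriv D.R (y - x)) * X1 χ (D.R y - D.R (y - x)))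
          - ∫ y in x..D.w, n (deriv D.R (y - x)) * X1 χ (D.L y - D.R (y - x))))
        + ((∫ y in x..D.w, n (deriv D.L (y - x)) * X1 χ (D.R y - D.L (y - x)))
          - ∫ y in x..D.w, n (deriv D.L (y - x)) * X1 χ (D.L y - D.L (y - x))) := by
      rw [← intervalIntegral.integral_sub i1 i2, ← intervalIntegral.integral_sub i3 i4,
        ← intervalIntegral.integral_sub i5 i6, ← intervalIntegral.integral_sub i7 i8,
        ← intervalIntegral.integral_add (i1.sub i2) (i3.sub i4),
        ← intervalIntegral.integral_add ((i1.sub i2).add (i3.sub i4)) (i5.sub i6),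
        ← intervalIntegral.integral_add (((i1.sub i2).add (i3.sub i4)).add (i5.sub i6))
          (i7.sub i8)]
      refine intervalIntegral.integral_congr fun y _ => ?_
      simp only [Data.P]
      ring
    rw [s, int_refl (fun y => n (deriv D.R (y - x)) * X1 χ (D.R y - D.R (y - x))),
      int_refl (fun y => n (deriv D.R (y - x)) * X1 χ (D.L y - D.R (y - x))),
      int_refl (fun y => n (deriv D.L (y - x)) * X1 χ (D.R y - D.L (y - x))),
      int_refl (fun y => n (deriv D.L (y - x)) * X1 χ (D.L y - D.L (y - x)))]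
    have z1 : ∀ y : ℝ, D.w + x - y - x = D.w - y := fun y => by ring
    have z2 : ∀ y : ℝ, D.w - (y - x) = D.w + x - y := fun y => by ring
    have z3 : ∀ a b : ℝ, -a - -b = b - a := fun a b => by ring
    simp only [z1, z2, z3]
  rw [e]
  obtain ⟨x, y, ha, hb, hc⟩ := K
  refine ⟨x, y, ha, hb, ?_⟩
  have z3 : ∀ a b : ℝ, -a - -b = b - a := fun a b => by ring
  rw [hc]
  simp only [z3, sub_zero]
  ring

end Pool.MP671
end

section
/-!
# MP_671ac3_gt, module KNK: the kink formula
-/
set_option autoImplicit false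

namespace Pool.MP671

open MeasureTheory

namespace KNK

theorem kink_add {f g : ℝ → ℝ} {t a b : ℝ} (hf : Kink f t a) (hg : Kink g t b) :
    Kink (fun x => f x + g x) t (a + b) := by
  obtain ⟨x, y, h1, h2, h3⟩ := hf
  obtain ⟨x', y', h1', h2', h3'⟩ := hg
  exact ⟨x + x', y + y', h1.add h1', h2.add h2', by rw [← h3, ← h3']; ring⟩

theorem kink_mul {f : ℝ → ℝ} {t a : ℝ} (c : ℝ) (hf : Kink f t a) :
    Kink (fun x => c * f x) t (c * a) := by
  obtain ⟨x, y, h1, h2, h3⟩ := hf
  exact ⟨c * x, c * y, h1.const_mul c, h2.const_mul c, by rw [← h3]; ring⟩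

theorem kink_congr {f g : ℝ → ℝ} {t w a : ℝ} (h0 : 0 < t) (hw : t < w)
    (h : ∀ x, 0 < x → x < w → g x = f x) (hf : Kink f t a) : Kink g t a := by
  obtain ⟨x, y, h1, h2, h3⟩ := hf
  have hev : ∀ᶠ z in nhds t, g z = f z := by
    filter_upwards [Ioo_mem_nhds h0 hw] with z hz
    exact h z hz.1 hz.2
  refine ⟨x, y, h1.congr_of_eventuallyEq (hev.filter_mono nhdsWithin_le_nhds) (h t h0 hw),
    h2.congr_of_eventuallyEq (hev.filter_mono nhdsWithin_le_nhds) (h t h0 hw), h3⟩

open Classical in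
theorem ind_int {χ : ℝ → ℝ} (hc : Continuous χ) (hs : HasCompactSupport χ) (c : Prop) (a b : ℝ) :
    Integrable (fun ξ => χ ξ * (if c then ind a b ξ else 0)) := by
  by_cases h : c
  · simp only [if_pos h]
    have e : (fun ξ => χ ξ * ind a b ξ) = (Set.Ioo a b).indicator χ := by
      funext ξ
      unfold ind Set.indicator
      by_cases hξ : a < ξ ∧ ξ < b
      · rw [if_pos hξ, if_pos (show ξ ∈ Set.Ioo a b from hξ), mul_one]
      · rw [if_neg hξ, if_neg (show ¬ ξ ∈ Set.Ioo a b from hξ), mul_zero]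
    rw [e]
    exact (hc.integrable_of_hasCompactSupport hs).indicator measurableSet_Ioo
  · simp only [if_neg h, mul_zero]
    exact integrable_zero _ _ _

theorem int4 {g1 g2 g3 g4 : ℝ → ℝ} (h1 : Integrable g1) (h2 : Integrable g2) (h3 : Integrable g3)
    (h4 : Integrable g4) (a b : ℝ) :
    Integrable (fun ξ => a * (g1 ξ + g2 ξ) + b * (g3 ξ + g4 ξ)) ∧
    ∫ ξ, (a * (g1 ξ + g2 ξ) + b * (g3 ξ + g4 ξ)) =
      a * ((∫ ξ, g1 ξ) + ∫ ξ, g2 ξ) + b * ((∫ ξ, g3 ξ) + ∫ ξ, g4 ξ) := by
  have e1 : Integrable (fun ξ => a * (g1 ξ + g2 ξ)) := (h1.add h2).const_mul a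
  have e2 : Integrable (fun ξ => b * (g3 ξ + g4 ξ)) := (h3.add h4).const_mul b
  refine ⟨e1.add e2, ?_⟩
  rw [integral_add e1 e2, integral_const_mul, integral_const_mul, integral_add h1 h2,
    integral_add h3 h4]

end KNK

open Classical in
/-- KNK -/
theorem specKNK (hFUB : SpecFUB) (hKNA : SpecKNA) (hKNB : SpecKNB) (hKNI : SpecKNI) (hXX : SpecXX)
    (hCHA : SpecCHA) (hBOD : SpecBOD) (hNPR : SpecNPR) : SpecKNK := by
  intro φ hφ D hD χ hc hs t ht htw
  obtain ⟨α, hα⟩ := hFUB φ hφ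
  obtain ⟨_, hlip⟩ := hNPR φ hφ
  obtain ⟨hL0, hLw, hR0, hRw, -⟩ := hBOD D hD
  obtain ⟨_, _, _, hXI, _⟩ := hXX χ hc hs
  have hncont : Continuous (nn φ) := by
    rw [Metric.continuous_iff]
    intro b ε hε
    refine ⟨ε / (|ee φ| + 1), by positivity, fun a hab => ?_⟩
    rw [Real.dist_eq] at hab ⊢
    have h1 := hlip a b
    have h2 : ee φ * |a - b| ≤ |ee φ| * |a - b| :=
      mul_le_mul_of_nonneg_right (le_abs_self _) (abs_nonneg _)
    have h3 : (|ee φ| + 1) * |a - b| < ε := by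
      rw [lt_div_iff₀ (by positivity)] at hab
      linarith
    nlinarith [abs_nonneg (a - b)]
  obtain ⟨_, _, hchR, _, _, _⟩ := hCHA D.m D.r hD.hr
  obtain ⟨_, _, hchL, _, _, _⟩ := hCHA D.m D.l hD.hl
  -- the kinks of the terms
  obtain ⟨kB1, kB2⟩ := hKNB D hD χ hc hs t ht htw
  have kA := hKNA D hD χ hc hs t ht htw
  have kI := hKNI D hD (nn φ) χ hncont hc hs t ht htw
  have htot := KNK.kink_congr (g := G φ (body D) χ) ht htw
    (fun x hx hxw => hα D hD χ hc hs x hx hxw)
    (KNK.kink_add (KNK.kink_add (KNK.kink_mul (ee φ) (KNK.kink_add kB2 kB1)) kI)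
      (KNK.kink_mul α kA))
  -- the integral of `χ F`
  have hp := hD.hp
  have hq := hD.hq
  have hFI : ∫ ξ, χ ξ * F D (nn φ) (ee φ) ξ t = ∑ k ∈ Finset.range (D.m - 1),
      (tp (nn φ) (ee φ) D.s k *
        ((if Yp D.r (k + 1) = t then X1 χ (Xp D.s D.r (k + 1)) - X1 χ (Xp D.s D.r (k + 1) - D.p)
            else 0)
        + (if Yp D.l (k + 1) = t then X1 χ (Xp D.s D.l (k + 1)) - X1 χ (Xp D.s D.l (k + 1) - D.q)
            else 0))
      + tm (nn φ) (ee φ) D.s k *
        ((if D.w - Yp D.l (k + 1) = t then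
            X1 χ (Xp D.s D.l D.m - Xp D.s D.l (k + 1) + D.p)
              - X1 χ (Xp D.s D.l D.m - Xp D.s D.l (k + 1)) else 0)
        + (if D.w - Yp D.r (k + 1) = t then
            X1 χ (Xp D.s D.r D.m - Xp D.s D.r (k + 1) + D.q)
              - X1 χ (Xp D.s D.r D.m - Xp D.s D.r (k + 1)) else 0))) := by
    have hone : ∀ (c : Prop) (a b : ℝ), a ≤ b →
        ∫ ξ, χ ξ * (if c then ind a b ξ else 0) = if c then X1 χ b - X1 χ a else 0 := by
      intro c a b hab
      by_cases h : c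
      · simp only [if_pos h]
        rw [hXI a b, if_pos hab]
      · simp only [if_neg h, mul_zero, integral_zero]
    unfold F
    simp only [Finset.mul_sum]
    rw [integral_finsetSum]
    · apply Finset.sum_congr rfl
      intro k _
      have e1 := KNK.ind_int hc hs (Yp D.r (k + 1) = t) (Xp D.s D.r (k + 1) - D.p)
        (Xp D.s D.r (k + 1))
      have e2 := KNK.ind_int hc hs (Yp D.l (k + 1) = t) (Xp D.s D.l (k + 1) - D.q)
        (Xp D.s D.l (k + 1))
      have e3 := KNK.ind_int hc hs (D.w - Yp D.l (k + 1) = t)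
        (Xp D.s D.l D.m - Xp D.s D.l (k + 1)) (Xp D.s D.l D.m - Xp D.s D.l (k + 1) + D.p)
      have e4 := KNK.ind_int hc hs (D.w - Yp D.r (k + 1) = t)
        (Xp D.s D.r D.m - Xp D.s D.r (k + 1)) (Xp D.s D.r D.m - Xp D.s D.r (k + 1) + D.q)
      rw [← hone _ _ _ (by linarith : Xp D.s D.r (k + 1) - D.p ≤ Xp D.s D.r (k + 1)),
        ← hone _ _ _ (by linarith : Xp D.s D.l (k + 1) - D.q ≤ Xp D.s D.l (k + 1)),
        ← hone _ _ _ (by linarith : Xp D.s D.l D.m - Xp D.s D.l (k + 1) ≤
          Xp D.s D.l D.m - Xp D.s D.l (k + 1) + D.p),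
        ← hone _ _ _ (by linarith : Xp D.s D.r D.m - Xp D.s D.r (k + 1) ≤
          Xp D.s D.r D.m - Xp D.s D.r (k + 1) + D.q),
        ← (KNK.int4 e1 e2 e3 e4 _ _).2]
      apply integral_congr_ae
      filter_upwards with ξ
      ring
    · intro k _
      have e1 := KNK.ind_int hc hs (Yp D.r (k + 1) = t) (Xp D.s D.r (k + 1) - D.p)
        (Xp D.s D.r (k + 1))
      have e2 := KNK.ind_int hc hs (Yp D.l (k + 1) = t) (Xp D.s D.l (k + 1) - D.q)
        (Xp D.s D.l (k + 1))
      have e3 := KNK.ind_int hc hs (D.w - Yp D.l (k + 1) = t)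
        (Xp D.s D.l D.m - Xp D.s D.l (k + 1)) (Xp D.s D.l D.m - Xp D.s D.l (k + 1) + D.p)
      have e4 := KNK.ind_int hc hs (D.w - Yp D.r (k + 1) = t)
        (Xp D.s D.r D.m - Xp D.s D.r (k + 1)) (Xp D.s D.r D.m - Xp D.s D.r (k + 1) + D.q)
      refine (KNK.int4 e1 e2 e3 e4 (tp (nn φ) (ee φ) D.s k) (tm (nn φ) (ee φ) D.s k)).1.congr ?_
      filter_upwards with ξ
      ring
  -- values of the boundary functions at the breaks
  have vR : ∀ y, D.R y = D.q + Xp D.s D.r D.m - ch D.m D.s D.r (D.w - y) := fun y => rfl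
  have vL : ∀ y, D.L y = ch D.m D.s D.l y := fun y => rfl
  have hcl := hD.hcl
  have hjmp : ∀ (κ a : ℕ → ℝ) (u c : ℝ), jmp D.m κ a u * c =
      ∑ k ∈ Finset.range (D.m - 1), if Yp a (k + 1) = u then (κ (k + 1) - κ k) * c else 0 := by
    intro κ a u c
    unfold jmp
    rw [Finset.sum_mul]
    apply Finset.sum_congr rfl
    intro k _
    split_ifs
    · rfl
    · rw [zero_mul]
  obtain ⟨x, y, hx, hy, hxy⟩ := htot
  refine ⟨x, y, hx, hy, ?_⟩
  rw [hxy, hFI, hLw, hRw, hL0, hR0]
  have hA : ∀ κ : ℕ → ℝ, jmp D.m κ D.r t * (X1 χ (D.q + Xp D.s D.r D.m - D.R (D.w - t)) -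
      X1 χ (Xp D.s D.l D.m - D.R (D.w - t))) = ∑ k ∈ Finset.range (D.m - 1),
      if Yp D.r (k + 1) = t then (κ (k + 1) - κ k) *
        (X1 χ (Xp D.s D.r (k + 1)) - X1 χ (Xp D.s D.r (k + 1) - D.p)) else 0 := by
    intro κ
    rw [hjmp]
    apply Finset.sum_congr rfl
    intro k hk
    have hkm : k + 1 ≤ D.m := by have := Finset.mem_range.mp hk; omega
    split_ifs with h
    · have h1 : D.R (D.w - t) = D.q + Xp D.s D.r D.m - Xp D.s D.r (k + 1) := by
        rw [vR, sub_sub_cancel, ← h, hchR D.s (k + 1) hkm]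
      rw [h1]
      have h2 : D.q + Xp D.s D.r D.m - (D.q + Xp D.s D.r D.m - Xp D.s D.r (k + 1)) =
        Xp D.s D.r (k + 1) := by ring
      have h3 : Xp D.s D.l D.m - (D.q + Xp D.s D.r D.m - Xp D.s D.r (k + 1)) =
        Xp D.s D.r (k + 1) - D.p := by linarith
      rw [h2, h3]
    · rfl
  have hB : ∀ κ : ℕ → ℝ, jmp D.m κ D.l t * (X1 χ (D.L t - 0) - X1 χ (D.L t - D.q)) =
      ∑ k ∈ Finset.range (D.m - 1),
      if Yp D.l (k + 1) = t then (κ (k + 1) - κ k) *
        (X1 χ (Xp D.s D.l (k + 1)) - X1 χ (Xp D.s D.l (k + 1) - D.q)) else 0 := by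
    intro κ
    rw [hjmp]
    apply Finset.sum_congr rfl
    intro k hk
    have hkm : k + 1 ≤ D.m := by have := Finset.mem_range.mp hk; omega
    split_ifs with h
    · have h1 : D.L t = Xp D.s D.l (k + 1) := by
        rw [vL, ← h, hchL D.s (k + 1) hkm]
      rw [h1, sub_zero]
    · rfl
  have hC : ∀ κ : ℕ → ℝ, jmp D.m κ D.l (D.w - t) *
      (X1 χ (D.q + Xp D.s D.r D.m - D.L (D.w - t)) - X1 χ (Xp D.s D.l D.m - D.L (D.w - t))) =
      ∑ k ∈ Finset.range (D.m - 1),
      if D.w - Yp D.l (k + 1) = t then (κ (k + 1) - κ k) *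
        (X1 χ (Xp D.s D.l D.m - Xp D.s D.l (k + 1) + D.p)
              - X1 χ (Xp D.s D.l D.m - Xp D.s D.l (k + 1))) else 0 := by
    intro κ
    rw [hjmp]
    apply Finset.sum_congr rfl
    intro k hk
    have hkm : k + 1 ≤ D.m := by have := Finset.mem_range.mp hk; omega
    by_cases h : Yp D.l (k + 1) = D.w - t
    · rw [if_pos h, if_pos (by linarith)]
      have h1 : D.L (D.w - t) = Xp D.s D.l (k + 1) := by
        rw [vL, ← h, hchL D.s (k + 1) hkm]
      rw [h1]
      have h2 : D.q + Xp D.s D.r D.m - Xp D.s D.l (k + 1) =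
        Xp D.s D.l D.m - Xp D.s D.l (k + 1) + D.p := by linarith
      rw [h2]
    · rw [if_neg h, if_neg (fun h' => h (by linarith))]
  have hE : ∀ κ : ℕ → ℝ, jmp D.m κ D.r (D.w - t) *
      (X1 χ (D.R t - 0) - X1 χ (D.R t - D.q)) =
      ∑ k ∈ Finset.range (D.m - 1),
      if D.w - Yp D.r (k + 1) = t then (κ (k + 1) - κ k) *
        (X1 χ (Xp D.s D.r D.m - Xp D.s D.r (k + 1) + D.q)
              - X1 χ (Xp D.s D.r D.m - Xp D.s D.r (k + 1))) else 0 := by
    intro κ
    rw [hjmp]
    apply Finset.sum_congr rfl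
    intro k hk
    have hkm : k + 1 ≤ D.m := by have := Finset.mem_range.mp hk; omega
    by_cases h : Yp D.r (k + 1) = D.w - t
    · rw [if_pos h, if_pos (by linarith)]
      have h1 : D.R t = D.q + Xp D.s D.r D.m - Xp D.s D.r (k + 1) := by
        rw [vR, ← h, hchR D.s (k + 1) hkm]
      rw [h1]
      have h2 : D.q + Xp D.s D.r D.m - Xp D.s D.r (k + 1) - 0 =
        Xp D.s D.r D.m - Xp D.s D.r (k + 1) + D.q := by ring
      have h3 : D.q + Xp D.s D.r D.m - Xp D.s D.r (k + 1) - D.q =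
        Xp D.s D.r D.m - Xp D.s D.r (k + 1) := by ring
      rw [h2, h3]
    · rw [if_neg h, if_neg (fun h' => h (by linarith))]
  simp only [neg_mul]
  rw [hA, hA, hB, hB, hC, hC, hE, hE]
  simp only [mul_zero, add_zero, ← Finset.sum_neg_distrib, ← Finset.sum_add_distrib,
    ← Finset.sum_sub_distrib, Finset.mul_sum]
  apply Finset.sum_congr rfl
  intro k _
  unfold tp tm
  split_ifs <;> ring

end Pool.MP671
end

section
/-!
# MP_671ac3_gt, module AKN : the kinks of the derivative of the area term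
-/
namespace Pool.MP671

open MeasureTheory Filter Topology

namespace AKN

open Set in
/-- the derivative of a parametric integral -/
theorem der {A B Ψ Ψ' : ℝ → ℝ} {t₀ w : ℝ} {CA CB : NNReal} (htw : t₀ < w)
    (hA : LipschitzWith CA A) (hB : LipschitzWith CB B) (hΨ : ∀ z, HasDerivAt Ψ (Ψ' z) z)
    (hΨ' : Continuous Ψ') :
    HasDerivAt (fun t => ∫ y in t..w, Ψ (A y - B (y - t)))
      ((∫ y in t₀..w, Ψ' (A y - B (y - t₀)) * deriv B (y - t₀)) - Ψ (A t₀ - B 0)) t₀ := by
  have hΨc : Continuous Ψ := continuous_iff_continuousAt.mpr fun z => (hΨ z).continuousAt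
  have hcont : ∀ t, Continuous fun y => Ψ (A y - B (y - t)) := fun t =>
    hΨc.comp (hA.continuous.sub (hB.continuous.comp (continuous_id.sub continuous_const)))
  have hint : ∀ t a b, IntervalIntegrable (fun y => Ψ (A y - B (y - t))) volume a b :=
    fun t a b => (hcont t).intervalIntegrable a b
  have hJ : ∀ t, ∫ y in t..w, Ψ (A y - B (y - t)) =
      (∫ y in t₀..w, Ψ (A y - B (y - t))) - ∫ y in t₀..t, Ψ (A y - B (y - t)) := by
    intro t
    rw [intervalIntegral.integral_interval_sub_left (hint t _ _) (hint t _ _)]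
  have hJ1 : HasDerivAt (fun t => ∫ y in t₀..w, Ψ (A y - B (y - t)))
      (∫ y in t₀..w, Ψ' (A y - B (y - t₀)) * deriv B (y - t₀)) t₀ := by
    set R : ℝ := |A t₀| + CA * (w - t₀) + (|B 0| + CB * (w - t₀ + 1)) with hR
    have hR0 : 0 ≤ R := by
      have h1 : 0 ≤ (CA : ℝ) * (w - t₀) := mul_nonneg CA.2 (by linarith)
      have h2 : 0 ≤ (CB : ℝ) * (w - t₀ + 1) := mul_nonneg CB.2 (by linarith)
      positivity
    obtain ⟨K, hK⟩ := (isCompact_Icc (a := -R) (b := R)).exists_bound_of_continuousOn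
      hΨ'.continuousOn
    have hK0 : 0 ≤ K := (norm_nonneg _).trans (hK 0 ⟨by linarith, hR0⟩)
    have harg : ∀ y ∈ Icc t₀ w, ∀ t ∈ Icc (t₀ - 1) (t₀ + 1), A y - B (y - t) ∈ Icc (-R) R := by
      intro y hy t ht
      apply abs_le.mp
      have h1 : |A y| ≤ |A t₀| + CA * (w - t₀) := by
        have := hA.dist_le_mul y t₀
        rw [Real.dist_eq, Real.dist_eq, abs_of_nonneg (by linarith [hy.1] : 0 ≤ y - t₀)] at this
        have h2 : (CA : ℝ) * (y - t₀) ≤ CA * (w - t₀) :=
          mul_le_mul_of_nonneg_left (by linarith [hy.2]) CA.2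
        have h3 := abs_sub_abs_le_abs_sub (A y) (A t₀)
        linarith
      have h2 : |B (y - t)| ≤ |B 0| + CB * (w - t₀ + 1) := by
        have := hB.dist_le_mul (y - t) 0
        rw [Real.dist_eq, Real.dist_eq, sub_zero] at this
        have h4 : |y - t| ≤ w - t₀ + 1 := by
          rw [abs_le]
          constructor <;> linarith [hy.1, hy.2, ht.1, ht.2]
        have h5 : (CB : ℝ) * |y - t| ≤ CB * (w - t₀ + 1) := mul_le_mul_of_nonneg_left h4 CB.2
        have h3 := abs_sub_abs_le_abs_sub (B (y - t)) (B 0)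
        linarith
      calc |A y - B (y - t)| ≤ |A y| + |B (y - t)| := abs_sub _ _
        _ ≤ R := by rw [hR]; exact add_le_add h1 h2
    have hIoc : uIoc t₀ w = Ioc t₀ w := uIoc_of_le htw.le
    have hae : ∀ᵐ y : ℝ, DifferentiableAt ℝ B (y - t₀) :=
      (measurePreserving_sub_right volume t₀).quasiMeasurePreserving.ae
        hB.ae_differentiableAt_real
    have := intervalIntegral.hasDerivAt_integral_of_dominated_loc_of_lip (μ := volume)
      (F := fun t y => Ψ (A y - B (y - t)))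
      (F' := fun y => Ψ' (A y - B (y - t₀)) * deriv B (y - t₀))
      (x₀ := t₀) (a := t₀) (b := w) (s := Icc (t₀ - 1) (t₀ + 1)) (bound := fun _ => K * CB)
      (Icc_mem_nhds (by linarith) (by linarith))
      (Eventually.of_forall fun t => (hcont t).measurable.aestronglyMeasurable)
      (hint t₀ _ _)
      (((hΨ'.comp (hA.continuous.sub
        (hB.continuous.comp (continuous_id.sub continuous_const)))).measurable.mul
          ((measurable_deriv B).comp (measurable_id.sub_const t₀))).aestronglyMeasurable)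
      (Eventually.of_forall fun y hy => by
        rw [hIoc] at hy
        have hy' : y ∈ Icc t₀ w := ⟨hy.1.le, hy.2⟩
        apply LipschitzOnWith.of_dist_le_mul
        intro t ht t' ht'
        rw [Real.dist_eq, Real.dist_eq]
        have h1 : |Ψ (A y - B (y - t)) - Ψ (A y - B (y - t'))| ≤
            K * |(A y - B (y - t)) - (A y - B (y - t'))| := by
          have := (convex_Icc (-R) R).norm_image_sub_le_of_norm_hasDerivWithin_le
            (f := Ψ) (f' := Ψ') (fun x _ => (hΨ x).hasDerivWithinAt) hK (harg y hy' t' ht')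
            (harg y hy' t ht)
          exact this
        have h2 : |(A y - B (y - t)) - (A y - B (y - t'))| ≤ CB * |t - t'| := by
          have := hB.dist_le_mul (y - t') (y - t)
          rw [Real.dist_eq, Real.dist_eq] at this
          have e1 : (A y - B (y - t)) - (A y - B (y - t')) = B (y - t') - B (y - t) := by ring
          have e2 : (y - t') - (y - t) = t - t' := by ring
          rw [e1]
          rwa [e2] at this
        have e3 : ((Real.nnabs (K * CB) : NNReal) : ℝ) = K * CB := by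
          rw [Real.coe_nnabs]
          exact abs_of_nonneg (mul_nonneg hK0 CB.2)
        rw [e3, mul_assoc]
        exact h1.trans (mul_le_mul_of_nonneg_left h2 hK0))
      intervalIntegrable_const
      (by
        filter_upwards [hae] with y hy _
        have h1 : HasDerivAt (fun t => B (y - t)) (deriv B (y - t₀) * (-1)) t₀ := by
          have h2 : HasDerivAt (fun t : ℝ => y - t) (-1) t₀ := by
            simpa using (hasDerivAt_id t₀).const_sub y
          exact HasDerivAt.comp t₀ hy.hasDerivAt h2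
        have h3 : HasDerivAt (fun t => A y - B (y - t)) (deriv B (y - t₀)) t₀ := by
          have := h1.const_sub (A y)
          simpa using this
        exact (hΨ (A y - B (y - t₀))).comp t₀ h3)
    exact this.2
  have hH := KL.H_deriv A B Ψ t₀ CA CB hA hB hΨc
  exact (hJ1.sub hH).congr_of_eventuallyEq (Eventually.of_forall hJ)

/-- the kink of one of the four integrals -/
theorem kterm (hKL : SpecKL) {χ : ℝ → ℝ} (hχ : Continuous χ)
    (hX : ∀ z, HasDerivAt (X1 χ) (χ z) z) {A B : ℝ → ℝ} {t w a : ℝ} {CA CB : NNReal}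
    (htw : t < w) (hf : KNI.FF (fun y => deriv B (w - y)) t a) (hA : LipschitzWith CA A)
    (hB : LipschitzWith CB B) :
    Kink (fun t => ∫ y in t..w, X1 χ (A y - B (y - t)) * deriv B (y - t)) t
      (-a * X1 χ (A w - B (w - t))) := by
  have k := KNI.term hKL hχ hX htw hf (KNI.lip_refl hB w) (KNI.lip_refl hA w)
  have z3 : ∀ a b : ℝ, -a - -b = b - a := fun a b => by ring
  have e : (fun t => ∫ y in t..w, X1 χ (A y - B (y - t)) * deriv B (y - t)) = fun x =>
      ∫ y in x..w, deriv B (w - y) * X1 χ (-B (w - y) - -A (w - (y - x))) := by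
    funext x
    rw [KNI.int_refl (fun y => X1 χ (A y - B (y - x)) * deriv B (y - x))]
    have z1 : ∀ y : ℝ, w + x - y - x = w - y := fun y => by ring
    have z2 : ∀ y : ℝ, w - (y - x) = w + x - y := fun y => by ring
    simp only [z1, z2, z3]
    refine intervalIntegral.integral_congr fun y _ => ?_
    ring
  rw [e]
  simpa only [z3, sub_zero] using k

theorem kink_neg {f : ℝ → ℝ} {t a : ℝ} (hf : Kink f t a) : Kink (fun x => -f x) t (-a) := by
  obtain ⟨x, y, h1, h2, h3⟩ := hf
  exact ⟨-x, -y, h1.neg, h2.neg, by linarith⟩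

end AKN

open Classical AKN KNI KNB in
/-- Module AKN. -/
theorem specAKN (hXX : SpecXX) (hKL : SpecKL) (hKNB : SpecKNB) (hCHN : SpecCHN) (hCHA : SpecCHA)
    (hBOD : SpecBOD) : SpecAKN := by
  intro D hD χ hc hs
  obtain ⟨hL0, hLw, hR0, hRw, -⟩ := hBOD D hD
  obtain ⟨hX1, hX2, _, hXI, _⟩ := hXX χ hc hs
  obtain ⟨CL, hL⟩ := (hBOD D hD).2.2.2.2.2.2.2.2.1
  obtain ⟨CR, hR⟩ := (hBOD D hD).2.2.2.2.2.2.2.2.2.1
  have hXc : Continuous (X1 χ) := continuous_iff_continuousAt.2 fun z => (hX1 z).continuousAt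
  have hX2c : Continuous (X2 χ) := continuous_iff_continuousAt.2 fun z => (hX2 z).continuousAt
  refine ⟨fun t => -D.T χ t t + (((∫ y in t..D.w, X1 χ (D.R y - D.L (y - t)) * deriv D.L (y - t))
      - (∫ y in t..D.w, X1 χ (D.R y - D.R (y - t)) * deriv D.R (y - t)))
      - (∫ y in t..D.w, X1 χ (D.L y - D.L (y - t)) * deriv D.L (y - t))
      + (∫ y in t..D.w, X1 χ (D.L y - D.R (y - t)) * deriv D.R (y - t))), ?_, ?_⟩
  · intro t _ htw
    have d1 := der htw hR hL hX2 hXc
    have d2 := der htw hR hR hX2 hXc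
    have d3 := der htw hL hL hX2 hXc
    have d4 := der htw hL hR hX2 hXc
    have d := ((d1.sub d2).sub d3).add d4
    have e : (fun t => ∫ y in t..D.w, D.T χ t y) = fun x =>
        ((∫ y in x..D.w, X2 χ (D.R y - D.L (y - x))) - (∫ y in x..D.w, X2 χ (D.R y - D.R (y - x)))
        - (∫ y in x..D.w, X2 χ (D.L y - D.L (y - x)))
        + ∫ y in x..D.w, X2 χ (D.L y - D.R (y - x))) := by
      funext x
      have c : ∀ {A B : ℝ → ℝ}, Continuous A → Continuous B →
          IntervalIntegrable (fun y => X2 χ (A y - B (y - x))) volume x D.w := by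
        intro A B hA hB
        exact (hX2c.comp (hA.sub (hB.comp (by fun_prop)))).intervalIntegrable _ _
      have i1 := c hR.continuous hL.continuous
      have i2 := c hR.continuous hR.continuous
      have i3 := c hL.continuous hL.continuous
      have i4 := c hL.continuous hR.continuous
      rw [← intervalIntegral.integral_sub i1 i2,
        ← intervalIntegral.integral_sub (i1.sub i2) i3,
        ← intervalIntegral.integral_add ((i1.sub i2).sub i3) i4]
      rfl
    rw [e]
    refine d.congr_deriv ?_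
    simp only [Data.T, sub_self]
    ring
  · intro t ht htw
    have g3 : FF (fun y => deriv D.R (D.w - y)) t (jmp D.m D.s D.r t) := by
      have := (ffR hCHN hBOD D hD (n := fun x => x) continuous_id (D.w - t) (by linarith)
        (by linarith)).refl
      rwa [neg_neg, sub_sub_cancel] at this
    have g4 : FF (fun y => deriv D.L (D.w - y)) t (-jmp D.m D.s D.l (D.w - t)) :=
      (ffL hCHN hBOD D hD (n := fun x => x) continuous_id (D.w - t) (by linarith)
        (by linarith)).refl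
    have k1 := kterm hKL hc hX1 htw g4 hR hL
    have k2 := kterm hKL hc hX1 htw g3 hR hR
    have k3 := kterm hKL hc hX1 htw g4 hL hL
    have k4 := kterm hKL hc hX1 htw g3 hL hR
    obtain ⟨-, kB2⟩ := hKNB D hD χ hc hs t ht htw
    have htot := kink_add (kink_neg kB2) (kink_add (kink_sub (kink_sub k1 k2) k3) k4)
    obtain ⟨_, _, hchR, _, _, _⟩ := hCHA D.m D.r hD.hr
    obtain ⟨_, _, hchL, _, _, _⟩ := hCHA D.m D.l hD.hl
    -- the integral of `χ F`
    have hp := hD.hp
    have hq := hD.hq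
    have hFI : ∫ ξ, χ ξ * F D (fun _ => 0) 1 ξ t = ∑ k ∈ Finset.range (D.m - 1),
        (tp (fun _ => 0) 1 D.s k *
          ((if Yp D.r (k + 1) = t then X1 χ (Xp D.s D.r (k + 1)) - X1 χ (Xp D.s D.r (k + 1) - D.p)
              else 0)
          + (if Yp D.l (k + 1) = t then X1 χ (Xp D.s D.l (k + 1)) - X1 χ (Xp D.s D.l (k + 1) - D.q)
              else 0))
        + tm (fun _ => 0) 1 D.s k *
          ((if D.w - Yp D.l (k + 1) = t then
              X1 χ (Xp D.s D.l D.m - Xp D.s D.l (k + 1) + D.p)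
                - X1 χ (Xp D.s D.l D.m - Xp D.s D.l (k + 1)) else 0)
          + (if D.w - Yp D.r (k + 1) = t then
              X1 χ (Xp D.s D.r D.m - Xp D.s D.r (k + 1) + D.q)
                - X1 χ (Xp D.s D.r D.m - Xp D.s D.r (k + 1)) else 0))) := by
      have hone : ∀ (c : Prop) (a b : ℝ), a ≤ b →
          ∫ ξ, χ ξ * (if c then ind a b ξ else 0) = if c then X1 χ b - X1 χ a else 0 := by
        intro c a b hab
        by_cases h : c
        · simp only [if_pos h]
          rw [hXI a b, if_pos hab]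
        · simp only [if_neg h, mul_zero, integral_zero]
      unfold F
      simp only [Finset.mul_sum]
      rw [integral_finsetSum]
      · apply Finset.sum_congr rfl
        intro k _
        have e1 := KNK.ind_int hc hs (Yp D.r (k + 1) = t) (Xp D.s D.r (k + 1) - D.p)
          (Xp D.s D.r (k + 1))
        have e2 := KNK.ind_int hc hs (Yp D.l (k + 1) = t) (Xp D.s D.l (k + 1) - D.q)
          (Xp D.s D.l (k + 1))
        have e3 := KNK.ind_int hc hs (D.w - Yp D.l (k + 1) = t)
          (Xp D.s D.l D.m - Xp D.s D.l (k + 1)) (Xp D.s D.l D.m - Xp D.s D.l (k + 1) + D.p)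
        have e4 := KNK.ind_int hc hs (D.w - Yp D.r (k + 1) = t)
          (Xp D.s D.r D.m - Xp D.s D.r (k + 1)) (Xp D.s D.r D.m - Xp D.s D.r (k + 1) + D.q)
        rw [← hone _ _ _ (by linarith : Xp D.s D.r (k + 1) - D.p ≤ Xp D.s D.r (k + 1)),
          ← hone _ _ _ (by linarith : Xp D.s D.l (k + 1) - D.q ≤ Xp D.s D.l (k + 1)),
          ← hone _ _ _ (by linarith : Xp D.s D.l D.m - Xp D.s D.l (k + 1) ≤
            Xp D.s D.l D.m - Xp D.s D.l (k + 1) + D.p),
          ← hone _ _ _ (by linarith : Xp D.s D.r D.m - Xp D.s D.r (k + 1) ≤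
            Xp D.s D.r D.m - Xp D.s D.r (k + 1) + D.q),
          ← (KNK.int4 e1 e2 e3 e4 _ _).2]
        apply integral_congr_ae
        filter_upwards with ξ
        ring
      · intro k _
        have e1 := KNK.ind_int hc hs (Yp D.r (k + 1) = t) (Xp D.s D.r (k + 1) - D.p)
          (Xp D.s D.r (k + 1))
        have e2 := KNK.ind_int hc hs (Yp D.l (k + 1) = t) (Xp D.s D.l (k + 1) - D.q)
          (Xp D.s D.l (k + 1))
        have e3 := KNK.ind_int hc hs (D.w - Yp D.l (k + 1) = t)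
          (Xp D.s D.l D.m - Xp D.s D.l (k + 1)) (Xp D.s D.l D.m - Xp D.s D.l (k + 1) + D.p)
        have e4 := KNK.ind_int hc hs (D.w - Yp D.r (k + 1) = t)
          (Xp D.s D.r D.m - Xp D.s D.r (k + 1)) (Xp D.s D.r D.m - Xp D.s D.r (k + 1) + D.q)
        refine (KNK.int4 e1 e2 e3 e4 (tp (fun _ => 0) 1 D.s k) (tm (fun _ => 0) 1 D.s k)).1.congr
          ?_
        filter_upwards with ξ
        ring
    -- values of the boundary functions at the breaks
    have vR : ∀ y, D.R y = D.q + Xp D.s D.r D.m - ch D.m D.s D.r (D.w - y) := fun y => rfl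
    have vL : ∀ y, D.L y = ch D.m D.s D.l y := fun y => rfl
    have hcl := hD.hcl
    have hjmp : ∀ (κ a : ℕ → ℝ) (u c : ℝ), jmp D.m κ a u * c =
        ∑ k ∈ Finset.range (D.m - 1), if Yp a (k + 1) = u then (κ (k + 1) - κ k) * c else 0 := by
      intro κ a u c
      unfold jmp
      rw [Finset.sum_mul]
      apply Finset.sum_congr rfl
      intro k _
      split_ifs
      · rfl
      · rw [zero_mul]
    obtain ⟨x, y, hx, hy, hxy⟩ := htot
    refine ⟨x, y, hx, hy, ?_⟩
    rw [hxy, hFI, hLw, hRw, hL0, hR0]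
    have hA : jmp D.m D.s D.r t * (X1 χ (D.q + Xp D.s D.r D.m - D.R (D.w - t)) -
        X1 χ (Xp D.s D.l D.m - D.R (D.w - t))) = ∑ k ∈ Finset.range (D.m - 1),
        if Yp D.r (k + 1) = t then (D.s (k + 1) - D.s k) *
          (X1 χ (Xp D.s D.r (k + 1)) - X1 χ (Xp D.s D.r (k + 1) - D.p)) else 0 := by
      rw [hjmp]
      apply Finset.sum_congr rfl
      intro k hk
      have hkm : k + 1 ≤ D.m := by have := Finset.mem_range.mp hk; omega
      split_ifs with h
      · have h1 : D.R (D.w - t) = D.q + Xp D.s D.r D.m - Xp D.s D.r (k + 1) := by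
          rw [vR, sub_sub_cancel, ← h, hchR D.s (k + 1) hkm]
        rw [h1]
        have h2 : D.q + Xp D.s D.r D.m - (D.q + Xp D.s D.r D.m - Xp D.s D.r (k + 1)) =
          Xp D.s D.r (k + 1) := by ring
        have h3 : Xp D.s D.l D.m - (D.q + Xp D.s D.r D.m - Xp D.s D.r (k + 1)) =
          Xp D.s D.r (k + 1) - D.p := by linarith
        rw [h2, h3]
      · rfl
    have hB : jmp D.m D.s D.l t * (X1 χ (D.L t - 0) - X1 χ (D.L t - D.q)) =
        ∑ k ∈ Finset.range (D.m - 1),
        if Yp D.l (k + 1) = t then (D.s (k + 1) - D.s k) *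
          (X1 χ (Xp D.s D.l (k + 1)) - X1 χ (Xp D.s D.l (k + 1) - D.q)) else 0 := by
      rw [hjmp]
      apply Finset.sum_congr rfl
      intro k hk
      have hkm : k + 1 ≤ D.m := by have := Finset.mem_range.mp hk; omega
      split_ifs with h
      · have h1 : D.L t = Xp D.s D.l (k + 1) := by
          rw [vL, ← h, hchL D.s (k + 1) hkm]
        rw [h1, sub_zero]
      · rfl
    have hC : jmp D.m D.s D.l (D.w - t) *
        (X1 χ (D.q + Xp D.s D.r D.m - D.L (D.w - t)) - X1 χ (Xp D.s D.l D.m - D.L (D.w - t))) =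
        ∑ k ∈ Finset.range (D.m - 1),
        if D.w - Yp D.l (k + 1) = t then (D.s (k + 1) - D.s k) *
          (X1 χ (Xp D.s D.l D.m - Xp D.s D.l (k + 1) + D.p)
                - X1 χ (Xp D.s D.l D.m - Xp D.s D.l (k + 1))) else 0 := by
      rw [hjmp]
      apply Finset.sum_congr rfl
      intro k hk
      have hkm : k + 1 ≤ D.m := by have := Finset.mem_range.mp hk; omega
      by_cases h : Yp D.l (k + 1) = D.w - t
      · rw [if_pos h, if_pos (by linarith)]
        have h1 : D.L (D.w - t) = Xp D.s D.l (k + 1) := by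
          rw [vL, ← h, hchL D.s (k + 1) hkm]
        rw [h1]
        have h2 : D.q + Xp D.s D.r D.m - Xp D.s D.l (k + 1) =
          Xp D.s D.l D.m - Xp D.s D.l (k + 1) + D.p := by linarith
        rw [h2]
      · rw [if_neg h, if_neg (fun h' => h (by linarith))]
    have hE : jmp D.m D.s D.r (D.w - t) *
        (X1 χ (D.R t - 0) - X1 χ (D.R t - D.q)) =
        ∑ k ∈ Finset.range (D.m - 1),
        if D.w - Yp D.r (k + 1) = t then (D.s (k + 1) - D.s k) *
          (X1 χ (Xp D.s D.r D.m - Xp D.s D.r (k + 1) + D.q)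
                - X1 χ (Xp D.s D.r D.m - Xp D.s D.r (k + 1))) else 0 := by
      rw [hjmp]
      apply Finset.sum_congr rfl
      intro k hk
      have hkm : k + 1 ≤ D.m := by have := Finset.mem_range.mp hk; omega
      by_cases h : Yp D.r (k + 1) = D.w - t
      · rw [if_pos h, if_pos (by linarith)]
        have h1 : D.R t = D.q + Xp D.s D.r D.m - Xp D.s D.r (k + 1) := by
          rw [vR, ← h, hchR D.s (k + 1) hkm]
        rw [h1]
        have h2 : D.q + Xp D.s D.r D.m - Xp D.s D.r (k + 1) - 0 =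
          Xp D.s D.r D.m - Xp D.s D.r (k + 1) + D.q := by ring
        have h3 : D.q + Xp D.s D.r D.m - Xp D.s D.r (k + 1) - D.q =
          Xp D.s D.r D.m - Xp D.s D.r (k + 1) := by ring
        rw [h2, h3]
      · rw [if_neg h, if_neg (fun h' => h (by linarith))]
    have tot : ∑ k ∈ Finset.range (D.m - 1),
        (tp (fun _ => 0) 1 D.s k *
          ((if Yp D.r (k + 1) = t then X1 χ (Xp D.s D.r (k + 1)) - X1 χ (Xp D.s D.r (k + 1) - D.p)
              else 0)
          + (if Yp D.l (k + 1) = t then X1 χ (Xp D.s D.l (k + 1)) - X1 χ (Xp D.s D.l (k + 1) - D.q)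
              else 0))
        + tm (fun _ => 0) 1 D.s k *
          ((if D.w - Yp D.l (k + 1) = t then
              X1 χ (Xp D.s D.l D.m - Xp D.s D.l (k + 1) + D.p)
                - X1 χ (Xp D.s D.l D.m - Xp D.s D.l (k + 1)) else 0)
          + (if D.w - Yp D.r (k + 1) = t then
              X1 χ (Xp D.s D.r D.m - Xp D.s D.r (k + 1) + D.q)
                - X1 χ (Xp D.s D.r D.m - Xp D.s D.r (k + 1)) else 0))) =
        jmp D.m D.s D.r t * (X1 χ (D.q + Xp D.s D.r D.m - D.R (D.w - t)) -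
          X1 χ (Xp D.s D.l D.m - D.R (D.w - t)))
        + jmp D.m D.s D.l t * (X1 χ (D.L t - 0) - X1 χ (D.L t - D.q))
        + jmp D.m D.s D.l (D.w - t) *
          (X1 χ (D.q + Xp D.s D.r D.m - D.L (D.w - t)) - X1 χ (Xp D.s D.l D.m - D.L (D.w - t)))
        + jmp D.m D.s D.r (D.w - t) * (X1 χ (D.R t - 0) - X1 χ (D.R t - D.q)) := by
      rw [hA, hB, hC, hE, ← Finset.sum_add_distrib, ← Finset.sum_add_distrib,
        ← Finset.sum_add_distrib]
      apply Finset.sum_congr rfl
      intro k _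
      unfold tp tm
      split_ifs <;> ring
    rw [tot]
    ring

end Pool.MP671
end
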