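import Pool.Agent.Lib.MP_671ac3_gt.Spec
import Pool.Agent.Lib.MP_671ac3_gt.Spec2

section
/-!
# MP_671ac3_gt : module BOD, the boundary functions of a polygon
-/
namespace Pool.MP671

namespace BOD

/-- the chain functions are piecewise affine -/
theorem pa_sum (hPAC : SpecPAC) (a b : ℝ) (hab : a ≤ b) (m : ℕ) (κ α : ℕ → ℝ) (g : ℕ → ℝ → ℝ)
    (hg : ∀ j, PA a b (g j)) :
    PA a b (fun t => ∑ j ∈ Finset.range m, κ j * max 0 (min (g j t) (α j))) := by
  obtain ⟨-, -, -, hadd, hmul, hmin, hmax, -, -⟩ := hPAC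
  have hc : ∀ c : ℝ, PA a b (fun _ => c) := fun c =>
    PA.aff a b c 0 _ hab (fun y _ => by ring)
  induction m with
  | zero =>
    have h : (fun t => ∑ j ∈ Finset.range 0, κ j * max 0 (min (g j t) (α j)))
        = fun _ => (0 : ℝ) := by
      funext t
      simp
    rw [h]
    exact hc 0
  | succ m ih =>
    have h : (fun t => ∑ j ∈ Finset.range (m + 1), κ j * max 0 (min (g j t) (α j)))
        = fun t => (fun t => ∑ j ∈ Finset.range m, κ j * max 0 (min (g j t) (α j))) t
          + (fun t => κ m * max 0 (min (g m t) (α m))) t := by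
      funext t
      rw [Finset.sum_range_succ]
    rw [h]
    refine hadd a b _ _ ih (hmul a b _ _ (hmax a b _ _ (hc 0) (hmin a b _ _ (hg m) (hc (α m)))))

theorem pa_ch (hPAC : SpecPAC) (a b : ℝ) (hab : a ≤ b) (m : ℕ) (κ α : ℕ → ℝ) :
    PA a b (ch m κ α) := by
  have h := pa_sum hPAC a b hab m κ α (fun j t => t - Yp α j)
    (fun j => PA.aff a b (-Yp α j) 1 _ hab (fun y _ => by ring))
  exact h

theorem pa_ch' (hPAC : SpecPAC) (a b : ℝ) (hab : a ≤ b) (m : ℕ) (κ α : ℕ → ℝ) (w : ℝ) :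
    PA a b (fun y => ch m κ α (w - y)) := by
  have h := pa_sum hPAC a b hab m κ α (fun j t => w - t - Yp α j)
    (fun j => PA.aff a b (w - Yp α j) (-1) _ hab (fun y _ => by ring))
  exact h

/-- a set between a convex and a concave continuous function -/
theorem cc_prof (w : ℝ) (l r : ℝ → ℝ) (hl : Continuous l) (hr : Continuous r)
    (cl : ConvexOn ℝ (Set.Icc 0 w) l) (cr : ConcaveOn ℝ (Set.Icc 0 w) r) : CC (prof 0 w l r) := by
  constructor
  · intro x hx y hy a b ha hb hab
    obtain ⟨x1, x2, x3, x4⟩ := hx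
    obtain ⟨y1, y2, y3, y4⟩ := hy
    have h1 := (convex_Icc (0 : ℝ) w) ⟨x1, x2⟩ ⟨y1, y2⟩ ha hb hab
    have h2 := cl.2 ⟨x1, x2⟩ ⟨y1, y2⟩ ha hb hab
    have h3 := cr.2 ⟨x1, x2⟩ ⟨y1, y2⟩ ha hb hab
    simp only [smul_eq_mul] at h1 h2 h3
    have e1 : (a • x + b • y).1 = a * x.1 + b * y.1 := rfl
    have e2 : (a • x + b • y).2 = a * x.2 + b * y.2 := rfl
    refine ⟨?_, ?_, ?_, ?_⟩
    · rw [e2]; exact h1.1
    · rw [e2]; exact h1.2
    · rw [e1, e2]
      have := mul_le_mul_of_nonneg_left x3 ha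
      have := mul_le_mul_of_nonneg_left y3 hb
      linarith
    · rw [e1, e2]
      have := mul_le_mul_of_nonneg_left x4 ha
      have := mul_le_mul_of_nonneg_left y4 hb
      linarith
  · obtain ⟨m1, hm1⟩ := (isCompact_Icc (a := (0 : ℝ)) (b := w)).bddBelow_image hl.continuousOn
    obtain ⟨m2, hm2⟩ := (isCompact_Icc (a := (0 : ℝ)) (b := w)).bddAbove_image hr.continuousOn
    refine IsCompact.of_isClosed_subset
      ((isCompact_Icc (a := m1) (b := m2)).prod (isCompact_Icc (a := (0 : ℝ)) (b := w))) ?_ ?_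
    · have h1 : IsClosed {z : Pl | (0 : ℝ) ≤ z.2} := isClosed_le continuous_const continuous_snd
      have h2 : IsClosed {z : Pl | z.2 ≤ w} := isClosed_le continuous_snd continuous_const
      have h3 : IsClosed {z : Pl | l z.2 ≤ z.1} :=
        isClosed_le (hl.comp continuous_snd) continuous_fst
      have h4 : IsClosed {z : Pl | z.1 ≤ r z.2} :=
        isClosed_le continuous_fst (hr.comp continuous_snd)
      exact h1.inter (h2.inter (h3.inter h4))
    · rintro z ⟨z1, z2, z3, z4⟩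
      refine ⟨⟨?_, ?_⟩, ⟨z1, z2⟩⟩
      · exact (hm1 ⟨z.2, ⟨z1, z2⟩, rfl⟩).trans z3
      · exact z4.trans (hm2 ⟨z.2, ⟨z1, z2⟩, rfl⟩)

end BOD

open BOD in
/-- module BOD -/
theorem specBOD (hCHA : SpecCHA) (hPAC : SpecPAC) : SpecBOD := by
  intro D hD
  obtain ⟨l1, l2, -, -, l5, l6⟩ := hCHA D.m D.l hD.hl
  obtain ⟨r1, r2, -, -, r5, r6⟩ := hCHA D.m D.r hD.hr
  have hw := hD.hw
  have hrw := hD.hrw
  have hlw := hD.hlw
  have hs : Inc D.m D.s := hD.hs
  have L0 : D.L 0 = 0 := l1 _ _ le_rfl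
  have Lw : D.L D.w = Xp D.s D.l D.m := l2 _ _ hlw.le
  have R0 : D.R 0 = D.q := by
    unfold Data.R
    rw [sub_zero, r2 D.s D.w hrw.le]
    ring
  have Rw : D.R D.w = D.q + Xp D.s D.r D.m := by
    unfold Data.R
    rw [sub_self, r1 D.s 0 le_rfl, sub_zero]
  have cl : ConvexOn ℝ (Set.Icc 0 D.w) D.L := by
    have := l6 D.s hs
    rw [hlw] at this
    exact this
  have cr : ConcaveOn ℝ (Set.Icc 0 D.w) D.R := by
    have h := r6 D.s hs
    rw [hrw] at h
    refine ⟨convex_Icc _ _, ?_⟩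
    intro x hx y hy a b ha hb hab
    have hx' : D.w - x ∈ Set.Icc 0 D.w := ⟨by linarith [hx.2], by linarith [hx.1]⟩
    have hy' : D.w - y ∈ Set.Icc 0 D.w := ⟨by linarith [hy.2], by linarith [hy.1]⟩
    have h1 := h.2 hx' hy' ha hb hab
    simp only [smul_eq_mul] at h1 ⊢
    unfold Data.R
    have e : a * (D.w - x) + b * (D.w - y) = D.w - (a * x + b * y) := by
      have : a * D.w + b * D.w = D.w := by rw [← add_mul, hab, one_mul]
      linarith
    rw [e] at h1
    have e2 : a * (D.q + Xp D.s D.r D.m) + b * (D.q + Xp D.s D.r D.m) = D.q + Xp D.s D.r D.m := by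
      rw [← add_mul, hab, one_mul]
    linarith
  obtain ⟨C1, hC1⟩ := l5 D.s
  obtain ⟨C2, hC2⟩ := r5 D.s
  have lipR : LipschitzWith C2 D.R := by
    intro x y
    have h := hC2 (D.w - x) (D.w - y)
    unfold Data.R
    rw [edist_sub_left] at h ⊢
    exact h
  have hLR : ∀ y ∈ Set.Icc 0 D.w, D.L y ≤ D.R y := by
    intro y hy
    have h0 : (0 : ℝ) ∈ Set.Icc 0 D.w := ⟨le_rfl, hw.le⟩
    have h1 : D.w ∈ Set.Icc 0 D.w := ⟨hw.le, le_rfl⟩
    have ha : 0 ≤ 1 - y / D.w := by
      rw [sub_nonneg, div_le_one hw]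
      exact hy.2
    have hb : 0 ≤ y / D.w := div_nonneg hy.1 hw.le
    have hab : 1 - y / D.w + y / D.w = 1 := by ring
    have e : (1 - y / D.w) * 0 + y / D.w * D.w = y := by
      field_simp
      ring
    have c1 := cl.2 h0 h1 ha hb hab
    have c2 := cr.2 h0 h1 ha hb hab
    simp only [smul_eq_mul] at c1 c2
    rw [e, L0, Lw] at c1
    rw [e, R0, Rw] at c2
    have hcl := hD.hcl
    have h3 := mul_nonneg ha hD.hq
    have h4 := mul_nonneg hb hD.hp
    have e3 : y / D.w * (D.q + Xp D.s D.r D.m) = y / D.w * (D.p + Xp D.s D.l D.m) := by rw [hcl]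
    rw [mul_add (y / D.w) D.p] at e3
    linarith
  refine ⟨L0, Lw, R0, Rw, cl, cr, hLR, fun x y hxy => ⟨?_, ?_⟩, ⟨C1, hC1⟩, ⟨C2, lipR⟩, ?_⟩
  · exact pa_ch hPAC x y hxy _ _ _
  · have hP := hPAC
    obtain ⟨-, hcongr, -, hadd, hmul, -, -, -, -⟩ := hP
    have h1 := hmul x y _ (-1) (pa_ch' hPAC x y hxy D.m D.s D.r D.w)
    have h2 : PA x y (fun _ => D.q + Xp D.s D.r D.m) :=
      PA.aff x y (D.q + Xp D.s D.r D.m) 0 _ hxy (fun z _ => by ring)
    refine hcongr x y _ _ (hadd x y _ _ h2 h1) (fun z _ => ?_)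
    unfold Data.R
    ring
  · exact cc_prof D.w D.L D.R hC1.continuous lipR.continuous cl cr

end Pool.MP671
end

section
/-! Module CHA: elementary facts on the chain functions. -/
namespace Pool.MP671

namespace CHA

/-- the pieces of the chain -/
noncomputable def g (a : ℕ → ℝ) (j : ℕ) (t : ℝ) : ℝ := max 0 (min (t - Yp a j) (a j))

theorem ch_eq (m : ℕ) (κ a : ℕ → ℝ) (t : ℝ) : ch m κ a t = ∑ j ∈ Finset.range m, κ j * g a j t :=
  rfl

theorem Yp_zero (a : ℕ → ℝ) : Yp a 0 = 0 := by simp [Yp]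

theorem Yp_succ (a : ℕ → ℝ) (k : ℕ) : Yp a (k + 1) = Yp a k + a k := by
  simp [Yp, Finset.sum_range_succ]

theorem Yp_mono {m : ℕ} {a : ℕ → ℝ} (ha : ∀ j, j < m → 0 ≤ a j) {i j : ℕ} (hij : i ≤ j)
    (hj : j ≤ m) : Yp a i ≤ Yp a j := by
  unfold Yp
  apply Finset.sum_le_sum_of_subset_of_nonneg
  · exact Finset.range_mono hij
  · intro k hk _
    exact ha k (lt_of_lt_of_le (Finset.mem_range.mp hk) hj)

theorem g_nonneg (a : ℕ → ℝ) (j : ℕ) (t : ℝ) : 0 ≤ g a j t := le_max_left _ _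

theorem g_le {a : ℕ → ℝ} {j : ℕ} (hj : 0 ≤ a j) (t : ℝ) : g a j t ≤ a j :=
  max_le hj (min_le_right _ _)

theorem g_zero {a : ℕ → ℝ} {j : ℕ} {t : ℝ} (h : t ≤ Yp a j) : g a j t = 0 := by
  unfold g
  apply max_eq_left
  exact (min_le_left _ _).trans (by linarith)

theorem g_full {a : ℕ → ℝ} {j : ℕ} {t : ℝ} (hj : 0 ≤ a j) (h : Yp a (j + 1) ≤ t) :
    g a j t = a j := by
  unfold g
  rw [Yp_succ] at h
  rw [min_eq_right (by linarith), max_eq_right hj]

theorem g_mid {a : ℕ → ℝ} {j : ℕ} {t : ℝ} (h1 : Yp a j ≤ t) (h2 : t ≤ Yp a (j + 1)) :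
    g a j t = t - Yp a j := by
  unfold g
  rw [Yp_succ] at h2
  rw [min_eq_left (by linarith), max_eq_right (by linarith)]

theorem g_lip (a : ℕ → ℝ) (j : ℕ) (t s : ℝ) : |g a j t - g a j s| ≤ |t - s| := by
  unfold g
  have h1 : |max 0 (min (t - Yp a j) (a j)) - max 0 (min (s - Yp a j) (a j))| ≤
      |min (t - Yp a j) (a j) - min (s - Yp a j) (a j)| := by
    have := abs_max_sub_max_le_abs (min (t - Yp a j) (a j)) (min (s - Yp a j) (a j)) 0
    rwa [max_comm _ (0 : ℝ), max_comm _ (0 : ℝ)] at this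
  have h2 : |min (t - Yp a j) (a j) - min (s - Yp a j) (a j)| ≤ |t - s| := by
    have := abs_min_sub_min_le_max (t - Yp a j) (a j) (s - Yp a j) (a j)
    rw [sub_self, abs_zero] at this
    have e : t - Yp a j - (s - Yp a j) = t - s := by ring
    rw [e, max_eq_left (abs_nonneg _)] at this
    exact this
  exact h1.trans h2

theorem ch_piece {m : ℕ} {a : ℕ → ℝ} (ha : ∀ j, j < m → 0 ≤ a j) (κ : ℕ → ℝ) (k : ℕ) (hk : k < m)
    (t : ℝ) (h1 : Yp a k ≤ t) (h2 : t ≤ Yp a (k + 1)) :
    ch m κ a t = Xp κ a k + κ k * (t - Yp a k) := by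
  rw [ch_eq, Xp]
  have hsub : Finset.range (k + 1) ⊆ Finset.range m := Finset.range_mono (by omega)
  rw [← Finset.sum_subset hsub]
  · rw [Finset.sum_range_succ, g_mid h1 h2]
    congr 1
    apply Finset.sum_congr rfl
    intro j hj
    have hj' := Finset.mem_range.mp hj
    rw [g_full (ha j (by omega)), mul_comm]
    exact (Yp_mono ha (by omega) (by omega)).trans h1
  · intro j hj hj'
    have h3 := Finset.mem_range.mp hj
    have h4 : k + 1 ≤ j := by
      by_contra h
      exact hj' (Finset.mem_range.mpr (by omega))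
    rw [g_zero (h2.trans (Yp_mono ha h4 h3.le)), mul_zero]

theorem ch_knot {m : ℕ} {a : ℕ → ℝ} (ha : ∀ j, j < m → 0 ≤ a j) (κ : ℕ → ℝ) (k : ℕ) (hk : k ≤ m) :
    ch m κ a (Yp a k) = Xp κ a k := by
  rw [ch_eq, Xp, ← Finset.sum_subset (Finset.range_mono hk)]
  · apply Finset.sum_congr rfl
    intro j hj
    have hj' := Finset.mem_range.mp hj
    rw [g_full (ha j (by omega)) (Yp_mono ha (by omega) hk), mul_comm]
  · intro j hj hj'
    have h3 := Finset.mem_range.mp hj
    have h4 : k ≤ j := by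
      by_contra h
      exact hj' (Finset.mem_range.mpr (by omega))
    rw [g_zero (Yp_mono ha h4 h3.le), mul_zero]

theorem exists_piece {a : ℕ → ℝ} (m : ℕ) (hm : 0 < m) (z : ℝ) (h0 : 0 ≤ z) (h1 : z ≤ Yp a m) :
    ∃ k, k < m ∧ Yp a k ≤ z ∧ z ≤ Yp a (k + 1) := by
  induction m with
  | zero => exact absurd hm (lt_irrefl _)
  | succ m ih =>
    by_cases h : z ≤ Yp a m
    · rcases Nat.eq_zero_or_pos m with h' | h'
      · subst h'
        exact ⟨0, Nat.one_pos, by rw [Yp_zero]; exact h0, h1⟩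
      · obtain ⟨k, hk, hk1, hk2⟩ := ih h' h
        exact ⟨k, by omega, hk1, hk2⟩
    · exact ⟨m, Nat.lt_succ_self m, (not_le.mp h).le, h1⟩

theorem sum_g {m : ℕ} {a : ℕ → ℝ} (ha : ∀ j, j < m → 0 ≤ a j) (t : ℝ) (h0 : 0 ≤ t)
    (h1 : t ≤ Yp a m) : ∑ j ∈ Finset.range m, g a j t = t := by
  rcases Nat.eq_zero_or_pos m with h' | h'
  · subst h'
    rw [Yp_zero] at h1
    simp [le_antisymm h1 h0]
  · obtain ⟨k, hk, hk1, hk2⟩ := exists_piece m h' t h0 h1
    have := ch_piece ha (fun _ => 1) k hk t hk1 hk2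
    rw [ch_eq, Xp] at this
    simp only [one_mul, mul_one] at this
    rw [this, Yp]
    ring

theorem ch_ge {m : ℕ} {a : ℕ → ℝ} (ha : ∀ j, j < m → 0 ≤ a j) (κ : ℕ → ℝ) (hκ : Inc m κ) (k : ℕ)
    (hk : k < m) (t : ℝ) (h0 : 0 ≤ t) (h1 : t ≤ Yp a m) :
    Xp κ a k + κ k * (t - Yp a k) ≤ ch m κ a t := by
  have e1 : κ k * t = ∑ j ∈ Finset.range m, κ k * g a j t := by
    rw [← Finset.mul_sum, sum_g ha t h0 h1]
  have hle : ∀ i j, i ≤ j → j < m → κ i ≤ κ j := by
    intro i j hij hj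
    rcases Nat.lt_or_eq_of_le hij with h | h
    · exact (hκ i j h hj).le
    · rw [h]
  have e2 : ∑ j ∈ Finset.range k, (κ j - κ k) * a j ≤
      ∑ j ∈ Finset.range m, (κ j - κ k) * g a j t := by
    rw [← Finset.sum_range_add_sum_Ico _ hk.le]
    have h3 : ∑ j ∈ Finset.range k, (κ j - κ k) * a j ≤
        ∑ j ∈ Finset.range k, (κ j - κ k) * g a j t := by
      apply Finset.sum_le_sum
      intro j hj
      have hj' := Finset.mem_range.mp hj
      apply mul_le_mul_of_nonpos_left (g_le (ha j (by omega)) t)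
      linarith [hle j k (by omega) hk]
    have h4 : 0 ≤ ∑ j ∈ Finset.Ico k m, (κ j - κ k) * g a j t := by
      apply Finset.sum_nonneg
      intro j hj
      have hj' := Finset.mem_Ico.mp hj
      apply mul_nonneg _ (g_nonneg a j t)
      linarith [hle k j hj'.1 hj'.2]
    linarith
  have e3 : ∑ j ∈ Finset.range k, (κ j - κ k) * a j = Xp κ a k - κ k * Yp a k := by
    unfold Xp Yp
    rw [Finset.mul_sum, ← Finset.sum_sub_distrib]
    apply Finset.sum_congr rfl
    intro j _
    ring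
  have e4 : ∑ j ∈ Finset.range m, (κ j - κ k) * g a j t = ch m κ a t - κ k * t := by
    rw [ch_eq, e1, ← Finset.sum_sub_distrib]
    apply Finset.sum_congr rfl
    intro j _
    ring
  rw [e3, e4] at e2
  linarith

end CHA

open CHA in
theorem specCHA : SpecCHA := by
  intro m a ha
  refine ⟨?_, ?_, ?_, ?_, ?_, ?_⟩
  · intro κ t ht
    rw [ch_eq]
    apply Finset.sum_eq_zero
    intro j hj
    have hj' := Finset.mem_range.mp hj
    rw [g_zero, mul_zero]
    have := Yp_mono ha (Nat.zero_le j) hj'.le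
    rw [Yp_zero] at this
    exact ht.trans this
  · intro κ t ht
    rw [ch_eq, Xp]
    apply Finset.sum_congr rfl
    intro j hj
    have hj' := Finset.mem_range.mp hj
    rw [g_full (ha j hj') ((Yp_mono ha (by omega) le_rfl).trans ht), mul_comm]
  · intro κ k hk
    exact ch_knot ha κ k hk
  · intro κ k hk t ht
    exact ch_piece ha κ k hk t ht.1 ht.2
  · intro κ
    refine ⟨⟨∑ j ∈ Finset.range m, |κ j|, Finset.sum_nonneg fun j _ => abs_nonneg _⟩,
      LipschitzWith.of_dist_le_mul fun t s => ?_⟩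
    rw [Real.dist_eq, Real.dist_eq]
    show |ch m κ a t - ch m κ a s| ≤ (∑ j ∈ Finset.range m, |κ j|) * |t - s|
    rw [ch_eq, ch_eq, ← Finset.sum_sub_distrib, Finset.sum_mul]
    refine (Finset.abs_sum_le_sum_abs _ _).trans (Finset.sum_le_sum fun j _ => ?_)
    rw [← mul_sub, abs_mul]
    exact mul_le_mul_of_nonneg_left (g_lip a j t s) (abs_nonneg _)
  · intro κ hκ
    refine ⟨convex_Icc _ _, ?_⟩
    intro x hx y hy α β hα hβ hαβ
    have hz : α • x + β • y ∈ Set.Icc 0 (Yp a m) := (convex_Icc _ _) hx hy hα hβ hαβ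
    rcases Nat.eq_zero_or_pos m with h' | h'
    · subst h'
      simp [ch]
    · obtain ⟨k, hk, hk1, hk2⟩ := exists_piece m h' _ hz.1 hz.2
      rw [ch_piece ha κ k hk _ hk1 hk2]
      have h1 := ch_ge ha κ hκ k hk x hx.1 hx.2
      have h2 := ch_ge ha κ hκ k hk y hy.1 hy.2
      simp only [smul_eq_mul]
      have e : Xp κ a k + κ k * (α * x + β * y - Yp a k) =
          α * (Xp κ a k + κ k * (x - Yp a k)) + β * (Xp κ a k + κ k * (y - Yp a k)) := by
        have : α = 1 - β := by linarith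
        rw [this]; ring
      rw [e]
      exact add_le_add (mul_le_mul_of_nonneg_left h1 hα) (mul_le_mul_of_nonneg_left h2 hβ)

end Pool.MP671
end

section
/-!
# MP_671ac3_gt, module CHN: slopes of a chain on both sides of a point
-/
set_option autoImplicit false

namespace Pool.MP671

namespace CHN

theorem Yp_succ (a : ℕ → ℝ) (k : ℕ) : Yp a (k + 1) = Yp a k + a k := Finset.sum_range_succ _ _

theorem Yp_mono {m : ℕ} {a : ℕ → ℝ} (ha : ∀ j, j < m → 0 ≤ a j) {k l : ℕ} (hkl : k ≤ l)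
    (hl : l ≤ m) : Yp a k ≤ Yp a l := by
  refine Finset.sum_le_sum_of_subset_of_nonneg (Finset.range_mono hkl) fun i hi _ => ?_
  exact ha i (lt_of_lt_of_le (Finset.mem_range.1 hi) hl)

/-- one piece -/
noncomputable def g (a : ℕ → ℝ) (j : ℕ) (t : ℝ) : ℝ := max 0 (min (t - Yp a j) (a j))

theorem g_right {a : ℕ → ℝ} {j : ℕ} {t : ℝ} (ha : 0 ≤ a j) (h : Yp a (j + 1) ≤ t) :
    g a j t = a j := by
  rw [Yp_succ] at h
  rw [g, min_eq_right (by linarith), max_eq_right ha]

theorem g_left {a : ℕ → ℝ} {j : ℕ} {t : ℝ} (h : t ≤ Yp a j) : g a j t = 0 :=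
  max_eq_left ((min_le_left _ _).trans (by linarith))

theorem g_mid {a : ℕ → ℝ} {j : ℕ} {t : ℝ} (h1 : Yp a j ≤ t) (h2 : t ≤ Yp a (j + 1)) :
    g a j t = t - Yp a j := by
  rw [Yp_succ] at h2
  rw [g, min_eq_left (by linarith), max_eq_right (by linarith)]

theorem diff {m : ℕ} {a : ℕ → ℝ} (κ : ℕ → ℝ) {j : ℕ} (hj : j < m) {t t' : ℝ}
    (h : ∀ k, k < m → k ≠ j → g a k t = g a k t') (h' : g a j t = g a j t' + (t - t')) :
    ch m κ a t = ch m κ a t' + κ j * (t - t') := by
  have e : ∀ s, ch m κ a s = ∑ k ∈ Finset.range m, κ k * g a k s := fun _ => rfl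
  have hm := Finset.mem_range.2 hj
  rw [e, e, ← Finset.add_sum_erase _ _ hm, ← Finset.add_sum_erase _ (fun k => κ k * g a k t') hm, h']
  have h2 : ∑ k ∈ (Finset.range m).erase j, κ k * g a k t =
      ∑ k ∈ (Finset.range m).erase j, κ k * g a k t' := by
    refine Finset.sum_congr rfl fun k hk => ?_
    rw [Finset.mem_erase, Finset.mem_range] at hk
    rw [h k hk.2 hk.1]
  rw [h2]
  ring

end CHN

open CHN in
theorem specCHN : SpecCHN := by
  intro m a ha t₀ ht₀ htm
  classical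
  have hm : 0 < m := by
    rcases Nat.eq_zero_or_pos m with rfl | h
    · have : Yp a 0 = 0 := rfl
      linarith
    · exact h
  have hY0 : Yp a 0 = 0 := rfl
  set i := Nat.findGreatest (fun k => Yp a k < t₀) (m - 1) with hi
  set j := Nat.findGreatest (fun k => Yp a k ≤ t₀) (m - 1) with hj
  have him : i ≤ m - 1 := Nat.findGreatest_le _
  have hjm : j ≤ m - 1 := Nat.findGreatest_le _
  have hYi : Yp a i < t₀ :=
    Nat.findGreatest_spec (P := fun k => Yp a k < t₀) (Nat.zero_le (m - 1)) (by rw [hY0]; exact ht₀)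
  have hYj : Yp a j ≤ t₀ :=
    Nat.findGreatest_spec (P := fun k => Yp a k ≤ t₀) (Nat.zero_le (m - 1))
      (by rw [hY0]; exact ht₀.le)
  have hYi' : t₀ ≤ Yp a (i + 1) := by
    rcases Nat.lt_or_ge i (m - 1) with h | h
    · exact not_lt.1 (Nat.findGreatest_is_greatest (P := fun k => Yp a k < t₀) (Nat.lt_succ_self i) h)
    · have : i + 1 = m := by omega
      rw [this]; exact htm.le
  have hYj' : t₀ < Yp a (j + 1) := by
    rcases Nat.lt_or_ge j (m - 1) with h | h
    · exact not_le.1 (Nat.findGreatest_is_greatest (P := fun k => Yp a k ≤ t₀) (Nat.lt_succ_self j) h)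
    · have : j + 1 = m := by omega
      rw [this]; exact htm
  have hij : i ≤ j := Nat.le_findGreatest him hYi.le
  refine ⟨i, j, min (t₀ - Yp a i) (Yp a (j + 1) - t₀), hij, by omega,
    lt_min (by linarith) (by linarith), fun κ => ⟨?_, ?_, ?_⟩⟩
  · rintro t ⟨h1, h2⟩
    have h3 : t ≤ Yp a (j + 1) := by
      linarith [min_le_right (t₀ - Yp a i) (Yp a (j + 1) - t₀)]
    refine diff κ (by omega) ?_ ?_
    · intro k hk hkj
      rcases Nat.lt_or_gt_of_ne hkj with h | h
      · have h4 : Yp a (k + 1) ≤ Yp a j := Yp_mono ha h (by omega)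
        rw [g_right (ha k hk) (by linarith), g_right (ha k hk) (by linarith)]
      · have h4 : Yp a (j + 1) ≤ Yp a k := Yp_mono ha h (by omega)
        rw [g_left (by linarith), g_left (by linarith)]
    · rw [g_mid (by linarith) h3, g_mid hYj hYj'.le]
      ring
  · rintro t ⟨h1, h2⟩
    have h3 : Yp a i ≤ t := by
      linarith [min_le_left (t₀ - Yp a i) (Yp a (j + 1) - t₀)]
    refine diff κ (by omega) ?_ ?_
    · intro k hk hkj
      rcases Nat.lt_or_gt_of_ne hkj with h | h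
      · have h4 : Yp a (k + 1) ≤ Yp a i := Yp_mono ha h (by omega)
        rw [g_right (ha k hk) (by linarith), g_right (ha k hk) (by linarith)]
      · have h4 : Yp a (i + 1) ≤ Yp a k := Yp_mono ha h (by omega)
        rw [g_left (by linarith), g_left (by linarith)]
    · rw [g_mid h3 (by linarith), g_mid hYi.le hYi']
      ring
  · rw [← Finset.sum_Ico_sub κ hij, ← Finset.sum_filter]
    refine Finset.sum_congr ?_ fun _ _ => rfl
    ext k
    rw [Finset.mem_Ico, Finset.mem_filter, Finset.mem_range]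
    constructor
    · rintro ⟨h1, h2⟩
      refine ⟨by omega, le_antisymm ?_ ?_⟩
      · exact (Yp_mono ha (show k + 1 ≤ j from h2) (by omega)).trans hYj
      · exact hYi'.trans (Yp_mono ha (show i + 1 ≤ k + 1 by omega) (by omega))
    · rintro ⟨h1, h2⟩
      constructor
      · by_contra h3
        have := Yp_mono ha (show k + 1 ≤ i by omega) (by omega)
        linarith
      · by_contra h3
        have := Yp_mono ha (show j + 1 ≤ k + 1 by omega) (by omega)
        linarith

end Pool.MP671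
end

section
/-!
# MP_671ac3_gt, module COV: the covariogram of a polygon, pointwise
-/
set_option autoImplicit false

namespace Pool.MP671

open MeasureTheory

namespace COV

theorem mem_tr (x : Pl) (A : Set Pl) (z : Pl) : z ∈ tr x A ↔ z - x ∈ A := by
  unfold tr
  constructor
  · rintro ⟨w, hw, rfl⟩
    simpa using hw
  · intro h
    exact ⟨z - x, h, by simp⟩

theorem inter_eq (D : Data) (ξ t : ℝ) (ht : 0 ≤ t) :
    body D ∩ tr (ξ, t) (body D) = prof t D.w (D.lo ξ t) (D.up ξ t) := by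
  ext z
  rw [Set.mem_inter_iff, mem_tr]
  unfold body prof Data.lo Data.up
  simp only [Set.mem_ofPred_eq, Prod.fst_sub, Prod.snd_sub, max_le_iff, le_min_iff]
  constructor
  · rintro ⟨⟨h1, h2, h3, h4⟩, h5, h6, h7, h8⟩
    refine ⟨by linarith, h2, ⟨h3, by linarith⟩, h4, by linarith⟩
  · rintro ⟨h1, h2, ⟨h3, h4⟩, h5, h6⟩
    exact ⟨⟨by linarith, h2, h3, h5⟩, by linarith, by linarith, by linarith, by linarith⟩

theorem prof_shrink {t w y0 y1 : ℝ} {l r : ℝ → ℝ} (h0 : t ≤ y0) (h1 : y1 ≤ w)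
    (h : ∀ y ∈ Set.Icc t w, l y ≤ r y → y0 ≤ y ∧ y ≤ y1) : prof t w l r = prof y0 y1 l r := by
  ext z
  unfold prof
  simp only [Set.mem_ofPred_eq]
  constructor
  · rintro ⟨a1, a2, a3, a4⟩
    obtain ⟨b1, b2⟩ := h z.2 ⟨a1, a2⟩ (a3.trans a4)
    exact ⟨b1, b2, a3, a4⟩
  · rintro ⟨a1, a2, a3, a4⟩
    exact ⟨h0.trans a1, a2.trans h1, a3, a4⟩

theorem prof_empty {t w : ℝ} {l r : ℝ → ℝ} (h : ∀ y ∈ Set.Icc t w, ¬ l y ≤ r y) :
    prof t w l r = ∅ := by
  ext z
  unfold prof
  simp only [Set.mem_ofPred_eq, Set.mem_empty_iff_false, iff_false]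
  rintro ⟨a1, a2, a3, a4⟩
  exact h z.2 ⟨a1, a2⟩ (a3.trans a4)

theorem int_shrink {t w y0 y1 : ℝ} (htw : t ≤ w) (h01 : y0 ≤ y1) (h0 : t ≤ y0) (h1 : y1 ≤ w)
    (f g : ℝ → ℝ) (hf : ∀ y ∈ Set.Icc t w, ¬ (y0 ≤ y ∧ y ≤ y1) → f y = 0)
    (hg : ∀ y ∈ Set.Icc y0 y1, f y = g y) : ∫ y in t..w, f y = ∫ y in y0..y1, g y := by
  rw [intervalIntegral.integral_of_le htw, intervalIntegral.integral_of_le h01,
    ← integral_Icc_eq_integral_Ioc, ← integral_Icc_eq_integral_Ioc,
    setIntegral_eq_of_subset_of_forall_sdiff_eq_zero (s := Set.Icc y0 y1) measurableSet_Icc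
      (Set.Icc_subset_Icc h0 h1)]
  · exact setIntegral_congr_fun measurableSet_Icc hg
  · rintro y ⟨hy, hy'⟩
    exact hf y hy hy'

theorem int_zero {t w : ℝ} (htw : t ≤ w) (f : ℝ → ℝ) (hf : ∀ y ∈ Set.Icc t w, f y = 0) :
    ∫ y in t..w, f y = 0 := by
  rw [intervalIntegral.integral_of_le htw, ← integral_Icc_eq_integral_Ioc,
    setIntegral_congr_fun measurableSet_Icc hf]
  simp

theorem convex_shift {w t ξ : ℝ} {f : ℝ → ℝ} (ht : 0 ≤ t) (hf : ConvexOn ℝ (Set.Icc 0 w) f) :
    ConvexOn ℝ (Set.Icc t w) (fun y => f (y - t) + ξ) := by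
  refine ⟨convex_Icc _ _, ?_⟩
  intro x hx y hy a b ha hb hab
  have h1 := hf.2 (x := x - t) (y := y - t) ⟨by linarith [hx.1], by linarith [hx.2]⟩
    ⟨by linarith [hy.1], by linarith [hy.2]⟩ ha hb hab
  have h2 : a • x + b • y - t = a • (x - t) + b • (y - t) := by
    simp only [smul_eq_mul]
    linear_combination t * hab
  simp only
  rw [h2]
  simp only [smul_eq_mul] at h1 ⊢
  have h3 : a * ξ + b * ξ = ξ := by rw [← add_mul, hab, one_mul]
  linarith

theorem concave_shift {w t ξ : ℝ} {f : ℝ → ℝ} (ht : 0 ≤ t) (hf : ConcaveOn ℝ (Set.Icc 0 w) f) :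
    ConcaveOn ℝ (Set.Icc t w) (fun y => f (y - t) + ξ) := by
  refine ⟨convex_Icc _ _, ?_⟩
  intro x hx y hy a b ha hb hab
  have h1 := hf.2 (x := x - t) (y := y - t) ⟨by linarith [hx.1], by linarith [hx.2]⟩
    ⟨by linarith [hy.1], by linarith [hy.2]⟩ ha hb hab
  have h2 : a • x + b • y - t = a • (x - t) + b • (y - t) := by
    simp only [smul_eq_mul]
    linear_combination t * hab
  simp only
  rw [h2]
  simp only [smul_eq_mul] at h1 ⊢
  have h3 : a * ξ + b * ξ = ξ := by rw [← add_mul, hab, one_mul]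
  linarith

end COV

/-- COV -/
theorem specCOV (hPAR : SpecPAR) (hBOD : SpecBOD) (hPAC : SpecPAC) : SpecCOV := by
  intro φ hφ
  obtain ⟨α, hα⟩ := hPAR φ hφ
  refine ⟨α, ?_⟩
  intro D hD ξ t ht htw
  obtain ⟨pac1, pac2, pac3, pac4, pac5, pac6, pac7, pac8, pac9⟩ := hPAC
  obtain ⟨hL0, hLw, hR0, hRw, hLc, hRc, hLR, hPA, _, _, _⟩ := hBOD D hD
  -- regularity
  have hsub : Set.Icc t D.w ⊆ Set.Icc 0 D.w := Set.Icc_subset_Icc ht le_rfl
  have hloPA : PA t D.w (D.lo ξ t) := by
    have e1 : PA t D.w (fun y => D.L (y - t)) := by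
      have := pac8 0 (D.w - t) D.L t (hPA 0 (D.w - t) (by linarith)).1
      rwa [zero_add, sub_add_cancel] at this
    have e2 : PA t D.w (fun _ => ξ) := PA.aff t D.w ξ 0 _ htw (fun y _ => by ring)
    exact pac7 _ _ _ _ (hPA t D.w htw).1 (pac4 _ _ _ _ e1 e2)
  have hupPA : PA t D.w (D.up ξ t) := by
    have e1 : PA t D.w (fun y => D.R (y - t)) := by
      have := pac8 0 (D.w - t) D.R t (hPA 0 (D.w - t) (by linarith)).2
      rwa [zero_add, sub_add_cancel] at this
    have e2 : PA t D.w (fun _ => ξ) := PA.aff t D.w ξ 0 _ htw (fun y _ => by ring)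
    exact pac6 _ _ _ _ (hPA t D.w htw).2 (pac4 _ _ _ _ e1 e2)
  have hloc : ConvexOn ℝ (Set.Icc t D.w) (D.lo ξ t) :=
    (hLc.subset hsub (convex_Icc _ _)).sup (COV.convex_shift ht hLc)
  have hupc : ConcaveOn ℝ (Set.Icc t D.w) (D.up ξ t) :=
    (hRc.subset hsub (convex_Icc _ _)).inf (COV.concave_shift ht hRc)
  have hlocont := (pac1 _ _ _ hloPA).2
  have hupcont := (pac1 _ _ _ hupPA).2
  have hgc : ConcaveOn ℝ (Set.Icc t D.w) (D.up ξ t - D.lo ξ t) := hupc.sub hloc
  have hgcont : ContinuousOn (D.up ξ t - D.lo ξ t) (Set.Icc t D.w) := hupcont.sub hlocont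
  unfold cov
  rw [COV.inter_eq D ξ t ht]
  obtain ⟨J, hJ⟩ : ∃ J, J = {y ∈ Set.Icc t D.w | 0 ≤ (D.up ξ t - D.lo ξ t) y} := ⟨_, rfl⟩
  have hJmem : ∀ y, y ∈ J ↔ y ∈ Set.Icc t D.w ∧ D.lo ξ t y ≤ D.up ξ t y := by
    intro y
    rw [hJ]
    simp only [Set.mem_sep_iff, Pi.sub_apply, sub_nonneg]
  have hJconv : Convex ℝ J := by
    rw [hJ]
    exact hgc.convex_ge 0
  have hJcomp : IsCompact J := by
    have : IsClosed J := by
      rw [hJ]
      exact hgcont.preimage_isClosed_of_isClosed isClosed_Icc isClosed_Ici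
    exact isCompact_Icc.of_isClosed_subset this (fun y hy => ((hJmem y).mp hy).1)
  rcases J.eq_empty_or_nonempty with hJe | hJne
  · -- empty intersection
    have hno : ∀ y ∈ Set.Icc t D.w, ¬ D.lo ξ t y ≤ D.up ξ t y := by
      intro y hy h
      have : y ∈ J := (hJmem y).mpr ⟨hy, h⟩
      rw [hJe] at this
      exact this
    rw [COV.prof_empty hno, hφ.empty]
    have h1 := not_le.mp (hno t ⟨le_rfl, htw⟩)
    have h2 := not_le.mp (hno D.w ⟨htw, le_rfl⟩)
    rw [max_eq_left (by linarith), max_eq_left (by linarith),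
      COV.int_zero htw _ (fun y hy => if_neg (hno y hy)),
      COV.int_zero htw _ (fun y hy => max_eq_left (by linarith [not_le.mp (hno y hy)]))]
    ring
  · obtain ⟨y0, hy0⟩ : ∃ y0, y0 = sInf J := ⟨_, rfl⟩
    obtain ⟨y1, hy1⟩ : ∃ y1, y1 = sSup J := ⟨_, rfl⟩
    have h0J : y0 ∈ J := by rw [hy0]; exact hJcomp.sInf_mem hJne
    have h1J : y1 ∈ J := by rw [hy1]; exact hJcomp.sSup_mem hJne
    have hle : ∀ y ∈ J, y0 ≤ y ∧ y ≤ y1 := by
      intro y hy
      rw [hy0, hy1]
      exact ⟨csInf_le hJcomp.bddBelow hy, le_csSup hJcomp.bddAbove hy⟩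
    have hmem : ∀ y, y0 ≤ y → y ≤ y1 → y ∈ J := fun y a b =>
      hJconv.ordConnected.out h0J h1J ⟨a, b⟩
    obtain ⟨⟨ht0, h0w⟩, hlu0⟩ := (hJmem y0).mp h0J
    obtain ⟨⟨ht1, h1w⟩, hlu1⟩ := (hJmem y1).mp h1J
    have h01 : y0 ≤ y1 := (hle y0 h0J).2
    have hsub2 : Set.Icc y0 y1 ⊆ Set.Icc t D.w := Set.Icc_subset_Icc ht0 h1w
    rw [COV.prof_shrink ht0 h1w (fun y hy h => hle y ((hJmem y).mpr ⟨hy, h⟩))]
    have hlo2 : PA y0 y1 (D.lo ξ t) := by
      have e1 := (pac3 t y0 D.w _ hloPA ht0 h0w).2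
      exact (pac3 y0 y1 D.w _ e1 h01 h1w).1
    have hup2 : PA y0 y1 (D.up ξ t) := by
      have e1 := (pac3 t y0 D.w _ hupPA ht0 h0w).2
      exact (pac3 y0 y1 D.w _ e1 h01 h1w).1
    rw [hα y0 y1 _ _ h01 hlo2 hup2 (hloc.subset hsub2 (convex_Icc _ _))
      (hupc.subset hsub2 (convex_Icc _ _))
      (fun y hy => ((hJmem y).mp (hmem y hy.1 hy.2)).2)]
    -- the end points
    have hend0 : max 0 (D.up ξ t t - D.lo ξ t t) = D.up ξ t y0 - D.lo ξ t y0 := by
      rcases eq_or_lt_of_le ht0 with h | h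
      · have e : D.up ξ t t - D.lo ξ t t = D.up ξ t y0 - D.lo ξ t y0 :=
          congrArg (fun y => D.up ξ t y - D.lo ξ t y) h
        rw [e, max_eq_right (by linarith)]
      · have hnt : ¬ D.lo ξ t t ≤ D.up ξ t t := by
          intro hc
          have := (hle t ((hJmem t).mpr ⟨⟨le_rfl, htw⟩, hc⟩)).1
          linarith
        rw [max_eq_left (by linarith [not_le.mp hnt])]
        have hc : ContinuousWithinAt (D.up ξ t - D.lo ξ t) (Set.Ico t y0) y0 :=
          (hgcont y0 ⟨ht0, h0w⟩).mono (fun y hy => ⟨hy.1, hy.2.le.trans h0w⟩)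
        have hcl : y0 ∈ closure (Set.Ico t y0) := by
          rw [closure_Ico h.ne]
          exact ⟨ht0, le_rfl⟩
        have hle0 : (D.up ξ t - D.lo ξ t) y0 ≤ 0 := by
          have hne : (nhdsWithin y0 (Set.Ico t y0)).NeBot := mem_closure_iff_nhdsWithin_neBot.mp hcl
          refine le_of_tendsto hc ?_
          filter_upwards [self_mem_nhdsWithin] with y hy
          have hny : ¬ D.lo ξ t y ≤ D.up ξ t y := by
            intro hc
            have := (hle y ((hJmem y).mpr ⟨⟨hy.1, hy.2.le.trans h0w⟩, hc⟩)).1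
            linarith [hy.2]
          simp only [Pi.sub_apply]
          linarith [not_le.mp hny]
        simp only [Pi.sub_apply] at hle0
        linarith
    have hend1 : max 0 (D.up ξ t D.w - D.lo ξ t D.w) = D.up ξ t y1 - D.lo ξ t y1 := by
      rcases eq_or_lt_of_le h1w with h | h
      · have e : D.up ξ t D.w - D.lo ξ t D.w = D.up ξ t y1 - D.lo ξ t y1 :=
          congrArg (fun y => D.up ξ t y - D.lo ξ t y) h.symm
        rw [e, max_eq_right (by linarith)]
      · have hnt : ¬ D.lo ξ t D.w ≤ D.up ξ t D.w := by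
          intro hc
          have := (hle D.w ((hJmem D.w).mpr ⟨⟨htw, le_rfl⟩, hc⟩)).2
          linarith
        rw [max_eq_left (by linarith [not_le.mp hnt])]
        have hc : ContinuousWithinAt (D.up ξ t - D.lo ξ t) (Set.Ioc y1 D.w) y1 :=
          (hgcont y1 ⟨ht1, h1w⟩).mono (fun y hy => ⟨ht1.trans hy.1.le, hy.2⟩)
        have hcl : y1 ∈ closure (Set.Ioc y1 D.w) := by
          rw [closure_Ioc h.ne]
          exact ⟨le_rfl, h1w⟩
        have hle0 : (D.up ξ t - D.lo ξ t) y1 ≤ 0 := by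
          have hne : (nhdsWithin y1 (Set.Ioc y1 D.w)).NeBot := mem_closure_iff_nhdsWithin_neBot.mp hcl
          refine le_of_tendsto hc ?_
          filter_upwards [self_mem_nhdsWithin] with y hy
          have hny : ¬ D.lo ξ t y ≤ D.up ξ t y := by
            intro hc
            have := (hle y ((hJmem y).mpr ⟨⟨ht1.trans hy.1.le, hy.2⟩, hc⟩)).2
            linarith [hy.1]
          simp only [Pi.sub_apply]
          linarith [not_le.mp hny]
        simp only [Pi.sub_apply] at hle0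
        linarith
    have hI1 : (∫ y in t..D.w, if D.lo ξ t y ≤ D.up ξ t y then
          nn φ (deriv (D.lo ξ t) y) + nn φ (deriv (D.up ξ t) y) else 0) =
        ∫ y in y0..y1, (nn φ (deriv (D.lo ξ t) y) + nn φ (deriv (D.up ξ t) y)) := by
      apply COV.int_shrink htw h01 ht0 h1w
      · intro y hy hn
        apply if_neg
        intro hc
        exact hn (hle y ((hJmem y).mpr ⟨hy, hc⟩))
      · intro y hy
        exact if_pos ((hJmem y).mp (hmem y hy.1 hy.2)).2
    have hI2 : (∫ y in t..D.w, max 0 (D.up ξ t y - D.lo ξ t y)) =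
        ∫ y in y0..y1, (D.up ξ t y - D.lo ξ t y) := by
      apply COV.int_shrink htw h01 ht0 h1w
      · intro y hy hn
        apply max_eq_left
        by_contra hc
        push Not at hc
        exact hn (hle y ((hJmem y).mpr ⟨hy, by linarith⟩))
      · intro y hy
        apply max_eq_right
        linarith [((hJmem y).mp (hmem y hy.1 hy.2)).2]
    rw [hend0, hend1, hI1, hI2]

end Pool.MP671
end

section
/-!
# MP_671ac3_gt : module CSD, the end of the case D
-/
namespace Pool.MP671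

namespace CSD

theorem tp_add_tm (n : ℝ → ℝ) (e : ℝ) (s : ℕ → ℝ) (k : ℕ) :
    tp n e s k + tm n e s k = 2 * e * (s (k + 1) - s k) := by
  unfold tp tm
  ring

theorem Yp_sub (a : ℕ → ℝ) (j : ℕ) : Yp a (j + 1) - Yp a j = a j := by
  unfold Yp
  rw [Finset.sum_range_succ]
  ring

end CSD

open CSD in
/-- module CSD -/
theorem specCSD (hCSH : SpecCSH) (hMIR : SpecMIR) : SpecCSD := by
  intro D D' n e h
  have hm' := h.mate.hm
  have hw' := h.mate.hw
  -- the interior heights
  have key : ∀ k, k + 1 < D.m → Yp D'.r (k + 1) = Yp D.r (k + 1) ∧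
      Yp D'.l (k + 1) = Yp D.l (k + 1) := by
    intro k hk
    rcases lt_or_ge 0 (tp n e D.s k) with h1 | h1
    · obtain ⟨a, _, b, _⟩ := hCSH D D' n e h k hk h1
      exact ⟨a, b⟩
    · have hs := h.ok.hs k (k + 1) (Nat.lt_succ_self k) hk
      have h2 : 0 < tm n e D.s k := by
        have h3 := tp_add_tm n e D.s k
        have h4 : 0 < 2 * e * (D.s (k + 1) - D.s k) := by
          have := h.e0
          have h5 : 0 < D.s (k + 1) - D.s k := by linarith
          positivity
        linarith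
      obtain ⟨-, -, -, htp, hYX⟩ := hMIR.1 D h.ok
      obtain ⟨-, -, -, -, hYX'⟩ := hMIR.1 D' h.ok'
      have hDH := hMIR.2.2 D D' n e h
      have hk' : D.m - 2 - k + 1 < D.m := by omega
      have e1 : D.m - 2 - (D.m - 2 - k) = k := by omega
      have h3 : 0 < tp (fun x => n (-x)) e (mir D).s (D.m - 2 - k) := by
        rw [htp n e _ hk', e1]
        exact h2
      obtain ⟨a, _, b, _⟩ := hCSH (mir D) (mir D') _ e hDH (D.m - 2 - k) hk' h3
      have e2 : D.m - (D.m - 2 - k + 1) = k + 1 := by omega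
      have e3 : D'.m - (D.m - 2 - k + 1) = k + 1 := by omega
      obtain ⟨p1, p2, -, -⟩ := hYX (D.m - 2 - k + 1) (by omega)
      obtain ⟨p1', p2', -, -⟩ := hYX' (D.m - 2 - k + 1) (by omega)
      rw [e2] at p1 p2
      rw [e3] at p1' p2'
      rw [p1, p1', hw'] at a
      rw [p2, p2', hw'] at b
      constructor <;> linarith
  have all : ∀ k, k ≤ D.m → Yp D'.r k = Yp D.r k ∧ Yp D'.l k = Yp D.l k := by
    intro k hk
    rcases Nat.eq_zero_or_pos k with h0 | h0
    · subst h0
      unfold Yp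
      simp
    · rcases Nat.lt_or_ge k D.m with h1 | h1
      · obtain ⟨j, rfl⟩ := Nat.exists_eq_add_of_le h0
        rw [Nat.add_comm] at h1 ⊢
        exact key j h1
      · have h2 : k = D.m := le_antisymm hk h1
        subst h2
        have r1 := h.ok.hrw
        have r2 := h.ok'.hrw
        have l1 := h.ok.hlw
        have l2 := h.ok'.hlw
        rw [hm'] at r2 l2
        rw [r1, r2, l1, l2]
        exact ⟨hw', hw'⟩
  intro j hj
  obtain ⟨a1, b1⟩ := all j hj.le
  obtain ⟨a2, b2⟩ := all (j + 1) hj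
  constructor
  · rw [← Yp_sub D'.r j, ← Yp_sub D.r j, a1, a2]
  · rw [← Yp_sub D'.l j, ← Yp_sub D.l j, b1, b2]

end Pool.MP671
end

section
/-!
# MP_671ac3_gt : module CSE
-/
namespace Pool.MP671

open MeasureTheory

namespace CSE

theorem yp_succ (a : ℕ → ℝ) (k : ℕ) : Yp a (k + 1) = Yp a k + a k := by
  unfold Yp
  rw [Finset.sum_range_succ]

theorem xp_succ (s a : ℕ → ℝ) (k : ℕ) : Xp s a (k + 1) = Xp s a k + a k * s k := by
  unfold Xp
  rw [Finset.sum_range_succ]

theorem yp_mono {m : ℕ} {a : ℕ → ℝ} (ha : ∀ j, j < m → 0 ≤ a j) {i j : ℕ} (hij : i ≤ j)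
    (hj : j ≤ m) : Yp a i ≤ Yp a j := by
  induction j, hij using Nat.le_induction with
  | base => exact le_rfl
  | succ j hj' ih =>
    rw [yp_succ]
    have := ih (by omega)
    have := ha j (by omega)
    linarith

/-- Equal on the tail. -/
theorem yp_tail {m : ℕ} {a b : ℕ → ℝ} {M : ℕ} (h : ∀ j, M < j → j < m → a j = b j)
    (hm : Yp a m = Yp b m) (hM : M < m) : Yp a (M + 1) = Yp b (M + 1) := by
  have key : ∀ k, M + 1 + k ≤ m → Yp a (M + 1 + k) - Yp b (M + 1 + k) =
      Yp a (M + 1) - Yp b (M + 1) := by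
    intro k
    induction k with
    | zero => intro _; rfl
    | succ k ih =>
      intro hk
      have e := h (M + 1 + k) (by omega) (by omega)
      have e2 := ih (by omega)
      rw [← Nat.add_assoc, yp_succ, yp_succ]
      linarith
  have := key (m - (M + 1)) (by omega)
  rw [Nat.add_sub_cancel' (by omega), hm] at this
  linarith

theorem xp_tail {m : ℕ} {s a b : ℕ → ℝ} {M : ℕ} (h : ∀ j, M < j → j < m → a j = b j)
    (hm : Xp s a m = Xp s b m) (hM : M < m) : Xp s a (M + 1) = Xp s b (M + 1) := by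
  have key : ∀ k, M + 1 + k ≤ m → Xp s a (M + 1 + k) - Xp s b (M + 1 + k) =
      Xp s a (M + 1) - Xp s b (M + 1) := by
    intro k
    induction k with
    | zero => intro _; rfl
    | succ k ih =>
      intro hk
      have e := h (M + 1 + k) (by omega) (by omega)
      have e2 := ih (by omega)
      rw [← Nat.add_assoc, xp_succ, xp_succ, e]
      linarith
  have := key (m - (M + 1)) (by omega)
  rw [Nat.add_sub_cancel' (by omega), hm] at this
  linarith

/-- Zero entries. -/
theorem yp_zero {a : ℕ → ℝ} {i M : ℕ} (hi : i ≤ M) (h : ∀ j, i < j → j ≤ M → a j = 0) :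
    Yp a (M + 1) = Yp a i + a i := by
  induction M, hi using Nat.le_induction with
  | base => rw [yp_succ]
  | succ M hM ih =>
    rw [yp_succ, ih fun j h1 h2 => h j h1 (by omega), h (M + 1) (by omega) le_rfl, add_zero]

theorem xp_zero {s a : ℕ → ℝ} {i M : ℕ} (hi : i ≤ M) (h : ∀ j, i < j → j ≤ M → a j = 0) :
    Xp s a (M + 1) = Xp s a i + a i * s i := by
  induction M, hi using Nat.le_induction with
  | base => rw [xp_succ]
  | succ M hM ih =>
    rw [xp_succ, ih fun j h1 h2 => h j h1 (by omega), h (M + 1) (by omega) le_rfl, zero_mul,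
      add_zero]

/-- Existence of the last positive index. -/
theorem last_pos {a : ℕ → ℝ} {k : ℕ} : ∀ M, (∀ j, j ≤ M → 0 ≤ a j) → k ≤ M + 1 →
    Yp a k < Yp a (M + 1) → ∃ i, k ≤ i ∧ i ≤ M ∧ 0 < a i ∧ ∀ j, i < j → j ≤ M → a j = 0 := by
  intro M
  induction M with
  | zero =>
    intro ha hk h
    have h0 : k = 0 := by
      by_contra h0
      have h1 : k = 0 + 1 := by omega
      rw [h1] at h
      exact lt_irrefl _ h
    subst h0
    rw [yp_succ] at h
    exact ⟨0, le_rfl, le_rfl, by linarith, fun j h1 h2 => by omega⟩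
  | succ M ih =>
    intro ha hk h
    have hk' : k ≤ M + 1 := by
      by_contra h0
      have h1 : k = M + 1 + 1 := by omega
      rw [h1] at h
      exact lt_irrefl _ h
    rcases (ha (M + 1) le_rfl).lt_or_eq with h1 | h1
    · exact ⟨M + 1, hk', le_rfl, h1, fun j h2 h3 => by omega⟩
    · rw [yp_succ, ← h1, add_zero] at h
      obtain ⟨i, h2, h3, h4, h5⟩ := ih (fun j hj => ha j (by omega)) hk' h
      refine ⟨i, h2, by omega, h4, fun j h6 h7 => ?_⟩
      rcases Nat.lt_or_ge M j with h8 | h8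
      · have : j = M + 1 := by omega
        rw [this]
        exact h1.symm
      · exact h5 j h6 h8

/-! ### The weights -/

theorem tp_nonneg {n : ℝ → ℝ} {e : ℝ} {s : ℕ → ℝ} (lp : ∀ a b, |n a - n b| ≤ e * |a - b|) {k : ℕ}
    (h : s k < s (k + 1)) : 0 ≤ tp n e s k := by
  unfold tp
  have h1 := lp (s (k + 1)) (s k)
  rw [abs_of_pos (by linarith : 0 < s (k + 1) - s k)] at h1
  have h2 := (abs_le.1 h1).1
  linarith

/-- The weights vanish to the left of a vanishing one. -/
theorem tp_zero {m : ℕ} {n : ℝ → ℝ} {e : ℝ} {s : ℕ → ℝ} (cx : ConvexOn ℝ Set.univ n)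
    (lp : ∀ a b, |n a - n b| ≤ e * |a - b|) (hs : Inc m s) {j k : ℕ} (hjk : j ≤ k)
    (hk : k + 1 < m) (h : tp n e s k = 0) : tp n e s j = 0 := by
  rcases Nat.lt_or_ge j k with hlt | hge
  swap
  · have : j = k := by omega
    rw [this, h]
  have h1 : s j < s (j + 1) := hs _ _ (by omega) (by omega)
  have h2 : s k < s (k + 1) := hs _ _ (by omega) (by omega)
  have h3 : s (j + 1) ≤ s k := by
    rcases Nat.lt_or_ge (j + 1) k with h4 | h4
    · exact (hs _ _ h4 (by omega)).le
    · have : j + 1 = k := by omega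
      rw [this]
  have h5 : (n (s (j + 1)) - n (s j)) / (s (j + 1) - s j) ≤
      (n (s (k + 1)) - n (s k)) / (s (k + 1) - s k) := by
    rcases h3.lt_or_eq with h4 | h4
    · have a1 := cx.slope_mono_adjacent (Set.mem_univ (s j)) (Set.mem_univ (s k)) h1 h4
      have a2 := cx.slope_mono_adjacent (Set.mem_univ (s (j + 1))) (Set.mem_univ (s (k + 1))) h4 h2
      exact a1.trans a2
    · rw [h4] at h1 ⊢
      exact cx.slope_mono_adjacent (Set.mem_univ (s j)) (Set.mem_univ (s (k + 1))) h1 h2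
  have h6 : (n (s (k + 1)) - n (s k)) / (s (k + 1) - s k) = -e := by
    rw [div_eq_iff (by linarith)]
    unfold tp at h
    linarith
  rw [h6, div_le_iff₀ (by linarith)] at h5
  have h7 := tp_nonneg lp h1
  unfold tp at h7 ⊢
  linarith

/-- Positive total weight. -/
theorem vr_pos {D : Data} {n : ℝ → ℝ} {e : ℝ} (lp : ∀ a b, |n a - n b| ≤ e * |a - b|)
    (hs : Inc D.m D.s) {k : ℕ} (hk : k + 1 < D.m) {t : ℝ} (ht : Yp D.r (k + 1) = t)
    (h : 0 < tp n e D.s k) : 0 < VR D n e t := by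
  unfold VR
  refine Finset.sum_pos' (fun i hi => ?_) ⟨k, Finset.mem_range.2 (by omega), ?_⟩
  · split
    · rw [Finset.mem_range] at hi
      exact tp_nonneg lp (hs _ _ (by omega) (by omega))
    · exact le_rfl
  · rw [if_pos ht]
    exact h

theorem vr_exists {D : Data} {n : ℝ → ℝ} {e : ℝ} {t : ℝ} (h : 0 < VR D n e t) :
    ∃ k, k + 1 < D.m ∧ Yp D.r (k + 1) = t ∧ 0 < tp n e D.s k := by
  by_contra hcon
  push Not at hcon
  refine absurd h (not_lt.2 ?_)
  unfold VR
  refine Finset.sum_nonpos fun k hk => ?_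
  rw [Finset.mem_range] at hk
  split
  · rename_i h1
    exact hcon k (by omega) h1
  · exact le_rfl

/-- `D` and `D'` exchanged. -/
theorem inc {D : Data} (h : D.Ok) : Inc D.m D.s := h.hs

/-- One comparison: a vertex of `D` with positive weight at a height in `(0, T)` is below the last
vertex of `D'` before the tail. -/
theorem step {D D' : Data} {n n' : ℝ → ℝ} {e e' : ℝ} (ok' : D'.Ok) (hmm : D'.m = D.m)
    (cx' : ConvexOn ℝ Set.univ n') (lp : ∀ a b, |n a - n b| ≤ e * |a - b|)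
    (lp' : ∀ a b, |n' a - n' b| ≤ e' * |a - b|) (hs : Inc D.m D.s)
    (hVR : ∀ t, 0 < t → t < D.w → VR D n e t = VR D' n' e' t) {M i : ℕ} (hM : M < D.m)
    (hi1 : 1 ≤ i) (hi : i + 1 ≤ D.m) (h0 : 0 < Yp D.r i) (hw : Yp D.r i < D.w)
    (hT : Yp D.r i < Yp D'.r (M + 1)) (htp : 0 < tp n e D.s (i - 1)) :
    ∃ i', 1 ≤ i' ∧ i' ≤ M ∧ 0 < D'.r i' ∧ (∀ j, i' < j → j ≤ M → D'.r j = 0) ∧
      Yp D.r i ≤ Yp D'.r i' ∧ 0 < tp n' e' D'.s (i' - 1) := by
  have e1 : i - 1 + 1 = i := by omega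
  have h1 : 0 < VR D n e (Yp D.r i) := vr_pos lp hs (by omega) (by rw [e1]) htp
  rw [hVR _ h0 hw] at h1
  obtain ⟨k', hk', ht', hp'⟩ := vr_exists h1
  have hr' : ∀ j, j < D'.m → 0 ≤ D'.r j := ok'.hr
  have hkM : k' + 1 ≤ M + 1 := by
    by_contra hcon
    have := yp_mono hr' (by omega : M + 1 ≤ k' + 1) (by omega)
    linarith
  rw [← ht'] at hT
  obtain ⟨i', h2, h3, h4, h5⟩ := last_pos M (fun j hj => hr' j (by omega)) hkM hT
  refine ⟨i', by omega, h3, h4, h5, ?_, ?_⟩
  · rw [← ht']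
    exact yp_mono hr' h2 (by omega)
  · rcases (tp_nonneg lp' (inc ok' _ _ (by omega : i' - 1 < i' - 1 + 1) (by omega))).lt_or_eq
      with h6 | h6
    · exact h6
    · have := tp_zero cx' lp' (inc ok') (by omega : k' ≤ i' - 1) (by omega) h6.symm
      linarith

theorem first (hCSV : SpecCSV) (D D' : Data) (n n' : ℝ → ℝ) (e e' : ℝ) (h : SH D D' n n' e e')
    (hVR : ∀ t, 0 < t → t < D.w → VR D' n' e' t = VR D n e t)
    (M i j₀ : ℕ) (hM : M < D.m) (htl : ∀ j, M < j → j < D.m → D'.r j = D.r j)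
    (hne : D'.r M ≠ D.r M) (hiM : i ≤ M) (hri : 0 < D.r i) (hz : ∀ j, i < j → j ≤ M → D.r j = 0)
    (hj : j₀ < i) (hrj : 0 < D.r j₀) : tp n e D.s (i - 1) = 0 := by
  have hs : Inc D.m D.s := h.ok.hs
  have hr : ∀ j, j < D.m → 0 ≤ D.r j := h.ok.hr
  have hmm := h.mate.hm
  have hss := h.mate.hs
  have hww := h.mate.hw
  have e1 : i - 1 + 1 = i := by omega
  rcases (tp_nonneg h.lp (hs _ _ (by omega : i - 1 < i - 1 + 1) (by omega))).lt_or_eq with htp | htp
  swap
  · exact htp.symm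
  exfalso
  -- equal end points
  have hYm : Yp D'.r D.m = Yp D.r D.m := by
    have a1 := h.ok.hrw
    have a2 := h.ok'.hrw
    rw [hmm] at a2
    rw [a1, a2, hww]
  have hXm : Xp D.s D'.r D.m = Xp D.s D.r D.m := by
    have a1 := h.ok.hcl
    have a2 := h.ok'.hcl
    rw [hmm, hss, h.q0'] at a2
    rw [h.q0] at a1
    have a3 := h.mate.hpq
    rw [h.q0, h.q0'] at a3
    have a4 : Xp D.s D'.r D.m + Xp D.s D'.l D.m = Xp D.s D.r D.m + Xp D.s D.l D.m := by
      unfold Xp
      rw [← Finset.sum_add_distrib, ← Finset.sum_add_distrib]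
      refine Finset.sum_congr rfl fun j hj => ?_
      rw [← add_mul, ← add_mul, h.mate.hrl j (Finset.mem_range.1 hj)]
    linarith
  have hYT := yp_tail htl hYm hM
  have hXT := xp_tail htl hXm hM
  have hT1 := yp_zero hiM hz
  have hX1 := xp_zero (s := D.s) hiM hz
  -- the height `t`
  have ht0 : 0 < Yp D.r i := by
    have a1 := yp_mono hr (by omega : j₀ + 1 ≤ i) (by omega)
    rw [yp_succ] at a1
    have a2 := yp_mono hr (Nat.zero_le j₀) (by omega)
    have a3 : Yp D.r 0 = 0 := by simp [Yp]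
    linarith
  have htw : Yp D.r i < D.w := by
    have a1 := yp_mono hr (by omega : i + 1 ≤ D.m) le_rfl
    rw [yp_succ, h.ok.hrw] at a1
    linarith
  have htT : Yp D.r i < Yp D'.r (M + 1) := by
    rw [hYT, hT1]
    linarith
  obtain ⟨i', b1, b2, b3, b4, b5, b6⟩ := step h.ok' hmm h.cx' h.lp h.lp' hs
    (fun t h1 h2 => (hVR t h1 h2).symm) hM (by omega) (by omega) ht0 htw htT htp
  have hr' : ∀ j, j < D'.m → 0 ≤ D'.r j := h.ok'.hr
  have hT2 := yp_zero b2 b4
  have hX2 := xp_zero (s := D.s) b2 b4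
  -- the height `t'`
  have ht0' : 0 < Yp D'.r i' := by linarith
  have htw' : Yp D'.r i' < D'.w := by
    have a1 := yp_mono hr' (by omega : i' + 1 ≤ D'.m) le_rfl
    rw [yp_succ, h.ok'.hrw] at a1
    linarith
  have htT' : Yp D'.r i' < Yp D.r (M + 1) := by
    rw [← hYT, hT2]
    linarith
  obtain ⟨i'', c1, c2, c3, c4, c5, c6⟩ := step (D := D') (D' := D) h.ok hmm.symm h.cx h.lp' h.lp
    h.ok'.hs (fun t h1 h2 => hVR t h1 (by rw [← hww]; exact h2)) (by omega) b1 (by omega) ht0' htw'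
    htT' b6
  have hii : i'' = i := by
    rcases lt_trichotomy i'' i with h1 | h1 | h1
    · have := c4 i h1 hiM
      linarith
    · exact h1
    · have := hz i'' h1 c2
      linarith
  subst hii
  have htt : Yp D.r i'' = Yp D'.r i' := le_antisymm b5 c5
  have hrr : D.r i'' = D'.r i' := by
    rw [hT1, hT2] at hYT
    linarith
  have hpos := (hCSV D D' n n' e e' h (Yp D.r i'') ht0 htw).2
    (vr_pos h.lp hs (by omega) (by rw [e1]) htp) (i'' - 1) (i' - 1) (by omega) (by omega)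
    (by rw [e1]) (by rw [Nat.sub_add_cancel b1]; exact htt.symm)
  rw [e1, Nat.sub_add_cancel b1] at hpos
  rw [hX1, hX2, hpos, ← hrr] at hXT
  have hsi : D.s i'' = D.s i' := by
    have a1 : D.r i'' * D.s i' = D.r i'' * D.s i'' := by linarith
    exact (mul_left_cancel₀ hri.ne' a1).symm
  have hii : i'' = i' := by
    rcases lt_trichotomy i'' i' with h1 | h1 | h1
    · have := hs _ _ h1 (by omega)
      linarith
    · exact h1
    · have := hs _ _ h1 (by omega)
      linarith
  subst hii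
  apply hne
  rcases Nat.lt_or_ge i'' M with h1 | h1
  · rw [hz M h1 le_rfl, b4 M h1 le_rfl]
  · have : M = i'' := by omega
    rw [this]
    exact hrr.symm

end CSE

theorem specCSE (hCSV : SpecCSV) (hMIR : SpecMIR) : SpecCSE := by
  intro D D' n n' e e' h
  refine ⟨fun M i j₀ hM htl hne hiM hri hz hj hrj => CSE.first hCSV D D' n n' e e' h
    (fun t h1 h2 => (hCSV D D' n n' e e' h t h1 h2).1.symm) M i j₀ hM htl hne hiM hri hz hj hrj,
    ?_⟩
  intro M i j₀ hM htl hne hiM him hli hz hj hjm hlj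
  have h' := hMIR.2.1 D D' n n' e e' h
  have hmm := h.mate.hm
  have key := CSE.first hCSV (mir D) (mir D') _ _ e e' h'
    (fun t h1 h2 => (hCSV _ _ _ _ _ _ h' t h1 h2).1.symm) (D.m - 1 - M) (D.m - 1 - i)
    (D.m - 1 - j₀) (show D.m - 1 - M < D.m by omega)
    (fun j h1 h2 => by
      have h3 : j < D.m := h2
      show D'.l (D'.m - 1 - j) = D.l (D.m - 1 - j)
      rw [hmm]
      exact htl _ (by omega))
    (by
      show D'.l (D'.m - 1 - (D.m - 1 - M)) ≠ D.l (D.m - 1 - (D.m - 1 - M))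
      rw [hmm, show D.m - 1 - (D.m - 1 - M) = M by omega]
      exact hne)
    (by omega)
    (by
      show 0 < D.l (D.m - 1 - (D.m - 1 - i))
      rw [show D.m - 1 - (D.m - 1 - i) = i by omega]
      exact hli)
    (fun j h1 h2 => by
      show D.l (D.m - 1 - j) = 0
      exact hz _ (by omega) (by omega))
    (by omega)
    (by
      show 0 < D.l (D.m - 1 - (D.m - 1 - j₀))
      rw [show D.m - 1 - (D.m - 1 - j₀) = j₀ by omega]
      exact hlj)
  rw [(hMIR.1 D h.ok).2.2.2.1 n e (D.m - 1 - i - 1) (by omega)] at key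
  rw [show D.m - 2 - (D.m - 1 - i - 1) = i by omega] at key
  exact key

end Pool.MP671
end

section
/-!
# MP_671ac3_gt, module CSH: all edges have a parallel partner, induction over the vertices
-/
namespace Pool.MP671

open MeasureTheory

namespace CSH

theorem Yp_succ (a : ℕ → ℝ) (k : ℕ) : Yp a (k + 1) = Yp a k + a k := by
  unfold Yp
  rw [Finset.sum_range_succ]

theorem Yp_lt {m : ℕ} {a : ℕ → ℝ} (ha : ∀ j, j < m → 0 < a j) {i j : ℕ} (hij : i < j)
    (hj : j ≤ m) : Yp a i < Yp a j := by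
  induction j, hij using Nat.le_induction with
  | base =>
    rw [Yp_succ]
    have := ha i (by omega)
    linarith
  | succ j hj' ih =>
    rw [Yp_succ]
    have h1 := ha j (by omega)
    have h2 := ih (by omega)
    linarith

theorem Yp_zero (a : ℕ → ℝ) : Yp a 0 = 0 := by
  unfold Yp
  simp

theorem split_sum (f : ℕ → ℝ) {k m : ℕ} (h : k ≤ m) :
    ∑ j ∈ Finset.range m, f j = ∑ j ∈ Finset.range k, f j + ∑ j ∈ Finset.Ico k m, f j := by
  rw [Finset.range_eq_Ico, Finset.range_eq_Ico, Finset.sum_Ico_consecutive f (Nat.zero_le k) h]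

/-- The basic inequality for a chain with increasing slopes. -/
theorem key {m : ℕ} {s a : ℕ → ℝ} (hs : ∀ i j, i < j → j < m → s i < s j)
    (ha : ∀ j, j < m → 0 < a j) {k : ℕ} (hk : k + 1 < m) :
    Xp s a (k + 1) * (Yp a m - Yp a (k + 1)) < (Xp s a m - Xp s a (k + 1)) * Yp a (k + 1) := by
  have hY1 : 0 < Yp a (k + 1) := by
    have := Yp_lt ha (Nat.succ_pos k) hk.le
    rwa [Yp_zero] at this
  have hY2 : 0 < Yp a m - Yp a (k + 1) := by
    have := Yp_lt ha hk le_rfl
    linarith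
  have h1 : Xp s a (k + 1) ≤ s k * Yp a (k + 1) := by
    unfold Xp Yp
    rw [Finset.mul_sum]
    refine Finset.sum_le_sum fun j hj => ?_
    have hj' := Finset.mem_range.1 hj
    have h2 : s j ≤ s k := by
      rcases Nat.lt_succ_iff_lt_or_eq.1 hj' with h | h
      · exact (hs j k h (by omega)).le
      · rw [h]
    have h3 := ha j (by omega)
    nlinarith
  have h2 : s (k + 1) * (Yp a m - Yp a (k + 1)) ≤ Xp s a m - Xp s a (k + 1) := by
    unfold Xp Yp
    rw [split_sum a hk.le, split_sum (fun j => a j * s j) hk.le]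
    have e1 : ∀ x y : ℝ, x + y - x = y := fun x y => by ring
    rw [e1, e1, Finset.mul_sum]
    refine Finset.sum_le_sum fun j hj => ?_
    have hj' := Finset.mem_Ico.1 hj
    have h2 : s (k + 1) ≤ s j := by
      rcases Nat.lt_or_ge (k + 1) j with h | h
      · exact (hs _ _ h hj'.2).le
      · have : j = k + 1 := by omega
        rw [this]
    have h3 := ha j hj'.2
    nlinarith
  have h3 := hs k (k + 1) (Nat.lt_succ_self k) hk
  have h4 : s k * Yp a (k + 1) * (Yp a m - Yp a (k + 1))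
      < s (k + 1) * (Yp a m - Yp a (k + 1)) * Yp a (k + 1) := by
    have := mul_pos hY1 hY2
    nlinarith
  calc Xp s a (k + 1) * (Yp a m - Yp a (k + 1))
      ≤ s k * Yp a (k + 1) * (Yp a m - Yp a (k + 1)) :=
        mul_le_mul_of_nonneg_right h1 hY2.le
    _ < s (k + 1) * (Yp a m - Yp a (k + 1)) * Yp a (k + 1) := h4
    _ ≤ (Xp s a m - Xp s a (k + 1)) * Yp a (k + 1) := mul_le_mul_of_nonneg_right h2 hY1.le

/-- A vertex at depth `t` lies on the left of the chord. -/
theorem below {m : ℕ} {s a : ℕ → ℝ} (hs : ∀ i j, i < j → j < m → s i < s j)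
    (ha : ∀ j, j < m → 0 < a j) {w t : ℝ} (hw : 0 < w) (hw' : Yp a m = w) {k : ℕ}
    (hk : k + 1 < m) (ht : Yp a (k + 1) = t) : Xp s a (k + 1) < Xp s a m / w * t := by
  have h := key hs ha hk
  rw [hw', ht] at h
  rw [div_mul_eq_mul_div, lt_div_iff₀ hw]
  linarith

/-- A vertex at height `w - t` lies on the right of the chord. -/
theorem above {m : ℕ} {s a : ℕ → ℝ} (hs : ∀ i j, i < j → j < m → s i < s j)
    (ha : ∀ j, j < m → 0 < a j) {w t : ℝ} (hw : 0 < w) (hw' : Yp a m = w) {k : ℕ}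
    (hk : k + 1 < m) (ht : w - Yp a (k + 1) = t) :
    Xp s a m / w * t < Xp s a m - Xp s a (k + 1) := by
  have h := key hs ha hk
  have h1 : Yp a (k + 1) = w - t := by linarith
  rw [hw', h1] at h
  rw [div_mul_eq_mul_div, div_lt_iff₀ hw]
  nlinarith

theorem ind_left {a b ξ : ℝ} (h : ξ ≤ a) : ind a b ξ = 0 := by
  unfold ind
  rw [if_neg]
  rintro ⟨h1, _⟩
  linarith

open Classical in
/-- The visible part of `F`. -/
noncomputable def V (D : Data) (k : ℕ) (ξ t : ℝ) : ℝ :=
  (if Yp D.r (k + 1) = t then ind (Xp D.s D.r (k + 1) - D.p) (Xp D.s D.r (k + 1)) ξ else 0)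
    + (if Yp D.l (k + 1) = t then ind (Xp D.s D.l (k + 1) - D.q) (Xp D.s D.l (k + 1)) ξ else 0)

/-- On the left of the chord `F` is the visible part. -/
theorem F_eq {D : Data} {n : ℝ → ℝ} {e : ℝ} (hok : D.Ok) (hr : ∀ j, j < D.m → 0 < D.r j)
    (hl : ∀ j, j < D.m → 0 < D.l j) (hpq : D.q < D.p) {t ξ : ℝ} (ht : 0 < t)
    (hξ : ξ < Xp D.s D.l D.m / D.w * t) :
    F D n e ξ t = ∑ k ∈ Finset.range (D.m - 1), tp n e D.s k * V D k ξ t := by
  unfold F
  refine Finset.sum_congr rfl fun k hk => ?_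
  have hk' : k + 1 < D.m := by
    have := Finset.mem_range.1 hk
    omega
  have hρ : Xp D.s D.l D.m / D.w * t < Xp D.s D.r D.m / D.w * t := by
    have h1 := hok.hcl
    have h2 : Xp D.s D.l D.m < Xp D.s D.r D.m := by linarith
    have h3 := hok.hw
    have h4 : Xp D.s D.l D.m / D.w < Xp D.s D.r D.m / D.w := by
      rw [div_lt_div_iff_of_pos_right h3]
      exact h2
    nlinarith
  have e1 : (if D.w - Yp D.l (k + 1) = t then
            ind (Xp D.s D.l D.m - Xp D.s D.l (k + 1)) (Xp D.s D.l D.m - Xp D.s D.l (k + 1) + D.p) ξ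
            else 0) = 0 := by
    split_ifs with h
    · exact ind_left (by
        have := above hok.hs hl hok.hw hok.hlw hk' h
        linarith)
    · rfl
  have e2 : (if D.w - Yp D.r (k + 1) = t then
            ind (Xp D.s D.r D.m - Xp D.s D.r (k + 1)) (Xp D.s D.r D.m - Xp D.s D.r (k + 1) + D.q) ξ
            else 0) = 0 := by
    split_ifs with h
    · exact ind_left (by
        have := above hok.hs hr hok.hw hok.hrw hk' h
        linarith)
    · rfl
  rw [e1, e2, add_zero, mul_zero, add_zero]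
  rfl

theorem Yp_add (a b c d : ℕ → ℝ) (m : ℕ) (h : ∀ j, j < m → a j + b j = c j + d j) (k : ℕ)
    (hk : k ≤ m) : Yp a k + Yp b k = Yp c k + Yp d k := by
  unfold Yp
  rw [← Finset.sum_add_distrib, ← Finset.sum_add_distrib]
  exact Finset.sum_congr rfl fun j hj => h j (lt_of_lt_of_le (Finset.mem_range.1 hj) hk)

theorem Xp_add (s a b c d : ℕ → ℝ) (m : ℕ) (h : ∀ j, j < m → a j + b j = c j + d j) (k : ℕ)
    (hk : k ≤ m) : Xp s a k + Xp s b k = Xp s c k + Xp s d k := by
  unfold Xp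
  rw [← Finset.sum_add_distrib, ← Finset.sum_add_distrib]
  refine Finset.sum_congr rfl fun j hj => ?_
  have := h j (lt_of_lt_of_le (Finset.mem_range.1 hj) hk)
  rw [← add_mul, ← add_mul, this]

theorem tp_nonneg {n : ℝ → ℝ} {e : ℝ} (lp : ∀ a b, |n a - n b| ≤ e * |a - b|) {s : ℕ → ℝ}
    {k : ℕ} (hs : s k < s (k + 1)) : 0 ≤ tp n e s k := by
  unfold tp
  have h := lp (s k) (s (k + 1))
  have h1 := (abs_le.1 h).2
  rw [abs_of_neg (by linarith)] at h1
  linarith

end CSH

open CSH in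
theorem specCSH (hTIL : SpecTIL) : SpecCSH := by
  classical
  intro D D' n e hH k
  have hs' := hH.mate.hs
  have hm' := hH.mate.hm
  have hr : ∀ j, j < D.m → 0 < D.r j := fun j hj => (hH.pos j hj).1
  have hl : ∀ j, j < D.m → 0 < D.l j := fun j hj => (hH.pos j hj).2.1
  have hr' : ∀ j, j < D.m → 0 < D'.r j := fun j hj => (hH.pos j hj).2.2.1
  have hl' : ∀ j, j < D.m → 0 < D'.l j := fun j hj => (hH.pos j hj).2.2.2
  have hrr : Yp D'.r D.m = D.w := by
    have := hH.ok'.hrw
    rw [hm', hH.mate.hw] at this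
    exact this
  have hll : Yp D'.l D.m = D.w := by
    have := hH.ok'.hlw
    rw [hm', hH.mate.hw] at this
    exact this
  -- the chords agree
  have hXl : Xp D.s D'.l D.m = Xp D.s D.l D.m := by
    have h1 := hH.ok.hcl
    have h2 := hH.ok'.hcl
    rw [hm', hs', hH.hp, hH.hq] at h2
    have h3 := Xp_add D.s _ _ _ _ D.m hH.mate.hrl D.m le_rfl
    linarith
  induction k using Nat.strong_induction_on with
  | _ k ih =>
    intro hk htp
    have hYs : Yp D'.r (k + 1) + Yp D'.l (k + 1) = Yp D.r (k + 1) + Yp D.l (k + 1) :=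
      Yp_add _ _ _ _ D.m hH.mate.hrl (k + 1) hk.le
    have hXs : Xp D.s D'.r (k + 1) + Xp D.s D'.l (k + 1)
        = Xp D.s D.r (k + 1) + Xp D.s D.l (k + 1) :=
      Xp_add D.s _ _ _ _ D.m hH.mate.hrl (k + 1) hk.le
    obtain ⟨t, ht⟩ : ∃ t, t = min (min (Yp D.r (k + 1)) (Yp D.l (k + 1)))
        (min (Yp D'.r (k + 1)) (Yp D'.l (k + 1))) := ⟨_, rfl⟩
    have t1 : t ≤ Yp D.r (k + 1) := by rw [ht]; exact (min_le_left _ _).trans (min_le_left _ _)
    have t2 : t ≤ Yp D.l (k + 1) := by rw [ht]; exact (min_le_left _ _).trans (min_le_right _ _)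
    have t3 : t ≤ Yp D'.r (k + 1) := by rw [ht]; exact (min_le_right _ _).trans (min_le_left _ _)
    have t4 : t ≤ Yp D'.l (k + 1) := by rw [ht]; exact (min_le_right _ _).trans (min_le_right _ _)
    have hor : Yp D.r (k + 1) = t ∨ Yp D.l (k + 1) = t ∨ Yp D'.r (k + 1) = t ∨
        Yp D'.l (k + 1) = t := by
      rcases min_choice (min (Yp D.r (k + 1)) (Yp D.l (k + 1)))
        (min (Yp D'.r (k + 1)) (Yp D'.l (k + 1))) with h | h
      · rcases min_choice (Yp D.r (k + 1)) (Yp D.l (k + 1)) with h2 | h2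
        · left; rw [ht, h, h2]
        · right; left; rw [ht, h, h2]
      · rcases min_choice (Yp D'.r (k + 1)) (Yp D'.l (k + 1)) with h2 | h2
        · right; right; left; rw [ht, h, h2]
        · right; right; right; rw [ht, h, h2]
    have hpos : ∀ a : ℕ → ℝ, (∀ j, j < D.m → 0 < a j) → 0 < Yp a (k + 1) := by
      intro a ha
      have := Yp_lt ha (Nat.succ_pos k) hk.le
      rwa [Yp_zero] at this
    have ht0 : 0 < t := by
      rcases hor with h | h | h | h
      · rw [← h]; exact hpos _ hr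
      · rw [← h]; exact hpos _ hl
      · rw [← h]; exact hpos _ hr'
      · rw [← h]; exact hpos _ hl'
    have htw : t < D.w := by
      have := Yp_lt hr hk le_rfl
      rw [hH.ok.hrw] at this
      linarith
    have hw := hH.ok.hw
    obtain ⟨Λ, hΛ⟩ : ∃ Λ, Λ = Xp D.s D.l D.m / D.w * t := ⟨_, rfl⟩
    -- `ρ t - p < Λ`
    have hρ : Xp D.s D.r D.m / D.w * t - D.p < Λ := by
      have h1 := hH.ok.hcl
      have h2 : Xp D.s D.r D.m = Xp D.s D.l D.m + (D.p - D.q) := by linarith
      rw [h2, hΛ, add_div, add_mul]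
      have h3 : (D.p - D.q) / D.w * t < D.p - D.q := by
        rw [div_mul_eq_mul_div, div_lt_iff₀ hw]
        have := hH.pq
        nlinarith
      have := hH.q0
      linarith
    have hρ' : Xp D.s D'.r D.m = Xp D.s D.r D.m := by
      have h3 := Xp_add D.s _ _ _ _ D.m hH.mate.hrl D.m le_rfl
      linarith
    have hF : ∀ ξ, ξ < Λ → F D n e ξ t
        = ∑ k ∈ Finset.range (D.m - 1), tp n e D.s k * V D k ξ t := fun ξ hξ =>
      F_eq hH.ok hr hl hH.pq ht0 (by rw [← hΛ]; exact hξ)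
    have hF' : ∀ ξ, ξ < Λ → F D' n e ξ t
        = ∑ k ∈ Finset.range (D.m - 1), tp n e D.s k * V D' k ξ t := by
      intro ξ hξ
      have h := F_eq (D := D') (n := n) (e := e) hH.ok' (by rw [hm']; exact hr')
        (by rw [hm']; exact hl') (by rw [hH.hp, hH.hq]; exact hH.pq) ht0 (ξ := ξ)
        (by rw [hm', hs', hH.mate.hw, hXl, ← hΛ]; exact hξ)
      rw [hm', hs'] at h
      exact h
    -- the other terms agree
    have hoth : ∀ ξ, ∀ j ∈ Finset.range (D.m - 1), j ≠ k →
        tp n e D.s j * V D j ξ t = tp n e D.s j * V D' j ξ t := by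
      intro ξ j hj hjk
      have hj' : j + 1 < D.m := by
        have := Finset.mem_range.1 hj
        omega
      rcases Nat.lt_or_gt_of_ne hjk with h | h
      · rcases (tp_nonneg hH.lp (hH.ok.hs j (j + 1) (Nat.lt_succ_self j) hj')).lt_or_eq with
          h1 | h1
        · obtain ⟨a1, a2, a3, a4⟩ := ih j h hj' h1
          unfold V
          rw [hs', a1, a2, a3, a4, hH.hp, hH.hq]
        · rw [← h1, zero_mul, zero_mul]
      · have hne : ∀ a : ℕ → ℝ, (∀ j, j < D.m → 0 < a j) → t ≤ Yp a (k + 1) →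
            Yp a (j + 1) ≠ t := by
          intro a ha hta
          have := Yp_lt ha (show k + 1 < j + 1 by omega) hj'.le
          exact fun h => by linarith
        unfold V
        rw [if_neg (hne _ hr t1), if_neg (hne _ hl t2), if_neg (hne _ hr' t3),
          if_neg (hne _ hl' t4)]
    have hkm : k ∈ Finset.range (D.m - 1) := Finset.mem_range.2 (by omega)
    have hsee : ∀ x y, x < y → y ≤ Λ → ∃ ξ ∈ Set.Ioo x y, V D k ξ t = V D' k ξ t := by
      intro x y hxy hyΛ
      obtain ⟨ξ, hξ, hξF⟩ := hH.den t ht0 htw x y hxy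
      refine ⟨ξ, hξ, ?_⟩
      have hξΛ : ξ < Λ := lt_of_lt_of_le hξ.2 hyΛ
      have h1 : F D n e ξ t = F D' n e ξ t := hξF
      rw [hF ξ hξΛ, hF' ξ hξΛ, ← Finset.add_sum_erase _ _ hkm, ← Finset.add_sum_erase _ _ hkm,
        Finset.sum_congr rfl (fun j hj => hoth ξ j (Finset.mem_of_mem_erase hj)
          (Finset.ne_of_mem_erase hj))] at h1
      have h2 := add_right_cancel h1
      exact mul_left_cancel₀ htp.ne' h2
    have hVV : ∀ x y, x < y → y ≤ Λ → ∃ ξ ∈ Set.Ioo x y,
        (if Yp D.r (k + 1) = t then ind (Xp D.s D.r (k + 1) - D.p) (Xp D.s D.r (k + 1)) ξ else 0)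
        + (if Yp D.l (k + 1) = t then ind (Xp D.s D.l (k + 1) - D.q) (Xp D.s D.l (k + 1)) ξ
            else 0) =
        (if Yp D'.r (k + 1) = t then ind (Xp D.s D'.r (k + 1) - D.p) (Xp D.s D'.r (k + 1)) ξ
            else 0)
        + (if Yp D'.l (k + 1) = t then ind (Xp D.s D'.l (k + 1) - D.q) (Xp D.s D'.l (k + 1)) ξ
            else 0) := by
      intro x y hxy hyΛ
      obtain ⟨ξ, hξ, h⟩ := hsee x y hxy hyΛ
      refine ⟨ξ, hξ, ?_⟩
      unfold V at h
      rw [hs', hH.hp, hH.hq] at h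
      exact h
    obtain ⟨b1, b2, b3, b4⟩ := hTIL D.p D.q Λ (Xp D.s D.r (k + 1)) (Xp D.s D.l (k + 1))
      (Xp D.s D'.r (k + 1)) (Xp D.s D'.l (k + 1)) (Yp D.r (k + 1) = t) (Yp D.l (k + 1) = t)
      (Yp D'.r (k + 1) = t) (Yp D'.l (k + 1) = t) hH.q0 hH.pq
      (fun h => by
        have := below hH.ok.hs hr hw hH.ok.hrw hk h
        linarith)
      (fun h => by
        have := below hH.ok.hs hl hw hH.ok.hlw hk h
        rw [hΛ]; exact this)
      (fun h => by
        have := below hH.ok.hs hr' hw hrr hk h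
        rw [hρ'] at this
        linarith)
      (fun h => by
        have := below hH.ok.hs hl' hw hll hk h
        rw [hXl] at this
        rw [hΛ]; exact this)
      hor
      (by
        constructor
        · rintro ⟨h1, h2⟩
          constructor <;> linarith
        · rintro ⟨h1, h2⟩
          constructor <;> linarith)
      hXs.symm hVV
    refine ⟨?_, b3.symm, ?_, b4.symm⟩
    · by_cases hα : Yp D.r (k + 1) = t
      · rw [hα, b1.1 hα]
      · have hβ : Yp D.l (k + 1) = t := by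
          rcases hor with h | h | h | h
          · exact absurd h hα
          · exact h
          · exact absurd (b1.2 h) hα
          · exact b2.2 h
        have hβ' := b2.1 hβ
        linarith
    · by_cases hβ : Yp D.l (k + 1) = t
      · rw [hβ, b2.1 hβ]
      · have hα : Yp D.r (k + 1) = t := by
          rcases hor with h | h | h | h
          · exact h
          · exact absurd h hβ
          · exact b1.2 h
          · exact absurd (b2.2 h) hβ
        have hα' := b1.1 hα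
        linarith

end Pool.MP671
end

section
/-!
# MP_671ac3_gt : module CSS (case of a single horizontal edge: end)
-/
namespace Pool.MP671

namespace CSS

open Finset

theorem Yp_succ (a : ℕ → ℝ) (k : ℕ) : Yp a (k + 1) = Yp a k + a k := by
  unfold Yp; rw [Finset.sum_range_succ]

theorem Yp_mono {a : ℕ → ℝ} {m : ℕ} (ha : ∀ j, j < m → 0 ≤ a j) {i j : ℕ} (hij : i ≤ j)
    (hj : j ≤ m) : Yp a i ≤ Yp a j := by
  unfold Yp
  refine Finset.sum_le_sum_of_subset_of_nonneg (Finset.range_mono hij) fun k hk _ => ?_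
  exact ha k (lt_of_lt_of_le (Finset.mem_range.1 hk) hj)

/-- telescoping sum over the breaks at the height `T` -/
theorem tele {a x : ℕ → ℝ} {m M f : ℕ} (hMf : M < f) (hf : f < m) (ha : ∀ j, j < m → 0 ≤ a j)
    (haM : 0 < a M) (haf : 0 < a f) (hz : ∀ j, M < j → j < f → a j = 0) {T : ℝ}
    (hT : Yp a (M + 1) = T) {y : ℕ → ℝ} (hy : ∀ k, y k = x (k + 1) - x k)
    {P : ℕ → Prop} [DecidablePred P] (hP : ∀ k, P k ↔ Yp a (k + 1) = T) :
    (∑ k ∈ range (m - 1), if P k then y k else 0) = x f - x M := by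
  have key : ∀ k, k < m - 1 → (P k ↔ M ≤ k ∧ k < f) := by
    intro k hk
    rw [hP]
    constructor
    · intro h
      constructor
      · by_contra hc
        push Not at hc
        have h1 := Yp_mono ha (show k + 1 ≤ M by omega) (by omega)
        have h2 := Yp_succ a M
        linarith
      · by_contra hc
        push Not at hc
        have h1 := Yp_mono ha (show f + 1 ≤ k + 1 by omega) (by omega)
        have h2 := Yp_succ a f
        have h3 := Yp_mono ha (show M + 1 ≤ f by omega) (by omega)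
        linarith
    · rintro ⟨h1, h2⟩
      clear hk
      induction k, h1 using Nat.le_induction with
      | base => exact hT
      | succ k hk' ih =>
        rw [Yp_succ, ih (by omega), hz (k + 1) (by omega) h2, add_zero]
  have h1 : (∑ k ∈ range (m - 1), if P k then y k else 0)
      = ∑ k ∈ Ico M f, (x (k + 1) - x k) := by
    rw [← Finset.sum_filter]
    have h2 : (range (m - 1)).filter P = Ico M f := by
      ext k
      simp only [Finset.mem_filter, Finset.mem_range, Finset.mem_Ico]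
      constructor
      · rintro ⟨h3, h4⟩; exact (key k h3).1 h4
      · rintro ⟨h3, h4⟩
        have h5 : k < m - 1 := by omega
        exact ⟨h5, (key k h5).2 ⟨h3, h4⟩⟩
    rw [h2]
    exact Finset.sum_congr rfl fun k _ => hy k
  rw [h1]
  clear h1 key hP hz haf hf hT
  induction f, hMf using Nat.le_induction with
  | base => simp
  | succ k hk ih => rw [Finset.sum_Ico_succ_top (by omega), ih]; ring

/-- slope `-e` on `(-∞, c]` -/
def SM (n : ℝ → ℝ) (e c : ℝ) : Prop := ∀ x, x ≤ c → n x = n c + e * (c - x)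

/-- slope `e` on `[c, ∞)` -/
def SP (n : ℝ → ℝ) (e c : ℝ) : Prop := ∀ x, c ≤ x → n x = n c + e * (x - c)

theorem SM_of {n : ℝ → ℝ} {e a b : ℝ} (hn : ConvexOn ℝ Set.univ n)
    (hl : ∀ a b, |n a - n b| ≤ e * |a - b|) (hab : a < b) (h : n b + e * (b - a) - n a = 0) :
    SM n e b := by
  intro x hx
  have h1 := hl x b
  rw [abs_of_nonpos (show x - b ≤ 0 by linarith)] at h1
  have h1' := (abs_le.1 h1).2
  rcases le_or_gt a x with hax | hax
  · have h2 := hl a x
    rw [abs_of_nonpos (show a - x ≤ 0 by linarith)] at h2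
    have h2' := (abs_le.1 h2).2
    nlinarith
  · have h2 := hn.slope_mono_adjacent (Set.mem_univ x) (Set.mem_univ b) hax hab
    have h3 : (n b - n a) / (b - a) = -e := by
      rw [div_eq_iff (by linarith)]; linarith
    rw [h3, div_le_iff₀ (by linarith)] at h2
    nlinarith

theorem SP_of {n : ℝ → ℝ} {e a b : ℝ} (hn : ConvexOn ℝ Set.univ n)
    (hl : ∀ a b, |n a - n b| ≤ e * |a - b|) (hab : a < b) (h : n a + e * (b - a) - n b = 0) :
    SP n e a := by
  intro x hx
  have h1 := hl x a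
  rw [abs_of_nonneg (show 0 ≤ x - a by linarith)] at h1
  have h1' := (abs_le.1 h1).2
  rcases le_or_gt x b with hax | hax
  · have h2 := hl b x
    rw [abs_of_nonneg (show 0 ≤ b - x by linarith)] at h2
    have h2' := (abs_le.1 h2).2
    nlinarith
  · have h2 := hn.slope_mono_adjacent (Set.mem_univ a) (Set.mem_univ x) hab hax
    have h3 : (n b - n a) / (b - a) = e := by
      rw [div_eq_iff (by linarith)]; linarith
    rw [h3, le_div_iff₀ (by linarith)] at h2
    nlinarith

theorem SMSP {n : ℝ → ℝ} {e c d : ℝ} (he : 0 < e) (hd : d < c) (h1 : SM n e c) (h2 : SP n e d) :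
    False := by
  have h3 := h1 d hd.le
  have h4 := h2 c hd.le
  have h5 : 0 < e * (c - d) := mul_pos he (by linarith)
  linarith

theorem final_num {e e' sg s0 su sM sf nf nM ng nu nf' nu' n0' ng' : ℝ} (he : 0 < e)
    (he' : 0 < e') (h1 : sg < s0) (h2 : s0 < su) (h3 : su < sM) (h4 : sM < sf)
    (q1 : nf - nM ≤ e * (sf - sM)) (q2 : nf' = n0' + e' * (sf - s0))
    (q3 : nu' = n0' + e' * (su - s0)) (q4 : ng = nM + e * (sM - sg))
    (q5 : nu = nM + e * (sM - su)) (q6 : ng' - n0' ≤ e' * (s0 - sg))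
    (hE1 : (nf + e * sf) - (nM + e * sM) = (nf' + e' * sf) - (nu' + e' * su))
    (hE2 : (e * su - nu) - (e * sg - ng) = (e' * s0 - n0') - (e' * sg - ng')) : False := by
  have r1 : e' * (sf - su) < e * (sf - su) := by
    have : 0 < e * (sM - su) := mul_pos he (by linarith)
    linarith
  have r2 : e * (su - sg) < e' * (su - sg) := by
    have : 0 < e' * (su - s0) := mul_pos he' (by linarith)
    linarith
  have r3 : e' < e := lt_of_mul_lt_mul_right r1 (by linarith)
  have r4 : e < e' := lt_of_mul_lt_mul_right r2 (by linarith)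
  linarith

theorem exists_greatest {P : ℕ → Prop} {j M : ℕ} (hj : j ≤ M) (hP : P j) :
    ∃ i, j ≤ i ∧ i ≤ M ∧ P i ∧ ∀ k, i < k → k ≤ M → ¬ P k := by
  classical
  exact ⟨Nat.findGreatest P M, Nat.le_findGreatest hj hP, Nat.findGreatest_le M,
    Nat.findGreatest_spec hj hP, fun k h1 h2 => Nat.findGreatest_is_greatest h1 h2⟩

theorem exists_least {P : ℕ → Prop} {j M : ℕ} (hj : M ≤ j) (hP : P j) :
    ∃ i, M ≤ i ∧ i ≤ j ∧ P i ∧ ∀ k, M ≤ k → k < i → ¬ P k := by
  classical
  have hex : ∃ k, M ≤ k ∧ P k := ⟨j, hj, hP⟩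
  refine ⟨Nat.find hex, (Nat.find_spec hex).1, Nat.find_min' hex ⟨hj, hP⟩,
    (Nat.find_spec hex).2, fun k h1 h2 h3 => Nat.find_min hex h2 ⟨h1, h3⟩⟩

section

variable {D D' : Data} {n n' : ℝ → ℝ} {e e' : ℝ}

theorem SHsymm (h : SH D D' n n' e e') : SH D' D n' n e' e where
  ok := h.ok'
  ok' := h.ok
  mate :=
    { hm := h.mate.hm.symm
      hs := h.mate.hs.symm
      hw := h.mate.hw.symm
      hpq := h.mate.hpq.symm
      hrl := fun j hj => (h.mate.hrl j (h.mate.hm ▸ hj)).symm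
      hpos := fun j hj => by
        have h1 := h.mate.hrl j (h.mate.hm ▸ hj)
        have h2 := h.mate.hpos j (h.mate.hm ▸ hj)
        linarith }
  q0 := h.q0'
  q0' := h.q0
  p0 := by
    have h1 := h.mate.hpq
    have h2 := h.q0
    have h3 := h.q0'
    have h4 := h.p0
    linarith
  e0 := h.e0'
  e0' := h.e0
  cx := h.cx'
  cx' := h.cx
  lp := h.lp'
  lp' := h.lp
  pr := fun j hj => by
    rcases h.pr j (h.mate.hm ▸ hj) with ⟨h1, h2⟩ | ⟨h1, h2⟩
    · exact Or.inl ⟨h1.symm, h2.symm⟩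
    · exact Or.inr ⟨h2.symm, h1.symm⟩
  den := fun t h1 h2 a b hab => by
    obtain ⟨ξ, h3, h4⟩ := h.den t h1 (h.mate.hw ▸ h2) a b hab
    exact ⟨ξ, h3, h4.symm⟩

theorem jfact (h : SH D D' n n' e e') {j : ℕ} (hj : j < D.m) (hd : D'.r j ≠ D.r j) :
    D'.r j = D.l j ∧ D'.l j = D.r j ∧ D.r j ≠ D.l j := by
  rcases h.pr j hj with ⟨h1, _⟩ | ⟨h1, h2⟩
  · exact absurd h1 hd
  · exact ⟨h1, h2, fun h3 => hd (by rw [h1, ← h3])⟩

theorem lne (h : SH D D' n n' e e') {j : ℕ} (hj : j < D.m) : D'.l j = D.l j ↔ D'.r j = D.r j := by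
  have := h.mate.hrl j hj
  constructor
  · intro h1; linarith
  · intro h1; linarith

theorem sum0 (h : SH D D' n n' e e') : ∑ j ∈ range D.m, (D'.r j - D.r j) = 0 := by
  have h1 := h.ok.hrw
  have h2 := h.ok'.hrw
  rw [h.mate.hm, h.mate.hw] at h2
  unfold Yp at h1 h2
  rw [Finset.sum_sub_distrib, h1, h2, sub_self]

theorem Xeq (h : SH D D' n n' e e') : Xp D.s D'.r D.m = Xp D.s D.r D.m := by
  have h1 := h.ok.hcl
  have h2 := h.ok'.hcl
  rw [h.mate.hm, h.mate.hs] at h2
  have h3 := h.mate.hpq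
  have h4 : Xp D.s D'.r D.m + Xp D.s D'.l D.m = Xp D.s D.r D.m + Xp D.s D.l D.m := by
    unfold Xp
    rw [← Finset.sum_add_distrib, ← Finset.sum_add_distrib]
    apply Finset.sum_congr rfl
    intro j hj
    have := h.mate.hrl j (Finset.mem_range.1 hj)
    linear_combination D.s j * this
  have h5 := h.q0
  have h6 := h.q0'
  linarith

theorem sum1 (h : SH D D' n n' e e') (c : ℝ) :
    ∑ j ∈ range D.m, (D'.r j - D.r j) * (D.s j - c) = 0 := by
  have h1 := sum0 h
  have h2 := Xeq h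
  unfold Xp at h2
  have h3 : ∑ j ∈ range D.m, (D'.r j - D.r j) * (D.s j - c)
      = (∑ j ∈ range D.m, D'.r j * D.s j) - (∑ j ∈ range D.m, D.r j * D.s j)
        - (∑ j ∈ range D.m, (D'.r j - D.r j)) * c := by
    rw [Finset.sum_mul, ← Finset.sum_sub_distrib, ← Finset.sum_sub_distrib]
    apply Finset.sum_congr rfl
    intro j _
    ring
  rw [h3, h1, h2]; ring

theorem getR (hCSE : SpecCSE) (h : SH D D' n n' e e') {M : ℕ} (hM : M < D.m)
    (hMt : ∀ j, M < j → j < D.m → D'.r j = D.r j) (hMd : D'.r M ≠ D.r M) {a b : ℕ} (hab : a < b)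
    (hb : b ≤ M) (ha0 : 0 < D.r a) (hb0 : 0 < D.r b) :
    ∃ i, b ≤ i ∧ i ≤ M ∧ (∀ j, i < j → j ≤ M → D.r j = 0) ∧ SM n e (D.s i) := by
  obtain ⟨i, h1, h2, h3, h4⟩ := exists_greatest (P := fun j => 0 < D.r j) hb hb0
  have h5 : ∀ j, i < j → j ≤ M → D.r j = 0 := fun j h6 h7 =>
    le_antisymm (not_lt.1 (h4 j h6 h7)) (h.ok.hr j (by omega))
  have h6 := (hCSE D D' n n' e e' h).1 M i a hM hMt hMd h2 h3 h5 (by omega) ha0
  refine ⟨i, h1, h2, h5, ?_⟩
  unfold tp at h6
  have h7 : i - 1 + 1 = i := by omega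
  rw [h7] at h6
  exact SM_of h.cx h.lp (h.ok.hs (i - 1) i (by omega) (by omega)) h6

theorem getL (hCSE : SpecCSE) (h : SH D D' n n' e e') {M : ℕ} (hM : M < D.m)
    (hMt : ∀ j, j < M → D'.r j = D.r j) (hMd : D'.r M ≠ D.r M) {a b : ℕ} (hab : a < b)
    (ha : M ≤ a) (hb : b < D.m) (ha0 : 0 < D.l a) (hb0 : 0 < D.l b) :
    ∃ i, M ≤ i ∧ i ≤ a ∧ (∀ j, M ≤ j → j < i → D.l j = 0) ∧ SP n e (D.s i) := by
  obtain ⟨i, h1, h2, h3, h4⟩ := exists_least (P := fun j => 0 < D.l j) ha ha0
  have h5 : ∀ j, M ≤ j → j < i → D.l j = 0 := fun j h6 h7 =>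
    le_antisymm (not_lt.1 (h4 j h6 h7)) (h.ok.hl j (by omega))
  have h6 := (hCSE D D' n n' e e' h).2 M i b hM (fun j hj => (lne h (by omega)).2 (hMt j hj))
    (fun h7 => hMd ((lne h hM).1 h7)) h1 (by omega) h3 h5 (by omega) hb hb0
  refine ⟨i, h1, h2, h5, ?_⟩
  unfold tm at h6
  exact SP_of h.cx h.lp (h.ok.hs i (i + 1) (by omega) (by omega)) h6

theorem case1 (hCSE : SpecCSE) (h : SH D D' n n' e e') {M M₀ : ℕ} (hM : M < D.m)
    (hMt : ∀ j, M < j → j < D.m → D'.r j = D.r j) (hMd : D'.r M ≠ D.r M) (hM₀ : M₀ < D.m)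
    (hM₀t : ∀ j, j < M₀ → D'.r j = D.r j) (hM₀d : D'.r M₀ ≠ D.r M₀)
    {a b c d : ℕ} (hab : a < b) (hb : b < D.m) (had : D'.r a ≠ D.r a) (hbd : D'.r b ≠ D.r b)
    (hra : 0 < D.r a) (hrb : 0 < D.r b) (hcd : c < d) (hd : d < D.m) (hcd' : D'.r c ≠ D.r c)
    (hlc : 0 < D.l c) (hld : 0 < D.l d) : False := by
  have hbM : b ≤ M := by
    by_contra hc
    exact hbd (hMt b (by omega) hb)
  have hcM : M₀ ≤ c := by
    by_contra hc
    exact hcd' (hM₀t c (by omega))
  obtain ⟨i, h1, h2, h3, h4⟩ := getR hCSE h hM hMt hMd hab hbM hra hrb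
  obtain ⟨k, g1, g2, g3, g4⟩ := getL hCSE h hM₀ hM₀t hM₀d hcd hcM hd hlc hld
  have hik : i ≤ k := by
    by_contra hc
    exact SMSP h.e0 (h.ok.hs k i (by omega) (by omega)) h4 g4
  have hs := sum1 h (D.s i)
  have hterm : ∀ j, j < D.m → D'.r j ≠ D.r j → j < i → D'.r j = 0 := by
    intro j hj hd hji
    have h5 : M₀ ≤ j := by
      by_contra hc
      exact hd (hM₀t j (by omega))
    rw [(jfact h hj hd).1]
    exact g3 j h5 (by omega)
  have hpos : 0 < ∑ j ∈ range D.m, (D'.r j - D.r j) * (D.s j - D.s i) := by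
    apply Finset.sum_pos'
    · intro j hj
      have hj := Finset.mem_range.1 hj
      by_cases hd : D'.r j = D.r j
      · rw [hd]; simp
      · rcases lt_trichotomy j i with hji | hji | hji
        · have h5 := hterm j hj hd hji
          have h6 := h.ok.hs j i hji (by omega)
          have h7 := h.ok.hr j hj
          rw [h5]
          nlinarith
        · rw [hji]; simp
        · have h5 : j ≤ M := by
            by_contra hc
            exact hd (hMt j (by omega) hj)
          have h6 := h.ok.hs i j hji hj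
          have h7 := h.ok'.hr j (by rw [h.mate.hm]; exact hj)
          rw [h3 j hji h5]
          nlinarith
    · refine ⟨a, Finset.mem_range.2 (by omega), ?_⟩
      have h5 := hterm a (by omega) had (by omega)
      have h6 := h.ok.hs a i (by omega) (by omega)
      rw [h5]
      nlinarith
  linarith

theorem case2 (hCSV : SpecCSV) (hCSE : SpecCSE) (hMIR : SpecMIR) (h : SH D D' n n' e e')
    {M M₀ : ℕ} (hM : M < D.m)
    (hMt : ∀ j, M < j → j < D.m → D'.r j = D.r j) (hMd : D'.r M ≠ D.r M) (hM₀ : M₀ < D.m)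
    (hM₀t : ∀ j, j < M₀ → D'.r j = D.r j) (hM₀d : D'.r M₀ ≠ D.r M₀)
    (huniq : ∀ j k, j < k → k < D.m → D'.r j ≠ D.r j → D'.r k ≠ D.r k → 0 < D.l j → 0 < D.l k →
      False) : False := by
  have hm' := h.mate.hm
  have hs' := h.mate.hs
  have hw' := h.mate.hw
  have hrn := h.ok.hr
  have hln := h.ok.hl
  have hrn' : ∀ j, j < D.m → 0 ≤ D'.r j := fun j hj => h.ok'.hr j (by rw [hm']; exact hj)
  have hln' : ∀ j, j < D.m → 0 ≤ D'.l j := fun j hj => h.ok'.hl j (by rw [hm']; exact hj)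
  have hS0 := sum0 h
  -- the element `u`
  have hu : ∃ u, u < D.m ∧ D'.r u ≠ D.r u ∧ 0 < D.l u := by
    by_contra hc
    push Not at hc
    have hneg : ∑ j ∈ range D.m, (D'.r j - D.r j) < 0 := by
      have hle : ∀ j, j < D.m → D'.r j ≠ D.r j → D'.r j - D.r j < 0 := by
        intro j hj hd
        obtain ⟨h1, h2, h3⟩ := jfact h hj hd
        have h4 := hc j hj hd
        have h5 := hln j hj
        have h6 := hrn j hj
        have h7 : D.l j = 0 := le_antisymm h4 h5
        rw [h7] at h3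
        have h8 : 0 < D.r j := lt_of_le_of_ne h6 (Ne.symm h3)
        rw [h1, h7]; linarith
      apply Finset.sum_neg'
      · intro j hj
        by_cases hd : D'.r j = D.r j
        · rw [hd]; simp
        · exact (hle j (Finset.mem_range.1 hj) hd).le
      · exact ⟨M, Finset.mem_range.2 hM, hle M hM hMd⟩
    linarith
  obtain ⟨u, hum, hud, hul⟩ := hu
  have hother : ∀ j, j < D.m → D'.r j ≠ D.r j → j ≠ u → D.l j = 0 ∧ 0 < D.r j ∧ D'.r j = 0 ∧
      D'.l j = D.r j := by
    intro j hj hd hju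
    obtain ⟨h1, h2, h3⟩ := jfact h hj hd
    have h7 : D.l j = 0 := by
      by_contra h8
      have h9 : 0 < D.l j := lt_of_le_of_ne (hln j hj) (Ne.symm h8)
      rcases lt_or_gt_of_ne hju with h10 | h10
      · exact huniq j u h10 hum hd hud h9 hul
      · exact huniq u j h10 hj hud hd hul h9
    rw [h7] at h3 h1
    exact ⟨h7, lt_of_le_of_ne (hrn j hj) (Ne.symm h3), h1, h2⟩
  have hv : ∃ v, v < D.m ∧ D'.r v ≠ D.r v ∧ v ≠ u := by
    by_contra hc
    push Not at hc
    have h1 : ∑ j ∈ range D.m, (D'.r j - D.r j) = D'.r u - D.r u := by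
      apply Finset.sum_eq_single u
      · intro j hj hju
        have : D'.r j = D.r j := by
          by_contra hd
          exact hju (hc j (Finset.mem_range.1 hj) hd)
        rw [this, sub_self]
      · intro h2
        exact absurd (Finset.mem_range.2 hum) h2
    rw [hS0] at h1
    exact hud (by linarith)
  obtain ⟨v, hvm, hvd, hvu⟩ := hv
  have hS1 := sum1 h (D.s u)
  have hj1 : ∃ j, j < u ∧ D'.r j ≠ D.r j := by
    by_contra hc
    push Not at hc
    have hneg : ∑ j ∈ range D.m, (D'.r j - D.r j) * (D.s j - D.s u) < 0 := by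
      have hle : ∀ j, j < D.m → D'.r j ≠ D.r j → j ≠ u →
          (D'.r j - D.r j) * (D.s j - D.s u) < 0 := by
        intro j hj hd hju
        have h1 : u < j := by
          rcases lt_or_gt_of_ne hju with h1 | h1
          · exact absurd (hc j h1) hd
          · exact h1
        obtain ⟨_, h3, h4, _⟩ := hother j hj hd hju
        have h5 := h.ok.hs u j h1 hj
        rw [h4]
        nlinarith
      apply Finset.sum_neg'
      · intro j hj
        by_cases hd : D'.r j = D.r j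
        · rw [hd]; simp
        · by_cases hju : j = u
          · rw [hju]; simp
          · exact (hle j (Finset.mem_range.1 hj) hd hju).le
      · exact ⟨v, Finset.mem_range.2 hvm, hle v hvm hvd hvu⟩
    linarith
  have hj2 : ∃ j, u < j ∧ j < D.m ∧ D'.r j ≠ D.r j := by
    by_contra hc
    push Not at hc
    have hneg : 0 < ∑ j ∈ range D.m, (D'.r j - D.r j) * (D.s j - D.s u) := by
      have hle : ∀ j, j < D.m → D'.r j ≠ D.r j → j ≠ u →
          0 < (D'.r j - D.r j) * (D.s j - D.s u) := by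
        intro j hj hd hju
        have h1 : j < u := by
          rcases lt_or_gt_of_ne hju with h1 | h1
          · exact h1
          · exact absurd (hc j h1 hj) hd
        obtain ⟨_, h3, h4, _⟩ := hother j hj hd hju
        have h5 := h.ok.hs j u h1 hum
        rw [h4]
        nlinarith
      apply Finset.sum_pos'
      · intro j hj
        by_cases hd : D'.r j = D.r j
        · rw [hd]; simp
        · by_cases hju : j = u
          · rw [hju]; simp
          · exact (hle j (Finset.mem_range.1 hj) hd hju).le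
      · exact ⟨v, Finset.mem_range.2 hvm, hle v hvm hvd hvu⟩
    linarith
  obtain ⟨j₁, hj₁u, hj₁d⟩ := hj1
  obtain ⟨j₂, hj₂u, hj₂m, hj₂d⟩ := hj2
  have hMu : u < M := by
    have : j₂ ≤ M := by
      by_contra hc
      exact hj₂d (hMt j₂ (by omega) hj₂m)
    omega
  have hM₀u : M₀ < u := by
    have : M₀ ≤ j₁ := by
      by_contra hc
      exact hj₁d (hM₀t j₁ (by omega))
    omega
  obtain ⟨hlM, hrM, hrM', hlM'⟩ := hother M hM hMd (by omega)
  obtain ⟨hlM₀, hrM₀, hrM₀', hlM₀'⟩ := hother M₀ hM₀ hM₀d (by omega)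
  have hru' : D'.r u = D.l u := (jfact h hum hud).1
  -- slopes
  have hsm : SM n e (D.s M) := by
    obtain ⟨i, h1, h2, h3, h4⟩ := getR hCSE h hM hMt hMd (show M₀ < M by omega) le_rfl hrM₀ hrM
    have : i = M := by omega
    rw [this] at h4
    exact h4
  have hy := SHsymm h
  have hsp : SP n' e' (D.s M₀) := by
    obtain ⟨i, h1, h2, h3, h4⟩ := getL hCSE hy (M := M₀) (by rw [hm']; exact hM₀)
      (fun j hj => (hM₀t j hj).symm) (Ne.symm hM₀d) (show M₀ < M by omega) le_rfl
      (by rw [hm']; exact hM) (by rw [hlM₀']; exact hrM₀) (by rw [hlM']; exact hrM)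
    have : i = M₀ := by omega
    rw [this, hs'] at h4
    exact h4
  have hl0 : ∀ j, M₀ ≤ j → j < D.m → j ≠ u → D.l j = 0 := by
    intro j hj hjm hju
    by_contra h8
    have h9 : 0 < D.l j := lt_of_le_of_ne (hln j hjm) (Ne.symm h8)
    rcases lt_or_gt_of_ne hju with h10 | h10
    · obtain ⟨i, h1, h2, h3, h4⟩ := getL hCSE h hM₀ hM₀t hM₀d h10 hj hum h9 hul
      exact SMSP h.e0 (h.ok.hs i M (by omega) hM) hsm h4
    · obtain ⟨i, h1, h2, h3, h4⟩ := getL hCSE h hM₀ hM₀t hM₀d h10 hM₀u.le hjm hul h9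
      exact SMSP h.e0 (h.ok.hs i M (by omega) hM) hsm h4
  have hr0 : ∀ j, j ≤ M → j ≠ u → D'.r j = 0 := by
    intro j hj hju
    by_contra h8
    have h9 : 0 < D'.r j := lt_of_le_of_ne (hrn' j (by omega)) (Ne.symm h8)
    have hul' : 0 < D'.r u := by rw [hru']; exact hul
    have hMy : M < D'.m := by rw [hm']; exact hM
    have hMty : ∀ j, M < j → j < D'.m → D.r j = D'.r j := fun j h1 h2 =>
      (hMt j h1 (by rw [← hm']; exact h2)).symm
    rcases lt_or_gt_of_ne hju with h10 | h10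
    · obtain ⟨i, h1, h2, h3, h4⟩ := getR hCSE hy hMy hMty (Ne.symm hMd) h10 hMu.le h9 hul'
      rw [hs'] at h4
      exact SMSP h.e0' (h.ok.hs M₀ i (by omega) (by omega)) h4 hsp
    · obtain ⟨i, h1, h2, h3, h4⟩ := getR hCSE hy hMy hMty (Ne.symm hMd) h10 hj hul' h9
      rw [hs'] at h4
      exact SMSP h.e0' (h.ok.hs M₀ i (by omega) (by omega)) h4 hsp
  -- the height `T`
  have hYr' : Yp D'.r (M + 1) = D.l u := by
    unfold Yp
    rw [Finset.sum_eq_single u, hru']
    · intro j hj hju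
      exact hr0 j (by have := Finset.mem_range.1 hj; omega) hju
    · intro h2
      exact absurd (Finset.mem_range.2 (by omega)) h2
  have hrw := h.ok.hrw
  have hlw := h.ok.hlw
  have hrw' : Yp D'.r D.m = D.w := by
    have := h.ok'.hrw
    rw [hm', hw'] at this
    exact this
  have hlw' : Yp D'.l D.m = D.w := by
    have := h.ok'.hlw
    rw [hm', hw'] at this
    exact this
  have split : ∀ (a : ℕ → ℝ) (k : ℕ), k ≤ D.m → Yp a D.m = Yp a k + ∑ j ∈ Ico k D.m, a j := by
    intro a k hk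
    unfold Yp
    rw [Finset.sum_range_add_sum_Ico _ hk]
  have hYr : Yp D.r (M + 1) = D.l u := by
    have h1 := split D.r (M + 1) (by omega)
    have h2 := split D'.r (M + 1) (by omega)
    have h3 : ∑ j ∈ Ico (M + 1) D.m, D.r j = ∑ j ∈ Ico (M + 1) D.m, D'.r j := by
      apply Finset.sum_congr rfl
      intro j hj
      have := Finset.mem_Ico.1 hj
      exact (hMt j (by omega) this.2).symm
    linarith
  have hYl : Yp D.l M₀ = D.w - D.l u := by
    have h1 := split D.l M₀ hM₀.le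
    have h2 : ∑ j ∈ Ico M₀ D.m, D.l j = D.l u := by
      apply Finset.sum_eq_single u
      · intro j hj hju
        have := Finset.mem_Ico.1 hj
        exact hl0 j this.1 this.2 hju
      · intro h2
        exact absurd (Finset.mem_Ico.2 ⟨hM₀u.le, hum⟩) h2
    linarith
  have hTw : D.l u < D.w := by
    have h1 : D.l u ≤ D.w := by
      have := Yp_mono hln (Nat.zero_le M₀) hM₀.le
      rw [hYl] at this
      have h0 : Yp D.l 0 = 0 := by simp [Yp]
      linarith
    rcases lt_or_eq_of_le h1 with h2 | h2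
    · exact h2
    · exfalso
      have h3 : ∀ j, j < D.m → j ≠ u → D.l j = 0 := by
        intro j hj hju
        rcases le_or_gt M₀ j with h4 | h4
        · exact hl0 j h4 hj hju
        · have h5 : Yp D.l (j + 1) ≤ Yp D.l M₀ := Yp_mono hln (by omega) (by omega)
          have h6 : Yp D.l 0 ≤ Yp D.l j := Yp_mono hln (by omega) (by omega)
          have h0 : Yp D.l 0 = 0 := by simp [Yp]
          have h7 := Yp_succ D.l j
          have h8 := hln j hj
          linarith
      have h4 : ∀ j, j < D.m → j ≠ u → D'.r j = 0 := by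
        intro j hj hju
        rcases le_or_gt j M with h4 | h4
        · exact hr0 j h4 hju
        · have h5 : Yp D'.r (j + 1) ≤ Yp D'.r D.m := Yp_mono hrn' (by omega) (by omega)
          have h6 : Yp D'.r (M + 1) ≤ Yp D'.r j := Yp_mono hrn' (by omega) (by omega)
          have h7 := Yp_succ D'.r j
          have h8 := hrn' j hj
          linarith
      have h5 : Xp D.s D.l D.m = D.l u * D.s u := by
        unfold Xp
        apply Finset.sum_eq_single u
        · intro j hj hju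
          rw [h3 j (Finset.mem_range.1 hj) hju, zero_mul]
        · intro h2
          exact absurd (Finset.mem_range.2 hum) h2
      have h6 : Xp D.s D'.r D.m = D.l u * D.s u := by
        unfold Xp
        rw [Finset.sum_eq_single u, hru']
        · intro j hj hju
          rw [h4 j (Finset.mem_range.1 hj) hju, zero_mul]
        · intro h2
          exact absurd (Finset.mem_range.2 hum) h2
      have h7 := Xeq h
      have h8 := h.ok.hcl
      have h9 := h.q0
      have h10 := h.p0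
      linarith
  -- the index `f`
  have hf : ∃ f, M < f ∧ f < D.m ∧ 0 < D.r f ∧ ∀ j, M < j → j < f → D.r j = 0 := by
    have h1 : ∃ k, M + 1 ≤ k ∧ k < D.m ∧ 0 < D.r k := by
      by_contra hc
      push Not at hc
      have h2 := split D.r (M + 1) (by omega)
      have h3 : ∑ j ∈ Ico (M + 1) D.m, D.r j = 0 := by
        apply Finset.sum_eq_zero
        intro j hj
        have := Finset.mem_Ico.1 hj
        exact le_antisymm (hc j this.1 this.2) (hrn j this.2)
      linarith
    obtain ⟨k, h2, h3, h4⟩ := h1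
    obtain ⟨f, g1, g2, g3, g4⟩ := exists_least (P := fun j => 0 < D.r j) h2 h4
    exact ⟨f, by omega, by omega, g3, fun j h5 h6 =>
      le_antisymm (not_lt.1 (g4 j (by omega) h6)) (hrn j (by omega))⟩
  obtain ⟨f, hfM, hfm, hrf, hfz⟩ := hf
  -- the index `g`
  have hg : ∃ g, g < M₀ ∧ 0 < D.l g ∧ ∀ j, g < j → j < M₀ → D.l j = 0 := by
    have h1 : ∃ k, k < M₀ ∧ 0 < D.l k := by
      by_contra hc
      push Not at hc
      have h3 : Yp D.l M₀ = 0 := by
        unfold Yp
        apply Finset.sum_eq_zero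
        intro j hj
        have := Finset.mem_range.1 hj
        exact le_antisymm (hc j this) (hln j (by omega))
      linarith
    obtain ⟨k, h2, h4⟩ := h1
    obtain ⟨g, g1, g2, g3, g4⟩ := exists_greatest (P := fun j => 0 < D.l j)
      (show k ≤ M₀ - 1 by omega) h4
    exact ⟨g, by omega, g3, fun j h5 h6 =>
      le_antisymm (not_lt.1 (g4 j (by omega) (by omega))) (hln j (by omega))⟩
  obtain ⟨g, hgM, hlg, hgz⟩ := hg
  -- the values
  have hV1 : VR D n e (D.l u) = (n (D.s f) + e * D.s f) - (n (D.s M) + e * D.s M) := by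
    unfold VR
    exact tele (x := fun k => n (D.s k) + e * D.s k) hfM hfm hrn hrM hrf hfz hYr
      (fun k => by unfold tp; ring) (fun k => Iff.rfl)
  have hV2 : VR D' n' e' (D.l u) = (n' (D.s f) + e' * D.s f) - (n' (D.s u) + e' * D.s u) := by
    unfold VR
    rw [hm', hs']
    have h1 : Yp D'.r (u + 1) = D.l u := by
      have h2 := Yp_mono hrn' (show u + 1 ≤ M + 1 by omega) (by omega)
      have h3 := Yp_mono hrn' (show 0 ≤ u by omega) (by omega)
      have h4 := Yp_succ D'.r u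
      have h0 : Yp D'.r 0 = 0 := by simp [Yp]
      linarith
    exact tele (x := fun k => n' (D.s k) + e' * D.s k) (show u < f by omega) hfm hrn'
      (by rw [hru']; exact hul) (by rw [hMt f hfM hfm]; exact hrf)
      (fun j h2 h3 => by
        rcases le_or_gt j M with h4 | h4
        · exact hr0 j h4 (by omega)
        · rw [hMt j h4 (by omega)]; exact hfz j h4 h3)
      h1 (fun k => by unfold tp; ring) (fun k => Iff.rfl)
  have hYlg : Yp D.l (g + 1) = D.w - D.l u := by
    rw [← hYl]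
    unfold Yp
    have h1 : ∀ k, g + 1 ≤ k → k ≤ M₀ →
        ∑ j ∈ range (g + 1), D.l j = ∑ j ∈ range k, D.l j := by
      intro k hk
      induction k, hk using Nat.le_induction with
      | base => intro _; rfl
      | succ k hk ih =>
        intro h2
        have h3 := Finset.sum_range_succ D.l k
        rw [h3, hgz k (by omega) (by omega), add_zero]
        exact ih (by omega)
    exact h1 M₀ (by omega) le_rfl
  have hV3 : VL D n e (D.l u) = (e * D.s u - n (D.s u)) - (e * D.s g - n (D.s g)) := by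
    unfold VL
    exact tele (x := fun k => e * D.s k - n (D.s k)) (show g < u by omega) hum hln hlg hul
      (fun j h2 h3 => by
        rcases le_or_gt M₀ j with h4 | h4
        · exact hl0 j h4 (by omega) (by omega)
        · exact hgz j h2 h4)
      hYlg (fun k => by unfold tm; ring)
      (fun k => ⟨fun h5 => by linarith, fun h5 => by linarith⟩)
  have hV4 : VL D' n' e' (D.l u) = (e' * D.s M₀ - n' (D.s M₀)) - (e' * D.s g - n' (D.s g)) := by
    unfold VL
    rw [hm', hs', hw']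
    have hll : ∀ j, j < M₀ → D'.l j = D.l j := fun j hj => (lne h (by omega)).2 (hM₀t j hj)
    have h1 : Yp D'.l (g + 1) = D.w - D.l u := by
      rw [← hYlg]
      unfold Yp
      apply Finset.sum_congr rfl
      intro j hj
      have := Finset.mem_range.1 hj
      exact hll j (by omega)
    exact tele (x := fun k => e' * D.s k - n' (D.s k)) (show g < M₀ by omega) hM₀ hln'
      (by rw [hll g hgM]; exact hlg) (by rw [hlM₀']; exact hrM₀)
      (fun j h2 h3 => by rw [hll j h3]; exact hgz j h2 h3)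
      h1 (fun k => by unfold tm; ring)
      (fun k => ⟨fun h5 => by linarith, fun h5 => by linarith⟩)
  have hE1 : VR D n e (D.l u) = VR D' n' e' (D.l u) :=
    (hCSV D D' n n' e e' h (D.l u) hul hTw).1
  have hE2 : VL D n e (D.l u) = VL D' n' e' (D.l u) := by
    have h1 := (hMIR.1 D h.ok).2.2.1 n e (D.l u)
    have h2 := (hMIR.1 D' h.ok').2.2.1 n' e' (D.l u)
    rw [← h1, ← h2]
    exact (hCSV _ _ _ _ _ _ (hMIR.2.1 D D' n n' e e' h) (D.l u) hul hTw).1
  -- conclusion
  have hsuM := h.ok.hs u M hMu hM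
  have hsMf := h.ok.hs M f hfM hfm
  have hsMu := h.ok.hs M₀ u hM₀u hum
  have hsgM := h.ok.hs g M₀ hgM hM₀
  have q1 : n (D.s f) - n (D.s M) ≤ e * (D.s f - D.s M) := by
    have := h.lp (D.s f) (D.s M)
    rw [abs_of_nonneg (show 0 ≤ D.s f - D.s M by linarith)] at this
    exact (abs_le.1 this).2
  have q2 := hsp (D.s f) (by linarith)
  have q3 := hsp (D.s u) (by linarith)
  have q4 := hsm (D.s g) (by linarith)
  have q5 := hsm (D.s u) (by linarith)
  have q6 : n' (D.s g) - n' (D.s M₀) ≤ e' * (D.s M₀ - D.s g) := by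
    have := h.lp' (D.s g) (D.s M₀)
    rw [abs_of_nonpos (show D.s g - D.s M₀ ≤ 0 by linarith)] at this
    have := (abs_le.1 this).2
    linarith
  rw [hV1, hV2] at hE1
  rw [hV3, hV4] at hE2
  exact final_num h.e0 h.e0' hsgM hsMu hsuM hsMf q1 q2 q3 q4 q5 q6 hE1 hE2

end

end CSS

/-- Module CSS. -/
theorem specCSS (hCSV : SpecCSV) (hCSE : SpecCSE) (hMIR : SpecMIR) : SpecCSS := by
  intro D D' n n' e e' h
  suffices hr : ∀ j, j < D.m → D'.r j = D.r j by
    intro j hj
    exact ⟨hr j hj, (CSS.lne h hj).2 (hr j hj)⟩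
  by_contra hc
  push Not at hc
  obtain ⟨j, hj, hd⟩ := hc
  obtain ⟨M, hM1, hM2, ⟨hM, hMd⟩, hM4⟩ :=
    CSS.exists_greatest (P := fun j => j < D.m ∧ D'.r j ≠ D.r j) (show j ≤ D.m by omega) ⟨hj, hd⟩
  obtain ⟨M₀, _, _, ⟨hM₀, hM₀d⟩, hM₀4⟩ :=
    CSS.exists_least (P := fun j => j < D.m ∧ D'.r j ≠ D.r j) (Nat.zero_le j) ⟨hj, hd⟩
  have hMt : ∀ j, M < j → j < D.m → D'.r j = D.r j := by
    intro j h1 h2
    by_contra h3
    exact hM4 j h1 h2.le ⟨h2, h3⟩
  have hM₀t : ∀ j, j < M₀ → D'.r j = D.r j := by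
    intro j h1
    by_contra h3
    exact hM₀4 j (Nat.zero_le j) h1 ⟨by omega, h3⟩
  by_cases hL : ∀ j k, j < k → k < D.m → D'.r j ≠ D.r j → D'.r k ≠ D.r k → 0 < D.l j →
      0 < D.l k → False
  · exact CSS.case2 hCSV hCSE hMIR h hM hMt hMd hM₀ hM₀t hM₀d hL
  by_cases hR : ∀ j k, j < k → k < D.m → D'.r j ≠ D.r j → D'.r k ≠ D.r k → 0 < D.r j →
      0 < D.r k → False
  · have hm' := h.mate.hm
    refine CSS.case2 hCSV hCSE hMIR (CSS.SHsymm h) (M := M) (M₀ := M₀) (by rw [hm']; exact hM)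
      (fun j h1 h2 => (hMt j h1 (by rw [← hm']; exact h2)).symm) (Ne.symm hMd)
      (by rw [hm']; exact hM₀) (fun j h1 => (hM₀t j h1).symm) (Ne.symm hM₀d) ?_
    intro j k hjk hk h1 h2 h3 h4
    rw [hm'] at hk
    rw [(CSS.jfact h (by omega) (Ne.symm h1)).2.1] at h3
    rw [(CSS.jfact h (by omega) (Ne.symm h2)).2.1] at h4
    exact hR j k hjk hk (Ne.symm h1) (Ne.symm h2) h3 h4
  push Not at hL hR
  obtain ⟨c, d, hcd, hdm, hcd', hdd', hlc, hld, _⟩ := hL
  obtain ⟨a, b, hab, hbm, had, hbd, hra, hrb, _⟩ := hR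
  exact CSS.case1 hCSE h hM hMt hMd hM₀ hM₀t hM₀d hab hbm had hbd hra hrb hcd hdm hcd' hlc hld

end Pool.MP671
end

section
/-!
# MP_671ac3_gt : module CSV, case S: visible vertices
-/
namespace Pool.MP671

namespace CSV

open Finset

theorem Yp_le {a : ℕ → ℝ} {m i j : ℕ} (ha : ∀ k, k < m → 0 ≤ a k) (hij : i ≤ j) (hj : j ≤ m) :
    Yp a i ≤ Yp a j := by
  unfold Yp
  refine Finset.sum_le_sum_of_subset_of_nonneg (Finset.range_mono hij) fun k hk _ => ?_
  exact ha k (lt_of_lt_of_le (Finset.mem_range.1 hk) hj)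

theorem Yp_nonneg {a : ℕ → ℝ} {m j : ℕ} (ha : ∀ k, k < m → 0 ≤ a k) (hj : j ≤ m) :
    0 ≤ Yp a j := by
  unfold Yp
  exact Finset.sum_nonneg fun k hk => ha k (lt_of_lt_of_le (Finset.mem_range.1 hk) hj)

/-- equal heights give equal positions -/
theorem Xp_eq {a s : ℕ → ℝ} {m i j : ℕ} (ha : ∀ k, k < m → 0 ≤ a k) (hij : i ≤ j) (hj : j ≤ m)
    (h : Yp a i = Yp a j) : Xp s a i = Xp s a j := by
  have h1 : ∑ k ∈ Finset.Ico i j, a k = 0 := by
    have := Finset.sum_range_add_sum_Ico a hij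
    unfold Yp at h
    linarith
  have h2 : ∀ k ∈ Finset.Ico i j, a k = 0 := by
    rw [Finset.sum_eq_zero_iff_of_nonneg] at h1
    · exact h1
    · intro k hk
      exact ha k (lt_of_lt_of_le (Finset.mem_Ico.1 hk).2 hj)
  have h3 : ∑ k ∈ Finset.Ico i j, a k * s k = 0 :=
    Finset.sum_eq_zero fun k hk => by rw [h2 k hk, zero_mul]
  have h4 := Finset.sum_range_add_sum_Ico (fun k => a k * s k) hij
  unfold Xp
  linarith

/-- the mean slope of an initial part is at most the mean slope -/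
theorem slope {a s : ℕ → ℝ} {m k : ℕ} (ha : ∀ k, k < m → 0 ≤ a k)
    (hs : ∀ i j, i < j → j < m → s i < s j) (hk : k < m) :
    Xp s a k * Yp a m ≤ Xp s a m * Yp a k := by
  have h1 : Xp s a k ≤ s k * Yp a k := by
    unfold Xp Yp
    rw [Finset.mul_sum]
    refine Finset.sum_le_sum fun j hj => ?_
    have hj' := Finset.mem_range.1 hj
    have := hs j k hj' hk
    have := ha j (hj'.trans hk)
    nlinarith
  have h2 : Xp s a k + s k * (Yp a m - Yp a k) ≤ Xp s a m := by
    have e1 := Finset.sum_range_add_sum_Ico (fun j => a j * s j) hk.le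
    have e2 := Finset.sum_range_add_sum_Ico a hk.le
    have h3 : s k * ∑ j ∈ Finset.Ico k m, a j ≤ ∑ j ∈ Finset.Ico k m, a j * s j := by
      rw [Finset.mul_sum]
      refine Finset.sum_le_sum fun j hj => ?_
      obtain ⟨hj1, hj2⟩ := Finset.mem_Ico.1 hj
      have h4 := ha j hj2
      rcases hj1.eq_or_lt with h | h
      · subst h
        rw [mul_comm]
      · have := hs k j h hj2
        nlinarith
    unfold Xp Yp
    have e3 : ∑ j ∈ Finset.range m, a j - ∑ j ∈ Finset.range k, a j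
        = ∑ j ∈ Finset.Ico k m, a j := by linarith
    rw [e3]
    linarith
  have h5 : 0 ≤ Yp a k := Yp_nonneg ha hk.le
  have h6 : Yp a k ≤ Yp a m := Yp_le ha hk.le le_rfl
  nlinarith [mul_nonneg h5 (sub_nonneg.2 h6), mul_nonneg (sub_nonneg.2 h6) (sub_nonneg.2 h1),
    mul_nonneg h5 (sub_nonneg.2 h2)]

theorem tp_nonneg {n : ℝ → ℝ} {e : ℝ} {s : ℕ → ℝ} {m : ℕ} (lp : ∀ a b, |n a - n b| ≤ e * |a - b|)
    (hs : ∀ i j, i < j → j < m → s i < s j) {k : ℕ} (hk : k + 1 < m) : 0 ≤ tp n e s k := by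
  have h1 := hs k (k + 1) (Nat.lt_succ_self k) hk
  have h2 := lp (s k) (s (k + 1))
  have h3 : |s k - s (k + 1)| = s (k + 1) - s k := by
    rw [abs_sub_comm, abs_of_pos (sub_pos.2 h1)]
  rw [h3] at h2
  have h4 := le_abs_self (n (s k) - n (s (k + 1)))
  unfold tp
  linarith

theorem VR_nonneg {n : ℝ → ℝ} {e : ℝ} (D : Data) (ok : D.Ok)
    (lp : ∀ a b, |n a - n b| ≤ e * |a - b|) (t : ℝ) : 0 ≤ VR D n e t := by
  unfold VR
  refine Finset.sum_nonneg fun k hk => ?_
  split_ifs
  · exact tp_nonneg lp ok.hs (by have := Finset.mem_range.1 hk; omega)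
  · exact le_rfl

/-- The function `F` to the left of `λ t`. -/
theorem key (D : Data) (n : ℝ → ℝ) (e : ℝ) (ok : D.Ok) (q0 : D.q = 0) (p0 : 0 < D.p) (t : ℝ)
    (ht : 0 < t) (htw : t < D.w) :
    ∃ x, x - D.p < Xp D.s D.l D.m / D.w * t ∧
      (∀ k, k < D.m - 1 → Yp D.r (k + 1) = t → Xp D.s D.r (k + 1) = x) ∧
      ∀ ξ, ξ < Xp D.s D.l D.m / D.w * t →
        F D n e ξ t = VR D n e t * ind (x - D.p) x ξ := by
  set lam := Xp D.s D.l D.m / D.w with hlam
  have hw := ok.hw
  -- the common position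
  obtain ⟨x, hx1, hx2⟩ : ∃ x, x - D.p < lam * t ∧
      (∀ k, k < D.m - 1 → Yp D.r (k + 1) = t → Xp D.s D.r (k + 1) = x) := by
    by_cases hex : ∃ k, k < D.m - 1 ∧ Yp D.r (k + 1) = t
    · obtain ⟨k, hk, hkt⟩ := hex
      refine ⟨Xp D.s D.r (k + 1), ?_, ?_⟩
      · have h1 := slope (k := k + 1) ok.hr ok.hs (by omega)
        rw [ok.hrw, hkt] at h1
        have h2 := ok.hcl
        rw [q0, zero_add] at h2
        rw [h2] at h1
        have h3 : (Xp D.s D.r (k + 1) - D.p) * D.w < Xp D.s D.l D.m * t := by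
          nlinarith
        rw [hlam, div_mul_eq_mul_div, lt_div_iff₀ hw]
        exact h3
      · intro k' hk' hkt'
        rcases le_total k k' with h | h
        · exact (Xp_eq ok.hr (Nat.succ_le_succ h) (by omega) (hkt.trans hkt'.symm)).symm
        · exact Xp_eq ok.hr (Nat.succ_le_succ h) (by omega) (hkt'.trans hkt.symm)
    · refine ⟨lam * t, by linarith, ?_⟩
      intro k hk hkt
      exact absurd ⟨k, hk, hkt⟩ hex
  refine ⟨x, hx1, hx2, ?_⟩
  intro ξ hξ
  unfold F VR
  rw [Finset.sum_mul]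
  refine Finset.sum_congr rfl fun k hk => ?_
  have hk' := Finset.mem_range.1 hk
  have hi : ∀ a, ind a a ξ = 0 := by
    intro a
    unfold ind
    rw [if_neg]
    rintro ⟨h1, h2⟩
    exact absurd (h1.trans h2) (lt_irrefl _)
  have e1 : (if Yp D.l (k + 1) = t then
      ind (Xp D.s D.l (k + 1) - D.q) (Xp D.s D.l (k + 1)) ξ else 0) = 0 := by
    rw [q0, sub_zero, hi, ite_self]
  have e2 : (if D.w - Yp D.r (k + 1) = t then
      ind (Xp D.s D.r D.m - Xp D.s D.r (k + 1)) (Xp D.s D.r D.m - Xp D.s D.r (k + 1) + D.q) ξ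
        else 0) = 0 := by
    rw [q0, add_zero, hi, ite_self]
  have e3 : (if D.w - Yp D.l (k + 1) = t then
      ind (Xp D.s D.l D.m - Xp D.s D.l (k + 1)) (Xp D.s D.l D.m - Xp D.s D.l (k + 1) + D.p) ξ
        else 0) = 0 := by
    split_ifs with h
    · unfold ind
      rw [if_neg]
      rintro ⟨h1, _⟩
      have h2 := slope (k := k + 1) ok.hl ok.hs (by omega)
      rw [ok.hlw] at h2
      have h3 : lam * t * D.w ≤ (Xp D.s D.l D.m - Xp D.s D.l (k + 1)) * D.w := by
        have h4 : lam * t * D.w = Xp D.s D.l D.m * t := by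
          rw [hlam]
          field_simp
        rw [h4, ← h]
        nlinarith
      have h5 := le_of_mul_le_mul_right h3 hw
      linarith
    · rfl
  rw [e1, e2, e3, add_zero, add_zero, mul_zero, add_zero]
  split_ifs with h
  · rw [hx2 k hk' h]
  · simp

theorem one_side {f g : ℝ → ℝ} (hd : Dense f g) {p c V V' x x' : ℝ} (hp : 0 < p) (hx : x - p < c)
    (hf : ∀ ξ, ξ < c → f ξ = V * ind (x - p) x ξ) (hg : ∀ ξ, ξ < c → g ξ = V' * ind (x' - p) x' ξ)
    (hV : 0 < V) : V' = V ∧ x' ≤ x := by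
  have h1 : ∀ δ, 0 < δ → V' = V ∧ x' ≤ x + δ := by
    intro δ hδ
    have h2 : x - p < min (min x c) (x - p + δ) :=
      lt_min (lt_min (by linarith) hx) (by linarith)
    obtain ⟨ξ, ⟨hξ1, hξ2⟩, hξ⟩ := hd _ _ h2
    have h3 : ξ < x := hξ2.trans_le ((min_le_left _ _).trans (min_le_left _ _))
    have h4 : ξ < c := hξ2.trans_le ((min_le_left _ _).trans (min_le_right _ _))
    have h5 : ξ < x - p + δ := hξ2.trans_le (min_le_right _ _)
    rw [hf ξ h4, hg ξ h4] at hξ
    have h6 : ind (x - p) x ξ = 1 := by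
      unfold ind
      rw [if_pos ⟨hξ1, h3⟩]
    rw [h6, mul_one] at hξ
    by_cases h7 : x' - p < ξ ∧ ξ < x'
    · have h8 : ind (x' - p) x' ξ = 1 := by
        unfold ind
        rw [if_pos h7]
      rw [h8, mul_one] at hξ
      exact ⟨hξ.symm, by linarith [h7.1]⟩
    · have h8 : ind (x' - p) x' ξ = 0 := by
        unfold ind
        rw [if_neg h7]
      rw [h8, mul_zero] at hξ
      linarith
  exact ⟨(h1 1 one_pos).1, le_of_forall_pos_le_add fun δ hδ => (h1 δ hδ).2⟩

theorem dense_symm {f g : ℝ → ℝ} (hd : Dense f g) : Dense g f := by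
  intro a b hab
  obtain ⟨ξ, h1, h2⟩ := hd a b hab
  exact ⟨ξ, h1, h2.symm⟩

end CSV

open CSV in
theorem specCSV : SpecCSV := by
  intro D D' n n' e e' H t ht htw
  have hw' := H.mate.hw
  have hp' : D'.p = D.p := by
    have := H.mate.hpq
    rw [H.q0, H.q0', add_zero, add_zero] at this
    exact this
  have hsum : ∀ k, k ≤ D.m → Xp D.s D'.r k + Xp D.s D'.l k = Xp D.s D.r k + Xp D.s D.l k := by
    intro k hk
    unfold Xp
    rw [← Finset.sum_add_distrib, ← Finset.sum_add_distrib]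
    refine Finset.sum_congr rfl fun j hj => ?_
    have := H.mate.hrl j (lt_of_lt_of_le (Finset.mem_range.1 hj) hk)
    rw [← add_mul, ← add_mul, this]
  have hl : Xp D'.s D'.l D'.m = Xp D.s D.l D.m := by
    have h1 := H.ok.hcl
    have h2 := H.ok'.hcl
    have h3 := hsum D.m le_rfl
    rw [H.q0, zero_add] at h1
    rw [H.q0', zero_add, hp', H.mate.hs, H.mate.hm] at h2
    rw [H.mate.hs, H.mate.hm]
    linarith
  obtain ⟨x, hx, hxk, hxF⟩ := key D n e H.ok H.q0 H.p0 t ht htw
  obtain ⟨x', hx', hxk', hxF'⟩ := key D' n' e' H.ok' H.q0' (by rw [hp']; exact H.p0) t ht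
    (by rw [hw']; exact htw)
  rw [hl, hw', hp'] at hx'
  rw [hl, hw', hp'] at hxF'
  have hV := VR_nonneg D H.ok H.lp t
  have hV' := VR_nonneg D' H.ok' H.lp' t
  have hd := H.den t ht htw
  have hd' := dense_symm hd
  rcases hV.eq_or_lt with h | h
  · rcases hV'.eq_or_lt with h' | h'
    · refine ⟨by rw [← h, ← h'], ?_⟩
      intro h2
      rw [← h] at h2
      exact absurd h2 (lt_irrefl _)
    · have := (one_side hd' H.p0 hx' hxF' hxF h').1
      rw [← h] at this
      rw [← this] at h'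
      exact absurd h' (lt_irrefl _)
  · obtain ⟨h1, h2⟩ := one_side hd H.p0 hx hxF hxF' h
    have h3 : 0 < VR D' n' e' t := by
      rw [h1]
      exact h
    obtain ⟨_, h4⟩ := one_side hd' H.p0 hx' hxF' hxF h3
    refine ⟨h1.symm, ?_⟩
    intro _ k k' hk hk' hkt hkt'
    rw [hxk k hk hkt, ← H.mate.hs, hxk' k' (by rw [H.mate.hm]; exact hk') hkt']
    exact le_antisymm h4 h2

end Pool.MP671
end

section
/-!
# MP_671ac3_gt : module F1 (first order information)
-/
set_option linter.all false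

namespace Pool.MP671

namespace F1

/-- overlap of `[x - p, x]` and `[ξ, ξ + q]` -/
noncomputable def ov (x p q ξ : ℝ) : ℝ := max 0 (min x (q + ξ) - max (x - p) ξ)

theorem ov_at (x p q δ : ℝ) (h0 : 0 ≤ δ) (hp : δ ≤ p) (hq : δ ≤ q) : ov x p q (x - δ) = δ := by
  unfold ov
  rw [min_eq_left (by linarith : x ≤ q + (x - δ)), max_eq_right (by linarith : x - p ≤ x - δ),
    sub_sub_cancel, max_eq_right h0]

theorem ov_le (x p q ξ : ℝ) (hp : 0 ≤ p) (hq : 0 ≤ q) : ov x p q ξ ≤ min p q := by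
  unfold ov
  refine max_le (le_min hp hq) (le_min ?_ ?_)
  · have h1 := min_le_left x (q + ξ)
    have h2 := le_max_left (x - p) ξ
    linarith
  · have h1 := min_le_right x (q + ξ)
    have h2 := le_max_right (x - p) ξ
    linarith

theorem cov_top (hCOV : SpecCOV) (hBOD : SpecBOD) {φ : Set Pl → ℝ} (hφ : IsPhi φ) (D : Data)
    (hD : D.Ok) (ξ : ℝ) :
    cov φ (body D) (ξ, D.w) = 2 * ee φ * ov (D.q + Xp D.s D.r D.m) D.p D.q ξ := by
  obtain ⟨α, h⟩ := hCOV φ hφ
  obtain ⟨b1, b2, b3, b4, -⟩ := hBOD D hD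
  rw [h D hD ξ D.w hD.hw.le le_rfl]
  have hcl := hD.hcl
  simp only [intervalIntegral.integral_same, Data.up, Data.lo, sub_self, b1, b2, b3, b4, ov,
    mul_zero, add_zero, zero_add]
  rw [show D.q + Xp D.s D.r D.m - D.p = Xp D.s D.l D.m by linarith]
  ring

theorem two_min {p q p' q' : ℝ} (h : p' + q' = p + q) (hm : min p q = min p' q') :
    (p' = p ∧ q' = q) ∨ (p' = q ∧ q' = p) := by
  rcases le_total p q with h1 | h1 <;> rcases le_total p' q' with h2 | h2
  · rw [min_eq_left h1, min_eq_left h2] at hm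
    left; exact ⟨hm.symm, by linarith⟩
  · rw [min_eq_left h1, min_eq_right h2] at hm
    right; exact ⟨by linarith, hm.symm⟩
  · rw [min_eq_right h1, min_eq_left h2] at hm
    right; exact ⟨hm.symm, by linarith⟩
  · rw [min_eq_right h1, min_eq_right h2] at hm
    left; exact ⟨by linarith, hm.symm⟩

end F1

open F1 in
theorem specF1 (hCOV : SpecCOV) (hBOD : SpecBOD) : SpecF1 := by
  intro φ ψ hφ hψ D D' hD hD' hM e0 e0' hcov
  have hX : D'.q + Xp D'.s D'.r D'.m = D.q + Xp D.s D.r D.m := by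
    have h1 := hD.hcl
    have h2 := hD'.hcl
    have h3 := hM.hpq
    have h4 : Xp D'.s D'.r D'.m + Xp D'.s D'.l D'.m = Xp D.s D.r D.m + Xp D.s D.l D.m := by
      unfold Xp
      rw [hM.hm, hM.hs, ← Finset.sum_add_distrib, ← Finset.sum_add_distrib]
      refine Finset.sum_congr rfl fun j hj => ?_
      rw [← add_mul, ← add_mul, hM.hrl j (Finset.mem_range.1 hj)]
    linarith
  set x := D.q + Xp D.s D.r D.m with hx
  set e := ee φ with he
  set e' := ee ψ with he'
  have key : ∀ ξ, e * ov x D.p D.q ξ = e' * ov x D'.p D'.q ξ := by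
    intro ξ
    have h1 := cov_top hCOV hBOD hφ D hD ξ
    have h2 := cov_top hCOV hBOD hψ D' hD' ξ
    rw [hM.hw, hX] at h2
    have h3 := hcov (ξ, D.w)
    rw [h1, h2] at h3
    linarith
  have hp := hD.hp
  have hq := hD.hq
  have hp' := hD'.hp
  have hq' := hD'.hq
  set m := min D.p D.q with hm
  set m' := min D'.p D'.q with hm'
  have m0 : 0 ≤ m := le_min hp hq
  have m0' : 0 ≤ m' := le_min hp' hq'
  have hle1 : e * m ≤ e' * m' := by
    have h1 := key (x - m)
    rw [ov_at x D.p D.q m m0 (min_le_left _ _) (min_le_right _ _)] at h1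
    rw [h1]
    exact mul_le_mul_of_nonneg_left (ov_le _ _ _ _ hp' hq') e0'.le
  have hle2 : e' * m' ≤ e * m := by
    have h1 := key (x - m')
    rw [ov_at x D'.p D'.q m' m0' (min_le_left _ _) (min_le_right _ _)] at h1
    rw [← h1]
    exact mul_le_mul_of_nonneg_left (ov_le _ _ _ _ hp hq) e0.le
  have heq : e * m = e' * m' := le_antisymm hle1 hle2
  have hee : 0 < m → e = e' ∧ m = m' := by
    intro hpos
    have hpos' : 0 < m' := by
      have : 0 < e' * m' := by rw [← heq]; positivity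
      exact (pos_iff_pos_of_mul_pos this).1 e0'
    have h1 := key (x - min m m')
    rw [ov_at x D.p D.q _ (le_min m0 m0') ((min_le_left _ _).trans (min_le_left _ _))
        ((min_le_left _ _).trans (min_le_right _ _)),
      ov_at x D'.p D'.q _ (le_min m0 m0') ((min_le_right _ _).trans (min_le_left _ _))
        ((min_le_right _ _).trans (min_le_right _ _))] at h1
    have h2 : 0 < min m m' := lt_min hpos hpos'
    have h3 : e = e' := mul_right_cancel₀ h2.ne' h1
    refine ⟨h3, ?_⟩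
    rw [← h3] at heq
    exact mul_left_cancel₀ e0.ne' heq
  have hmm : m = m' := by
    rcases m0.lt_or_eq with h | h
    · exact (hee h).2
    · rw [← h, mul_zero] at heq
      rcases mul_eq_zero.1 heq.symm with h1 | h1
      · exact absurd h1 e0'.ne'
      · rw [← h, h1]
  exact ⟨two_min hM.hpq hmm, fun h1 h2 => (hee (lt_min h1 h2)).1⟩

end Pool.MP671
end

section
/-!
# MP_671ac3_gt : module CV2, visible vertices for `SG`
-/
namespace Pool.MP671

open CSV in
theorem specCV2 : SpecCV2 := by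
  intro D D' n n' e e' H t ht htw
  have hw' := H.mate.hw
  have hp' : D'.p = D.p := by
    have := H.mate.hpq
    rw [H.q0, H.q0', add_zero, add_zero] at this
    exact this
  have hsum : ∀ k, k ≤ D.m → Xp D.s D'.r k + Xp D.s D'.l k = Xp D.s D.r k + Xp D.s D.l k := by
    intro k hk
    unfold Xp
    rw [← Finset.sum_add_distrib, ← Finset.sum_add_distrib]
    refine Finset.sum_congr rfl fun j hj => ?_
    have := H.mate.hrl j (lt_of_lt_of_le (Finset.mem_range.1 hj) hk)
    rw [← add_mul, ← add_mul, this]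
  have hl : Xp D'.s D'.l D'.m = Xp D.s D.l D.m := by
    have h1 := H.ok.hcl
    have h2 := H.ok'.hcl
    have h3 := hsum D.m le_rfl
    rw [H.q0, zero_add] at h1
    rw [H.q0', zero_add, hp', H.mate.hs, H.mate.hm] at h2
    rw [H.mate.hs, H.mate.hm]
    linarith
  obtain ⟨x, hx, hxk, hxF⟩ := key D n e H.ok H.q0 H.p0 t ht htw
  obtain ⟨x', hx', hxk', hxF'⟩ := key D' n' e' H.ok' H.q0' (by rw [hp']; exact H.p0) t ht
    (by rw [hw']; exact htw)
  rw [hl, hw', hp'] at hx'
  rw [hl, hw', hp'] at hxF'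
  have hV := VR_nonneg D H.ok H.lp t
  have hV' := VR_nonneg D' H.ok' H.lp' t
  have hd := H.den t ht htw
  have hd' := dense_symm hd
  rcases hV.eq_or_lt with h | h
  · rcases hV'.eq_or_lt with h' | h'
    · refine ⟨by rw [← h, ← h'], ?_⟩
      intro h2
      rw [← h] at h2
      exact absurd h2 (lt_irrefl _)
    · have := (one_side hd' H.p0 hx' hxF' hxF h').1
      rw [← h] at this
      rw [← this] at h'
      exact absurd h' (lt_irrefl _)
  · obtain ⟨h1, h2⟩ := one_side hd H.p0 hx hxF hxF' h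
    have h3 : 0 < VR D' n' e' t := by
      rw [h1]
      exact h
    obtain ⟨_, h4⟩ := one_side hd' H.p0 hx' hxF' hxF h3
    refine ⟨h1.symm, ?_⟩
    intro _ k k' hk hk' hkt hkt'
    rw [hxk k hk hkt, ← H.mate.hs, hxk' k' (by rw [H.mate.hm]; exact hk') hkt']
    exact le_antisymm h4 h2

end Pool.MP671
end
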