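import Pool.Agent.Lib.MP_671ac3_gt.Spec
import Pool.Agent.Lib.MP_671ac3_gt.Spec2

section
namespace Pool.MP671

namespace FAN

theorem dif_tr (c : Pl) (A : Set Pl) : dif (tr c A) = dif A := by
  ext z
  constructor
  · rintro ⟨_, ⟨a, ha, rfl⟩, _, ⟨b, hb, rfl⟩, rfl⟩
    exact ⟨a, ha, b, hb, by simp⟩
  · rintro ⟨a, ha, b, hb, rfl⟩
    exact ⟨a + c, ⟨a, ha, rfl⟩, b + c, ⟨b, hb, rfl⟩, by simp⟩

end FAN

theorem specFAN (hFNA : SpecFNA) (hFNB : SpecFNB) (hFNC : SpecFNC) (hSUM : SpecSUM)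
    (hSKP : SpecSKP) : SpecFAN := by
  classical
  intro K H hK hH hKi hHi hS hd
  have hKne : K.Nonempty := hKi.mono interior_subset
  have hHne : H.Nonempty := hHi.mono interior_subset
  have hex : ∃ m : ℕ, ∃ (D D' : Data) (c c' : Pl), D.m = m ∧ D.Ok ∧ D'.Ok ∧ D'.m = D.m ∧
      D'.s = D.s ∧ K = tr c (body D) ∧ H = tr c' (body D') := by
    obtain ⟨S, rfl⟩ := hS
    have hSne : S.Nonempty := by
      rw [Finset.nonempty_iff_ne_empty]
      rintro rfl
      simp at hKne
    obtain ⟨m, s, hinc, haff⟩ := hFNA S hSne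
    have haffH : AffOff m s (fun σ => rs H σ + ls H σ) := by
      have e := hFNB.1 _ H hK hH hKne hHne hd
      have : (fun σ => rs H σ + ls H σ) =
          (fun σ => rs (convexHull ℝ (S : Set Pl)) σ + ls (convexHull ℝ (S : Set Pl)) σ) := by
        funext σ; exact (e σ).symm
      rw [this]; exact haff
    obtain ⟨k1, k2⟩ := hFNB.2 _ hK hKne m s haff
    obtain ⟨k3, k4⟩ := hFNB.2 _ hH hHne m s haffH
    obtain ⟨D, o, hm, hs, c, hc⟩ := hFNC _ hK hKi m s hinc k1 k2
    obtain ⟨D', o', hm', hs', c', hc'⟩ := hFNC _ hH hHi m s hinc k3 k4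
    exact ⟨m, D, D', c, c', hm, o, o', by rw [hm, hm'], by rw [hs, hs'], hc, hc'⟩
  obtain ⟨D, D', c, c', hm, o, o', hm', hs', hc, hc'⟩ := Nat.find_spec hex
  have hmin := fun k => Nat.find_min hex (m := k)
  have hdd : dif (body D) = dif (body D') := by
    rw [← FAN.dif_tr c (body D), ← FAN.dif_tr c' (body D'), ← hc, ← hc']
    exact hd
  obtain ⟨s1, s2, s3⟩ := hSUM D D' o o' hm' hs' hdd
  refine ⟨D, D', c, c', o, o', ⟨hm', hs', s1, s2, s3, ?_⟩, hc, hc'⟩
  intro j hj
  by_contra hneg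
  have hr := o.hr j hj
  have hl := o.hl j hj
  have hr' := o'.hr j (by rw [hm']; exact hj)
  have hl' := o'.hl j (by rw [hm']; exact hj)
  have h3 := s3 j hj
  have hle := not_lt.1 hneg
  have e1 : D.r j = 0 := by linarith
  have e2 : D.l j = 0 := by linarith
  have e3 : D'.r j = 0 := by linarith
  have e4 : D'.l j = 0 := by linarith
  obtain ⟨D₁, p1, p2, p3, p4, p5, p6, p7⟩ := hSKP D o j hj e1 e2
  obtain ⟨D₂, q1, q2, q3, q4, q5, q6, q7⟩ := hSKP D' o' j (by rw [hm']; exact hj) e3 e4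
  apply hmin D₁.m (by omega)
  exact ⟨D₁, D₂, c, c', rfl, p1, q1, by omega, by rw [p3, q3, hs'], by rw [p7]; exact hc,
    by rw [q7]; exact hc'⟩

end Pool.MP671
end

section
/-!
# MP_671ac3_gt : module FLB (face lengths of the polygon)
-/
set_option linter.all false

namespace Pool.MP671

namespace FLB

/-- the part of `[0,u]` covered by the piece `k` -/
noncomputable def cl (a : ℕ → ℝ) (u : ℝ) (k : ℕ) : ℝ := max 0 (min (u - Yp a k) (a k))

theorem cl_nonneg (a : ℕ → ℝ) (u : ℝ) (k : ℕ) : 0 ≤ cl a u k := le_max_left _ _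

theorem cl_le (a : ℕ → ℝ) (u : ℝ) (k : ℕ) (h : 0 ≤ a k) : cl a u k ≤ a k :=
  max_le h (min_le_right _ _)

theorem Yp_succ (a : ℕ → ℝ) (k : ℕ) : Yp a (k + 1) = Yp a k + a k := by
  unfold Yp
  rw [Finset.sum_range_succ]

theorem cl_eq (a : ℕ → ℝ) (u : ℝ) (k : ℕ) (h : 0 ≤ a k) :
    cl a u k = min u (Yp a (k + 1)) - min u (Yp a k) := by
  unfold cl
  rw [Yp_succ]
  rcases le_total u (Yp a k) with h1 | h1
  · rw [min_eq_left (by linarith : u ≤ Yp a k + a k), min_eq_left h1, sub_self]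
    exact max_eq_left ((min_le_left _ _).trans (by linarith))
  · rw [min_eq_right h1]
    rcases le_total u (Yp a k + a k) with h2 | h2
    · rw [min_eq_left h2, min_eq_left (by linarith : u - Yp a k ≤ a k)]
      exact max_eq_right (by linarith)
    · rw [min_eq_right h2, min_eq_right (by linarith : a k ≤ u - Yp a k)]
      rw [max_eq_right h]; ring

theorem sum_cl (m : ℕ) (a : ℕ → ℝ) (ha : ∀ j, j < m → 0 ≤ a j) (u : ℝ) (h0 : 0 ≤ u)
    (h1 : u ≤ Yp a m) : ∑ k ∈ Finset.range m, cl a u k = u := by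
  have : ∑ k ∈ Finset.range m, cl a u k
      = ∑ k ∈ Finset.range m, (min u (Yp a (k + 1)) - min u (Yp a k)) :=
    Finset.sum_congr rfl fun k hk => cl_eq a u k (ha k (Finset.mem_range.1 hk))
  rw [this, Finset.sum_range_sub (fun k => min u (Yp a k)) m, min_eq_left h1]
  have : Yp a 0 = 0 := by simp [Yp]
  rw [this, min_eq_right h0, sub_zero]

theorem gap (m : ℕ) (s a : ℕ → ℝ) (hs : ∀ i j, i < j → j < m → s i < s j)
    (ha : ∀ j, j < m → 0 ≤ a j) (j : ℕ) (hj : j < m) (u : ℝ) (h0 : 0 ≤ u) (h1 : u ≤ Yp a m) :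
    s j * u - ch m s a u ≤ s j * Yp a j - Xp s a j ∧
    (s j * u - ch m s a u = s j * Yp a j - Xp s a j → Yp a j ≤ u ∧ u ≤ Yp a (j + 1)) := by
  have hsum := sum_cl m a ha u h0 h1
  -- the difference as a sum of nonnegative terms
  set g : ℕ → ℝ := fun k => if k < j then (s j - s k) * (a k - cl a u k)
    else (s k - s j) * cl a u k with hg
  have hg0 : ∀ k ∈ Finset.range m, 0 ≤ g k := by
    intro k hk
    have hk := Finset.mem_range.1 hk
    simp only [hg]
    split_ifs with h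
    · exact mul_nonneg (by have := hs k j h hj; linarith)
        (by have := cl_le a u k (ha k hk); linarith)
    · refine mul_nonneg ?_ (cl_nonneg _ _ _)
      rcases (not_lt.1 h).lt_or_eq with h2 | h2
      · have := hs j k h2 hk; linarith
      · rw [h2]; linarith
  have hpre : s j * Yp a j - Xp s a j
      = ∑ k ∈ Finset.range m, if k < j then (s j - s k) * a k else 0 := by
    rw [← Finset.sum_filter]
    have : Finset.filter (fun k => k < j) (Finset.range m) = Finset.range j := by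
      ext k
      simp only [Finset.mem_filter, Finset.mem_range]
      omega
    rw [this]
    unfold Yp Xp
    rw [Finset.mul_sum, ← Finset.sum_sub_distrib]
    exact Finset.sum_congr rfl fun k _ => by ring
  have hmain : (s j * Yp a j - Xp s a j) - (s j * u - ch m s a u)
      = ∑ k ∈ Finset.range m, g k := by
    have e1 : s j * u - ch m s a u = ∑ k ∈ Finset.range m, (s j - s k) * cl a u k := by
      have : s j * u = ∑ k ∈ Finset.range m, s j * cl a u k := by
        rw [← Finset.mul_sum, hsum]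
      rw [this]
      unfold ch
      rw [← Finset.sum_sub_distrib]
      exact Finset.sum_congr rfl fun k _ => by unfold cl; ring
    rw [hpre, e1, ← Finset.sum_sub_distrib]
    refine Finset.sum_congr rfl fun k _ => ?_
    simp only [hg]
    split_ifs <;> ring
  have hnn : 0 ≤ ∑ k ∈ Finset.range m, g k := Finset.sum_nonneg hg0
  refine ⟨by linarith, fun he => ?_⟩
  have hz : ∑ k ∈ Finset.range m, g k = 0 := by rw [← hmain, he, sub_self]
  have hz' := (Finset.sum_eq_zero_iff_of_nonneg hg0).1 hz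
  have hlow : ∀ k, k < j → cl a u k = a k := by
    intro k hk
    have h2 := hz' k (Finset.mem_range.2 (hk.trans hj))
    simp only [hg, if_pos hk] at h2
    rcases mul_eq_zero.1 h2 with h3 | h3
    · have := hs k j hk hj; linarith
    · linarith
  have hhigh : ∀ k, j < k → k < m → cl a u k = 0 := by
    intro k hk hkm
    have h2 := hz' k (Finset.mem_range.2 hkm)
    simp only [hg, if_neg (not_lt.2 hk.le)] at h2
    rcases mul_eq_zero.1 h2 with h3 | h3
    · have := hs j k hk hkm; linarith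
    · exact h3
  constructor
  · rw [← hsum]
    unfold Yp
    calc ∑ k ∈ Finset.range j, a k = ∑ k ∈ Finset.range j, cl a u k :=
          Finset.sum_congr rfl fun k hk => (hlow k (Finset.mem_range.1 hk)).symm
      _ ≤ ∑ k ∈ Finset.range m, cl a u k :=
          Finset.sum_le_sum_of_subset_of_nonneg (Finset.range_mono hj.le)
            fun k _ _ => cl_nonneg _ _ _
  · rw [← hsum]
    unfold Yp
    calc ∑ k ∈ Finset.range m, cl a u k = ∑ k ∈ Finset.range (j + 1), cl a u k := by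
          symm
          apply Finset.sum_subset (Finset.range_mono hj)
          intro k hk hk'
          rw [Finset.mem_range] at hk hk'
          exact hhigh k (by omega) hk
      _ ≤ ∑ k ∈ Finset.range (j + 1), a k :=
          Finset.sum_le_sum fun k hk => cl_le a u k (ha k (by
            have := Finset.mem_range.1 hk; omega))

theorem on_piece (hCHA : SpecCHA) (m : ℕ) (s a : ℕ → ℝ) (ha : ∀ j, j < m → 0 ≤ a j) (j : ℕ)
    (hj : j < m) (u : ℝ) (h0 : Yp a j ≤ u) (h1 : u ≤ Yp a (j + 1)) :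
    s j * u - ch m s a u = s j * Yp a j - Xp s a j := by
  obtain ⟨-, -, -, h4, -⟩ := hCHA m a ha
  rw [h4 s j hj u ⟨h0, h1⟩]
  ring

theorem Yp_mono (m : ℕ) (a : ℕ → ℝ) (ha : ∀ j, j < m → 0 ≤ a j) (i j : ℕ) (hij : i ≤ j)
    (hj : j ≤ m) : Yp a i ≤ Yp a j := by
  unfold Yp
  refine Finset.sum_le_sum_of_subset_of_nonneg (Finset.range_mono hij) fun k hk _ => ha k ?_
  have := Finset.mem_range.1 hk
  omega

theorem fl_of (K : Set Pl) (v : Pl) (c : ℝ) (hc : 0 ≤ c)
    (h : ∀ t, 0 ≤ t → ((∃ z ∈ K, z + t • v ∈ K ∧ ∀ y ∈ K, crs v y ≤ crs v z) ↔ t ≤ c)) :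
    fl K v = c := by
  unfold fl
  have : {t : ℝ | 0 ≤ t ∧ ∃ z ∈ K, z + t • v ∈ K ∧ ∀ y ∈ K, crs v y ≤ crs v z} = Set.Icc 0 c := by
    ext t
    constructor
    · rintro ⟨h0, h1⟩
      exact ⟨h0, (h t h0).1 h1⟩
    · rintro ⟨h0, h1⟩
      exact ⟨h0, (h t h0).2 h1⟩
  rw [this, csSup_Icc hc]

end FLB

open FLB in
theorem specFLB (hCHA : SpecCHA) (hBOD : SpecBOD) : SpecFLB := by
  intro D hD
  obtain ⟨b1, b2, b3, b4, -, -, b7, -⟩ := hBOD D hD
  have hw := hD.hw
  have mem : ∀ z : Pl, z ∈ body D ↔ 0 ≤ z.2 ∧ z.2 ≤ D.w ∧ D.L z.2 ≤ z.1 ∧ z.1 ≤ D.R z.2 :=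
    fun z => Iff.rfl
  have hcl := hD.hcl
  refine ⟨?_, ?_, ?_⟩
  · refine fl_of _ _ _ hD.hp fun t ht => ?_
    constructor
    · rintro ⟨z, hz, hzt, hmax⟩
      rw [mem] at hz hzt
      have hy : z.2 = D.w := by
        have := hmax (D.L D.w, D.w) ((mem _).2 ⟨hw.le, le_rfl, le_rfl, b7 _ ⟨hw.le, le_rfl⟩⟩)
        simp only [crs, one_mul, zero_mul, sub_zero] at this
        exact le_antisymm hz.2.1 this
      obtain ⟨h1, h2, h3, h4⟩ := hzt
      simp only [Prod.fst_add, Prod.snd_add, Prod.smul_mk, smul_eq_mul, mul_one, mul_zero,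
        add_zero] at h4
      rw [hy, b4] at h4
      have h5 := hz.2.2.1
      rw [hy, b2] at h5
      linarith
    · intro h
      refine ⟨(D.L D.w, D.w), (mem _).2 ⟨hw.le, le_rfl, le_rfl, b7 _ ⟨hw.le, le_rfl⟩⟩, ?_, ?_⟩
      · rw [mem]
        simp only [Prod.fst_add, Prod.snd_add, Prod.smul_mk, smul_eq_mul, mul_one, mul_zero,
          add_zero]
        refine ⟨hw.le, le_rfl, by linarith, ?_⟩
        rw [b4, b2]; linarith
      · intro y hy
        rw [mem] at hy
        simp only [crs, one_mul, zero_mul, sub_zero]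
        exact hy.2.1
  · refine fl_of _ _ _ hD.hq fun t ht => ?_
    constructor
    · rintro ⟨z, hz, hzt, hmax⟩
      rw [mem] at hz hzt
      have hy : z.2 = 0 := by
        have := hmax (D.L 0, 0) ((mem _).2 ⟨le_rfl, hw.le, le_rfl, b7 _ ⟨le_rfl, hw.le⟩⟩)
        simp only [crs, zero_mul, sub_zero, mul_zero] at this
        linarith [hz.1]
      obtain ⟨h1, h2, h3, h4⟩ := hzt
      simp only [Prod.fst_add, Prod.snd_add, Prod.smul_mk, smul_eq_mul, mul_neg, mul_one,
        mul_zero, add_zero] at h3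
      rw [hy, b1] at h3
      have h5 := hz.2.2.2
      rw [hy, b3] at h5
      linarith
    · intro h
      refine ⟨(D.R 0, 0), (mem _).2 ⟨le_rfl, hw.le, b7 _ ⟨le_rfl, hw.le⟩, le_rfl⟩, ?_, ?_⟩
      · rw [mem]
        simp only [Prod.fst_add, Prod.snd_add, Prod.smul_mk, smul_eq_mul, mul_neg, mul_one,
          mul_zero, add_zero]
        refine ⟨le_rfl, hw.le, ?_, ?_⟩
        · rw [b3, b1]; linarith
        · linarith
      · intro y hy
        rw [mem] at hy
        simp only [crs, zero_mul, sub_zero, mul_zero]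
        linarith [hy.1]
  · intro j hj
    have hYl := Yp_mono D.m D.l hD.hl
    have hYr := Yp_mono D.m D.r hD.hr
    constructor
    · -- left
      have hY0 : 0 ≤ Yp D.l j := by
        have := hYl 0 j (Nat.zero_le _) hj.le; simpa [Yp] using this
      have hY1 : Yp D.l j ≤ Yp D.l (j + 1) := hYl j (j + 1) (Nat.le_succ _) hj
      have hY2 : Yp D.l (j + 1) ≤ D.w := by
        have := hYl (j + 1) D.m hj le_rfl; rwa [hD.hlw] at this
      have G := fun u h0 h1 => gap D.m D.s D.l hD.hs hD.hl j hj u h0 h1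
      have P := fun u h0 h1 => on_piece hCHA D.m D.s D.l hD.hl j hj u h0 h1
      have hmaxv : ∀ z ∈ body D, crs (D.s j, 1) z ≤ D.s j * Yp D.l j - Xp D.s D.l j := by
        intro z hz
        rw [mem] at hz
        have := (G z.2 hz.1 (by rw [hD.hlw]; exact hz.2.1)).1
        have h3 := hz.2.2.1
        unfold Data.L at h3
        simp only [crs, one_mul]
        linarith
      refine fl_of _ _ _ (hD.hl j hj) fun t ht => ?_
      have hstart : (D.L (Yp D.l j), Yp D.l j) ∈ body D :=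
        (mem _).2 ⟨hY0, hY1.trans hY2, le_rfl, b7 _ ⟨hY0, hY1.trans hY2⟩⟩
      have hstartv : crs (D.s j, 1) (D.L (Yp D.l j), Yp D.l j)
          = D.s j * Yp D.l j - Xp D.s D.l j := by
        simp only [crs, one_mul]
        exact P _ le_rfl hY1
      constructor
      · rintro ⟨z, hz, hzt, hmax⟩
        have h1 := hmax _ hstart
        rw [hstartv] at h1
        have h2 : crs (D.s j, 1) z = D.s j * Yp D.l j - Xp D.s D.l j :=
          le_antisymm (hmaxv z hz) h1
        have h3 : crs (D.s j, 1) (z + t • ((D.s j, 1) : Pl)) = crs (D.s j, 1) z := by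
          simp only [crs, Prod.fst_add, Prod.snd_add, Prod.smul_mk, smul_eq_mul]
          ring
        have low : ∀ y ∈ body D, crs (D.s j, 1) y = D.s j * Yp D.l j - Xp D.s D.l j →
            Yp D.l j ≤ y.2 ∧ y.2 ≤ Yp D.l (j + 1) := by
          intro y hy hc
          rw [mem] at hy
          have g := G y.2 hy.1 (by rw [hD.hlw]; exact hy.2.1)
          apply g.2
          refine le_antisymm g.1 ?_
          have h3 := hy.2.2.1
          unfold Data.L at h3
          simp only [crs, one_mul] at hc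
          linarith
        have a1 := (low z hz h2).1
        have a2 := (low _ hzt (by rw [h3, h2])).2
        simp only [Prod.snd_add, Prod.smul_mk, smul_eq_mul, mul_one] at a2
        rw [Yp_succ] at a2
        linarith
      · intro h
        refine ⟨_, hstart, ?_, fun y hy => by rw [hstartv]; exact hmaxv y hy⟩
        have hu1 : Yp D.l j ≤ Yp D.l j + t := by linarith
        have hu2 : Yp D.l j + t ≤ Yp D.l (j + 1) := by rw [Yp_succ]; linarith
        have e1 := P _ hu1 hu2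
        have e2 := P _ le_rfl hY1
        have e3 : D.L (Yp D.l j) + t * D.s j = D.L (Yp D.l j + t) := by
          unfold Data.L
          linarith
        rw [mem]
        simp only [Prod.fst_add, Prod.snd_add, Prod.smul_mk, smul_eq_mul, mul_one]
        rw [e3]
        exact ⟨by linarith, by linarith, le_rfl, b7 _ ⟨by linarith, by linarith⟩⟩
    · -- right
      have hY0 : 0 ≤ Yp D.r j := by
        have := hYr 0 j (Nat.zero_le _) hj.le; simpa [Yp] using this
      have hY1 : Yp D.r j ≤ Yp D.r (j + 1) := hYr j (j + 1) (Nat.le_succ _) hj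
      have hY2 : Yp D.r (j + 1) ≤ D.w := by
        have := hYr (j + 1) D.m hj le_rfl; rwa [hD.hrw] at this
      have G := fun u h0 h1 => gap D.m D.s D.r hD.hs hD.hr j hj u h0 h1
      have P := fun u h0 h1 => on_piece hCHA D.m D.s D.r hD.hr j hj u h0 h1
      set M := D.q + Xp D.s D.r D.m - D.s j * D.w + (D.s j * Yp D.r j - Xp D.s D.r j) with hM
      have hRv : ∀ u, D.R (D.w - u) - D.s j * (D.w - u)
          = D.q + Xp D.s D.r D.m - D.s j * D.w + (D.s j * u - ch D.m D.s D.r u) := by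
        intro u
        unfold Data.R
        rw [sub_sub_cancel]
        ring
      have hmaxv : ∀ z ∈ body D, crs (-D.s j, -1) z ≤ M := by
        intro z hz
        rw [mem] at hz
        have := (G (D.w - z.2) (by linarith) (by rw [hD.hrw]; linarith)).1
        have h3 := hz.2.2.2
        have h4 := hRv (D.w - z.2)
        rw [sub_sub_cancel] at h4
        simp only [crs]
        linarith
      refine fl_of _ _ _ (hD.hr j hj) fun t ht => ?_
      have hstart : (D.R (D.w - Yp D.r j), D.w - Yp D.r j) ∈ body D :=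
        (mem _).2 ⟨by show 0 ≤ D.w - _; linarith, by show D.w - _ ≤ D.w; linarith,
          b7 _ ⟨by linarith, by linarith⟩, le_rfl⟩
      have hstartv : crs (-D.s j, -1) (D.R (D.w - Yp D.r j), D.w - Yp D.r j) = M := by
        have h4 := hRv (Yp D.r j)
        rw [P _ le_rfl hY1] at h4
        simp only [crs]
        linarith
      constructor
      · rintro ⟨z, hz, hzt, hmax⟩
        have h1 := hmax _ hstart
        rw [hstartv] at h1
        have h2 : crs (-D.s j, -1) z = M := le_antisymm (hmaxv z hz) h1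
        have h3 : crs (-D.s j, -1) (z + t • ((-D.s j, -1) : Pl)) = crs (-D.s j, -1) z := by
          simp only [crs, Prod.fst_add, Prod.snd_add, Prod.smul_mk, smul_eq_mul]
          ring
        have low : ∀ y ∈ body D, crs (-D.s j, -1) y = M →
            Yp D.r j ≤ D.w - y.2 ∧ D.w - y.2 ≤ Yp D.r (j + 1) := by
          intro y hy hc
          rw [mem] at hy
          have g := G (D.w - y.2) (by linarith) (by rw [hD.hrw]; linarith)
          apply g.2
          refine le_antisymm g.1 ?_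
          have h3 := hy.2.2.2
          have h4 := hRv (D.w - y.2)
          rw [sub_sub_cancel] at h4
          simp only [crs] at hc
          linarith
        have a1 := (low z hz h2).1
        have a2 := (low _ hzt (by rw [h3, h2])).2
        simp only [Prod.snd_add, Prod.smul_mk, smul_eq_mul, mul_neg, mul_one] at a2
        rw [Yp_succ] at a2
        linarith
      · intro h
        refine ⟨_, hstart, ?_, fun y hy => by rw [hstartv]; exact hmaxv y hy⟩
        have hu1 : Yp D.r j ≤ Yp D.r j + t := by linarith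
        have hu2 : Yp D.r j + t ≤ Yp D.r (j + 1) := by rw [Yp_succ]; linarith
        have e1 := P _ hu1 hu2
        have e2 := P _ le_rfl hY1
        have f1 := hRv (Yp D.r j + t)
        have f2 := hRv (Yp D.r j)
        have e3 : D.R (D.w - Yp D.r j) + -(t * D.s j) = D.R (D.w - (Yp D.r j + t)) := by
          linarith
        rw [mem]
        simp only [Prod.fst_add, Prod.snd_add, Prod.smul_mk, smul_eq_mul, mul_neg, mul_one]
        rw [e3, show D.w - Yp D.r j + -t = D.w - (Yp D.r j + t) by ring]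
        exact ⟨by linarith, by linarith, b7 _ ⟨by linarith, by linarith⟩, le_rfl⟩

end Pool.MP671
end

section
/-! FLP: a face which is not a point gives a segment in the boundary -/
namespace Pool.MP671

open MeasureTheory

namespace FLP

theorem crs_add (v x y : Pl) : crs v (x + y) = crs v x + crs v y := by
  simp only [crs, Prod.fst_add, Prod.snd_add]; ring

theorem crs_smul (v x : Pl) (s : ℝ) : crs v (s • x) = s * crs v x := by
  simp only [crs, Prod.smul_fst, Prod.smul_snd, smul_eq_mul]; ring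

theorem crs_self (v : Pl) : crs v v = 0 := by
  simp only [crs]; ring

theorem crs_n (v : Pl) (hv : v ≠ 0) : 0 < crs v (-v.2, v.1) := by
  have h : v.1 ≠ 0 ∨ v.2 ≠ 0 := by
    by_contra hcon
    push Not at hcon
    exact hv (Prod.ext hcon.1 hcon.2)
  simp only [crs]
  rcases h with h | h
  · nlinarith [sq_nonneg v.2, mul_self_pos.2 h]
  · nlinarith [sq_nonneg v.1, mul_self_pos.2 h]

theorem notInt (K : Set Pl) (v p : Pl) (hv : v ≠ 0) (hp : ∀ y ∈ K, crs v y ≤ crs v p) :
    p ∉ interior K := by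
  intro hi
  have hc : Continuous fun s : ℝ => p + s • ((-v.2, v.1) : Pl) :=
    continuous_const.add (continuous_id.smul continuous_const)
  have h0 : (fun s : ℝ => p + s • ((-v.2, v.1) : Pl)) 0 ∈ interior K := by
    simpa using hi
  have hev : ∀ᶠ s in nhds (0 : ℝ), p + s • ((-v.2, v.1) : Pl) ∈ interior K :=
    hc.continuousAt.eventually (isOpen_interior.mem_nhds h0)
  have hev2 : ∀ᶠ s in nhdsWithin (0 : ℝ) (Set.Ioi 0),
      p + s • ((-v.2, v.1) : Pl) ∈ interior K ∧ s ∈ Set.Ioi (0 : ℝ) :=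
    (hev.filter_mono nhdsWithin_le_nhds).and self_mem_nhdsWithin
  obtain ⟨s, hs, hs0⟩ := hev2.exists
  have h1 := hp _ (interior_subset hs)
  rw [crs_add, crs_smul] at h1
  have h2 := mul_pos (Set.mem_Ioi.1 hs0) (crs_n v hv)
  linarith

end FLP

theorem specFLP : SpecFLP := by
  intro K v hK hne hv hfl
  unfold fl at hfl
  have hex : ∃ t ∈ {t : ℝ | 0 ≤ t ∧ ∃ z ∈ K, z + t • v ∈ K ∧ ∀ y ∈ K, crs v y ≤ crs v z},
      0 < t := by
    apply exists_lt_of_lt_csSup _ hfl
    by_contra hcon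
    rw [Set.not_nonempty_iff_eq_empty] at hcon
    rw [hcon, Real.sSup_empty] at hfl
    exact lt_irrefl _ hfl
  obtain ⟨t, ⟨-, z, hz, hzt, hmax⟩, ht⟩ := hex
  refine ⟨z, t, ht, ?_⟩
  intro p hp
  have hpK : p ∈ K := hK.1.segment_subset hz hzt hp
  have hcr : crs v p = crs v z := by
    obtain ⟨a, b, ha, hb, hab, rfl⟩ := hp
    rw [FLP.crs_add, FLP.crs_smul, FLP.crs_smul, FLP.crs_add, FLP.crs_smul, FLP.crs_self]
    have : a = 1 - b := by linarith
    rw [this]; ring
  rw [frontier, hK.2.isClosed.closure_eq]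
  refine ⟨hpK, FLP.notInt K v p hv ?_⟩
  intro y hy
  rw [hcr]
  exact hmax y hy

end Pool.MP671
end

section
/-!
# MP_671ac3_gt : module FNA
-/
namespace Pool.MP671

namespace FNAM

lemma key (S : Finset Pl) (hS : S.Nonempty) (ε a b : ℝ) (hab : a < b)
    (h : ∀ z ∈ S, ∀ z' ∈ S, ¬ (a < (z.1 - z'.1) / (z.2 - z'.2) ∧ (z.1 - z'.1) / (z.2 - z'.2) < b)) :
    ∃ c d : ℝ, ∀ σ ∈ Set.Ioo a b,
      sSup ((fun z : Pl => ε * (z.1 - σ * z.2)) '' (convexHull ℝ (S : Set Pl))) = c + d * σ := by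
  obtain ⟨z0, hz0, hmax⟩ := Finset.exists_max_image S
    (fun z : Pl => ε * (z.1 - (a + b) / 2 * z.2)) hS
  refine ⟨ε * z0.1, - (ε * z0.2), fun σ hσ => ?_⟩
  have hle : ∀ z ∈ S, ε * (z.1 - σ * z.2) ≤ ε * (z0.1 - σ * z0.2) := by
    intro z hz
    by_contra hlt
    rw [not_le] at hlt
    have h0 := hmax z hz
    have hne : z.2 - z0.2 ≠ 0 := by
      intro he
      have e1 : z.2 = z0.2 := by linarith
      rw [e1] at h0 hlt
      nlinarith
    apply h z hz z0 hz0
    set m := (a + b) / 2 with hm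
    set ρ := (z.1 - z0.1) / (z.2 - z0.2) with hρ
    have hρ1 : z.1 - z0.1 = ρ * (z.2 - z0.2) := by rw [hρ]; field_simp
    -- `g σ = ε (z.2 - z0.2) (ρ - σ) > 0`, `g m ≤ 0`
    have g1 : 0 < ε * (z.2 - z0.2) * (ρ - σ) := by
      have : ε * (z.2 - z0.2) * (ρ - σ)
          = ε * (z.1 - σ * z.2) - ε * (z0.1 - σ * z0.2) := by
        linear_combination (- ε) * hρ1
      rw [this]; linarith
    have g2 : ε * (z.2 - z0.2) * (ρ - m) ≤ 0 := by
      have : ε * (z.2 - z0.2) * (ρ - m)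
          = ε * (z.1 - m * z.2) - ε * (z0.1 - m * z0.2) := by
        linear_combination (- ε) * hρ1
      rw [this]; linarith
    have hma : a < m := by rw [hm]; linarith
    have hmb : m < b := by rw [hm]; linarith
    rcases lt_trichotomy (ε * (z.2 - z0.2)) 0 with hs | hs | hs
    · have h1 : ρ - σ < 0 := by
        by_contra hc
        rw [not_lt] at hc
        nlinarith
      have h2 : 0 ≤ ρ - m := by
        by_contra hc
        rw [not_le] at hc
        nlinarith
      exact ⟨by linarith, by linarith [hσ.2]⟩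
    · rw [hs, zero_mul] at g1; exact absurd g1 (lt_irrefl _)
    · have h1 : 0 < ρ - σ := by
        by_contra hc
        rw [not_lt] at hc
        nlinarith
      have h2 : ρ - m ≤ 0 := by
        by_contra hc
        rw [not_le] at hc
        nlinarith
      exact ⟨by linarith [hσ.1], by linarith⟩
  have hgr : IsGreatest ((fun z : Pl => ε * (z.1 - σ * z.2)) '' (convexHull ℝ (S : Set Pl)))
      (ε * (z0.1 - σ * z0.2)) := by
    constructor
    · exact ⟨z0, subset_convexHull ℝ _ hz0, rfl⟩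
    · rintro _ ⟨z, hz, rfl⟩
      have hcv : Convex ℝ {z : Pl | ε * (z.1 - σ * z.2) ≤ ε * (z0.1 - σ * z0.2)} := by
        intro x hx y hy α β hα hβ hαβ
        simp only [Set.mem_ofPred_eq, Prod.fst_add, Prod.snd_add, Prod.smul_fst, Prod.smul_snd,
          smul_eq_mul] at hx hy ⊢
        have e : ε * (α * x.1 + β * y.1 - σ * (α * x.2 + β * y.2))
            = α * (ε * (x.1 - σ * x.2)) + β * (ε * (y.1 - σ * y.2)) := by ring
        rw [e]
        calc α * (ε * (x.1 - σ * x.2)) + β * (ε * (y.1 - σ * y.2))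
            ≤ α * (ε * (z0.1 - σ * z0.2)) + β * (ε * (z0.1 - σ * z0.2)) :=
              add_le_add (mul_le_mul_of_nonneg_left hx hα) (mul_le_mul_of_nonneg_left hy hβ)
          _ = ε * (z0.1 - σ * z0.2) := by rw [← add_mul, hαβ, one_mul]
      exact convexHull_min (fun x hx => hle x hx) hcv hz
  rw [hgr.csSup_eq]
  ring

end FNAM

theorem specFNA : SpecFNA := by
  classical
  intro S hS
  set E : Finset ℝ := (S ×ˢ S).image
    (fun w : Pl × Pl => (w.1.1 - w.2.1) / (w.1.2 - w.2.2)) with hE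
  refine ⟨E.card, fun j => if hj : j < E.card then E.orderEmbOfFin rfl ⟨j, hj⟩ else 0, ?_, ?_⟩
  · intro i j hij hj
    have hi : i < E.card := hij.trans hj
    show (if hj : i < E.card then E.orderEmbOfFin rfl ⟨i, hj⟩ else 0)
      < (if hj : j < E.card then E.orderEmbOfFin rfl ⟨j, hj⟩ else 0)
    rw [dif_pos hi, dif_pos hj]
    exact (E.orderEmbOfFin rfl).strictMono (by exact hij)
  · intro a b hab hs
    have hEab : ∀ e ∈ E, ¬ (a < e ∧ e < b) := by
      intro e he
      have : e ∈ Set.range (E.orderEmbOfFin rfl) := by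
        rw [Finset.range_orderEmbOfFin]; exact he
      obtain ⟨⟨j, hj⟩, rfl⟩ := this
      have h1 := hs j hj
      simp only [dif_pos hj] at h1
      exact h1
    have hk : ∀ z ∈ S, ∀ z' ∈ S,
        ¬ (a < (z.1 - z'.1) / (z.2 - z'.2) ∧ (z.1 - z'.1) / (z.2 - z'.2) < b) := by
      intro z hz z' hz'
      apply hEab
      rw [hE, Finset.mem_image]
      exact ⟨(z, z'), Finset.mem_product.mpr ⟨hz, hz'⟩, rfl⟩
    obtain ⟨c, d, h1⟩ := FNAM.key S hS 1 a b hab hk
    obtain ⟨c', d', h2⟩ := FNAM.key S hS (-1) a b hab hk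
    refine ⟨c + c', d + d', fun σ hσ => ?_⟩
    have e1 : rs (convexHull ℝ (S : Set Pl)) σ = c + d * σ := by
      rw [← h1 σ hσ]
      unfold rs
      congr 2
      funext z
      ring
    have e2 : ls (convexHull ℝ (S : Set Pl)) σ = c' + d' * σ := by
      rw [← h2 σ hσ]
      unfold ls
      congr 2
      funext z
      ring
    show rs (convexHull ℝ (S : Set Pl)) σ + ls (convexHull ℝ (S : Set Pl)) σ = _
    rw [e1, e2]
    ring

end Pool.MP671
end

section
/-!
# MP_671ac3_gt : module FNB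
-/
namespace Pool.MP671

open MeasureTheory
open scoped Pointwise

namespace FNB

theorem bdd (K : Set Pl) (hK : CC K) (f : Pl → ℝ) (hf : Continuous f) : BddAbove (f '' K) :=
  (hK.2.image hf).bddAbove

theorem sum_eq (K : Set Pl) (hK : CC K) (hne : K.Nonempty) (σ : ℝ) :
    rs K σ + ls K σ = sSup ((fun z : Pl => z.1 - σ * z.2) '' dif K) := by
  have h1 : BddAbove ((fun z : Pl => z.1 - σ * z.2) '' K) := bdd K hK _ (by fun_prop)
  have h2 : BddAbove ((fun z : Pl => σ * z.2 - z.1) '' K) := bdd K hK _ (by fun_prop)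
  have h3 : (fun z : Pl => z.1 - σ * z.2) '' dif K =
      ((fun z : Pl => z.1 - σ * z.2) '' K) + ((fun z : Pl => σ * z.2 - z.1) '' K) := by
    ext x
    constructor
    · rintro ⟨_, ⟨a, ha, b, hb, rfl⟩, rfl⟩
      refine Set.mem_add.2 ⟨_, ⟨a, ha, rfl⟩, _, ⟨b, hb, rfl⟩, ?_⟩
      simp only [Prod.fst_sub, Prod.snd_sub]
      ring
    · intro hx
      obtain ⟨_, ⟨a, ha, rfl⟩, _, ⟨b, hb, rfl⟩, rfl⟩ := Set.mem_add.1 hx
      refine ⟨a - b, ⟨a, ha, b, hb, rfl⟩, ?_⟩
      simp only [Prod.fst_sub, Prod.snd_sub]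
      ring
  rw [h3, csSup_add (hne.image _) h1 (hne.image _) h2]
  rfl

/-- Suprema of affine functions are convex. -/
theorem cvx (K : Set Pl) (hne : K.Nonempty) (f : ℝ → Pl → ℝ)
    (hb : ∀ σ, BddAbove (f σ '' K))
    (hf : ∀ z x y a b : ℝ, ∀ w : Pl, a + b = 1 → z = a * x + b * y →
      f z w = a * f x w + b * f y w) (x y a b : ℝ) (ha : 0 ≤ a) (hb0 : 0 ≤ b) (hab : a + b = 1) :
    sSup (f (a * x + b * y) '' K) ≤ a * sSup (f x '' K) + b * sSup (f y '' K) := by
  refine csSup_le (hne.image _) ?_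
  rintro _ ⟨w, hw, rfl⟩
  rw [hf _ x y a b w hab rfl]
  exact add_le_add (mul_le_mul_of_nonneg_left (le_csSup (hb x) ⟨w, hw, rfl⟩) ha)
    (mul_le_mul_of_nonneg_left (le_csSup (hb y) ⟨w, hw, rfl⟩) hb0)

/-- Convex summands of an affine function. -/
theorem aff (f g : ℝ → ℝ) (a b : ℝ) (hab : a < b)
    (hf : ∀ x y s t : ℝ, 0 ≤ s → 0 ≤ t → s + t = 1 → f (s * x + t * y) ≤ s * f x + t * f y)
    (hg : ∀ x y s t : ℝ, 0 ≤ s → 0 ≤ t → s + t = 1 → g (s * x + t * y) ≤ s * g x + t * g y)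
    (c d : ℝ) (h : ∀ σ ∈ Set.Ioo a b, f σ + g σ = c + d * σ) :
    ∃ c' d', ∀ σ ∈ Set.Ioo a b, f σ = c' + d' * σ := by
  -- three points
  have key : ∀ x y z, a < x → x < y → y < z → z < b →
      f y * (z - x) = f x * (z - y) + f z * (y - x) := by
    intro x y z hax hxy hyz hzb
    have hzx : 0 < z - x := by linarith
    have hs : 0 ≤ (z - y) / (z - x) := div_nonneg (by linarith) hzx.le
    have ht : 0 ≤ (y - x) / (z - x) := div_nonneg (by linarith) hzx.le
    have hst : (z - y) / (z - x) + (y - x) / (z - x) = 1 := by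
      rw [← add_div]
      rw [div_eq_one_iff_eq hzx.ne']
      ring
    have hy : (z - y) / (z - x) * x + (y - x) / (z - x) * z = y := by
      field_simp
      ring
    have h1 := hf x z _ _ hs ht hst
    have h2 := hg x z _ _ hs ht hst
    rw [hy] at h1 h2
    have e1 := h x ⟨hax, by linarith⟩
    have e2 := h y ⟨by linarith, by linarith⟩
    have e3 := h z ⟨by linarith, hzb⟩
    have m1 : f y * (z - x) ≤ f x * (z - y) + f z * (y - x) := by
      have := mul_le_mul_of_nonneg_right h1 hzx.le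
      have e : ((z - y) / (z - x) * f x + (y - x) / (z - x) * f z) * (z - x)
          = f x * (z - y) + f z * (y - x) := by
        field_simp
      linarith
    have m2 : g y * (z - x) ≤ g x * (z - y) + g z * (y - x) := by
      have := mul_le_mul_of_nonneg_right h2 hzx.le
      have e : ((z - y) / (z - x) * g x + (y - x) / (z - x) * g z) * (z - x)
          = g x * (z - y) + g z * (y - x) := by
        field_simp
      linarith
    have g1 : g x = c + d * x - f x := by linarith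
    have g2 : g y = c + d * y - f y := by linarith
    have g3 : g z = c + d * z - f z := by linarith
    rw [g1, g2, g3] at m2
    nlinarith
  obtain ⟨u, hau, hub⟩ := exists_between hab
  obtain ⟨v, huv, hvb⟩ := exists_between hub
  have hvu : v - u ≠ 0 := by linarith
  refine ⟨f u - (f v - f u) / (v - u) * u, (f v - f u) / (v - u), fun σ hσ => ?_⟩
  have goal : f σ * (v - u) = f u * (v - u) + (f v - f u) * (σ - u) := by
    rcases lt_trichotomy σ u with h1 | h1 | h1
    · have := key σ u v hσ.1 h1 huv hvb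
      nlinarith
    · rw [h1]
      ring
    · rcases lt_trichotomy σ v with h2 | h2 | h2
      · have := key u σ v hau h1 h2 hvb
        nlinarith
      · rw [h2]
        ring
      · have := key u v σ hau huv h2 hσ.2
        nlinarith
  field_simp
  linarith

end FNB

theorem specFNB : SpecFNB := by
  refine ⟨fun K H hK hH hKn hHn hd σ => ?_, fun K hK hKn m s hs => ?_⟩
  · rw [FNB.sum_eq K hK hKn, FNB.sum_eq H hH hHn, hd]
  · have hr : ∀ x y s t : ℝ, 0 ≤ s → 0 ≤ t → s + t = 1 →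
        rs K (s * x + t * y) ≤ s * rs K x + t * rs K y := by
      intro x y s t h0 h1 h2
      refine FNB.cvx K hKn (fun σ z => z.1 - σ * z.2)
        (fun σ => FNB.bdd K hK _ (by fun_prop)) ?_ x y s t h0 h1 h2
      rintro z x y a b w hab rfl
      have hb : b = 1 - a := by linarith
      subst hb
      ring
    have hl : ∀ x y s t : ℝ, 0 ≤ s → 0 ≤ t → s + t = 1 →
        ls K (s * x + t * y) ≤ s * ls K x + t * ls K y := by
      intro x y s t h0 h1 h2
      refine FNB.cvx K hKn (fun σ z => σ * z.2 - z.1)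
        (fun σ => FNB.bdd K hK _ (by fun_prop)) ?_ x y s t h0 h1 h2
      rintro z x y a b w hab rfl
      have hb : b = 1 - a := by linarith
      subst hb
      ring
    constructor
    · intro a b hab hj
      obtain ⟨c, d, h⟩ := hs a b hab hj
      exact FNB.aff _ _ a b hab hr hl c d h
    · intro a b hab hj
      obtain ⟨c, d, h⟩ := hs a b hab hj
      exact FNB.aff _ _ a b hab hl hr c d (fun σ hσ => by rw [add_comm]; exact h σ hσ)

end Pool.MP671
end

section
/-!
# MP_671ac3_gt : module FNC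
-/
namespace Pool.MP671

namespace FNCM

/-- the closed component number `k` -/
def Cl (m : ℕ) (s : ℕ → ℝ) (k : ℕ) (σ : ℝ) : Prop :=
  (∀ j, j < k → j < m → s j ≤ σ) ∧ ∀ j, k ≤ j → j < m → σ ≤ s j

/-- the open component number `k` -/
def Op (m : ℕ) (s : ℕ → ℝ) (k : ℕ) (σ : ℝ) : Prop :=
  (∀ j, j < k → j < m → s j < σ) ∧ ∀ j, k ≤ j → j < m → σ < s j

lemma inc_le {m : ℕ} {s : ℕ → ℝ} (hs : Inc m s) {i j : ℕ} (hij : i ≤ j) (hj : j < m) :
    s i ≤ s j := by
  rcases Nat.eq_or_lt_of_le hij with h | h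
  · rw [h]
  · exact (hs i j h hj).le

lemma op_ex (m : ℕ) (s : ℕ → ℝ) (hs : Inc m s) (k : ℕ) (hk : k ≤ m) : ∃ σ, Op m s k σ := by
  rcases Nat.eq_zero_or_pos k with h0 | h0
  · rcases Nat.eq_zero_or_pos m with h1 | h1
    · exact ⟨0, fun j _ hj => by omega, fun j _ hj => by omega⟩
    · refine ⟨s 0 - 1, fun j hj _ => by omega, fun j _ hj => ?_⟩
      have := inc_le hs (Nat.zero_le j) hj
      linarith
  · rcases Nat.eq_or_lt_of_le hk with h1 | h1
    · refine ⟨s (m - 1) + 1, fun j _ hj => ?_, fun j h2 hj => by omega⟩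
      have := inc_le hs (show j ≤ m - 1 by omega) (by omega)
      linarith
    · have h2 := hs (k - 1) k (by omega) h1
      refine ⟨(s (k - 1) + s k) / 2, fun j hj _ => ?_, fun j hj hjm => ?_⟩
      · have := inc_le hs (show j ≤ k - 1 by omega) (by omega)
        linarith
      · have := inc_le hs hj hjm
        linarith

/-- two points of an open component lie in an open interval without exceptional points -/
lemma op_int (m : ℕ) (s : ℕ → ℝ) (hs : Inc m s) (k : ℕ) (hk : k ≤ m) (σ τ : ℝ)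
    (hσ : Op m s k σ) (hτ : Op m s k τ) :
    ∃ a b, a < σ ∧ a < τ ∧ σ < b ∧ τ < b ∧ ∀ j, j < m → ¬ (a < s j ∧ s j < b) := by
  have hA : ∃ a, a < σ ∧ a < τ ∧ ∀ j, j < k → j < m → s j ≤ a := by
    rcases Nat.eq_zero_or_pos k with h0 | h0
    · exact ⟨min σ τ - 1, by linarith [min_le_left σ τ], by linarith [min_le_right σ τ],
        fun j hj _ => by omega⟩
    · exact ⟨s (k - 1), hσ.1 _ (by omega) (by omega), hτ.1 _ (by omega) (by omega),
        fun j hj _ => inc_le hs (by omega) (by omega)⟩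
  have hB : ∃ b, σ < b ∧ τ < b ∧ ∀ j, k ≤ j → j < m → b ≤ s j := by
    rcases Nat.eq_or_lt_of_le hk with h1 | h1
    · exact ⟨max σ τ + 1, by linarith [le_max_left σ τ], by linarith [le_max_right σ τ],
        fun j hj _ => by omega⟩
    · exact ⟨s k, hσ.2 _ le_rfl h1, hτ.2 _ le_rfl h1, fun j hj hjm => inc_le hs hj hjm⟩
  obtain ⟨a, h1, h2, h3⟩ := hA
  obtain ⟨b, h4, h5, h6⟩ := hB
  refine ⟨a, b, h1, h2, h4, h5, fun j hj hh => ?_⟩
  rcases Nat.lt_or_ge j k with h | h
  · linarith [h3 j h hj, hh.1]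
  · linarith [h6 j h hj, hh.2]

lemma bdd (K : Set Pl) (hK : IsCompact K) (σ : ℝ) :
    BddAbove ((fun z : Pl => z.1 - σ * z.2) '' K) := by
  apply (hK.image _).bddAbove
  fun_prop

/-- the extreme point of a component -/
lemma key (K : Set Pl) (hK : IsCompact K) (hne : K.Nonempty) (m : ℕ) (s : ℕ → ℝ) (hs : Inc m s)
    (ha : AffOff m s (rs K)) (k : ℕ) (hk : k ≤ m) :
    ∃ W ∈ K, ∀ σ, Cl m s k σ → ∀ z ∈ K, z.1 - σ * z.2 ≤ W.1 - σ * W.2 := by
  obtain ⟨σ0, h0⟩ := op_ex m s hs k hk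
  obtain ⟨W, hW, hmax⟩ := hK.exists_isMaxOn hne
    (f := fun z : Pl => z.1 - σ0 * z.2) (by fun_prop)
  have hge : ∀ σ, W.1 - σ * W.2 ≤ rs K σ := fun σ => le_csSup (bdd K hK σ) ⟨W, hW, rfl⟩
  have heq : rs K σ0 = W.1 - σ0 * W.2 := by
    apply le_antisymm
    · apply csSup_le (hne.image _)
      rintro _ ⟨z, hz, rfl⟩
      exact hmax hz
    · exact hge σ0
  -- the open component
  have hop : ∀ σ, Op m s k σ → rs K σ = W.1 - σ * W.2 := by
    intro σ hσ
    obtain ⟨a, b, h1, h2, h3, h4, h5⟩ := op_int m s hs k hk σ σ0 hσ h0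
    obtain ⟨c, d, hcd⟩ := ha a b (by linarith) h5
    obtain ⟨ε, hε, he1, he2⟩ : ∃ ε : ℝ, 0 < ε ∧ a < σ0 - ε ∧ σ0 + ε < b := by
      refine ⟨min ((σ0 - a) / 2) ((b - σ0) / 2), lt_min (by linarith) (by linarith), ?_, ?_⟩
      · linarith [min_le_left ((σ0 - a) / 2) ((b - σ0) / 2)]
      · linarith [min_le_right ((σ0 - a) / 2) ((b - σ0) / 2)]
    have g0 : c + d * σ0 = W.1 - σ0 * W.2 := by
      rw [← hcd σ0 ⟨h2, h4⟩, heq]
    have g1 := hge (σ0 - ε)
    rw [hcd (σ0 - ε) ⟨he1, by linarith⟩] at g1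
    have g2 := hge (σ0 + ε)
    rw [hcd (σ0 + ε) ⟨by linarith, he2⟩] at g2
    have hB1 : 0 ≤ (d + W.2) * ε := by nlinarith
    have hB2 : (d + W.2) * ε ≤ 0 := by nlinarith
    have hB : d + W.2 = 0 := by
      have h6 : (d + W.2) * ε = 0 := le_antisymm hB2 hB1
      rcases mul_eq_zero.mp h6 with h7 | h7
      · exact h7
      · exact absurd h7 hε.ne'
    rw [hcd σ ⟨h1, h3⟩]
    have hd : d = - W.2 := by linarith
    subst hd
    linarith
  refine ⟨W, hW, fun σ hσ z hz => ?_⟩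
  by_contra hlt
  rw [not_le] at hlt
  have hle : ∀ τ, Op m s k τ → z.1 - τ * z.2 ≤ W.1 - τ * W.2 := fun τ hτ => by
    rw [← hop τ hτ]
    exact le_csSup (bdd K hK τ) ⟨z, hz, rfl⟩
  have hmix : ∀ t, 0 < t → t ≤ 1 → Op m s k ((1 - t) * σ + t * σ0) := by
    intro t ht0 ht1
    refine ⟨fun j hj hjm => ?_, fun j hj hjm => ?_⟩
    · have h1 := hσ.1 j hj hjm
      have h2 := h0.1 j hj hjm
      nlinarith
    · have h1 := hσ.2 j hj hjm
      have h2 := h0.2 j hj hjm
      nlinarith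
  set x := (z.1 - σ * z.2) - (W.1 - σ * W.2) with hx
  set y := (W.1 - σ0 * W.2) - (z.1 - σ0 * z.2) with hy
  have hx0 : 0 < x := by rw [hx]; linarith
  have hy0 : 0 ≤ y := by
    have := hle σ0 h0
    rw [hy]; linarith
  have hxy : 0 < x + y := by linarith
  set t := x / (2 * (x + y)) with ht
  have ht0 : 0 < t := by positivity
  have ht2 : t * (x + y) = x / 2 := by rw [ht]; field_simp
  have ht1 : t ≤ 1 := by
    rw [ht, div_le_one (by positivity)]; linarith
  have h1 := hle _ (hmix t ht0 ht1)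
  have h2 : (z.1 - ((1 - t) * σ + t * σ0) * z.2) - (W.1 - ((1 - t) * σ + t * σ0) * W.2)
      = x - t * (x + y) := by
    rw [hx, hy]; ring
  rw [ht2] at h2
  linarith

/-- the chain of extreme points -/
lemma chain (K : Set Pl) (hK : IsCompact K) (hne : K.Nonempty) (m : ℕ) (s : ℕ → ℝ) (hs : Inc m s)
    (ha : AffOff m s (rs K)) :
    ∃ W : ℕ → Pl, (∀ k, k ≤ m → W k ∈ K) ∧
      (∀ k, k < m → ∀ z ∈ K, z.1 - s k * z.2 ≤ (W k).1 - s k * (W k).2) ∧
      (∀ k, k < m → 0 ≤ (W k).2 - (W (k + 1)).2 ∧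
        (W k).1 - (W (k + 1)).1 = ((W k).2 - (W (k + 1)).2) * s k) ∧
      (∀ z ∈ K, z.2 ≤ (W 0).2 ∧ (W m).2 ≤ z.2) ∧
      (∀ z ∈ K, z.2 = (W 0).2 → z.1 ≤ (W 0).1) ∧
      (∀ z ∈ K, z.2 = (W m).2 → z.1 ≤ (W m).1) := by
  have hex : ∀ k, ∃ W : Pl, k ≤ m → W ∈ K ∧
      ∀ σ, Cl m s k σ → ∀ z ∈ K, z.1 - σ * z.2 ≤ W.1 - σ * W.2 := by
    intro k
    by_cases hk : k ≤ m
    · obtain ⟨W, h1, h2⟩ := key K hK hne m s hs ha k hk
      exact ⟨W, fun _ => ⟨h1, h2⟩⟩
    · exact ⟨0, fun h => absurd h hk⟩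
  choose W hW using hex
  have hop : ∀ k σ, Op m s k σ → Cl m s k σ := fun k σ h =>
    ⟨fun j hj hjm => (h.1 j hj hjm).le, fun j hj hjm => (h.2 j hj hjm).le⟩
  have hc1 : ∀ k, k < m → Cl m s k (s k) := fun k hk =>
    ⟨fun j hj _ => (hs j k hj hk).le, fun j hj hjm => inc_le hs hj hjm⟩
  have hc2 : ∀ k, k < m → Cl m s (k + 1) (s k) := fun k hk =>
    ⟨fun j hj _ => inc_le hs (by omega) hk, fun j hj hjm => inc_le hs (by omega) hjm⟩
  have heq : ∀ k, k < m → (W k).1 - (W (k + 1)).1 = ((W k).2 - (W (k + 1)).2) * s k := by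
    intro k hk
    have h1 := (hW k hk.le).2 _ (hc1 k hk) (W (k + 1)) (hW (k + 1) hk).1
    have h2 := (hW (k + 1) hk).2 _ (hc2 k hk) (W k) (hW k hk.le).1
    linarith
  refine ⟨W, fun k hk => (hW k hk).1, fun k hk => (hW k hk.le).2 _ (hc1 k hk),
    fun k hk => ⟨?_, heq k hk⟩, fun z hz => ⟨?_, ?_⟩, fun z hz h => ?_, fun z hz h => ?_⟩
  · obtain ⟨σ, hσ⟩ := op_ex m s hs (k + 1) hk
    have h1 := (hW (k + 1) hk).2 σ (hop _ _ hσ) (W k) (hW k hk.le).1
    have h2 := heq k hk
    have h3 := hσ.1 k (by omega) hk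
    by_contra h4
    rw [not_le] at h4
    nlinarith
  · by_contra hlt
    rw [not_le] at hlt
    obtain ⟨σ, hσ⟩ := op_ex m s hs 0 (Nat.zero_le m)
    set δ := z.2 - (W 0).2 with hδ
    have hδ0 : 0 < δ := by rw [hδ]; linarith
    set A := |(W 0).1 - z.1 + σ * δ| / δ + 1 with hA
    have hA0 : 0 < A := by positivity
    have hcl : Cl m s 0 (σ - A) :=
      ⟨fun j hj _ => by omega, fun j hj hjm => by linarith [hσ.2 j hj hjm]⟩
    have h1 := (hW 0 (Nat.zero_le m)).2 _ hcl z hz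
    have h2 : A * δ = |(W 0).1 - z.1 + σ * δ| + δ := by rw [hA]; field_simp
    have h3 : A * δ ≤ (W 0).1 - z.1 + σ * δ := by rw [hδ]; nlinarith
    linarith [le_abs_self ((W 0).1 - z.1 + σ * δ)]
  · by_contra hlt
    rw [not_le] at hlt
    obtain ⟨σ, hσ⟩ := op_ex m s hs m le_rfl
    set δ := (W m).2 - z.2 with hδ
    have hδ0 : 0 < δ := by rw [hδ]; linarith
    set A := |(W m).1 - z.1 - σ * δ| / δ + 1 with hA
    have hA0 : 0 < A := by positivity
    have hcl : Cl m s m (σ + A) :=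
      ⟨fun j hj hjm => by linarith [hσ.1 j hj hjm], fun j hj hjm => by omega⟩
    have h1 := (hW m le_rfl).2 _ hcl z hz
    have h2 : A * δ = |(W m).1 - z.1 - σ * δ| + δ := by rw [hA]; field_simp
    have h3 : A * δ ≤ (W m).1 - z.1 - σ * δ := by rw [hδ]; nlinarith
    linarith [le_abs_self ((W m).1 - z.1 - σ * δ)]
  · obtain ⟨σ, hσ⟩ := op_ex m s hs 0 (Nat.zero_le m)
    have h1 := (hW 0 (Nat.zero_le m)).2 σ (hop _ _ hσ) z hz
    rw [h] at h1
    linarith
  · obtain ⟨σ, hσ⟩ := op_ex m s hs m le_rfl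
    have h1 := (hW m le_rfl).2 σ (hop _ _ hσ) z hz
    rw [h] at h1
    linarith

lemma piece (a : ℕ → ℝ) : ∀ m, 0 < m → ∀ t, 0 ≤ t → t ≤ Yp a m →
    ∃ k, k < m ∧ Yp a k ≤ t ∧ t ≤ Yp a (k + 1) := by
  intro m
  induction m with
  | zero => intro h; exact absurd h (lt_irrefl 0)
  | succ n ih =>
    intro _ t ht0 ht
    rcases Nat.eq_zero_or_pos n with h0 | h0
    · subst h0
      exact ⟨0, by omega, by simpa [Yp] using ht0, ht⟩
    · rcases le_or_gt t (Yp a n) with h1 | h1
      · obtain ⟨k, hk, h2, h3⟩ := ih h0 t ht0 h1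
        exact ⟨k, by omega, h2, h3⟩
      · exact ⟨n, by omega, h1.le, ht⟩

lemma segm (K : Set Pl) (hK : Convex ℝ K) (P Q : Pl) (hP : P ∈ K) (hQ : Q ∈ K) (σ h : ℝ)
    (h1 : Q.1 - P.1 = (Q.2 - P.2) * σ) (h2 : P.2 ≤ h) (h3 : h ≤ Q.2) :
    ((P.1 + σ * (h - P.2), h) : Pl) ∈ K := by
  rcases eq_or_lt_of_le (le_trans h2 h3) with h4 | h4
  · have h5 : h = P.2 := by linarith
    have : ((P.1 + σ * (h - P.2), h) : Pl) = P := by
      ext <;> simp [h5]
    rw [this]; exact hP
  · set ρ := Q.2 - P.2 with hρ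
    have hρ0 : 0 < ρ := by rw [hρ]; linarith
    set θ := (h - P.2) / ρ with hθ
    have hθρ : θ * ρ = h - P.2 := by rw [hθ]; field_simp
    have hθ0 : 0 ≤ θ := div_nonneg (by linarith) hρ0.le
    have hθ1 : θ ≤ 1 := by rw [hθ, div_le_one hρ0, hρ]; linarith
    have h6 := hK hP hQ (show 0 ≤ 1 - θ by linarith) hθ0 (by ring)
    have : ((P.1 + σ * (h - P.2), h) : Pl) = (1 - θ) • P + θ • Q := by
      ext
      · simp only [Prod.fst_add, Prod.smul_fst, smul_eq_mul]
        linear_combination (-σ) * hθρ - θ * h1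
      · simp only [Prod.snd_add, Prod.smul_snd, smul_eq_mul]
        linear_combination (-1) * hθρ + θ * hρ
    rw [this]; exact h6

lemma segm_h (K : Set Pl) (hK : Convex ℝ K) (a b h : ℝ) (ha : ((a, h) : Pl) ∈ K)
    (hb : ((b, h) : Pl) ∈ K) (x : ℝ) (h1 : a ≤ x) (h2 : x ≤ b) : ((x, h) : Pl) ∈ K := by
  rcases eq_or_lt_of_le (le_trans h1 h2) with h4 | h4
  · have : x = a := by linarith
    rw [this]; exact ha
  · set θ := (x - a) / (b - a) with hθ
    have hba : 0 < b - a := by linarith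
    have hθρ : θ * (b - a) = x - a := by rw [hθ]; field_simp
    have hθ0 : 0 ≤ θ := div_nonneg (by linarith) hba.le
    have hθ1 : θ ≤ 1 := by rw [hθ, div_le_one hba]; linarith
    have h6 := hK ha hb (show 0 ≤ 1 - θ by linarith) hθ0 (by ring)
    have : ((x, h) : Pl) = (1 - θ) • ((a, h) : Pl) + θ • ((b, h) : Pl) := by
      ext
      · simp only [Prod.fst_add, Prod.smul_fst, smul_eq_mul]
        linear_combination (-1) * hθρ
      · simp only [Prod.snd_add, Prod.smul_snd, smul_eq_mul]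
        ring
    rw [this]; exact h6

/-- sums of the chain -/
lemma sums (W : ℕ → Pl) (s : ℕ → ℝ) (m : ℕ)
    (h : ∀ k, k < m → (W k).1 - (W (k + 1)).1 = ((W k).2 - (W (k + 1)).2) * s k) :
    ∀ k, k ≤ m → Yp (fun j => (W j).2 - (W (j + 1)).2) k = (W 0).2 - (W k).2 ∧
      Xp s (fun j => (W j).2 - (W (j + 1)).2) k = (W 0).1 - (W k).1 := by
  intro k
  induction k with
  | zero => intro _; simp [Yp, Xp]
  | succ n ih =>
    intro hn
    obtain ⟨h1, h2⟩ := ih (by omega)
    refine ⟨?_, ?_⟩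
    · rw [Yp, Finset.sum_range_succ, ← Yp, h1]; ring
    · rw [Xp, Finset.sum_range_succ, ← Xp, h2]
      have := h n (by omega)
      linarith

lemma refl_ls (K : Set Pl) : rs (refl K) = ls K := by
  funext σ
  unfold rs ls refl
  rw [Set.image_image]
  congr 1
  apply Set.image_congr
  intro z _
  simp only [Prod.fst_neg, Prod.snd_neg]
  ring

end FNCM

open FNCM in
theorem specFNC (hCHA : SpecCHA) (_hBOD : SpecBOD) : SpecFNC := by
  intro K hK hint m s hs har hal
  obtain ⟨hcv, hcp⟩ := hK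
  have hne : K.Nonempty := hint.mono interior_subset
  -- two points of `K` at different heights
  obtain ⟨z0, hz0, z1, hz1, hz01⟩ : ∃ z0 ∈ K, ∃ z1 ∈ K, z0.2 < z1.2 := by
    obtain ⟨z, hz⟩ := hint
    rw [mem_interior_iff_mem_nhds, Metric.mem_nhds_iff] at hz
    obtain ⟨ε, hε, hb⟩ := hz
    refine ⟨z, hb (Metric.mem_ball_self hε), (z.1, z.2 + ε / 2), hb ?_, by simp; linarith⟩
    rw [Metric.mem_ball, Prod.dist_eq, max_lt_iff]
    refine ⟨by simp [hε], ?_⟩
    simp only [Real.dist_eq, add_sub_cancel_left]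
    rw [abs_of_pos (by linarith)]
    linarith
  obtain ⟨W, hW1, hW2, hW3, hW4, hW5, hW6⟩ := chain K hcp hne m s hs har
  have hrc : IsCompact (refl K) := hcp.image (by fun_prop)
  have hrn : (refl K).Nonempty := hne.image _
  have hra : AffOff m s (rs (refl K)) := by rw [refl_ls]; exact hal
  obtain ⟨U, hU1, hU2, hU3, hU4, hU5, hU6⟩ := chain (refl K) hrc hrn m s hs hra
  -- the left chain
  have hmem : ∀ z, z ∈ K → -z ∈ refl K := fun z hz => ⟨z, hz, rfl⟩
  have hV1 : ∀ k, k ≤ m → -U k ∈ K := by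
    intro k hk
    obtain ⟨z, hz, h⟩ := hU1 k hk
    have : -U k = z := by rw [← h]; simp
    rw [this]; exact hz
  have hV2 : ∀ k, k < m → ∀ z ∈ K, -(U k).1 + s k * (U k).2 ≤ z.1 - s k * z.2 := by
    intro k hk z hz
    have := hU2 k hk _ (hmem z hz)
    simp only [Prod.fst_neg, Prod.snd_neg] at this
    linarith
  have hV4 : ∀ z ∈ K, -(U 0).2 ≤ z.2 ∧ z.2 ≤ -(U m).2 := by
    intro z hz
    have := hU4 _ (hmem z hz)
    simp only [Prod.snd_neg] at this
    exact ⟨by linarith [this.1], by linarith [this.2]⟩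
  have hV5 : ∀ z ∈ K, z.2 = -(U 0).2 → -(U 0).1 ≤ z.1 := by
    intro z hz h
    have := hU5 _ (hmem z hz) (by simp only [Prod.snd_neg]; linarith)
    simp only [Prod.fst_neg] at this
    linarith
  have hV6 : ∀ z ∈ K, z.2 = -(U m).2 → -(U m).1 ≤ z.1 := by
    intro z hz h
    have := hU6 _ (hmem z hz) (by simp only [Prod.snd_neg]; linarith)
    simp only [Prod.fst_neg] at this
    linarith
  have htop : (W 0).2 = -(U m).2 := by
    apply le_antisymm
    · exact (hV4 _ (hW1 0 (Nat.zero_le m))).2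
    · have := (hW4 _ (hV1 m le_rfl)).1
      simpa using this
  have hbot : (W m).2 = -(U 0).2 := by
    apply le_antisymm
    · have := (hW4 _ (hV1 0 (Nat.zero_le m))).2
      simpa using this
    · exact (hV4 _ (hW1 m le_rfl)).1
  have hsW := sums W s m (fun k hk => (hW3 k hk).2)
  have hsU := sums U s m (fun k hk => (hU3 k hk).2)
  set r : ℕ → ℝ := fun j => (W j).2 - (W (j + 1)).2 with hr
  set l : ℕ → ℝ := fun j => (U j).2 - (U (j + 1)).2 with hl
  set w := (W 0).2 + (U 0).2 with hw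
  have hw0 : 0 < w := by
    have h1 := (hW4 z1 hz1).1
    have h2 := (hV4 z0 hz0).1
    rw [hw]; linarith
  have hrm : Yp r m = w := by rw [(hsW m le_rfl).1, hw, hbot]; ring
  have hlm : Yp l m = w := by rw [(hsU m le_rfl).1, hw, htop]; ring
  have hr0 : ∀ j, j < m → 0 ≤ r j := fun j hj => (hW3 j hj).1
  have hl0 : ∀ j, j < m → 0 ≤ l j := fun j hj => (hU3 j hj).1
  have hm0 : 0 < m := by
    rcases Nat.eq_zero_or_pos m with h | h
    · exfalso
      rw [h] at hrm
      simp [Yp] at hrm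
      linarith
    · exact h
  let D : Data := ⟨m, s, r, l, (W 0).1 + (U m).1, (W m).1 + (U 0).1, w⟩
  have hL : ∀ y, 0 ≤ y → y ≤ w → ∃ k, k < m ∧ -(U k).2 ≤ y - (U 0).2 ∧
      y - (U 0).2 ≤ -(U (k + 1)).2 ∧ D.L y = (U 0).1 - (U k).1 + s k * (y - ((U 0).2 - (U k).2)) := by
    intro y h0 h1
    obtain ⟨k, hk, h2, h3⟩ := piece l m hm0 y h0 (by rw [hlm]; exact h1)
    have h4 := (hCHA m l hl0).2.2.2.1 s k hk y ⟨h2, h3⟩
    rw [(hsU k hk.le).1] at h2 h4
    rw [(hsU (k + 1) hk).1] at h3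
    rw [(hsU k hk.le).2] at h4
    exact ⟨k, hk, by linarith, by linarith, h4⟩
  have hR : ∀ y, 0 ≤ y → y ≤ w → ∃ k, k < m ∧ y - (U 0).2 ≤ (W k).2 ∧
      (W (k + 1)).2 ≤ y - (U 0).2 ∧
      D.R y = (U 0).1 + (W k).1 - s k * ((W k).2 - (y - (U 0).2)) := by
    intro y h0 h1
    obtain ⟨k, hk, h2, h3⟩ := piece r m hm0 (w - y) (by linarith) (by rw [hrm]; linarith)
    have h4 := (hCHA m r hr0).2.2.2.1 s k hk (w - y) ⟨h2, h3⟩
    rw [(hsW k hk.le).1] at h2 h4
    rw [(hsW (k + 1) hk).1] at h3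
    rw [(hsW k hk.le).2] at h4
    refine ⟨k, hk, by linarith, by linarith, ?_⟩
    show (W m).1 + (U 0).1 + Xp s r m - ch m s r (w - y) = _
    rw [h4, (hsW m le_rfl).2, hw]
    ring
  refine ⟨D, ?_, rfl, rfl, -U 0, ?_⟩
  · refine ⟨hs, hr0, hl0, ?_, ?_, hw0, hrm, hlm, ?_⟩
    · show 0 ≤ (W 0).1 + (U m).1
      have := hW5 _ (hV1 m le_rfl) (by simp only [Prod.snd_neg]; linarith)
      simp only [Prod.fst_neg] at this
      linarith
    · show 0 ≤ (W m).1 + (U 0).1
      have := hW6 _ (hV1 0 (Nat.zero_le m)) (by simp only [Prod.snd_neg]; linarith)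
      simp only [Prod.fst_neg] at this
      linarith
    · show (W m).1 + (U 0).1 + Xp s r m = (W 0).1 + (U m).1 + Xp s l m
      rw [(hsW m le_rfl).2, (hsU m le_rfl).2]
      ring
  · apply Set.Subset.antisymm
    · intro z hz
      refine ⟨z + U 0, ?_, by simp⟩
      have h1 := (hV4 z hz).1
      have h2 := (hW4 z hz).1
      show 0 ≤ (z + U 0).2 ∧ (z + U 0).2 ≤ w ∧ D.L (z + U 0).2 ≤ (z + U 0).1 ∧
        (z + U 0).1 ≤ D.R (z + U 0).2
      simp only [Prod.fst_add, Prod.snd_add]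
      have h3 : 0 ≤ z.2 + (U 0).2 := by linarith
      have h4 : z.2 + (U 0).2 ≤ w := by rw [hw]; linarith
      refine ⟨h3, h4, ?_, ?_⟩
      · obtain ⟨k, hk, _, _, h5⟩ := hL _ h3 h4
        rw [h5]
        have := hV2 k hk z hz
        linarith
      · obtain ⟨k, hk, _, _, h5⟩ := hR _ h3 h4
        rw [h5]
        have := hW2 k hk z hz
        linarith
    · rintro _ ⟨x, hx, rfl⟩
      obtain ⟨h1, h2, h3, h4⟩ := hx
      obtain ⟨k, hk, a1, a2, a3⟩ := hL _ h1 h2
      obtain ⟨j, hj, b1, b2, b3⟩ := hR _ h1 h2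
      have hA := segm K hcv (-U k) (-U (k + 1)) (hV1 k hk.le) (hV1 (k + 1) hk) (s k)
        (x.2 - (U 0).2) (by
          simp only [Prod.fst_neg, Prod.snd_neg]
          have := (hU3 k hk).2
          linarith) (by simpa using a1) (by simpa using a2)
      have hB := segm K hcv (W (j + 1)) (W j) (hW1 (j + 1) hj) (hW1 j hj.le) (s j)
        (x.2 - (U 0).2) (hW3 j hj).2 b2 b1
      have hC := segm_h K hcv _ _ _ hA hB (x.1 - (U 0).1) ?_ ?_
      · have : x + -U 0 = ((x.1 - (U 0).1, x.2 - (U 0).2) : Pl) := by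
          ext <;> simp <;> ring
        show x + -U 0 ∈ K
        rw [this]; exact hC
      · simp only [Prod.fst_neg, Prod.snd_neg]
        rw [a3] at h3
        linarith
      · rw [b3] at h4
        have := (hW3 j hj).2
        linarith

end Pool.MP671
end

section
/-!
# MP_671ac3_gt, module FRM: change of frame
-/
set_option autoImplicit false

namespace Pool.MP671

namespace FRM

/-- the square of the norm -/
theorem q_pos {v : Pl} (hv : v ≠ 0) : 0 < v.1 ^ 2 + v.2 ^ 2 := by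
  by_contra hcon
  push Not at hcon
  have h1 : v.1 = 0 := by nlinarith [sq_nonneg v.1, sq_nonneg v.2]
  have h2 : v.2 = 0 := by nlinarith [sq_nonneg v.1, sq_nonneg v.2]
  exact hv (Prod.ext h1 h2)

/-- `mul v` as a linear map -/
def mulL (v : Pl) : Pl →ₗ[ℝ] Pl where
  toFun := mul v
  map_add' x y := by
    unfold mul
    ext <;> simp <;> ring
  map_smul' c x := by
    unfold mul
    ext <;> simp <;> ring

/-- the inverse -/
noncomputable def inv (v z : Pl) : Pl :=
  mul (v.1 / (v.1 ^ 2 + v.2 ^ 2), - v.2 / (v.1 ^ 2 + v.2 ^ 2)) z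

theorem inv_mul {v : Pl} (hv : v ≠ 0) (z : Pl) : inv v (mul v z) = z := by
  have h := (q_pos hv).ne'
  unfold inv mul
  ext
  · simp only
    field_simp
    ring
  · simp only
    field_simp
    ring

theorem mul_inv {v : Pl} (hv : v ≠ 0) (z : Pl) : mul v (inv v z) = z := by
  have h := (q_pos hv).ne'
  unfold inv mul
  ext
  · simp only
    field_simp
    ring
  · simp only
    field_simp
    ring

/-- `mul v` as a linear equivalence -/
noncomputable def mulE {v : Pl} (hv : v ≠ 0) : Pl ≃ₗ[ℝ] Pl :=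
  { mulL v with
    invFun := inv v
    left_inv := inv_mul hv
    right_inv := mul_inv hv }

theorem mulE_apply {v : Pl} (hv : v ≠ 0) (z : Pl) : mulE hv z = mul v z := rfl

/-- `mul v` as a homeomorphism -/
noncomputable def mulH {v : Pl} (hv : v ≠ 0) : Pl ≃ₜ Pl :=
  (mulE hv).toContinuousLinearEquiv.toHomeomorph

theorem mulH_coe {v : Pl} (hv : v ≠ 0) : (mulH hv : Pl → Pl) = mul v := rfl

theorem inj {v : Pl} (hv : v ≠ 0) : Function.Injective (mul v) := (mulE hv).injective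

theorem surj {v : Pl} (hv : v ≠ 0) : Function.Surjective (mul v) := (mulE hv).surjective

theorem mul_add (v x y : Pl) : mul v (x + y) = mul v x + mul v y := (mulL v).map_add x y

theorem mul_sub (v x y : Pl) : mul v (x - y) = mul v x - mul v y := (mulL v).map_sub x y

theorem mul_neg (v x : Pl) : mul v (-x) = - mul v x := (mulL v).map_neg x

theorem mul_smul (v : Pl) (c : ℝ) (x : Pl) : mul v (c • x) = c • mul v x := (mulL v).map_smul c x

theorem mul_zero (v : Pl) : mul v 0 = 0 := (mulL v).map_zero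

theorem im_tr (v t : Pl) (A : Set Pl) : mul v '' tr t A = tr (mul v t) (mul v '' A) := by
  unfold tr
  rw [Set.image_image, Set.image_image]
  apply Set.image_congr
  intro z _
  exact mul_add v z t

theorem im_refl (v : Pl) (A : Set Pl) : mul v '' refl A = refl (mul v '' A) := by
  unfold refl
  rw [Set.image_image, Set.image_image]
  apply Set.image_congr
  intro z _
  exact mul_neg v z

theorem im_fr {v : Pl} (hv : v ≠ 0) (K : Set Pl) : mul v '' fr v K = K :=
  Set.image_preimage_eq K (surj hv)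

theorem im_cc {v : Pl} {A : Set Pl} (h : CC A) : CC (mul v '' A) := by
  refine ⟨h.1.linear_image (mulL v), h.2.image ?_⟩
  exact (LinearMap.continuous_of_finiteDimensional (mulL v))

theorem crs_mul (v x y : Pl) : crs (mul v x) (mul v y) = (v.1 ^ 2 + v.2 ^ 2) * crs x y := by
  unfold crs mul
  simp only
  ring

end FRM

/-- FRM -/
theorem specFRM : SpecFRM := by
  intro v hv
  refine ⟨?_, ?_, ?_, ?_, ?_, ?_, ?_, ?_, ?_, ?_⟩
  · intro φ h
    refine ⟨?_, ?_, ?_, ?_, ?_, ?_⟩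
    · unfold frφ
      rw [Set.image_empty]
      exact h.empty
    · intro A C hA hC hAC
      unfold frφ
      rw [Set.image_union, Set.image_inter (FRM.inj hv)]
      apply h.val _ _ (FRM.im_cc hA) (FRM.im_cc hC)
      rw [← Set.image_union]
      exact FRM.im_cc hAC
    · intro A t hA
      unfold frφ
      rw [FRM.im_tr]
      exact h.trans _ _ (FRM.im_cc hA)
    · intro A hA
      unfold frφ
      rw [FRM.im_refl]
      exact h.even _ (FRM.im_cc hA)
    · intro A C hA hC hAC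
      exact h.mono _ _ (FRM.im_cc hA) (FRM.im_cc hC) (Set.image_mono hAC)
    · intro z
      unfold frφ
      rw [Set.image_singleton]
      exact h.sing _
  · intro φ K x
    unfold cov frφ
    rw [Set.image_inter (FRM.inj hv), FRM.im_tr, FRM.im_fr hv]
  · intro φ u
    unfold nrm frφ
    have h1 := image_segment ℝ (FRM.mulL v).toAffineMap 0 u
    have h2 : mul v '' segment ℝ 0 u = segment ℝ 0 (mul v u) := by
      have h3 : ((FRM.mulL v).toAffineMap : Pl → Pl) = mul v := rfl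
      rw [h3, FRM.mul_zero] at h1
      exact h1
    rw [h2]
  · intro K hK
    refine ⟨hK.1.linear_preimage (FRM.mulL v), ?_⟩
    have := (FRM.mulH hv).isCompact_preimage.mpr hK.2
    exact this
  · intro K hK
    have h1 := (FRM.mulH hv).preimage_interior K
    rw [FRM.mulH_coe] at h1
    unfold fr
    rw [← h1]
    obtain ⟨z, hz⟩ := hK
    obtain ⟨w, rfl⟩ := FRM.surj hv z
    exact ⟨w, hz⟩
  · rintro K ⟨S, rfl⟩
    classical
    refine ⟨S.image (FRM.inv v), ?_⟩
    have h1 : fr v (convexHull ℝ (S : Set Pl)) =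
        (FRM.mulE hv).symm.toLinearMap '' (convexHull ℝ (S : Set Pl)) := by
      ext z
      constructor
      · intro hz
        exact ⟨mul v z, hz, FRM.inv_mul hv z⟩
      · rintro ⟨w, hw, rfl⟩
        show mul v (FRM.inv v w) ∈ convexHull ℝ (S : Set Pl)
        rw [FRM.mul_inv hv]
        exact hw
    rw [h1, LinearMap.image_convexHull, Finset.coe_image]
    rfl
  · intro K u
    unfold fl
    congr 1
    ext t
    have hq := FRM.q_pos hv
    constructor
    · rintro ⟨ht, z, hz, hzt, hy⟩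
      refine ⟨ht, mul v z, hz, ?_, ?_⟩
      · have : mul v (z + t • u) ∈ K := hzt
        rwa [FRM.mul_add, FRM.mul_smul] at this
      · intro y hyK
        obtain ⟨y, rfl⟩ := FRM.surj hv y
        rw [FRM.crs_mul, FRM.crs_mul]
        exact mul_le_mul_of_nonneg_left (hy y hyK) hq.le
    · rintro ⟨ht, z, hz, hzt, hy⟩
      obtain ⟨z, rfl⟩ := FRM.surj hv z
      refine ⟨ht, z, hz, ?_, ?_⟩
      · show mul v (z + t • u) ∈ K
        rw [FRM.mul_add, FRM.mul_smul]
        exact hzt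
      · intro y hyK
        have h1 := hy (mul v y) hyK
        rw [FRM.crs_mul, FRM.crs_mul] at h1
        exact le_of_mul_le_mul_left h1 hq
  · intro K H h
    have key : ∀ K : Set Pl, dif (fr v K) = fr v (dif K) := by
      intro K
      ext z
      constructor
      · rintro ⟨a, ha, b, hb, rfl⟩
        exact ⟨mul v a, ha, mul v b, hb, FRM.mul_sub v a b⟩
      · rintro ⟨a, ha, b, hb, hab⟩
        obtain ⟨a, rfl⟩ := FRM.surj hv a
        obtain ⟨b, rfl⟩ := FRM.surj hv b
        refine ⟨a, ha, b, hb, ?_⟩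
        apply FRM.inj hv
        rw [hab, FRM.mul_sub]
    rw [key, key, h]
  · intro K H c h
    have h1 : mul v '' fr v H = _ := congrArg (fun A => mul v '' A) h
    rw [FRM.im_fr hv, FRM.im_tr, FRM.im_fr hv] at h1
    exact h1
  · intro K H c h
    have h1 : mul v '' fr v H = _ := congrArg (fun A => mul v '' A) h
    rw [FRM.im_fr hv, FRM.im_tr, FRM.im_refl, FRM.im_fr hv] at h1
    exact h1

end Pool.MP671
end

section
/-!
# MP_671ac3_gt : module FUA
-/
namespace Pool.MP671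

open MeasureTheory

namespace FUAM

lemma deriv_min_left {f g : ℝ → ℝ} {y : ℝ} (hf : Continuous f) (hg : Continuous g)
    (h : f y < g y) : deriv (fun x => min (f x) (g x)) y = deriv f y := by
  apply Filter.EventuallyEq.deriv_eq
  have h1 : ∀ᶠ x in nhds y, f x < g x := (isOpen_lt hf hg).mem_nhds h
  filter_upwards [h1] with x hx
  exact min_eq_left hx.le

lemma deriv_max_left {f g : ℝ → ℝ} {y : ℝ} (hf : Continuous f) (hg : Continuous g)
    (h : g y < f y) : deriv (fun x => max (f x) (g x)) y = deriv f y := by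
  apply Filter.EventuallyEq.deriv_eq
  have h1 : ∀ᶠ x in nhds y, g x < f x := (isOpen_lt hg hf).mem_nhds h
  filter_upwards [h1] with x hx
  exact max_eq_left hx.le

lemma deriv_min_right {f g : ℝ → ℝ} {y : ℝ} (hf : Continuous f) (hg : Continuous g)
    (h : g y < f y) : deriv (fun x => min (f x) (g x)) y = deriv g y := by
  apply Filter.EventuallyEq.deriv_eq
  have h1 : ∀ᶠ x in nhds y, g x < f x := (isOpen_lt hg hf).mem_nhds h
  filter_upwards [h1] with x hx
  exact min_eq_right hx.le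

lemma deriv_max_right {f g : ℝ → ℝ} {y : ℝ} (hf : Continuous f) (hg : Continuous g)
    (h : f y < g y) : deriv (fun x => max (f x) (g x)) y = deriv g y := by
  apply Filter.EventuallyEq.deriv_eq
  have h1 : ∀ᶠ x in nhds y, f x < g x := (isOpen_lt hf hg).mem_nhds h
  filter_upwards [h1] with x hx
  exact max_eq_right hx.le

lemma deriv_shift (f : ℝ → ℝ) (t ξ y : ℝ) :
    deriv (fun x => f (x - t) + ξ) y = deriv f (y - t) := by
  rw [deriv_add_const, deriv_comp_sub_const]

end FUAM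

theorem specFUA (hBOD : SpecBOD) : SpecFUA := by
  intro D hD n t ht htw
  obtain ⟨-, -, -, -, -, -, hLR, -, ⟨CL, hCL⟩, ⟨CR, hCR⟩, -⟩ := hBOD D hD
  have hL : Continuous D.L := hCL.continuous
  have hR : Continuous D.R := hCR.continuous
  have hLt : ∀ ξ, Continuous (fun x => D.L (x - t) + ξ) := fun ξ => by fun_prop
  have hRt : ∀ ξ, Continuous (fun x => D.R (x - t) + ξ) := fun ξ => by fun_prop
  rw [ae_restrict_iff' measurableSet_Icc]
  refine Filter.Eventually.of_forall fun y hy => ?_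
  have h1 : D.L y ≤ D.R y := hLR y ⟨by linarith [hy.1], hy.2⟩
  have h2 : D.L (y - t) ≤ D.R (y - t) := hLR (y - t) ⟨by linarith [hy.1], by linarith [hy.2]⟩
  have hfin : ∀ᵐ ξ : ℝ, ξ ∉ ({D.L y - D.L (y - t), D.L y - D.R (y - t), D.R y - D.L (y - t),
      D.R y - D.R (y - t)} : Set ℝ) := (Set.toFinite _).countable.ae_notMem volume
  filter_upwards [hfin] with ξ hξ
  simp only [Set.mem_insert_iff, Set.mem_singleton_iff, not_or] at hξ
  obtain ⟨n1, n2, n3, n4⟩ := hξ
  have hup : ∀ x, D.up ξ t x = min (D.R x) (D.R (x - t) + ξ) := fun x => rfl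
  have hlo : ∀ x, D.lo ξ t x = max (D.L x) (D.L (x - t) + ξ) := fun x => rfl
  have hupf : D.up ξ t = fun x => min (D.R x) (D.R (x - t) + ξ) := rfl
  have hlof : D.lo ξ t = fun x => max (D.L x) (D.L (x - t) + ξ) := rfl
  unfold Data.Q ind
  rcases lt_or_gt_of_ne n2 with a2 | a2
  · -- `ξ < L y - R (y - t)`
    have hneg : ¬ D.lo ξ t y ≤ D.up ξ t y := by
      rw [hup, hlo, not_le]
      exact lt_of_le_of_lt (min_le_right _ _) (lt_of_lt_of_le (by linarith) (le_max_left _ _))
    rw [if_neg hneg, if_neg (by rintro ⟨h, -⟩; linarith), if_neg (by rintro ⟨h, -⟩; linarith),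
      if_neg (by rintro ⟨h, -⟩; linarith), if_neg (by rintro ⟨h, -⟩; linarith)]
    ring
  rcases lt_or_gt_of_ne n3 with a3 | a3
  swap
  · -- `R y - L (y - t) < ξ`
    have hneg : ¬ D.lo ξ t y ≤ D.up ξ t y := by
      rw [hup, hlo, not_le]
      exact lt_of_le_of_lt (min_le_left _ _) (lt_of_lt_of_le (by linarith) (le_max_right _ _))
    rw [if_neg hneg, if_neg (by rintro ⟨-, h⟩; linarith), if_neg (by rintro ⟨-, h⟩; linarith),
      if_neg (by rintro ⟨-, h⟩; linarith), if_neg (by rintro ⟨-, h⟩; linarith)]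
    ring
  have hpos : D.lo ξ t y ≤ D.up ξ t y := by
    rw [hup, hlo]
    exact max_le (le_min h1 (by linarith)) (le_min (by linarith) (by linarith))
  rw [if_pos hpos]
  rcases lt_or_gt_of_ne n4 with a4 | a4
  · have d1 : deriv (D.up ξ t) y = deriv D.R (y - t) := by
      rw [hupf, FUAM.deriv_min_right hR (hRt ξ) (by show D.R (y - t) + ξ < D.R y; linarith),
        FUAM.deriv_shift]
    rcases lt_or_gt_of_ne n1 with a1 | a1
    · have d2 : deriv (D.lo ξ t) y = deriv D.L y := by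
        rw [hlof, FUAM.deriv_max_left hL (hLt ξ) (by show D.L (y - t) + ξ < D.L y; linarith)]
      rw [d1, d2, if_neg (by rintro ⟨h, -⟩; linarith), if_pos ⟨a2, a1⟩, if_pos ⟨a2, a4⟩,
        if_neg (by rintro ⟨h, -⟩; linarith)]
      ring
    · have d2 : deriv (D.lo ξ t) y = deriv D.L (y - t) := by
        rw [hlof, FUAM.deriv_max_right hL (hLt ξ) (by show D.L y < D.L (y - t) + ξ; linarith),
          FUAM.deriv_shift]
      rw [d1, d2, if_neg (by rintro ⟨h, -⟩; linarith), if_neg (by rintro ⟨-, h⟩; linarith),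
        if_pos ⟨a2, a4⟩, if_pos ⟨a1, a3⟩]
      ring
  · have d1 : deriv (D.up ξ t) y = deriv D.R y := by
      rw [hupf, FUAM.deriv_min_left hR (hRt ξ) (by show D.R y < D.R (y - t) + ξ; linarith)]
    rcases lt_or_gt_of_ne n1 with a1 | a1
    · have d2 : deriv (D.lo ξ t) y = deriv D.L y := by
        rw [hlof, FUAM.deriv_max_left hL (hLt ξ) (by show D.L (y - t) + ξ < D.L y; linarith)]
      rw [d1, d2, if_pos ⟨a4, a3⟩, if_pos ⟨a2, a1⟩, if_neg (by rintro ⟨-, h⟩; linarith),
        if_neg (by rintro ⟨h, -⟩; linarith)]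
      ring
    · have d2 : deriv (D.lo ξ t) y = deriv D.L (y - t) := by
        rw [hlof, FUAM.deriv_max_right hL (hLt ξ) (by show D.L y < D.L (y - t) + ξ; linarith),
          FUAM.deriv_shift]
      rw [d1, d2, if_pos ⟨a4, a3⟩, if_neg (by rintro ⟨-, h⟩; linarith),
        if_neg (by rintro ⟨-, h⟩; linarith), if_pos ⟨a1, a3⟩]
      ring

end Pool.MP671
end

section
/-!
# MP_671ac3_gt : module FUB
-/
namespace Pool.MP671

open MeasureTheory

namespace FUBM

/-- the integrand of COV -/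
noncomputable def E (D : Data) (n : ℝ → ℝ) (t ξ y : ℝ) : ℝ :=
  if D.lo ξ t y ≤ D.up ξ t y then n (deriv (D.lo ξ t) y) + n (deriv (D.up ξ t) y) else 0

theorem measurable_ind {f g : ℝ → ℝ} (hf : Continuous f) (hg : Continuous g) :
    Measurable (fun p : ℝ × ℝ => ind (f p.2) (g p.2) p.1) := by
  unfold ind
  refine Measurable.ite ?_ measurable_const measurable_const
  have h1 : IsOpen {p : ℝ × ℝ | f p.2 < p.1} := isOpen_lt (hf.comp continuous_snd) continuous_fst
  have h2 : IsOpen {p : ℝ × ℝ | p.1 < g p.2} := isOpen_lt continuous_fst (hg.comp continuous_snd)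
  exact (h1.inter h2).measurableSet

theorem abs_ind (a b ξ : ℝ) : |ind a b ξ| ≤ 1 := by
  unfold ind
  split_ifs <;> simp

theorem measurable_E (D : Data) (n : ℝ → ℝ) (hn : Continuous n) (hL : Continuous D.L)
    (hR : Continuous D.R) (t : ℝ) : Measurable (fun p : ℝ × ℝ => E D n t p.1 p.2) := by
  unfold E
  have hlo : Continuous (Function.uncurry (fun ξ y => D.lo ξ t y)) := by
    unfold Function.uncurry Data.lo
    fun_prop
  have hup : Continuous (Function.uncurry (fun ξ y => D.up ξ t y)) := by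
    unfold Function.uncurry Data.up
    fun_prop
  refine Measurable.ite ?_ ?_ measurable_const
  · exact (isClosed_le hlo hup).measurableSet
  · exact (hn.measurable.comp (measurable_deriv_with_param (f := fun ξ y => D.lo ξ t y) hlo)).add
      (hn.measurable.comp (measurable_deriv_with_param (f := fun ξ y => D.up ξ t y) hup))

theorem measurable_Q (D : Data) (n : ℝ → ℝ) (hn : Continuous n) (hL : Continuous D.L)
    (hR : Continuous D.R) (t : ℝ) : Measurable (fun p : ℝ × ℝ => D.Q n t p.1 p.2) := by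
  unfold Data.Q
  have m1 : Measurable (fun p : ℝ × ℝ => n (deriv D.R p.2)) :=
    hn.measurable.comp ((measurable_deriv D.R).comp measurable_snd)
  have m2 : Measurable (fun p : ℝ × ℝ => n (deriv D.L p.2)) :=
    hn.measurable.comp ((measurable_deriv D.L).comp measurable_snd)
  have m3 : Measurable (fun p : ℝ × ℝ => n (deriv D.R (p.2 - t))) :=
    hn.measurable.comp ((measurable_deriv D.R).comp (measurable_snd.sub_const t))
  have m4 : Measurable (fun p : ℝ × ℝ => n (deriv D.L (p.2 - t))) :=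
    hn.measurable.comp ((measurable_deriv D.L).comp (measurable_snd.sub_const t))
  have i1 := measurable_ind (f := fun y => D.R y - D.R (y - t)) (g := fun y => D.R y - D.L (y - t))
    (by fun_prop) (by fun_prop)
  have i2 := measurable_ind (f := fun y => D.L y - D.R (y - t)) (g := fun y => D.L y - D.L (y - t))
    (by fun_prop) (by fun_prop)
  have i3 := measurable_ind (f := fun y => D.L y - D.R (y - t)) (g := fun y => D.R y - D.R (y - t))
    (by fun_prop) (by fun_prop)
  have i4 := measurable_ind (f := fun y => D.L y - D.L (y - t)) (g := fun y => D.R y - D.L (y - t))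
    (by fun_prop) (by fun_prop)
  exact (((m1.mul i1).add (m2.mul i2)).add (m3.mul i3)).add (m4.mul i4)

theorem bound_n {n f : ℝ → ℝ} (hn : Continuous n) {C : NNReal} (hf : LipschitzWith C f) :
    ∃ M, ∀ y, |n (deriv f y)| ≤ M := by
  obtain ⟨M, hM⟩ := (isCompact_Icc (a := -(C : ℝ)) (b := C)).exists_bound_of_continuousOn
    hn.continuousOn
  refine ⟨M, fun y => ?_⟩
  have := hM (deriv f y) ?_
  · simpa using this
  · have := norm_deriv_le_of_lipschitz hf (x₀ := y)
    rw [Real.norm_eq_abs] at this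
    exact abs_le.1 this

end FUBM

open FUBM in
theorem specFUB (hCOV : SpecCOV) (hXX : SpecXX) (hBOD : SpecBOD) (hFUA : SpecFUA)
    (hNPR : SpecNPR) : SpecFUB := by
  intro φ hφ
  obtain ⟨α, hα⟩ := hCOV φ hφ
  refine ⟨α, ?_⟩
  intro D hD χ hχ hχc t ht htw
  obtain ⟨-, -, -, -, -, -, hLR, -, ⟨CL, hCL⟩, ⟨CR, hCR⟩, -⟩ := hBOD D hD
  obtain ⟨-, -, -, x4, x5⟩ := hXX χ hχ hχc
  have hL : Continuous D.L := hCL.continuous
  have hR : Continuous D.R := hCR.continuous
  have hn : Continuous (nn φ) := by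
    obtain ⟨-, h⟩ := hNPR φ hφ
    have hlip : LipschitzWith (Real.toNNReal (ee φ)) (nn φ) := by
      refine LipschitzWith.of_dist_le_mul fun x y => ?_
      rw [Real.dist_eq, Real.dist_eq]
      refine (h x y).trans ?_
      exact mul_le_mul_of_nonneg_right (Real.le_coe_toNNReal _) (abs_nonneg _)
    exact hlip.continuous
  have hχi : Integrable χ := hχ.integrable_of_hasCompactSupport hχc
  have le1 : ∀ y ∈ Set.Icc t D.w, D.L y ≤ D.R y := fun y hy =>
    hLR y ⟨by linarith [hy.1], hy.2⟩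
  have le2 : ∀ y ∈ Set.Icc t D.w, D.L (y - t) ≤ D.R (y - t) := fun y hy =>
    hLR (y - t) ⟨by linarith [hy.1], by linarith [hy.2]⟩
  -- the slices
  have hT : ∀ y ∈ Set.Icc t D.w, ∫ ξ, χ ξ * max 0 (D.up ξ t y - D.lo ξ t y) = D.T χ t y := by
    intro y hy
    exact x5 (D.L y) (D.R y) (D.L (y - t)) (D.R (y - t)) (le1 y hy) (le2 y hy)
  set ν : Measure ℝ := volume.restrict (Set.Ioc t D.w) with hν
  -- area part: integrability on the product
  have hupc : Continuous (fun p : ℝ × ℝ => D.up p.1 t p.2) := by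
    unfold Data.up; fun_prop
  have hloc : Continuous (fun p : ℝ × ℝ => D.lo p.1 t p.2) := by
    unfold Data.lo; fun_prop
  obtain ⟨MA, hMA⟩ := (isCompact_Icc (a := t) (b := D.w)).exists_bound_of_continuousOn
    (f := fun y => D.R y - D.L y) (by fun_prop)
  have hAb : ∀ ξ, ∀ y ∈ Set.Icc t D.w, |max 0 (D.up ξ t y - D.lo ξ t y)| ≤ MA := by
    intro ξ y hy
    rw [abs_of_nonneg (le_max_left _ _)]
    have h1 := hMA y hy
    rw [Real.norm_eq_abs] at h1
    have h2 := le_abs_self (D.R y - D.L y)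
    have h3 := le1 y hy
    refine max_le (by linarith) ?_
    have a1 : D.up ξ t y ≤ D.R y := min_le_left _ _
    have a2 : D.L y ≤ D.lo ξ t y := le_max_left _ _
    linarith
  have hAi : Integrable (Function.uncurry fun ξ y => χ ξ * max 0 (D.up ξ t y - D.lo ξ t y))
      (volume.prod ν) := by
    have hdom : Integrable (fun p : ℝ × ℝ => |χ p.1| * MA) (volume.prod ν) :=
      Integrable.mul_prod (L := ℝ) hχi.abs (integrable_const MA)
    refine hdom.mono' ?_ ?_
    · apply Continuous.aestronglyMeasurable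
      unfold Function.uncurry
      have : Continuous (fun p : ℝ × ℝ => χ p.1) := hχ.comp continuous_fst
      exact this.mul (continuous_const.max (hupc.sub hloc))
    · have h0 : ∀ᵐ y ∂ν, y ∈ Set.Ioc t D.w := ae_restrict_mem measurableSet_Ioc
      have hae : ∀ᵐ p ∂((volume : Measure ℝ).prod ν), p.2 ∈ Set.Ioc t D.w :=
        (Measure.quasiMeasurePreserving_snd (μ := (volume : Measure ℝ)) (ν := ν)).ae h0
      filter_upwards [hae] with p hp
      show ‖χ p.1 * max 0 (D.up p.1 t p.2 - D.lo p.1 t p.2)‖ ≤ _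
      rw [norm_mul, Real.norm_eq_abs, Real.norm_eq_abs]
      exact mul_le_mul_of_nonneg_left (hAb p.1 p.2 (Set.Ioc_subset_Icc_self hp)) (abs_nonneg _)
  -- perimeter part
  obtain ⟨M1, hM1⟩ := bound_n hn hCR
  obtain ⟨M2, hM2⟩ := bound_n hn hCL
  have hQb : ∀ ξ y, |D.Q (nn φ) t ξ y| ≤ M1 + M2 + M1 + M2 := by
    intro ξ y
    unfold Data.Q
    have key : ∀ a M x : ℝ, |a| ≤ M → |x| ≤ 1 → |a * x| ≤ M := by
      intro a M x h1 h2
      rw [abs_mul]
      calc |a| * |x| ≤ M * 1 := mul_le_mul h1 h2 (abs_nonneg _) ((abs_nonneg _).trans h1)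
        _ = M := mul_one M
    refine (abs_add_le _ _).trans (add_le_add ((abs_add_le _ _).trans (add_le_add
      ((abs_add_le _ _).trans (add_le_add ?_ ?_)) ?_)) ?_)
    · exact key _ _ _ (hM1 _) (abs_ind _ _ _)
    · exact key _ _ _ (hM2 _) (abs_ind _ _ _)
    · exact key _ _ _ (hM1 _) (abs_ind _ _ _)
    · exact key _ _ _ (hM2 _) (abs_ind _ _ _)
  have hQi : Integrable (Function.uncurry fun ξ y => χ ξ * D.Q (nn φ) t ξ y)
      (volume.prod ν) := by
    have hdom : Integrable (fun p : ℝ × ℝ => |χ p.1| * (M1 + M2 + M1 + M2)) (volume.prod ν) :=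
      Integrable.mul_prod (L := ℝ) hχi.abs (integrable_const (M1 + M2 + M1 + M2))
    refine hdom.mono' ?_ ?_
    · exact ((hχ.measurable.comp measurable_fst).mul
        (measurable_Q D (nn φ) hn hL hR t)).aestronglyMeasurable
    · refine Filter.Eventually.of_forall fun p => ?_
      show ‖χ p.1 * D.Q (nn φ) t p.1 p.2‖ ≤ _
      rw [norm_mul, Real.norm_eq_abs, Real.norm_eq_abs]
      exact mul_le_mul_of_nonneg_left (hQb p.1 p.2) (abs_nonneg _)
  have hEQ : ∀ᵐ ξ : ℝ, ∀ᵐ y ∂ν, E D (nn φ) t ξ y = D.Q (nn φ) t ξ y := by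
    have hms : MeasurableSet {x : ℝ × ℝ | E D (nn φ) t x.1 x.2 = D.Q (nn φ) t x.1 x.2} :=
      measurableSet_eq_fun (measurable_E D (nn φ) hn hL hR t) (measurable_Q D (nn φ) hn hL hR t)
    rw [Measure.ae_ae_comm (μ := (volume : Measure ℝ)) (ν := ν)
      (p := fun ξ y => E D (nn φ) t ξ y = D.Q (nn φ) t ξ y) hms]
    have := hFUA D hD (nn φ) t ht htw
    exact ae_restrict_of_ae_restrict_of_subset Set.Ioc_subset_Icc_self this
  -- the covariogram
  have hcov : ∀ᵐ ξ : ℝ, χ ξ * cov φ (body D) (ξ, t) =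
      ee φ * (χ ξ * max 0 (D.up ξ t t - D.lo ξ t t) + χ ξ * max 0 (D.up ξ t D.w - D.lo ξ t D.w))
      + (∫ y, χ ξ * D.Q (nn φ) t ξ y ∂ν)
      + α * ∫ y, χ ξ * max 0 (D.up ξ t y - D.lo ξ t y) ∂ν := by
    filter_upwards [hEQ] with ξ hξ
    rw [hα D hD ξ t ht.le htw.le, intervalIntegral.integral_of_le htw.le,
      intervalIntegral.integral_of_le htw.le]
    have : (∫ y in Set.Ioc t D.w, if D.lo ξ t y ≤ D.up ξ t y then
          nn φ (deriv (D.lo ξ t) y) + nn φ (deriv (D.up ξ t) y) else 0)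
        = ∫ y, D.Q (nn φ) t ξ y ∂ν := integral_congr_ae hξ
    rw [this, integral_const_mul, integral_const_mul]
    ring
  have i1 : ∀ y ∈ Set.Icc t D.w, Integrable (fun ξ => χ ξ * max 0 (D.up ξ t y - D.lo ξ t y)) := by
    intro y hy
    refine (hχi.abs.mul_const MA).mono' ?_ ?_
    · apply Continuous.aestronglyMeasurable
      refine hχ.mul (continuous_const.max (Continuous.sub ?_ ?_))
      · unfold Data.up; fun_prop
      · unfold Data.lo; fun_prop
    · refine Filter.Eventually.of_forall fun ξ => ?_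
      rw [norm_mul, Real.norm_eq_abs, Real.norm_eq_abs]
      exact mul_le_mul_of_nonneg_left (hAb ξ y hy) (abs_nonneg _)
  have hG : G φ (body D) χ t = ee φ * (D.T χ t t + D.T χ t D.w)
      + (∫ ξ, ∫ y, χ ξ * D.Q (nn φ) t ξ y ∂ν)
      + α * ∫ ξ, ∫ y, χ ξ * max 0 (D.up ξ t y - D.lo ξ t y) ∂ν := by
    unfold G
    rw [integral_congr_ae hcov]
    have ht1 : t ∈ Set.Icc t D.w := ⟨le_rfl, htw.le⟩
    have ht2 : D.w ∈ Set.Icc t D.w := ⟨htw.le, le_rfl⟩
    have j1 := i1 t ht1
    have j2 := i1 D.w ht2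
    have j3 : Integrable (fun ξ => ∫ y, χ ξ * D.Q (nn φ) t ξ y ∂ν) := hQi.integral_prod_left
    have j4 : Integrable (fun ξ => ∫ y, χ ξ * max 0 (D.up ξ t y - D.lo ξ t y) ∂ν) :=
      hAi.integral_prod_left
    have j12 : Integrable (fun ξ => ee φ * (χ ξ * max 0 (D.up ξ t t - D.lo ξ t t)
        + χ ξ * max 0 (D.up ξ t D.w - D.lo ξ t D.w))) := (j1.add j2).const_mul _
    have j123 : Integrable (fun ξ => ee φ * (χ ξ * max 0 (D.up ξ t t - D.lo ξ t t)
        + χ ξ * max 0 (D.up ξ t D.w - D.lo ξ t D.w)) + ∫ y, χ ξ * D.Q (nn φ) t ξ y ∂ν) :=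
      j12.add j3
    rw [integral_add j123 (j4.const_mul α),
      integral_add j12 j3, integral_const_mul, integral_const_mul,
      integral_add j1 j2, hT t ht1, hT D.w ht2]
  rw [hG, integral_integral_swap hQi, integral_integral_swap hAi,
    intervalIntegral.integral_of_le htw.le, intervalIntegral.integral_of_le htw.le]
  congr 1
  · congr 1
    refine setIntegral_congr_fun measurableSet_Ioc fun y hy => ?_
    have hy' := Set.Ioc_subset_Icc_self hy
    have h1 := le1 y hy'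
    have h2 := le2 y hy'
    have ii : ∀ a b : ℝ, Integrable (fun ξ => χ ξ * ind a b ξ) := by
      intro a b
      refine hχi.abs.mono' ?_ ?_
      · refine (hχ.measurable.mul ?_).aestronglyMeasurable
        unfold ind
        exact Measurable.ite (measurableSet_Ioi.inter measurableSet_Iio) measurable_const
          measurable_const
      · refine Filter.Eventually.of_forall fun ξ => ?_
        rw [norm_mul, Real.norm_eq_abs, Real.norm_eq_abs]
        exact mul_le_of_le_one_right (abs_nonneg _) (abs_ind _ _ _)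
    have e : ∀ ξ, χ ξ * D.Q (nn φ) t ξ y =
        nn φ (deriv D.R y) * (χ ξ * ind (D.R y - D.R (y - t)) (D.R y - D.L (y - t)) ξ)
        + nn φ (deriv D.L y) * (χ ξ * ind (D.L y - D.R (y - t)) (D.L y - D.L (y - t)) ξ)
        + nn φ (deriv D.R (y - t)) * (χ ξ * ind (D.L y - D.R (y - t)) (D.R y - D.R (y - t)) ξ)
        + nn φ (deriv D.L (y - t)) * (χ ξ * ind (D.L y - D.L (y - t)) (D.R y - D.L (y - t)) ξ) := by
      intro ξ; unfold Data.Q; ring
    show ∫ ξ, χ ξ * D.Q (nn φ) t ξ y = D.P (nn φ) χ t y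
    simp only [e]
    rw [integral_add, integral_add, integral_add, integral_const_mul, integral_const_mul,
      integral_const_mul, integral_const_mul, x4, x4, x4, x4, if_pos (by linarith),
      if_pos (by linarith), if_pos (by linarith), if_pos (by linarith)]
    · rfl
    · exact (ii _ _).const_mul _
    · exact (ii _ _).const_mul _
    · exact ((ii _ _).const_mul _).add ((ii _ _).const_mul _)
    · exact (ii _ _).const_mul _
    · exact (((ii _ _).const_mul _).add ((ii _ _).const_mul _)).add ((ii _ _).const_mul _)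
    · exact (ii _ _).const_mul _
  · congr 1
    refine setIntegral_congr_fun measurableSet_Ioc fun y hy => ?_
    exact hT y (Set.Ioc_subset_Icc_self hy)

end Pool.MP671
end

section
/-! KNA: the area term has no kink -/
namespace Pool.MP671

open MeasureTheory

namespace KNA

theorem kink_add {f g : ℝ → ℝ} {t a b : ℝ} (hf : Kink f t a) (hg : Kink g t b) :
    Kink (fun s => f s + g s) t (a + b) := by
  obtain ⟨x, y, h1, h2, h3⟩ := hf
  obtain ⟨x', y', h1', h2', h3'⟩ := hg
  refine ⟨x + x', y + y', h1.add h1', h2.add h2', ?_⟩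
  linarith

theorem kink_sub {f g : ℝ → ℝ} {t a b : ℝ} (hf : Kink f t a) (hg : Kink g t b) :
    Kink (fun s => f s - g s) t (a - b) := by
  obtain ⟨x, y, h1, h2, h3⟩ := hf
  obtain ⟨x', y', h1', h2', h3'⟩ := hg
  refine ⟨x - x', y - y', h1.sub h1', h2.sub h2', ?_⟩
  linarith

theorem piece (hK : SpecKL) (A B Ψ Ψ' : ℝ → ℝ) (t₀ w : ℝ) (ht : t₀ < w)
    (hA : ∃ C, LipschitzWith C A) (hB : ∃ C, LipschitzWith C B)
    (h1 : ∀ z, HasDerivAt Ψ (Ψ' z) z) (h2 : Continuous Ψ') :
    Kink (fun t => ∫ y in t..w, Ψ (A y - B (y - t))) t₀ 0 := by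
  obtain ⟨CA, hCA⟩ := hA
  obtain ⟨CB, hCB⟩ := hB
  have h := hK (fun _ => 1) A B Ψ Ψ' t₀ w 1 1 1 1 CA CB ht one_pos measurable_const
    (fun y => by simp) (fun y _ => rfl) (fun y _ => rfl) hCA hCB h1 h2
  simpa using h

end KNA

theorem specKNA (hKL : SpecKL) (hXX : SpecXX) (hBOD : SpecBOD) : SpecKNA := by
  intro D hD χ hc hs t ht0 htw
  obtain ⟨-, -, -, -, -, -, -, -, hL, hR, -⟩ := hBOD D hD
  obtain ⟨hX1, hX2, -⟩ := hXX χ hc hs
  have c1 : Continuous (X1 χ) := continuous_iff_continuousAt.2 fun z => (hX1 z).continuousAt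
  have c2 : Continuous (X2 χ) := continuous_iff_continuousAt.2 fun z => (hX2 z).continuousAt
  have cL : Continuous D.L := by obtain ⟨C, h⟩ := hL; exact h.continuous
  have cR : Continuous D.R := by obtain ⟨C, h⟩ := hR; exact h.continuous
  have k1 := KNA.piece hKL D.R D.L (X2 χ) (X1 χ) t D.w htw hR hL hX2 c1
  have k2 := KNA.piece hKL D.R D.R (X2 χ) (X1 χ) t D.w htw hR hR hX2 c1
  have k3 := KNA.piece hKL D.L D.L (X2 χ) (X1 χ) t D.w htw hL hL hX2 c1
  have k4 := KNA.piece hKL D.L D.R (X2 χ) (X1 χ) t D.w htw hL hR hX2 c1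
  have k := KNA.kink_add (KNA.kink_sub (KNA.kink_sub k1 k2) k3) k4
  have ii : ∀ (A B : ℝ → ℝ) (s : ℝ), Continuous A → Continuous B →
      IntervalIntegrable (fun y => X2 χ (A y - B (y - s))) volume s D.w := by
    intro A B s hA hB
    apply Continuous.intervalIntegrable
    exact c2.comp (hA.sub (hB.comp (continuous_id.sub continuous_const)))
  have e : (fun s => ∫ y in s..D.w, D.T χ s y) = fun s =>
      (((∫ y in s..D.w, X2 χ (D.R y - D.L (y - s))) - ∫ y in s..D.w, X2 χ (D.R y - D.R (y - s)))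
        - ∫ y in s..D.w, X2 χ (D.L y - D.L (y - s))) + ∫ y in s..D.w, X2 χ (D.L y - D.R (y - s)) := by
    funext s
    rw [← intervalIntegral.integral_sub (ii _ _ s cR cL) (ii _ _ s cR cR),
      ← intervalIntegral.integral_sub ((ii _ _ s cR cL).sub (ii _ _ s cR cR)) (ii _ _ s cL cL),
      ← intervalIntegral.integral_add
        (((ii _ _ s cR cL).sub (ii _ _ s cR cR)).sub (ii _ _ s cL cL)) (ii _ _ s cL cR)]
    rfl
  rw [e]
  simpa using k

end Pool.MP671
end

section
/-!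
# MP_671ac3_gt : module MIR, the mirror image
-/
namespace Pool.MP671.MIR

open Finset

theorem Yp_succ (a : ℕ → ℝ) (k : ℕ) : Yp a (k + 1) = Yp a k + a k := by
  unfold Yp; rw [sum_range_succ]

theorem Xp_succ (s a : ℕ → ℝ) (k : ℕ) : Xp s a (k + 1) = Xp s a k + a k * s k := by
  unfold Xp; rw [sum_range_succ]

theorem Yp_zero (a : ℕ → ℝ) : Yp a 0 = 0 := by simp [Yp]

theorem Xp_zero (s a : ℕ → ℝ) : Xp s a 0 = 0 := by simp [Xp]

theorem Yp_rev (a : ℕ → ℝ) (m : ℕ) : ∀ k, k ≤ m →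
    Yp (fun j => a (m - 1 - j)) k = Yp a m - Yp a (m - k) := by
  intro k
  induction k with
  | zero => intro _; rw [Yp_zero, Nat.sub_zero, sub_self]
  | succ k ih =>
    intro hk
    rw [Yp_succ, ih (by omega)]
    have h : m - k = (m - (k + 1)) + 1 := by omega
    have h' : m - 1 - k = m - (k + 1) := by omega
    rw [h, Yp_succ, h']
    ring

theorem Xp_rev (s a : ℕ → ℝ) (m : ℕ) : ∀ k, k ≤ m →
    Xp (fun j => -s (m - 1 - j)) (fun j => a (m - 1 - j)) k =
      -(Xp s a m - Xp s a (m - k)) := by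
  intro k
  induction k with
  | zero => intro _; rw [Xp_zero, Nat.sub_zero, sub_self, neg_zero]
  | succ k ih =>
    intro hk
    rw [Xp_succ, ih (by omega)]
    have h : m - k = (m - (k + 1)) + 1 := by omega
    have h' : m - 1 - k = m - (k + 1) := by omega
    rw [h, Xp_succ, h']
    ring

theorem parts {D : Data} (h : D.Ok) : ∀ k, k ≤ D.m → Yp (mir D).r k = D.w - Yp D.l (D.m - k) ∧
      Yp (mir D).l k = D.w - Yp D.r (D.m - k) ∧
      Xp (mir D).s (mir D).r k = -(Xp D.s D.l D.m - Xp D.s D.l (D.m - k)) ∧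
      Xp (mir D).s (mir D).l k = -(Xp D.s D.r D.m - Xp D.s D.r (D.m - k)) := by
  intro k hk
  refine ⟨?_, ?_, ?_, ?_⟩
  · rw [← h.hlw]; exact Yp_rev D.l D.m k hk
  · rw [← h.hrw]; exact Yp_rev D.r D.m k hk
  · exact Xp_rev D.s D.l D.m k hk
  · exact Xp_rev D.s D.r D.m k hk

theorem ok_mir {D : Data} (h : D.Ok) : (mir D).Ok := by
  have hp := parts h D.m le_rfl
  rw [Nat.sub_self, Yp_zero, Yp_zero, Xp_zero, Xp_zero] at hp
  simp only [sub_zero] at hp
  obtain ⟨h1, h2, h3, h4⟩ := hp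
  refine ⟨?_, ?_, ?_, h.hp, h.hq, h.hw, h1, h2, ?_⟩
  · intro i j hij hj
    have hj' : j < D.m := hj
    have := h.hs (D.m - 1 - j) (D.m - 1 - i) (by omega) (by omega)
    change -D.s (D.m - 1 - i) < -D.s (D.m - 1 - j)
    linarith
  · intro j hj
    have hj' : j < D.m := hj
    exact h.hl (D.m - 1 - j) (by omega)
  · intro j hj
    have hj' : j < D.m := hj
    exact h.hr (D.m - 1 - j) (by omega)
  · change D.q + Xp (mir D).s (mir D).r D.m = D.p + Xp (mir D).s (mir D).l D.m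
    rw [h3, h4]
    have := h.hcl
    linarith

theorem tp_mir (D : Data) (n : ℝ → ℝ) (e : ℝ) (k : ℕ) (hk : k + 1 < D.m) :
    tp (fun x => n (-x)) e (mir D).s k = tm n e D.s (D.m - 2 - k) := by
  unfold tp tm
  have e1 : (mir D).s k = -D.s (D.m - 2 - k + 1) := by
    change -D.s (D.m - 1 - k) = _
    rw [show D.m - 1 - k = D.m - 2 - k + 1 by omega]
  have e2 : (mir D).s (k + 1) = -D.s (D.m - 2 - k) := by
    change -D.s (D.m - 1 - (k + 1)) = _
    rw [show D.m - 1 - (k + 1) = D.m - 2 - k by omega]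
  rw [e1, e2]
  simp only [neg_neg]
  ring

theorem tm_mir (D : Data) (n : ℝ → ℝ) (e : ℝ) (k : ℕ) (hk : k + 1 < D.m) :
    tm (fun x => n (-x)) e (mir D).s k = tp n e D.s (D.m - 2 - k) := by
  unfold tp tm
  have e1 : (mir D).s k = -D.s (D.m - 2 - k + 1) := by
    change -D.s (D.m - 1 - k) = _
    rw [show D.m - 1 - k = D.m - 2 - k + 1 by omega]
  have e2 : (mir D).s (k + 1) = -D.s (D.m - 2 - k) := by
    change -D.s (D.m - 1 - (k + 1)) = _
    rw [show D.m - 1 - (k + 1) = D.m - 2 - k by omega]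
  rw [e1, e2]
  simp only [neg_neg]
  ring

theorem ind_neg (a b ξ : ℝ) : ind (-a) (-b) ξ = ind b a (-ξ) := by
  unfold ind
  have : (-a < ξ ∧ ξ < -b) ↔ (b < -ξ ∧ -ξ < a) :=
    ⟨fun h => ⟨by linarith [h.2], by linarith [h.1]⟩, fun h => ⟨by linarith [h.2], by linarith [h.1]⟩⟩
  simp only [this]

theorem F_mir {D : Data} (h : D.Ok) (n : ℝ → ℝ) (e ξ t : ℝ) :
    F (mir D) (fun x => n (-x)) e ξ t = F D n e (-ξ) t := by
  unfold F
  have hm : (mir D).m = D.m := rfl
  have hw : (mir D).w = D.w := rfl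
  have hpp : (mir D).p = D.p := rfl
  have hqq : (mir D).q = D.q := rfl
  rw [hm, hw, hpp, hqq]
  rw [← sum_range_reflect (fun k => tp n e D.s k *
        ((if Yp D.r (k + 1) = t then ind (Xp D.s D.r (k + 1) - D.p) (Xp D.s D.r (k + 1)) (-ξ) else 0)
        + (if Yp D.l (k + 1) = t then ind (Xp D.s D.l (k + 1) - D.q) (Xp D.s D.l (k + 1)) (-ξ)
            else 0))
      + tm n e D.s k *
        ((if D.w - Yp D.l (k + 1) = t then
            ind (Xp D.s D.l D.m - Xp D.s D.l (k + 1)) (Xp D.s D.l D.m - Xp D.s D.l (k + 1) + D.p)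
              (-ξ)
            else 0)
        + (if D.w - Yp D.r (k + 1) = t then
            ind (Xp D.s D.r D.m - Xp D.s D.r (k + 1)) (Xp D.s D.r D.m - Xp D.s D.r (k + 1) + D.q)
              (-ξ)
            else 0))) (D.m - 1)]
  refine sum_congr rfl fun k hk => ?_
  have hk' : k < D.m - 1 := mem_range.1 hk
  have hj : D.m - 1 - 1 - k = D.m - 2 - k := by omega
  have hj1 : D.m - (k + 1) = D.m - 2 - k + 1 := by omega
  obtain ⟨h1, h2, h3, h4⟩ := parts h (k + 1) (by omega)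
  obtain ⟨-, -, h5, h6⟩ := parts h D.m le_rfl
  rw [Nat.sub_self, Xp_zero, sub_zero] at h5 h6
  rw [hj1] at h1 h2 h3 h4
  rw [tp_mir D n e k (by omega), tm_mir D n e k (by omega), h1, h2, h3, h4, h5, h6, hj]
  set j := D.m - 2 - k with hjd
  have i1 : ind (-(Xp D.s D.l D.m - Xp D.s D.l (j + 1)) - D.p)
      (-(Xp D.s D.l D.m - Xp D.s D.l (j + 1))) ξ =
      ind (Xp D.s D.l D.m - Xp D.s D.l (j + 1)) (Xp D.s D.l D.m - Xp D.s D.l (j + 1) + D.p)
        (-ξ) := by
    rw [← ind_neg]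
    congr 1
    ring
  have i2 : ind (-(Xp D.s D.r D.m - Xp D.s D.r (j + 1)) - D.q)
      (-(Xp D.s D.r D.m - Xp D.s D.r (j + 1))) ξ =
      ind (Xp D.s D.r D.m - Xp D.s D.r (j + 1)) (Xp D.s D.r D.m - Xp D.s D.r (j + 1) + D.q)
        (-ξ) := by
    rw [← ind_neg]
    congr 1
    ring
  have i3 : ind (-Xp D.s D.r D.m - -(Xp D.s D.r D.m - Xp D.s D.r (j + 1)))
      (-Xp D.s D.r D.m - -(Xp D.s D.r D.m - Xp D.s D.r (j + 1)) + D.p) ξ =
      ind (Xp D.s D.r (j + 1) - D.p) (Xp D.s D.r (j + 1)) (-ξ) := by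
    rw [← ind_neg]
    congr 1 <;> ring
  have i4 : ind (-Xp D.s D.l D.m - -(Xp D.s D.l D.m - Xp D.s D.l (j + 1)))
      (-Xp D.s D.l D.m - -(Xp D.s D.l D.m - Xp D.s D.l (j + 1)) + D.q) ξ =
      ind (Xp D.s D.l (j + 1) - D.q) (Xp D.s D.l (j + 1)) (-ξ) := by
    rw [← ind_neg]
    congr 1 <;> ring
  rw [i1, i2, i3, i4, sub_sub_cancel, sub_sub_cancel]
  ring

theorem VR_mir {D : Data} (h : D.Ok) (n : ℝ → ℝ) (e t : ℝ) :
    VR (mir D) (fun x => n (-x)) e t = VL D n e t := by
  unfold VR VL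
  have hm : (mir D).m = D.m := rfl
  rw [hm, ← sum_range_reflect (fun k => if D.w - Yp D.l (k + 1) = t then tm n e D.s k else 0)
    (D.m - 1)]
  refine sum_congr rfl fun k hk => ?_
  have hk' : k < D.m - 1 := mem_range.1 hk
  have hj : D.m - 1 - 1 - k = D.m - 2 - k := by omega
  have hj1 : D.m - (k + 1) = D.m - 2 - k + 1 := by omega
  obtain ⟨h1, -, -, -⟩ := parts h (k + 1) (by omega)
  rw [hj1] at h1
  rw [tp_mir D n e k (by omega), h1, hj]

theorem mate_mir {D D' : Data} (h : Mate D D') : Mate (mir D) (mir D') := by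
  refine ⟨h.hm, ?_, h.hw, h.hpq, ?_, ?_⟩
  · funext j
    change -D'.s (D'.m - 1 - j) = -D.s (D.m - 1 - j)
    rw [h.hs, h.hm]
  · intro j hj
    have hj' : j < D.m := hj
    change D'.l (D'.m - 1 - j) + D'.r (D'.m - 1 - j) = D.l (D.m - 1 - j) + D.r (D.m - 1 - j)
    have := h.hrl (D.m - 1 - j) (by omega)
    rw [h.hm]
    linarith
  · intro j hj
    have hj' : j < D.m := hj
    change 0 < D.l (D.m - 1 - j) + D.r (D.m - 1 - j)
    have := h.hpos (D.m - 1 - j) (by omega)
    linarith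

theorem cx_neg {n : ℝ → ℝ} (h : ConvexOn ℝ Set.univ n) :
    ConvexOn ℝ Set.univ (fun x => n (-x)) := by
  refine ⟨convex_univ, fun x _ y _ a b ha hb hab => ?_⟩
  have := h.2 (Set.mem_univ (-x)) (Set.mem_univ (-y)) ha hb hab
  simp only [smul_eq_mul] at this ⊢
  rw [show -(a * x + b * y) = a * -x + b * -y by ring]
  exact this

theorem lp_neg {n : ℝ → ℝ} {e : ℝ} (h : ∀ a b, |n a - n b| ≤ e * |a - b|) :
    ∀ a b, |n (-a) - n (-b)| ≤ e * |a - b| := by
  intro a b
  refine (h (-a) (-b)).trans (le_of_eq ?_)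
  rw [show -a - -b = -(a - b) by ring, abs_neg]

theorem dense_neg {f g f' g' : ℝ → ℝ} (hf : ∀ ξ, f' ξ = f (-ξ)) (hg : ∀ ξ, g' ξ = g (-ξ))
    (h : Dense f g) : Dense f' g' := by
  intro a b hab
  obtain ⟨ξ, hξ, he⟩ := h (-b) (-a) (by linarith)
  refine ⟨-ξ, ⟨by linarith [hξ.2], by linarith [hξ.1]⟩, ?_⟩
  rw [hf, hg, neg_neg]
  exact he

end Pool.MP671.MIR

namespace Pool.MP671

open MIR

theorem specMIR : SpecMIR := by
  refine ⟨fun D h => ⟨ok_mir h, F_mir h, VR_mir h, fun n e k hk => tp_mir D n e k hk, parts h⟩,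
    fun D D' n n' e e' h => ?_, fun D D' n e h => ?_⟩
  · refine ⟨ok_mir h.ok, ok_mir h.ok', mate_mir h.mate, h.q0, h.q0', h.p0, h.e0, h.e0',
      cx_neg h.cx, cx_neg h.cx', lp_neg h.lp, lp_neg h.lp', fun j hj => ?_, fun t ht htw => ?_⟩
    · have hj' : j < D.m := hj
      have hm := h.mate.hm
      change (D'.l (D'.m - 1 - j) = D.l (D.m - 1 - j) ∧ D'.r (D'.m - 1 - j) = D.r (D.m - 1 - j)) ∨
        (D'.l (D'.m - 1 - j) = D.r (D.m - 1 - j) ∧ D'.r (D'.m - 1 - j) = D.l (D.m - 1 - j))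
      rw [hm]
      rcases h.pr (D.m - 1 - j) (by omega) with h1 | h1
      · exact Or.inl ⟨h1.2, h1.1⟩
      · exact Or.inr ⟨h1.2, h1.1⟩
    · exact dense_neg (fun ξ => F_mir h.ok n e ξ t) (fun ξ => F_mir h.ok' n' e' ξ t)
        (h.den t ht htw)
  · refine ⟨ok_mir h.ok, ok_mir h.ok', mate_mir h.mate, h.q0, h.pq, h.hp, h.hq, h.e0,
      cx_neg h.cx, lp_neg h.lp, fun j hj => ?_, fun t ht htw => ?_⟩
    · have hj' : j < D.m := hj
      have hm := h.mate.hm
      change 0 < D.l (D.m - 1 - j) ∧ 0 < D.r (D.m - 1 - j) ∧ 0 < D'.l (D'.m - 1 - j) ∧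
        0 < D'.r (D'.m - 1 - j)
      rw [hm]
      obtain ⟨h1, h2, h3, h4⟩ := h.pos (D.m - 1 - j) (by omega)
      exact ⟨h2, h1, h4, h3⟩
    · exact dense_neg (fun ξ => F_mir h.ok n e ξ t) (fun ξ => F_mir h.ok' n e ξ t)
        (h.den t ht htw)

end Pool.MP671
end

section
/-!
# MP_671ac3_gt : assembly of the theorem from the specifications
-/
namespace Pool.MP671

open MeasureTheory

theorem tr_tr (a b : Pl) (A : Set Pl) : tr a (tr b A) = tr (b + a) A := by
  ext z
  simp only [tr, Set.mem_image]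
  constructor
  · rintro ⟨_, ⟨y, hy, rfl⟩, rfl⟩
    exact ⟨y, hy, by rw [add_assoc]⟩
  · rintro ⟨y, hy, rfl⟩
    exact ⟨y + b, ⟨y, hy, rfl⟩, by rw [add_assoc]⟩

theorem tr_zero (A : Set Pl) : tr 0 A = A := by
  ext z
  simp [tr]

theorem refl_tr (a : Pl) (A : Set Pl) : refl (tr a A) = tr (-a) (refl A) := by
  ext z
  simp only [tr, refl, Set.mem_image]
  constructor
  · rintro ⟨_, ⟨y, hy, rfl⟩, rfl⟩
    exact ⟨-y, ⟨y, hy, rfl⟩, by abel⟩
  · rintro ⟨_, ⟨y, hy, rfl⟩, rfl⟩
    exact ⟨y + a, ⟨y, hy, rfl⟩, by abel⟩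

theorem refl_refl (A : Set Pl) : refl (refl A) = A := by
  ext z
  simp [refl]

theorem cc_tr {A : Set Pl} (h : CC A) (a : Pl) : CC (tr a A) := by
  refine ⟨?_, ?_⟩
  · have := h.1.translate a
    have e : (fun z => a + z) '' A = tr a A := by
      simp only [tr, add_comm]
    rwa [e] at this
  · exact h.2.image (by fun_prop)

theorem cc_refl {A : Set Pl} (h : CC A) : CC (refl A) := by
  refine ⟨?_, ?_⟩
  · have := h.1.neg
    have e : -A = refl A := by
      rw [refl, Set.image_neg_eq_neg]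
    rwa [e] at this
  · exact h.2.image (by fun_prop)

theorem F_congr (D : Data) (n n' : ℝ → ℝ) (e : ℝ) (ξ t : ℝ)
    (h : ∀ j, j < D.m → n (D.s j) = n' (D.s j)) : F D n e ξ t = F D n' e ξ t := by
  unfold F
  refine Finset.sum_congr rfl fun k hk => ?_
  have hk' : k < D.m - 1 := Finset.mem_range.1 hk
  have h1 := h k (by omega)
  have h2 := h (k + 1) (by omega)
  unfold tp tm
  rw [h1, h2]

theorem fl_nonneg (K : Set Pl) (v : Pl) : 0 ≤ fl K v :=
  Real.sSup_nonneg fun _ h => h.1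

theorem mul_one' (v : Pl) : mul v (1, 0) = v := by
  ext <;> simp [mul]

theorem mul_neg_one' (v : Pl) : mul v (-1, 0) = -v := by
  ext <;> simp [mul]

theorem mul_neg_pair (v : Pl) (s : ℝ) : mul v (-s, -1) = -mul v (s, 1) := by
  ext <;> simp [mul] <;> ring

theorem mul_ne (v : Pl) (hv : v ≠ 0) (s : ℝ) : mul v (s, 1) ≠ 0 := by
  intro h
  have h1 : v.1 * s - v.2 * 1 = 0 := congrArg Prod.fst h
  have h2 : v.2 * s + v.1 * 1 = 0 := congrArg Prod.snd h
  apply hv
  have e2 : v.2 = v.1 * s := by linarith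
  have e1 : v.1 * (s * s + 1) = 0 := by rw [e2] at h2; linarith [h2]
  have : v.1 = 0 := by
    rcases mul_eq_zero.1 e1 with h | h
    · exact h
    · nlinarith [mul_self_nonneg s]
  ext
  · simpa using this
  · simp [e2, this]

/-- everything about the frame of direction `v` -/
structure Fram (K H : Set Pl) (v : Pl) (D D' : Data) (c c' : Pl) : Prop where
  ok : D.Ok
  ok' : D'.Ok
  mate : Mate D D'
  hK : fr v K = tr c (body D)
  hH : fr v H = tr c' (body D')
  p : fl K v = D.p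
  q : fl K (-v) = D.q
  p' : fl H v = D'.p
  q' : fl H (-v) = D'.q
  l : ∀ j, j < D.m → fl K (mul v (D.s j, 1)) = D.l j
  r : ∀ j, j < D.m → fl K (-mul v (D.s j, 1)) = D.r j
  l' : ∀ j, j < D.m → fl H (mul v (D.s j, 1)) = D'.l j
  r' : ∀ j, j < D.m → fl H (-mul v (D.s j, 1)) = D'.r j

theorem exists_fram (hFAN : SpecFAN) (hFLB : SpecFLB) (hFRM : SpecFRM) (hRFL : SpecRFL)
    (K H : Set Pl) (hK : CC K) (hH : CC H) (hKi : (interior K).Nonempty)
    (hHi : (interior H).Nonempty) (hS : ∃ S : Finset Pl, K = convexHull ℝ (S : Set Pl))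
    (hd : dif K = dif H) (v : Pl) (hv : v ≠ 0) : ∃ D D' c c', Fram K H v D D' c c' := by
  obtain ⟨-, -, -, f4, f5, f6, f7, f8, -, -⟩ := hFRM v hv
  obtain ⟨-, hfl, -, -⟩ := hRFL
  obtain ⟨D, D', c, c', o, o', hM, hc, hc'⟩ := hFAN (fr v K) (fr v H) (f4 K hK) (f4 H hH) (f5 K hKi)
    (f5 H hHi) (f6 K hS) (f8 K H hd)
  obtain ⟨a1, a2, a3⟩ := hFLB D o
  obtain ⟨b1, b2, b3⟩ := hFLB D' o'
  have kK : ∀ u, fl K (mul v u) = fl (body D) u := fun u => by rw [← f7, hc, hfl]
  have kH : ∀ u, fl H (mul v u) = fl (body D') u := fun u => by rw [← f7, hc', hfl]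
  refine ⟨D, D', c, c', o, o', hM, hc, hc', ?_, ?_, ?_, ?_, ?_, ?_, ?_, ?_⟩
  · have := kK (1, 0); rwa [mul_one', a1] at this
  · have := kK (-1, 0); rwa [mul_neg_one', a2] at this
  · have := kH (1, 0); rwa [mul_one', b1] at this
  · have := kH (-1, 0); rwa [mul_neg_one', b2] at this
  · intro j hj; rw [kK, (a3 j hj).1]
  · intro j hj; rw [← mul_neg_pair, kK, (a3 j hj).2]
  · intro j hj
    have := (b3 j (by rw [hM.hm]; exact hj)).1
    rw [hM.hs] at this
    rw [kH, this]
  · intro j hj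
    have := (b3 j (by rw [hM.hm]; exact hj)).2
    rw [hM.hs] at this
    rw [← mul_neg_pair, kH, this]

theorem main (hSEG : SpecSEG) (hNPR : SpecNPR) (hFEQ : SpecFEQ) (hF1 : SpecF1) (hCSS : SpecCSS)
    (hCSD : SpecCSD) (hSUP : SpecSUP) (hFAN : SpecFAN) (hFLB : SpecFLB) (hFLP : SpecFLP)
    (hFRM : SpecFRM) (hRFL : SpecRFL) (hBOD : SpecBOD) : Final := by
  intro K H φ ψ hφ hψ hS hKi hHc hHi hpos hcov
  have hKc : CC K := by
    obtain ⟨S, rfl⟩ := hS
    exact ⟨convex_convexHull ℝ _, S.finite_toSet.isCompact_convexHull (𝕜 := ℝ)⟩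
  have hKne : K.Nonempty := hKi.mono interior_subset
  -- positivity
  have nneg : ∀ φ, IsPhi φ → ∀ v, nrm φ (-v) = nrm φ v := by
    intro φ hφ v
    have := (hSEG φ hφ).2.1 (-1) v
    simpa using this
  have pos : ∀ v : Pl, v ≠ 0 → 0 < fl K v → 0 < nrm φ v ∧ 0 < nrm ψ v := by
    intro v hv h
    obtain ⟨a, t, ht, hseg⟩ := hFLP K v hKc hKne hv h
    have hne : a ≠ a + t • v := by
      intro h
      have : t • v = 0 := by simpa using h
      rcases smul_eq_zero.1 this with h | h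
      · exact ht.ne' h
      · exact hv h
    obtain ⟨h1, h2⟩ := hpos a (a + t • v) hne hseg
    rw [(hSEG φ hφ).1, add_sub_cancel_left, (hSEG φ hφ).2.1, abs_of_pos ht] at h1
    rw [(hSEG ψ hψ).1, add_sub_cancel_left, (hSEG ψ hψ).2.1, abs_of_pos ht] at h2
    constructor
    · have : 0 < t * nrm φ v := by linarith
      exact (pos_iff_pos_of_mul_pos this).1 ht
    · have : 0 < t * nrm ψ v := by linarith
      exact (pos_iff_pos_of_mul_pos this).1 ht
  have pos' : ∀ v : Pl, v ≠ 0 → (0 < fl K v ∨ 0 < fl K (-v)) → 0 < nrm φ v ∧ 0 < nrm ψ v := by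
    intro v hv h
    rcases h with h | h
    · exact pos v hv h
    · have := pos (-v) (neg_ne_zero.2 hv) h
      rwa [nneg φ hφ, nneg ψ hψ] at this
  have one_ne : ((1, 0) : Pl) ≠ 0 := by
    intro h
    have : (1 : ℝ) = 0 := congrArg Prod.fst h
    exact one_ne_zero this
  -- a direction
  have hdif : dif K = dif H := by
    obtain ⟨D, D', c, c', hf⟩ := exists_fram hFAN hFLB hFRM hRFL K K hKc hKc hKi hKi hS rfl (1, 0)
      one_ne
    have hm : 0 < D.m := by
      rcases Nat.eq_zero_or_pos D.m with h | h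
      · exfalso
        have h1 := hf.ok.hrw
        have h2 := hf.ok.hw
        rw [h] at h1
        simp [Yp] at h1
        linarith
      · exact h
    have hp := hf.mate.hpos 0 hm
    set u := mul (1, 0) (D.s 0, 1) with hu
    have hune : u ≠ 0 := mul_ne _ one_ne _
    have : 0 < fl K u ∨ 0 < fl K (-u) := by
      rw [hf.l 0 hm, hf.r 0 hm]
      by_contra hcon
      push Not at hcon
      linarith [hcon.1, hcon.2]
    exact hSUP φ ψ hφ hψ K H hKc hHc hKi hHi ⟨u, hune, pos' u hune this⟩ hcov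
  have FR : ∀ v : Pl, v ≠ 0 → ∃ D D' c c', Fram K H v D D' c c' := fun v hv =>
    exists_fram hFAN hFLB hFRM hRFL K H hKc hHc hKi hHi hS hdif v hv
  -- covariograms in the frame
  have covb : ∀ v : Pl, v ≠ 0 → ∀ D D' c c', Fram K H v D D' c c' →
      ∀ x, cov (frφ v φ) (body D) x = cov (frφ v ψ) (body D') x := by
    intro v hv D D' c c' hf x
    obtain ⟨g1, g2, -⟩ := hFRM v hv
    have e1 := (hRFL.1 (frφ v φ) (g1 φ hφ) (body D) (hBOD D hf.ok).2.2.2.2.2.2.2.2.2.2 x c).1
    have e2 := (hRFL.1 (frφ v ψ) (g1 ψ hψ) (body D') (hBOD D' hf.ok').2.2.2.2.2.2.2.2.2.2 x c').1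
    rw [← e1, ← e2, ← hf.hK, ← hf.hH, g2, g2, hcov]
  have covb' : ∀ v : Pl, v ≠ 0 → ∀ D D' c c', Fram K H v D D' c c' →
      ∀ x, cov (frφ v φ) (body D) x = cov (frφ v ψ) (body D'.flip) x := by
    intro v hv D D' c c' hf x
    obtain ⟨g1, -⟩ := hFRM v hv
    obtain ⟨-, d, hd⟩ := hRFL.2.2.1 D' hf.ok'
    have hb := (hBOD D' hf.ok').2.2.2.2.2.2.2.2.2.2
    have e1 := (hRFL.1 (frφ v ψ) (g1 ψ hψ) (body D') hb x d).2
    have e2 := (hRFL.1 (frφ v ψ) (g1 ψ hψ) (refl (body D')) (cc_refl hb) x d).1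
    rw [hd, e2, e1]
    exact covb v hv D D' c c' hf x
  have eev : ∀ v : Pl, v ≠ 0 → ∀ φ, ee (frφ v φ) = nrm φ v := by
    intro v hv φ
    obtain ⟨-, -, g3, -⟩ := hFRM v hv
    show nrm (frφ v φ) (1, 0) = _
    rw [g3, mul_one']
  have nnv : ∀ v : Pl, v ≠ 0 → ∀ φ s, nn (frφ v φ) s = nrm φ (mul v (s, 1)) := by
    intro v hv φ s
    obtain ⟨-, -, g3, -⟩ := hFRM v hv
    show nrm (frφ v φ) (s, 1) = _
    rw [g3]
  -- first order information
  have F1G : ∀ v : Pl, v ≠ 0 → (0 < fl K v ∨ 0 < fl K (-v)) →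
      ((fl H v = fl K v ∧ fl H (-v) = fl K (-v)) ∨ (fl H v = fl K (-v) ∧ fl H (-v) = fl K v)) ∧
      (0 < fl K v → 0 < fl K (-v) → nrm φ v = nrm ψ v) := by
    intro v hv h
    obtain ⟨D, D', c, c', hf⟩ := FR v hv
    obtain ⟨g1, -⟩ := hFRM v hv
    obtain ⟨h1, h2⟩ := pos' v hv h
    have := hF1 (frφ v φ) (frφ v ψ) (g1 φ hφ) (g1 ψ hψ) D D' hf.ok hf.ok' hf.mate
      (by rw [eev v hv]; exact h1) (by rw [eev v hv]; exact h2) (covb v hv D D' c c' hf)
    rw [hf.p, hf.q, hf.p', hf.q']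
    rw [eev v hv, eev v hv] at this
    exact this
  have pairs : ∀ v : Pl, v ≠ 0 → ∀ D D' c c', Fram K H v D D' c c' → ∀ j, j < D.m →
      ((D'.r j = D.r j ∧ D'.l j = D.l j) ∨ (D'.r j = D.l j ∧ D'.l j = D.r j)) ∧
      (0 < D.r j → 0 < D.l j → nn (frφ v φ) (D.s j) = nn (frφ v ψ) (D.s j)) := by
    intro v hv D D' c c' hf j hj
    set u := mul v (D.s j, 1) with hu
    have hune : u ≠ 0 := mul_ne _ hv _
    have hpj := hf.mate.hpos j hj
    have h0 : 0 < fl K u ∨ 0 < fl K (-u) := by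
      rw [hf.l j hj, hf.r j hj]
      by_contra hcon
      push Not at hcon
      linarith [hcon.1, hcon.2]
    have := F1G u hune h0
    rw [hf.l j hj, hf.r j hj, hf.l' j hj, hf.r' j hj] at this
    rw [nnv v hv, nnv v hv]
    refine ⟨?_, fun a b => this.2 b a⟩
    rcases this.1 with ⟨a, b⟩ | ⟨a, b⟩
    · exact Or.inl ⟨b, a⟩
    · exact Or.inr ⟨b, a⟩
  -- conclusions
  have CL1 : ∀ v : Pl, v ≠ 0 → ∀ D D' c c', Fram K H v D D' c c' → D'.q = D.q →
      (∀ j, j < D.m → D'.r j = D.r j ∧ D'.l j = D.l j) → ∃ t, H = tr t K ∨ H = tr t (refl K) := by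
    intro v hv D D' c c' hf hq hrl
    obtain ⟨-, -, -, -, -, -, -, -, g9, -⟩ := hFRM v hv
    have hb := hRFL.2.2.2 D D' hf.mate.hm hf.mate.hs hf.mate.hw hq hrl
    refine ⟨mul v (c' - c), Or.inl (g9 K H (c' - c) ?_)⟩
    rw [hf.hH, hf.hK, hb, tr_tr, add_sub_cancel]
  have CL2 : ∀ v : Pl, v ≠ 0 → ∀ D D' c c', Fram K H v D D' c c' → D'.p = D.q →
      (∀ j, j < D.m → D'.l j = D.r j ∧ D'.r j = D.l j) → ∃ t, H = tr t K ∨ H = tr t (refl K) := by
    intro v hv D D' c c' hf hq hrl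
    obtain ⟨-, -, -, -, -, -, -, -, -, g10⟩ := hFRM v hv
    have hb := hRFL.2.2.2 D D'.flip hf.mate.hm hf.mate.hs hf.mate.hw hq hrl
    obtain ⟨-, d, hd⟩ := hRFL.2.2.1 D' hf.ok'
    rw [hd] at hb
    have e1 : body D' = tr d (refl (body D)) := by
      rw [← hb, refl_tr, refl_refl, tr_tr, neg_add_cancel, tr_zero]
    refine ⟨mul v (c + d + c'), Or.inr (g10 K H (c + d + c') ?_)⟩
    rw [hf.hH, hf.hK, e1, refl_tr, tr_tr, tr_tr]
    congr 1
    abel
  have mflip : ∀ D D' : Data, Mate D D' → Mate D D'.flip := by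
    intro D D' h
    exact ⟨h.hm, h.hs, h.hw, by show D'.q + D'.p = _; rw [add_comm]; exact h.hpq,
      fun j hj => by show D'.l j + D'.r j = _; rw [add_comm]; exact h.hrl j hj, h.hpos⟩
  -- cases
  by_cases hs : ∃ v : Pl, v ≠ 0 ∧ 0 < fl K v ∧ ¬ 0 < fl K (-v)
  · obtain ⟨v, hv, hp, hq⟩ := hs
    obtain ⟨D, D', c, c', hf⟩ := FR v hv
    obtain ⟨g1, -⟩ := hFRM v hv
    obtain ⟨n1, n2⟩ := hNPR (frφ v φ) (g1 φ hφ)
    obtain ⟨n1', n2'⟩ := hNPR (frφ v ψ) (g1 ψ hψ)
    obtain ⟨h1, h2⟩ := pos' v hv (Or.inl hp)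
    have hF := (F1G v hv (Or.inl hp)).1
    rw [hf.p, hf.q, hf.p', hf.q'] at hF
    rw [hf.p] at hp
    rw [hf.q] at hq
    have hq0 : D.q = 0 := le_antisymm (not_lt.1 hq) hf.ok.hq
    rcases hF with ⟨ep, eq⟩ | ⟨ep, eq⟩
    · refine CL1 v hv D D' c c' hf (by rw [eq]) ?_
      refine hCSS D D' (nn (frφ v φ)) (nn (frφ v ψ)) (ee (frφ v φ)) (ee (frφ v ψ)) ⟨hf.ok, hf.ok',
        hf.mate, hq0, (by rw [eq, hq0]), hp, (by rw [eev v hv]; exact h1),
        (by rw [eev v hv]; exact h2),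
        n1, n1', n2, n2', (fun j hj => (pairs v hv D D' c c' hf j hj).1), ?_⟩
      intro t ht htw
      exact hFEQ (frφ v φ) (frφ v ψ) (g1 φ hφ) (g1 ψ hψ) D D' hf.ok hf.ok' hf.mate.hw
        (covb v hv D D' c c' hf) t ht htw
    · refine CL2 v hv D D' c c' hf ep ?_
      have := hCSS D D'.flip (nn (frφ v φ)) (nn (frφ v ψ)) (ee (frφ v φ)) (ee (frφ v ψ)) ⟨hf.ok,
        (hRFL.2.2.1 D' hf.ok').1, (mflip _ _ hf.mate), hq0, (by show D'.p = 0; rw [ep, hq0]), hp,
        (by rw [eev v hv]; exact h1), (by rw [eev v hv]; exact h2),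
        n1, n1', n2, n2', (fun j hj => ?_), ?_⟩
      · exact this
      · rcases (pairs v hv D D' c c' hf j hj).1 with ⟨a, b⟩ | ⟨a, b⟩
        · exact Or.inr ⟨b, a⟩
        · exact Or.inl ⟨b, a⟩
      · intro t ht htw
        exact hFEQ (frφ v φ) (frφ v ψ) (g1 φ hφ) (g1 ψ hψ) D D'.flip hf.ok (hRFL.2.2.1 D' hf.ok').1
          hf.mate.hw (covb' v hv D D' c c' hf) t ht htw
  · push Not at hs
    by_cases hd : ∃ v : Pl, v ≠ 0 ∧ fl K (-v) < fl K v
    · obtain ⟨v, hv, hlt⟩ := hd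
      have hp : 0 < fl K v := lt_of_le_of_lt (fl_nonneg _ _) hlt
      have hq : 0 < fl K (-v) := hs v hv hp
      obtain ⟨D, D', c, c', hf⟩ := FR v hv
      obtain ⟨g1, -⟩ := hFRM v hv
      obtain ⟨n1, n2⟩ := hNPR (frφ v φ) (g1 φ hφ)
      obtain ⟨h1, h2⟩ := pos' v hv (Or.inl hp)
      obtain ⟨hF, hN⟩ := F1G v hv (Or.inl hp)
      have hee : ee (frφ v φ) = ee (frφ v ψ) := by
        rw [eev v hv, eev v hv]; exact hN hp hq
      rw [hf.p, hf.q, hf.p', hf.q'] at hF
      rw [hf.p, hf.q] at hlt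
      rw [hf.p] at hp
      rw [hf.q] at hq
      have hboth : ∀ j, j < D.m → 0 < D.r j ∧ 0 < D.l j := by
        intro j hj
        have hpj := hf.mate.hpos j hj
        have hune : mul v (D.s j, 1) ≠ 0 := mul_ne _ hv _
        have a1 := hs _ hune
        have a2 := hs _ (neg_ne_zero.2 hune)
        rw [neg_neg] at a2
        rw [hf.l j hj, hf.r j hj] at a1 a2
        by_cases hl : 0 < D.l j
        · exact ⟨a1 hl, hl⟩
        · have hr : 0 < D.r j := by linarith [not_lt.1 hl]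
          exact ⟨hr, a2 hr⟩
      have hnn : ∀ j, j < D.m → nn (frφ v φ) (D.s j) = nn (frφ v ψ) (D.s j) := fun j hj =>
        (pairs v hv D D' c c' hf j hj).2 (hboth j hj).1 (hboth j hj).2
      have hboth' : ∀ j, j < D.m → 0 < D'.r j ∧ 0 < D'.l j := by
        intro j hj
        rcases (pairs v hv D D' c c' hf j hj).1 with ⟨a, b⟩ | ⟨a, b⟩
        · rw [a, b]; exact hboth j hj
        · rw [a, b]; exact (hboth j hj).symm
      rcases hF with ⟨ep, eq⟩ | ⟨ep, eq⟩
      · refine CL1 v hv D D' c c' hf eq ?_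
        refine hCSD D D' (nn (frφ v φ)) (ee (frφ v φ)) ⟨hf.ok, hf.ok', hf.mate, hq, hlt, ep, eq,
          (by rw [eev v hv]; exact h1), n1, n2,
          (fun j hj => ⟨(hboth j hj).1, (hboth j hj).2, (hboth' j hj).1, (hboth' j hj).2⟩), ?_⟩
        intro t ht htw a b hab
        obtain ⟨ξ, hξ, he⟩ := hFEQ (frφ v φ) (frφ v ψ) (g1 φ hφ) (g1 ψ hψ) D D' hf.ok hf.ok'
          hf.mate.hw (covb v hv D D' c c' hf) t ht htw a b hab
        refine ⟨ξ, hξ, ?_⟩
        show F D (nn (frφ v φ)) (ee (frφ v φ)) ξ t = F D' (nn (frφ v φ)) (ee (frφ v φ)) ξ t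
        rw [F_congr D' (nn (frφ v φ)) (nn (frφ v ψ)) _ ξ t (by
          intro j hj; rw [hf.mate.hs]; exact hnn j (by rw [← hf.mate.hm]; exact hj)), ]
        rw [show F D' (nn (frφ v ψ)) (ee (frφ v φ)) ξ t = F D' (nn (frφ v ψ)) (ee (frφ v ψ)) ξ t by
          rw [hee]]
        exact he
      · refine CL2 v hv D D' c c' hf ep ?_
        refine hCSD D D'.flip (nn (frφ v φ)) (ee (frφ v φ)) ⟨hf.ok, (hRFL.2.2.1 D' hf.ok').1,
          (mflip _ _ hf.mate), hq, hlt, eq, ep,
          (by rw [eev v hv]; exact h1), n1, n2,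
          (fun j hj => ⟨(hboth j hj).1, (hboth j hj).2, (hboth' j hj).2, (hboth' j hj).1⟩), ?_⟩
        intro t ht htw a b hab
        obtain ⟨ξ, hξ, he⟩ := hFEQ (frφ v φ) (frφ v ψ) (g1 φ hφ) (g1 ψ hψ) D D'.flip hf.ok
          (hRFL.2.2.1 D' hf.ok').1
          hf.mate.hw (covb' v hv D D' c c' hf) t ht htw a b hab
        refine ⟨ξ, hξ, ?_⟩
        show F D (nn (frφ v φ)) (ee (frφ v φ)) ξ t = F D'.flip (nn (frφ v φ)) (ee (frφ v φ)) ξ t
        rw [F_congr D'.flip (nn (frφ v φ)) (nn (frφ v ψ)) _ ξ t (by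
          intro j hj
          show nn (frφ v φ) (D'.s j) = _
          rw [show D'.flip.s = D'.s from rfl, hf.mate.hs]
          exact hnn j (by rw [← hf.mate.hm]; exact hj)), ]
        rw [show F D'.flip (nn (frφ v ψ)) (ee (frφ v φ)) ξ t
            = F D'.flip (nn (frφ v ψ)) (ee (frφ v ψ)) ξ t by rw [hee]]
        exact he
    · push Not at hd
      have hbal : ∀ v : Pl, v ≠ 0 → fl K v = fl K (-v) := by
        intro v hv
        refine le_antisymm (hd v hv) ?_
        have := hd (-v) (neg_ne_zero.2 hv)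
        rwa [neg_neg] at this
      obtain ⟨D, D', c, c', hf⟩ := FR (1, 0) one_ne
      have hpq : D.p = D.q := by rw [← hf.p, ← hf.q]; exact hbal _ one_ne
      have hrl : ∀ j, j < D.m → D.l j = D.r j := by
        intro j hj
        rw [← hf.l j hj, ← hf.r j hj]
        exact hbal _ (mul_ne _ one_ne _)
      refine CL1 (1, 0) one_ne D D' c c' hf ?_ ?_
      · by_cases h0 : 0 < D.p
        · have := (F1G (1, 0) one_ne (Or.inl (by rw [hf.p]; exact h0))).1
          rw [hf.p, hf.q, hf.p', hf.q'] at this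
          rcases this with ⟨-, b⟩ | ⟨-, b⟩
          · exact b
          · rw [b, hpq]
        · have h1 := hf.ok.hp
          have h2 := hf.ok'.hp
          have h3 := hf.ok'.hq
          have h4 := hf.mate.hpq
          have : D.p = 0 := le_antisymm (not_lt.1 h0) h1
          rw [← hpq, this] at h4
          have : D'.q = 0 := by linarith
          rw [this, ← hpq]
          linarith
      · intro j hj
        have := hrl j hj
        rcases (pairs _ one_ne D D' c c' hf j hj).1 with ⟨a, b⟩ | ⟨a, b⟩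
        · exact ⟨a, b⟩
        · exact ⟨by rw [a, this], by rw [b, this]⟩

end Pool.MP671
end

section
/-!
# MP_671ac3_gt : module MR2, mirror images for the second part
-/
namespace Pool.MP671.MR2

open MIR

theorem norm_mir (D : Data) (e : ℝ) (z : ℕ) (hz : z + 1 < D.m) :
    (fun x => e * |x - (mir D).s (D.m - 1 - z)|) =
      fun x => (fun y => e * |y - D.s z|) (-x) := by
  funext x
  have h1 : (mir D).s (D.m - 1 - z) = -D.s z := by
    change -D.s (D.m - 1 - (D.m - 1 - z)) = _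
    rw [show D.m - 1 - (D.m - 1 - z) = z by omega]
  rw [h1]
  show e * |x - -D.s z| = e * |-x - D.s z|
  rw [show -x - D.s z = -(x - -D.s z) by ring, abs_neg]

end Pool.MP671.MR2

namespace Pool.MP671

open MIR MR2

theorem specMR2 : SpecMR2 := by
  refine ⟨fun D D' n n' e e' h => ?_, fun D D' e z h => ?_⟩
  · refine ⟨ok_mir h.ok, ok_mir h.ok', mate_mir h.mate, h.q0, h.q0', h.p0, h.e0, h.e0',
      fun x => h.nn (-x), fun x => h.nn' (-x),
      cx_neg h.cx, cx_neg h.cx', lp_neg h.lp, lp_neg h.lp', fun j hj hn hn' => ?_,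
      fun t ht htw => ?_⟩
    · have hj' : j < D.m := hj
      have hm := h.mate.hm
      change (D'.l (D'.m - 1 - j) = D.l (D.m - 1 - j) ∧ D'.r (D'.m - 1 - j) = D.r (D.m - 1 - j)) ∨
        (D'.l (D'.m - 1 - j) = D.r (D.m - 1 - j) ∧ D'.r (D'.m - 1 - j) = D.l (D.m - 1 - j))
      change 0 < n (- -D.s (D.m - 1 - j)) at hn
      change 0 < n' (- -D.s (D.m - 1 - j)) at hn'
      rw [neg_neg] at hn hn'
      rw [hm]
      rcases h.pr (D.m - 1 - j) (by omega) hn hn' with h1 | h1
      · exact Or.inl ⟨h1.2, h1.1⟩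
      · exact Or.inr ⟨h1.2, h1.1⟩
    · exact dense_neg (fun ξ => F_mir h.ok n e ξ t) (fun ξ => F_mir h.ok' n' e' ξ t)
        (h.den t ht htw)
  · have hz0 := h.z0
    have hz1 := h.z1
    refine ⟨ok_mir h.ok, ok_mir h.ok', mate_mir h.mate, h.q0, h.pq, h.hp, h.hq, h.e0,
      by omega, ?_, fun j hj hjz => ?_, fun t ht htw => ?_⟩
    · change D.m - 1 - z + 1 < D.m
      omega
    · have hj' : j < D.m := hj
      have hm := h.mate.hm
      change 0 < D.l (D.m - 1 - j) ∧ 0 < D.r (D.m - 1 - j) ∧ 0 < D'.l (D'.m - 1 - j) ∧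
        0 < D'.r (D'.m - 1 - j)
      rw [hm]
      obtain ⟨h1, h2, h3, h4⟩ := h.pos (D.m - 1 - j) (by omega) (by omega)
      exact ⟨h2, h1, h4, h3⟩
    · rw [norm_mir D e z hz1]
      exact dense_neg (fun ξ => F_mir h.ok (fun y => e * |y - D.s z|) e ξ t)
        (fun ξ => F_mir h.ok' (fun y => e * |y - D.s z|) e ξ t) (h.den t ht htw)

end Pool.MP671
end
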