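import Pool.Agent.Lib.MP_671ac3_gt.Spec
import Pool.Agent.Lib.MP_671ac3_gt.Spec2

section
/-!
# MP_671ac3_gt : module NPR, `nn φ` is convex and Lipschitz
-/
namespace Pool.MP671

open Set

namespace NPR

theorem lim0 {X Y C : ℝ} (h : ∀ t : ℝ, 0 < t → X ≤ Y + C * t) : X ≤ Y := by
  by_contra hc
  push Not at hc
  have hC : 0 < |C| + 1 := by positivity
  have ht : 0 < (X - Y) / (2 * (|C| + 1)) := by
    apply div_pos (by linarith) (by positivity)
  have h1 := h _ ht
  have h2 : C * ((X - Y) / (2 * (|C| + 1))) ≤ (|C| + 1) * ((X - Y) / (2 * (|C| + 1))) :=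
    mul_le_mul_of_nonneg_right (by linarith [le_abs_self C]) ht.le
  have h3 : (|C| + 1) * ((X - Y) / (2 * (|C| + 1))) = (X - Y) / 2 := by
    field_simp
  linarith

theorem cc_prof (y h a b c d : ℝ) :
    CC (prof y (y + h) (fun z => a + b * (z - y)) (fun z => c + d * (z - y))) := by
  refine ⟨?_, ?_⟩
  · intro u hu v hv s t hs ht hst
    obtain ⟨u1, u2, u3, u4⟩ := hu
    obtain ⟨v1, v2, v3, v4⟩ := hv
    simp only at u3 u4 v3 v4
    have m1 := fun (p q : ℝ) (hpq : p ≤ q) => mul_le_mul_of_nonneg_left hpq hs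
    have m2 := fun (p q : ℝ) (hpq : p ≤ q) => mul_le_mul_of_nonneg_left hpq ht
    have hs' : s = 1 - t := by linarith
    subst hs'
    refine ⟨?_, ?_, ?_, ?_⟩
    · have := m1 _ _ u1
      have := m2 _ _ v1
      simp only [Prod.snd_add, Prod.smul_snd, smul_eq_mul]
      linarith
    · have := m1 _ _ u2
      have := m2 _ _ v2
      simp only [Prod.snd_add, Prod.smul_snd, smul_eq_mul]
      linarith
    · have := m1 _ _ u3
      have := m2 _ _ v3
      simp only [Prod.snd_add, Prod.smul_snd, Prod.fst_add, Prod.smul_fst, smul_eq_mul]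
      linarith
    · have := m1 _ _ u4
      have := m2 _ _ v4
      simp only [Prod.snd_add, Prod.smul_snd, Prod.fst_add, Prod.smul_fst, smul_eq_mul]
      linarith
  · have hcl : IsClosed
        (prof y (y + h) (fun z => a + b * (z - y)) (fun z => c + d * (z - y))) := by
      have e : prof y (y + h) (fun z => a + b * (z - y)) (fun z => c + d * (z - y)) =
          {z : Pl | y ≤ z.2} ∩ ({z : Pl | z.2 ≤ y + h} ∩
            ({z : Pl | a + b * (z.2 - y) ≤ z.1} ∩ {z : Pl | z.1 ≤ c + d * (z.2 - y)})) := rfl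
      rw [e]
      exact (isClosed_le (by fun_prop) (by fun_prop)).inter
        ((isClosed_le (by fun_prop) (by fun_prop)).inter
          ((isClosed_le (by fun_prop) (by fun_prop)).inter
            (isClosed_le (by fun_prop) (by fun_prop))))
    refine (isCompact_Icc (a := ((a - |b| * |h|, y) : Pl)) (b := (c + |d| * |h|, y + h))).of_isClosed_subset
      hcl ?_
    rintro z ⟨z1, z2, z3, z4⟩
    simp only at z3 z4
    have h0 : 0 ≤ h := by linarith
    have hz : |z.2 - y| ≤ |h| := by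
      rw [abs_of_nonneg (by linarith), abs_of_nonneg h0]
      linarith
    have e1 : |b * (z.2 - y)| ≤ |b| * |h| := by
      rw [abs_mul]
      exact mul_le_mul_of_nonneg_left hz (abs_nonneg _)
    have e2 : |d * (z.2 - y)| ≤ |d| * |h| := by
      rw [abs_mul]
      exact mul_le_mul_of_nonneg_left hz (abs_nonneg _)
    have e3 := neg_abs_le (b * (z.2 - y))
    have e4 := le_abs_self (d * (z.2 - y))
    exact ⟨⟨by simp only; linarith, z1⟩, ⟨by simp only; linarith, z2⟩⟩

theorem cc_seg (p q : Pl) : CC (segment ℝ p q) := by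
  refine ⟨convex_segment p q, ?_⟩
  rw [← convexHull_pair]
  exact ((Set.finite_singleton q).insert p).isCompact_convexHull ℝ

theorem seg_sub {S : Set Pl} (hS : CC S) {p q : Pl} (hp : p ∈ S) (hq : q ∈ S) :
    segment ℝ p q ⊆ S := hS.1.segment_subset hp hq

theorem hseg (x1 x2 y : ℝ) (h : x1 ≤ x2) :
    segment ℝ ((x1, y) : Pl) (x2, y) = {z : Pl | z.2 = y ∧ x1 ≤ z.1 ∧ z.1 ≤ x2} := by
  have e0 : segment ℝ ((x1, y) : Pl) (x2, y) = (fun x : ℝ => ((x, y) : Pl)) '' Icc x1 x2 := by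
    rw [← segment_eq_Icc h]
    exact (Prod.image_mk_segment_left x1 x2 y).symm
  rw [e0]
  ext z
  simp only [mem_image, mem_Icc, mem_ofPred_eq]
  constructor
  · rintro ⟨x, ⟨h1, h2⟩, rfl⟩
    exact ⟨rfl, h1, h2⟩
  · rintro ⟨h1, h2, h3⟩
    exact ⟨z.1, ⟨h2, h3⟩, by rw [← h1]⟩

theorem segval {φ : Set Pl → ℝ} (hφ : IsPhi φ) (hS : SpecSEG) (p : Pl) {t σ : ℝ} (ht : 0 < t) :
    φ (segment ℝ p (p + (t * σ, t))) = 2 * (t * nn φ σ) := by
  obtain ⟨h1, h2, _⟩ := hS φ hφ
  rw [h1, add_sub_cancel_left]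
  have e : ((t * σ, t) : Pl) = t • ((σ, 1) : Pl) := by
    ext <;> simp
  rw [e, h2, abs_of_pos ht]
  rfl

theorem lip_aux {φ : Set Pl → ℝ} (hφ : IsPhi φ) (hS : SpecSEG) (hR : SpecREP) {a b : ℝ}
    (hab : a < b) : nn φ a - nn φ b ≤ ee φ * (b - a) ∧ nn φ b - nn φ a ≤ ee φ * (b - a) := by
  obtain ⟨α, hα⟩ := hR φ hφ
  have key : ∀ t : ℝ, 0 < t →
      φ (prof 0 (0 + t) (fun z => 0 + a * (z - 0)) (fun z => 0 + b * (z - 0))) =
        t * (ee φ * (b - a) + nn φ a + nn φ b + α * (b - a) / 2 * t) := by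
    intro t ht
    have := hα 0 t 0 a 0 b ht.le le_rfl (by nlinarith)
    rw [this]
    ring
  have hmem : ∀ t : ℝ, 0 < t → ∀ σ, a ≤ σ → σ ≤ b →
      t * (2 * nn φ σ) ≤ t * (ee φ * (b - a) + nn φ a + nn φ b + α * (b - a) / 2 * t) := by
    intro t ht σ h1 h2
    rw [← key t ht]
    have e : t * (2 * nn φ σ) = φ (segment ℝ (0 : Pl) (0 + (t * σ, t))) := by
      rw [segval hφ hS 0 ht]
      ring
    rw [e]
    refine hφ.mono _ _ (cc_seg _ _) (cc_prof _ _ _ _ _ _) (seg_sub (cc_prof _ _ _ _ _ _) ?_ ?_)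
    · refine ⟨by simp, by simp [ht.le], by simp, by simp⟩
    · refine ⟨by simp [ht.le], by simp, ?_, ?_⟩
      · simp only [Prod.fst_add, Prod.snd_add, Prod.fst_zero, Prod.snd_zero]
        nlinarith
      · simp only [Prod.fst_add, Prod.snd_add, Prod.fst_zero, Prod.snd_zero]
        nlinarith
  constructor
  · refine lim0 (C := α * (b - a) / 2) fun t ht => ?_
    have := le_of_mul_le_mul_left (hmem t ht a le_rfl hab.le) ht
    linarith
  · refine lim0 (C := α * (b - a) / 2) fun t ht => ?_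
    have := le_of_mul_le_mul_left (hmem t ht b hab.le le_rfl) ht
    linarith

/-- convexity inequality for `b < b'` -/
theorem cvx_aux {φ : Set Pl → ℝ} (hφ : IsPhi φ) (hS : SpecSEG) (hR : SpecREP) {b b' l : ℝ}
    (hb : b < b') (h0 : 0 < l) (h1 : l < 1) :
    nn φ ((1 - l) * b + l * b') ≤ (1 - l) * nn φ b + l * nn φ b' := by
  obtain ⟨α, hα⟩ := hR φ hφ
  obtain ⟨m, hm⟩ : ∃ m, m = (1 - l) * b + l * b' := ⟨_, rfl⟩
  rw [← hm]
  have hbm : b < m := by rw [hm]; nlinarith
  have hmb : m < b' := by rw [hm]; nlinarith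
  refine lim0 (C := α * l * (b' - m) / 2) fun t ht => ?_
  have hlt : 0 < l * t := mul_pos h0 ht
  have hlt' : 0 < (1 - l) * t := mul_pos (by linarith) ht
  -- the two parts
  obtain ⟨A, hA⟩ : ∃ A, A = prof 0 (0 + l * t) (fun z => 0 + m * (z - 0)) (fun z => 0 + b' * (z - 0)) :=
    ⟨_, rfl⟩
  obtain ⟨C, hC⟩ : ∃ C, C = prof (l * t) (l * t + (1 - l) * t)
      (fun z => m * (l * t) + m * (z - l * t)) (fun z => b' * (l * t) + b * (z - l * t)) := ⟨_, rfl⟩
  have vA : φ A = ee φ * ((b' - m) * (l * t)) + l * t * nn φ m + l * t * nn φ b'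
      + α * (l * t * ((b' - m) * (l * t)) / 2) := by
    rw [hA, hα 0 (l * t) 0 m 0 b' hlt.le le_rfl (by nlinarith)]
    ring
  have e1 : b' * (l * t) + b * ((1 - l) * t) = m * (l * t) + m * ((1 - l) * t) := by
    rw [hm]; ring
  have vC : φ C = ee φ * ((b' - m) * (l * t)) + (1 - l) * t * nn φ m + (1 - l) * t * nn φ b
      + α * ((1 - l) * t * ((b' - m) * (l * t)) / 2) := by
    rw [hC, hα (l * t) ((1 - l) * t) (m * (l * t)) m (b' * (l * t)) b hlt'.le (by nlinarith)
      e1.ge, e1]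
    ring
  have cA : CC A := hA ▸ cc_prof _ _ _ _ _ _
  have cC : CC C := hC ▸ cc_prof _ _ _ _ _ _
  have hI : A ∩ C = segment ℝ ((m * (l * t), l * t) : Pl) (b' * (l * t), l * t) := by
    rw [hseg _ _ _ (by nlinarith), hA, hC]
    ext z
    simp only [prof, mem_inter_iff, mem_ofPred_eq]
    constructor
    · rintro ⟨⟨a1, a2, a3, a4⟩, c1, c2, c3, c4⟩
      have : z.2 = l * t := le_antisymm (by linarith) c1
      rw [this] at a3 a4
      exact ⟨this, by linarith, by linarith⟩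
    · rintro ⟨a1, a2, a3⟩
      rw [a1]
      refine ⟨⟨hlt.le, by linarith, by linarith, by linarith⟩, le_rfl, by linarith, by linarith,
        by linarith⟩
  have vI : φ (A ∩ C) = 2 * (ee φ * ((b' - m) * (l * t))) := by
    obtain ⟨s1, s2, _⟩ := hS φ hφ
    rw [hI, s1]
    have e : ((b' * (l * t), l * t) : Pl) - (m * (l * t), l * t) =
        ((b' - m) * (l * t)) • ((1, 0) : Pl) := by
      ext
      · simp
        ring
      · simp
    rw [e, s2, abs_of_nonneg (by nlinarith)]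
    unfold ee
    ring
  have hU : CC (A ∪ C) := by
    have e : A ∪ C = {z : Pl | 0 ≤ z.2 ∧ z.2 ≤ t ∧ m * z.2 ≤ z.1 ∧ z.1 ≤ b' * z.2 ∧
        z.1 ≤ b' * (l * t) + b * (z.2 - l * t)} := by
      rw [hA, hC]
      ext z
      simp only [prof, mem_union, mem_ofPred_eq]
      constructor
      · rintro (⟨a1, a2, a3, a4⟩ | ⟨c1, c2, c3, c4⟩)
        · have : (b' - b) * z.2 ≤ (b' - b) * (l * t) :=
            mul_le_mul_of_nonneg_left (by linarith) (by linarith)
          exact ⟨a1, by nlinarith, by linarith, by linarith, by linarith⟩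
        · have : (b' - b) * (l * t) ≤ (b' - b) * z.2 :=
            mul_le_mul_of_nonneg_left c1 (by linarith)
          exact ⟨hlt.le.trans c1, by linarith, by linarith, by linarith, c4⟩
      · rintro ⟨a1, a2, a3, a4, a5⟩
        rcases le_total z.2 (l * t) with h | h
        · exact Or.inl ⟨a1, by linarith, by linarith, by linarith⟩
        · exact Or.inr ⟨h, by linarith, by linarith, a5⟩
    refine ⟨?_, cA.2.union cC.2⟩
    rw [e]
    intro u hu v hv p q hp hq hpq
    obtain ⟨u1, u2, u3, u4, u5⟩ := hu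
    obtain ⟨v1, v2, v3, v4, v5⟩ := hv
    have m1 := fun (x y : ℝ) (hpq : x ≤ y) => mul_le_mul_of_nonneg_left hpq hp
    have m2 := fun (x y : ℝ) (hpq : x ≤ y) => mul_le_mul_of_nonneg_left hpq hq
    have hs' : p = 1 - q := by linarith
    subst hs'
    simp only [mem_ofPred_eq, Prod.snd_add, Prod.smul_snd, Prod.fst_add, Prod.smul_fst, smul_eq_mul]
    refine ⟨?_, ?_, ?_, ?_, ?_⟩
    · have := m1 _ _ u1
      have := m2 _ _ v1
      linarith
    · have := m1 _ _ u2
      have := m2 _ _ v2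
      linarith
    · have := m1 _ _ u3
      have := m2 _ _ v3
      linarith
    · have := m1 _ _ u4
      have := m2 _ _ v4
      linarith
    · have := m1 _ _ u5
      have := m2 _ _ v5
      linarith
  have hval := hφ.val A C cA cC hU
  have hseg' : segment ℝ (0 : Pl) (0 + (t * m, t)) ⊆ A ∪ C := by
    refine seg_sub hU ?_ ?_
    · left
      rw [hA]
      exact ⟨by simp, by simpa using hlt.le, by simp, by simp⟩
    · right
      rw [hC]
      refine ⟨?_, ?_, ?_, ?_⟩
      · simp only [Prod.snd_add, Prod.snd_zero]; linarith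
      · simp only [Prod.snd_add, Prod.snd_zero]; linarith
      · simp only [Prod.fst_add, Prod.fst_zero, Prod.snd_add, Prod.snd_zero]; linarith
      · simp only [Prod.fst_add, Prod.fst_zero, Prod.snd_add, Prod.snd_zero]; linarith
  have hmono := hφ.mono _ _ (cc_seg _ _) hU hseg'
  rw [segval hφ hS 0 ht] at hmono
  have : t * nn φ m ≤ t * ((1 - l) * nn φ b + l * nn φ b' + α * l * (b' - m) / 2 * t) := by
    rw [vA, vC, vI] at hval
    nlinarith
  exact le_of_mul_le_mul_left this ht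

end NPR

theorem specNPR (hS : SpecSEG) (hR : SpecREP) : SpecNPR := by
  intro φ hφ
  constructor
  · refine ⟨convex_univ, ?_⟩
    intro x _ y _ a b ha hb hab
    simp only [smul_eq_mul]
    rcases ha.eq_or_lt with h | ha'
    · subst h
      have : b = 1 := by linarith
      subst this
      simp
    rcases hb.eq_or_lt with h | hb'
    · subst h
      have : a = 1 := by linarith
      subst this
      simp
    rcases lt_trichotomy x y with h | h | h
    · have := NPR.cvx_aux hφ hS hR h hb' (by linarith)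
      have e : 1 - b = a := by linarith
      rwa [e] at this
    · subst h
      rw [← add_mul, ← add_mul, hab]
      simp
    · have := NPR.cvx_aux hφ hS hR h ha' (by linarith)
      have e : 1 - a = b := by linarith
      rw [e] at this
      rw [add_comm (a * x), add_comm (a * nn φ x)]
      exact this
  · intro a b
    rcases lt_trichotomy a b with h | h | h
    · obtain ⟨h1, h2⟩ := NPR.lip_aux hφ hS hR h
      rw [abs_sub_comm a b, abs_of_pos (sub_pos.2 h), abs_le]
      exact ⟨by linarith, h1⟩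
    · subst h
      simp
    · obtain ⟨h1, h2⟩ := NPR.lip_aux hφ hS hR h
      rw [abs_of_pos (sub_pos.2 h), abs_le]
      exact ⟨by linarith, h2⟩

end Pool.MP671
end

section
/-!
# MP_671ac3_gt : module PAC, closure properties of piecewise affine functions
-/
namespace Pool.MP671

open Set

namespace PAC

theorem le_of {a b : ℝ} {f : ℝ → ℝ} (h : PA a b f) : a ≤ b := by
  induction h with
  | aff a b c d f hab _ => exact hab
  | cat a b c f _ _ h1 h2 => exact h1.trans h2

theorem cont {a b : ℝ} {f : ℝ → ℝ} (h : PA a b f) : ContinuousOn f (Icc a b) := by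
  induction h with
  | aff a b c d f hab hf =>
    have h1 : ContinuousOn (fun y : ℝ => c + d * y) (Icc a b) := by fun_prop
    exact h1.congr hf
  | cat a b c f h1 h2 c1 c2 =>
    have h3 := c1.union_of_isClosed c2 isClosed_Icc isClosed_Icc
    rwa [Icc_union_Icc_eq_Icc (le_of h1) (le_of h2)] at h3

theorem congr' {a b : ℝ} {f : ℝ → ℝ} (h : PA a b f) :
    ∀ g : ℝ → ℝ, (∀ y ∈ Icc a b, f y = g y) → PA a b g := by
  induction h with
  | aff a b c d f hab hf =>
    intro g hg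
    exact PA.aff a b c d g hab fun y hy => by rw [← hg y hy, hf y hy]
  | cat a b c f h1 h2 i1 i2 =>
    intro g hg
    exact PA.cat a b c g (i1 g fun y hy => hg y ⟨hy.1, hy.2.trans (le_of h2)⟩)
      (i2 g fun y hy => hg y ⟨(le_of h1).trans hy.1, hy.2⟩)

theorem split {a c : ℝ} {f : ℝ → ℝ} (h : PA a c f) :
    ∀ b, a ≤ b → b ≤ c → PA a b f ∧ PA b c f := by
  induction h with
  | aff a b c d f hab hf =>
    intro m h1 h2
    exact ⟨PA.aff a m c d f h1 fun y hy => hf y ⟨hy.1, hy.2.trans h2⟩,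
      PA.aff m b c d f h2 fun y hy => hf y ⟨h1.trans hy.1, hy.2⟩⟩
  | cat a b c f h1 h2 i1 i2 =>
    intro m hm1 hm2
    rcases le_total m b with hmb | hmb
    · obtain ⟨p1, p2⟩ := i1 m hm1 hmb
      exact ⟨p1, PA.cat m b c f p2 h2⟩
    · obtain ⟨p1, p2⟩ := i2 m hmb hm2
      exact ⟨PA.cat a b m f h1 p1, p2⟩

theorem op2 (op : ℝ → ℝ → ℝ)
    (H : ∀ a b c d c' d' : ℝ, a ≤ b → PA a b (fun y => op (c + d * y) (c' + d' * y)))
    {a b : ℝ} {f : ℝ → ℝ} (hf : PA a b f) :
    ∀ g : ℝ → ℝ, PA a b g → PA a b (fun y => op (f y) (g y)) := by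
  have key : ∀ {a b : ℝ} {g : ℝ → ℝ}, PA a b g → ∀ (f : ℝ → ℝ) (c d : ℝ),
      (∀ y ∈ Icc a b, f y = c + d * y) → PA a b (fun y => op (f y) (g y)) := by
    intro a b g hg
    induction hg with
    | aff a b c' d' g hab hg =>
      intro f c d hf
      exact congr' (H a b c d c' d' hab) _ fun y hy => by rw [hf y hy, hg y hy]
    | cat a b c' g h1 h2 i1 i2 =>
      intro f c d hf
      exact PA.cat a b c' _ (i1 f c d fun y hy => hf y ⟨hy.1, hy.2.trans (le_of h2)⟩)
        (i2 f c d fun y hy => hf y ⟨(le_of h1).trans hy.1, hy.2⟩)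
  induction hf with
  | aff a b c d f hab hf =>
    intro g hg
    exact key hg f c d hf
  | cat a b c f h1 h2 i1 i2 =>
    intro g hg
    obtain ⟨p1, p2⟩ := split hg b (le_of h1) (le_of h2)
    exact PA.cat a b c _ (i1 g p1) (i2 g p2)

theorem cross (F : ℝ → ℝ) (y0 c d c' d' : ℝ) (h1 : ∀ y ≤ y0, F y = c + d * y)
    (h2 : ∀ y, y0 ≤ y → F y = c' + d' * y) (a b : ℝ) (hab : a ≤ b) : PA a b F := by
  rcases le_total b y0 with hb | hb
  · exact PA.aff a b c d F hab fun y hy => h1 y (hy.2.trans hb)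
  rcases le_total y0 a with ha | ha
  · exact PA.aff a b c' d' F hab fun y hy => h2 y (ha.trans hy.1)
  · exact PA.cat a y0 b F (PA.aff a y0 c d F ha fun y hy => h1 y hy.2)
      (PA.aff y0 b c' d' F hb fun y hy => h2 y hy.1)

theorem root {c d c' d' : ℝ} (hd : d ≠ d') (y : ℝ) :
    (c + d * y) - (c' + d' * y) = (d - d') * (y - (c' - c) / (d - d')) := by
  have : d - d' ≠ 0 := sub_ne_zero.2 hd
  field_simp
  ring

theorem minaff (a b c d c' d' : ℝ) (hab : a ≤ b) :
    PA a b (fun y => min (c + d * y) (c' + d' * y)) := by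
  by_cases hd : d = d'
  · subst hd
    rcases le_total c c' with hc | hc
    · exact PA.aff a b c d _ hab fun y _ => min_eq_left (by linarith)
    · exact PA.aff a b c' d _ hab fun y _ => min_eq_right (by linarith)
  · have hr := root (c := c) (c' := c') hd
    rcases lt_or_gt_of_ne hd with h | h
    · refine cross _ ((c' - c) / (d - d')) c' d' c d (fun y hy => min_eq_right ?_)
        (fun y hy => min_eq_left ?_) a b hab
      · have := hr y
        nlinarith
      · have := hr y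
        nlinarith
    · refine cross _ ((c' - c) / (d - d')) c d c' d' (fun y hy => min_eq_left ?_)
        (fun y hy => min_eq_right ?_) a b hab
      · have := hr y
        nlinarith
      · have := hr y
        nlinarith

theorem maxaff (a b c d c' d' : ℝ) (hab : a ≤ b) :
    PA a b (fun y => max (c + d * y) (c' + d' * y)) := by
  by_cases hd : d = d'
  · subst hd
    rcases le_total c c' with hc | hc
    · exact PA.aff a b c' d _ hab fun y _ => max_eq_right (by linarith)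
    · exact PA.aff a b c d _ hab fun y _ => max_eq_left (by linarith)
  · have hr := root (c := c) (c' := c') hd
    rcases lt_or_gt_of_ne hd with h | h
    · refine cross _ ((c' - c) / (d - d')) c d c' d' (fun y hy => max_eq_left ?_)
        (fun y hy => max_eq_right ?_) a b hab
      · have := hr y
        nlinarith
      · have := hr y
        nlinarith
    · refine cross _ ((c' - c) / (d - d')) c' d' c d (fun y hy => max_eq_right ?_)
        (fun y hy => max_eq_left ?_) a b hab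
      · have := hr y
        nlinarith
      · have := hr y
        nlinarith

theorem addaff (a b c d c' d' : ℝ) (hab : a ≤ b) :
    PA a b (fun y => (c + d * y) + (c' + d' * y)) :=
  PA.aff a b (c + c') (d + d') _ hab fun y _ => by ring

theorem smul' {a b : ℝ} {f : ℝ → ℝ} (c : ℝ) (h : PA a b f) : PA a b (fun y => c * f y) := by
  induction h with
  | aff a b c' d' f hab hf =>
    exact PA.aff a b (c * c') (c * d') _ hab fun y hy => by rw [hf y hy]; ring
  | cat a b c' f _ _ i1 i2 => exact PA.cat a b c' _ i1 i2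

theorem shift {a b : ℝ} {f : ℝ → ℝ} (t : ℝ) (h : PA a b f) :
    PA (a + t) (b + t) (fun y => f (y - t)) := by
  induction h with
  | aff a b c d f hab hf =>
    refine PA.aff (a + t) (b + t) (c - d * t) d _ (by linarith) fun y hy => ?_
    rw [hf (y - t) ⟨by linarith [hy.1], by linarith [hy.2]⟩]
    ring
  | cat a b c f _ _ i1 i2 => exact PA.cat _ (b + t) _ _ i1 i2

theorem rfl' {a b : ℝ} {f : ℝ → ℝ} (t : ℝ) (h : PA a b f) :
    PA (t - b) (t - a) (fun y => f (t - y)) := by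
  induction h with
  | aff a b c d f hab hf =>
    refine PA.aff (t - b) (t - a) (c + d * t) (-d) _ (by linarith) fun y hy => ?_
    rw [hf (t - y) ⟨by linarith [hy.2], by linarith [hy.1]⟩]
    ring
  | cat a b c f _ _ i1 i2 => exact PA.cat _ (t - b) _ _ i2 i1

end PAC

theorem specPAC : SpecPAC :=
  ⟨fun _ _ _ h => ⟨PAC.le_of h, PAC.cont h⟩, fun _ _ _ g h hg => PAC.congr' h g hg,
    fun _ b _ _ h h1 h2 => PAC.split h b h1 h2,
    fun _ _ _ g h hg => PAC.op2 (fun x y => x + y) PAC.addaff h g hg,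
    fun _ _ _ c h => PAC.smul' c h,
    fun _ _ _ g h hg => PAC.op2 min PAC.minaff h g hg,
    fun _ _ _ g h hg => PAC.op2 max PAC.maxaff h g hg,
    fun _ _ _ t h => PAC.shift t h, fun _ _ _ t h => PAC.rfl' t h⟩

end Pool.MP671
end

section
/-!
# MP_671ac3_gt : module PAR, sets between piecewise affine graphs
-/
namespace Pool.MP671.PAR

open MeasureTheory

/-- common refinement of two piecewise affine functions -/
inductive PA2 : ℝ → ℝ → (ℝ → ℝ) → (ℝ → ℝ) → Prop
  | aff (a b c d c' d' : ℝ) (f g : ℝ → ℝ) : a ≤ b → (∀ y ∈ Set.Icc a b, f y = c + d * y) →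
      (∀ y ∈ Set.Icc a b, g y = c' + d' * y) → PA2 a b f g
  | cat (a b c : ℝ) (f g : ℝ → ℝ) : PA2 a b f g → PA2 b c f g → PA2 a c f g

theorem PA.le' {a b : ℝ} {f : ℝ → ℝ} (h : PA a b f) : a ≤ b := by
  induction h with
  | aff _ _ _ _ _ h _ => exact h
  | cat _ _ _ _ _ _ h1 h2 => exact h1.trans h2

theorem PA2.le {a b : ℝ} {f g : ℝ → ℝ} (h : PA2 a b f g) : a ≤ b := by
  induction h with
  | aff _ _ _ _ _ _ _ _ h _ _ => exact h
  | cat _ _ _ _ _ _ _ h1 h2 => exact h1.trans h2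

theorem pa2_of_aff {a b : ℝ} {g : ℝ → ℝ} (h : PA a b g) (f : ℝ → ℝ) (c d : ℝ)
    (hf : ∀ y ∈ Set.Icc a b, f y = c + d * y) : PA2 a b f g := by
  induction h with
  | aff a b c' d' g hab hg => exact PA2.aff a b c d c' d' f g hab hf hg
  | cat a b e g h1 h2 ih1 ih2 =>
    have l1 := PA.le' h1
    have l2 := PA.le' h2
    exact PA2.cat a b e f g (ih1 fun y hy => hf y ⟨hy.1, hy.2.trans l2⟩)
      (ih2 fun y hy => hf y ⟨l1.trans hy.1, hy.2⟩)

theorem pa2 (hPAC : SpecPAC) {a b : ℝ} {f : ℝ → ℝ} (h : PA a b f) (g : ℝ → ℝ) (hg : PA a b g) :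
    PA2 a b f g := by
  obtain ⟨-, -, hsp, -⟩ := hPAC
  induction h with
  | aff a b c d f hab hf => exact pa2_of_aff hg f c d hf
  | cat a b e f h1 h2 ih1 ih2 =>
    obtain ⟨g1, g2⟩ := hsp a b e g hg (PA.le' h1) (PA.le' h2)
    exact PA2.cat a b e f g (ih1 g1) (ih2 g2)

theorem prof_congr {a b : ℝ} {l r l' r' : ℝ → ℝ} (hl : ∀ y ∈ Set.Icc a b, l y = l' y)
    (hr : ∀ y ∈ Set.Icc a b, r y = r' y) : prof a b l r = prof a b l' r' := by
  ext z
  unfold prof
  simp only [Set.mem_setOf_eq]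
  constructor
  · rintro ⟨h1, h2, h3, h4⟩
    rw [← hl z.2 ⟨h1, h2⟩, ← hr z.2 ⟨h1, h2⟩]
    exact ⟨h1, h2, h3, h4⟩
  · rintro ⟨h1, h2, h3, h4⟩
    rw [hl z.2 ⟨h1, h2⟩, hr z.2 ⟨h1, h2⟩]
    exact ⟨h1, h2, h3, h4⟩

theorem prof_cc {a b : ℝ} {l r : ℝ → ℝ} (hlc : ContinuousOn l (Set.Icc a b))
    (hrc : ContinuousOn r (Set.Icc a b)) (hl : ConvexOn ℝ (Set.Icc a b) l)
    (hr : ConcaveOn ℝ (Set.Icc a b) r) : CC (prof a b l r) := by
  constructor
  · intro z hz w hw s t hs ht hst
    obtain ⟨z1, z2, z3, z4⟩ := hz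
    obtain ⟨w1, w2, w3, w4⟩ := hw
    have e1 := hl.2 (⟨z1, z2⟩ : z.2 ∈ Set.Icc a b) (⟨w1, w2⟩ : w.2 ∈ Set.Icc a b) hs ht hst
    have e2 := hr.2 (⟨z1, z2⟩ : z.2 ∈ Set.Icc a b) (⟨w1, w2⟩ : w.2 ∈ Set.Icc a b) hs ht hst
    have e3 : s • z.2 + t • w.2 ∈ Set.Icc a b :=
      (convex_Icc a b) (⟨z1, z2⟩ : z.2 ∈ Set.Icc a b) (⟨w1, w2⟩ : w.2 ∈ Set.Icc a b) hs ht hst
    simp only [smul_eq_mul] at e1 e2 e3
    refine ⟨?_, ?_, ?_, ?_⟩
    · simpa using e3.1
    · simpa using e3.2
    · simp only [Prod.snd_add, Prod.smul_snd, Prod.fst_add, Prod.smul_fst, smul_eq_mul]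
      refine e1.trans (add_le_add (mul_le_mul_of_nonneg_left z3 hs)
        (mul_le_mul_of_nonneg_left w3 ht))
    · simp only [Prod.snd_add, Prod.smul_snd, Prod.fst_add, Prod.smul_fst, smul_eq_mul]
      refine (add_le_add (mul_le_mul_of_nonneg_left z4 hs)
        (mul_le_mul_of_nonneg_left w4 ht)).trans e2
  · obtain ⟨m, hm⟩ := (isCompact_Icc (a := a) (b := b)).bddBelow_image hlc
    obtain ⟨M, hM⟩ := (isCompact_Icc (a := a) (b := b)).bddAbove_image hrc
    have hsub : prof a b l r ⊆ Set.Icc m M ×ˢ Set.Icc a b := by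
      rintro z ⟨z1, z2, z3, z4⟩
      exact ⟨⟨(hm (Set.mem_image_of_mem l ⟨z1, z2⟩)).trans z3,
        z4.trans (hM (Set.mem_image_of_mem r ⟨z1, z2⟩))⟩, z1, z2⟩
    refine IsCompact.of_isClosed_subset (isCompact_Icc.prod isCompact_Icc) ?_ hsub
    -- closedness: work inside the strip
    have hstrip : IsClosed {z : Pl | z.2 ∈ Set.Icc a b} := isClosed_Icc.preimage continuous_snd
    have hl' : ContinuousOn (fun z : Pl => l z.2) {z : Pl | z.2 ∈ Set.Icc a b} :=
      hlc.comp continuous_snd.continuousOn fun z hz => hz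
    have hr' : ContinuousOn (fun z : Pl => r z.2) {z : Pl | z.2 ∈ Set.Icc a b} :=
      hrc.comp continuous_snd.continuousOn fun z hz => hz
    have c1 : IsClosed {z : Pl | z ∈ {z : Pl | z.2 ∈ Set.Icc a b} ∧ l z.2 ≤ z.1} :=
      hstrip.isClosed_le hl' continuous_fst.continuousOn
    have c2 : IsClosed {z : Pl | z ∈ {z : Pl | z.2 ∈ Set.Icc a b} ∧ z.1 ≤ r z.2} :=
      hstrip.isClosed_le continuous_fst.continuousOn hr'
    have : prof a b l r = {z : Pl | z ∈ {z : Pl | z.2 ∈ Set.Icc a b} ∧ l z.2 ≤ z.1} ∩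
        {z : Pl | z ∈ {z : Pl | z.2 ∈ Set.Icc a b} ∧ z.1 ≤ r z.2} := by
      ext z
      unfold prof
      simp only [Set.mem_setOf_eq, Set.mem_inter_iff, Set.mem_Icc]
      tauto
    rw [this]
    exact c1.inter c2

theorem seg_horiz (y p q : ℝ) (hpq : p ≤ q) :
    {z : Pl | z.2 = y ∧ p ≤ z.1 ∧ z.1 ≤ q} = segment ℝ ((p, y) : Pl) (q, y) := by
  ext z
  rw [segment_eq_image]
  simp only [Set.mem_setOf_eq, Set.mem_image, Set.mem_Icc]
  constructor
  · rintro ⟨h1, h2, h3⟩
    rcases eq_or_lt_of_le hpq with h | h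
    · refine ⟨0, ⟨le_rfl, zero_le_one⟩, ?_⟩
      ext
      · simp
        linarith
      · simp
        linarith
    · refine ⟨(z.1 - p) / (q - p), ⟨div_nonneg (by linarith) (by linarith),
        (div_le_one (by linarith)).2 (by linarith)⟩, ?_⟩
      have hne : q - p ≠ 0 := by linarith
      ext
      · simp
        field_simp
        ring
      · simp
        rw [h1]
        ring
  · rintro ⟨t, ⟨h1, h2⟩, rfl⟩
    refine ⟨?_, ?_, ?_⟩
    · simp
      ring
    · simp
      nlinarith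
    · simp
      nlinarith

/-- the claim for a pair of boundary functions -/
def Cl (φ : Set Pl → ℝ) (α a b : ℝ) (l r : ℝ → ℝ) : Prop :=
  IntervalIntegrable (fun y => nn φ (deriv l y) + nn φ (deriv r y)) volume a b ∧
  IntervalIntegrable (fun y => r y - l y) volume a b ∧
  φ (prof a b l r) = ee φ * ((r a - l a) + (r b - l b))
      + (∫ y in a..b, (nn φ (deriv l y) + nn φ (deriv r y))) + α * ∫ y in a..b, (r y - l y)

theorem deriv_aff {a b c d : ℝ} {f : ℝ → ℝ} (hf : ∀ y ∈ Set.Icc a b, f y = c + d * y) :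
    ∀ y ∈ Set.Ioo a b, deriv f y = d := by
  intro y hy
  have h : f =ᶠ[nhds y] fun y => c + d * y := by
    filter_upwards [Ioo_mem_nhds hy.1 hy.2] with z hz
    exact hf z ⟨hz.1.le, hz.2.le⟩
  rw [h.deriv_eq]
  simp

theorem base {φ : Set Pl → ℝ} {α : ℝ}
    (hα : ∀ y h a b c d : ℝ, 0 ≤ h → a ≤ c → a + b * h ≤ c + d * h →
      φ (prof y (y + h) (fun z => a + b * (z - y)) (fun z => c + d * (z - y))) =
      ee φ * ((c - a) + (c + d * h - (a + b * h))) + h * nn φ b + h * nn φ d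
        + α * (h * ((c - a) + (c + d * h - (a + b * h))) / 2))
    {a b c d c' d' : ℝ} {l r : ℝ → ℝ} (hab : a ≤ b) (hl : ∀ y ∈ Set.Icc a b, l y = c + d * y)
    (hr : ∀ y ∈ Set.Icc a b, r y = c' + d' * y) (hlr : ∀ y ∈ Set.Icc a b, l y ≤ r y) :
    Cl φ α a b l r := by
  have hd1 := deriv_aff hl
  have hd2 := deriv_aff hr
  have hI1 : ∀ y ∈ Set.Ioo a b, nn φ (deriv l y) + nn φ (deriv r y) = nn φ d + nn φ d' := by
    intro y hy
    rw [hd1 y hy, hd2 y hy]
  have ha : a ∈ Set.Icc a b := ⟨le_rfl, hab⟩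
  have hb : b ∈ Set.Icc a b := ⟨hab, le_rfl⟩
  have i1 : IntervalIntegrable (fun y => nn φ (deriv l y) + nn φ (deriv r y)) volume a b := by
    rw [intervalIntegrable_iff_integrableOn_Ioo_of_le hab]
    refine IntegrableOn.congr_fun (f := fun _ => nn φ d + nn φ d') ?_
      (fun y hy => (hI1 y hy).symm) measurableSet_Ioo
    exact integrableOn_const (by simp)
  have hI2 : ∀ y ∈ Set.Ioo a b, r y - l y = (c' + d' * y) - (c + d * y) := by
    intro y hy
    rw [hl y ⟨hy.1.le, hy.2.le⟩, hr y ⟨hy.1.le, hy.2.le⟩]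
  have i2 : IntervalIntegrable (fun y => r y - l y) volume a b := by
    rw [intervalIntegrable_iff_integrableOn_Ioo_of_le hab]
    refine IntegrableOn.congr_fun (f := fun y => (c' + d' * y) - (c + d * y)) ?_
      (fun y hy => (hI2 y hy).symm) measurableSet_Ioo
    rw [← intervalIntegrable_iff_integrableOn_Ioo_of_le hab]
    exact Continuous.intervalIntegrable (by fun_prop) a b
  have e1 : (∫ y in a..b, (nn φ (deriv l y) + nn φ (deriv r y))) =
      (b - a) * (nn φ d + nn φ d') := by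
    rw [intervalIntegral.integral_of_le hab, integral_Ioc_eq_integral_Ioo,
      setIntegral_congr_fun measurableSet_Ioo hI1, ← integral_Ioc_eq_integral_Ioo,
      ← intervalIntegral.integral_of_le hab, intervalIntegral.integral_const, smul_eq_mul]
  have e2 : (∫ y in a..b, (r y - l y)) =
      (b - a) * ((r a - l a) + (r b - l b)) / 2 := by
    rw [intervalIntegral.integral_of_le hab, integral_Ioc_eq_integral_Ioo,
      setIntegral_congr_fun measurableSet_Ioo hI2, ← integral_Ioc_eq_integral_Ioo,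
      ← intervalIntegral.integral_of_le hab, hl a ha, hl b hb, hr a ha, hr b hb]
    have : (fun y : ℝ => (c' + d' * y) - (c + d * y)) = fun y => (c' - c) + (d' - d) * y := by
      funext y
      ring
    rw [this, intervalIntegral.integral_add (by simp) (Continuous.intervalIntegrable
      (by fun_prop) a b), intervalIntegral.integral_const, intervalIntegral.integral_const_mul,
      integral_id, smul_eq_mul]
    ring
  refine ⟨i1, i2, ?_⟩
  rw [e1, e2]
  have h3 := hα a (b - a) (l a) d (r a) d' (by linarith) (hlr a ha) (by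
    have := hlr b hb
    rw [hl b hb, hr b hb] at this
    rw [hl a ha, hr a ha]
    linarith)
  have h4 : prof a b l r = prof a (a + (b - a)) (fun z => l a + d * (z - a))
      (fun z => r a + d' * (z - a)) := by
    rw [show a + (b - a) = b by ring]
    refine prof_congr (fun y hy => ?_) fun y hy => ?_
    · rw [hl y hy, hl a ha]
      ring
    · rw [hr y hy, hr a ha]
      ring
  have h5 : l a + d * (b - a) = l b := by
    rw [hl a ha, hl b hb]
    ring
  have h6 : r a + d' * (b - a) = r b := by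
    rw [hr a ha, hr b hb]
    ring
  rw [h4, h3, h5, h6]
  ring

theorem step {φ : Set Pl → ℝ} (hφ : IsPhi φ) (hSEG : SpecSEG) {α : ℝ} {a b c : ℝ}
    {l r : ℝ → ℝ} (hab : a ≤ b) (hbc : b ≤ c) (hlc : ContinuousOn l (Set.Icc a c))
    (hrc : ContinuousOn r (Set.Icc a c)) (hl : ConvexOn ℝ (Set.Icc a c) l)
    (hr : ConcaveOn ℝ (Set.Icc a c) r) (hlr : ∀ y ∈ Set.Icc a c, l y ≤ r y)
    (h1 : Cl φ α a b l r) (h2 : Cl φ α b c l r) : Cl φ α a c l r := by
  obtain ⟨i1, i2, e1⟩ := h1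
  obtain ⟨j1, j2, e2⟩ := h2
  refine ⟨i1.trans j1, i2.trans j2, ?_⟩
  rw [← intervalIntegral.integral_add_adjacent_intervals i1 j1,
    ← intervalIntegral.integral_add_adjacent_intervals i2 j2]
  have s1 : Set.Icc a b ⊆ Set.Icc a c := Set.Icc_subset_Icc_right hbc
  have s2 : Set.Icc b c ⊆ Set.Icc a c := Set.Icc_subset_Icc_left hab
  have c1 : CC (prof a b l r) := prof_cc (hlc.mono s1) (hrc.mono s1)
    (hl.subset s1 (convex_Icc a b)) (hr.subset s1 (convex_Icc a b))
  have c2 : CC (prof b c l r) := prof_cc (hlc.mono s2) (hrc.mono s2)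
    (hl.subset s2 (convex_Icc b c)) (hr.subset s2 (convex_Icc b c))
  have hu : prof a b l r ∪ prof b c l r = prof a c l r := by
    ext z
    unfold prof
    simp only [Set.mem_union, Set.mem_setOf_eq]
    constructor
    · rintro (⟨p1, p2, p3⟩ | ⟨p1, p2, p3⟩)
      · exact ⟨p1, p2.trans hbc, p3⟩
      · exact ⟨hab.trans p1, p2, p3⟩
    · rintro ⟨p1, p2, p3⟩
      rcases le_total z.2 b with h | h
      · exact Or.inl ⟨p1, h, p3⟩
      · exact Or.inr ⟨h, p2, p3⟩
  have hlb : l b ≤ r b := hlr b ⟨hab, hbc⟩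
  have hi : prof a b l r ∩ prof b c l r = segment ℝ ((l b, b) : Pl) (r b, b) := by
    rw [← seg_horiz b (l b) (r b) hlb]
    ext z
    unfold prof
    simp only [Set.mem_inter_iff, Set.mem_setOf_eq]
    constructor
    · rintro ⟨⟨p1, p2, p3, p4⟩, q1, q2, q3, q4⟩
      have : z.2 = b := le_antisymm p2 q1
      rw [this] at p3 p4
      exact ⟨this, p3, p4⟩
    · rintro ⟨p1, p2, p3⟩
      rw [p1]
      exact ⟨⟨hab, le_rfl, p2, p3⟩, le_rfl, hbc, p2, p3⟩
  have hv := hφ.val _ _ c1 c2 (by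
    rw [hu]
    exact prof_cc hlc hrc hl hr)
  obtain ⟨g1, g2, -⟩ := hSEG φ hφ
  have hs : φ (segment ℝ ((l b, b) : Pl) (r b, b)) = 2 * ((r b - l b) * ee φ) := by
    rw [g1]
    have : ((r b, b) : Pl) - (l b, b) = (r b - l b) • ((1, 0) : Pl) := by
      ext <;> simp
    rw [this, g2, abs_of_nonneg (by linarith)]
    rfl
  rw [hu, hi, hs, e1, e2] at hv
  linarith

theorem main {φ : Set Pl → ℝ} (hφ : IsPhi φ) (hSEG : SpecSEG) {α : ℝ}
    (hα : ∀ y h a b c d : ℝ, 0 ≤ h → a ≤ c → a + b * h ≤ c + d * h →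
      φ (prof y (y + h) (fun z => a + b * (z - y)) (fun z => c + d * (z - y))) =
      ee φ * ((c - a) + (c + d * h - (a + b * h))) + h * nn φ b + h * nn φ d
        + α * (h * ((c - a) + (c + d * h - (a + b * h))) / 2))
    {a b : ℝ} {l r : ℝ → ℝ} (h : PA2 a b l r) (hlc : ContinuousOn l (Set.Icc a b))
    (hrc : ContinuousOn r (Set.Icc a b)) (hl : ConvexOn ℝ (Set.Icc a b) l)
    (hr : ConcaveOn ℝ (Set.Icc a b) r) (hlr : ∀ y ∈ Set.Icc a b, l y ≤ r y) :
    Cl φ α a b l r := by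
  induction h with
  | aff a b c d c' d' l r hab h1 h2 => exact base hα hab h1 h2 hlr
  | cat a b c l r h1 h2 ih1 ih2 =>
    have hab := PA2.le h1
    have hbc := PA2.le h2
    have s1 : Set.Icc a b ⊆ Set.Icc a c := Set.Icc_subset_Icc_right hbc
    have s2 : Set.Icc b c ⊆ Set.Icc a c := Set.Icc_subset_Icc_left hab
    exact step hφ hSEG hab hbc hlc hrc hl hr hlr
      (ih1 (hlc.mono s1) (hrc.mono s1) (hl.subset s1 (convex_Icc a b))
        (hr.subset s1 (convex_Icc a b)) fun y hy => hlr y (s1 hy))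
      (ih2 (hlc.mono s2) (hrc.mono s2) (hl.subset s2 (convex_Icc b c))
        (hr.subset s2 (convex_Icc b c)) fun y hy => hlr y (s2 hy))

end Pool.MP671.PAR

namespace Pool.MP671

open PAR

theorem specPAR (hSEG : SpecSEG) (hREP : SpecREP) (hPAC : SpecPAC) : SpecPAR := by
  intro φ hφ
  obtain ⟨α, hα⟩ := hREP φ hφ
  refine ⟨α, fun a b l r hab pl pr hl hr hlr => ?_⟩
  exact (PAR.main hφ hSEG hα (pa2 hPAC pl r pr) (hPAC.1 a b l pl).2 (hPAC.1 a b r pr).2 hl hr
    hlr).2.2

end Pool.MP671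
end

section
/-!
# MP_671ac3_gt : module REP (the valuation on trapezoids)
-/
namespace Pool.MP671

namespace REP

/-- additive monotone functions on `[0,∞)` are linear -/
theorem lin (f : ℝ → ℝ) (hadd : ∀ s t, 0 ≤ s → 0 ≤ t → f (s + t) = f s + f t)
    (hmono : ∀ s t, 0 ≤ s → s ≤ t → f s ≤ f t) : ∀ t, 0 ≤ t → f t = t * f 1 := by
  have h0 : f 0 = 0 := by
    have := hadd 0 0 le_rfl le_rfl
    simp at this
    exact this
  have hn : ∀ (n : ℕ) (t : ℝ), 0 ≤ t → f (n * t) = n * f t := by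
    intro n t ht
    induction n with
    | zero => simp [h0]
    | succ n ih =>
      push_cast
      rw [add_mul, one_mul, hadd _ _ (by positivity) ht, ih]
      ring
  have h1 : 0 ≤ f 1 := by
    rw [← h0]; exact hmono 0 1 le_rfl zero_le_one
  intro t ht
  have key : ∀ n : ℕ, |(n : ℝ) * (f t - t * f 1)| ≤ f 1 := by
    intro n
    have hnt : 0 ≤ (n : ℝ) * t := by positivity
    have ha := Nat.floor_le hnt
    have hb := (Nat.lt_floor_add_one ((n : ℝ) * t)).le
    have e1 := hmono _ _ (by positivity) ha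
    have e2 := hmono _ _ hnt hb
    have e3 : f ((⌊(n : ℝ) * t⌋₊ : ℕ) : ℝ) = ⌊(n : ℝ) * t⌋₊ * f 1 := by
      have := hn ⌊(n : ℝ) * t⌋₊ 1 zero_le_one
      simpa using this
    have e4 : f (((⌊(n : ℝ) * t⌋₊ : ℕ) : ℝ) + 1) = (⌊(n : ℝ) * t⌋₊ + 1) * f 1 := by
      rw [hadd _ _ (by positivity) zero_le_one, e3]; ring
    rw [hn n t ht] at e1 e2
    rw [e3] at e1
    rw [e4] at e2
    rw [abs_le]
    constructor
    · nlinarith [mul_le_mul_of_nonneg_right hb h1]
    · nlinarith [mul_le_mul_of_nonneg_right ha h1]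
  by_contra hne
  have hd : 0 < |f t - t * f 1| := abs_pos.mpr (sub_ne_zero.mpr hne)
  obtain ⟨n, hn'⟩ := exists_nat_gt (f 1 / |f t - t * f 1|)
  have h2 := key n
  rw [abs_mul, Nat.abs_cast] at h2
  rw [div_lt_iff₀ hd] at hn'
  linarith

/-- the trapezoid `a + b y ≤ x ≤ c + d y`, `0 ≤ y ≤ h` -/
def TZ (h a b c d : ℝ) : Set Pl := prof 0 h (fun y => a + b * y) (fun y => c + d * y)

theorem mem_TZ {h a b c d : ℝ} {z : Pl} :
    z ∈ TZ h a b c d ↔ 0 ≤ z.2 ∧ z.2 ≤ h ∧ a + b * z.2 ≤ z.1 ∧ z.1 ≤ c + d * z.2 := Iff.rfl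

theorem CC_TZ (h a b c d : ℝ) : CC (TZ h a b c d) := by
  constructor
  · intro x hx y hy s t hs ht hst
    rw [mem_TZ] at hx hy ⊢
    obtain ⟨x1, x2, x3, x4⟩ := hx
    obtain ⟨y1, y2, y3, y4⟩ := hy
    simp only [Prod.fst_add, Prod.snd_add, Prod.smul_fst, Prod.smul_snd, smul_eq_mul]
    have ht' : t = 1 - s := by linarith
    subst ht'
    refine ⟨by positivity, ?_, ?_, ?_⟩
    · nlinarith
    · nlinarith [mul_le_mul_of_nonneg_left x3 hs, mul_le_mul_of_nonneg_left y3 ht]
    · nlinarith [mul_le_mul_of_nonneg_left x4 hs, mul_le_mul_of_nonneg_left y4 ht]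
  · have hcl : IsClosed (TZ h a b c d) := by
      have e : TZ h a b c d = {z : Pl | 0 ≤ z.2} ∩ ({z : Pl | z.2 ≤ h} ∩
          ({z : Pl | a + b * z.2 ≤ z.1} ∩ {z : Pl | z.1 ≤ c + d * z.2})) := by
        ext z
        rfl
      rw [e]
      refine (isClosed_le (by fun_prop) (by fun_prop)).inter
        ((isClosed_le (by fun_prop) (by fun_prop)).inter
        ((isClosed_le (by fun_prop) (by fun_prop)).inter
        (isClosed_le (by fun_prop) (by fun_prop))))
    refine IsCompact.of_isClosed_subset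
      (isCompact_Icc (a := ((-(|a| + |b| * |h|), 0) : Pl)) (b := ((|c| + |d| * |h|, h) : Pl)))
      hcl ?_
    intro z hz
    rw [mem_TZ] at hz
    obtain ⟨z1, z2, z3, z4⟩ := hz
    have hz2 : |z.2| ≤ |h| := abs_le_abs_of_nonneg z1 z2
    have e1 : |b * z.2| ≤ |b| * |h| := by
      rw [abs_mul]; exact mul_le_mul_of_nonneg_left hz2 (abs_nonneg b)
    have e2 : |d * z.2| ≤ |d| * |h| := by
      rw [abs_mul]; exact mul_le_mul_of_nonneg_left hz2 (abs_nonneg d)
    have e3 := neg_abs_le (b * z.2)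
    have e4 := le_abs_self (d * z.2)
    have e5 := neg_abs_le a
    have e6 := le_abs_self c
    refine ⟨⟨?_, z1⟩, ⟨?_, z2⟩⟩
    · change -(|a| + |b| * |h|) ≤ z.1
      linarith
    · change z.1 ≤ |c| + |d| * |h|
      linarith

theorem CC_seg (a b : Pl) : CC (segment ℝ a b) := by
  refine ⟨convex_segment a b, ?_⟩
  rw [segment_eq_image]
  exact isCompact_Icc.image (by fun_prop)

/-- a degenerate trapezoid is a segment -/
theorem TZ_seg {h a b : ℝ} (hh : 0 ≤ h) :
    TZ h a b a b = segment ℝ ((a, 0) : Pl) (a + b * h, h) := by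
  ext z
  rw [mem_TZ]
  constructor
  · rintro ⟨z1, z2, z3, z4⟩
    have hz : z.1 = a + b * z.2 := le_antisymm z4 z3
    rcases eq_or_lt_of_le hh with h0 | h0
    · have h2 : z.2 = 0 := le_antisymm (by rw [h0]; exact z2) z1
      have hz1 : z = (a, 0) := by
        rw [h2] at hz
        ext
        · simpa using hz
        · exact h2
      rw [hz1]
      exact left_mem_segment ℝ _ _
    · refine ⟨1 - z.2 / h, z.2 / h, ?_, by positivity, by ring, ?_⟩
      · rw [sub_nonneg, div_le_one h0]; exact z2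
      · ext
        · simp only [Prod.fst_add, Prod.smul_fst, smul_eq_mul]
          rw [hz]; field_simp; ring
        · simp only [Prod.snd_add, Prod.smul_snd, smul_eq_mul]
          field_simp; ring
  · rintro ⟨s, t, hs, ht, hst, rfl⟩
    simp only [Prod.fst_add, Prod.snd_add, Prod.smul_fst, Prod.smul_snd, smul_eq_mul]
    have hs' : s = 1 - t := by linarith
    subst hs'
    refine ⟨by nlinarith, by nlinarith, le_of_eq (by ring), le_of_eq (by ring)⟩

section

variable {φ : Set Pl → ℝ}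

theorem nrm_h (hSEG : SpecSEG) (hφ : IsPhi φ) {h b : ℝ} (hh : 0 ≤ h) :
    nrm φ (b * h, h) = h * nn φ b := by
  have h1 := (hSEG φ hφ).2.1 h (b, 1)
  rw [abs_of_nonneg hh] at h1
  have h2 : h • ((b, 1) : Pl) = (b * h, h) := by
    ext <;> simp [mul_comm]
  rw [h2] at h1
  exact h1

theorem φ_seg (hSEG : SpecSEG) (hφ : IsPhi φ) {h a b : ℝ} (hh : 0 ≤ h) :
    φ (TZ h a b a b) = 2 * h * nn φ b := by
  rw [TZ_seg hh, (hSEG φ hφ).1]
  have e : ((a + b * h, h) : Pl) - (a, 0) = (b * h, h) := by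
    ext <;> simp
  rw [e, nrm_h hSEG hφ hh]; ring

theorem φ_hor (hSEG : SpecSEG) (hφ : IsPhi φ) {x y c : ℝ} (hc : 0 ≤ c) :
    φ (segment ℝ ((x, y) : Pl) (x + c, y)) = 2 * c * ee φ := by
  rw [(hSEG φ hφ).1]
  have e : ((x + c, y) : Pl) - (x, y) = c • ((1, 0) : Pl) := by
    ext <;> simp
  rw [e, (hSEG φ hφ).2.1, abs_of_nonneg hc]
  unfold ee; ring

theorem φ_tr (hφ : IsPhi φ) (h a b c d x : ℝ) : φ (TZ h (a + x) b (c + x) d) = φ (TZ h a b c d) := by
  rw [← hφ.trans (TZ h a b c d) (x, 0) (CC_TZ _ _ _ _ _)]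
  congr 1
  ext z
  simp only [tr, Set.mem_image, mem_TZ]
  constructor
  · rintro ⟨z1, z2, z3, z4⟩
    refine ⟨(z.1 - x, z.2), ⟨z1, z2, ?_, ?_⟩, ?_⟩
    · simp only; linarith
    · simp only; linarith
    · ext <;> simp
  · rintro ⟨w, ⟨w1, w2, w3, w4⟩, rfl⟩
    simp only [Prod.fst_add, Prod.snd_add, add_zero]
    exact ⟨w1, w2, by linarith, by linarith⟩

theorem φ_prof (hφ : IsPhi φ) (y h a b c d : ℝ) :
    φ (prof y (y + h) (fun z => a + b * (z - y)) (fun z => c + d * (z - y)))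
      = φ (TZ h 0 b (c - a) d) := by
  rw [← hφ.trans (TZ h 0 b (c - a) d) (a, y) (CC_TZ _ _ _ _ _)]
  congr 1
  ext z
  simp only [tr, Set.mem_image, mem_TZ, prof, Set.mem_ofPred_eq]
  constructor
  · rintro ⟨z1, z2, z3, z4⟩
    refine ⟨(z.1 - a, z.2 - y), ⟨?_, ?_, ?_, ?_⟩, ?_⟩
    · simp only; linarith
    · simp only; linarith
    · simp only; linarith
    · simp only; linarith
    · ext <;> simp
  · rintro ⟨w, ⟨w1, w2, w3, w4⟩, rfl⟩
    simp only [Prod.fst_add, Prod.snd_add, add_sub_cancel_right]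
    exact ⟨by linarith, by linarith, by linarith, by linarith⟩

theorem φ_refl (hφ : IsPhi φ) (h a b c d : ℝ) :
    φ (TZ h (-(c + d * h)) d (-(a + b * h)) b) = φ (TZ h a b c d) := by
  have hcc : CC (refl (TZ h a b c d)) := by
    refine ⟨?_, (CC_TZ _ _ _ _ _).2.image (by fun_prop)⟩
    have := (CC_TZ h a b c d).1.neg
    have e : -(TZ h a b c d) = refl (TZ h a b c d) := by
      rw [refl, Set.image_neg_eq_neg]
    rwa [e] at this
  rw [← hφ.even (TZ h a b c d) (CC_TZ _ _ _ _ _), ← hφ.trans (refl (TZ h a b c d)) (0, h) hcc]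
  congr 1
  ext z
  simp only [tr, refl, Set.mem_image, mem_TZ]
  constructor
  · rintro ⟨z1, z2, z3, z4⟩
    refine ⟨(z.1, z.2 - h), ⟨(-z.1, h - z.2), ⟨?_, ?_, ?_, ?_⟩, ?_⟩, ?_⟩
    · simp only; linarith
    · simp only; linarith
    · simp only; nlinarith
    · simp only; nlinarith
    · ext <;> simp
    · ext <;> simp
  · rintro ⟨_, ⟨w, ⟨w1, w2, w3, w4⟩, rfl⟩, rfl⟩
    simp only [Prod.fst_add, Prod.snd_add, Prod.fst_neg, Prod.snd_neg, add_zero]
    exact ⟨by linarith, by linarith, by nlinarith, by nlinarith⟩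

/-- cut along the graph of an affine function -/
theorem cutV (hSEG : SpecSEG) (hφ : IsPhi φ) {h a b c d m k : ℝ} (hh : 0 ≤ h)
    (h1 : ∀ y, 0 ≤ y → y ≤ h → a + b * y ≤ m + k * y)
    (h2 : ∀ y, 0 ≤ y → y ≤ h → m + k * y ≤ c + d * y) :
    φ (TZ h a b c d) = φ (TZ h a b m k) + φ (TZ h m k c d) - 2 * h * nn φ k := by
  have hU : TZ h a b m k ∪ TZ h m k c d = TZ h a b c d := by
    ext z
    simp only [Set.mem_union, mem_TZ]
    constructor
    · rintro (⟨z1, z2, z3, z4⟩ | ⟨z1, z2, z3, z4⟩)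
      · exact ⟨z1, z2, z3, z4.trans (h2 _ z1 z2)⟩
      · exact ⟨z1, z2, (h1 _ z1 z2).trans z3, z4⟩
    · rintro ⟨z1, z2, z3, z4⟩
      rcases le_total z.1 (m + k * z.2) with h3 | h3
      · exact Or.inl ⟨z1, z2, z3, h3⟩
      · exact Or.inr ⟨z1, z2, h3, z4⟩
  have hI : TZ h a b m k ∩ TZ h m k c d = TZ h m k m k := by
    ext z
    simp only [Set.mem_inter_iff, mem_TZ]
    constructor
    · rintro ⟨⟨z1, z2, z3, z4⟩, ⟨_, _, z5, z6⟩⟩
      exact ⟨z1, z2, z5, z4⟩
    · rintro ⟨z1, z2, z3, z4⟩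
      exact ⟨⟨z1, z2, (h1 _ z1 z2).trans z3, z4⟩, ⟨z1, z2, z3, z4.trans (h2 _ z1 z2)⟩⟩
  have h3 := hφ.val _ _ (CC_TZ h a b m k) (CC_TZ h m k c d) (by rw [hU]; exact CC_TZ _ _ _ _ _)
  rw [hU, hI, φ_seg hSEG hφ hh] at h3
  linarith

/-- horizontal cut of a rectangle -/
theorem cutH (hSEG : SpecSEG) (hφ : IsPhi φ) {h k c : ℝ} (hh : 0 ≤ h) (hk : 0 ≤ k) (hc : 0 ≤ c) :
    φ (TZ (h + k) 0 0 c 0) = φ (TZ h 0 0 c 0) + φ (TZ k 0 0 c 0) - 2 * c * ee φ := by
  have htr : CC (tr (0, h) (TZ k 0 0 c 0)) := by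
    refine ⟨?_, (CC_TZ _ _ _ _ _).2.image (by fun_prop)⟩
    have := (CC_TZ k 0 0 c 0).1.translate ((0, h) : Pl)
    have e : (fun z => (0, h) + z) '' TZ k 0 0 c 0 = tr (0, h) (TZ k 0 0 c 0) := by
      simp only [tr, add_comm]
    rwa [e] at this
  have hU : TZ h 0 0 c 0 ∪ tr (0, h) (TZ k 0 0 c 0) = TZ (h + k) 0 0 c 0 := by
    ext z
    simp only [Set.mem_union, mem_TZ, tr, Set.mem_image, zero_mul, add_zero]
    constructor
    · rintro (⟨z1, z2, z3, z4⟩ | ⟨w, ⟨z1, z2, z3, z4⟩, rfl⟩)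
      · exact ⟨z1, by linarith, z3, z4⟩
      · simp only [Prod.fst_add, Prod.snd_add, add_zero]
        exact ⟨by linarith, by linarith, z3, z4⟩
    · rintro ⟨z1, z2, z3, z4⟩
      rcases le_total z.2 h with h3 | h3
      · exact Or.inl ⟨z1, h3, z3, z4⟩
      · refine Or.inr ⟨(z.1, z.2 - h), ⟨?_, ?_, z3, z4⟩, ?_⟩
        · simp only; linarith
        · simp only; linarith
        · ext <;> simp
  have hI : TZ h 0 0 c 0 ∩ tr (0, h) (TZ k 0 0 c 0) = segment ℝ ((0, h) : Pl) (0 + c, h) := by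
    ext z
    simp only [Set.mem_inter_iff, mem_TZ, tr, Set.mem_image, zero_mul, add_zero]
    constructor
    · rintro ⟨⟨z1, z2, z3, z4⟩, ⟨w, ⟨w1, w2, w3, w4⟩, hw⟩⟩
      have e2 : z.2 = h := by
        have : w.2 + h = z.2 := by rw [← hw]; simp
        linarith
      rcases eq_or_lt_of_le hc with h0 | h0
      · have e1 : z.1 = 0 := le_antisymm (by rw [h0]; exact z4) z3
        have e3 : z = (0, h) := by
          ext
          · exact e1
          · exact e2
        rw [e3]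
        exact left_mem_segment ℝ _ _
      · refine ⟨1 - z.1 / c, z.1 / c, ?_, by positivity, by ring, ?_⟩
        · rw [sub_nonneg, div_le_one h0]; exact z4
        · ext
          · simp only [Prod.fst_add, Prod.smul_fst, smul_eq_mul]
            field_simp; ring
          · simp only [Prod.snd_add, Prod.smul_snd, smul_eq_mul]
            rw [e2]; ring
    · rintro ⟨s, t, hs, ht, hst, rfl⟩
      have hs' : s = 1 - t := by linarith
      subst hs'
      simp only [Prod.fst_add, Prod.snd_add, Prod.smul_fst, Prod.smul_snd, smul_eq_mul]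
      refine ⟨⟨by nlinarith, by nlinarith, by nlinarith, by nlinarith⟩,
        ⟨(t * c, 0), ⟨le_rfl, hk, by positivity, ?_⟩, ?_⟩⟩
      · simp only; nlinarith
      · ext
        · simp
        · simp only [Prod.snd_add, Prod.smul_snd, smul_eq_mul, zero_add]; ring
  have h3 := hφ.val _ _ (CC_TZ h 0 0 c 0) htr (by rw [hU]; exact CC_TZ _ _ _ _ _)
  rw [hU, hI, hφ.trans _ _ (CC_TZ _ _ _ _ _), φ_hor hSEG hφ hc] at h3
  linarith

/-- `φ` minus the perimeter, for the trapezoid with left bottom corner `0` -/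
noncomputable def B (φ : Set Pl → ℝ) (h b c d : ℝ) : ℝ :=
  φ (TZ h 0 b c d) - ee φ * (c + (c + d * h - b * h)) - h * nn φ b - h * nn φ d

theorem B_cut (hSEG : SpecSEG) (hφ : IsPhi φ) {h b c d m k : ℝ} (hh : 0 ≤ h)
    (h1 : ∀ y, 0 ≤ y → y ≤ h → b * y ≤ m + k * y)
    (h2 : ∀ y, 0 ≤ y → y ≤ h → m + k * y ≤ c + d * y) :
    B φ h b c d = B φ h b m k + B φ h k (c - m) d := by
  have h3 := cutV hSEG hφ (a := 0) (b := b) (c := c) (d := d) (m := m) (k := k) hh
    (fun y hy hy' => by rw [zero_add]; exact h1 y hy hy') h2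
  have h4 := φ_tr hφ h 0 k (c - m) d m
  rw [zero_add, sub_add_cancel] at h4
  unfold B
  rw [h3, h4]; ring

theorem B_refl (hφ : IsPhi φ) (h b c d : ℝ) : B φ h d (c + d * h - b * h) b = B φ h b c d := by
  have h1 := φ_refl hφ h 0 b c d
  have h2 := φ_tr hφ h (-(c + d * h)) d (-(0 + b * h)) b (c + d * h)
  have e1 : -(c + d * h) + (c + d * h) = 0 := by ring
  have e2 : -(0 + b * h) + (c + d * h) = c + d * h - b * h := by ring
  rw [e1, e2, h1] at h2
  unfold B
  rw [h2]; ring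

theorem B_par (hSEG : SpecSEG) (hφ : IsPhi φ) {h b : ℝ} (hh : 0 ≤ h) :
    ∀ c, 0 ≤ c → B φ h b c b = c * B φ h b 1 b := by
  intro c hc
  have h1 := lin (fun c => B φ h b c b + 2 * ee φ * c) ?_ ?_ c hc
  · linarith
  · intro s t hs ht
    have h2 := B_cut hSEG hφ (h := h) (b := b) (c := s + t) (d := b) (m := s) (k := b) hh
      (fun y _ _ => by linarith) (fun y _ _ => by linarith)
    rw [add_sub_cancel_left] at h2
    rw [h2]; ring
  · intro s t hs hst
    have h2 : φ (TZ h 0 b s b) ≤ φ (TZ h 0 b t b) := by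
      apply hφ.mono _ _ (CC_TZ _ _ _ _ _) (CC_TZ _ _ _ _ _)
      intro z hz
      rw [mem_TZ] at hz ⊢
      exact ⟨hz.1, hz.2.1, hz.2.2.1, by linarith [hz.2.2.2]⟩
    simp only [B]
    nlinarith

theorem B_shear (hSEG : SpecSEG) (hφ : IsPhi φ) {h b b' c : ℝ} (hh : 0 ≤ h) (hc : 0 ≤ c)
    (hb : b ≤ b') : B φ h b c b = B φ h b' c b' := by
  have h1 := B_cut hSEG hφ (h := h) (b := b) (c := c) (d := b') (m := 0) (k := b') hh
      (fun y hy _ => by nlinarith) (fun y _ _ => by linarith)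
  have h2 := B_cut hSEG hφ (h := h) (b := b) (c := c) (d := b') (m := c) (k := b) hh
      (fun y hy _ => by linarith) (fun y hy _ => by nlinarith)
  rw [sub_zero] at h1
  rw [sub_self] at h2
  linarith

theorem B_rect (hSEG : SpecSEG) (hφ : IsPhi φ) {h : ℝ} (hh : 0 ≤ h) :
    B φ h 0 1 0 = h * B φ 1 0 1 0 := by
  have h1 := lin (fun h => B φ h 0 1 0 + 2 * nn φ 0 * h) ?_ ?_ h hh
  · linarith
  · intro s t hs ht
    have h2 := cutH hSEG hφ hs ht zero_le_one
    simp only [B]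
    rw [h2]; ring
  · intro s t hs hst
    have h2 : φ (TZ s 0 0 1 0) ≤ φ (TZ t 0 0 1 0) := by
      apply hφ.mono _ _ (CC_TZ _ _ _ _ _) (CC_TZ _ _ _ _ _)
      intro z hz
      rw [mem_TZ] at hz ⊢
      exact ⟨hz.1, by linarith [hz.2.1], hz.2.2.1, hz.2.2.2⟩
    simp only [B]
    nlinarith

theorem B_par' (hSEG : SpecSEG) (hφ : IsPhi φ) {h b c : ℝ} (hh : 0 ≤ h) (hc : 0 ≤ c) :
    B φ h b c b = B φ 1 0 1 0 * (h * c) := by
  rw [B_par hSEG hφ hh c hc]
  have h1 : B φ h b 1 b = B φ h 0 1 0 := by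
    rcases le_total b 0 with h2 | h2
    · exact B_shear hSEG hφ hh zero_le_one h2
    · exact (B_shear hSEG hφ hh zero_le_one h2).symm
  rw [h1, B_rect hSEG hφ hh]; ring

theorem B_tri (hSEG : SpecSEG) (hφ : IsPhi φ) {h b b' : ℝ} (hh : 0 ≤ h) (hb : b ≤ b') :
    B φ h b 0 b' = B φ 1 0 1 0 * (h * ((b' - b) * h) / 2) := by
  have hc : 0 ≤ (b' - b) * h := mul_nonneg (by linarith) hh
  have h1 := B_cut hSEG hφ (h := h) (b := b) (c := (b' - b) * h) (d := b) (m := 0) (k := b') hh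
      (fun y hy _ => by nlinarith) (fun y hy hy' => by
        nlinarith [mul_le_mul_of_nonneg_left hy' (show 0 ≤ b' - b by linarith)])
  rw [sub_zero, B_par' hSEG hφ hh hc] at h1
  have h2 := B_refl hφ h b 0 b'
  have e : 0 + b' * h - b * h = (b' - b) * h := by ring
  rw [e] at h2
  rw [h2] at h1
  linarith

theorem B_trap1 (hSEG : SpecSEG) (hφ : IsPhi φ) {h b c d : ℝ} (hh : 0 ≤ h) (hc : 0 ≤ c)
    (hb : b ≤ d) : B φ h b c d = B φ 1 0 1 0 * (h * (c + (c + d * h - b * h)) / 2) := by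
  have h1 := B_cut hSEG hφ (h := h) (b := b) (c := c) (d := d) (m := 0) (k := d) hh
      (fun y hy _ => by nlinarith) (fun y _ _ => by linarith)
  rw [sub_zero, B_par' hSEG hφ hh hc, B_tri hSEG hφ hh hb] at h1
  rw [h1]; ring

theorem B_trap (hSEG : SpecSEG) (hφ : IsPhi φ) {h b c d : ℝ} (hh : 0 ≤ h) (hc : 0 ≤ c)
    (hc' : b * h ≤ c + d * h) :
    B φ h b c d = B φ 1 0 1 0 * (h * (c + (c + d * h - b * h)) / 2) := by
  rcases le_total b d with h1 | h1
  · exact B_trap1 hSEG hφ hh hc h1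
  · rw [← B_refl hφ h b c d, B_trap1 hSEG hφ hh (by linarith) h1]; ring

end

end REP

/-- Module REP. -/
theorem specREP (hSEG : SpecSEG) : SpecREP := by
  intro φ hφ
  refine ⟨REP.B φ 1 0 1 0, fun y h a b c d hh hac hbd => ?_⟩
  rw [REP.φ_prof hφ]
  have h1 := REP.B_trap hSEG hφ (h := h) (b := b) (c := c - a) (d := d) hh (by linarith)
    (by linarith)
  unfold REP.B at h1 ⊢
  have e : c - a + d * h - b * h = c + d * h - (a + b * h) := by ring
  rw [e] at h1
  linarith

end Pool.MP671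
end

section
/-!
# MP_671ac3_gt: module RFL
-/
set_option autoImplicit false

namespace Pool.MP671

namespace RFL

theorem mem_tr {x : Pl} {A : Set Pl} {z : Pl} : z ∈ tr x A ↔ z - x ∈ A := by
  constructor
  · rintro ⟨y, hy, rfl⟩
    simpa using hy
  · intro h
    exact ⟨z - x, h, by simp⟩

theorem mem_refl {A : Set Pl} {z : Pl} : z ∈ refl A ↔ -z ∈ A := by
  constructor
  · rintro ⟨y, hy, rfl⟩
    simpa using hy
  · intro h
    exact ⟨-z, h, by simp⟩

theorem CC_tr {x : Pl} {A : Set Pl} (h : CC A) : CC (tr x A) := by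
  refine ⟨?_, h.2.image (by fun_prop)⟩
  have : tr x A = (fun z => z + x) '' A := rfl
  rw [this]
  simpa [add_comm] using h.1.translate x

theorem CC_inter {A B : Set Pl} (h : CC A) (h' : CC B) : CC (A ∩ B) :=
  ⟨h.1.inter h'.1, h.2.inter h'.2⟩

theorem cov_tr {φ : Set Pl → ℝ} (hφ : IsPhi φ) {K : Set Pl} (hK : CC K) (x c : Pl) :
    cov φ (tr c K) x = cov φ K x := by
  unfold cov
  rw [← hφ.trans (K ∩ tr x K) c (CC_inter hK (CC_tr hK))]
  congr 1
  ext z
  rw [Set.mem_inter_iff, mem_tr, mem_tr, mem_tr, mem_tr, Set.mem_inter_iff, mem_tr]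
  rw [show z - x - c = z - c - x by abel]

theorem cov_refl {φ : Set Pl → ℝ} (hφ : IsPhi φ) {K : Set Pl} (hK : CC K) (x : Pl) :
    cov φ (refl K) x = cov φ K x := by
  unfold cov
  have h1 : refl K ∩ tr x (refl K) = refl (K ∩ tr (-x) K) := by
    ext z
    rw [Set.mem_inter_iff, mem_tr, mem_refl, mem_refl, mem_refl, Set.mem_inter_iff, mem_tr]
    rw [show -(z - x) = -z - -x by abel]
  have h2 : tr x (K ∩ tr (-x) K) = K ∩ tr x K := by
    ext z
    rw [Set.mem_inter_iff, mem_tr, mem_tr, Set.mem_inter_iff, mem_tr]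
    rw [show z - x - -x = z by abel]
    exact and_comm
  rw [h1, hφ.even _ (CC_inter hK (CC_tr hK)), ← hφ.trans _ x (CC_inter hK (CC_tr hK)), h2]

theorem crs_add (v y c : Pl) : crs v (y + c) = crs v y + crs v c := by
  unfold crs
  simp only [Prod.fst_add, Prod.snd_add]
  ring

theorem fl_tr (K : Set Pl) (c v : Pl) : fl (tr c K) v = fl K v := by
  unfold fl
  congr 1
  ext t
  simp only [Set.mem_ofPred_eq]
  refine and_congr_right fun _ => ?_
  constructor
  · rintro ⟨z, hz, hzt, hy⟩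
    refine ⟨z - c, mem_tr.1 hz, ?_, fun y hyK => ?_⟩
    · have := mem_tr.1 hzt
      rwa [show z + t • v - c = z - c + t • v by abel] at this
    · have h1 := hy (y + c) (mem_tr.2 (by simpa using hyK))
      have h2 : crs v z = crs v (z - c) + crs v c := by rw [← crs_add]; simp
      rw [crs_add, h2] at h1
      linarith
  · rintro ⟨z, hz, hzt, hy⟩
    refine ⟨z + c, mem_tr.2 (by simpa using hz), mem_tr.2 ?_, fun y hyK => ?_⟩
    · rwa [show z + c + t • v - c = z + t • v by abel]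
    · have h1 := hy (y - c) (mem_tr.1 hyK)
      have h2 : crs v y = crs v (y - c) + crs v c := by rw [← crs_add]; simp
      rw [crs_add, h2]
      linarith

theorem flip_ok {D : Data} (h : D.Ok) : D.flip.Ok where
  hs := h.hs
  hr := h.hl
  hl := h.hr
  hp := h.hq
  hq := h.hp
  hw := h.hw
  hrw := h.hlw
  hlw := h.hrw
  hcl := h.hcl.symm

theorem body_flip {D : Data} (h : D.Ok) :
    body D.flip = tr (D.q + Xp D.s D.r D.m, D.w) (refl (body D)) := by
  ext z
  obtain ⟨x, y⟩ := z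
  rw [mem_tr, mem_refl]
  have hc : D.q + Xp D.s D.r D.m = D.p + Xp D.s D.l D.m := h.hcl
  have e1 : -((x, y) - (D.q + Xp D.s D.r D.m, D.w)) =
      (D.q + Xp D.s D.r D.m - x, D.w - y) := by
    ext
    · show -(x - (D.q + Xp D.s D.r D.m)) = _
      ring
    · show -(y - D.w) = _
      ring
  rw [e1]
  show (0 ≤ y ∧ y ≤ D.w ∧ ch D.m D.s D.r y ≤ x ∧
      x ≤ D.p + Xp D.s D.l D.m - ch D.m D.s D.l (D.w - y)) ↔
    (0 ≤ D.w - y ∧ D.w - y ≤ D.w ∧ ch D.m D.s D.l (D.w - y) ≤ D.q + Xp D.s D.r D.m - x ∧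
      D.q + Xp D.s D.r D.m - x ≤ D.q + Xp D.s D.r D.m - ch D.m D.s D.r (D.w - (D.w - y)))
  rw [sub_sub_cancel]
  constructor
  · rintro ⟨h1, h2, h3, h4⟩
    exact ⟨by linarith, by linarith, by linarith, by linarith⟩
  · rintro ⟨h1, h2, h3, h4⟩
    exact ⟨by linarith, by linarith, by linarith, by linarith⟩

theorem Yp_congr {a b : ℕ → ℝ} {m k : ℕ} (h : ∀ j, j < m → a j = b j) (hk : k ≤ m) :
    Yp a k = Yp b k :=
  Finset.sum_congr rfl fun j hj => h j (lt_of_lt_of_le (Finset.mem_range.1 hj) hk)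

theorem Xp_congr {s a b : ℕ → ℝ} {m : ℕ} (h : ∀ j, j < m → a j = b j) :
    Xp s a m = Xp s b m :=
  Finset.sum_congr rfl fun j hj => by rw [h j (Finset.mem_range.1 hj)]

theorem ch_congr {κ a b : ℕ → ℝ} {m : ℕ} (h : ∀ j, j < m → a j = b j) (t : ℝ) :
    ch m κ a t = ch m κ b t :=
  Finset.sum_congr rfl fun j hj => by
    rw [h j (Finset.mem_range.1 hj), Yp_congr h (Finset.mem_range.1 hj).le]

theorem body_congr {D D' : Data} (hm : D'.m = D.m) (hs : D'.s = D.s) (hw : D'.w = D.w)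
    (hq : D'.q = D.q) (h : ∀ j, j < D.m → D'.r j = D.r j ∧ D'.l j = D.l j) :
    body D' = body D := by
  have hL : D'.L = D.L := by
    funext y
    unfold Data.L
    rw [hm, hs]
    exact ch_congr (fun j hj => (h j hj).2) y
  have hR : D'.R = D.R := by
    funext y
    unfold Data.R
    rw [hm, hs, hw, hq, Xp_congr (fun j hj => (h j hj).1), ch_congr (fun j hj => (h j hj).1)]
  unfold body
  rw [hL, hR, hw]

end RFL

theorem specRFL : SpecRFL :=
  ⟨fun _ hφ _ hK x c => ⟨RFL.cov_tr hφ hK x c, RFL.cov_refl hφ hK x⟩,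
    fun K c v => RFL.fl_tr K c v,
    fun _ h => ⟨RFL.flip_ok h, _, RFL.body_flip h⟩,
    fun _ _ hm hs hw hq h => RFL.body_congr hm hs hw hq h⟩

end Pool.MP671
end

section
/-!
# MP_671ac3_gt : module SEG (the valuation on segments)
-/
namespace Pool.MP671

open MeasureTheory

private theorem seg_CC (a b : Pl) : CC (segment ℝ a b) := by
  refine ⟨convex_segment a b, ?_⟩
  rw [segment_eq_image]
  exact isCompact_Icc.image (by fun_prop)

private theorem seg_img (v : Pl) (a b : ℝ) (h : a ≤ b) :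
    segment ℝ (a • v) (b • v) = (fun c : ℝ => c • v) '' Set.Icc a b := by
  have h1 := image_segment ℝ (LinearMap.toSpanSingleton ℝ Pl v).toAffineMap a b
  rw [segment_eq_Icc h] at h1
  simpa using h1.symm

/-- additive monotone functions on `[0,∞)` are linear -/
private theorem seg_lin (f : ℝ → ℝ) (hadd : ∀ s t, 0 ≤ s → 0 ≤ t → f (s + t) = f s + f t)
    (hmono : ∀ s t, 0 ≤ s → s ≤ t → f s ≤ f t) : ∀ t, 0 ≤ t → f t = t * f 1 := by
  have h0 : f 0 = 0 := by
    have := hadd 0 0 le_rfl le_rfl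
    simp at this
    exact this
  have hn : ∀ (n : ℕ) (t : ℝ), 0 ≤ t → f (n * t) = n * f t := by
    intro n t ht
    induction n with
    | zero => simp [h0]
    | succ n ih =>
      push_cast
      rw [add_mul, one_mul, hadd _ _ (by positivity) ht, ih]
      ring
  have h1 : 0 ≤ f 1 := by
    rw [← h0]; exact hmono 0 1 le_rfl zero_le_one
  intro t ht
  have key : ∀ n : ℕ, |(n : ℝ) * (f t - t * f 1)| ≤ f 1 := by
    intro n
    have hnt : 0 ≤ (n : ℝ) * t := by positivity
    have ha := Nat.floor_le hnt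
    have hb := (Nat.lt_floor_add_one ((n : ℝ) * t)).le
    have e1 := hmono _ _ (by positivity) ha
    have e2 := hmono _ _ hnt hb
    have e3 : f ((⌊(n : ℝ) * t⌋₊ : ℕ) : ℝ) = ⌊(n : ℝ) * t⌋₊ * f 1 := by
      have := hn ⌊(n : ℝ) * t⌋₊ 1 zero_le_one
      simpa using this
    have e4 : f (((⌊(n : ℝ) * t⌋₊ : ℕ) : ℝ) + 1) = (⌊(n : ℝ) * t⌋₊ + 1) * f 1 := by
      rw [hadd _ _ (by positivity) zero_le_one, e3]; ring
    rw [hn n t ht] at e1 e2
    rw [e3] at e1
    rw [e4] at e2
    rw [abs_le]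
    constructor
    · nlinarith [mul_le_mul_of_nonneg_right hb h1]
    · nlinarith [mul_le_mul_of_nonneg_right ha h1]
  by_contra hne
  have hd : 0 < |f t - t * f 1| := abs_pos.mpr (sub_ne_zero.mpr hne)
  obtain ⟨n, hn'⟩ := exists_nat_gt (f 1 / |f t - t * f 1|)
  have h2 := key n
  rw [abs_mul, Nat.abs_cast] at h2
  rw [div_lt_iff₀ hd] at hn'
  linarith

private theorem seg_add (φ : Set Pl → ℝ) (hφ : IsPhi φ) (v : Pl) (s t : ℝ) (hs : 0 ≤ s)
    (ht : 0 ≤ t) : φ (segment ℝ 0 ((s + t) • v)) =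
      φ (segment ℝ 0 (s • v)) + φ (segment ℝ (s • v) ((s + t) • v)) := by
  have e0 : ∀ r : ℝ, segment ℝ (0 : Pl) (r • v) = segment ℝ ((0 : ℝ) • v) (r • v) := by
    intro r; rw [zero_smul]
  have hU : segment ℝ (0 : Pl) (s • v) ∪ segment ℝ (s • v) ((s + t) • v) =
      segment ℝ 0 ((s + t) • v) := by
    rw [e0, e0, seg_img v 0 s hs, seg_img v s (s + t) (by linarith),
      seg_img v 0 (s + t) (by linarith), ← Set.image_union,
      Set.Icc_union_Icc_eq_Icc hs (by linarith)]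
  have hI : segment ℝ (0 : Pl) (s • v) ∩ segment ℝ (s • v) ((s + t) • v) = {s • v} := by
    by_cases hv : v = 0
    · subst hv; simp
    · rw [e0, seg_img v 0 s hs, seg_img v s (s + t) (by linarith),
        ← Set.image_inter (smul_left_injective ℝ hv)]
      have : Set.Icc 0 s ∩ Set.Icc s (s + t) = {s} := by
        ext x
        simp only [Set.mem_inter_iff, Set.mem_Icc, Set.mem_singleton_iff]
        constructor
        · rintro ⟨⟨_, h1⟩, h2, _⟩
          exact le_antisymm h1 h2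
        · rintro rfl
          exact ⟨⟨hs, le_rfl⟩, le_rfl, by linarith⟩
      rw [this, Set.image_singleton]
  have h := hφ.val (segment ℝ 0 (s • v)) (segment ℝ (s • v) ((s + t) • v)) (seg_CC _ _)
    (seg_CC _ _) (by rw [hU]; exact seg_CC _ _)
  rw [hU, hI, hφ.sing, add_zero] at h
  exact h

private theorem seg_trans (φ : Set Pl → ℝ) (hφ : IsPhi φ) (a b : Pl) :
    φ (segment ℝ a b) = φ (segment ℝ 0 (b - a)) := by
  rw [← hφ.trans (segment ℝ 0 (b - a)) a (seg_CC _ _)]
  congr 1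
  have := segment_translate_image ℝ a 0 (b - a)
  rw [add_zero, add_sub_cancel] at this
  rw [← this, tr]
  congr 1
  funext x
  exact add_comm _ _

theorem specSEG : SpecSEG := by
  intro φ hφ
  have hlin : ∀ (v : Pl) (t : ℝ), 0 ≤ t → nrm φ (t • v) = t * nrm φ v := by
    intro v t ht
    have h := seg_lin (fun r => φ (segment ℝ 0 (r • v))) ?_ ?_ t ht
    · simp only [one_smul] at h
      rw [nrm, nrm, h]; ring
    · intro s r hs hr
      rw [seg_add φ hφ v s r hs hr, seg_trans φ hφ (s • v) ((s + r) • v), add_smul,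
        add_sub_cancel_left]
    · intro s r hs hr
      refine hφ.mono _ _ (seg_CC _ _) (seg_CC _ _) ?_
      have e0 : ∀ r : ℝ, segment ℝ (0 : Pl) (r • v) = segment ℝ ((0 : ℝ) • v) (r • v) := by
        intro r; rw [zero_smul]
      rw [e0, e0, seg_img v 0 s hs, seg_img v 0 r (hs.trans hr)]
      exact Set.image_mono (Set.Icc_subset_Icc_right hr)
  refine ⟨fun a b => ?_, fun t v => ?_, fun v => ?_⟩
  · rw [seg_trans φ hφ, nrm]; ring
  · rcases le_total 0 t with ht | ht
    · rw [abs_of_nonneg ht, hlin v t ht]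
    · rw [abs_of_nonpos ht]
      have h1 : nrm φ (t • v) = nrm φ ((-t) • v) := by
        rw [nrm, nrm, ← hφ.even (segment ℝ 0 (t • v)) (seg_CC _ _)]
        congr 2
        have := image_segment ℝ (-(LinearMap.id : Pl →ₗ[ℝ] Pl)).toAffineMap (0 : Pl) (t • v)
        simp only [LinearMap.coe_toAffineMap, LinearMap.neg_apply, LinearMap.id_apply,
          neg_zero] at this
        rw [neg_smul, ← this, refl]
      rw [h1, hlin v (-t) (by linarith)]
  · rw [nrm]
    have : 0 ≤ φ (segment ℝ 0 v) := by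
      rw [← hφ.empty]
      exact hφ.mono _ _ ⟨convex_empty, isCompact_empty⟩ (seg_CC _ _) (Set.empty_subset _)
    linarith

end Pool.MP671
end

section
/-!
# MP_671ac3_gt, module SKP: an index with `r_j = l_j = 0` can be removed
-/
set_option linter.all false

namespace Pool.MP671

namespace SKP

open Finset

theorem sum_low (j : ℕ) (f : ℕ → ℝ) : ∀ k, k ≤ j →
    ∑ i ∈ range k, skp j f i = ∑ i ∈ range k, f i := by
  intro k hk
  refine Finset.sum_congr rfl fun i hi => ?_
  rw [mem_range] at hi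
  unfold skp
  rw [if_pos (by omega)]

theorem sum_high (j : ℕ) (f : ℕ → ℝ) (hf : f j = 0) : ∀ k, j ≤ k →
    ∑ i ∈ range k, skp j f i = ∑ i ∈ range (k + 1), f i := by
  intro k hk
  induction k, hk using Nat.le_induction with
  | base => rw [sum_low j f j le_rfl, Finset.sum_range_succ, hf, add_zero]
  | succ k hk ih =>
    rw [Finset.sum_range_succ, ih, Finset.sum_range_succ _ (k + 1)]
    congr 1
    unfold skp
    rw [if_neg (by omega)]

theorem Yp_low (j : ℕ) (a : ℕ → ℝ) (k : ℕ) (hk : k ≤ j) : Yp (skp j a) k = Yp a k :=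
  sum_low j a k hk

theorem Yp_high (j : ℕ) (a : ℕ → ℝ) (ha : a j = 0) (k : ℕ) (hk : j ≤ k) :
    Yp (skp j a) k = Yp a (k + 1) := sum_high j a ha k hk

theorem Xp_high (j : ℕ) (s a : ℕ → ℝ) (ha : a j = 0) (k : ℕ) (hk : j ≤ k) :
    Xp (skp j s) (skp j a) k = Xp s a (k + 1) := by
  unfold Xp
  rw [← sum_high j (fun i => a i * s i) (by simp [ha]) k hk]
  refine Finset.sum_congr rfl fun i _ => ?_
  unfold skp
  split_ifs <;> rfl

theorem ch_skp (j m : ℕ) (κ a : ℕ → ℝ) (ha : a j = 0) (hj : j ≤ m) (t : ℝ) :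
    ch m (skp j κ) (skp j a) t = ch (m + 1) κ a t := by
  unfold ch
  rw [← sum_high j (fun i => κ i * max 0 (min (t - Yp a i) (a i))) (by simp [ha]) m hj]
  refine Finset.sum_congr rfl fun i _ => ?_
  rcases Nat.lt_or_ge i j with h | h
  · rw [Yp_low j a i h.le]
    unfold skp
    simp only [if_pos h]
  · rw [Yp_high j a ha i h]
    unfold skp
    simp only [if_neg (not_lt.2 h)]

end SKP

open SKP in
theorem specSKP : SpecSKP := by
  intro D hD j hj hr hl
  obtain ⟨M, hM⟩ : ∃ M, D.m = M + 1 := ⟨D.m - 1, by omega⟩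
  have hjM : j ≤ M := by omega
  have hYr : Yp (skp j D.r) M = D.w := by rw [Yp_high j D.r hr M hjM, ← hM, hD.hrw]
  have hYl : Yp (skp j D.l) M = D.w := by rw [Yp_high j D.l hl M hjM, ← hM, hD.hlw]
  have hXr : Xp (skp j D.s) (skp j D.r) M = Xp D.s D.r D.m := by
    rw [Xp_high j D.s D.r hr M hjM, hM]
  have hXl : Xp (skp j D.s) (skp j D.l) M = Xp D.s D.l D.m := by
    rw [Xp_high j D.s D.l hl M hjM, hM]
  refine ⟨⟨M, skp j D.s, skp j D.r, skp j D.l, D.p, D.q, D.w⟩, ?_, hM.symm, rfl, rfl, rfl, rfl, ?_⟩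
  · refine ⟨?_, ?_, ?_, hD.hp, hD.hq, hD.hw, hYr, hYl, ?_⟩
    · intro i k hik hk
      simp only at hk ⊢
      unfold skp
      split_ifs with h1 h2 h2
      · exact hD.hs i k hik (by omega)
      · exact hD.hs i (k + 1) (by omega) (by omega)
      · omega
      · exact hD.hs (i + 1) (k + 1) (by omega) (by omega)
    · intro i hi
      simp only at hi ⊢
      unfold skp
      split_ifs with h1
      · exact hD.hr i (by omega)
      · exact hD.hr (i + 1) (by omega)
    · intro i hi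
      simp only at hi ⊢
      unfold skp
      split_ifs with h1
      · exact hD.hl i (by omega)
      · exact hD.hl (i + 1) (by omega)
    · show D.q + Xp (skp j D.s) (skp j D.r) M = D.p + Xp (skp j D.s) (skp j D.l) M
      rw [hXr, hXl, hD.hcl]
  · unfold body
    have hL : Data.L ⟨M, skp j D.s, skp j D.r, skp j D.l, D.p, D.q, D.w⟩ = D.L := by
      funext y
      show ch M (skp j D.s) (skp j D.l) y = ch D.m D.s D.l y
      rw [ch_skp j M D.s D.l hl hjM, hM]
    have hR : Data.R ⟨M, skp j D.s, skp j D.r, skp j D.l, D.p, D.q, D.w⟩ = D.R := by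
      funext y
      show D.q + Xp (skp j D.s) (skp j D.r) M - ch M (skp j D.s) (skp j D.r) (D.w - y) =
        D.q + Xp D.s D.r D.m - ch D.m D.s D.r (D.w - y)
      rw [hXr, ch_skp j M D.s D.r hr hjM, hM]
    rw [hL, hR]

end Pool.MP671
end

section
/-!
# MP_671ac3_gt, module SUM: sums of lengths from the difference body
-/
namespace Pool.MP671

namespace SUMM

theorem cut (s : ℕ → ℝ) (σ : ℝ) : ∀ m : ℕ, Inc m s →
    ∃ k, k ≤ m ∧ (∀ j, j < k → s j ≤ σ) ∧ ∀ j, k ≤ j → j < m → σ ≤ s j := by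
  intro m
  induction m with
  | zero =>
    intro _
    exact ⟨0, le_rfl, fun j hj => absurd hj (Nat.not_lt_zero _),
      fun j _ hj => absurd hj (Nat.not_lt_zero _)⟩
  | succ m ih =>
    intro h
    obtain ⟨k, hk, h1, h2⟩ := ih (fun i j hij hj => h i j hij (Nat.lt_succ_of_lt hj))
    by_cases hc : s m ≤ σ
    · refine ⟨m + 1, le_rfl, fun j hj => ?_, fun j hj hj' => absurd hj' (not_lt.2 hj)⟩
      rcases Nat.lt_succ_iff_lt_or_eq.1 hj with h' | h'
      · exact ((h j m h' (Nat.lt_succ_self m)).le).trans hc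
      · rw [h']
        exact hc
    · refine ⟨k, Nat.le_succ_of_le hk, h1, fun j hj hj' => ?_⟩
      rcases Nat.lt_succ_iff_lt_or_eq.1 hj' with h' | h'
      · exact h2 j hj h'
      · rw [h']
        exact (not_le.1 hc).le

theorem ch_one (a : ℕ → ℝ) (t : ℝ) (ht : 0 ≤ t) : ∀ m : ℕ, (∀ j, j < m → 0 ≤ a j) →
    ch m (fun _ => 1) a t = min t (Yp a m) := by
  intro m
  induction m with
  | zero =>
    intro _
    simp [ch, Yp, ht]
  | succ m ih =>
    intro h
    have h1 := ih (fun j hj => h j (Nat.lt_succ_of_lt hj))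
    have h2 : ch (m + 1) (fun _ => 1) a t
        = ch m (fun _ => 1) a t + 1 * max 0 (min (t - Yp a m) (a m)) := by
      simp only [ch]
      rw [Finset.sum_range_succ]
    have h3 : Yp a (m + 1) = Yp a m + a m := by
      simp only [Yp]
      rw [Finset.sum_range_succ]
    have h4 := h m (Nat.lt_succ_self m)
    rw [h2, h1, h3, one_mul]
    rcases le_total t (Yp a m) with h5 | h5
    · rw [min_eq_left h5, min_eq_left (h5.trans (by linarith))]
      have h6 : min (t - Yp a m) (a m) ≤ 0 := (min_le_left _ _).trans (by linarith)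
      rw [max_eq_left h6, add_zero]
    · rw [min_eq_right h5]
      have h6 : 0 ≤ min (t - Yp a m) (a m) := le_min (by linarith) h4
      rw [max_eq_right h6]
      rcases le_total (t - Yp a m) (a m) with h7 | h7
      · rw [min_eq_left h7, min_eq_left (by linarith)]
        ring
      · rw [min_eq_right h7, min_eq_right (by linarith)]

theorem Yp_le (a : ℕ → ℝ) (m k : ℕ) (ha : ∀ j, j < m → 0 ≤ a j) (hk : k ≤ m) :
    0 ≤ Yp a k ∧ Yp a k ≤ Yp a m := by
  constructor
  · exact Finset.sum_nonneg fun j hj => ha j ((Finset.mem_range.1 hj).trans_le hk)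
  · refine Finset.sum_le_sum_of_subset_of_nonneg
      (Finset.range_subset_range.2 hk) fun j hj _ => ha j (Finset.mem_range.1 hj)

theorem maxi (hCHA : SpecCHA) (m : ℕ) (s a : ℕ → ℝ) (hs : Inc m s) (ha : ∀ j, j < m → 0 ≤ a j)
    (σ : ℝ) :
    (∀ t, 0 ≤ t → t ≤ Yp a m →
      σ * t - ch m s a t ≤ ∑ j ∈ Finset.range m, a j * max 0 (σ - s j)) ∧
    ∃ t, 0 ≤ t ∧ t ≤ Yp a m ∧
      σ * t - ch m s a t = ∑ j ∈ Finset.range m, a j * max 0 (σ - s j) := by
  constructor
  · intro t ht0 ht1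
    have h1 := ch_one a t ht0 m ha
    rw [min_eq_left ht1] at h1
    have h2 : σ * t - ch m s a t
        = ∑ j ∈ Finset.range m, (σ - s j) * max 0 (min (t - Yp a j) (a j)) := by
      have h0 : σ * t = σ * ch m (fun _ => 1) a t := by rw [h1]
      rw [h0]
      simp only [ch]
      rw [Finset.mul_sum, ← Finset.sum_sub_distrib]
      refine Finset.sum_congr rfl fun j _ => ?_
      ring
    rw [h2]
    refine Finset.sum_le_sum fun j hj => ?_
    have h3 := ha j (Finset.mem_range.1 hj)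
    have h4 : 0 ≤ max 0 (min (t - Yp a j) (a j)) := le_max_left _ _
    have h5 : max 0 (min (t - Yp a j) (a j)) ≤ a j := max_le h3 (min_le_right _ _)
    have h6 : σ - s j ≤ max 0 (σ - s j) := le_max_right _ _
    have h7 : 0 ≤ max 0 (σ - s j) := le_max_left _ _
    calc (σ - s j) * max 0 (min (t - Yp a j) (a j))
        ≤ max 0 (σ - s j) * max 0 (min (t - Yp a j) (a j)) := mul_le_mul_of_nonneg_right h6 h4
      _ ≤ max 0 (σ - s j) * a j := mul_le_mul_of_nonneg_left h5 h7
      _ = a j * max 0 (σ - s j) := mul_comm _ _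
  · obtain ⟨k, hk, h1, h2⟩ := cut s σ m hs
    obtain ⟨h3, h4⟩ := Yp_le a m k ha hk
    refine ⟨Yp a k, h3, h4, ?_⟩
    rw [(hCHA m a ha).2.2.1 s k hk]
    rw [← Finset.sum_range_add_sum_Ico _ hk]
    have h5 : ∑ j ∈ Finset.Ico k m, a j * max 0 (σ - s j) = 0 := by
      refine Finset.sum_eq_zero fun j hj => ?_
      obtain ⟨hj1, hj2⟩ := Finset.mem_Ico.1 hj
      have := h2 j hj1 hj2
      rw [max_eq_left (by linarith), mul_zero]
    rw [h5, add_zero]
    simp only [Yp, Xp]
    rw [Finset.mul_sum, ← Finset.sum_sub_distrib]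
    refine Finset.sum_congr rfl fun j hj => ?_
    have := h1 j (Finset.mem_range.1 hj)
    rw [max_eq_right (by linarith)]
    ring

theorem rs_eq (hCHA : SpecCHA) (hBOD : SpecBOD) (D : Data) (hD : D.Ok) (σ : ℝ) :
    rs (body D) σ = D.q + Xp D.s D.r D.m - σ * D.w
      + ∑ j ∈ Finset.range D.m, D.r j * max 0 (σ - D.s j) := by
  obtain ⟨h1, t, ht0, ht1, ht⟩ := maxi hCHA D.m D.s D.r hD.hs hD.hr σ
  rw [hD.hrw] at h1 ht1
  have hLR := (hBOD D hD).2.2.2.2.2.2.1
  refine IsGreatest.csSup_eq ⟨?_, ?_⟩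
  · refine ⟨(D.R (D.w - t), D.w - t), ⟨?_, ?_, ?_, le_rfl⟩, ?_⟩
    · show 0 ≤ D.w - t
      linarith
    · show D.w - t ≤ D.w
      linarith
    · exact hLR (D.w - t) ⟨by linarith, by linarith⟩
    · show D.R (D.w - t) - σ * (D.w - t) = _
      rw [← ht]
      simp only [Data.R]
      rw [sub_sub_cancel]
      ring
  · rintro x ⟨z, ⟨hz1, hz2, hz3, hz4⟩, rfl⟩
    have h2 := h1 (D.w - z.2) (by linarith) (by linarith)
    have h3 : z.1 ≤ D.q + Xp D.s D.r D.m - ch D.m D.s D.r (D.w - z.2) := hz4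
    show z.1 - σ * z.2 ≤ _
    nlinarith [h2, h3]

theorem ls_eq (hCHA : SpecCHA) (hBOD : SpecBOD) (D : Data) (hD : D.Ok) (σ : ℝ) :
    ls (body D) σ = ∑ j ∈ Finset.range D.m, D.l j * max 0 (σ - D.s j) := by
  obtain ⟨h1, t, ht0, ht1, ht⟩ := maxi hCHA D.m D.s D.l hD.hs hD.hl σ
  rw [hD.hlw] at h1 ht1
  have hLR := (hBOD D hD).2.2.2.2.2.2.1
  refine IsGreatest.csSup_eq ⟨?_, ?_⟩
  · refine ⟨(D.L t, t), ⟨ht0, ht1, le_rfl, hLR t ⟨ht0, ht1⟩⟩, ?_⟩
    show σ * t - D.L t = _
    rw [← ht]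
    rfl
  · rintro x ⟨z, ⟨hz1, hz2, hz3, hz4⟩, rfl⟩
    have h2 := h1 z.2 hz1 hz2
    have h3 : ch D.m D.s D.l z.2 ≤ z.1 := hz3
    show σ * z.2 - z.1 ≤ _
    linarith

theorem coef (m : ℕ) (s c : ℕ → ℝ) (hs : Inc m s)
    (h : ∀ σ : ℝ, ∑ j ∈ Finset.range m, c j * max 0 (σ - s j) = 0) : ∀ j, j < m → c j = 0 := by
  intro j
  induction j using Nat.strong_induction_on with
  | _ j ih =>
    intro hj
    obtain ⟨σ, h1, h2⟩ : ∃ σ : ℝ, s j < σ ∧ ∀ i, j < i → i < m → σ ≤ s i := by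
      by_cases hm : j + 1 < m
      · refine ⟨s (j + 1), hs j (j + 1) (Nat.lt_succ_self j) hm, fun i hi hi' => ?_⟩
        rcases Nat.eq_or_lt_of_le (Nat.succ_le_of_lt hi) with h' | h'
        · rw [← h']
        · exact (hs (j + 1) i h' hi').le
      · exact ⟨s j + 1, by linarith, fun i hi hi' => absurd hi' (by omega)⟩
    have h3 := h σ
    rw [Finset.sum_eq_single_of_mem j (Finset.mem_range.2 hj) (fun i hi hij => ?_)] at h3
    · rw [max_eq_right (by linarith)] at h3
      rcases mul_eq_zero.1 h3 with h4 | h4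
      · exact h4
      · exfalso
        linarith
    · have hi' := Finset.mem_range.1 hi
      rcases lt_or_gt_of_ne hij with h4 | h4
      · rw [ih i h4 hi', zero_mul]
      · have := h2 i h4 hi'
        rw [max_eq_left (by linarith), mul_zero]

end SUMM

open SUMM

theorem specSUM (hCHA : SpecCHA) (hBOD : SpecBOD) (hFNB : SpecFNB) : SpecSUM := by
  intro D D' hD hD' hm hs hdif
  have hne : ∀ E : Data, E.Ok → (body E).Nonempty := by
    intro E hE
    have h1 := (hBOD E hE).2.2.2.2.2.2.1 0 ⟨le_rfl, hE.hw.le⟩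
    exact ⟨(E.L 0, 0), le_rfl, hE.hw.le, le_rfl, h1⟩
  have hCC : ∀ E : Data, E.Ok → CC (body E) := fun E hE => (hBOD E hE).2.2.2.2.2.2.2.2.2.2
  have hsum := hFNB.1 (body D) (body D') (hCC D hD) (hCC D' hD') (hne D hD) (hne D' hD') hdif
  have key : ∀ σ : ℝ, D.q + Xp D.s D.r D.m - σ * D.w
      + ∑ j ∈ Finset.range D.m, (D.r j + D.l j) * max 0 (σ - D.s j)
      = D'.q + Xp D.s D'.r D.m - σ * D'.w
      + ∑ j ∈ Finset.range D.m, (D'.r j + D'.l j) * max 0 (σ - D.s j) := by
    intro σ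
    have h1 := hsum σ
    rw [rs_eq hCHA hBOD D hD, ls_eq hCHA hBOD D hD, rs_eq hCHA hBOD D' hD',
      ls_eq hCHA hBOD D' hD', hm, hs] at h1
    simp only [add_mul, Finset.sum_add_distrib]
    linarith
  -- a lower bound of the slopes
  obtain ⟨B, hB⟩ : ∃ B : ℝ, ∀ j, j < D.m → B ≤ D.s j := by
    refine ⟨D.s 0, fun j hj => ?_⟩
    rcases Nat.eq_zero_or_pos j with h' | h'
    · rw [h']
    · exact (hD.hs 0 j h' hj).le
  have hlow : ∀ (c : ℕ → ℝ) (σ : ℝ), σ ≤ B →
      ∑ j ∈ Finset.range D.m, c j * max 0 (σ - D.s j) = 0 := by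
    intro c σ hσ
    refine Finset.sum_eq_zero fun j hj => ?_
    have := hB j (Finset.mem_range.1 hj)
    rw [max_eq_left (by linarith), mul_zero]
  have e1 := key B
  have e2 := key (B - 1)
  rw [hlow _ B le_rfl, hlow _ B le_rfl] at e1
  rw [hlow _ (B - 1) (by linarith), hlow _ (B - 1) (by linarith)] at e2
  have hw : D'.w = D.w := by nlinarith
  have hA : D.q + Xp D.s D.r D.m = D'.q + Xp D.s D'.r D.m := by
    rw [hw] at e1
    linarith
  have hc := coef D.m D.s (fun j => (D.r j + D.l j) - (D'.r j + D'.l j)) hD.hs (fun σ => by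
    have h1 := key σ
    rw [hw] at h1
    simp only [sub_mul, Finset.sum_sub_distrib]
    linarith)
  have hj : ∀ j, j < D.m → D'.r j + D'.l j = D.r j + D.l j := by
    intro j hj
    have h1 : (D.r j + D.l j) - (D'.r j + D'.l j) = 0 := hc j hj
    linarith
  refine ⟨hw, ?_, hj⟩
  have hX : Xp D.s D'.r D.m + Xp D.s D'.l D.m = Xp D.s D.r D.m + Xp D.s D.l D.m := by
    simp only [Xp]
    rw [← Finset.sum_add_distrib, ← Finset.sum_add_distrib]
    refine Finset.sum_congr rfl fun j hj' => ?_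
    have := hj j (Finset.mem_range.1 hj')
    rw [← add_mul, ← add_mul, this]
  have c1 := hD.hcl
  have c2 := hD'.hcl
  rw [hm, hs] at c2
  linarith

end Pool.MP671
end

section
/-!
# MP_671ac3_gt : module SUP (the support of the covariogram)
-/
set_option linter.all false

namespace Pool.MP671

namespace SUP

theorem cov_zero {φ : Set Pl → ℝ} (hφ : IsPhi φ) {K : Set Pl} {x : Pl} (h : x ∉ dif K) :
    cov φ K x = 0 := by
  have : K ∩ tr x K = ∅ := by
    rw [Set.eq_empty_iff_forall_notMem]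
    rintro z ⟨hz, y, hy, hyz⟩
    exact h ⟨z, hz, y, hy, by rw [← hyz]; simp⟩
  rw [cov, this, hφ.empty]

theorem cov_pos (hSEG : SpecSEG) {φ : Set Pl → ℝ} (hφ : IsPhi φ) {K : Set Pl} (hK : CC K)
    (hi : (interior K).Nonempty) {v : Pl} (hv : 0 < nrm φ v) {x : Pl} (hx : x ∈ dif K) {ε : ℝ}
    (h0 : 0 < ε) (h1 : ε < 1) : 0 < cov φ K ((1 - ε) • x) := by
  obtain ⟨c, hc⟩ := hi
  obtain ⟨a, ha, b, hb, rfl⟩ := hx
  have ha' : (1 - ε) • a + ε • c ∈ interior K :=
    hK.1.combo_self_interior_mem_interior ha hc (by linarith) h0 (by ring)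
  have hb' : (1 - ε) • b + ε • c ∈ interior K :=
    hK.1.combo_self_interior_mem_interior hb hc (by linarith) h0 (by ring)
  have hcont : ∀ z, z ∈ interior K → ∀ᶠ t : ℝ in nhdsWithin 0 (Set.Ioi 0), z + t • v ∈ K := by
    intro z hz
    have hc : Continuous fun t : ℝ => z + t • v := by fun_prop
    have h2 : (z + (0 : ℝ) • v) ∈ interior K := by simpa using hz
    have h3 : ∀ᶠ t : ℝ in nhds 0, z + t • v ∈ interior K :=
      hc.continuousAt.eventually_mem (isOpen_interior.mem_nhds h2)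
    exact (h3.filter_mono nhdsWithin_le_nhds).mono fun t ht => interior_subset ht
  obtain ⟨t, ⟨hta, htb⟩, ht0⟩ :=
    (((hcont _ ha').and (hcont _ hb')).and self_mem_nhdsWithin).exists
  have ht0 : (0 : ℝ) < t := ht0
  set a' := (1 - ε) • a + ε • c with ha'd
  set b' := (1 - ε) • b + ε • c with hb'd
  have hx : (1 - ε) • (a - b) = a' - b' := by
    rw [ha'd, hb'd, smul_sub]; abel
  have hCC : CC (K ∩ tr (a' - b') K) := by
    refine ⟨hK.1.inter ?_, hK.2.inter ?_⟩
    · have := hK.1.translate (a' - b')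
      have e : (fun z => (a' - b') + z) '' K = tr (a' - b') K := by
        simp only [tr, add_comm]
      rwa [e] at this
    · exact hK.2.image (by fun_prop)
  have hseg : segment ℝ a' (a' + t • v) ⊆ K ∩ tr (a' - b') K := by
    apply hCC.1.segment_subset
    · exact ⟨interior_subset ha', b', interior_subset hb', by simp⟩
    · exact ⟨hta, b' + t • v, htb, by abel⟩
  have hsCC : CC (segment ℝ a' (a' + t • v)) := by
    refine ⟨convex_segment _ _, ?_⟩
    rw [segment_eq_image_lineMap]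
    exact isCompact_Icc.image (by fun_prop)
  rw [hx, cov]
  refine lt_of_lt_of_le ?_ (hφ.mono _ _ hsCC hCC hseg)
  obtain ⟨e1, e2, -⟩ := hSEG φ hφ
  rw [e1, add_sub_cancel_left, e2, abs_of_pos ht0]
  positivity

theorem dif_closed {K : Set Pl} (hK : CC K) : IsClosed (dif K) := by
  have : dif K = (fun z : Pl × Pl => z.1 - z.2) '' (K ×ˢ K) := by
    ext z
    constructor
    · rintro ⟨a, ha, b, hb, rfl⟩
      exact ⟨(a, b), ⟨ha, hb⟩, rfl⟩
    · rintro ⟨⟨a, b⟩, ⟨ha, hb⟩, rfl⟩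
      exact ⟨a, ha, b, hb, rfl⟩
  rw [this]
  exact ((hK.2.prod hK.2).image (by fun_prop)).isClosed

theorem half (hSEG : SpecSEG) {φ ψ : Set Pl → ℝ} (hφ : IsPhi φ) (hψ : IsPhi ψ) {K H : Set Pl}
    (hK : CC K) (hH : CC H) (hi : (interior K).Nonempty) {v : Pl} (hv : 0 < nrm φ v)
    (hcov : ∀ x, cov φ K x = cov ψ H x) : dif K ⊆ dif H := by
  intro x hx
  have h1 : ∀ ε : ℝ, 0 < ε → ε < 1 → (1 - ε) • x ∈ dif H := by
    intro ε h0 h1
    by_contra hn
    have h2 := cov_pos hSEG hφ hK hi hv hx h0 h1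
    rw [hcov, cov_zero hψ hn] at h2
    exact lt_irrefl _ h2
  have hc : Filter.Tendsto (fun ε : ℝ => (1 - ε) • x) (nhdsWithin 0 (Set.Ioi 0)) (nhds x) := by
    have : Continuous fun ε : ℝ => (1 - ε) • x := by fun_prop
    have h2 := (this.tendsto 0).mono_left (nhdsWithin_le_nhds (s := Set.Ioi 0))
    simpa using h2
  refine (dif_closed hH).mem_of_tendsto hc ?_
  have : Set.Ioo (0 : ℝ) 1 ∈ nhdsWithin (0 : ℝ) (Set.Ioi 0) := Ioo_mem_nhdsGT one_pos
  filter_upwards [this] with ε hε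
  exact h1 ε hε.1 hε.2

end SUP

theorem specSUP (hSEG : SpecSEG) : SpecSUP := by
  intro φ ψ hφ hψ K H hK hH hKi hHi ⟨v, hv, h1, h2⟩ hcov
  exact Set.Subset.antisymm (SUP.half hSEG hφ hψ hK hH hKi h1 hcov)
    (SUP.half hSEG hψ hφ hH hK hHi h2 fun x => (hcov x).symm)

end Pool.MP671
end

section
/-!
# MP_671ac3_gt, module TIL: two intervals
-/
set_option autoImplicit false

namespace Pool.MP671

namespace TIL

theorem one {a b x : ℝ} (h1 : a < x) (h2 : x < b) : ind a b x = 1 := if_pos ⟨h1, h2⟩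

theorem lft {a b x : ℝ} (h : x ≤ a) : ind a b x = 0 := if_neg fun h1 => by linarith [h1.1]

theorem rgt {a b x : ℝ} (h : b ≤ x) : ind a b x = 0 := if_neg fun h1 => by linarith [h1.2]

theorem nonneg (a b x : ℝ) : 0 ≤ ind a b x := by
  unfold ind
  split_ifs <;> norm_num

/-- the two functions agree somewhere in every interval below `Λ` -/
def Agr (Λ : ℝ) (f g : ℝ → ℝ) : Prop := ∀ x y, x < y → y ≤ Λ → ∃ ξ ∈ Set.Ioo x y, f ξ = g ξ

theorem Agr.symm {Λ : ℝ} {f g : ℝ → ℝ} (h : Agr Λ f g) : Agr Λ g f := by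
  intro x y hxy hy
  obtain ⟨ξ, h1, h2⟩ := h x y hxy hy
  exact ⟨ξ, h1, h2.symm⟩

/-- the start of an interval is seen -/
theorem start {Λ a b : ℝ} {g : ℝ → ℝ} (hab : a < b) (ha : a < Λ)
    (h : Agr Λ (ind a b) g) (e : ℝ) (he : a < e) (hg : ∀ ξ, a < ξ → ξ < e → ξ < b → ξ < Λ → g ξ = 0) :
    False := by
  obtain ⟨ξ, ⟨h1, h2⟩, h3⟩ := h a (min e (min b Λ)) (lt_min he (lt_min hab ha))
    ((min_le_right _ _).trans (min_le_right _ _))
  rw [lt_min_iff, lt_min_iff] at h2
  rw [one h1 h2.2.1, hg ξ h1 h2.1 h2.2.1 h2.2.2] at h3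
  exact one_ne_zero h3

/-- two intervals -/
theorem two {Λ a b a' b' : ℝ} (hab : a < b) (ha : a < Λ) (h : Agr Λ (ind a b) (ind a' b'))
    (hlt : a < a') : False :=
  start hab ha h a' hlt fun _ _ h2 _ _ => lft h2.le

theorem eq_two {Λ a b a' b' : ℝ} (hab : a < b) (ha : a < Λ) (hab' : a' < b') (ha' : a' < Λ)
    (h : Agr Λ (ind a b) (ind a' b')) : a = a' := by
  rcases lt_trichotomy a a' with h1 | h1 | h1
  · exact (two hab ha h h1).elim
  · exact h1
  · exact (two hab' ha' h.symm h1).elim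

/-- an interval of length `p` and one of length `q < p` do not agree -/
theorem mixed {p q Λ c d : ℝ} (hq : 0 < q) (hqp : q < p) (hc : c - p < Λ) (hd : d < Λ)
    (h : Agr Λ (ind (c - p) c) (ind (d - q) d)) : False := by
  have h1 : c - p = d - q := eq_two (by linarith) hc (by linarith) (by linarith) h
  obtain ⟨ξ, ⟨h2, h3⟩, h4⟩ := h d (min c Λ) (lt_min (by linarith) hd) (min_le_right _ _)
  rw [lt_min_iff] at h3
  rw [one (by linarith) h3.1, rgt h2.le] at h4
  exact one_ne_zero h4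

/-- the case of four intervals, `d < d'` -/
theorem four {p q Λ c d c' d' : ℝ} (hq : 0 < q) (hqp : q < p) (hc : c - p < Λ) (hd : d < Λ)
    (hc' : c' - p < Λ) (hd' : d' < Λ) (hs : c + d = c' + d')
    (h : Agr Λ (fun ξ => ind (c - p) c ξ + ind (d - q) d ξ)
      (fun ξ => ind (c' - p) c' ξ + ind (d' - q) d' ξ)) (hdd : d < d') : False := by
  rcases lt_trichotomy (d - q) (c' - p) with h1 | h1 | h1
  · -- the interval starting at `d - q` is seen
    obtain ⟨ξ, ⟨h2, h3⟩, h4⟩ := h (d - q) (min d (min (c' - p) (d' - q)))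
      (lt_min (by linarith) (lt_min h1 (by linarith)))
      ((min_le_left _ _).trans hd.le)
    rw [lt_min_iff, lt_min_iff] at h3
    have h4' : ind (c - p) c ξ + ind (d - q) d ξ = ind (c' - p) c' ξ + ind (d' - q) d' ξ := h4
    rw [one h2 h3.1, lft h3.2.1.le, lft h3.2.2.le] at h4'
    linarith [nonneg (c - p) c ξ]
  · obtain ⟨ξ, ⟨h2, h3⟩, h4⟩ := h d (min d' (min c' Λ))
      (lt_min hdd (lt_min (by linarith) hd)) ((min_le_right _ _).trans (min_le_right _ _))
    rw [lt_min_iff, lt_min_iff] at h3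
    have h4' : ind (c - p) c ξ + ind (d - q) d ξ = ind (c' - p) c' ξ + ind (d' - q) d' ξ := h4
    rw [rgt h2.le, one (a := c' - p) (b := c') (by linarith) h3.2.1] at h4'
    rcases lt_or_ge (d' - q) ξ with h5 | h5
    · rw [one (a := c - p) (b := c) (by linarith) (by linarith), one h5 h3.1] at h4'
      linarith
    · rw [lft (a := c - p) (b := c) (by linarith), lft h5] at h4'
      linarith
  · obtain ⟨ξ, ⟨h2, h3⟩, h4⟩ := h (c' - p) (min (min c' Λ) (min (c - p) (d - q)))
      (lt_min (lt_min (by linarith) hc') (lt_min (by linarith) h1))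
      ((min_le_left _ _).trans (min_le_right _ _))
    rw [lt_min_iff, lt_min_iff, lt_min_iff] at h3
    have h4' : ind (c - p) c ξ + ind (d - q) d ξ = ind (c' - p) c' ξ + ind (d' - q) d' ξ := h4
    rw [one (a := c' - p) (b := c') h2 h3.1.1, lft h3.2.1.le, lft h3.2.2.le] at h4'
    linarith [nonneg (d' - q) d' ξ]

end TIL

open TIL in
theorem specTIL : SpecTIL := by
  intro p q Λ c d c' d' α β α' β' _ _ _ _ hq hqp hα hβ hα' hβ' hor hand hs h
  have hagr : Agr Λ (fun ξ => (if α then ind (c - p) c ξ else 0) + (if β then ind (d - q) d ξ else 0))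
      (fun ξ => (if α' then ind (c' - p) c' ξ else 0) + (if β' then ind (d' - q) d' ξ else 0)) := h
  by_cases a : α <;> by_cases b : β <;> by_cases a' : α' <;> by_cases b' : β' <;>
    simp only [a, b, a', b', if_true, if_false, add_zero, zero_add, true_and, and_true, and_self,
      iff_true, iff_false, not_true, not_false_iff, true_iff, false_iff, or_false, or_true, and_false,
      false_and, forall_true_left, true_or, not_false_eq_true] at *
  · -- four intervals
    rcases lt_trichotomy d d' with h1 | h1 | h1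
    · exact (four hq hqp hα hβ hα' hβ' hs hagr h1).elim
    · exact ⟨by linarith, h1⟩
    · exact (four hq hqp hα' hβ' hα hβ hs.symm hagr.symm h1).elim
  · have h1 : c - p = c' - p := eq_two (by linarith) hα (by linarith) hα' hagr
    exact ⟨by linarith, by linarith⟩
  · exact mixed hq hqp hα hβ' hagr
  · exact start (a := c - p) (b := c) (by linarith) hα hagr c (by linarith) fun _ _ _ _ _ => rfl
  · exact mixed hq hqp hα' hβ hagr.symm
  · have h1 : d - q = d' - q := eq_two (by linarith) (by linarith) (by linarith) (by linarith) hagr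
    exact ⟨by linarith, by linarith⟩
  · exact start (a := d - q) (b := d) (by linarith) (by linarith) hagr d (by linarith)
      fun _ _ _ _ _ => rfl
  · exact start (a := c' - p) (b := c') (by linarith) hα' hagr.symm c' (by linarith)
      fun _ _ _ _ _ => rfl
  · exact start (a := d' - q) (b := d') (by linarith) (by linarith) hagr.symm d' (by linarith)
      fun _ _ _ _ _ => rfl

end Pool.MP671
end

section
/-!
# MP_671ac3_gt : antiderivatives and interval identities
-/
namespace Pool.MP671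

open MeasureTheory

namespace XX

theorem integ {χ : ℝ → ℝ} (hc : Continuous χ) (hs : HasCompactSupport χ) : Integrable χ :=
  hc.integrable_of_hasCompactSupport hs

theorem integ_mul {χ g : ℝ → ℝ} (hc : Continuous χ) (hs : HasCompactSupport χ)
    (hg : Continuous g) : Integrable (fun ξ => χ ξ * g ξ) :=
  (hc.mul hg).integrable_of_hasCompactSupport hs.mul_right

theorem X1_sub {χ : ℝ → ℝ} (hc : Continuous χ) (hs : HasCompactSupport χ) (a b : ℝ) :
    X1 χ b - X1 χ a = ∫ ξ in a..b, χ ξ :=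
  intervalIntegral.integral_Iic_sub_Iic (integ hc hs).integrableOn (integ hc hs).integrableOn

theorem hasDerivAt_X1 {χ : ℝ → ℝ} (hc : Continuous χ) (hs : HasCompactSupport χ) (z : ℝ) :
    HasDerivAt (X1 χ) (χ z) z := by
  have h1 : X1 χ = fun z => (∫ ξ in (0 : ℝ)..z, χ ξ) + X1 χ 0 := by
    funext z
    rw [← X1_sub hc hs 0 z]
    ring
  rw [h1]
  exact (hc.integral_hasStrictDerivAt 0 z).hasDerivAt.add_const _

theorem X2_eq {χ : ℝ → ℝ} (hc : Continuous χ) (hs : HasCompactSupport χ) (z : ℝ) :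
    X2 χ z = z * X1 χ z - X1 (fun ξ => χ ξ * ξ) z := by
  have h1 : X2 χ z = ∫ ξ in Set.Iic z, χ ξ * max 0 (z - ξ) := by
    unfold X2
    symm
    refine setIntegral_eq_integral_of_forall_compl_eq_zero fun ξ hξ => ?_
    have : z < ξ := not_le.1 hξ
    rw [max_eq_left (by linarith), mul_zero]
  have h2 : ∫ ξ in Set.Iic z, χ ξ * max 0 (z - ξ) = ∫ ξ in Set.Iic z, (z * χ ξ - χ ξ * ξ) := by
    refine setIntegral_congr_fun measurableSet_Iic fun ξ hξ => ?_
    have : ξ ≤ z := hξ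
    rw [max_eq_right (by linarith)]
    ring
  rw [h1, h2, integral_sub, integral_const_mul]
  · rfl
  · exact ((integ hc hs).const_mul z).integrableOn
  · exact (integ_mul hc hs continuous_id).integrableOn

theorem hasDerivAt_X2 {χ : ℝ → ℝ} (hc : Continuous χ) (hs : HasCompactSupport χ) (z : ℝ) :
    HasDerivAt (X2 χ) (X1 χ z) z := by
  have h1 : X2 χ = fun z => z * X1 χ z - X1 (fun ξ => χ ξ * ξ) z := by
    funext z; exact X2_eq hc hs z
  rw [h1]
  have h2 := (hasDerivAt_id z).mul (hasDerivAt_X1 hc hs z)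
  have h3 := hasDerivAt_X1 (χ := fun ξ => χ ξ * ξ) (hc.mul continuous_id) hs.mul_right z
  have h4 := h2.sub h3
  have e : (1 : ℝ) * X1 χ z + id z * χ z - χ z * z = X1 χ z := by simp only [id]; ring
  rw [← e]
  exact h4

theorem icc {χ : ℝ → ℝ} (hc : Continuous χ) (hs : HasCompactSupport χ) (a b : ℝ) (hab : a ≤ b) :
    ∫ ξ in Set.Icc a b, χ ξ = X1 χ b - X1 χ a := by
  rw [X1_sub hc hs, intervalIntegral.integral_of_le hab, integral_Icc_eq_integral_Ioc]

theorem ind_int {χ : ℝ → ℝ} (hc : Continuous χ) (hs : HasCompactSupport χ) (a b : ℝ) :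
    ∫ ξ, χ ξ * ind a b ξ = if a ≤ b then X1 χ b - X1 χ a else 0 := by
  have h1 : (fun ξ => χ ξ * ind a b ξ) = (Set.Ioo a b).indicator χ := by
    funext ξ
    unfold ind
    by_cases h : a < ξ ∧ ξ < b
    · rw [if_pos h, mul_one, Set.indicator_of_mem (show ξ ∈ Set.Ioo a b from h)]
    · rw [if_neg h, mul_zero, Set.indicator_of_notMem (show ξ ∉ Set.Ioo a b from h)]
  rw [h1, integral_indicator measurableSet_Ioo]
  split_ifs with hab
  · rw [X1_sub hc hs, intervalIntegral.integral_of_le hab, integral_Ioc_eq_integral_Ioo]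
  · rw [Set.Ioo_eq_empty (fun h => hab h.le)]
    simp

theorem pointwise (a b c d ξ : ℝ) (hab : a ≤ b) (hcd : c ≤ d) :
    max 0 (min b (d + ξ) - max a (c + ξ)) =
      max 0 (b - c - ξ) - max 0 (b - d - ξ) - max 0 (a - c - ξ) + max 0 (a - d - ξ) := by
  simp only [max_def, min_def]
  split_ifs <;> linarith

theorem interval {χ : ℝ → ℝ} (hc : Continuous χ) (hs : HasCompactSupport χ) (a b c d : ℝ)
    (hab : a ≤ b) (hcd : c ≤ d) :
    ∫ ξ, χ ξ * max 0 (min b (d + ξ) - max a (c + ξ)) =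
      X2 χ (b - c) - X2 χ (b - d) - X2 χ (a - c) + X2 χ (a - d) := by
  have hi : ∀ z : ℝ, Integrable (fun ξ => χ ξ * max 0 (z - ξ)) := fun z =>
    integ_mul hc hs (continuous_const.max (continuous_const.sub continuous_id))
  have h1 : (fun ξ => χ ξ * max 0 (min b (d + ξ) - max a (c + ξ))) =
      fun ξ => χ ξ * max 0 (b - c - ξ) - χ ξ * max 0 (b - d - ξ) - χ ξ * max 0 (a - c - ξ) +
        χ ξ * max 0 (a - d - ξ) := by
    funext ξ
    rw [pointwise a b c d ξ hab hcd]
    ring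
  rw [h1, integral_add, integral_sub, integral_sub]
  · rfl
  · exact hi _
  · exact hi _
  · exact (hi _).sub (hi _)
  · exact hi _
  · exact ((hi _).sub (hi _)).sub (hi _)
  · exact hi _

end XX

theorem specXX : SpecXX := by
  intro χ hc hs
  exact ⟨XX.hasDerivAt_X1 hc hs, XX.hasDerivAt_X2 hc hs, XX.icc hc hs, XX.ind_int hc hs,
    XX.interval hc hs⟩

end Pool.MP671
end

section
/-!
# MP_671ac3_gt : module NZB, nonzero valuations are positive on bodies
-/
set_option autoImplicit false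
set_option linter.unusedVariables false

namespace Pool.MP671

namespace NZB

theorem cc_aff (y h a b c d : ℝ) :
    CC (prof y (y + h) (fun z => a + b * (z - y)) (fun z => c + d * (z - y))) := by
  refine PAR.prof_cc (by fun_prop) (by fun_prop) ?_ ?_
  · refine ⟨convex_Icc _ _, fun p _ q _ s t _ _ hst => le_of_eq ?_⟩
    simp only [smul_eq_mul]
    have ht : t = 1 - s := by linarith
    subst ht
    ring
  · refine ⟨convex_Icc _ _, fun p _ q _ s t _ _ hst => le_of_eq ?_⟩
    simp only [smul_eq_mul]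
    have ht : t = 1 - s := by linarith
    subst ht
    ring

/-- the square with lower left corner `z₀` and side `δ` -/
def sq (z₀ : Pl) (δ : ℝ) : Set Pl :=
  prof z₀.2 (z₀.2 + δ) (fun z => z₀.1 + 0 * (z - z₀.2)) (fun z => (z₀.1 + δ) + 0 * (z - z₀.2))

theorem mem_sq {z₀ z : Pl} {δ : ℝ} :
    z ∈ sq z₀ δ ↔ z₀.2 ≤ z.2 ∧ z.2 ≤ z₀.2 + δ ∧ z₀.1 ≤ z.1 ∧ z.1 ≤ z₀.1 + δ := by
  unfold sq prof
  simp

theorem cc_sq (z₀ : Pl) (δ : ℝ) : CC (sq z₀ δ) := cc_aff _ _ _ _ _ _

theorem nonneg {φ : Set Pl → ℝ} (hφ : IsPhi φ) {A : Set Pl} (hA : CC A) : 0 ≤ φ A := by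
  have h := hφ.mono ∅ A ⟨convex_empty, isCompact_empty⟩ hA (Set.empty_subset _)
  rwa [hφ.empty] at h

end NZB

theorem specNZB (hSEG : SpecSEG) (hREP : SpecREP) : SpecNZB := by
  intro φ hφ hex A hA hint
  obtain ⟨α, hα⟩ := hREP φ hφ
  have hval : ∀ (z₀ : Pl) (δ : ℝ), 0 ≤ δ →
      φ (NZB.sq z₀ δ) = 2 * δ * (ee φ + nn φ 0) + α * δ ^ 2 := by
    intro z₀ δ hδ
    unfold NZB.sq
    rw [hα z₀.2 δ z₀.1 0 (z₀.1 + δ) 0 hδ (by linarith) (by linarith)]
    ring
  rcases (NZB.nonneg hφ hA).lt_or_eq with h | h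
  · exact h
  exfalso
  obtain ⟨z₀, hz₀⟩ := hint
  obtain ⟨ε, hε, hball⟩ := Metric.mem_nhds_iff.1 (mem_interior_iff_mem_nhds.1 hz₀)
  have hsub : ∀ δ, 0 ≤ δ → δ < ε → NZB.sq z₀ δ ⊆ A := by
    intro δ h0 h1 z hz
    rw [NZB.mem_sq] at hz
    apply hball
    rw [Metric.mem_ball, Prod.dist_eq, max_lt_iff, Real.dist_eq, Real.dist_eq, abs_lt, abs_lt]
    obtain ⟨a1, a2, a3, a4⟩ := hz
    refine ⟨⟨?_, ?_⟩, ?_, ?_⟩ <;> linarith
  have hzero : ∀ δ, 0 ≤ δ → δ < ε → 2 * δ * (ee φ + nn φ 0) + α * δ ^ 2 = 0 := by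
    intro δ h0 h1
    rw [← hval z₀ δ h0]
    apply le_antisymm
    · rw [h]
      exact hφ.mono _ _ (NZB.cc_sq _ _) hA (hsub δ h0 h1)
    · exact NZB.nonneg hφ (NZB.cc_sq _ _)
  have e1 := hzero (ε / 2) (by linarith) (by linarith)
  have e2 := hzero (ε / 4) (by linarith) (by linarith)
  have e3 : α = 0 := by
    have : α * ε ^ 2 = 0 := by nlinarith
    rcases mul_eq_zero.1 this with h1 | h1
    · exact h1
    · exact absurd h1 (by positivity)
  have e4 : ee φ + nn φ 0 = 0 := by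
    rw [e3] at e1
    have : ε * (ee φ + nn φ 0) = 0 := by linarith
    rcases mul_eq_zero.1 this with h1 | h1
    · exact absurd h1 hε.ne'
    · exact h1
  obtain ⟨B, hB, hne⟩ := hex
  apply hne
  obtain ⟨r, hr⟩ := hB.2.isBounded.subset_closedBall (0 : Pl)
  have hB2 : B ⊆ NZB.sq (-(|r|), -(|r|)) (2 * |r|) := by
    intro z hz
    have h1 := hr hz
    rw [Metric.mem_closedBall, Prod.dist_eq, max_le_iff, Real.dist_eq, Real.dist_eq] at h1
    obtain ⟨h2, h3⟩ := h1
    simp only [Prod.fst_zero, Prod.snd_zero, sub_zero] at h2 h3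
    have h4 := le_abs_self r
    have h5 := abs_le.1 (h2.trans h4)
    have h6 := abs_le.1 (h3.trans h4)
    rw [NZB.mem_sq]
    refine ⟨?_, ?_, ?_, ?_⟩
    · exact h6.1
    · change z.2 ≤ -(|r|) + 2 * |r|
      linarith [h6.2]
    · exact h5.1
    · change z.1 ≤ -(|r|) + 2 * |r|
      linarith [h5.2]
  apply le_antisymm
  · refine (hφ.mono _ _ hB (NZB.cc_sq _ _) hB2).trans ?_
    rw [hval _ _ (by positivity), e3, e4]
    simp
  · exact NZB.nonneg hφ hB

end Pool.MP671
end

section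
/-!
# MP_671ac3_gt : module MIX, area against perimeter
-/
set_option autoImplicit false
set_option linter.unusedVariables false

namespace Pool.MP671

namespace MIX

theorem sumc (a : ℕ → ℝ) (t : ℝ) (ht : 0 ≤ t) : ∀ m : ℕ, (∀ j, j < m → 0 ≤ a j) →
    ∑ j ∈ Finset.range m, max 0 (min (t - Yp a j) (a j)) = min t (Yp a m) := by
  intro m
  induction m with
  | zero =>
    intro _
    simp [Yp, ht]
  | succ m ih =>
    intro ha
    have h1 := ih fun j hj => ha j (by omega)
    have h2 := ha m (by omega)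
    have h3 : Yp a (m + 1) = Yp a m + a m := by
      unfold Yp
      rw [Finset.sum_range_succ]
    rw [Finset.sum_range_succ, h1, h3]
    rcases le_total t (Yp a m) with h4 | h4
    · rw [min_eq_left h4, min_eq_left (by linarith), min_eq_left (by linarith),
        max_eq_left (by linarith), add_zero]
    · rw [min_eq_right h4]
      rcases le_total (t - Yp a m) (a m) with h5 | h5
      · rw [min_eq_left h5, max_eq_right (by linarith), min_eq_left (by linarith)]
        ring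
      · rw [min_eq_right h5, max_eq_right h2, min_eq_right (by linarith)]

theorem ch_ge (m : ℕ) (s : ℝ) (κ a : ℕ → ℝ) (hκ : ∀ j, j < m → s ≤ κ j)
    (ha : ∀ j, j < m → 0 ≤ a j) (t : ℝ) (ht : 0 ≤ t) (hm : t ≤ Yp a m) : s * t ≤ ch m κ a t := by
  have h1 := sumc a t ht m ha
  rw [min_eq_left hm] at h1
  unfold ch
  calc s * t = ∑ j ∈ Finset.range m, s * max 0 (min (t - Yp a j) (a j)) := by
        rw [← Finset.mul_sum, h1]
    _ ≤ _ := Finset.sum_le_sum fun j hj =>
        mul_le_mul_of_nonneg_right (hκ j (Finset.mem_range.1 hj)) (le_max_left _ _)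

theorem xp_add (s a b : ℕ → ℝ) (m : ℕ) : Xp s a m + Xp s b m = Xp s (fun j => a j + b j) m := by
  unfold Xp
  rw [← Finset.sum_add_distrib]
  exact Finset.sum_congr rfl fun j _ => by ring

theorem xB_eq {D D' : Data} (h : D.Ok) (h' : D'.Ok) (hM : Mate D D') :
    D'.q + Xp D'.s D'.r D'.m = D.q + Xp D.s D.r D.m := by
  have e1 := h.hcl
  have e2 := h'.hcl
  have e3 : Xp D'.s D'.r D'.m + Xp D'.s D'.l D'.m = Xp D.s D.r D.m + Xp D.s D.l D.m := by
    rw [xp_add, xp_add, hM.hm, hM.hs]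
    unfold Xp
    refine Finset.sum_congr rfl fun j hj => ?_
    change (D'.r j + D'.l j) * D.s j = (D.r j + D.l j) * D.s j
    rw [hM.hrl j (Finset.mem_range.1 hj)]
  have e4 := hM.hpq
  linarith

theorem slopes {D : Data} (h : D.Ok) : ∀ j, j < D.m → D.s 0 ≤ D.s j := by
  intro j hj
  rcases Nat.eq_zero_or_pos j with rfl | h0
  · exact le_rfl
  · exact (h.hs 0 j h0 hj).le

/-- the intersection of the polygon and its translate lies in a small parallelogram -/
theorem inter_sub {D : Data} (h : D.Ok) (ε : ℝ) :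
    body D ∩ tr ((1 - ε) * (D.q + Xp D.s D.r D.m), (1 - ε) * D.w) (body D) ⊆
      prof ((1 - ε) * D.w) ((1 - ε) * D.w + ε * D.w)
        (fun z => (1 - ε) * (D.q + Xp D.s D.r D.m) + D.s 0 * (z - (1 - ε) * D.w))
        (fun z => (D.q + Xp D.s D.r D.m - ε * (D.s 0 * D.w)) + D.s 0 * (z - (1 - ε) * D.w)) := by
  rintro z ⟨⟨z1, z2, z3, z4⟩, hz⟩
  rw [RFL.mem_tr] at hz
  obtain ⟨y1, y2, y3, y4⟩ := hz
  simp only [Prod.fst_sub, Prod.snd_sub] at y1 y2 y3 y4
  have h1 := ch_ge D.m (D.s 0) D.s D.r (slopes h) h.hr (D.w - z.2) (by linarith)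
    (by rw [h.hrw]; linarith)
  have h2 := ch_ge D.m (D.s 0) D.s D.l (slopes h) h.hl (z.2 - (1 - ε) * D.w) y1
    (by rw [h.hlw]; exact y2)
  unfold Data.R at z4
  unfold Data.L at y3
  refine ⟨by linarith, by nlinarith, ?_, ?_⟩
  · linarith
  · nlinarith

end MIX

theorem specMIX (hSEG : SpecSEG) (hREP : SpecREP) (hBOD : SpecBOD) (hCHA : SpecCHA) :
    SpecMIX := by
  intro φ ψ hφ hψ D D' hD hD' hM hint hnφ hvψ hcov
  obtain ⟨α, hα⟩ := hREP φ hφ
  obtain ⟨v, hv⟩ := hvψ
  obtain ⟨s1, s2, -⟩ := hSEG ψ hψ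
  obtain ⟨b1, b2, b3, b4, b5, b6, b7, -, -, -, b8⟩ := hBOD D hD
  obtain ⟨c1, c2, c3, c4, c5, c6, c7, -, -, -, c8⟩ := hBOD D' hD'
  set xB := D.q + Xp D.s D.r D.m with hxB
  have hxB' : D'.q + Xp D'.s D'.r D'.m = xB := MIX.xB_eq hD hD' hM
  have hw' : D'.w = D.w := hM.hw
  have hw := hD.hw
  -- the corners
  have hP : ((xB, D.w) : Pl) ∈ body D' := by
    refine ⟨?_, ?_, ?_, ?_⟩
    · exact hw.le
    · exact hw'.ge
    · change D'.L D.w ≤ xB
      rw [← hw', ← hxB', ← c4]
      exact c7 _ ⟨hD'.hw.le, le_rfl⟩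
    · change xB ≤ D'.R D.w
      rw [← hw', c4, hxB']
  have h0 : (0 : Pl) ∈ body D' := by
    refine ⟨le_rfl, hD'.hw.le, ?_, ?_⟩
    · change D'.L 0 ≤ 0
      rw [c1]
    · change 0 ≤ D'.R 0
      rw [c3]
      exact hD'.hq
  have hpos : 0 ≤ xB - D.s 0 * D.w := by
    have h1 := MIX.ch_ge D.m (D.s 0) D.s D.r (MIX.slopes hD) hD.hr D.w hw.le hD.hrw.ge
    have h2 : (0 : ℝ) ≤ D.R 0 := by rw [b3]; exact hD.hq
    unfold Data.R at h2
    rw [sub_zero] at h2
    linarith
  -- the segment in the body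
  obtain ⟨z₀, hz₀⟩ := hint
  have hseg : ∃ t : ℝ, 0 < t ∧ z₀ + t • v ∈ body D' := by
    have hc : Continuous fun t : ℝ => z₀ + t • v := by fun_prop
    have h2 : (z₀ + (0 : ℝ) • v) ∈ interior (body D') := by simpa using hz₀
    have h3 : ∀ᶠ t : ℝ in nhds 0, z₀ + t • v ∈ interior (body D') :=
      hc.continuousAt.eventually_mem (isOpen_interior.mem_nhds h2)
    have h4 : ∀ᶠ t : ℝ in nhdsWithin 0 (Set.Ioi 0), z₀ + t • v ∈ interior (body D') :=
      h3.filter_mono nhdsWithin_le_nhds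
    obtain ⟨t, ht, ht0⟩ := (h4.and self_mem_nhdsWithin).exists
    exact ⟨t, ht0, interior_subset ht⟩
  obtain ⟨t, ht, htv⟩ := hseg
  have hz₀' : z₀ ∈ body D' := interior_subset hz₀
  have hcv : Convex ℝ (body D') := c8.1
  -- the inequality
  have key : ∀ ε : ℝ, 0 < ε → ε < 1 →
      2 * (ε * t * nrm ψ v) ≤ α * D.w * (xB - D.s 0 * D.w) * ε ^ 2 := by
    intro ε he0 he1
    set x : Pl := ((1 - ε) * xB, (1 - ε) * D.w) with hx
    have hxs : x = (1 - ε) • ((xB, D.w) : Pl) := rfl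
    have hup : cov φ (body D) x ≤ α * D.w * (xB - D.s 0 * D.w) * ε ^ 2 := by
      have h1 := hφ.mono _ _ (RFL.CC_inter b8 (RFL.CC_tr b8)) (NZB.cc_aff _ _ _ _ _ _)
        (MIX.inter_sub hD ε)
      refine h1.trans (le_of_eq ?_)
      rw [hα _ _ _ _ _ _ (by positivity) (by nlinarith) (by nlinarith)]
      have e1 : ee φ = 0 := hnφ _
      have e2 : ∀ σ, nn φ σ = 0 := fun σ => hnφ _
      rw [e1, e2]
      ring
    have hlo : 2 * (ε * t * nrm ψ v) ≤ cov ψ (body D') x := by
      have hsub : segment ℝ (x + ε • z₀) (x + ε • z₀ + (ε * t) • v) ⊆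
          body D' ∩ tr x (body D') := by
        apply (RFL.CC_inter c8 (RFL.CC_tr c8)).1.segment_subset
        · refine ⟨?_, ?_⟩
          · rw [hxs]
            exact hcv hP hz₀' (by linarith) he0.le (by ring)
          · rw [RFL.mem_tr, add_sub_cancel_left]
            have := hcv h0 hz₀' (by linarith : (0 : ℝ) ≤ 1 - ε) he0.le (by ring)
            simpa using this
        · have e1 : x + ε • z₀ + (ε * t) • v = x + ε • (z₀ + t • v) := by
            rw [smul_add, smul_smul, add_assoc]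
          rw [e1]
          refine ⟨?_, ?_⟩
          · rw [hxs]
            exact hcv hP htv (by linarith) he0.le (by ring)
          · rw [RFL.mem_tr, add_sub_cancel_left]
            have := hcv h0 htv (by linarith : (0 : ℝ) ≤ 1 - ε) he0.le (by ring)
            simpa using this
      have hcc : CC (segment ℝ (x + ε • z₀) (x + ε • z₀ + (ε * t) • v)) := by
        refine ⟨convex_segment _ _, ?_⟩
        rw [segment_eq_image]
        exact isCompact_Icc.image (by fun_prop)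
      have h1 := hψ.mono _ _ hcc (RFL.CC_inter c8 (RFL.CC_tr c8)) hsub
      rw [s1, add_sub_cancel_left, s2, abs_of_pos (by positivity)] at h1
      exact h1
    rw [hcov x] at hup
    exact hlo.trans hup
  set C := α * D.w * (xB - D.s 0 * D.w) with hC
  have hc : 0 < 2 * (t * nrm ψ v) := by positivity
  have hε : ∃ ε : ℝ, 0 < ε ∧ ε < 1 ∧ |C| * ε < 2 * (t * nrm ψ v) := by
    refine ⟨min (1 / 2) (2 * (t * nrm ψ v) / (|C| + 1) / 2), by positivity, ?_, ?_⟩
    · exact (min_le_left _ _).trans_lt (by norm_num)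
    · have h1 : |C| * min (1 / 2) (2 * (t * nrm ψ v) / (|C| + 1) / 2) ≤
          (|C| + 1) * (2 * (t * nrm ψ v) / (|C| + 1) / 2) := by
        refine mul_le_mul (by linarith) (min_le_right _ _) (by positivity) (by positivity)
      have h2 : (|C| + 1) * (2 * (t * nrm ψ v) / (|C| + 1) / 2) = t * nrm ψ v := by
        have : (|C| + 1) ≠ 0 := by positivity
        field_simp
      linarith
  obtain ⟨ε, he0, he1, he2⟩ := hε
  have h1 := key ε he0 he1
  have h2 : C * ε ^ 2 ≤ |C| * ε * ε := by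
    have := mul_le_mul_of_nonneg_right (le_abs_self C) (by positivity : (0 : ℝ) ≤ ε ^ 2)
    linarith
  have h3 : |C| * ε * ε < 2 * (t * nrm ψ v) * ε := mul_lt_mul_of_pos_right he2 he0
  linarith

end Pool.MP671
end

section
/-!
# MP_671ac3_gt : module SP2 (the support of the covariogram, valuations positive on bodies)
-/
set_option linter.all false

namespace Pool.MP671

namespace SP2

theorem cov_pos {φ : Set Pl → ℝ} (hφ : ∀ A, CC A → (interior A).Nonempty → 0 < φ A)
    {K : Set Pl} (hK : CC K) (hi : (interior K).Nonempty) {x : Pl} (hx : x ∈ dif K) {ε : ℝ}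
    (h0 : 0 < ε) (h1 : ε < 1) : 0 < cov φ K ((1 - ε) • x) := by
  obtain ⟨c, hc⟩ := hi
  obtain ⟨a, ha, b, hb, rfl⟩ := hx
  have ha' : (1 - ε) • a + ε • c ∈ interior K :=
    hK.1.combo_self_interior_mem_interior ha hc (by linarith) h0 (by ring)
  have hb' : (1 - ε) • b + ε • c ∈ interior K :=
    hK.1.combo_self_interior_mem_interior hb hc (by linarith) h0 (by ring)
  set a' := (1 - ε) • a + ε • c with ha'd
  set b' := (1 - ε) • b + ε • c with hb'd
  have hx : (1 - ε) • (a - b) = a' - b' := by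
    rw [ha'd, hb'd, smul_sub]; abel
  have hCC : CC (K ∩ tr (a' - b') K) := by
    refine ⟨hK.1.inter ?_, hK.2.inter ?_⟩
    · have := hK.1.translate (a' - b')
      have e : (fun z => (a' - b') + z) '' K = tr (a' - b') K := by
        simp only [tr, add_comm]
      rwa [e] at this
    · exact hK.2.image (by fun_prop)
  rw [hx, cov]
  refine hφ _ hCC ⟨a', ?_⟩
  rw [interior_inter]
  refine ⟨ha', ?_⟩
  have hopen : IsOpen (tr (a' - b') (interior K)) :=
    (Homeomorph.addRight (a' - b')).isOpenMap _ isOpen_interior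
  have hsub : tr (a' - b') (interior K) ⊆ tr (a' - b') K := Set.image_mono interior_subset
  exact interior_maximal hsub hopen ⟨b', hb', by simp⟩

theorem half {φ ψ : Set Pl → ℝ} (hψ : IsPhi ψ)
    (hpos : ∀ A, CC A → (interior A).Nonempty → 0 < φ A) {K H : Set Pl}
    (hK : CC K) (hH : CC H) (hi : (interior K).Nonempty)
    (hcov : ∀ x, cov φ K x = cov ψ H x) : dif K ⊆ dif H := by
  intro x hx
  have h1 : ∀ ε : ℝ, 0 < ε → ε < 1 → (1 - ε) • x ∈ dif H := by
    intro ε h0 h1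
    by_contra hn
    have h2 := cov_pos hpos hK hi hx h0 h1
    rw [hcov, SUP.cov_zero hψ hn] at h2
    exact lt_irrefl _ h2
  have hc : Filter.Tendsto (fun ε : ℝ => (1 - ε) • x) (nhdsWithin 0 (Set.Ioi 0)) (nhds x) := by
    have : Continuous fun ε : ℝ => (1 - ε) • x := by fun_prop
    have h2 := (this.tendsto 0).mono_left (nhdsWithin_le_nhds (s := Set.Ioi 0))
    simpa using h2
  refine (SUP.dif_closed hH).mem_of_tendsto hc ?_
  have : Set.Ioo (0 : ℝ) 1 ∈ nhdsWithin (0 : ℝ) (Set.Ioi 0) := Ioo_mem_nhdsGT one_pos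
  filter_upwards [this] with ε hε
  exact h1 ε hε.1 hε.2

end SP2

theorem specSP2 : SpecSP2 := by
  intro φ ψ hφ hψ h1 h2 K H hK hH hKi hHi hcov
  exact Set.Subset.antisymm (SP2.half hψ h1 hK hH hKi hcov)
    (SP2.half hφ h2 hH hK hHi fun x => (hcov x).symm)

end Pool.MP671
end
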