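import Pool.Agent.Lib.MP_671ac3_gt.Spec
import Pool.Agent.Lib.MP_671ac3_gt.Spec2
import Pool.Agent.Lib.MP_671ac3_gt.MR2
import Pool.Agent.Lib.MP_671ac3_gt.SP2
import Pool.Agent.Lib.MP_671ac3_gt.CV2
import Pool.Agent.Lib.MP_671ac3_gt.AKN

section
namespace Pool.MP671

open MeasureTheory

namespace FEQ

theorem kink_unique {f : ℝ → ℝ} {t a b : ℝ} (h : Kink f t a) (h' : Kink f t b) : a = b := by
  obtain ⟨x, y, h1, h2, h3⟩ := h
  obtain ⟨x', y', h1', h2', h3'⟩ := h'
  have e1 : x = x' := (uniqueDiffWithinAt_Ici t).eq_deriv _ h1 h1'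
  have e2 : y = y' := (uniqueDiffWithinAt_Iic t).eq_deriv _ h2 h2'
  rw [← h3, ← h3', e1, e2]

theorem integrable_ind (a b : ℝ) : Integrable (fun ξ => ind a b ξ) := by
  have : (fun ξ => ind a b ξ) = Set.indicator (Set.Ioo a b) (fun _ => (1 : ℝ)) := by
    funext ξ
    unfold ind Set.indicator
    simp only [Set.mem_Ioo]
  rw [this]
  exact (integrable_indicator_iff measurableSet_Ioo).2 (by simp)

theorem integrable_F (D : Data) (n : ℝ → ℝ) (e t : ℝ) : Integrable (fun ξ => F D n e ξ t) := by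
  unfold F
  refine integrable_finsetSum _ fun k _ => ?_
  refine Integrable.add (Integrable.const_mul (Integrable.add ?_ ?_) _)
    (Integrable.const_mul (Integrable.add ?_ ?_) _)
  all_goals
    split_ifs
    · exact integrable_ind _ _
    · exact integrable_zero _ _ _

end FEQ

theorem specFEQ (hKNK : SpecKNK) : SpecFEQ := by
  intro φ ψ hφ hψ D D' o o' hw hcov t ht htw
  have key : ∀ χ : ℝ → ℝ, Continuous χ → HasCompactSupport χ →
      ∫ ξ, χ ξ * F D (nn φ) (ee φ) ξ t = ∫ ξ, χ ξ * F D' (nn ψ) (ee ψ) ξ t := by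
    intro χ h1 h2
    have k1 := hKNK φ hφ D o χ h1 h2 t ht htw
    have k2 := hKNK ψ hψ D' o' χ h1 h2 t ht (by rw [hw]; exact htw)
    have e : G ψ (body D') χ = G φ (body D) χ := by
      funext s
      unfold G
      simp only [hcov]
    rw [e] at k2
    have := FEQ.kink_unique k1 k2
    linarith
  have i1 := FEQ.integrable_F D (nn φ) (ee φ) t
  have i2 := FEQ.integrable_F D' (nn ψ) (ee ψ) t
  have ae : ∀ᵐ ξ, F D (nn φ) (ee φ) ξ t - F D' (nn ψ) (ee ψ) ξ t = 0 := by
    refine ae_eq_zero_of_integral_contDiff_smul_eq_zero (i1.sub i2).locallyIntegrable ?_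
    intro g hg hgc
    have := key g hg.continuous hgc
    simp only [Pi.sub_apply, smul_eq_mul, mul_sub]
    obtain ⟨C, hC⟩ := hgc.exists_bound_of_continuous hg.continuous
    have b1 : Integrable (fun ξ => g ξ * F D (nn φ) (ee φ) ξ t) :=
      i1.bdd_mul hg.continuous.aestronglyMeasurable (Filter.Eventually.of_forall hC)
    have b2 : Integrable (fun ξ => g ξ * F D' (nn ψ) (ee ψ) ξ t) :=
      i2.bdd_mul hg.continuous.aestronglyMeasurable (Filter.Eventually.of_forall hC)
    rw [integral_sub b1 b2, this, sub_self]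
  intro a b hab
  by_contra hcon
  push Not at hcon
  have hz : volume (Set.Ioo a b) = 0 := by
    refine measure_mono_null ?_ ae
    intro ξ hξ h0
    exact hcon ξ hξ (sub_eq_zero.1 h0)
  rw [Real.volume_Ioo, ENNReal.ofReal_eq_zero] at hz
  linarith

end Pool.MP671
end

section
namespace Pool.MP671

open MeasureTheory Topology

namespace AFQ

theorem kink_const_mul {f : ℝ → ℝ} {t a : ℝ} (c : ℝ) (h : Kink f t a) :
    Kink (fun s => c * f s) t (c * a) := by
  obtain ⟨x, y, h1, h2, h3⟩ := h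
  exact ⟨c * x, c * y, h1.const_mul c, h2.const_mul c, by rw [← h3]; ring⟩

theorem kink_congr {f g : ℝ → ℝ} {t a : ℝ} (hfg : f =ᶠ[𝓝 t] g) (h : Kink f t a) :
    Kink g t a := by
  obtain ⟨x, y, h1, h2, h3⟩ := h
  have e : g =ᶠ[𝓝 t] f := hfg.symm
  exact ⟨x, y, h1.congr_of_eventuallyEq (e.filter_mono nhdsWithin_le_nhds) e.eq_of_nhds,
    h2.congr_of_eventuallyEq (e.filter_mono nhdsWithin_le_nhds) e.eq_of_nhds, h3⟩

theorem F_mul (D : Data) (α ξ t : ℝ) :
    F D (fun _ => 0) α ξ t = α * F D (fun _ => 0) 1 ξ t := by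
  unfold F tp tm
  rw [Finset.mul_sum]
  exact Finset.sum_congr rfl fun k _ => by ring

theorem int_F (D : Data) (χ : ℝ → ℝ) (α t : ℝ) :
    ∫ ξ, χ ξ * F D (fun _ => 0) α ξ t = α * ∫ ξ, χ ξ * F D (fun _ => 0) 1 ξ t := by
  rw [← integral_const_mul]
  exact integral_congr_ae (Filter.Eventually.of_forall fun ξ => by
    show χ ξ * F D (fun _ => 0) α ξ t = α * (χ ξ * F D (fun _ => 0) 1 ξ t)
    rw [F_mul]
    ring)

end AFQ

theorem specAFQ (hAFB : SpecAFB) (hAKN : SpecAKN) : SpecAFQ := by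
  intro D D' o o' hw α β hA t ht htw
  have key : ∀ χ : ℝ → ℝ, Continuous χ → HasCompactSupport χ →
      ∫ ξ, χ ξ * F D (fun _ => 0) α ξ t = ∫ ξ, χ ξ * F D' (fun _ => 0) β ξ t := by
    intro χ h1 h2
    obtain ⟨A, hA1, hA2⟩ := hAKN D o χ h1 h2
    obtain ⟨B, hB1, hB2⟩ := hAKN D' o' χ h1 h2
    have eq1 : ∀ s ∈ Set.Ioo 0 D.w, α * (∫ y in s..D.w, D.T χ s y) =
        β * (∫ y in s..D'.w, D'.T χ s y) := by
      intro s hs
      rw [← hAFB D o χ h1 h2 s hs.1 hs.2, ← hAFB D' o' χ h1 h2 s hs.1 (by rw [hw]; exact hs.2),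
        ← integral_const_mul, ← integral_const_mul]
      refine integral_congr_ae (Filter.Eventually.of_forall fun ξ => ?_)
      show α * (χ ξ * Ar D ξ s) = β * (χ ξ * Ar D' ξ s)
      have := hA ξ s hs.1.le hs.2.le
      calc α * (χ ξ * Ar D ξ s) = χ ξ * (α * Ar D ξ s) := by ring
        _ = χ ξ * (β * Ar D' ξ s) := by rw [this]
        _ = β * (χ ξ * Ar D' ξ s) := by ring
    have eq2 : ∀ s ∈ Set.Ioo 0 D.w, α * A s = β * B s := by
      intro s hs
      have d1 := (hA1 s hs.1 hs.2).const_mul α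
      have d2 := (hB1 s hs.1 (by rw [hw]; exact hs.2)).const_mul β
      have hev : (fun s => β * (∫ y in s..D'.w, D'.T χ s y)) =ᶠ[𝓝 s]
          fun s => α * (∫ y in s..D.w, D.T χ s y) := by
        filter_upwards [Ioo_mem_nhds hs.1 hs.2] with z hz
        exact (eq1 z hz).symm
      exact d1.unique (d2.congr_of_eventuallyEq hev.symm)
    have k1 := AFQ.kink_const_mul α (hA2 t ht htw)
    have k2 := AFQ.kink_const_mul β (hB2 t ht (by rw [hw]; exact htw))
    have k3 := AFQ.kink_congr (g := fun s => β * B s) (by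
      filter_upwards [Ioo_mem_nhds ht htw] with z hz
      exact eq2 z hz) k1
    have := FEQ.kink_unique k3 k2
    rw [AFQ.int_F, AFQ.int_F D' χ β]
    exact this
  have i1 := FEQ.integrable_F D (fun _ => 0) α t
  have i2 := FEQ.integrable_F D' (fun _ => 0) β t
  have ae : ∀ᵐ ξ, F D (fun _ => 0) α ξ t - F D' (fun _ => 0) β ξ t = 0 := by
    refine ae_eq_zero_of_integral_contDiff_smul_eq_zero (i1.sub i2).locallyIntegrable ?_
    intro g hg hgc
    have := key g hg.continuous hgc
    simp only [smul_eq_mul, mul_sub]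
    obtain ⟨C, hC⟩ := hgc.exists_bound_of_continuous hg.continuous
    have b1 : Integrable (fun ξ => g ξ * F D (fun _ => 0) α ξ t) :=
      i1.bdd_mul hg.continuous.aestronglyMeasurable (Filter.Eventually.of_forall hC)
    have b2 : Integrable (fun ξ => g ξ * F D' (fun _ => 0) β ξ t) :=
      i2.bdd_mul hg.continuous.aestronglyMeasurable (Filter.Eventually.of_forall hC)
    rw [integral_sub b1 b2, this, sub_self]
  intro a b hab
  by_contra hcon
  push Not at hcon
  have hz : volume (Set.Ioo a b) = 0 := by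
    refine measure_mono_null ?_ ae
    intro ξ hξ h0
    exact hcon ξ hξ (sub_eq_zero.1 h0)
  rw [Real.volume_Ioo, ENNReal.ofReal_eq_zero] at hz
  linarith

end Pool.MP671
end

section
/-!
# MP_671ac3_gt : the specifications put together
-/
namespace Pool.MP671

theorem sBOD : SpecBOD := specBOD specCHA specPAC
theorem sREP : SpecREP := specREP specSEG
theorem sNPR : SpecNPR := specNPR specSEG sREP
theorem sPAR : SpecPAR := specPAR specSEG sREP specPAC
theorem sCOV : SpecCOV := specCOV sPAR sBOD specPAC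
theorem sFUA : SpecFUA := specFUA sBOD
theorem sFUB : SpecFUB := specFUB sCOV specXX sBOD sFUA sNPR
theorem sKNA : SpecKNA := specKNA specKL specXX sBOD
theorem sKNB : SpecKNB := specKNB specXX specCHN specCHA sBOD
theorem sKNI : SpecKNI := specKNI specKL specXX specCHN specCHA sBOD
theorem sKNK : SpecKNK := specKNK sFUB sKNA sKNB sKNI specXX specCHA sBOD sNPR
theorem sFEQ : SpecFEQ := specFEQ sKNK
theorem sF1 : SpecF1 := specF1 sCOV sBOD
theorem sCSE : SpecCSE := specCSE specCSV specMIR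
theorem sCSS : SpecCSS := specCSS specCSV sCSE specMIR
theorem sCSH : SpecCSH := specCSH specTIL
theorem sCSD : SpecCSD := specCSD sCSH specMIR
theorem sSUP : SpecSUP := specSUP specSEG
theorem sFNC : SpecFNC := specFNC specCHA sBOD
theorem sSUM : SpecSUM := specSUM specCHA sBOD specFNB
theorem sFAN : SpecFAN := specFAN specFNA specFNB sFNC sSUM specSKP
theorem sFLB : SpecFLB := specFLB specCHA sBOD

/-- The theorem. -/
theorem final : Final :=
  main specSEG sNPR sFEQ sF1 sCSS sCSD sSUP sFAN sFLB specFLP specFRM specRFL sBOD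

end Pool.MP671
end
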