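import Pool.Agent.Lib.MP_671ac3_gt.Spec

/-!
# MP_671ac3_gt : module NTR (triangle inequality for the seminorm `nrm φ`)
-/

namespace Pool.MP671

private theorem nul_seg_CC (a b : Pl) : CC (segment ℝ a b) := by
  refine ⟨convex_segment a b, ?_⟩
  rw [segment_eq_image]
  exact isCompact_Icc.image (by fun_prop)

/-- the triangle `b y ≤ x ≤ a y`, `0 ≤ y ≤ h` -/
private theorem nul_tri_CC (a b h : ℝ) :
    CC (prof 0 (0 + h) (fun z => 0 + b * (z - 0)) (fun z => 0 + a * (z - 0))) := by
  constructor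
  · intro x hx y hy s t hs ht hst
    simp only [prof, Set.mem_setOf_eq] at hx hy ⊢
    obtain ⟨h1, h2, h3, h4⟩ := hx
    obtain ⟨k1, k2, k3, k4⟩ := hy
    simp only [Prod.fst_add, Prod.snd_add, Prod.smul_fst, Prod.smul_snd, smul_eq_mul]
    have p1 := mul_le_mul_of_nonneg_left h1 hs
    have p2 := mul_le_mul_of_nonneg_left h2 hs
    have p3 := mul_le_mul_of_nonneg_left h3 hs
    have p4 := mul_le_mul_of_nonneg_left h4 hs
    have q1 := mul_le_mul_of_nonneg_left k1 ht
    have q2 := mul_le_mul_of_nonneg_left k2 ht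
    have q3 := mul_le_mul_of_nonneg_left k3 ht
    have q4 := mul_le_mul_of_nonneg_left k4 ht
    have e : (s + t) * h = h := by rw [hst, one_mul]
    refine ⟨by linarith, by nlinarith, by nlinarith, by nlinarith⟩
  · refine IsCompact.of_isClosed_subset
      (isCompact_Icc (a := ((-(|b| * |h|), 0) : Pl)) (b := ((|a| * |h|, h) : Pl))) ?_ ?_
    · simp only [prof, Set.setOf_and]
      refine (isClosed_le continuous_const continuous_snd).inter
        ((isClosed_le continuous_snd continuous_const).inter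
          ((isClosed_le (by fun_prop) continuous_fst).inter
            (isClosed_le continuous_fst (by fun_prop))))
    · intro z hz
      simp only [prof, Set.mem_setOf_eq, zero_add, sub_zero] at hz
      obtain ⟨h1, h2, h3, h4⟩ := hz
      have hh : |h| = h := abs_of_nonneg (h1.trans h2)
      have hb := neg_abs_le b
      have ha := le_abs_self a
      have hb0 := abs_nonneg b
      have ha0 := abs_nonneg a
      rw [Set.mem_Icc, Prod.le_def, Prod.le_def]
      simp only
      rw [hh]
      refine ⟨⟨?_, h1⟩, ?_, h2⟩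
      · nlinarith [mul_le_mul_of_nonneg_right hb h1, mul_le_mul_of_nonneg_left h2 hb0]
      · nlinarith [mul_le_mul_of_nonneg_right ha h1, mul_le_mul_of_nonneg_left h2 ha0]

private theorem nul_top (a b h : ℝ) (hab : b ≤ a) (hh : 0 ≤ h) :
    segment ℝ ((b * h, h) : Pl) (a * h, h) ⊆
      prof 0 (0 + h) (fun z => 0 + b * (z - 0)) (fun z => 0 + a * (z - 0)) := by
  refine (nul_tri_CC a b h).1.segment_subset ?_ ?_
  · simp only [prof, Set.mem_setOf_eq, zero_add, sub_zero]
    exact ⟨hh, le_rfl, le_rfl, mul_le_mul_of_nonneg_right hab hh⟩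
  · simp only [prof, Set.mem_setOf_eq, zero_add, sub_zero]
    exact ⟨hh, le_rfl, mul_le_mul_of_nonneg_right hab hh, le_rfl⟩

/-- one order -/
private theorem nul_le (hSEG : SpecSEG) (hREP : SpecREP) (φ : Set Pl → ℝ) (hφ : IsPhi φ)
    (a b : ℝ) (hab : b ≤ a) : ee φ * (a - b) ≤ nn φ a + nn φ b := by
  obtain ⟨α, hα⟩ := hREP φ hφ
  obtain ⟨s1, s2, s3⟩ := hSEG φ hφ
  -- inequality for every `h > 0`
  have key : ∀ h : ℝ, 0 < h → ee φ * (a - b) ≤ nn φ a + nn φ b + α * ((a - b) * h / 2) := by
    intro h hh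
    have e1 := hα 0 h 0 b 0 a hh.le le_rfl (by nlinarith [mul_le_mul_of_nonneg_right hab hh.le])
    have e2 := hφ.mono _ _ (nul_seg_CC _ _) (nul_tri_CC a b h) (nul_top a b h hab hh.le)
    have e3 : φ (segment ℝ ((b * h, h) : Pl) (a * h, h)) = 2 * ((a - b) * h * ee φ) := by
      rw [s1]
      have : ((a * h, h) : Pl) - (b * h, h) = ((a - b) * h) • ((1, 0) : Pl) := by
        ext <;> simp <;> ring
      rw [this, s2, abs_of_nonneg (mul_nonneg (sub_nonneg.mpr hab) hh.le)]
      rfl
    rw [e3, e1] at e2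
    have e4 : h * (ee φ * (a - b)) ≤ h * (nn φ a + nn φ b + α * ((a - b) * h / 2)) := by
      linarith
    exact le_of_mul_le_mul_left e4 hh
  -- let `h → 0`
  have hc : Filter.Tendsto (fun h : ℝ => nn φ a + nn φ b + α * ((a - b) * h / 2))
      (nhdsWithin 0 (Set.Ioi 0)) (nhds (nn φ a + nn φ b + α * ((a - b) * 0 / 2))) := by
    apply Filter.Tendsto.mono_left _ nhdsWithin_le_nhds
    apply Continuous.tendsto
    fun_prop
  have h0 : nn φ a + nn φ b + α * ((a - b) * 0 / 2) = nn φ a + nn φ b := by ring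
  rw [h0] at hc
  refine ge_of_tendsto hc ?_
  filter_upwards [self_mem_nhdsWithin] with h hh
  exact key h hh

/-- `N(e) |a - b| ≤ n(a) + n(b)` -/
theorem nul_abs (hSEG : SpecSEG) (hREP : SpecREP) (φ : Set Pl → ℝ) (hφ : IsPhi φ)
    (a b : ℝ) : ee φ * |a - b| ≤ nn φ a + nn φ b := by
  rcases le_total b a with h | h
  · rw [abs_of_nonneg (sub_nonneg.mpr h)]
    exact nul_le hSEG hREP φ hφ a b h
  · rw [abs_sub_comm, abs_of_nonneg (sub_nonneg.mpr h), add_comm]
    exact nul_le hSEG hREP φ hφ b a h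

/-- the case `u + v = (1,0)` -/
private theorem nul_one (hSEG : SpecSEG) (hREP : SpecREP) (φ : Set Pl → ℝ) (hφ : IsPhi φ)
    (u v : Pl) (h : u + v = (1, 0)) : nrm φ (u + v) ≤ nrm φ u + nrm φ v := by
  obtain ⟨s1, s2, s3⟩ := hSEG φ hφ
  have hv : v = (1 - u.1, -u.2) := by
    have h1 : v = (1, 0) - u := by rw [← h]; abel
    rw [h1]
    ext <;> simp
  rw [h]
  by_cases hu : u.2 = 0
  · have e1 : u = u.1 • ((1, 0) : Pl) := by ext <;> simp [hu]
    have e2 : v = (1 - u.1) • ((1, 0) : Pl) := by rw [hv]; ext <;> simp [hu]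
    rw [e2, s2]
    have e3 : nrm φ u = |u.1| * nrm φ (1, 0) := by
      conv_lhs => rw [e1]
      exact s2 _ _
    rw [e3]
    have h3 := s3 (1, 0)
    have h4 : (1 : ℝ) ≤ |u.1| + |1 - u.1| := by
      have := abs_add_le u.1 (1 - u.1)
      simpa using this
    nlinarith
  · set s := u.2 with hs
    set a := u.1 / s with ha
    set b := a - 1 / s with hb
    have e1 : u = s • ((a, 1) : Pl) := by
      ext
      · simp [ha]; field_simp
      · simp [hs]
    have e2 : v = (-s) • ((b, 1) : Pl) := by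
      rw [hv]
      ext
      · simp [hb, ha]; field_simp; ring
      · simp
    have e3 : nrm φ u = |s| * nn φ a := by
      conv_lhs => rw [e1]
      exact s2 _ _
    have e4 : nrm φ v = |s| * nn φ b := by
      rw [e2, s2, abs_neg]; rfl
    have e5 := nul_abs hSEG hREP φ hφ a b
    have e6 : a - b = 1 / s := by rw [hb]; ring
    rw [e6, abs_div, abs_one] at e5
    have hs0 : 0 < |s| := abs_pos.mpr hu
    rw [e3, e4]
    have e7 : |s| * (ee φ * (1 / |s|)) = ee φ := by field_simp
    have e8 := mul_le_mul_of_nonneg_left e5 hs0.le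
    rw [e7] at e8
    have e9 : nrm φ (1, 0) = ee φ := rfl
    rw [e9]
    linarith

/-- NUL. From SEG, REP, FRM: `nrm φ` is a seminorm. -/
theorem specNUL (hSEG : SpecSEG) (hREP : SpecREP) (hFRM : SpecFRM) :
    ∀ φ : Set Pl → ℝ, IsPhi φ → ∀ u v : Pl, nrm φ (u + v) ≤ nrm φ u + nrm φ v := by
  intro φ hφ u v
  obtain ⟨s1, s2, s3⟩ := hSEG φ hφ
  by_cases hw : u + v = 0
  · rw [hw]
    have h0 : nrm φ 0 = 0 := by
      have := s2 0 0
      simpa using this
    rw [h0]
    have := s3 u
    have := s3 v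
    linarith
  · obtain ⟨f1, -, f3, -⟩ := hFRM (u + v) hw
    have hn : (u + v).1 ^ 2 + (u + v).2 ^ 2 ≠ 0 := by
      intro h
      apply hw
      have h1 : (u + v).1 = 0 := by nlinarith [sq_nonneg (u + v).1, sq_nonneg (u + v).2]
      have h2 : (u + v).2 = 0 := by nlinarith [sq_nonneg (u + v).1, sq_nonneg (u + v).2]
      ext
      · exact h1
      · exact h2
    set w := u + v with hwdef
    set N := w.1 ^ 2 + w.2 ^ 2 with hN
    -- division by `w`
    set dv : Pl → Pl := fun z => ((w.1 * z.1 + w.2 * z.2) / N, (w.1 * z.2 - w.2 * z.1) / N) with hdv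
    have hm : ∀ z, mul w (dv z) = z := by
      intro z
      ext
      · simp only [mul, hdv]
        field_simp
        rw [hN]; ring
      · simp only [mul, hdv]
        field_simp
        rw [hN]; ring
    have hsum : dv u + dv v = (1, 0) := by
      ext
      · simp only [hdv, Prod.fst_add]
        rw [← add_div]
        have : w.1 * u.1 + w.2 * u.2 + (w.1 * v.1 + w.2 * v.2) = N := by
          have h1 : w.1 = u.1 + v.1 := by rw [hwdef]; rfl
          have h2 : w.2 = u.2 + v.2 := by rw [hwdef]; rfl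
          rw [hN]
          have : w.1 * u.1 + w.2 * u.2 + (w.1 * v.1 + w.2 * v.2) =
            w.1 * (u.1 + v.1) + w.2 * (u.2 + v.2) := by ring
          rw [this, ← h1, ← h2]; ring
        rw [this, div_self hn]
      · simp only [hdv, Prod.snd_add]
        rw [← add_div]
        have : w.1 * u.2 - w.2 * u.1 + (w.1 * v.2 - w.2 * v.1) = 0 := by
          have h1 : w.1 = u.1 + v.1 := by rw [hwdef]; rfl
          have h2 : w.2 = u.2 + v.2 := by rw [hwdef]; rfl
          have : w.1 * u.2 - w.2 * u.1 + (w.1 * v.2 - w.2 * v.1) =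
            w.1 * (u.2 + v.2) - w.2 * (u.1 + v.1) := by ring
          rw [this, ← h1, ← h2]; ring
        rw [this, zero_div]
    have key := nul_one hSEG hREP (frφ w φ) (f1 φ hφ) (dv u) (dv v) hsum
    rw [hsum, f3, f3, f3, hm, hm] at key
    have e1 : mul w (1, 0) = w := by
      ext <;> simp [mul]
    rw [e1] at key
    exact key

end Pool.MP671
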