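import Pool.Agent.Lib.MP_671ac3_gt.Spec2
import Pool.Agent.Lib.MP_671ac3_gt.CV2

/-!
# MP_671ac3_gt, module CHZ: induction over the vertices, one direction may be missing
-/

namespace Pool.MP671

open MeasureTheory

namespace CHZ

open CSH

/-- nonnegative heights, the first and the last positive, and positive off `z` -/
structure Hz (m z : ℕ) (a : ℕ → ℝ) : Prop where
  z0 : 0 < z
  z1 : z + 1 < m
  nn : ∀ j, j < m → 0 ≤ a j
  pos : ∀ j, j < m → j ≠ z → 0 < a j

theorem Yp_le {m z : ℕ} {a : ℕ → ℝ} (h : Hz m z a) {i j : ℕ} (hij : i ≤ j) (hj : j ≤ m) :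
    Yp a i ≤ Yp a j := by
  induction j, hij using Nat.le_induction with
  | base => exact le_rfl
  | succ j hj' ih =>
    rw [Yp_succ]
    have h1 := h.nn j (by omega)
    have h2 := ih (by omega)
    linarith

theorem Yp_pos {m z : ℕ} {a : ℕ → ℝ} (h : Hz m z a) {k : ℕ} (hk : 0 < k) (hkm : k ≤ m) :
    0 < Yp a k := by
  have h1 := Yp_le h (show 1 ≤ k from hk) hkm
  have h2 : Yp a 1 = a 0 := by rw [Yp_succ, Yp_zero, zero_add]
  have h3 := h.pos 0 (by omega) (by have := h.z0; omega)
  linarith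

theorem Yp_top {m z : ℕ} {a : ℕ → ℝ} (h : Hz m z a) {k : ℕ} (hk : k < m) :
    Yp a k < Yp a m := by
  obtain ⟨m', rfl⟩ : ∃ m', m = m' + 1 := ⟨m - 1, by omega⟩
  have h1 := Yp_le h (show k ≤ m' by omega) (by omega)
  have h2 := h.pos m' (by omega) (by have := h.z1; omega)
  rw [Yp_succ]
  linarith

theorem Yp_ltz {m z : ℕ} {a : ℕ → ℝ} (h : Hz m z a) {i j : ℕ} (hi : z < i) (hij : i < j)
    (hj : j ≤ m) : Yp a i < Yp a j := by
  have h1 := Yp_le h (show i + 1 ≤ j from hij) hj
  have h2 := h.pos i (by omega) (by omega)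
  rw [Yp_succ] at h1
  linarith

/-- The basic inequality for a chain with increasing slopes. -/
theorem key {m z : ℕ} {s a : ℕ → ℝ} (hs : ∀ i j, i < j → j < m → s i < s j)
    (ha : Hz m z a) {k : ℕ} (hk : k + 1 < m) :
    Xp s a (k + 1) * (Yp a m - Yp a (k + 1)) < (Xp s a m - Xp s a (k + 1)) * Yp a (k + 1) := by
  have hY1 : 0 < Yp a (k + 1) := Yp_pos ha (Nat.succ_pos k) hk.le
  have hY2 : 0 < Yp a m - Yp a (k + 1) := by
    have := Yp_top ha hk
    linarith
  have h1 : Xp s a (k + 1) ≤ s k * Yp a (k + 1) := by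
    unfold Xp Yp
    rw [Finset.mul_sum]
    refine Finset.sum_le_sum fun j hj => ?_
    have hj' := Finset.mem_range.1 hj
    have h2 : s j ≤ s k := by
      rcases Nat.lt_succ_iff_lt_or_eq.1 hj' with h | h
      · exact (hs j k h (by omega)).le
      · rw [h]
    have h3 := ha.nn j (by omega)
    nlinarith
  have h2 : s (k + 1) * (Yp a m - Yp a (k + 1)) ≤ Xp s a m - Xp s a (k + 1) := by
    unfold Xp Yp
    rw [split_sum a hk.le, split_sum (fun j => a j * s j) hk.le]
    have e1 : ∀ x y : ℝ, x + y - x = y := fun x y => by ring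
    rw [e1, e1, Finset.mul_sum]
    refine Finset.sum_le_sum fun j hj => ?_
    have hj' := Finset.mem_Ico.1 hj
    have h2 : s (k + 1) ≤ s j := by
      rcases Nat.lt_or_ge (k + 1) j with h | h
      · exact (hs _ _ h hj'.2).le
      · have : j = k + 1 := by omega
        rw [this]
    have h3 := ha.nn j hj'.2
    nlinarith
  have h3 := hs k (k + 1) (Nat.lt_succ_self k) hk
  have h4 : s k * Yp a (k + 1) * (Yp a m - Yp a (k + 1))
      < s (k + 1) * (Yp a m - Yp a (k + 1)) * Yp a (k + 1) := by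
    have := mul_pos hY1 hY2
    nlinarith
  calc Xp s a (k + 1) * (Yp a m - Yp a (k + 1))
      ≤ s k * Yp a (k + 1) * (Yp a m - Yp a (k + 1)) :=
        mul_le_mul_of_nonneg_right h1 hY2.le
    _ < s (k + 1) * (Yp a m - Yp a (k + 1)) * Yp a (k + 1) := h4
    _ ≤ (Xp s a m - Xp s a (k + 1)) * Yp a (k + 1) := mul_le_mul_of_nonneg_right h2 hY1.le

/-- A vertex at depth `t` lies on the left of the chord. -/
theorem below {m z : ℕ} {s a : ℕ → ℝ} (hs : ∀ i j, i < j → j < m → s i < s j)
    (ha : Hz m z a) {w t : ℝ} (hw : 0 < w) (hw' : Yp a m = w) {k : ℕ}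
    (hk : k + 1 < m) (ht : Yp a (k + 1) = t) : Xp s a (k + 1) < Xp s a m / w * t := by
  have h := key hs ha hk
  rw [hw', ht] at h
  rw [div_mul_eq_mul_div, lt_div_iff₀ hw]
  linarith

/-- A vertex at height `w - t` lies on the right of the chord. -/
theorem above {m z : ℕ} {s a : ℕ → ℝ} (hs : ∀ i j, i < j → j < m → s i < s j)
    (ha : Hz m z a) {w t : ℝ} (hw : 0 < w) (hw' : Yp a m = w) {k : ℕ}
    (hk : k + 1 < m) (ht : w - Yp a (k + 1) = t) :
    Xp s a m / w * t < Xp s a m - Xp s a (k + 1) := by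
  have h := key hs ha hk
  have h1 : Yp a (k + 1) = w - t := by linarith
  rw [hw', h1] at h
  rw [div_mul_eq_mul_div, div_lt_iff₀ hw]
  nlinarith

/-- On the left of the chord `F` is the visible part. -/
theorem F_eq {D : Data} {n : ℝ → ℝ} {e : ℝ} {z : ℕ} (hok : D.Ok) (hr : Hz D.m z D.r)
    (hl : Hz D.m z D.l) (hpq : D.q < D.p) {t ξ : ℝ} (ht : 0 < t)
    (hξ : ξ < Xp D.s D.l D.m / D.w * t) :
    F D n e ξ t = ∑ k ∈ Finset.range (D.m - 1), tp n e D.s k * V D k ξ t := by
  unfold F
  refine Finset.sum_congr rfl fun k hk => ?_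
  have hk' : k + 1 < D.m := by
    have := Finset.mem_range.1 hk
    omega
  have hρ : Xp D.s D.l D.m / D.w * t < Xp D.s D.r D.m / D.w * t := by
    have h1 := hok.hcl
    have h2 : Xp D.s D.l D.m < Xp D.s D.r D.m := by linarith
    have h3 := hok.hw
    have h4 : Xp D.s D.l D.m / D.w < Xp D.s D.r D.m / D.w := by
      rw [div_lt_div_iff_of_pos_right h3]
      exact h2
    nlinarith
  have e1 : (if D.w - Yp D.l (k + 1) = t then
            ind (Xp D.s D.l D.m - Xp D.s D.l (k + 1)) (Xp D.s D.l D.m - Xp D.s D.l (k + 1) + D.p) ξ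
            else 0) = 0 := by
    split_ifs with h
    · exact ind_left (by
        have := above hok.hs hl hok.hw hok.hlw hk' h
        linarith)
    · rfl
  have e2 : (if D.w - Yp D.r (k + 1) = t then
            ind (Xp D.s D.r D.m - Xp D.s D.r (k + 1)) (Xp D.s D.r D.m - Xp D.s D.r (k + 1) + D.q) ξ
            else 0) = 0 := by
    split_ifs with h
    · exact ind_left (by
        have := above hok.hs hr hok.hw hok.hrw hk' h
        linarith)
    · rfl
  rw [e1, e2, add_zero, mul_zero, add_zero]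
  rfl

theorem tp_pos {e : ℝ} {s : ℕ → ℝ} {m z k : ℕ} (hs : ∀ i j, i < j → j < m → s i < s j)
    (he : 0 < e) (hk : z ≤ k) (hkm : k + 1 < m) : 0 < tp (fun x => e * |x - s z|) e s k := by
  have h1 := hs k (k + 1) (Nat.lt_succ_self k) hkm
  have h2 : s z ≤ s k := by
    rcases hk.lt_or_eq with h | h
    · exact (hs _ _ h (by omega)).le
    · rw [h]
  unfold tp
  beta_reduce
  rw [abs_of_nonneg (by linarith), abs_of_nonneg (by linarith)]
  nlinarith

theorem tp_zero {e : ℝ} {s : ℕ → ℝ} {m z k : ℕ} (hs : ∀ i j, i < j → j < m → s i < s j)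
    (hk : k < z) (hz : z < m) : tp (fun x => e * |x - s z|) e s k = 0 := by
  have h1 := hs k (k + 1) (Nat.lt_succ_self k) (by omega)
  have h2 : s (k + 1) ≤ s z := by
    rcases (show k + 1 ≤ z from hk).lt_or_eq with h | h
    · exact (hs _ _ h hz).le
    · rw [h]
  unfold tp
  beta_reduce
  rw [abs_of_nonpos (by linarith), abs_of_nonpos (by linarith)]
  ring

end CHZ

open CSH CHZ in
theorem specCHZ (hTIL : SpecTIL) : SpecCHZ := by
  classical
  intro D D' e z hH k
  have hs' := hH.mate.hs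
  have hm' := hH.mate.hm
  have hr : Hz D.m z D.r := ⟨hH.z0, hH.z1, hH.ok.hr, fun j hj hz => (hH.pos j hj hz).1⟩
  have hl : Hz D.m z D.l := ⟨hH.z0, hH.z1, hH.ok.hl, fun j hj hz => (hH.pos j hj hz).2.1⟩
  have hr' : Hz D.m z D'.r := ⟨hH.z0, hH.z1, fun j hj => hH.ok'.hr j (by rw [hm']; exact hj),
    fun j hj hz => (hH.pos j hj hz).2.2.1⟩
  have hl' : Hz D.m z D'.l := ⟨hH.z0, hH.z1, fun j hj => hH.ok'.hl j (by rw [hm']; exact hj),
    fun j hj hz => (hH.pos j hj hz).2.2.2⟩
  obtain ⟨n, hn⟩ : ∃ n : ℝ → ℝ, n = fun x => e * |x - D.s z| := ⟨_, rfl⟩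
  have hden : ∀ t, 0 < t → t < D.w → Dense (fun ξ => F D n e ξ t) (fun ξ => F D' n e ξ t) := by
    rw [hn]; exact hH.den
  have hrr : Yp D'.r D.m = D.w := by
    have := hH.ok'.hrw
    rw [hm', hH.mate.hw] at this
    exact this
  have hll : Yp D'.l D.m = D.w := by
    have := hH.ok'.hlw
    rw [hm', hH.mate.hw] at this
    exact this
  -- the chords agree
  have hXl : Xp D.s D'.l D.m = Xp D.s D.l D.m := by
    have h1 := hH.ok.hcl
    have h2 := hH.ok'.hcl
    rw [hm', hs', hH.hp, hH.hq] at h2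
    have h3 := Xp_add D.s _ _ _ _ D.m hH.mate.hrl D.m le_rfl
    linarith
  induction k using Nat.strong_induction_on with
  | _ k ih =>
    intro hzk hk
    have htp : 0 < tp n e D.s k := by rw [hn]; exact tp_pos hH.ok.hs hH.e0 hzk hk
    have hYs : Yp D'.r (k + 1) + Yp D'.l (k + 1) = Yp D.r (k + 1) + Yp D.l (k + 1) :=
      Yp_add _ _ _ _ D.m hH.mate.hrl (k + 1) hk.le
    have hXs : Xp D.s D'.r (k + 1) + Xp D.s D'.l (k + 1)
        = Xp D.s D.r (k + 1) + Xp D.s D.l (k + 1) :=
      Xp_add D.s _ _ _ _ D.m hH.mate.hrl (k + 1) hk.le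
    obtain ⟨t, ht⟩ : ∃ t, t = min (min (Yp D.r (k + 1)) (Yp D.l (k + 1)))
        (min (Yp D'.r (k + 1)) (Yp D'.l (k + 1))) := ⟨_, rfl⟩
    have t1 : t ≤ Yp D.r (k + 1) := by rw [ht]; exact (min_le_left _ _).trans (min_le_left _ _)
    have t2 : t ≤ Yp D.l (k + 1) := by rw [ht]; exact (min_le_left _ _).trans (min_le_right _ _)
    have t3 : t ≤ Yp D'.r (k + 1) := by rw [ht]; exact (min_le_right _ _).trans (min_le_left _ _)
    have t4 : t ≤ Yp D'.l (k + 1) := by rw [ht]; exact (min_le_right _ _).trans (min_le_right _ _)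
    have hor : Yp D.r (k + 1) = t ∨ Yp D.l (k + 1) = t ∨ Yp D'.r (k + 1) = t ∨
        Yp D'.l (k + 1) = t := by
      rcases min_choice (min (Yp D.r (k + 1)) (Yp D.l (k + 1)))
        (min (Yp D'.r (k + 1)) (Yp D'.l (k + 1))) with h | h
      · rcases min_choice (Yp D.r (k + 1)) (Yp D.l (k + 1)) with h2 | h2
        · left; rw [ht, h, h2]
        · right; left; rw [ht, h, h2]
      · rcases min_choice (Yp D'.r (k + 1)) (Yp D'.l (k + 1)) with h2 | h2
        · right; right; left; rw [ht, h, h2]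
        · right; right; right; rw [ht, h, h2]
    have hpos : ∀ a : ℕ → ℝ, Hz D.m z a → 0 < Yp a (k + 1) := by
      intro a ha
      exact Yp_pos ha (Nat.succ_pos k) hk.le
    have ht0 : 0 < t := by
      rcases hor with h | h | h | h
      · rw [← h]; exact hpos _ hr
      · rw [← h]; exact hpos _ hl
      · rw [← h]; exact hpos _ hr'
      · rw [← h]; exact hpos _ hl'
    have htw : t < D.w := by
      have := Yp_top hr hk
      rw [hH.ok.hrw] at this
      linarith
    have hw := hH.ok.hw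
    obtain ⟨Λ, hΛ⟩ : ∃ Λ, Λ = Xp D.s D.l D.m / D.w * t := ⟨_, rfl⟩
    -- `ρ t - p < Λ`
    have hρ : Xp D.s D.r D.m / D.w * t - D.p < Λ := by
      have h1 := hH.ok.hcl
      have h2 : Xp D.s D.r D.m = Xp D.s D.l D.m + (D.p - D.q) := by linarith
      rw [h2, hΛ, add_div, add_mul]
      have h3 : (D.p - D.q) / D.w * t < D.p - D.q := by
        rw [div_mul_eq_mul_div, div_lt_iff₀ hw]
        have := hH.pq
        nlinarith
      have := hH.q0
      linarith
    have hρ' : Xp D.s D'.r D.m = Xp D.s D.r D.m := by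
      have h3 := Xp_add D.s _ _ _ _ D.m hH.mate.hrl D.m le_rfl
      linarith
    have hF : ∀ ξ, ξ < Λ → F D n e ξ t
        = ∑ k ∈ Finset.range (D.m - 1), tp n e D.s k * V D k ξ t := fun ξ hξ =>
      CHZ.F_eq hH.ok hr hl hH.pq ht0 (by rw [← hΛ]; exact hξ)
    have hF' : ∀ ξ, ξ < Λ → F D' n e ξ t
        = ∑ k ∈ Finset.range (D.m - 1), tp n e D.s k * V D' k ξ t := by
      intro ξ hξ
      have h := CHZ.F_eq (D := D') (n := n) (e := e) (z := z) hH.ok' (by rw [hm']; exact hr')
        (by rw [hm']; exact hl') (by rw [hH.hp, hH.hq]; exact hH.pq) ht0 (ξ := ξ)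
        (by rw [hm', hs', hH.mate.hw, hXl, ← hΛ]; exact hξ)
      rw [hm', hs'] at h
      exact h
    -- the other terms agree
    have hoth : ∀ ξ, ∀ j ∈ Finset.range (D.m - 1), j ≠ k →
        tp n e D.s j * V D j ξ t = tp n e D.s j * V D' j ξ t := by
      intro ξ j hj hjk
      have hj' : j + 1 < D.m := by
        have := Finset.mem_range.1 hj
        omega
      rcases Nat.lt_or_gt_of_ne hjk with h | h
      · rcases Nat.lt_or_ge j z with h1 | h1
        · rw [hn, tp_zero hH.ok.hs h1 (by have := hH.z1; omega), zero_mul, zero_mul]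
        · obtain ⟨a1, a2, a3, a4⟩ := ih j h h1 hj'
          unfold V
          rw [hs', a1, a2, a3, a4, hH.hp, hH.hq]
      · have hne : ∀ a : ℕ → ℝ, Hz D.m z a → t ≤ Yp a (k + 1) → Yp a (j + 1) ≠ t := by
          intro a ha hta
          have := Yp_ltz ha (show z < k + 1 by omega) (show k + 1 < j + 1 by omega) hj'.le
          exact fun h => by linarith
        unfold V
        rw [if_neg (hne _ hr t1), if_neg (hne _ hl t2), if_neg (hne _ hr' t3),
          if_neg (hne _ hl' t4)]
    have hkm : k ∈ Finset.range (D.m - 1) := Finset.mem_range.2 (by omega)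
    have hsee : ∀ x y, x < y → y ≤ Λ → ∃ ξ ∈ Set.Ioo x y, V D k ξ t = V D' k ξ t := by
      intro x y hxy hyΛ
      obtain ⟨ξ, hξ, hξF⟩ := hden t ht0 htw x y hxy
      refine ⟨ξ, hξ, ?_⟩
      have hξΛ : ξ < Λ := lt_of_lt_of_le hξ.2 hyΛ
      have h1 : F D n e ξ t = F D' n e ξ t := hξF
      rw [hF ξ hξΛ, hF' ξ hξΛ, ← Finset.add_sum_erase _ _ hkm, ← Finset.add_sum_erase _ _ hkm,
        Finset.sum_congr rfl (fun j hj => hoth ξ j (Finset.mem_of_mem_erase hj)
          (Finset.ne_of_mem_erase hj))] at h1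
      have h2 := add_right_cancel h1
      exact mul_left_cancel₀ htp.ne' h2
    have hVV : ∀ x y, x < y → y ≤ Λ → ∃ ξ ∈ Set.Ioo x y,
        (if Yp D.r (k + 1) = t then ind (Xp D.s D.r (k + 1) - D.p) (Xp D.s D.r (k + 1)) ξ else 0)
        + (if Yp D.l (k + 1) = t then ind (Xp D.s D.l (k + 1) - D.q) (Xp D.s D.l (k + 1)) ξ
            else 0) =
        (if Yp D'.r (k + 1) = t then ind (Xp D.s D'.r (k + 1) - D.p) (Xp D.s D'.r (k + 1)) ξ
            else 0)
        + (if Yp D'.l (k + 1) = t then ind (Xp D.s D'.l (k + 1) - D.q) (Xp D.s D'.l (k + 1)) ξ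
            else 0) := by
      intro x y hxy hyΛ
      obtain ⟨ξ, hξ, h⟩ := hsee x y hxy hyΛ
      refine ⟨ξ, hξ, ?_⟩
      unfold V at h
      rw [hs', hH.hp, hH.hq] at h
      exact h
    obtain ⟨b1, b2, b3, b4⟩ := hTIL D.p D.q Λ (Xp D.s D.r (k + 1)) (Xp D.s D.l (k + 1))
      (Xp D.s D'.r (k + 1)) (Xp D.s D'.l (k + 1)) (Yp D.r (k + 1) = t) (Yp D.l (k + 1) = t)
      (Yp D'.r (k + 1) = t) (Yp D'.l (k + 1) = t) hH.q0 hH.pq
      (fun h => by
        have := CHZ.below hH.ok.hs hr hw hH.ok.hrw hk h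
        linarith)
      (fun h => by
        have := CHZ.below hH.ok.hs hl hw hH.ok.hlw hk h
        rw [hΛ]; exact this)
      (fun h => by
        have := CHZ.below hH.ok.hs hr' hw hrr hk h
        rw [hρ'] at this
        linarith)
      (fun h => by
        have := CHZ.below hH.ok.hs hl' hw hll hk h
        rw [hXl] at this
        rw [hΛ]; exact this)
      hor
      (by
        constructor
        · rintro ⟨h1, h2⟩
          constructor <;> linarith
        · rintro ⟨h1, h2⟩
          constructor <;> linarith)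
      hXs.symm hVV
    refine ⟨?_, b3.symm, ?_, b4.symm⟩
    · by_cases hα : Yp D.r (k + 1) = t
      · rw [hα, b1.1 hα]
      · have hβ : Yp D.l (k + 1) = t := by
          rcases hor with h | h | h | h
          · exact absurd h hα
          · exact h
          · exact absurd (b1.2 h) hα
          · exact b2.2 h
        have hβ' := b2.1 hβ
        linarith
    · by_cases hβ : Yp D.l (k + 1) = t
      · rw [hβ, b2.1 hβ]
      · have hα : Yp D.r (k + 1) = t := by
          rcases hor with h | h | h | h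
          · exact h
          · exact absurd h hβ
          · exact b1.2 h
          · exact absurd (b2.2 h) hβ
        have hα' := b1.1 hα
        linarith

end Pool.MP671
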