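import Pool.Agent.Lib.MP_671ac3_gt.Spec2
import Pool.Agent.Lib.MP_671ac3_gt.CV2

/-!
# MP_671ac3_gt : module CS2 (case of a single horizontal edge, all valuations)
-/

namespace Pool.MP671

namespace CS2

open Finset CSS

section

variable {D D' : Data} {n n' : ℝ → ℝ} {e e' : ℝ}

theorem SGsymm (h : SG D D' n n' e e') : SG D' D n' n e' e where
  ok := h.ok'
  ok' := h.ok
  mate :=
    { hm := h.mate.hm.symm
      hs := h.mate.hs.symm
      hw := h.mate.hw.symm
      hpq := h.mate.hpq.symm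
      hrl := fun j hj => (h.mate.hrl j (h.mate.hm ▸ hj)).symm
      hpos := fun j hj => by
        have h1 := h.mate.hrl j (h.mate.hm ▸ hj)
        have h2 := h.mate.hpos j (h.mate.hm ▸ hj)
        linarith }
  q0 := h.q0'
  q0' := h.q0
  p0 := by
    have h1 := h.mate.hpq
    have h2 := h.q0
    have h3 := h.q0'
    have h4 := h.p0
    linarith
  e0 := h.e0'
  e0' := h.e0
  nn := h.nn'
  nn' := h.nn
  cx := h.cx'
  cx' := h.cx
  lp := h.lp'
  lp' := h.lp
  pr := fun j hj h5 h6 => by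
    rw [h.mate.hs] at h5 h6
    rcases h.pr j (h.mate.hm ▸ hj) h6 h5 with ⟨h1, h2⟩ | ⟨h1, h2⟩
    · exact Or.inl ⟨h1.symm, h2.symm⟩
    · exact Or.inr ⟨h2.symm, h1.symm⟩
  den := fun t h1 h2 a b hab => by
    obtain ⟨ξ, h3, h4⟩ := h.den t h1 (h.mate.hw ▸ h2) a b hab
    exact ⟨ξ, h3, h4.symm⟩

theorem lne (h : SG D D' n n' e e') {j : ℕ} (hj : j < D.m) : D'.l j = D.l j ↔ D'.r j = D.r j := by
  have := h.mate.hrl j hj
  constructor
  · intro h1; linarith
  · intro h1; linarith

theorem sum0 (h : SG D D' n n' e e') : ∑ j ∈ range D.m, (D'.r j - D.r j) = 0 := by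
  have h1 := h.ok.hrw
  have h2 := h.ok'.hrw
  rw [h.mate.hm, h.mate.hw] at h2
  unfold Yp at h1 h2
  rw [Finset.sum_sub_distrib, h1, h2, sub_self]

theorem Xeq (h : SG D D' n n' e e') : Xp D.s D'.r D.m = Xp D.s D.r D.m := by
  have h1 := h.ok.hcl
  have h2 := h.ok'.hcl
  rw [h.mate.hm, h.mate.hs] at h2
  have h3 := h.mate.hpq
  have h4 : Xp D.s D'.r D.m + Xp D.s D'.l D.m = Xp D.s D.r D.m + Xp D.s D.l D.m := by
    unfold Xp
    rw [← Finset.sum_add_distrib, ← Finset.sum_add_distrib]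
    apply Finset.sum_congr rfl
    intro j hj
    have := h.mate.hrl j (Finset.mem_range.1 hj)
    linear_combination D.s j * this
  have h5 := h.q0
  have h6 := h.q0'
  linarith

theorem sum1 (h : SG D D' n n' e e') (c : ℝ) :
    ∑ j ∈ range D.m, (D'.r j - D.r j) * (D.s j - c) = 0 := by
  have h1 := sum0 h
  have h2 := Xeq h
  unfold Xp at h2
  have h3 : ∑ j ∈ range D.m, (D'.r j - D.r j) * (D.s j - c)
      = (∑ j ∈ range D.m, D'.r j * D.s j) - (∑ j ∈ range D.m, D.r j * D.s j)
        - (∑ j ∈ range D.m, (D'.r j - D.r j)) * c := by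
    rw [Finset.sum_mul, ← Finset.sum_sub_distrib, ← Finset.sum_sub_distrib]
    apply Finset.sum_congr rfl
    intro j _
    ring
  rw [h3, h1, h2]; ring

theorem getR (hCSE : SpecCE2) (h : SG D D' n n' e e') {M : ℕ} (hM : M < D.m)
    (hMt : ∀ j, M < j → j < D.m → D'.r j = D.r j) (hMd : D'.r M ≠ D.r M) {a b : ℕ} (hab : a < b)
    (hb : b ≤ M) (ha0 : 0 < D.r a) (hb0 : 0 < D.r b) :
    ∃ i, b ≤ i ∧ i ≤ M ∧ 0 < D.r i ∧ (∀ j, i < j → j ≤ M → D.r j = 0) ∧ SM n e (D.s i) := by
  obtain ⟨i, h1, h2, h3, h4⟩ := exists_greatest (P := fun j => 0 < D.r j) hb hb0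
  have h5 : ∀ j, i < j → j ≤ M → D.r j = 0 := fun j h6 h7 =>
    le_antisymm (not_lt.1 (h4 j h6 h7)) (h.ok.hr j (by omega))
  have h6 := (hCSE D D' n n' e e' h).1 M i a hM hMt hMd h2 h3 h5 (by omega) ha0
  refine ⟨i, h1, h2, h3, h5, ?_⟩
  unfold tp at h6
  have h7 : i - 1 + 1 = i := by omega
  rw [h7] at h6
  exact SM_of h.cx h.lp (h.ok.hs (i - 1) i (by omega) (by omega)) h6

theorem getL (hCSE : SpecCE2) (h : SG D D' n n' e e') {M : ℕ} (hM : M < D.m)
    (hMt : ∀ j, j < M → D'.r j = D.r j) (hMd : D'.r M ≠ D.r M) {a b : ℕ} (hab : a < b)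
    (ha : M ≤ a) (hb : b < D.m) (ha0 : 0 < D.l a) (hb0 : 0 < D.l b) :
    ∃ i, M ≤ i ∧ i ≤ a ∧ (∀ j, M ≤ j → j < i → D.l j = 0) ∧ SP n e (D.s i) := by
  obtain ⟨i, h1, h2, h3, h4⟩ := exists_least (P := fun j => 0 < D.l j) ha ha0
  have h5 : ∀ j, M ≤ j → j < i → D.l j = 0 := fun j h6 h7 =>
    le_antisymm (not_lt.1 (h4 j h6 h7)) (h.ok.hl j (by omega))
  have h6 := (hCSE D D' n n' e e' h).2 M i b hM (fun j hj => (lne h (by omega)).2 (hMt j hj))
    (fun h7 => hMd ((lne h hM).1 h7)) h1 (by omega) h3 h5 (by omega) hb hb0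
  refine ⟨i, h1, h2, h5, ?_⟩
  unfold tm at h6
  exact SP_of h.cx h.lp (h.ok.hs i (i + 1) (by omega) (by omega)) h6

/-- The main case: the first difference is negative. -/
theorem main (hCSV : SpecCV2) (hCSE : SpecCE2) (hMIR : SpecMIR) (hMR2 : SpecMR2)
    (h : SG D D' n n' e e') {M M₀ : ℕ} (hM : M < D.m)
    (hMt : ∀ j, M < j → j < D.m → D'.r j = D.r j) (hMd : D'.r M ≠ D.r M) (hM₀ : M₀ < D.m)
    (hM₀t : ∀ j, j < M₀ → D'.r j = D.r j) (hM₀d : D'.r M₀ < D.r M₀) : False := by
  have hm' := h.mate.hm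
  have hs' := h.mate.hs
  have hw' := h.mate.hw
  have hrn := h.ok.hr
  have hln := h.ok.hl
  have hrn' : ∀ j, j < D.m → 0 ≤ D'.r j := fun j hj => h.ok'.hr j (by rw [hm']; exact hj)
  have hln' : ∀ j, j < D.m → 0 ≤ D'.l j := fun j hj => h.ok'.hl j (by rw [hm']; exact hj)
  have hrl := h.mate.hrl
  have hS0 := sum0 h
  have hM₀n : D'.r M₀ ≠ D.r M₀ := hM₀d.ne
  -- the element `u`
  have hu : ∃ u, u < D.m ∧ D.r u < D'.r u := by
    by_contra hc
    push Not at hc
    have hneg : ∑ j ∈ range D.m, (D'.r j - D.r j) < 0 := by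
      apply Finset.sum_neg'
      · intro j hj
        have := hc j (Finset.mem_range.1 hj)
        linarith
      · exact ⟨M₀, Finset.mem_range.2 hM₀, by linarith⟩
    linarith
  obtain ⟨u₀, hu₀m, hu₀d⟩ := hu
  obtain ⟨u, _, _, ⟨hum, hud⟩, huf⟩ :=
    exists_least (P := fun j => j < D.m ∧ D.r j < D'.r j) (Nat.zero_le u₀) ⟨hu₀m, hu₀d⟩
  have hM₀u : M₀ < u := by
    rcases lt_trichotomy M₀ u with h1 | h1 | h1
    · exact h1
    · rw [h1] at hM₀d
      linarith
    · have := hM₀t u h1
      linarith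
  have huM : u ≤ M := by
    by_contra hc
    have := hMt u (by omega) hum
    linarith
  -- the element `j₂`
  have hS1 := sum1 h (D.s u)
  have hj2 : ∃ j, u < j ∧ j < D.m ∧ D'.r j < D.r j := by
    by_contra hc
    push Not at hc
    have hpos : 0 < ∑ j ∈ range D.m, (D'.r j - D.r j) * (D.s j - D.s u) := by
      apply Finset.sum_pos'
      · intro j hj
        have hjm := Finset.mem_range.1 hj
        rcases lt_trichotomy j u with h1 | h1 | h1
        · have h2 := h.ok.hs j u h1 hum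
          have h3 : D'.r j ≤ D.r j := by
            by_contra h4
            exact huf j (Nat.zero_le j) h1 ⟨hjm, not_le.1 h4⟩
          nlinarith
        · rw [h1]; simp
        · have h2 := h.ok.hs u j h1 hjm
          have h3 := hc j h1 hjm
          nlinarith
      · refine ⟨M₀, Finset.mem_range.2 hM₀, ?_⟩
        have h2 := h.ok.hs M₀ u hM₀u hum
        nlinarith
    linarith
  obtain ⟨j₂, hj₂u, hj₂m, hj₂d⟩ := hj2
  have hj₂M : j₂ ≤ M := by
    by_contra hc
    have := hMt j₂ (by omega) hj₂m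
    linarith
  have hrM₀ : 0 < D.r M₀ := by
    have := hrn' M₀ hM₀
    linarith
  have hlM₀' : 0 < D'.l M₀ := by
    have h1 := hrl M₀ hM₀
    have h2 := hln M₀ hM₀
    linarith
  have hrj₂ : 0 < D.r j₂ := by
    have := hrn' j₂ hj₂m
    linarith
  have hlj₂' : 0 < D'.l j₂ := by
    have h1 := hrl j₂ hj₂m
    have h2 := hln j₂ hj₂m
    linarith
  have hul : 0 < D.l u := by
    have h1 := hrl u hum
    have h2 := hln' u hum
    linarith
  have hur' : 0 < D'.r u := by
    have := hrn u hum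
    linarith
  -- slopes
  obtain ⟨i, hji, hiM, hri, hiz, hsm⟩ := getR hCSE h hM hMt hMd (show M₀ < j₂ by omega) hj₂M
    hrM₀ hrj₂
  have hy := SGsymm h
  have hsp : SP n' e' (D.s M₀) := by
    obtain ⟨i, h1, h2, h3, h4⟩ := getL hCSE hy (M := M₀) (by rw [hm']; exact hM₀)
      (fun j hj => (hM₀t j hj).symm) (Ne.symm hM₀n) (show M₀ < j₂ by omega) le_rfl
      (by rw [hm']; exact hj₂m) hlM₀' hlj₂'
    have : i = M₀ := by omega
    rw [this, hs'] at h4
    exact h4
  have him : i < D.m := by omega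
  have hl0 : ∀ j, M₀ ≤ j → j < D.m → j ≠ u → D.l j = 0 := by
    intro j hj hjm hju
    by_contra h8
    have h9 : 0 < D.l j := lt_of_le_of_ne (hln j hjm) (Ne.symm h8)
    rcases lt_or_gt_of_ne hju with h10 | h10
    · obtain ⟨i', h1, h2, h3, h4⟩ := getL hCSE h hM₀ hM₀t hM₀n h10 hj hum h9 hul
      exact SMSP h.e0 (h.ok.hs i' i (by omega) him) hsm h4
    · obtain ⟨i', h1, h2, h3, h4⟩ := getL hCSE h hM₀ hM₀t hM₀n h10 hM₀u.le hjm hul h9
      exact SMSP h.e0 (h.ok.hs i' i (by omega) him) hsm h4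
  have hr0 : ∀ j, j ≤ M → j ≠ u → D'.r j = 0 := by
    intro j hj hju
    by_contra h8
    have h9 : 0 < D'.r j := lt_of_le_of_ne (hrn' j (by omega)) (Ne.symm h8)
    have hMy : M < D'.m := by rw [hm']; exact hM
    have hMty : ∀ j, M < j → j < D'.m → D.r j = D'.r j := fun j h1 h2 =>
      (hMt j h1 (by rw [← hm']; exact h2)).symm
    rcases lt_or_gt_of_ne hju with h10 | h10
    · obtain ⟨i, h1, h2, _, h3, h4⟩ := getR hCSE hy hMy hMty (Ne.symm hMd) h10 huM h9 hur'
      rw [hs'] at h4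
      exact SMSP h.e0' (h.ok.hs M₀ i (by omega) (by omega)) h4 hsp
    · obtain ⟨i, h1, h2, _, h3, h4⟩ := getR hCSE hy hMy hMty (Ne.symm hMd) h10 hj hur' h9
      rw [hs'] at h4
      exact SMSP h.e0' (h.ok.hs M₀ i (by omega) (by omega)) h4 hsp
  have hsui := h.ok.hs u i (by omega) him
  have hsMu := h.ok.hs M₀ u hM₀u hum
  -- the lengths of `u`
  have hru' : D'.r u = D.l u := by
    have h1 : 0 < n (D.s u) := by
      have h2 := hsm (D.s u) hsui.le
      have h3 := h.nn (D.s i)
      have h4 : 0 < e * (D.s i - D.s u) := mul_pos h.e0 (by linarith)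
      linarith
    have h1' : 0 < n' (D.s u) := by
      have h2 := hsp (D.s u) hsMu.le
      have h3 := h.nn' (D.s M₀)
      have h4 : 0 < e' * (D.s u - D.s M₀) := mul_pos h.e0' (by linarith)
      linarith
    rcases h.pr u hum h1 h1' with ⟨h2, _⟩ | ⟨h2, _⟩
    · linarith
    · exact h2
  -- the height `T`
  have hYr' : Yp D'.r (M + 1) = D.l u := by
    unfold Yp
    rw [Finset.sum_eq_single u, hru']
    · intro j hj hju
      exact hr0 j (by have := Finset.mem_range.1 hj; omega) hju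
    · intro h2
      exact absurd (Finset.mem_range.2 (by omega)) h2
  have hrw := h.ok.hrw
  have hlw := h.ok.hlw
  have hrw' : Yp D'.r D.m = D.w := by
    have := h.ok'.hrw
    rw [hm', hw'] at this
    exact this
  have hlw' : Yp D'.l D.m = D.w := by
    have := h.ok'.hlw
    rw [hm', hw'] at this
    exact this
  have split : ∀ (a : ℕ → ℝ) (k : ℕ), k ≤ D.m → Yp a D.m = Yp a k + ∑ j ∈ Ico k D.m, a j := by
    intro a k hk
    unfold Yp
    rw [Finset.sum_range_add_sum_Ico _ hk]
  have hYr : Yp D.r (M + 1) = D.l u := by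
    have h1 := split D.r (M + 1) (by omega)
    have h2 := split D'.r (M + 1) (by omega)
    have h3 : ∑ j ∈ Ico (M + 1) D.m, D.r j = ∑ j ∈ Ico (M + 1) D.m, D'.r j := by
      apply Finset.sum_congr rfl
      intro j hj
      have := Finset.mem_Ico.1 hj
      exact (hMt j (by omega) this.2).symm
    linarith
  have hYl : Yp D.l M₀ = D.w - D.l u := by
    have h1 := split D.l M₀ hM₀.le
    have h2 : ∑ j ∈ Ico M₀ D.m, D.l j = D.l u := by
      apply Finset.sum_eq_single u
      · intro j hj hju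
        have := Finset.mem_Ico.1 hj
        exact hl0 j this.1 this.2 hju
      · intro h2
        exact absurd (Finset.mem_Ico.2 ⟨hM₀u.le, hum⟩) h2
    linarith
  have hTw : D.l u < D.w := by
    have h1 : D.l u ≤ D.w := by
      have := Yp_mono hln (Nat.zero_le M₀) hM₀.le
      rw [hYl] at this
      have h0 : Yp D.l 0 = 0 := by simp [Yp]
      linarith
    rcases lt_or_eq_of_le h1 with h2 | h2
    · exact h2
    · exfalso
      have h3 : ∀ j, j < D.m → j ≠ u → D.l j = 0 := by
        intro j hj hju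
        rcases le_or_gt M₀ j with h4 | h4
        · exact hl0 j h4 hj hju
        · have h5 : Yp D.l (j + 1) ≤ Yp D.l M₀ := Yp_mono hln (by omega) (by omega)
          have h6 : Yp D.l 0 ≤ Yp D.l j := Yp_mono hln (by omega) (by omega)
          have h0 : Yp D.l 0 = 0 := by simp [Yp]
          have h7 := Yp_succ D.l j
          have h8 := hln j hj
          linarith
      have h4 : ∀ j, j < D.m → j ≠ u → D'.r j = 0 := by
        intro j hj hju
        rcases le_or_gt j M with h4 | h4
        · exact hr0 j h4 hju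
        · have h5 : Yp D'.r (j + 1) ≤ Yp D'.r D.m := Yp_mono hrn' (by omega) (by omega)
          have h6 : Yp D'.r (M + 1) ≤ Yp D'.r j := Yp_mono hrn' (by omega) (by omega)
          have h7 := Yp_succ D'.r j
          have h8 := hrn' j hj
          linarith
      have h5 : Xp D.s D.l D.m = D.l u * D.s u := by
        unfold Xp
        apply Finset.sum_eq_single u
        · intro j hj hju
          rw [h3 j (Finset.mem_range.1 hj) hju, zero_mul]
        · intro h2
          exact absurd (Finset.mem_range.2 hum) h2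
      have h6 : Xp D.s D'.r D.m = D.l u * D.s u := by
        unfold Xp
        rw [Finset.sum_eq_single u, hru']
        · intro j hj hju
          rw [h4 j (Finset.mem_range.1 hj) hju, zero_mul]
        · intro h2
          exact absurd (Finset.mem_range.2 hum) h2
      have h7 := Xeq h
      have h8 := h.ok.hcl
      have h9 := h.q0
      have h10 := h.p0
      linarith
  -- the index `f`
  have hf : ∃ f, M < f ∧ f < D.m ∧ 0 < D.r f ∧ ∀ j, M < j → j < f → D.r j = 0 := by
    have h1 : ∃ k, M + 1 ≤ k ∧ k < D.m ∧ 0 < D.r k := by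
      by_contra hc
      push Not at hc
      have h2 := split D.r (M + 1) (by omega)
      have h3 : ∑ j ∈ Ico (M + 1) D.m, D.r j = 0 := by
        apply Finset.sum_eq_zero
        intro j hj
        have := Finset.mem_Ico.1 hj
        exact le_antisymm (hc j this.1 this.2) (hrn j this.2)
      linarith
    obtain ⟨k, h2, h3, h4⟩ := h1
    obtain ⟨f, g1, g2, g3, g4⟩ := exists_least (P := fun j => 0 < D.r j) h2 h4
    exact ⟨f, by omega, by omega, g3, fun j h5 h6 =>
      le_antisymm (not_lt.1 (g4 j (by omega) h6)) (hrn j (by omega))⟩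
  obtain ⟨f, hfM, hfm, hrf, hfz⟩ := hf
  -- the index `g`
  have hg : ∃ g, g < M₀ ∧ 0 < D.l g ∧ ∀ j, g < j → j < M₀ → D.l j = 0 := by
    have h1 : ∃ k, k < M₀ ∧ 0 < D.l k := by
      by_contra hc
      push Not at hc
      have h3 : Yp D.l M₀ = 0 := by
        unfold Yp
        apply Finset.sum_eq_zero
        intro j hj
        have := Finset.mem_range.1 hj
        exact le_antisymm (hc j this) (hln j (by omega))
      linarith
    obtain ⟨k, h2, h4⟩ := h1
    obtain ⟨g, g1, g2, g3, g4⟩ := exists_greatest (P := fun j => 0 < D.l j)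
      (show k ≤ M₀ - 1 by omega) h4
    exact ⟨g, by omega, g3, fun j h5 h6 =>
      le_antisymm (not_lt.1 (g4 j (by omega) (by omega))) (hln j (by omega))⟩
  obtain ⟨g, hgM, hlg, hgz⟩ := hg
  -- the values
  have hYri : Yp D.r (i + 1) = D.l u := by
    rw [← hYr]
    have h1 : ∀ k, i + 1 ≤ k → k ≤ M + 1 → Yp D.r (i + 1) = Yp D.r k := by
      intro k hk
      induction k, hk using Nat.le_induction with
      | base => intro _; rfl
      | succ k hk ih =>
        intro h2
        rw [Yp_succ D.r k, hiz k (by omega) (by omega), add_zero]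
        exact ih (by omega)
    exact h1 (M + 1) (by omega) le_rfl
  have hV1 : VR D n e (D.l u) = (n (D.s f) + e * D.s f) - (n (D.s i) + e * D.s i) := by
    unfold VR
    exact tele (x := fun k => n (D.s k) + e * D.s k) (show i < f by omega) hfm hrn hri hrf
      (fun j h2 h3 => by
        rcases le_or_gt j M with h4 | h4
        · exact hiz j h2 h4
        · exact hfz j h4 h3)
      hYri (fun k => by unfold tp; ring) (fun k => Iff.rfl)
  have hV2 : VR D' n' e' (D.l u) = (n' (D.s f) + e' * D.s f) - (n' (D.s u) + e' * D.s u) := by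
    unfold VR
    rw [hm', hs']
    have h1 : Yp D'.r (u + 1) = D.l u := by
      have h2 := Yp_mono hrn' (show u + 1 ≤ M + 1 by omega) (by omega)
      have h3 := Yp_mono hrn' (show 0 ≤ u by omega) (by omega)
      have h4 := Yp_succ D'.r u
      have h0 : Yp D'.r 0 = 0 := by simp [Yp]
      linarith
    exact tele (x := fun k => n' (D.s k) + e' * D.s k) (show u < f by omega) hfm hrn'
      hur' (by rw [hMt f hfM hfm]; exact hrf)
      (fun j h2 h3 => by
        rcases le_or_gt j M with h4 | h4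
        · exact hr0 j h4 (by omega)
        · rw [hMt j h4 (by omega)]; exact hfz j h4 h3)
      h1 (fun k => by unfold tp; ring) (fun k => Iff.rfl)
  have hYlg : Yp D.l (g + 1) = D.w - D.l u := by
    rw [← hYl]
    unfold Yp
    have h1 : ∀ k, g + 1 ≤ k → k ≤ M₀ →
        ∑ j ∈ range (g + 1), D.l j = ∑ j ∈ range k, D.l j := by
      intro k hk
      induction k, hk using Nat.le_induction with
      | base => intro _; rfl
      | succ k hk ih =>
        intro h2
        have h3 := Finset.sum_range_succ D.l k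
        rw [h3, hgz k (by omega) (by omega), add_zero]
        exact ih (by omega)
    exact h1 M₀ (by omega) le_rfl
  have hV3 : VL D n e (D.l u) = (e * D.s u - n (D.s u)) - (e * D.s g - n (D.s g)) := by
    unfold VL
    exact tele (x := fun k => e * D.s k - n (D.s k)) (show g < u by omega) hum hln hlg hul
      (fun j h2 h3 => by
        rcases le_or_gt M₀ j with h4 | h4
        · exact hl0 j h4 (by omega) (by omega)
        · exact hgz j h2 h4)
      hYlg (fun k => by unfold tm; ring)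
      (fun k => ⟨fun h5 => by linarith, fun h5 => by linarith⟩)
  have hV4 : VL D' n' e' (D.l u) = (e' * D.s M₀ - n' (D.s M₀)) - (e' * D.s g - n' (D.s g)) := by
    unfold VL
    rw [hm', hs', hw']
    have hll : ∀ j, j < M₀ → D'.l j = D.l j := fun j hj => (lne h (by omega)).2 (hM₀t j hj)
    have h1 : Yp D'.l (g + 1) = D.w - D.l u := by
      rw [← hYlg]
      unfold Yp
      apply Finset.sum_congr rfl
      intro j hj
      have := Finset.mem_range.1 hj
      exact hll j (by omega)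
    exact tele (x := fun k => e' * D.s k - n' (D.s k)) (show g < M₀ by omega) hM₀ hln'
      (by rw [hll g hgM]; exact hlg) hlM₀'
      (fun j h2 h3 => by rw [hll j h3]; exact hgz j h2 h3)
      h1 (fun k => by unfold tm; ring)
      (fun k => ⟨fun h5 => by linarith, fun h5 => by linarith⟩)
  have hE1 : VR D n e (D.l u) = VR D' n' e' (D.l u) :=
    (hCSV D D' n n' e e' h (D.l u) hul hTw).1
  have hE2 : VL D n e (D.l u) = VL D' n' e' (D.l u) := by
    have h1 := (hMIR.1 D h.ok).2.2.1 n e (D.l u)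
    have h2 := (hMIR.1 D' h.ok').2.2.1 n' e' (D.l u)
    rw [← h1, ← h2]
    exact (hCSV _ _ _ _ _ _ (hMR2.1 D D' n n' e e' h) (D.l u) hul hTw).1
  -- conclusion
  have hsif := h.ok.hs i f (by omega) hfm
  have hsgM := h.ok.hs g M₀ hgM hM₀
  have q1 : n (D.s f) - n (D.s i) ≤ e * (D.s f - D.s i) := by
    have := h.lp (D.s f) (D.s i)
    rw [abs_of_nonneg (show 0 ≤ D.s f - D.s i by linarith)] at this
    exact (abs_le.1 this).2
  have q2 := hsp (D.s f) (by linarith)
  have q3 := hsp (D.s u) (by linarith)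
  have q4 := hsm (D.s g) (by linarith)
  have q5 := hsm (D.s u) (by linarith)
  have q6 : n' (D.s g) - n' (D.s M₀) ≤ e' * (D.s M₀ - D.s g) := by
    have := h.lp' (D.s g) (D.s M₀)
    rw [abs_of_nonpos (show D.s g - D.s M₀ ≤ 0 by linarith)] at this
    have := (abs_le.1 this).2
    linarith
  rw [hV1, hV2] at hE1
  rw [hV3, hV4] at hE2
  exact final_num h.e0 h.e0' hsgM hsMu hsui hsif q1 q2 q3 q4 q5 q6 hE1 hE2

end

end CS2

/-- Module CS2. -/
theorem specCS2 (hCV2 : SpecCV2) (hCE2 : SpecCE2) (hMIR : SpecMIR) (hMR2 : SpecMR2) :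
    SpecCS2 := by
  intro D D' n n' e e' h
  suffices hr : ∀ j, j < D.m → D'.r j = D.r j by
    intro j hj
    exact ⟨hr j hj, (CS2.lne h hj).2 (hr j hj)⟩
  by_contra hc
  push Not at hc
  obtain ⟨j, hj, hd⟩ := hc
  obtain ⟨M, hM1, hM2, ⟨hM, hMd⟩, hM4⟩ :=
    CSS.exists_greatest (P := fun j => j < D.m ∧ D'.r j ≠ D.r j) (show j ≤ D.m by omega) ⟨hj, hd⟩
  obtain ⟨M₀, _, _, ⟨hM₀, hM₀d⟩, hM₀4⟩ :=
    CSS.exists_least (P := fun j => j < D.m ∧ D'.r j ≠ D.r j) (Nat.zero_le j) ⟨hj, hd⟩
  have hMt : ∀ j, M < j → j < D.m → D'.r j = D.r j := by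
    intro j h1 h2
    by_contra h3
    exact hM4 j h1 h2.le ⟨h2, h3⟩
  have hM₀t : ∀ j, j < M₀ → D'.r j = D.r j := by
    intro j h1
    by_contra h3
    exact hM₀4 j (Nat.zero_le j) h1 ⟨by omega, h3⟩
  rcases lt_or_gt_of_ne hM₀d with h1 | h1
  · exact CS2.main hCV2 hCE2 hMIR hMR2 h hM hMt hMd hM₀ hM₀t h1
  · have hm' := h.mate.hm
    exact CS2.main hCV2 hCE2 hMIR hMR2 (CS2.SGsymm h) (M := M) (M₀ := M₀) (by rw [hm']; exact hM)
      (fun j h1 h2 => (hMt j h1 (by rw [← hm']; exact h2)).symm) (Ne.symm hMd)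
      (by rw [hm']; exact hM₀) (fun j h1 => (hM₀t j h1).symm) h1

end Pool.MP671
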