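import Mathlib

/-!
# MP_671ac3_gt : covariogram of a polygon with unknown valuations -- definitions
-/

namespace Pool.MP671

open MeasureTheory

/-- The plane. -/
abbrev Pl : Type := ℝ × ℝ

/-- Compact convex subsets of the plane (the empty set included). -/
def CC (A : Set Pl) : Prop := Convex ℝ A ∧ IsCompact A

/-- Translate of `A` by `x`. -/
def tr (x : Pl) (A : Set Pl) : Set Pl := (fun z => z + x) '' A

/-- Reflection of `A` in the origin. -/
def refl (A : Set Pl) : Set Pl := (fun z => -z) '' A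

/-- The class `Φ²`: translation invariant, even, monotone valuations on the compact convex
subsets of the plane that vanish on the empty set and on singletons. -/
structure IsPhi (φ : Set Pl → ℝ) : Prop where
  empty : φ ∅ = 0
  val : ∀ A C, CC A → CC C → CC (A ∪ C) → φ (A ∪ C) + φ (A ∩ C) = φ A + φ C
  trans : ∀ A t, CC A → φ (tr t A) = φ A
  even : ∀ A, CC A → φ (refl A) = φ A
  mono : ∀ A C, CC A → CC C → A ⊆ C → φ A ≤ φ C
  sing : ∀ z, φ {z} = 0

/-- The `φ`-covariogram of `K`. -/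
def cov (φ : Set Pl → ℝ) (K : Set Pl) (x : Pl) : ℝ := φ (K ∩ tr x K)

/-! ### auxiliary notions -/

/-- half the value of `φ` on the segment `[0,v]` -/
noncomputable def nrm (φ : Set Pl → ℝ) (v : Pl) : ℝ := φ (segment ℝ 0 v) / 2

/-- `n(σ) = N((σ,1))` -/
noncomputable def nn (φ : Set Pl → ℝ) (σ : ℝ) : ℝ := nrm φ (σ, 1)

/-- `N(e)`, `e = (1,0)` -/
noncomputable def ee (φ : Set Pl → ℝ) : ℝ := nrm φ (1, 0)

/-- the set between the graphs `x = l(y)` and `x = r(y)`, `a ≤ y ≤ b` -/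
def prof (a b : ℝ) (l r : ℝ → ℝ) : Set Pl :=
  {z | a ≤ z.2 ∧ z.2 ≤ b ∧ l z.2 ≤ z.1 ∧ z.1 ≤ r z.2}

/-- partial sums of the heights -/
noncomputable def Yp (a : ℕ → ℝ) (k : ℕ) : ℝ := ∑ j ∈ Finset.range k, a j

/-- partial sums of the horizontal increments -/
noncomputable def Xp (s a : ℕ → ℝ) (k : ℕ) : ℝ := ∑ j ∈ Finset.range k, a j * s j

/-- the chain function: piece `j` has height `a j` and slope `κ j` -/
noncomputable def ch (m : ℕ) (κ a : ℕ → ℝ) (t : ℝ) : ℝ :=
  ∑ j ∈ Finset.range m, κ j * max 0 (min (t - Yp a j) (a j))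

/-- Data of a convex polygon: `m` slopes `s 0 < s 1 < ...`  (`dx/dy`, non-horizontal directions),
heights `r j` of the right edges, `l j` of the left edges, lengths `p` (top) and `q` (bottom) of
the horizontal edges, total height `w`. -/
structure Data where
  m : ℕ
  s : ℕ → ℝ
  r : ℕ → ℝ
  l : ℕ → ℝ
  p : ℝ
  q : ℝ
  w : ℝ

/-- consistency of the data -/
structure Data.Ok (D : Data) : Prop where
  hs : ∀ i j, i < j → j < D.m → D.s i < D.s j
  hr : ∀ j, j < D.m → 0 ≤ D.r j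
  hl : ∀ j, j < D.m → 0 ≤ D.l j
  hp : 0 ≤ D.p
  hq : 0 ≤ D.q
  hw : 0 < D.w
  hrw : Yp D.r D.m = D.w
  hlw : Yp D.l D.m = D.w
  hcl : D.q + Xp D.s D.r D.m = D.p + Xp D.s D.l D.m

/-- left boundary function -/
noncomputable def Data.L (D : Data) (y : ℝ) : ℝ := ch D.m D.s D.l y

/-- right boundary function -/
noncomputable def Data.R (D : Data) (y : ℝ) : ℝ :=
  D.q + Xp D.s D.r D.m - ch D.m D.s D.r (D.w - y)

/-- the polygon with the given data; the bottom left vertex is the origin -/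
def body (D : Data) : Set Pl := prof 0 D.w D.L D.R

/-- the reflected data -/
def Data.flip (D : Data) : Data :=
  { m := D.m, s := D.s, r := D.l, l := D.r, p := D.q, q := D.p, w := D.w }

/-- weight `τ⁺` of the break between the pieces `k` and `k+1` -/
noncomputable def tp (n : ℝ → ℝ) (e : ℝ) (s : ℕ → ℝ) (k : ℕ) : ℝ :=
  n (s (k + 1)) + e * (s (k + 1) - s k) - n (s k)

/-- weight `τ⁻` of the break between the pieces `k` and `k+1` -/
noncomputable def tm (n : ℝ → ℝ) (e : ℝ) (s : ℕ → ℝ) (k : ℕ) : ℝ :=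
  n (s k) + e * (s (k + 1) - s k) - n (s (k + 1))

open Classical in
/-- indicator of the open interval -/
noncomputable def ind (a b ξ : ℝ) : ℝ := if a < ξ ∧ ξ < b then 1 else 0

open Classical in
/-- The kink function: `F D n e ξ t` is minus the kink (right derivative minus left derivative)
of `t ↦ cov φ (body D) (ξ, t)`, for generic `ξ`. -/
noncomputable def F (D : Data) (n : ℝ → ℝ) (e ξ t : ℝ) : ℝ :=
  ∑ k ∈ Finset.range (D.m - 1),
    (tp n e D.s k *
        ((if Yp D.r (k + 1) = t then ind (Xp D.s D.r (k + 1) - D.p) (Xp D.s D.r (k + 1)) ξ else 0)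
        + (if Yp D.l (k + 1) = t then ind (Xp D.s D.l (k + 1) - D.q) (Xp D.s D.l (k + 1)) ξ
            else 0))
      + tm n e D.s k *
        ((if D.w - Yp D.l (k + 1) = t then
            ind (Xp D.s D.l D.m - Xp D.s D.l (k + 1)) (Xp D.s D.l D.m - Xp D.s D.l (k + 1) + D.p) ξ
            else 0)
        + (if D.w - Yp D.r (k + 1) = t then
            ind (Xp D.s D.r D.m - Xp D.s D.r (k + 1)) (Xp D.s D.r D.m - Xp D.s D.r (k + 1) + D.q) ξ
            else 0)))

/-- `cross v z` -/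
def crs (v z : Pl) : ℝ := v.1 * z.2 - v.2 * z.1

/-- length, in units of `v`, of the face of `K` on the left side of the direction `v`
(where `crs v` is maximal) -/
noncomputable def fl (K : Set Pl) (v : Pl) : ℝ :=
  sSup {t : ℝ | 0 ≤ t ∧ ∃ z ∈ K, z + t • v ∈ K ∧ ∀ y ∈ K, crs v y ≤ crs v z}

/-- complex multiplication by `v` -/
def mul (v z : Pl) : Pl := (v.1 * z.1 - v.2 * z.2, v.2 * z.1 + v.1 * z.2)

/-- `K` seen in the frame where `v` is the horizontal unit vector -/
def fr (v : Pl) (K : Set Pl) : Set Pl := mul v ⁻¹' K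

/-- `φ` seen in the frame where `v` is the horizontal unit vector -/
def frφ (v : Pl) (φ : Set Pl → ℝ) : Set Pl → ℝ := fun A => φ (mul v '' A)

/-- an antiderivative of `χ` -/
noncomputable def X1 (χ : ℝ → ℝ) (z : ℝ) : ℝ := ∫ ξ in Set.Iic z, χ ξ

/-- a second antiderivative of `χ` -/
noncomputable def X2 (χ : ℝ → ℝ) (z : ℝ) : ℝ := ∫ ξ, χ ξ * max 0 (z - ξ)

/-- the covariogram integrated against `χ` along the horizontal line at height `t` -/
noncomputable def G (φ : Set Pl → ℝ) (K : Set Pl) (χ : ℝ → ℝ) (t : ℝ) : ℝ :=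
  ∫ ξ, χ ξ * cov φ K (ξ, t)

/-- piecewise affine functions on `[a,b]` -/
inductive PA : ℝ → ℝ → (ℝ → ℝ) → Prop
  | aff (a b c d : ℝ) (f : ℝ → ℝ) : a ≤ b → (∀ y ∈ Set.Icc a b, f y = c + d * y) → PA a b f
  | cat (a b c : ℝ) (f : ℝ → ℝ) : PA a b f → PA b c f → PA a c f

/-- left side of the slice of `body D ∩ (body D + (ξ,t))` at height `y` -/
noncomputable def Data.lo (D : Data) (ξ t y : ℝ) : ℝ := max (D.L y) (D.L (y - t) + ξ)

/-- right side of the slice of `body D ∩ (body D + (ξ,t))` at height `y` -/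
noncomputable def Data.up (D : Data) (ξ t y : ℝ) : ℝ := min (D.R y) (D.R (y - t) + ξ)

/-- `∫ χ(ξ) |slice of `K ∩ (K + (ξ,t))` at height `y`| dξ` -/
noncomputable def Data.T (D : Data) (χ : ℝ → ℝ) (t y : ℝ) : ℝ :=
  X2 χ (D.R y - D.L (y - t)) - X2 χ (D.R y - D.R (y - t)) - X2 χ (D.L y - D.L (y - t))
    + X2 χ (D.L y - D.R (y - t))

/-- the density (at height `y`) of the perimeter, integrated against `χ` -/
noncomputable def Data.P (D : Data) (n χ : ℝ → ℝ) (t y : ℝ) : ℝ :=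
  n (deriv D.R y) * (X1 χ (D.R y - D.L (y - t)) - X1 χ (D.R y - D.R (y - t)))
  + n (deriv D.L y) * (X1 χ (D.L y - D.L (y - t)) - X1 χ (D.L y - D.R (y - t)))
  + n (deriv D.R (y - t)) * (X1 χ (D.R y - D.R (y - t)) - X1 χ (D.L y - D.R (y - t)))
  + n (deriv D.L (y - t)) * (X1 χ (D.R y - D.L (y - t)) - X1 χ (D.L y - D.L (y - t)))

/-- difference body -/
def dif (K : Set Pl) : Set Pl := {z | ∃ a ∈ K, ∃ b ∈ K, z = a - b}

/-- right support function, `σ` the slope `dx/dy` -/
noncomputable def rs (K : Set Pl) (σ : ℝ) : ℝ := sSup ((fun z : Pl => z.1 - σ * z.2) '' K)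

/-- left support function -/
noncomputable def ls (K : Set Pl) (σ : ℝ) : ℝ := sSup ((fun z : Pl => σ * z.2 - z.1) '' K)

/-- `s 0 < s 1 < ... < s (m-1)` -/
def Inc (m : ℕ) (s : ℕ → ℝ) : Prop := ∀ i j, i < j → j < m → s i < s j

/-- `f` is affine on every open interval containing no `s j`, `j < m` -/
def AffOff (m : ℕ) (s : ℕ → ℝ) (f : ℝ → ℝ) : Prop :=
  ∀ a b, a < b → (∀ j, j < m → ¬ (a < s j ∧ s j < b)) →
    ∃ c d, ∀ σ ∈ Set.Ioo a b, f σ = c + d * σ

/-- the two functions agree at points of every interval -/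
def Dense (f g : ℝ → ℝ) : Prop := ∀ a b, a < b → ∃ ξ ∈ Set.Ioo a b, f ξ = g ξ

/-- `D` and `D'` have the same directions and the same difference body -/
structure Mate (D D' : Data) : Prop where
  hm : D'.m = D.m
  hs : D'.s = D.s
  hw : D'.w = D.w
  hpq : D'.p + D'.q = D.p + D.q
  hrl : ∀ j, j < D.m → D'.r j + D'.l j = D.r j + D.l j
  hpos : ∀ j, j < D.m → 0 < D.r j + D.l j

/-- skipping the index `j` -/
def skp (j : ℕ) (a : ℕ → ℝ) : ℕ → ℝ := fun i => if i < j then a i else a (i + 1)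

open Classical in
/-- jump of the slope (`κ = s`), or of its norm (`κ = n ∘ s`), of a chain at the height `t` -/
noncomputable def jmp (m : ℕ) (κ a : ℕ → ℝ) (t : ℝ) : ℝ :=
  ∑ k ∈ Finset.range (m - 1), if Yp a (k + 1) = t then κ (k + 1) - κ k else 0

/-- `f` has one-sided derivatives at `t`, and the right one minus the left one is `a` -/
def Kink (f : ℝ → ℝ) (t a : ℝ) : Prop :=
  ∃ x y, HasDerivWithinAt f x (Set.Ici t) t ∧ HasDerivWithinAt f y (Set.Iic t) t ∧ x - y = a

/-- the density of the perimeter of `body D ∩ (body D + (ξ,t))` at height `y` (for almost all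
`ξ`, `y`) -/
noncomputable def Data.Q (D : Data) (n : ℝ → ℝ) (t ξ y : ℝ) : ℝ :=
  n (deriv D.R y) * ind (D.R y - D.R (y - t)) (D.R y - D.L (y - t)) ξ
  + n (deriv D.L y) * ind (D.L y - D.R (y - t)) (D.L y - D.L (y - t)) ξ
  + n (deriv D.R (y - t)) * ind (D.L y - D.R (y - t)) (D.R y - D.R (y - t)) ξ
  + n (deriv D.L (y - t)) * ind (D.L y - D.L (y - t)) (D.R y - D.L (y - t)) ξ

open Classical in
/-- total weight of the right vertices at depth `t` -/
noncomputable def VR (D : Data) (n : ℝ → ℝ) (e t : ℝ) : ℝ :=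
  ∑ k ∈ Finset.range (D.m - 1), if Yp D.r (k + 1) = t then tp n e D.s k else 0

open Classical in
/-- total weight of the left vertices at depth `t` -/
noncomputable def VL (D : Data) (n : ℝ → ℝ) (e t : ℝ) : ℝ :=
  ∑ k ∈ Finset.range (D.m - 1), if D.w - Yp D.l (k + 1) = t then tm n e D.s k else 0

/-- mirror image (`x ↦ -x`) of the data -/
def mir (D : Data) : Data :=
  { m := D.m, s := fun j => -D.s (D.m - 1 - j), r := fun j => D.l (D.m - 1 - j),
    l := fun j => D.r (D.m - 1 - j), p := D.p, q := D.q, w := D.w }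

/-- hypotheses of the case of a single horizontal edge -/
structure SH (D D' : Data) (n n' : ℝ → ℝ) (e e' : ℝ) : Prop where
  ok : D.Ok
  ok' : D'.Ok
  mate : Mate D D'
  q0 : D.q = 0
  q0' : D'.q = 0
  p0 : 0 < D.p
  e0 : 0 < e
  e0' : 0 < e'
  cx : ConvexOn ℝ Set.univ n
  cx' : ConvexOn ℝ Set.univ n'
  lp : ∀ a b, |n a - n b| ≤ e * |a - b|
  lp' : ∀ a b, |n' a - n' b| ≤ e' * |a - b|
  pr : ∀ j, j < D.m → (D'.r j = D.r j ∧ D'.l j = D.l j) ∨ (D'.r j = D.l j ∧ D'.l j = D.r j)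
  den : ∀ t, 0 < t → t < D.w → Dense (fun ξ => F D n e ξ t) (fun ξ => F D' n' e' ξ t)

/-- hypotheses of the case where all edges have a parallel partner -/
structure DH (D D' : Data) (n : ℝ → ℝ) (e : ℝ) : Prop where
  ok : D.Ok
  ok' : D'.Ok
  mate : Mate D D'
  q0 : 0 < D.q
  pq : D.q < D.p
  hp : D'.p = D.p
  hq : D'.q = D.q
  e0 : 0 < e
  cx : ConvexOn ℝ Set.univ n
  lp : ∀ a b, |n a - n b| ≤ e * |a - b|
  pos : ∀ j, j < D.m → 0 < D.r j ∧ 0 < D.l j ∧ 0 < D'.r j ∧ 0 < D'.l j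
  den : ∀ t, 0 < t → t < D.w → Dense (fun ξ => F D n e ξ t) (fun ξ => F D' n e ξ t)

end Pool.MP671
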