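import Pool.Agent.Lib.MP_671ac3_gt.Spec2
import Pool.Agent.Lib.MP_671ac3_gt.CV2

/-!
# MP_671ac3_gt : module F1N (first order information, horizontal direction null for one valuation)
-/

set_option linter.all false

namespace Pool.MP671

open F1 in
theorem specF1N (hCOV : SpecCOV) (hBOD : SpecBOD) : SpecF1N := by
  intro φ ψ hφ hψ D D' hD hD' hM e0 e0' hcov
  have hp' := hD'.hp
  have hq' := hD'.hq
  set x := D'.q + Xp D'.s D'.r D'.m with hx
  have key : ∀ ξ, ov x D'.p D'.q ξ = 0 := by
    intro ξ
    have h1 := cov_top hCOV hBOD hφ D hD ξ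
    have h2 := cov_top hCOV hBOD hψ D' hD' ξ
    rw [hM.hw] at h2
    have h3 := hcov (ξ, D.w)
    rw [h1, h2, e0, mul_zero, zero_mul] at h3
    have h4 : 2 * ee ψ ≠ 0 := by positivity
    exact (mul_eq_zero.1 h3.symm).resolve_left h4
  have h1 := key (x - min D'.p D'.q)
  rw [ov_at x D'.p D'.q _ (le_min hp' hq') (min_le_left _ _) (min_le_right _ _)] at h1
  rcases le_total D'.p D'.q with h | h
  · left
    rwa [min_eq_left h] at h1
  · right
    rwa [min_eq_right h] at h1

end Pool.MP671
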