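import Pool.Agent.Lib.MP_671ac3_gt.Spec2
import Pool.Agent.Lib.MP_671ac3_gt.MR2

/-!
# MP_671ac3_gt : module FLC (directions of the edges of the polygon)
-/

set_option linter.all false

open scoped Pointwise

namespace Pool.MP671

namespace FLC

open FLB

theorem exists_pos {S : Set ℝ} (h : 0 < sSup S) : ∃ t ∈ S, 0 < t := by
  by_contra hc
  push Not at hc
  exact absurd (Real.sSup_nonpos hc) (not_le.2 h)

/-- a maximiser pair of `σ u - ch u` gives a slope equal to `σ` -/
theorem slope (hCHA : SpecCHA) (m : ℕ) (s a : ℕ → ℝ) (hs : ∀ i j, i < j → j < m → s i < s j)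
    (ha : ∀ j, j < m → 0 ≤ a j) (σ M u v : ℝ) (hu : 0 ≤ u) (huv : u < v) (hv : v ≤ Yp a m)
    (h1 : σ * u - ch m s a u = M) (h2 : σ * v - ch m s a v = M)
    (hM : ∀ y, 0 ≤ y → y ≤ Yp a m → σ * y - ch m s a y ≤ M) : ∃ k, k < m ∧ s k = σ := by
  obtain ⟨-, -, -, h4, -, h6⟩ := hCHA m a ha
  have hconv := h6 s hs
  -- the difference is constant in between
  have key : ∀ p, u ≤ p → p ≤ v → σ * p - ch m s a p = M := by
    intro p hp1 hp2
    refine le_antisymm (hM p (hu.trans hp1) (hp2.trans hv)) ?_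
    have hvu : 0 < v - u := by linarith
    have hc := hconv.2 (show u ∈ Set.Icc 0 (Yp a m) from ⟨hu, (huv.le.trans hv)⟩)
      (show v ∈ Set.Icc 0 (Yp a m) from ⟨hu.trans huv.le, hv⟩)
      (show 0 ≤ (v - p) / (v - u) from div_nonneg (by linarith) hvu.le)
      (show 0 ≤ (p - u) / (v - u) from div_nonneg (by linarith) hvu.le)
      (by field_simp; ring)
    simp only [smul_eq_mul] at hc
    have e1 : (v - p) / (v - u) * u + (p - u) / (v - u) * v = p := by
      field_simp; ring
    have e2 : (v - p) / (v - u) * ch m s a u + (p - u) / (v - u) * ch m s a v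
        = σ * p - M := by
      have : ch m s a u = σ * u - M := by linarith
      rw [this]
      have : ch m s a v = σ * v - M := by linarith
      rw [this]
      field_simp; ring
    rw [e1, e2] at hc
    linarith
  -- a piece which meets the interval
  have hex : ∃ k ∈ Finset.range m, cl a u k < cl a v k := by
    apply Finset.exists_lt_of_sum_lt
    rw [sum_cl m a ha u hu (huv.le.trans hv), sum_cl m a ha v (hu.trans huv.le) hv]
    exact huv
  obtain ⟨k, hk, hlt⟩ := hex
  have hk := Finset.mem_range.1 hk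
  rw [cl_eq a u k (ha k hk), cl_eq a v k (ha k hk)] at hlt
  have hY : Yp a k ≤ Yp a (k + 1) := by rw [Yp_succ]; linarith [ha k hk]
  have hpq : max u (Yp a k) < min v (Yp a (k + 1)) := by
    rw [max_lt_iff, lt_min_iff, lt_min_iff]
    refine ⟨⟨huv, ?_⟩, ?_, ?_⟩
    · by_contra hc
      rw [min_eq_right (not_lt.1 hc), min_eq_right (hY.trans (not_lt.1 hc)),
        min_eq_right ((not_lt.1 hc).trans huv.le),
        min_eq_right ((hY.trans (not_lt.1 hc)).trans huv.le)] at hlt
      exact lt_irrefl _ hlt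
    · by_contra hc
      have hc := not_lt.1 hc
      rw [min_eq_left (huv.le.trans hc), min_eq_left ((huv.le.trans hc).trans hY),
        min_eq_left hc, min_eq_left (hc.trans hY)] at hlt
      linarith
    · rcases hY.lt_or_eq with h | h
      · exact h
      · rw [h] at hlt; linarith
  have hp1 : u ≤ max u (Yp a k) := le_max_left _ _
  have hp2 : Yp a k ≤ max u (Yp a k) := le_max_right _ _
  have hq1 : min v (Yp a (k + 1)) ≤ v := min_le_left _ _
  have hq2 : min v (Yp a (k + 1)) ≤ Yp a (k + 1) := min_le_right _ _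
  set p := max u (Yp a k)
  set q := min v (Yp a (k + 1))
  have kp := key p hp1 (hpq.le.trans hq1)
  have kq := key q (hp1.trans hpq.le) hq1
  rw [h4 s k hk p ⟨hp2, hpq.le.trans hq2⟩] at kp
  rw [h4 s k hk q ⟨hp2.trans hpq.le, hq2⟩] at kq
  refine ⟨k, hk, ?_⟩
  have : (s k - σ) * (q - p) = 0 := by linarith
  rcases mul_eq_zero.1 this with h | h
  · linarith
  · linarith

end FLC

open FLB FLC in
theorem specFLC (hCHA : SpecCHA) (hBOD : SpecBOD) : SpecFLC := by
  refine ⟨fun D hD σ h => ?_, fun K v c hc => ?_⟩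
  · obtain ⟨b1, b2, b3, b4, -, -, b7, -⟩ := hBOD D hD
    have mem : ∀ z : Pl, z ∈ body D ↔ 0 ≤ z.2 ∧ z.2 ≤ D.w ∧ D.L z.2 ≤ z.1 ∧ z.1 ≤ D.R z.2 :=
      fun z => Iff.rfl
    rcases h with h | h
    · obtain ⟨t, ⟨-, z, hz, hzt, hmax⟩, htp⟩ := exists_pos h
      have hval : ∀ y, 0 ≤ y → y ≤ D.w → σ * y - D.L y ≤ σ * z.2 - z.1 := by
        intro y h0 h1
        have := hmax (D.L y, y) ((mem _).2 ⟨h0, h1, le_rfl, b7 _ ⟨h0, h1⟩⟩)
        simpa [crs] using this
      rw [mem] at hz hzt
      obtain ⟨z1, z2, z3, z4⟩ := hz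
      simp only [Prod.fst_add, Prod.snd_add, Prod.smul_mk, smul_eq_mul, mul_one] at hzt
      obtain ⟨w1, w2, w3, w4⟩ := hzt
      have e1 := hval z.2 z1 z2
      have e2 := hval (z.2 + t) w1 w2
      have f1 : σ * z.2 - D.L z.2 = σ * z.2 - z.1 := by linarith
      have f2 : σ * (z.2 + t) - D.L (z.2 + t) = σ * z.2 - z.1 := by
        apply le_antisymm e2
        linarith
      exact slope hCHA D.m D.s D.l hD.hs hD.hl σ _ z.2 (z.2 + t) z1 (by linarith)
        (by rw [hD.hlw]; exact w2) f1 f2 (fun y h0 h1 => hval y h0 (by rw [← hD.hlw]; exact h1))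
    · obtain ⟨t, ⟨-, z, hz, hzt, hmax⟩, htp⟩ := exists_pos h
      have hval : ∀ y, 0 ≤ y → y ≤ D.w → D.R y - σ * y ≤ z.1 - σ * z.2 := by
        intro y h0 h1
        have := hmax (D.R y, y) ((mem _).2 ⟨h0, h1, b7 _ ⟨h0, h1⟩, le_rfl⟩)
        simp only [crs] at this
        linarith
      have hRv : ∀ u, D.R (D.w - u) - σ * (D.w - u)
          = D.q + Xp D.s D.r D.m - σ * D.w + (σ * u - ch D.m D.s D.r u) := by
        intro u
        unfold Data.R
        rw [sub_sub_cancel]
        ring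
      rw [mem] at hz hzt
      obtain ⟨z1, z2, z3, z4⟩ := hz
      simp only [Prod.fst_add, Prod.snd_add, Prod.smul_mk, smul_eq_mul, mul_one, mul_neg] at hzt
      obtain ⟨w1, w2, w3, w4⟩ := hzt
      have e1 := hval z.2 z1 z2
      have e2 := hval (z.2 + -t) w1 w2
      have g1 := hRv (D.w - z.2)
      have g2 := hRv (D.w - (z.2 + -t))
      rw [sub_sub_cancel] at g1 g2
      set M := z.1 - σ * z.2 - (D.q + Xp D.s D.r D.m - σ * D.w) with hM
      refine slope hCHA D.m D.s D.r hD.hs hD.hr σ M (D.w - z.2) (D.w - (z.2 + -t))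
        (by linarith) (by linarith) (by rw [hD.hrw]; linarith) (by linarith) (by linarith)
        (fun y h0 h1 => ?_)
      have h3 := hval (D.w - y) (by rw [hD.hrw] at h1; linarith) (by linarith)
      have h4 := hRv y
      linarith
  · have hS : {t : ℝ | 0 ≤ t ∧ ∃ z ∈ K, z + t • (c • v) ∈ K ∧ ∀ y ∈ K, crs (c • v) y ≤ crs (c • v) z}
        = c⁻¹ • {t : ℝ | 0 ≤ t ∧ ∃ z ∈ K, z + t • v ∈ K ∧ ∀ y ∈ K, crs v y ≤ crs v z} := by
      ext t
      rw [Set.mem_smul_set_iff_inv_smul_mem₀ (inv_ne_zero hc.ne')]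
      simp only [inv_inv, Set.mem_setOf_eq, smul_eq_mul]
      have hcr : ∀ y : Pl, crs (c • v) y = c * crs v y := by
        intro y
        simp only [crs, Prod.smul_fst, Prod.smul_snd, smul_eq_mul]
        ring
      have hsm : ∀ z : Pl, z + t • (c • v) = z + (c * t) • v := by
        intro z
        rw [smul_smul, mul_comm t c]
      simp only [hcr, hsm]
      constructor
      · rintro ⟨h0, z, hz, h1, h2⟩
        exact ⟨mul_nonneg hc.le h0, z, hz, h1, fun y hy => (mul_le_mul_iff_right₀ hc).1 (h2 y hy)⟩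
      · rintro ⟨h0, z, hz, h1, h2⟩
        exact ⟨(mul_nonneg_iff_of_pos_left hc).1 h0, z, hz, h1,
          fun y hy => (mul_le_mul_iff_right₀ hc).2 (h2 y hy)⟩
    unfold fl
    rw [hS, Real.sSup_smul_of_nonneg (inv_nonneg.2 hc.le), smul_eq_mul]
    constructor
    · intro h
      exact (pos_iff_pos_of_mul_pos h).1 (inv_pos.2 hc)
    · intro h
      exact mul_pos (inv_pos.2 hc) h

end Pool.MP671
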