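import Pool.Agent.Lib.MP_671ac3_gt.Spec2

section
/-!
# MP_671ac3_gt : module AF1 (first order information, area)
-/
set_option linter.all false

namespace Pool.MP671

open MeasureTheory

namespace AF1

/-- overlap of `[x - p, x]` and `[ξ, ξ + q]` -/
noncomputable def ov (x p q ξ : ℝ) : ℝ := max 0 (min x (q + ξ) - max (x - p) ξ)

theorem ov_at (x p q δ : ℝ) (h0 : 0 ≤ δ) (hp : δ ≤ p) (hq : δ ≤ q) : ov x p q (x - δ) = δ := by
  unfold ov
  rw [min_eq_left (by linarith : x ≤ q + (x - δ)), max_eq_right (by linarith : x - p ≤ x - δ),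
    sub_sub_cancel, max_eq_right h0]

theorem ov_le (x p q ξ : ℝ) (hp : 0 ≤ p) (hq : 0 ≤ q) : ov x p q ξ ≤ min p q := by
  unfold ov
  refine max_le (le_min hp hq) (le_min ?_ ?_)
  · have h1 := min_le_left x (q + ξ)
    have h2 := le_max_left (x - p) ξ
    linarith
  · have h1 := min_le_right x (q + ξ)
    have h2 := le_max_right (x - p) ξ
    linarith

theorem two_min {p q p' q' : ℝ} (h : p' + q' = p + q) (hm : min p q = min p' q') :
    (p' = p ∧ q' = q) ∨ (p' = q ∧ q' = p) := by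
  rcases le_total p q with h1 | h1 <;> rcases le_total p' q' with h2 | h2
  · rw [min_eq_left h1, min_eq_left h2] at hm
    left; exact ⟨hm.symm, by linarith⟩
  · rw [min_eq_left h1, min_eq_right h2] at hm
    right; exact ⟨by linarith, hm.symm⟩
  · rw [min_eq_right h1, min_eq_left h2] at hm
    right; exact ⟨hm.symm, by linarith⟩
  · rw [min_eq_right h1, min_eq_right h2] at hm
    left; exact ⟨by linarith, hm.symm⟩

theorem abs_max0 (a b : ℝ) : |max 0 a - max 0 b| ≤ |a - b| := by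
  refine (abs_max_sub_max_le_max 0 a 0 b).trans ?_
  rw [sub_self, abs_zero]
  exact max_le (abs_nonneg _) le_rfl

theorem ar_bound (hBOD : SpecBOD) (D : Data) (hD : D.Ok) :
    ∃ C : ℝ, 0 ≤ C ∧ ∀ ξ t, 0 ≤ t → t ≤ D.w →
      |Ar D ξ t - (D.w - t) * ov (D.q + Xp D.s D.r D.m) D.p D.q ξ| ≤ C * (D.w - t) ^ 2 := by
  obtain ⟨b1, b2, b3, b4, -, -, -, -, ⟨CL, hL⟩, ⟨CR, hR⟩, -⟩ := hBOD D hD
  have hcl := hD.hcl
  refine ⟨(CR : ℝ) + CL, by positivity, ?_⟩
  intro ξ t h0 hw
  have lip : ∀ (C : NNReal) (f : ℝ → ℝ), LipschitzWith C f → ∀ a b, |f a - f b| ≤ C * |a - b| := by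
    intro C f hf a b
    have := hf.dist_le_mul a b
    rwa [Real.dist_eq, Real.dist_eq] at this
  have hov : ov (D.q + Xp D.s D.r D.m) D.p D.q ξ =
      max 0 (min (D.R D.w) (D.R 0 + ξ) - max (D.L D.w) (D.L 0 + ξ)) := by
    unfold ov
    rw [b1, b2, b3, b4, show D.q + Xp D.s D.r D.m - D.p = Xp D.s D.l D.m by linarith, zero_add]
  rw [hov]
  obtain ⟨c, hc⟩ : ∃ c, c = max 0 (min (D.R D.w) (D.R 0 + ξ) - max (D.L D.w) (D.L 0 + ξ)) :=
    ⟨_, rfl⟩
  rw [← hc]
  have hcont : Continuous (fun y => max 0 (D.up ξ t y - D.lo ξ t y)) := by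
    unfold Data.up Data.lo
    have h1 := hL.continuous
    have h2 := hR.continuous
    fun_prop
  have hpt : ∀ y ∈ Set.uIoc t D.w, ‖max 0 (D.up ξ t y - D.lo ξ t y) - c‖ ≤
      ((CR : ℝ) + CL) * (D.w - t) := by
    intro y hy
    rw [Set.uIoc_of_le hw] at hy
    rw [Real.norm_eq_abs, hc]
    refine (abs_max0 _ _).trans ?_
    have e1 : |y - D.w| ≤ D.w - t := by rw [abs_le]; constructor <;> linarith [hy.1, hy.2]
    have e2 : |y - t - 0| ≤ D.w - t := by rw [abs_le]; constructor <;> linarith [hy.1, hy.2]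
    have u1 : |D.up ξ t y - min (D.R D.w) (D.R 0 + ξ)| ≤ CR * (D.w - t) := by
      unfold Data.up
      refine (abs_min_sub_min_le_max _ _ _ _).trans (max_le ?_ ?_)
      · exact (lip CR D.R hR _ _).trans (mul_le_mul_of_nonneg_left e1 CR.2)
      · rw [add_sub_add_right_eq_sub]
        exact (lip CR D.R hR _ _).trans (mul_le_mul_of_nonneg_left e2 CR.2)
    have u2 : |D.lo ξ t y - max (D.L D.w) (D.L 0 + ξ)| ≤ CL * (D.w - t) := by
      unfold Data.lo
      refine (abs_max_sub_max_le_max _ _ _ _).trans (max_le ?_ ?_)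
      · exact (lip CL D.L hL _ _).trans (mul_le_mul_of_nonneg_left e1 CL.2)
      · rw [add_sub_add_right_eq_sub]
        exact (lip CL D.L hL _ _).trans (mul_le_mul_of_nonneg_left e2 CL.2)
    rw [show D.up ξ t y - D.lo ξ t y -
        (min (D.R D.w) (D.R 0 + ξ) - max (D.L D.w) (D.L 0 + ξ)) =
        (D.up ξ t y - min (D.R D.w) (D.R 0 + ξ)) - (D.lo ξ t y - max (D.L D.w) (D.L 0 + ξ)) by ring]
    refine (abs_sub _ _).trans ?_
    rw [add_mul]
    exact add_le_add u1 u2
  have hint := intervalIntegral.norm_integral_le_of_norm_le_const hpt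
  rw [intervalIntegral.integral_sub (hcont.intervalIntegrable _ _) (by simp),
    intervalIntegral.integral_const, smul_eq_mul, Real.norm_eq_abs,
    abs_of_nonneg (by linarith : 0 ≤ D.w - t)] at hint
  unfold Ar
  rw [pow_two, ← mul_assoc]
  exact hint

end AF1

open AF1 in
theorem specAF1 (hBOD : SpecBOD) : SpecAF1 := by
  intro D D' hD hD' hM e e' e0 e0' hcov
  have hX : D'.q + Xp D'.s D'.r D'.m = D.q + Xp D.s D.r D.m := by
    have h1 := hD.hcl
    have h2 := hD'.hcl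
    have h3 := hM.hpq
    have h4 : Xp D'.s D'.r D'.m + Xp D'.s D'.l D'.m = Xp D.s D.r D.m + Xp D.s D.l D.m := by
      unfold Xp
      rw [hM.hm, hM.hs, ← Finset.sum_add_distrib, ← Finset.sum_add_distrib]
      refine Finset.sum_congr rfl fun j hj => ?_
      rw [← add_mul, ← add_mul, hM.hrl j (Finset.mem_range.1 hj)]
    linarith
  obtain ⟨C, hC0, hC⟩ := ar_bound hBOD D hD
  obtain ⟨C', hC0', hC'⟩ := ar_bound hBOD D' hD'
  rw [hX, hM.hw] at hC'
  obtain ⟨x, hx⟩ : ∃ x, x = D.q + Xp D.s D.r D.m := ⟨_, rfl⟩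
  rw [← hx] at hC hC'
  have hw0 := hD.hw
  have key : ∀ ξ, e * ov x D.p D.q ξ = e' * ov x D'.p D'.q ξ := by
    intro ξ
    by_contra hne
    obtain ⟨g, hg⟩ : ∃ g, g = |e * ov x D.p D.q ξ - e' * ov x D'.p D'.q ξ| := ⟨_, rfl⟩
    have hg0 : 0 < g := by rw [hg]; exact abs_pos.2 (sub_ne_zero.2 hne)
    have hbd : ∀ δ, 0 < δ → δ ≤ D.w → g ≤ (e * C + e' * C') * δ := by
      intro δ hδ hδw
      have h1 := hC ξ (D.w - δ) (by linarith) (by linarith)
      have h2 := hC' ξ (D.w - δ) (by linarith) (by linarith)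
      have h3 := hcov ξ (D.w - δ) (by linarith) (by linarith)
      rw [sub_sub_cancel] at h1 h2
      obtain ⟨a, ha⟩ : ∃ a, a = Ar D ξ (D.w - δ) := ⟨_, rfl⟩
      obtain ⟨a', ha'⟩ : ∃ a', a' = Ar D' ξ (D.w - δ) := ⟨_, rfl⟩
      obtain ⟨o, ho⟩ : ∃ o, o = ov x D.p D.q ξ := ⟨_, rfl⟩
      obtain ⟨o', ho'⟩ : ∃ o', o' = ov x D'.p D'.q ξ := ⟨_, rfl⟩
      rw [← ha, ← ho] at h1
      rw [← ha', ← ho'] at h2
      rw [← ha, ← ha'] at h3
      have h4 : |(e * o - e' * o') * δ| ≤ (e * C + e' * C') * δ ^ 2 := by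
        rw [show (e * o - e' * o') * δ = e' * (a' - δ * o') - e * (a - δ * o) by linear_combination h3]
        refine (abs_sub _ _).trans ?_
        rw [abs_mul, abs_mul, abs_of_pos e0, abs_of_pos e0']
        have := mul_le_mul_of_nonneg_left h1 e0.le
        have := mul_le_mul_of_nonneg_left h2 e0'.le
        linarith
      rw [abs_mul, abs_of_pos hδ, ho, ho', ← hg, pow_two, ← mul_assoc] at h4
      exact le_of_mul_le_mul_right h4 hδ
    obtain ⟨c, hc⟩ : ∃ c, c = e * C + e' * C' := ⟨_, rfl⟩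
    have hc0 : 0 ≤ c := by rw [hc]; positivity
    rw [← hc] at hbd
    have hd : 0 < min D.w (g / (2 * (c + 1))) := lt_min hw0 (by positivity)
    have h5 := hbd _ hd (min_le_left _ _)
    have h6 : c * min D.w (g / (2 * (c + 1))) ≤ c * (g / (2 * (c + 1))) :=
      mul_le_mul_of_nonneg_left (min_le_right _ _) hc0
    have h7 : c * (g / (2 * (c + 1))) ≤ g / 2 := by
      rw [← mul_div_assoc, div_le_div_iff₀ (by positivity) (by norm_num)]
      nlinarith
    linarith
  have hp := hD.hp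
  have hq := hD.hq
  have hp' := hD'.hp
  have hq' := hD'.hq
  obtain ⟨m, hm⟩ : ∃ m, m = min D.p D.q := ⟨_, rfl⟩
  obtain ⟨m', hm'⟩ : ∃ m', m' = min D'.p D'.q := ⟨_, rfl⟩
  have m0 : 0 ≤ m := by rw [hm]; exact le_min hp hq
  have m0' : 0 ≤ m' := by rw [hm']; exact le_min hp' hq'
  have mp : m ≤ D.p := by rw [hm]; exact min_le_left _ _
  have mq : m ≤ D.q := by rw [hm]; exact min_le_right _ _
  have mp' : m' ≤ D'.p := by rw [hm']; exact min_le_left _ _
  have mq' : m' ≤ D'.q := by rw [hm']; exact min_le_right _ _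
  have hle1 : e * m ≤ e' * m' := by
    have h1 := key (x - m)
    rw [ov_at x D.p D.q m m0 mp mq] at h1
    rw [h1, hm']
    exact mul_le_mul_of_nonneg_left (ov_le _ _ _ _ hp' hq') e0'.le
  have hle2 : e' * m' ≤ e * m := by
    have h1 := key (x - m')
    rw [ov_at x D'.p D'.q m' m0' mp' mq'] at h1
    rw [← h1, hm]
    exact mul_le_mul_of_nonneg_left (ov_le _ _ _ _ hp hq) e0.le
  have heq : e * m = e' * m' := le_antisymm hle1 hle2
  have hee : 0 < m → e = e' ∧ m = m' := by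
    intro hpos
    have hpos' : 0 < m' := by
      have : 0 < e' * m' := by rw [← heq]; positivity
      exact (pos_iff_pos_of_mul_pos this).1 e0'
    have h1 := key (x - min m m')
    rw [ov_at x D.p D.q _ (le_min m0 m0') ((min_le_left _ _).trans mp)
        ((min_le_left _ _).trans mq),
      ov_at x D'.p D'.q _ (le_min m0 m0') ((min_le_right _ _).trans mp')
        ((min_le_right _ _).trans mq')] at h1
    have h2 : 0 < min m m' := lt_min hpos hpos'
    have h3 : e = e' := mul_right_cancel₀ h2.ne' h1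
    refine ⟨h3, ?_⟩
    rw [← h3] at heq
    exact mul_left_cancel₀ e0.ne' heq
  have hmm : m = m' := by
    rcases m0.lt_or_eq with h | h
    · exact (hee h).2
    · rw [← h, mul_zero] at heq
      rcases mul_eq_zero.1 heq.symm with h1 | h1
      · exact absurd h1 e0'.ne'
      · rw [← h, h1]
  rw [hm, hm'] at hmm
  refine ⟨two_min hM.hpq hmm, fun h1 h2 => (hee ?_).1⟩
  rw [hm]
  exact lt_min h1 h2

end Pool.MP671
end

section
/-!
# MP_671ac3_gt : module AFB (Fubini, area)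
-/
set_option linter.all false

namespace Pool.MP671

open MeasureTheory

theorem specAFB (hXX : SpecXX) (hBOD : SpecBOD) : SpecAFB := by
  intro D hD χ hχ hχc t ht htw
  obtain ⟨-, -, -, -, -, -, hLR, -, ⟨CL, hCL⟩, ⟨CR, hCR⟩, -⟩ := hBOD D hD
  obtain ⟨-, -, -, -, x5⟩ := hXX χ hχ hχc
  have hL : Continuous D.L := hCL.continuous
  have hR : Continuous D.R := hCR.continuous
  have hχi : Integrable χ := hχ.integrable_of_hasCompactSupport hχc
  have le1 : ∀ y ∈ Set.Icc t D.w, D.L y ≤ D.R y := fun y hy =>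
    hLR y ⟨by linarith [hy.1], hy.2⟩
  have le2 : ∀ y ∈ Set.Icc t D.w, D.L (y - t) ≤ D.R (y - t) := fun y hy =>
    hLR (y - t) ⟨by linarith [hy.1], by linarith [hy.2]⟩
  have hT : ∀ y ∈ Set.Icc t D.w, ∫ ξ, χ ξ * max 0 (D.up ξ t y - D.lo ξ t y) = D.T χ t y := by
    intro y hy
    exact x5 (D.L y) (D.R y) (D.L (y - t)) (D.R (y - t)) (le1 y hy) (le2 y hy)
  set ν : Measure ℝ := volume.restrict (Set.Ioc t D.w) with hν
  have hupc : Continuous (fun p : ℝ × ℝ => D.up p.1 t p.2) := by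
    unfold Data.up; fun_prop
  have hloc : Continuous (fun p : ℝ × ℝ => D.lo p.1 t p.2) := by
    unfold Data.lo; fun_prop
  obtain ⟨MA, hMA⟩ := (isCompact_Icc (a := t) (b := D.w)).exists_bound_of_continuousOn
    (f := fun y => D.R y - D.L y) (by fun_prop)
  have hAb : ∀ ξ, ∀ y ∈ Set.Icc t D.w, |max 0 (D.up ξ t y - D.lo ξ t y)| ≤ MA := by
    intro ξ y hy
    rw [abs_of_nonneg (le_max_left _ _)]
    have h1 := hMA y hy
    rw [Real.norm_eq_abs] at h1
    have h2 := le_abs_self (D.R y - D.L y)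
    have h3 := le1 y hy
    refine max_le (by linarith) ?_
    have a1 : D.up ξ t y ≤ D.R y := min_le_left _ _
    have a2 : D.L y ≤ D.lo ξ t y := le_max_left _ _
    linarith
  have hAi : Integrable (Function.uncurry fun ξ y => χ ξ * max 0 (D.up ξ t y - D.lo ξ t y))
      (volume.prod ν) := by
    have hdom : Integrable (fun p : ℝ × ℝ => |χ p.1| * MA) (volume.prod ν) :=
      Integrable.mul_prod (L := ℝ) hχi.abs (integrable_const MA)
    refine hdom.mono' ?_ ?_
    · apply Continuous.aestronglyMeasurable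
      unfold Function.uncurry
      have : Continuous (fun p : ℝ × ℝ => χ p.1) := hχ.comp continuous_fst
      exact this.mul (continuous_const.max (hupc.sub hloc))
    · have h0 : ∀ᵐ y ∂ν, y ∈ Set.Ioc t D.w := ae_restrict_mem measurableSet_Ioc
      have hae : ∀ᵐ p ∂((volume : Measure ℝ).prod ν), p.2 ∈ Set.Ioc t D.w :=
        (Measure.quasiMeasurePreserving_snd (μ := (volume : Measure ℝ)) (ν := ν)).ae h0
      filter_upwards [hae] with p hp
      show ‖χ p.1 * max 0 (D.up p.1 t p.2 - D.lo p.1 t p.2)‖ ≤ _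
      rw [norm_mul, Real.norm_eq_abs, Real.norm_eq_abs]
      exact mul_le_mul_of_nonneg_left (hAb p.1 p.2 (Set.Ioc_subset_Icc_self hp)) (abs_nonneg _)
  have h1 : ∀ ξ, χ ξ * Ar D ξ t = ∫ y, χ ξ * max 0 (D.up ξ t y - D.lo ξ t y) ∂ν := by
    intro ξ
    unfold Ar
    rw [intervalIntegral.integral_of_le htw.le, integral_const_mul]
  simp only [h1]
  rw [integral_integral_swap hAi, intervalIntegral.integral_of_le htw.le]
  refine setIntegral_congr_fun measurableSet_Ioc fun y hy => ?_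
  exact hT y (Set.Ioc_subset_Icc_self hy)

end Pool.MP671
end

section
/-!
# MP_671ac3_gt : module CDN, case D with a null direction
-/
namespace Pool.MP671

namespace CDN

theorem Yp_sub (a : ℕ → ℝ) (j : ℕ) : Yp a (j + 1) - Yp a j = a j := by
  unfold Yp
  rw [Finset.sum_range_succ]
  ring

end CDN

open CDN in
/-- module CDN -/
theorem specCDN (hCHZ : SpecCHZ) (hMIR : SpecMIR) (hMR2 : SpecMR2) : SpecCDN := by
  intro D D' e z h
  have hm' := h.mate.hm
  have hw' := h.mate.hw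
  -- the interior heights
  have key : ∀ k, k + 1 < D.m → Yp D'.r (k + 1) = Yp D.r (k + 1) ∧
      Yp D'.l (k + 1) = Yp D.l (k + 1) := by
    intro k hk
    rcases le_or_gt z k with h1 | h1
    · obtain ⟨a, _, b, _⟩ := hCHZ D D' e z h k h1 hk
      exact ⟨a, b⟩
    · obtain ⟨-, -, -, -, hYX⟩ := hMIR.1 D h.ok
      obtain ⟨-, -, -, -, hYX'⟩ := hMIR.1 D' h.ok'
      have hDN := hMR2.2 D D' e z h
      have hk' : D.m - 2 - k + 1 < (mir D).m := by
        show D.m - 2 - k + 1 < D.m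
        omega
      obtain ⟨a, _, b, _⟩ := hCHZ (mir D) (mir D') e (D.m - 1 - z) hDN (D.m - 2 - k)
        (by omega) hk'
      have e2 : D.m - (D.m - 2 - k + 1) = k + 1 := by omega
      have e3 : D'.m - (D.m - 2 - k + 1) = k + 1 := by omega
      obtain ⟨p1, p2, -, -⟩ := hYX (D.m - 2 - k + 1) (by omega)
      obtain ⟨p1', p2', -, -⟩ := hYX' (D.m - 2 - k + 1) (by omega)
      rw [e2] at p1 p2
      rw [e3] at p1' p2'
      rw [p1, p1', hw'] at a
      rw [p2, p2', hw'] at b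
      constructor <;> linarith
  have all : ∀ k, k ≤ D.m → Yp D'.r k = Yp D.r k ∧ Yp D'.l k = Yp D.l k := by
    intro k hk
    rcases Nat.eq_zero_or_pos k with h0 | h0
    · subst h0
      unfold Yp
      simp
    · rcases Nat.lt_or_ge k D.m with h1 | h1
      · obtain ⟨j, rfl⟩ := Nat.exists_eq_add_of_le h0
        rw [Nat.add_comm] at h1 ⊢
        exact key j h1
      · have h2 : k = D.m := le_antisymm hk h1
        subst h2
        have r1 := h.ok.hrw
        have r2 := h.ok'.hrw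
        have l1 := h.ok.hlw
        have l2 := h.ok'.hlw
        rw [hm'] at r2 l2
        rw [r1, r2, l1, l2]
        exact ⟨hw', hw'⟩
  intro j hj
  obtain ⟨a1, b1⟩ := all j hj.le
  obtain ⟨a2, b2⟩ := all (j + 1) hj
  constructor
  · rw [← Yp_sub D'.r j, ← Yp_sub D.r j, a1, a2]
  · rw [← Yp_sub D'.l j, ← Yp_sub D.l j, b1, b2]

end Pool.MP671
end

section
namespace Pool.MP671

open MeasureTheory

namespace M2L

theorem xp_add (s a b : ℕ → ℝ) (m : ℕ) :
    Xp s (fun j => a j + b j) m = Xp s a m + Xp s b m := by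
  unfold Xp
  rw [← Finset.sum_add_distrib]
  exact Finset.sum_congr rfl fun j _ => by ring

theorem xp_eq {D D' : Data} (o : D.Ok) (o' : D'.Ok) (h : Mate D D') (hp : D'.p = D.p)
    (hq : D'.q = D.q) : Xp D.s D'.r D.m = Xp D.s D.r D.m := by
  have h1 := o.hcl
  have h2 := o'.hcl
  rw [h.hm, h.hs, hp, hq] at h2
  have h3 : Xp D.s (fun j => D'.r j + D'.l j) D.m = Xp D.s (fun j => D.r j + D.l j) D.m := by
    unfold Xp
    exact Finset.sum_congr rfl fun j hj => by
      show (D'.r j + D'.l j) * D.s j = (D.r j + D.l j) * D.s j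
      rw [h.hrl j (Finset.mem_range.1 hj)]
  rw [xp_add, xp_add] at h3
  linarith

theorem yp_eq {D D' : Data} (o : D.Ok) (o' : D'.Ok) (h : Mate D D') :
    Yp D'.r D.m = Yp D.r D.m := by
  have h1 := o.hrw
  have h2 := o'.hrw
  rw [h.hm, h.hw] at h2
  rw [h1, h2]

theorem key {D D' : Data} (o : D.Ok) (o' : D'.Ok) (h : Mate D D') (hp : D'.p = D.p)
    (hq : D'.q = D.q) {i i' : ℕ} (hi : i < D.m)
    (hr : ∀ j, j < D.m → j ≠ i → j ≠ i' → D'.r j = D.r j) : D'.r i = D.r i := by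
  have e1 : ∑ j ∈ Finset.range D.m, (D'.r j - D.r j) = 0 := by
    rw [Finset.sum_sub_distrib]
    exact sub_eq_zero.2 (yp_eq o o' h)
  have e2 : ∑ j ∈ Finset.range D.m, (D'.r j - D.r j) * D.s j = 0 := by
    have : ∑ j ∈ Finset.range D.m, (D'.r j - D.r j) * D.s j =
        Xp D.s D'.r D.m - Xp D.s D.r D.m := by
      unfold Xp
      rw [← Finset.sum_sub_distrib]
      exact Finset.sum_congr rfl fun j _ => by ring
    rw [this]
    exact sub_eq_zero.2 (xp_eq o o' h hp hq)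
  by_cases hc : i' ≠ i ∧ i' < D.m
  · obtain ⟨hne, hi'⟩ := hc
    have e3 : ∑ j ∈ Finset.range D.m, (D'.r j - D.r j) * (D.s j - D.s i') = 0 := by
      have : ∑ j ∈ Finset.range D.m, (D'.r j - D.r j) * (D.s j - D.s i') =
          ∑ j ∈ Finset.range D.m, (D'.r j - D.r j) * D.s j -
            (∑ j ∈ Finset.range D.m, (D'.r j - D.r j)) * D.s i' := by
        rw [Finset.sum_mul, ← Finset.sum_sub_distrib]
        exact Finset.sum_congr rfl fun j _ => by ring
      rw [this, e1, e2]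
      ring
    rw [Finset.sum_eq_single i] at e3
    · rcases mul_eq_zero.1 e3 with h4 | h4
      · linarith
      · exfalso
        have h5 : D.s i = D.s i' := sub_eq_zero.1 h4
        rcases lt_or_gt_of_ne hne with h6 | h6
        · exact (o.hs i' i h6 hi).ne' h5
        · exact (o.hs i i' h6 hi').ne h5
    · intro j hj hji
      by_cases hji' : j = i'
      · rw [hji', sub_self, mul_zero]
      · rw [hr j (Finset.mem_range.1 hj) hji hji', sub_self, zero_mul]
    · intro h7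
      exact absurd (Finset.mem_range.2 hi) h7
  · rw [Finset.sum_eq_single i] at e1
    · linarith
    · intro j hj hji
      have hj' := Finset.mem_range.1 hj
      have hji' : j ≠ i' := by
        rintro rfl
        exact hc ⟨hji, hj'⟩
      rw [hr j hj' hji hji', sub_self]
    · intro h7
      exact absurd (Finset.mem_range.2 hi) h7

end M2L

theorem specM2L : SpecM2L := by
  constructor
  · intro D D' o o' h hp hq a b hr j hj
    have h1 : ∀ j, j < D.m → D'.r j = D.r j := by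
      intro j hj
      by_cases ha : j = a
      · subst ha
        exact M2L.key o o' h hp hq hj hr
      · by_cases hb : j = b
        · subst hb
          exact M2L.key o o' h hp hq hj fun i hi h2 h3 => hr i hi h3 h2
        · exact hr j hj ha hb
    refine ⟨h1 j hj, ?_⟩
    have := h.hrl j hj
    rw [h1 j hj] at this
    linarith
  · intro D D' o o' h hm
    rcases Nat.eq_zero_or_pos D.m with h0 | h0
    · exfalso
      have h1 := o.hrw
      have h2 := o.hw
      rw [h0] at h1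
      simp only [Yp, Finset.range_zero, Finset.sum_empty] at h1
      linarith
    have hm1 : D.m = 1 := by omega
    have a1 := o.hrw
    have a2 := o.hlw
    have a3 := o.hcl
    have b1 := o'.hrw
    have b2 := o'.hlw
    have b3 := o'.hcl
    rw [h.hm, h.hw] at b1 b2
    rw [h.hm, h.hs] at b3
    rw [hm1] at a1 a2 a3 b1 b2 b3
    simp only [Yp, Xp, Finset.sum_range_one] at a1 a2 a3 b1 b2 b3
    have c1 : D'.r 0 = D.r 0 := by rw [a1, b1]
    have c2 : D'.l 0 = D.l 0 := by rw [a2, b2]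
    rw [a1, a2] at a3
    rw [b1, b2] at b3
    have c3 := h.hpq
    refine ⟨by linarith, fun j hj => ?_⟩
    have hj0 : j = 0 := by omega
    subst hj0
    exact ⟨c1, c2⟩

end Pool.MP671
end

section
/-!
# MP_671ac3_gt : module ZFR
-/
namespace Pool.MP671

open MeasureTheory

namespace ZFR

theorem yp_succ (a : ℕ → ℝ) (k : ℕ) : Yp a (k + 1) = Yp a k + a k := by
  unfold Yp
  rw [Finset.sum_range_succ]

theorem yp_nonneg {m : ℕ} {a : ℕ → ℝ} (ha : ∀ j, j < m → 0 ≤ a j) {k : ℕ} (hk : k ≤ m) :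
    0 ≤ Yp a k := by
  unfold Yp
  exact Finset.sum_nonneg fun j hj => ha j (lt_of_lt_of_le (Finset.mem_range.1 hj) hk)

/-- The height of the break after `i` is in `(0, Yp a m)`. -/
theorem yp_mem {m : ℕ} {a : ℕ → ℝ} (ha : ∀ j, j < m → 0 ≤ a j) {i j : ℕ} (hij : i < j)
    (hj : j < m) (hi : 0 < a i) (hj' : 0 < a j) : 0 < Yp a (i + 1) ∧ Yp a (i + 1) < Yp a m := by
  constructor
  · rw [yp_succ]
    have := yp_nonneg ha (by omega : i ≤ m)
    linarith
  · unfold Yp
    have e := Finset.sum_range_add_sum_Ico a (by omega : i + 1 ≤ m)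
    have h : 0 < ∑ k ∈ Finset.Ico (i + 1) m, a k := by
      refine Finset.sum_pos' (fun k hk => ha k (Finset.mem_Ico.1 hk).2) ⟨j, ?_, hj'⟩
      exact Finset.mem_Ico.2 ⟨by omega, hj⟩
    linarith

theorem ind_nonneg (a b ξ : ℝ) : 0 ≤ ind a b ξ := by
  unfold ind
  split_ifs
  · exact zero_le_one
  · exact le_rfl

theorem ind_one {a b ξ : ℝ} (h : ξ ∈ Set.Ioo a b) : ind a b ξ = 1 := by
  unfold ind
  rw [if_pos (Set.mem_Ioo.1 h)]

theorem tp_nonneg {n : ℝ → ℝ} {e : ℝ} {s : ℕ → ℝ} (lp : ∀ a b, |n a - n b| ≤ e * |a - b|) {k : ℕ}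
    (h : s k < s (k + 1)) : 0 ≤ tp n e s k := by
  unfold tp
  have h1 := lp (s (k + 1)) (s k)
  rw [abs_of_pos (by linarith : 0 < s (k + 1) - s k)] at h1
  have h2 := (abs_le.1 h1).1
  linarith

theorem tm_nonneg {n : ℝ → ℝ} {e : ℝ} {s : ℕ → ℝ} (lp : ∀ a b, |n a - n b| ≤ e * |a - b|) {k : ℕ}
    (h : s k < s (k + 1)) : 0 ≤ tm n e s k := by
  unfold tm
  have h1 := lp (s (k + 1)) (s k)
  rw [abs_of_pos (by linarith : 0 < s (k + 1) - s k)] at h1
  have h2 := (abs_le.1 h1).2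
  linarith

/-- Each term is at most the sum. -/
theorem F_ge (D : Data) (n : ℝ → ℝ) (e : ℝ) (ok : D.Ok)
    (lp : ∀ a b, |n a - n b| ≤ e * |a - b|) (ξ t : ℝ) (k : ℕ) (hk : k < D.m - 1) :
    (Yp D.r (k + 1) = t → tp n e D.s k * ind (Xp D.s D.r (k + 1) - D.p) (Xp D.s D.r (k + 1)) ξ
      ≤ F D n e ξ t) ∧
    (Yp D.l (k + 1) = t → tp n e D.s k * ind (Xp D.s D.l (k + 1) - D.q) (Xp D.s D.l (k + 1)) ξ
      ≤ F D n e ξ t) ∧
    (D.w - Yp D.l (k + 1) = t → tm n e D.s k *
      ind (Xp D.s D.l D.m - Xp D.s D.l (k + 1)) (Xp D.s D.l D.m - Xp D.s D.l (k + 1) + D.p) ξ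
      ≤ F D n e ξ t) ∧
    (D.w - Yp D.r (k + 1) = t → tm n e D.s k *
      ind (Xp D.s D.r D.m - Xp D.s D.r (k + 1)) (Xp D.s D.r D.m - Xp D.s D.r (k + 1) + D.q) ξ
      ≤ F D n e ξ t) := by
  classical
  have hite : ∀ (P : Prop) [Decidable P] (a b : ℝ), 0 ≤ (if P then ind a b ξ else 0) := by
    intro P _ a b
    split_ifs
    · exact ind_nonneg _ _ _
    · exact le_rfl
  have hT : ∀ k, k < D.m - 1 → 0 ≤ tp n e D.s k ∧ 0 ≤ tm n e D.s k := by
    intro k hk
    have h1 : D.s k < D.s (k + 1) := ok.hs _ _ (Nat.lt_succ_self k) (by omega)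
    exact ⟨tp_nonneg lp h1, tm_nonneg lp h1⟩
  have hle : (tp n e D.s k *
        ((if Yp D.r (k + 1) = t then ind (Xp D.s D.r (k + 1) - D.p) (Xp D.s D.r (k + 1)) ξ else 0)
        + (if Yp D.l (k + 1) = t then ind (Xp D.s D.l (k + 1) - D.q) (Xp D.s D.l (k + 1)) ξ
            else 0))
      + tm n e D.s k *
        ((if D.w - Yp D.l (k + 1) = t then
            ind (Xp D.s D.l D.m - Xp D.s D.l (k + 1)) (Xp D.s D.l D.m - Xp D.s D.l (k + 1) + D.p) ξ
            else 0)
        + (if D.w - Yp D.r (k + 1) = t then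
            ind (Xp D.s D.r D.m - Xp D.s D.r (k + 1)) (Xp D.s D.r D.m - Xp D.s D.r (k + 1) + D.q) ξ
            else 0))) ≤ F D n e ξ t := by
    unfold F
    refine Finset.single_le_sum (f := fun k => (tp n e D.s k *
        ((if Yp D.r (k + 1) = t then ind (Xp D.s D.r (k + 1) - D.p) (Xp D.s D.r (k + 1)) ξ else 0)
        + (if Yp D.l (k + 1) = t then ind (Xp D.s D.l (k + 1) - D.q) (Xp D.s D.l (k + 1)) ξ
            else 0))
      + tm n e D.s k *
        ((if D.w - Yp D.l (k + 1) = t then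
            ind (Xp D.s D.l D.m - Xp D.s D.l (k + 1)) (Xp D.s D.l D.m - Xp D.s D.l (k + 1) + D.p) ξ
            else 0)
        + (if D.w - Yp D.r (k + 1) = t then
            ind (Xp D.s D.r D.m - Xp D.s D.r (k + 1)) (Xp D.s D.r D.m - Xp D.s D.r (k + 1) + D.q) ξ
            else 0)))) (fun k hk => ?_) (Finset.mem_range.2 hk)
    obtain ⟨h1, h2⟩ := hT k (Finset.mem_range.1 hk)
    exact add_nonneg (mul_nonneg h1 (add_nonneg (hite _ _ _) (hite _ _ _)))
      (mul_nonneg h2 (add_nonneg (hite _ _ _) (hite _ _ _)))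
  obtain ⟨h1, h2⟩ := hT k hk
  refine ⟨fun h => ?_, fun h => ?_, fun h => ?_, fun h => ?_⟩
  · refine le_trans ?_ hle
    rw [if_pos h]
    have a1 := mul_nonneg h1 (hite (Yp D.l (k + 1) = t) (Xp D.s D.l (k + 1) - D.q)
      (Xp D.s D.l (k + 1)))
    have a2 := mul_nonneg h2 (add_nonneg (hite (D.w - Yp D.l (k + 1) = t)
      (Xp D.s D.l D.m - Xp D.s D.l (k + 1)) (Xp D.s D.l D.m - Xp D.s D.l (k + 1) + D.p))
      (hite (D.w - Yp D.r (k + 1) = t)
      (Xp D.s D.r D.m - Xp D.s D.r (k + 1)) (Xp D.s D.r D.m - Xp D.s D.r (k + 1) + D.q)))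
    rw [mul_add (tp n e D.s k)]
    linarith
  · refine le_trans ?_ hle
    rw [if_pos h]
    have a1 := mul_nonneg h1 (hite (Yp D.r (k + 1) = t) (Xp D.s D.r (k + 1) - D.p)
      (Xp D.s D.r (k + 1)))
    have a2 := mul_nonneg h2 (add_nonneg (hite (D.w - Yp D.l (k + 1) = t)
      (Xp D.s D.l D.m - Xp D.s D.l (k + 1)) (Xp D.s D.l D.m - Xp D.s D.l (k + 1) + D.p))
      (hite (D.w - Yp D.r (k + 1) = t)
      (Xp D.s D.r D.m - Xp D.s D.r (k + 1)) (Xp D.s D.r D.m - Xp D.s D.r (k + 1) + D.q)))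
    rw [mul_add (tp n e D.s k)]
    linarith
  · refine le_trans ?_ hle
    rw [if_pos h]
    have a1 := mul_nonneg h1 (add_nonneg (hite (Yp D.r (k + 1) = t) (Xp D.s D.r (k + 1) - D.p)
      (Xp D.s D.r (k + 1))) (hite (Yp D.l (k + 1) = t) (Xp D.s D.l (k + 1) - D.q)
      (Xp D.s D.l (k + 1))))
    have a2 := mul_nonneg h2 (hite (D.w - Yp D.r (k + 1) = t)
      (Xp D.s D.r D.m - Xp D.s D.r (k + 1)) (Xp D.s D.r D.m - Xp D.s D.r (k + 1) + D.q))
    rw [mul_add (tm n e D.s k)]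
    linarith
  · refine le_trans ?_ hle
    rw [if_pos h]
    have a1 := mul_nonneg h1 (add_nonneg (hite (Yp D.r (k + 1) = t) (Xp D.s D.r (k + 1) - D.p)
      (Xp D.s D.r (k + 1))) (hite (Yp D.l (k + 1) = t) (Xp D.s D.l (k + 1) - D.q)
      (Xp D.s D.l (k + 1))))
    have a2 := mul_nonneg h2 (hite (D.w - Yp D.l (k + 1) = t)
      (Xp D.s D.l D.m - Xp D.s D.l (k + 1)) (Xp D.s D.l D.m - Xp D.s D.l (k + 1) + D.p))
    rw [mul_add (tm n e D.s k)]
    linarith

end ZFR

open ZFR in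
theorem specZFR : SpecZFR := by
  intro D n e ok lp he hpq hden i j hij hjm hri hli hrj hlj
  have him : i < D.m - 1 := by omega
  have hs : D.s i < D.s (i + 1) := ok.hs _ _ (Nat.lt_succ_self i) (by omega)
  obtain ⟨r1, r2⟩ := yp_mem ok.hr hij hjm hri hrj
  obtain ⟨l1, l2⟩ := yp_mem ok.hl hij hjm hli hlj
  rw [ok.hrw] at r2
  rw [ok.hlw] at l2
  have hsum : tp n e D.s i + tm n e D.s i = 2 * (e * (D.s (i + 1) - D.s i)) := by
    unfold tp tm
    ring
  have hpos : 0 < e * (D.s (i + 1) - D.s i) := mul_pos he (by linarith)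
  have hfin : tp n e D.s i ≤ 0 → tm n e D.s i ≤ 0 → False := by
    intro h1 h2
    linarith
  rcases hpq with hp | hq
  · refine hfin ?_ ?_
    · obtain ⟨ξ, hξ, hF⟩ := hden (Yp D.r (i + 1)) r1 r2 (Xp D.s D.r (i + 1) - D.p)
        (Xp D.s D.r (i + 1)) (by linarith)
      have h1 := (F_ge D n e ok lp ξ (Yp D.r (i + 1)) i him).1 rfl
      rw [ind_one hξ, mul_one] at h1
      have h2 : F D n e ξ (Yp D.r (i + 1)) = 0 := hF
      linarith
    · obtain ⟨ξ, hξ, hF⟩ := hden (D.w - Yp D.l (i + 1)) (by linarith) (by linarith)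
        (Xp D.s D.l D.m - Xp D.s D.l (i + 1)) (Xp D.s D.l D.m - Xp D.s D.l (i + 1) + D.p)
        (by linarith)
      have h1 := (F_ge D n e ok lp ξ (D.w - Yp D.l (i + 1)) i him).2.2.1 rfl
      rw [ind_one hξ, mul_one] at h1
      have h2 : F D n e ξ (D.w - Yp D.l (i + 1)) = 0 := hF
      linarith
  · refine hfin ?_ ?_
    · obtain ⟨ξ, hξ, hF⟩ := hden (Yp D.l (i + 1)) l1 l2 (Xp D.s D.l (i + 1) - D.q)
        (Xp D.s D.l (i + 1)) (by linarith)
      have h1 := (F_ge D n e ok lp ξ (Yp D.l (i + 1)) i him).2.1 rfl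
      rw [ind_one hξ, mul_one] at h1
      have h2 : F D n e ξ (Yp D.l (i + 1)) = 0 := hF
      linarith
    · obtain ⟨ξ, hξ, hF⟩ := hden (D.w - Yp D.r (i + 1)) (by linarith) (by linarith)
        (Xp D.s D.r D.m - Xp D.s D.r (i + 1)) (Xp D.s D.r D.m - Xp D.s D.r (i + 1) + D.q)
        (by linarith)
      have h1 := (F_ge D n e ok lp ξ (D.w - Yp D.r (i + 1)) i him).2.2.2 rfl
      rw [ind_one hξ, mul_one] at h1
      have h2 : F D n e ξ (D.w - Yp D.r (i + 1)) = 0 := hF
      linarith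

end Pool.MP671
end
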