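import Pool.Agent.Lib.MP_671ac3_gt.Spec2
import Pool.Agent.Lib.MP_671ac3_gt.CV2
import Pool.Agent.Lib.MP_671ac3_gt.All
import Pool.Agent.Lib.MP_671ac3_gt.NTR
import Pool.Agent.Lib.MP_671ac3_gt.SP2
import Pool.Agent.Lib.MP_671ac3_gt.MR2
import Pool.Agent.Lib.MP_671ac3_gt.CS2
import Pool.Agent.Lib.MP_671ac3_gt.CHZ
import Pool.Agent.Lib.MP_671ac3_gt.ZFR
import Pool.Agent.Lib.MP_671ac3_gt.FLC
import Pool.Agent.Lib.MP_671ac3_gt.AKN

section
/-!
# MP_671ac3_gt : module CE2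
-/
namespace Pool.MP671

open MeasureTheory

namespace CE2

open CSE

theorem first (hCV2 : SpecCV2) (D D' : Data) (n n' : ℝ → ℝ) (e e' : ℝ) (h : SG D D' n n' e e')
    (hVR : ∀ t, 0 < t → t < D.w → VR D' n' e' t = VR D n e t)
    (M i j₀ : ℕ) (hM : M < D.m) (htl : ∀ j, M < j → j < D.m → D'.r j = D.r j)
    (hne : D'.r M ≠ D.r M) (hiM : i ≤ M) (hri : 0 < D.r i) (hz : ∀ j, i < j → j ≤ M → D.r j = 0)
    (hj : j₀ < i) (hrj : 0 < D.r j₀) : tp n e D.s (i - 1) = 0 := by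
  have hs : Inc D.m D.s := h.ok.hs
  have hr : ∀ j, j < D.m → 0 ≤ D.r j := h.ok.hr
  have hmm := h.mate.hm
  have hss := h.mate.hs
  have hww := h.mate.hw
  have e1 : i - 1 + 1 = i := by omega
  rcases (tp_nonneg h.lp (hs _ _ (by omega : i - 1 < i - 1 + 1) (by omega))).lt_or_eq with htp | htp
  swap
  · exact htp.symm
  exfalso
  -- equal end points
  have hYm : Yp D'.r D.m = Yp D.r D.m := by
    have a1 := h.ok.hrw
    have a2 := h.ok'.hrw
    rw [hmm] at a2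
    rw [a1, a2, hww]
  have hXm : Xp D.s D'.r D.m = Xp D.s D.r D.m := by
    have a1 := h.ok.hcl
    have a2 := h.ok'.hcl
    rw [hmm, hss, h.q0'] at a2
    rw [h.q0] at a1
    have a3 := h.mate.hpq
    rw [h.q0, h.q0'] at a3
    have a4 : Xp D.s D'.r D.m + Xp D.s D'.l D.m = Xp D.s D.r D.m + Xp D.s D.l D.m := by
      unfold Xp
      rw [← Finset.sum_add_distrib, ← Finset.sum_add_distrib]
      refine Finset.sum_congr rfl fun j hj => ?_
      rw [← add_mul, ← add_mul, h.mate.hrl j (Finset.mem_range.1 hj)]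
    linarith
  have hYT := yp_tail htl hYm hM
  have hXT := xp_tail htl hXm hM
  have hT1 := yp_zero hiM hz
  have hX1 := xp_zero (s := D.s) hiM hz
  -- the height `t`
  have ht0 : 0 < Yp D.r i := by
    have a1 := yp_mono hr (by omega : j₀ + 1 ≤ i) (by omega)
    rw [yp_succ] at a1
    have a2 := yp_mono hr (Nat.zero_le j₀) (by omega)
    have a3 : Yp D.r 0 = 0 := by simp [Yp]
    linarith
  have htw : Yp D.r i < D.w := by
    have a1 := yp_mono hr (by omega : i + 1 ≤ D.m) le_rfl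
    rw [yp_succ, h.ok.hrw] at a1
    linarith
  have htT : Yp D.r i < Yp D'.r (M + 1) := by
    rw [hYT, hT1]
    linarith
  obtain ⟨i', b1, b2, b3, b4, b5, b6⟩ := step h.ok' hmm h.cx' h.lp h.lp' hs
    (fun t h1 h2 => (hVR t h1 h2).symm) hM (by omega) (by omega) ht0 htw htT htp
  have hr' : ∀ j, j < D'.m → 0 ≤ D'.r j := h.ok'.hr
  have hT2 := yp_zero b2 b4
  have hX2 := xp_zero (s := D.s) b2 b4
  -- the height `t'`
  have ht0' : 0 < Yp D'.r i' := by linarith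
  have htw' : Yp D'.r i' < D'.w := by
    have a1 := yp_mono hr' (by omega : i' + 1 ≤ D'.m) le_rfl
    rw [yp_succ, h.ok'.hrw] at a1
    linarith
  have htT' : Yp D'.r i' < Yp D.r (M + 1) := by
    rw [← hYT, hT2]
    linarith
  obtain ⟨i'', c1, c2, c3, c4, c5, c6⟩ := step (D := D') (D' := D) h.ok hmm.symm h.cx h.lp' h.lp
    h.ok'.hs (fun t h1 h2 => hVR t h1 (by rw [← hww]; exact h2)) (by omega) b1 (by omega) ht0' htw'
    htT' b6
  have hii : i'' = i := by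
    rcases lt_trichotomy i'' i with h1 | h1 | h1
    · have := c4 i h1 hiM
      linarith
    · exact h1
    · have := hz i'' h1 c2
      linarith
  subst hii
  have htt : Yp D.r i'' = Yp D'.r i' := le_antisymm b5 c5
  have hrr : D.r i'' = D'.r i' := by
    rw [hT1, hT2] at hYT
    linarith
  have hpos := (hCV2 D D' n n' e e' h (Yp D.r i'') ht0 htw).2
    (vr_pos h.lp hs (by omega) (by rw [e1]) htp) (i'' - 1) (i' - 1) (by omega) (by omega)
    (by rw [e1]) (by rw [Nat.sub_add_cancel b1]; exact htt.symm)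
  rw [e1, Nat.sub_add_cancel b1] at hpos
  rw [hX1, hX2, hpos, ← hrr] at hXT
  have hsi : D.s i'' = D.s i' := by
    have a1 : D.r i'' * D.s i' = D.r i'' * D.s i'' := by linarith
    exact (mul_left_cancel₀ hri.ne' a1).symm
  have hii : i'' = i' := by
    rcases lt_trichotomy i'' i' with h1 | h1 | h1
    · have := hs _ _ h1 (by omega)
      linarith
    · exact h1
    · have := hs _ _ h1 (by omega)
      linarith
  subst hii
  apply hne
  rcases Nat.lt_or_ge i'' M with h1 | h1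
  · rw [hz M h1 le_rfl, b4 M h1 le_rfl]
  · have : M = i'' := by omega
    rw [this]
    exact hrr.symm

end CE2

theorem specCE2 (hCV2 : SpecCV2) (hMIR : SpecMIR) (hMR2 : SpecMR2) : SpecCE2 := by
  intro D D' n n' e e' h
  refine ⟨fun M i j₀ hM htl hne hiM hri hz hj hrj => CE2.first hCV2 D D' n n' e e' h
    (fun t h1 h2 => (hCV2 D D' n n' e e' h t h1 h2).1.symm) M i j₀ hM htl hne hiM hri hz hj hrj,
    ?_⟩
  intro M i j₀ hM htl hne hiM him hli hz hj hjm hlj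
  have h' := hMR2.1 D D' n n' e e' h
  have hmm := h.mate.hm
  have key := CE2.first hCV2 (mir D) (mir D') _ _ e e' h'
    (fun t h1 h2 => (hCV2 _ _ _ _ _ _ h' t h1 h2).1.symm) (D.m - 1 - M) (D.m - 1 - i)
    (D.m - 1 - j₀) (show D.m - 1 - M < D.m by omega)
    (fun j h1 h2 => by
      have h3 : j < D.m := h2
      show D'.l (D'.m - 1 - j) = D.l (D.m - 1 - j)
      rw [hmm]
      exact htl _ (by omega))
    (by
      show D'.l (D'.m - 1 - (D.m - 1 - M)) ≠ D.l (D.m - 1 - (D.m - 1 - M))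
      rw [hmm, show D.m - 1 - (D.m - 1 - M) = M by omega]
      exact hne)
    (by omega)
    (by
      show 0 < D.l (D.m - 1 - (D.m - 1 - i))
      rw [show D.m - 1 - (D.m - 1 - i) = i by omega]
      exact hli)
    (fun j h1 h2 => by
      show D.l (D.m - 1 - j) = 0
      exact hz _ (by omega) (by omega))
    (by omega)
    (by
      show 0 < D.l (D.m - 1 - (D.m - 1 - j₀))
      rw [show D.m - 1 - (D.m - 1 - j₀) = j₀ by omega]
      exact hlj)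
  rw [(hMIR.1 D h.ok).2.2.2.1 n e (D.m - 1 - i - 1) (by omega)] at key
  rw [show D.m - 2 - (D.m - 1 - i - 1) = i by omega] at key
  exact key

end Pool.MP671
end

section
/-!
# MP_671ac3_gt : the specifications of the second part put together
-/
namespace Pool.MP671

theorem sNUL : ∀ φ : Set Pl → ℝ, IsPhi φ → ∀ u v : Pl, nrm φ (u + v) ≤ nrm φ u + nrm φ v :=
  specNUL specSEG sREP specFRM
theorem sNLA (φ : Set Pl → ℝ) (hφ : IsPhi φ) (a b : ℝ) : ee φ * |a - b| ≤ nn φ a + nn φ b :=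
  nul_abs specSEG sREP φ hφ a b
theorem sNZB : SpecNZB := specNZB specSEG sREP
theorem sSP2 : SpecSP2 := specSP2
theorem sMIX : SpecMIX := specMIX specSEG sREP sBOD specCHA
theorem sCE2 : SpecCE2 := specCE2 specCV2 specMIR specMR2
theorem sCS2 : SpecCS2 := specCS2 specCV2 sCE2 specMIR specMR2
theorem sCHZ : SpecCHZ := specCHZ specTIL
theorem sCDN : SpecCDN := specCDN sCHZ specMIR specMR2
theorem sFLC : SpecFLC := specFLC specCHA sBOD
theorem sAF1 : SpecAF1 := specAF1 sBOD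
theorem sAFB : SpecAFB := specAFB specXX sBOD
theorem sAKN : SpecAKN := specAKN specXX specKL sKNB specCHN specCHA sBOD
theorem sAFQ : SpecAFQ := specAFQ sAFB sAKN

end Pool.MP671
end

section
/-!
# MP_671ac3_gt : assembly of the theorem for all valuations, common part
-/
namespace Pool.MP671

open MeasureTheory

/-- the conclusion -/
def Con (K H : Set Pl) : Prop := ∃ t, H = tr t K ∨ H = tr t (refl K)

theorem Con.symm {K H : Set Pl} (h : Con K H) : Con H K := by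
  obtain ⟨t, rfl | rfl⟩ := h
  · exact ⟨-t, Or.inl (by rw [tr_tr, add_neg_cancel, tr_zero])⟩
  · refine ⟨t, Or.inr ?_⟩
    rw [refl_tr, refl_refl, tr_tr, neg_add_cancel, tr_zero]

/-! ## Linear algebra -/

theorem one_ne' : ((1, 0) : Pl) ≠ 0 := by
  intro h
  have : (1 : ℝ) = 0 := congrArg Prod.fst h
  exact one_ne_zero this

theorem sq_pos' (v : Pl) (hv : v ≠ 0) : 0 < v.1 ^ 2 + v.2 ^ 2 := by
  have h1 := sq_nonneg v.1
  have h2 := sq_nonneg v.2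
  rcases (add_nonneg h1 h2).lt_or_eq with h | h
  · exact h
  · exfalso
    apply hv
    have a1 : v.1 ^ 2 = 0 := by linarith
    have a2 : v.2 ^ 2 = 0 := by linarith
    ext
    · simpa using a1
    · simpa using a2

theorem mul_surj' (v : Pl) (hv : v ≠ 0) (x : Pl) :
    ∃ a b : ℝ, x = mul v (a, b) ∧ crs v x = b * (v.1 ^ 2 + v.2 ^ 2) := by
  have h := (sq_pos' v hv).ne'
  refine ⟨(v.1 * x.1 + v.2 * x.2) / (v.1 ^ 2 + v.2 ^ 2),
    (v.1 * x.2 - v.2 * x.1) / (v.1 ^ 2 + v.2 ^ 2), ?_, ?_⟩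
  · ext
    · simp only [mul]
      field_simp
      ring
    · simp only [mul]
      field_simp
      ring
  · rw [div_mul_cancel₀ _ h]
    rfl

theorem mul_smul' (v : Pl) (c a b : ℝ) : mul v (c * a, c * b) = c • mul v (a, b) := by
  ext
  · simp only [mul, Prod.smul_fst, smul_eq_mul]
    ring
  · simp only [mul, Prod.smul_snd, smul_eq_mul]
    ring

theorem crs_mul (v : Pl) (a b : ℝ) : crs v (mul v (a, b)) = b * (v.1 ^ 2 + v.2 ^ 2) := by
  simp only [crs, mul]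
  ring

theorem crs_smul_smul (x : Pl) (c d : ℝ) : crs (c • x) (d • x) = 0 := by
  simp only [crs, Prod.smul_fst, Prod.smul_snd, smul_eq_mul]
  ring

/-! ## Norms -/

theorem nrm_smul' {φ : Set Pl → ℝ} (hφ : IsPhi φ) (t : ℝ) (v : Pl) :
    nrm φ (t • v) = |t| * nrm φ v := (specSEG φ hφ).2.1 t v

theorem nrm_neg' {φ : Set Pl → ℝ} (hφ : IsPhi φ) (v : Pl) : nrm φ (-v) = nrm φ v := by
  have := nrm_smul' hφ (-1) v
  simpa using this

theorem nrm_nn' {φ : Set Pl → ℝ} (hφ : IsPhi φ) (v : Pl) : 0 ≤ nrm φ v := (specSEG φ hφ).2.2 v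

theorem ee_fr (v : Pl) (hv : v ≠ 0) (φ : Set Pl → ℝ) : ee (frφ v φ) = nrm φ v := by
  obtain ⟨-, -, g3, -⟩ := specFRM v hv
  show nrm (frφ v φ) (1, 0) = _
  rw [g3, mul_one']

theorem nn_fr (v : Pl) (hv : v ≠ 0) (φ : Set Pl → ℝ) (s : ℝ) :
    nn (frφ v φ) s = nrm φ (mul v (s, 1)) := by
  obtain ⟨-, -, g3, -⟩ := specFRM v hv
  show nrm (frφ v φ) (s, 1) = _
  rw [g3]

theorem phi_fr (v : Pl) (hv : v ≠ 0) {φ : Set Pl → ℝ} (hφ : IsPhi φ) : IsPhi (frφ v φ) :=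
  (specFRM v hv).1 φ hφ

/-- two independent null directions -/
theorem nrm_zero {φ : Set Pl → ℝ} (hφ : IsPhi φ) (v : Pl) (hv : v ≠ 0) (s : ℝ)
    (h0 : nrm φ v = 0) (h1 : nrm φ (mul v (s, 1)) = 0) (x : Pl) : nrm φ x = 0 := by
  obtain ⟨a, b, rfl, -⟩ := mul_surj' v hv x
  have e : mul v (a, b) = (a - b * s) • v + b • mul v (s, 1) := by
    ext
    · simp only [mul, Prod.smul_fst, smul_eq_mul, Prod.fst_add]
      ring
    · simp only [mul, Prod.smul_snd, smul_eq_mul, Prod.snd_add]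
      ring
  have h := sNUL φ hφ ((a - b * s) • v) (b • mul v (s, 1))
  rw [← e, nrm_smul' hφ, nrm_smul' hφ, h0, h1] at h
  exact le_antisymm (by linarith) (nrm_nn' hφ _)

/-- at most one null slope -/
theorem one_null {φ : Set Pl → ℝ} (hφ : IsPhi φ) (h0 : 0 < ee φ) (a b : ℝ) (ha : nn φ a = 0)
    (hb : nn φ b = 0) : a = b := by
  have h := sNLA φ hφ a b
  rw [ha, hb] at h
  have h2 : ee φ * |a - b| = 0 := le_antisymm (by linarith) (by positivity)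
  rcases mul_eq_zero.1 h2 with h | h
  · exact absurd h h0.ne'
  · have := abs_eq_zero.1 h
    linarith

theorem nn_null {φ : Set Pl → ℝ} (hφ : IsPhi φ) (a : ℝ) (ha : nn φ a = 0) :
    nn φ = fun x => ee φ * |x - a| := by
  funext x
  have h := sNLA φ hφ x a
  have h2 := (sNPR φ hφ).2 x a
  rw [ha, sub_zero] at h2
  rw [ha, add_zero] at h
  exact le_antisymm ((le_abs_self _).trans h2) h

/-! ## Frames -/

theorem mate_symm' {D D' : Data} (h : Mate D D') : Mate D' D where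
  hm := h.hm.symm
  hs := h.hs.symm
  hw := h.hw.symm
  hpq := h.hpq.symm
  hrl := fun j hj => (h.hrl j (by rw [← h.hm]; exact hj)).symm
  hpos := fun j hj => by
    have hj' : j < D.m := by rw [← h.hm]; exact hj
    rw [h.hrl j hj']
    exact h.hpos j hj'

theorem mate_flip' {D D' : Data} (h : Mate D D') : Mate D D'.flip :=
  ⟨h.hm, h.hs, h.hw, by show D'.q + D'.p = _; rw [add_comm]; exact h.hpq,
      fun j hj => by show D'.l j + D'.r j = _; rw [add_comm]; exact h.hrl j hj, h.hpos⟩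

theorem Fram.symm {K H : Set Pl} {v : Pl} {D D' : Data} {c c' : Pl} (h : Fram K H v D D' c c') :
    Fram H K v D' D c' c where
  ok := h.ok'
  ok' := h.ok
  mate := mate_symm' h.mate
  hK := h.hH
  hH := h.hK
  p := h.p'
  q := h.q'
  p' := h.p
  q' := h.q
  l := fun j hj => by rw [h.mate.hs]; exact h.l' j (by rw [← h.mate.hm]; exact hj)
  r := fun j hj => by rw [h.mate.hs]; exact h.r' j (by rw [← h.mate.hm]; exact hj)
  l' := fun j hj => by rw [h.mate.hs]; exact h.l j (by rw [← h.mate.hm]; exact hj)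
  r' := fun j hj => by rw [h.mate.hs]; exact h.r j (by rw [← h.mate.hm]; exact hj)

/-- `u` is the direction of an edge of `K` -/
def Edg (K : Set Pl) (u : Pl) : Prop := 0 < fl K u ∨ 0 < fl K (-u)

/-- the context -/
structure Ctx (K H : Set Pl) (φ ψ : Set Pl → ℝ) : Prop where
  hφ : IsPhi φ
  hψ : IsPhi ψ
  FR : ∀ v : Pl, v ≠ 0 → ∃ D D' c c', Fram K H v D D' c c'
  hcov : ∀ x, cov φ K x = cov ψ H x

theorem Ctx.symm {K H : Set Pl} {φ ψ : Set Pl → ℝ} (h : Ctx K H φ ψ) : Ctx H K ψ φ where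
  hφ := h.hψ
  hψ := h.hφ
  FR := fun v hv => by
    obtain ⟨D, D', c, c', hf⟩ := h.FR v hv
    exact ⟨D', D, c', c, hf.symm⟩
  hcov := fun x => (h.hcov x).symm

theorem Fram.edg_j {K H : Set Pl} {v : Pl} {D D' : Data} {c c' : Pl} (h : Fram K H v D D' c c')
    (j : ℕ) (hj : j < D.m) : Edg K (mul v (D.s j, 1)) := by
  unfold Edg
  rw [h.l j hj, h.r j hj]
  have := h.mate.hpos j hj
  by_contra hcon
  push Not at hcon
  linarith [hcon.1, hcon.2]

theorem Ctx.edg_iff {K H : Set Pl} {φ ψ : Set Pl → ℝ} (h : Ctx K H φ ψ) (u : Pl) (hu : u ≠ 0) :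
    Edg K u → Edg H u := by
  obtain ⟨D, D', c, c', hf⟩ := h.FR u hu
  unfold Edg
  rw [hf.p, hf.q, hf.p', hf.q']
  have h1 := hf.mate.hpq
  have h2 := hf.ok.hp
  have h3 := hf.ok.hq
  intro hh
  by_contra hcon
  push Not at hcon
  rcases hh with hh | hh <;> linarith [hcon.1, hcon.2]

theorem Ctx.covb {K H : Set Pl} {φ ψ : Set Pl → ℝ} (h : Ctx K H φ ψ) (v : Pl) (hv : v ≠ 0)
    (D D' : Data) (c c' : Pl) (hf : Fram K H v D D' c c') (x : Pl) :
    cov (frφ v φ) (body D) x = cov (frφ v ψ) (body D') x := by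
  obtain ⟨g1, g2, -⟩ := specFRM v hv
  have e1 := (specRFL.1 (frφ v φ) (g1 φ h.hφ) (body D)
    (sBOD D hf.ok).2.2.2.2.2.2.2.2.2.2 x c).1
  have e2 := (specRFL.1 (frφ v ψ) (g1 ψ h.hψ) (body D')
    (sBOD D' hf.ok').2.2.2.2.2.2.2.2.2.2 x c').1
  rw [← e1, ← e2, ← hf.hK, ← hf.hH, g2, g2, h.hcov]

theorem Ctx.covb' {K H : Set Pl} {φ ψ : Set Pl → ℝ} (h : Ctx K H φ ψ) (v : Pl) (hv : v ≠ 0)
    (D D' : Data) (c c' : Pl) (hf : Fram K H v D D' c c') (x : Pl) :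
    cov (frφ v φ) (body D) x = cov (frφ v ψ) (body D'.flip) x := by
  obtain ⟨g1, -⟩ := specFRM v hv
  obtain ⟨-, d, hd⟩ := specRFL.2.2.1 D' hf.ok'
  have hb := (sBOD D' hf.ok').2.2.2.2.2.2.2.2.2.2
  have e1 := (specRFL.1 (frφ v ψ) (g1 ψ h.hψ) (body D') hb x d).2
  have e2 := (specRFL.1 (frφ v ψ) (g1 ψ h.hψ) (refl (body D')) (cc_refl hb) x d).1
  rw [hd, e2, e1]
  exact h.covb v hv D D' c c' hf x

theorem Fram.cl1 {K H : Set Pl} {v : Pl} {D D' : Data} {c c' : Pl} (hf : Fram K H v D D' c c')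
    (hv : v ≠ 0) (hq : D'.q = D.q) (hrl : ∀ j, j < D.m → D'.r j = D.r j ∧ D'.l j = D.l j) :
    Con K H := by
  obtain ⟨-, -, -, -, -, -, -, -, g9, -⟩ := specFRM v hv
  have hb := specRFL.2.2.2 D D' hf.mate.hm hf.mate.hs hf.mate.hw hq hrl
  refine ⟨mul v (c' - c), Or.inl (g9 K H (c' - c) ?_)⟩
  rw [hf.hH, hf.hK, hb, tr_tr, add_sub_cancel]

theorem Fram.cl2 {K H : Set Pl} {v : Pl} {D D' : Data} {c c' : Pl} (hf : Fram K H v D D' c c')
    (hv : v ≠ 0) (hq : D'.p = D.q) (hrl : ∀ j, j < D.m → D'.l j = D.r j ∧ D'.r j = D.l j) :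
    Con K H := by
  obtain ⟨-, -, -, -, -, -, -, -, -, g10⟩ := specFRM v hv
  have hb := specRFL.2.2.2 D D'.flip hf.mate.hm hf.mate.hs hf.mate.hw hq hrl
  obtain ⟨-, d, hd⟩ := specRFL.2.2.1 D' hf.ok'
  rw [hd] at hb
  have e1 : body D' = tr d (refl (body D)) := by
    rw [← hb, refl_tr, refl_refl, tr_tr, neg_add_cancel, tr_zero]
  refine ⟨mul v (c + d + c'), Or.inr (g10 K H (c + d + c') ?_)⟩
  rw [hf.hH, hf.hK, e1, refl_tr, tr_tr, tr_tr]
  congr 1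
  abel

/-- the index of a direction -/
theorem dir_index {K : Set Pl} {v : Pl} (hv : v ≠ 0) {D : Data} (ok : D.Ok)
    (hK : ∃ c, fr v K = tr c (body D)) (u : Pl) (hc : crs v u ≠ 0) (hE : Edg K u) :
    ∃ j, j < D.m ∧ ∃ c : ℝ, c ≠ 0 ∧ u = c • mul v (D.s j, 1) := by
  obtain ⟨a, b, rfl, hb⟩ := mul_surj' v hv u
  have hb0 : b ≠ 0 := by
    rintro rfl
    apply hc
    rw [hb, zero_mul]
  set w := mul v (a / b, 1) with hw
  have e : mul v (a, b) = b • w := by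
    rw [hw, ← mul_smul']
    congr 1
    ext
    · simp only []
      field_simp
    · simp
  have hE' : 0 < fl K w ∨ 0 < fl K (-w) := by
    unfold Edg at hE
    rw [e] at hE
    rcases lt_or_gt_of_ne hb0 with h | h
    · have e1 : b • w = (-b) • (-w) := by simp
      have e2 : -(b • w) = (-b) • w := by simp
      rw [e2, e1, sFLC.2 K (-w) (-b) (by linarith), sFLC.2 K w (-b) (by linarith)] at hE
      exact hE.symm
    · have e2 : -(b • w) = b • (-w) := by simp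
      rw [e2, sFLC.2 K w b h, sFLC.2 K (-w) b h] at hE
      exact hE
  obtain ⟨c, hc⟩ := hK
  obtain ⟨-, -, -, -, -, -, f7, -, -, -⟩ := specFRM v hv
  have kK : ∀ u, fl K (mul v u) = fl (body D) u := fun u => by rw [← f7, hc, specRFL.2.1]
  rw [hw, kK, ← mul_neg_pair, kK] at hE'
  obtain ⟨j, hj, hs⟩ := sFLC.1 D ok (a / b) hE'
  exact ⟨j, hj, b, hb0, by rw [hs]; exact e⟩

/-- a frame in which the lengths of the horizontal edges agree -/
structure Fr2 (K H : Set Pl) (G : Pl → Prop) (v : Pl) (D D' : Data) (n n' : ℝ → ℝ)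
    (e e' : ℝ) : Prop where
  ok : D.Ok
  ok' : D'.Ok
  mate : Mate D D'
  hK : ∃ c, fr v K = tr c (body D)
  p : fl K v = D.p
  q : fl K (-v) = D.q
  l : ∀ j, j < D.m → fl K (mul v (D.s j, 1)) = D.l j
  r : ∀ j, j < D.m → fl K (-mul v (D.s j, 1)) = D.r j
  hp : D'.p = D.p
  hq : D'.q = D.q
  e0 : 0 < e
  e0' : 0 < e'
  nn : ∀ x, 0 ≤ n x
  nn' : ∀ x, 0 ≤ n' x
  cx : ConvexOn ℝ Set.univ n
  cx' : ConvexOn ℝ Set.univ n'
  lp : ∀ a b, |n a - n b| ≤ e * |a - b|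
  lp' : ∀ a b, |n' a - n' b| ≤ e' * |a - b|
  pr : ∀ j, j < D.m → G (mul v (D.s j, 1)) →
    (D'.r j = D.r j ∧ D'.l j = D.l j) ∨ (D'.r j = D.l j ∧ D'.l j = D.r j)
  gd : ∀ j, j < D.m → 0 < n (D.s j) → 0 < n' (D.s j) → G (mul v (D.s j, 1))
  ee : 0 < D.p → 0 < D.q → e = e'
  den : ∀ t, 0 < t → t < D.w → Dense (fun ξ => F D n e ξ t) (fun ξ => F D' n' e' ξ t)
  con : (∀ j, j < D.m → D'.r j = D.r j ∧ D'.l j = D.l j) → Con K H

variable {K H : Set Pl} {G : Pl → Prop} {v : Pl} {D D' : Data} {n n' : ℝ → ℝ} {e e' : ℝ}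

theorem Fr2.edg_j (h : Fr2 K H G v D D' n n' e e') (j : ℕ) (hj : j < D.m) :
    Edg K (mul v (D.s j, 1)) := by
  unfold Edg
  rw [h.l j hj, h.r j hj]
  have := h.mate.hpos j hj
  by_contra hcon
  push Not at hcon
  linarith [hcon.1, hcon.2]

theorem Fr2.caseS (h : Fr2 K H G v D D' n n' e e') (hp : 0 < D.p) (hq : D.q = 0) : Con K H :=
  h.con (sCS2 D D' n n' e e' ⟨h.ok, h.ok', h.mate, hq, by rw [h.hq, hq], hp, h.e0, h.e0', h.nn,
    h.nn', h.cx, h.cx', h.lp, h.lp', fun j hj a b => h.pr j hj (h.gd j hj a b), h.den⟩)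

theorem Fr2.den2 (h : Fr2 K H G v D D' n n' e e') (hn : ∀ j, j < D.m → n (D.s j) = n' (D.s j))
    (he : e = e') (t : ℝ) (ht : 0 < t) (htw : t < D.w) :
    Dense (fun ξ => F D n e ξ t) (fun ξ => F D' n e ξ t) := by
  intro a b hab
  obtain ⟨ξ, hξ, hx⟩ := h.den t ht htw a b hab
  refine ⟨ξ, hξ, ?_⟩
  show F D n e ξ t = F D' n e ξ t
  rw [F_congr D' n n' _ ξ t (by
    intro j hj; rw [h.mate.hs]; exact hn j (by rw [← h.mate.hm]; exact hj)), he]
  rw [← he]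
  exact (hx.trans (by rw [he]))

theorem Fr2.caseD (h : Fr2 K H G v D D' n n' e e') (hq : 0 < D.q) (hlt : D.q < D.p)
    (hb : ∀ j, j < D.m → G (mul v (D.s j, 1)) ∧ 0 < D.r j ∧ 0 < D.l j)
    (hn : ∀ j, j < D.m → n (D.s j) = n' (D.s j)) : Con K H := by
  have hb' : ∀ j, j < D.m → 0 < D'.r j ∧ 0 < D'.l j := by
    intro j hj
    obtain ⟨g, a, b⟩ := hb j hj
    rcases h.pr j hj g with ⟨x, y⟩ | ⟨x, y⟩
    · rw [x, y]; exact ⟨a, b⟩
    · rw [x, y]; exact ⟨b, a⟩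
  exact h.con (sCSD D D' n e ⟨h.ok, h.ok', h.mate, hq, hlt, h.hp, h.hq, h.e0, h.cx, h.lp,
    fun j hj => ⟨(hb j hj).2.1, (hb j hj).2.2, (hb' j hj).1, (hb' j hj).2⟩,
    h.den2 hn (h.ee (hq.trans hlt) hq)⟩)

theorem inj_s (h : D.Ok) {i j : ℕ} (hi : i < D.m) (hj : j < D.m) (hs : D.s i = D.s j) : i = j := by
  rcases lt_trichotomy i j with hl | hl | hl
  · exact absurd hs (h.hs i j hl hj).ne
  · exact hl
  · exact absurd hs.symm (h.hs j i hl hi).ne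

theorem Fr2.ml (h : Fr2 K H G v D D' n n' e e') (one : ∀ a b, n a = 0 → n b = 0 → a = b)
    (one' : ∀ a b, n' a = 0 → n' b = 0 → a = b)
    (hr : ∀ j, j < D.m → 0 < n (D.s j) → 0 < n' (D.s j) → D'.r j = D.r j) : Con K H := by
  classical
  apply h.con
  have key : ∀ n : ℝ → ℝ, (∀ a b, n a = 0 → n b = 0 → a = b) →
      ∃ a, ∀ j, j < D.m → n (D.s j) = 0 → j = a := by
    intro n one
    by_cases hx : ∃ a, a < D.m ∧ n (D.s a) = 0
    · obtain ⟨a, ham, ha⟩ := hx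
      exact ⟨a, fun j hj h0 => inj_s h.ok hj ham (one _ _ h0 ha)⟩
    · exact ⟨0, fun j hj h0 => absurd ⟨j, hj, h0⟩ hx⟩
  obtain ⟨a, ha⟩ := key n one
  obtain ⟨b, hb⟩ := key n' one'
  refine specM2L.1 D D' h.ok h.ok' h.mate h.hp h.hq a b fun j hj hja hjb => hr j hj ?_ ?_
  · exact lt_of_le_of_ne (h.nn _) fun h0 => hja (ha j hj h0.symm)
  · exact lt_of_le_of_ne (h.nn' _) fun h0 => hjb (hb j hj h0.symm)

end Pool.MP671
end

section
/-!
# MP_671ac3_gt : multiples of the area; mixed case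
-/
namespace Pool.MP671

open MeasureTheory

variable {K H : Set Pl} {φ ψ : Set Pl → ℝ}

theorem area_form {φ : Set Pl → ℝ} (hφ : IsPhi φ) (h0 : ∀ v, nrm φ v = 0) :
    ∃ α : ℝ, ∀ D : Data, D.Ok → ∀ ξ t, 0 ≤ t → t ≤ D.w →
      cov φ (body D) (ξ, t) = α * Ar D ξ t := by
  obtain ⟨α, hα⟩ := sCOV φ hφ
  refine ⟨α, fun D ok ξ t ht htw => ?_⟩
  have e0 : ee φ = 0 := h0 _
  have n0 : ∀ x, nn φ x = 0 := fun x => h0 _
  rw [hα D ok ξ t ht htw, e0]
  simp only [n0, add_zero, ite_self, intervalIntegral.integral_zero, zero_mul, zero_add]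
  rfl

theorem nrm_fr0 {φ : Set Pl → ℝ} (h0 : ∀ v, nrm φ v = 0) (v : Pl) (hv : v ≠ 0) (u : Pl) :
    nrm (frφ v φ) u = 0 := by
  obtain ⟨-, -, g3, -⟩ := specFRM v hv
  rw [g3]
  exact h0 _

theorem cov_zero {φ : Set Pl → ℝ} (hφ : IsPhi φ) (hpK : 0 < φ K) (v : Pl) (hv : v ≠ 0) (D : Data)
    (ok : D.Ok) (c : Pl) (hK : fr v K = tr c (body D)) :
    0 < cov (frφ v φ) (body D) (0, 0) := by
  obtain ⟨g1, g2, -⟩ := specFRM v hv
  have e1 := (specRFL.1 (frφ v φ) (g1 φ hφ) (body D)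
    (sBOD D ok).2.2.2.2.2.2.2.2.2.2 (0, 0) c).1
  rw [← e1, ← hK, g2]
  have : mul v (0, 0) = 0 := by
    ext <;> simp [mul]
  rw [this]
  show 0 < φ (K ∩ tr 0 K)
  rw [tr_zero, Set.inter_self]
  exact hpK

theorem ar_nonneg (D : Data) (ok : D.Ok) : 0 ≤ Ar D 0 0 :=
  intervalIntegral.integral_nonneg ok.hw.le fun _ _ => le_max_left _ _

theorem alpha_pos {φ : Set Pl → ℝ} (hφ : IsPhi φ) (hpK : 0 < φ K) (v : Pl) (hv : v ≠ 0) (D : Data)
    (ok : D.Ok) (c : Pl) (hK : fr v K = tr c (body D)) (α : ℝ)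
    (hα : ∀ D : Data, D.Ok → ∀ ξ t, 0 ≤ t → t ≤ D.w →
      cov (frφ v φ) (body D) (ξ, t) = α * Ar D ξ t) : 0 < α := by
  have h := cov_zero hφ hpK v hv D ok c hK
  rw [hα D ok 0 0 le_rfl ok.hw.le] at h
  by_contra hcon
  push Not at hcon
  have := mul_nonpos_of_nonpos_of_nonneg hcon (ar_nonneg D ok)
  linarith

/-- the context of two multiples of the area -/
structure CtxA (K H : Set Pl) (φ ψ : Set Pl → ℝ) : Prop where
  ctx : Ctx K H φ ψ
  h0 : ∀ v, nrm φ v = 0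
  h0' : ∀ v, nrm ψ v = 0
  pK : 0 < φ K
  pH : 0 < ψ H

theorem CtxA.area (h : CtxA K H φ ψ) (v : Pl) (hv : v ≠ 0) :
    ∃ α β : ℝ, 0 < α ∧ 0 < β ∧
      (∀ D D' c c', Fram K H v D D' c c' → ∀ ξ t, 0 ≤ t → t ≤ D.w →
        α * Ar D ξ t = β * Ar D' ξ t ∧ α * Ar D ξ t = β * Ar D'.flip ξ t) := by
  obtain ⟨α, hα⟩ := area_form (phi_fr v hv h.ctx.hφ) (nrm_fr0 h.h0 v hv)
  obtain ⟨β, hβ⟩ := area_form (phi_fr v hv h.ctx.hψ) (nrm_fr0 h.h0' v hv)
  obtain ⟨D, D', c, c', hf⟩ := h.ctx.FR v hv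
  refine ⟨α, β, alpha_pos h.ctx.hφ h.pK v hv D hf.ok c hf.hK α hα,
    alpha_pos h.ctx.hψ h.pH v hv D' hf.ok' c' hf.hH β hβ, ?_⟩
  intro D D' c c' hf ξ t ht htw
  have htw' : t ≤ D'.w := by rw [hf.mate.hw]; exact htw
  constructor
  · rw [← hα D hf.ok ξ t ht htw, ← hβ D' hf.ok' ξ t ht htw']
    exact h.ctx.covb v hv D D' c c' hf _
  · rw [← hα D hf.ok ξ t ht htw, ← hβ D'.flip (specRFL.2.2.1 D' hf.ok').1 ξ t ht htw']
    exact h.ctx.covb' v hv D D' c c' hf _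

theorem CtxA.f1 (h : CtxA K H φ ψ) (v : Pl) (hv : v ≠ 0) :
    (fl H v = fl K v ∧ fl H (-v) = fl K (-v)) ∨ (fl H v = fl K (-v) ∧ fl H (-v) = fl K v) := by
  obtain ⟨α, β, hα, hβ, hA⟩ := h.area v hv
  obtain ⟨D, D', c, c', hf⟩ := h.ctx.FR v hv
  have := (sAF1 D D' hf.ok hf.ok' hf.mate α β hα hβ
    fun ξ t ht htw => (hA D D' c c' hf ξ t ht htw).1).1
  rw [hf.p, hf.q, hf.p', hf.q']
  exact this

theorem CtxA.pairs (h : CtxA K H φ ψ) {v : Pl} (hv : v ≠ 0)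
    {D D' : Data} {c c' : Pl} (hf : Fram K H v D D' c c') (j : ℕ) (hj : j < D.m) :
    (D'.r j = D.r j ∧ D'.l j = D.l j) ∨ (D'.r j = D.l j ∧ D'.l j = D.r j) := by
  have := h.f1 _ (mul_ne v hv (D.s j))
  rw [hf.l j hj, hf.r j hj, hf.l' j hj, hf.r' j hj] at this
  rcases this with ⟨a, b⟩ | ⟨a, b⟩
  · exact Or.inl ⟨b, a⟩
  · exact Or.inr ⟨b, a⟩

theorem CtxA.fr2 (h : CtxA K H φ ψ) (v : Pl) (hv : v ≠ 0) :
    ∃ D D' α β, Fr2 K H (fun _ => True) v D D' (fun _ => 0) (fun _ => 0) α β := by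
  obtain ⟨α, β, hα, hβ, hA⟩ := h.area v hv
  obtain ⟨D, D', c, c', hf⟩ := h.ctx.FR v hv
  obtain ⟨hF, hN⟩ := sAF1 D D' hf.ok hf.ok' hf.mate α β hα hβ
    fun ξ t ht htw => (hA D D' c c' hf ξ t ht htw).1
  have cx : ConvexOn ℝ Set.univ (fun _ : ℝ => (0 : ℝ)) := convexOn_const 0 convex_univ
  have lp : ∀ γ : ℝ, 0 < γ → ∀ a b : ℝ, |(0 : ℝ) - 0| ≤ γ * |a - b| := by
    intro γ hγ a b
    rw [sub_zero, abs_zero]
    positivity
  rcases hF with ⟨ep, eq⟩ | ⟨ep, eq⟩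
  · refine ⟨D, D', α, β, hf.ok, hf.ok', hf.mate, ⟨c, hf.hK⟩, hf.p, hf.q, hf.l, hf.r, ep, eq, hα, hβ,
      fun _ => le_rfl, fun _ => le_rfl, cx, cx, lp α hα, lp β hβ, fun j hj _ => h.pairs hv hf j hj,
      fun _ _ _ _ => trivial, hN, ?_, fun a => hf.cl1 hv eq a⟩
    exact sAFQ D D' hf.ok hf.ok' hf.mate.hw α β fun ξ t ht htw => (hA D D' c c' hf ξ t ht htw).1
  · refine ⟨D, D'.flip, α, β, hf.ok, (specRFL.2.2.1 D' hf.ok').1, mate_flip' hf.mate, ⟨c, hf.hK⟩,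
      hf.p, hf.q, hf.l, hf.r, eq, ep, hα, hβ,
      fun _ => le_rfl, fun _ => le_rfl, cx, cx, lp α hα, lp β hβ, ?_,
      fun _ _ _ _ => trivial, hN, ?_, fun a => hf.cl2 hv ep a⟩
    · intro j hj _
      rcases h.pairs hv hf j hj with ⟨x, y⟩ | ⟨x, y⟩
      · exact Or.inr ⟨y, x⟩
      · exact Or.inl ⟨y, x⟩
    · exact sAFQ D D'.flip hf.ok (specRFL.2.2.1 D' hf.ok').1 hf.mate.hw α β
        fun ξ t ht htw => (hA D D' c c' hf ξ t ht htw).2

/-- The theorem for two multiples of the area. -/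
theorem CtxA.mainA (h : CtxA K H φ ψ) : Con K H := by
  by_cases hs : ∃ v : Pl, v ≠ 0 ∧ 0 < fl K v ∧ ¬ 0 < fl K (-v)
  · obtain ⟨v, hv, hp, hq⟩ := hs
    obtain ⟨D, D', α, β, hf⟩ := h.fr2 v hv
    rw [hf.p] at hp
    rw [hf.q] at hq
    exact hf.caseS hp (le_antisymm (not_lt.1 hq) hf.ok.hq)
  · push Not at hs
    by_cases hd : ∃ v : Pl, v ≠ 0 ∧ fl K (-v) < fl K v
    · obtain ⟨v, hv, hlt⟩ := hd
      have hp : 0 < fl K v := lt_of_le_of_lt (fl_nonneg _ _) hlt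
      have hq : 0 < fl K (-v) := hs v hv hp
      obtain ⟨D, D', α, β, hf⟩ := h.fr2 v hv
      rw [hf.p, hf.q] at hlt
      rw [hf.q] at hq
      refine hf.caseD hq hlt (fun j hj => ?_) (fun _ _ => rfl)
      have hune := mul_ne v hv (D.s j)
      have hE := hf.edg_j j hj
      have h1 := hs _ hune
      have h2 := hs _ (neg_ne_zero.2 hune)
      rw [neg_neg] at h2
      unfold Edg at hE
      rw [hf.l j hj, hf.r j hj] at h1 h2 hE
      rcases hE with hh | hh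
      · exact ⟨trivial, h1 hh, hh⟩
      · exact ⟨trivial, hh, h2 hh⟩
    · push Not at hd
      have hbal : ∀ v : Pl, v ≠ 0 → fl K v = fl K (-v) := by
        intro v hv
        refine le_antisymm (hd v hv) ?_
        have := hd (-v) (neg_ne_zero.2 hv)
        rwa [neg_neg] at this
      obtain ⟨D, D', α, β, hf⟩ := h.fr2 (1, 0) one_ne'
      apply hf.con
      intro j hj
      have hb := hbal _ (mul_ne (1, 0) one_ne' (D.s j))
      rw [hf.l j hj, hf.r j hj] at hb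
      rcases hf.pr j hj trivial with ⟨x, y⟩ | ⟨x, y⟩
      · exact ⟨x, y⟩
      · exact ⟨by rw [x, hb], by rw [y, hb]⟩

/-! ## Mixed case -/

theorem int_tr (c : Pl) (A : Set Pl) (h : (interior (tr c A)).Nonempty) :
    (interior A).Nonempty := by
  have e : tr c A = (Homeomorph.addRight c) '' A := rfl
  rw [e, ← Homeomorph.image_interior] at h
  exact h.of_image

theorem Ctx.mixed (h : Ctx K H φ ψ) (hHi : (interior H).Nonempty) (h0 : ∀ v, nrm φ v = 0)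
    (h1 : ∃ v, 0 < nrm ψ v) : False := by
  obtain ⟨D, D', c, c', hf⟩ := h.FR (1, 0) one_ne'
  obtain ⟨-, -, g3, -, g5, -⟩ := specFRM (1, 0) one_ne'
  have hi := g5 H hHi
  rw [hf.hH] at hi
  refine sMIX (frφ (1, 0) φ) (frφ (1, 0) ψ) (phi_fr _ one_ne' h.hφ) (phi_fr _ one_ne' h.hψ) D D'
    hf.ok hf.ok' hf.mate (int_tr _ _ hi) (nrm_fr0 h0 _ one_ne') ?_
    (h.covb (1, 0) one_ne' D D' c c' hf)
  obtain ⟨v, hv⟩ := h1
  refine ⟨v, ?_⟩
  rw [g3]
  have : mul (1, 0) v = v := by ext <;> simp [mul]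
  rw [this]
  exact hv

end Pool.MP671
end

section
/-!
# MP_671ac3_gt : both valuations have a perimeter part
-/
namespace Pool.MP671

open MeasureTheory

/-- both norms are positive -/
def Gd (φ ψ : Set Pl → ℝ) (u : Pl) : Prop := 0 < nrm φ u ∧ 0 < nrm ψ u

theorem Ctx.f1g {K H : Set Pl} {φ ψ : Set Pl → ℝ} (h : Ctx K H φ ψ) (v : Pl) (hv : v ≠ 0)
    (hg : Gd φ ψ v) :
    ((fl H v = fl K v ∧ fl H (-v) = fl K (-v)) ∨ (fl H v = fl K (-v) ∧ fl H (-v) = fl K v)) ∧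
      (0 < fl K v → 0 < fl K (-v) → nrm φ v = nrm ψ v) := by
  obtain ⟨D, D', c, c', hf⟩ := h.FR v hv
  have := sF1 (frφ v φ) (frφ v ψ) (phi_fr v hv h.hφ) (phi_fr v hv h.hψ) D D' hf.ok hf.ok' hf.mate
    (by rw [ee_fr v hv]; exact hg.1) (by rw [ee_fr v hv]; exact hg.2) (h.covb v hv D D' c c' hf)
  rw [hf.p, hf.q, hf.p', hf.q']
  rw [ee_fr v hv, ee_fr v hv] at this
  exact this

theorem Ctx.pairs {K H : Set Pl} {φ ψ : Set Pl → ℝ} (h : Ctx K H φ ψ) {v : Pl} (hv : v ≠ 0)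
    {D D' : Data} {c c' : Pl} (hf : Fram K H v D D' c c') (j : ℕ) (hj : j < D.m)
    (hg : Gd φ ψ (mul v (D.s j, 1))) :
    (D'.r j = D.r j ∧ D'.l j = D.l j) ∨ (D'.r j = D.l j ∧ D'.l j = D.r j) := by
  have := (h.f1g _ (mul_ne v hv (D.s j)) hg).1
  rw [hf.l j hj, hf.r j hj, hf.l' j hj, hf.r' j hj] at this
  rcases this with ⟨a, b⟩ | ⟨a, b⟩
  · exact Or.inl ⟨b, a⟩
  · exact Or.inr ⟨b, a⟩

/-- the frames of good directions -/
theorem Ctx.fr2 {K H : Set Pl} {φ ψ : Set Pl → ℝ} (h : Ctx K H φ ψ) (v : Pl) (hv : v ≠ 0)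
    (hg : Gd φ ψ v) :
    ∃ D D', Fr2 K H (Gd φ ψ) v D D' (nn (frφ v φ)) (nn (frφ v ψ)) (nrm φ v) (nrm ψ v) := by
  obtain ⟨D, D', c, c', hf⟩ := h.FR v hv
  obtain ⟨hF, hN⟩ := h.f1g v hv hg
  rw [hf.p, hf.q, hf.p', hf.q'] at hF
  rw [hf.p, hf.q] at hN
  obtain ⟨n1, n2⟩ := sNPR (frφ v φ) (phi_fr v hv h.hφ)
  obtain ⟨n1', n2'⟩ := sNPR (frφ v ψ) (phi_fr v hv h.hψ)
  rw [ee_fr v hv] at n2 n2'
  have gd : ∀ j, j < D.m → 0 < nn (frφ v φ) (D.s j) → 0 < nn (frφ v ψ) (D.s j) →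
      Gd φ ψ (mul v (D.s j, 1)) := by
    intro j hj a b
    rw [nn_fr v hv] at a b
    exact ⟨a, b⟩
  have nn1 : ∀ x, 0 ≤ nn (frφ v φ) x := fun x => nrm_nn' (phi_fr v hv h.hφ) _
  have nn2 : ∀ x, 0 ≤ nn (frφ v ψ) x := fun x => nrm_nn' (phi_fr v hv h.hψ) _
  rcases hF with ⟨ep, eq⟩ | ⟨ep, eq⟩
  · refine ⟨D, D', hf.ok, hf.ok', hf.mate, ⟨c, hf.hK⟩, hf.p, hf.q, hf.l, hf.r, ep, eq, hg.1, hg.2,
      nn1, nn2, n1, n1', n2, n2', (fun j hj a => h.pairs hv hf j hj a), gd, hN, ?_,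
      fun a => hf.cl1 hv eq a⟩
    intro t ht htw
    have := sFEQ (frφ v φ) (frφ v ψ) (phi_fr v hv h.hφ) (phi_fr v hv h.hψ) D D' hf.ok hf.ok'
      hf.mate.hw (h.covb v hv D D' c c' hf) t ht htw
    rw [ee_fr v hv, ee_fr v hv] at this
    exact this
  · refine ⟨D, D'.flip, hf.ok, (specRFL.2.2.1 D' hf.ok').1, mate_flip' hf.mate, ⟨c, hf.hK⟩, hf.p,
      hf.q, hf.l, hf.r, eq, ep, hg.1, hg.2,
      nn1, nn2, n1, n1', n2, n2', ?_, gd, hN, ?_, fun a => hf.cl2 hv ep a⟩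
    · intro j hj a
      rcases h.pairs hv hf j hj a with ⟨x, y⟩ | ⟨x, y⟩
      · exact Or.inr ⟨y, x⟩
      · exact Or.inl ⟨y, x⟩
    · intro t ht htw
      have := sFEQ (frφ v φ) (frφ v ψ) (phi_fr v hv h.hφ) (phi_fr v hv h.hψ) D D'.flip hf.ok
        (specRFL.2.2.1 D' hf.ok').1 hf.mate.hw (h.covb' v hv D D' c c' hf) t ht htw
      rw [ee_fr v hv, ee_fr v hv] at this
      exact this

theorem Ctx.one {K H : Set Pl} {φ ψ : Set Pl → ℝ} (h : Ctx K H φ ψ) {v : Pl} (hv : v ≠ 0)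
    (h0 : 0 < nrm φ v) (a b : ℝ) (ha : nn (frφ v φ) a = 0) (hb : nn (frφ v φ) b = 0) : a = b :=
  one_null (phi_fr v hv h.hφ) (by rw [ee_fr v hv]; exact h0) a b ha hb

/-! ## Case S -/

theorem Ctx.nS {K H : Set Pl} {φ ψ : Set Pl → ℝ} (h : Ctx K H φ ψ) (v : Pl) (hv : v ≠ 0)
    (hg : Gd φ ψ v) (hp : 0 < fl K v) (hq : ¬ 0 < fl K (-v)) : Con K H := by
  obtain ⟨D, D', hf⟩ := h.fr2 v hv hg
  rw [hf.p] at hp
  rw [hf.q] at hq
  exact hf.caseS hp (le_antisymm (not_lt.1 hq) hf.ok.hq)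

/-! ## Case Z -/

/-- good edge directions are parallel -/
theorem Ctx.zpar {K H : Set Pl} {φ ψ : Set Pl → ℝ} (h : Ctx K H φ ψ)
    (hS : ∀ v, v ≠ 0 → Gd φ ψ v → 0 < fl H v → 0 < fl H (-v)) (z : Pl) (hz : z ≠ 0)
    (hE : Edg K z) (h0 : nrm φ z = 0) (h1 : 0 < nrm ψ z) (g g' : Pl) (hg : g ≠ 0) (hg' : g' ≠ 0)
    (gE : Edg K g) (gE' : Edg K g') (gG : Gd φ ψ g) (gG' : Gd φ ψ g') : crs g g' = 0 := by
  obtain ⟨D, D', c, c', hf⟩ := h.FR z hz
  -- F D = 0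
  have n2 := (sNPR (frφ z φ) (phi_fr z hz h.hφ)).2
  rw [ee_fr z hz, h0] at n2
  have hn : ∀ a b, nn (frφ z φ) a = nn (frφ z φ) b := by
    intro a b
    have := n2 a b
    rw [zero_mul] at this
    have := abs_nonpos_iff.1 this
    linarith
  have hF0 : ∀ ξ t, F D (nn (frφ z φ)) 0 ξ t = 0 := by
    intro ξ t
    unfold F
    refine Finset.sum_eq_zero fun k _ => ?_
    have e1 : tp (nn (frφ z φ)) 0 D.s k = 0 := by
      unfold tp
      rw [hn (D.s (k + 1)) (D.s k)]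
      ring
    have e2 : tm (nn (frφ z φ)) 0 D.s k = 0 := by
      unfold tm
      rw [hn (D.s (k + 1)) (D.s k)]
      ring
    rw [e1, e2, zero_mul, zero_mul, add_zero]
  have n2' := (sNPR (frφ z ψ) (phi_fr z hz h.hψ)).2
  rw [ee_fr z hz] at n2'
  have hpq : 0 < D'.p ∨ 0 < D'.q := by
    have := h.edg_iff z hz hE
    unfold Edg at this
    rwa [hf.p', hf.q'] at this
  have hden : ∀ t, 0 < t → t < D'.w →
      Dense (fun ξ => F D' (nn (frφ z ψ)) (nrm ψ z) ξ t) (fun _ => 0) := by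
    intro t ht htw a b hab
    obtain ⟨ξ, hξ, hx⟩ := sFEQ (frφ z φ) (frφ z ψ) (phi_fr z hz h.hφ) (phi_fr z hz h.hψ) D D' hf.ok
      hf.ok' hf.mate.hw (h.covb z hz D D' c c' hf) t ht (by rw [← hf.mate.hw]; exact htw) a b hab
    rw [ee_fr z hz, ee_fr z hz, h0] at hx
    exact ⟨ξ, hξ, hx.symm.trans (hF0 ξ t)⟩
  have zfr := specZFR D' (nn (frφ z ψ)) (nrm ψ z) hf.ok' n2' h1 hpq hden
  -- indices
  have key : ∀ g : Pl, g ≠ 0 → Edg K g → Gd φ ψ g →
      ∃ j, j < D.m ∧ ∃ c : ℝ, c ≠ 0 ∧ g = c • mul z (D.s j, 1) ∧ 0 < D'.r j ∧ 0 < D'.l j := by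
    intro g hg gE gG
    have hcz : crs z g ≠ 0 := by
      intro h00
      obtain ⟨a, b, rfl, hb⟩ := mul_surj' z hz g
      rw [hb] at h00
      rcases mul_eq_zero.1 h00 with hb0 | hb0
      · have e : mul z (a, b) = a • z := by
          rw [hb0]
          ext
          · simp only [mul, Prod.smul_fst, smul_eq_mul]; ring
          · simp only [mul, Prod.smul_snd, smul_eq_mul]; ring
        have := gG.1
        rw [e, nrm_smul' h.hφ, h0, mul_zero] at this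
        exact lt_irrefl _ this
      · exact (sq_pos' z hz).ne' hb0
    obtain ⟨j, hj, c₁, hc₁, hgc⟩ := dir_index hz hf.ok ⟨c, hf.hK⟩ g hcz gE
    refine ⟨j, hj, c₁, hc₁, hgc, ?_⟩
    set w := mul z (D.s j, 1) with hw
    have hwne : w ≠ 0 := mul_ne z hz _
    have wG : Gd φ ψ w := by
      have h1 := gG.1
      have h2 := gG.2
      rw [hgc, nrm_smul' h.hφ] at h1
      rw [hgc, nrm_smul' h.hψ] at h2
      exact ⟨(pos_iff_pos_of_mul_pos h1).1 (abs_pos.2 hc₁),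
        (pos_iff_pos_of_mul_pos h2).1 (abs_pos.2 hc₁)⟩
    have wE : Edg K w := hf.edg_j j hj
    have wE' := h.edg_iff w hwne wE
    rw [← hf.l' j hj, ← hf.r' j hj]
    rcases wE' with hh | hh
    · exact ⟨hS w hwne wG hh, hh⟩
    · refine ⟨hh, ?_⟩
      have := hS (-w) (neg_ne_zero.2 hwne) ⟨by rw [nrm_neg' h.hφ]; exact wG.1,
        by rw [nrm_neg' h.hψ]; exact wG.2⟩ hh
      rwa [neg_neg] at this
  obtain ⟨i, hi, a, ha, rfl, ri, li⟩ := key g hg gE gG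
  obtain ⟨j, hj, b, hb, rfl, rj, lj⟩ := key g' hg' gE' gG'
  have hij : i = j := by
    rcases lt_trichotomy i j with hl | hl | hl
    · exact (zfr i j hl (by rw [hf.mate.hm]; exact hj) ri li rj lj).elim
    · exact hl
    · exact (zfr j i hl (by rw [hf.mate.hm]; exact hi) rj lj ri li).elim
  rw [hij]
  exact crs_smul_smul _ _ _

theorem Ctx.caseZ {K H : Set Pl} {φ ψ : Set Pl → ℝ} (h : Ctx K H φ ψ) (hN : ∃ v, 0 < nrm φ v)
    (hS : ∀ v, v ≠ 0 → Gd φ ψ v → 0 < fl H v → 0 < fl H (-v)) (z : Pl) (hz : z ≠ 0)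
    (hE : Edg K z) (h0 : nrm φ z = 0) (h1 : 0 < nrm ψ z) : Con K H := by
  by_cases hg : ∃ g, g ≠ 0 ∧ Edg K g ∧ Gd φ ψ g
  · obtain ⟨g, hg, gE, gG⟩ := hg
    obtain ⟨D, D', hf⟩ := h.fr2 g hg gG
    refine hf.ml (h.one hg gG.1) (h.symm.one hg gG.2) ?_
    intro j hj a b
    exfalso
    have := h.zpar hS z hz hE h0 h1 g (mul g (D.s j, 1)) hg (mul_ne g hg _) gE (hf.edg_j j hj) gG
      (hf.gd j hj a b)
    rw [crs_mul, one_mul] at this
    exact (sq_pos' g hg).ne' this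
  · obtain ⟨D, D', c, c', hf⟩ := h.FR z hz
    have key : ∀ j, j < D.m → nn (frφ z ψ) (D.s j) = 0 := by
      intro j hj
      rw [nn_fr z hz]
      by_contra hne
      have p1 : 0 < nrm ψ (mul z (D.s j, 1)) := lt_of_le_of_ne (nrm_nn' h.hψ _) (Ne.symm hne)
      have p2 : 0 < nrm φ (mul z (D.s j, 1)) := by
        refine lt_of_le_of_ne (nrm_nn' h.hφ _) fun h00 => ?_
        obtain ⟨x, hx⟩ := hN
        exact hx.ne' (nrm_zero h.hφ z hz (D.s j) h0 h00.symm x)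
      exact hg ⟨_, mul_ne z hz _, hf.edg_j j hj, p2, p1⟩
    have hm : D.m ≤ 1 := by
      by_contra hcon
      have h01 := h.symm.one hz h1 _ _ (key 0 (by omega)) (key 1 (by omega))
      exact (hf.ok.hs 0 1 one_pos (by omega)).ne h01
    obtain ⟨a, b⟩ := specM2L.2 D D' hf.ok hf.ok' hf.mate hm
    exact hf.cl1 hz a b

/-! ## Case C -/

variable {K H : Set Pl} {φ ψ : Set Pl → ℝ}

/-- the hypotheses of case C -/
structure CC2 (K H : Set Pl) (φ ψ : Set Pl → ℝ) : Prop where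
  ctx : Ctx K H φ ψ
  hS : ∀ v, v ≠ 0 → Gd φ ψ v → 0 < fl K v → 0 < fl K (-v)
  hC : ∀ u, u ≠ 0 → Edg K u → (nrm φ u = 0 ↔ nrm ψ u = 0)

theorem CC2.dbl (h : CC2 K H φ ψ) (v : Pl) (hv : v ≠ 0) (hg : Gd φ ψ v) (hE : Edg K v) :
    0 < fl K v ∧ 0 < fl K (-v) := by
  rcases hE with hh | hh
  · exact ⟨hh, h.hS v hv hg hh⟩
  · refine ⟨?_, hh⟩
    have := h.hS (-v) (neg_ne_zero.2 hv) ⟨by rw [nrm_neg' h.ctx.hφ]; exact hg.1,
      by rw [nrm_neg' h.ctx.hψ]; exact hg.2⟩ hh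
    rwa [neg_neg] at this

theorem CC2.alt (h : CC2 K H φ ψ) (v : Pl) (hv : v ≠ 0) {D D' : Data}
    (hf : Fr2 K H (Gd φ ψ) v D D' (nn (frφ v φ)) (nn (frφ v ψ)) (nrm φ v) (nrm ψ v)) (j : ℕ)
    (hj : j < D.m) :
    (nn (frφ v φ) (D.s j) = 0 ∧ nn (frφ v ψ) (D.s j) = 0) ∨
    (Gd φ ψ (mul v (D.s j, 1)) ∧ nn (frφ v φ) (D.s j) = nn (frφ v ψ) (D.s j) ∧
      0 < D.r j ∧ 0 < D.l j ∧ 0 < D'.r j ∧ 0 < D'.l j) := by
  have hune : mul v (D.s j, 1) ≠ 0 := mul_ne v hv _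
  have hE := hf.edg_j j hj
  have hC := h.hC _ hune hE
  rw [nn_fr v hv, nn_fr v hv]
  by_cases h0 : nrm φ (mul v (D.s j, 1)) = 0
  · exact Or.inl ⟨h0, hC.1 h0⟩
  · right
    have h0' : nrm ψ (mul v (D.s j, 1)) ≠ 0 := fun hh => h0 (hC.2 hh)
    have hG : Gd φ ψ (mul v (D.s j, 1)) :=
      ⟨lt_of_le_of_ne (nrm_nn' h.ctx.hφ _) (Ne.symm h0),
        lt_of_le_of_ne (nrm_nn' h.ctx.hψ _) (Ne.symm h0')⟩
    have hd := h.dbl _ hune hG hE
    have hNN := (h.ctx.f1g _ hune hG).2 hd.1 hd.2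
    rw [hf.l j hj, hf.r j hj] at hd
    refine ⟨hG, hNN, hd.2, hd.1, ?_⟩
    rcases hf.pr j hj hG with ⟨a, b⟩ | ⟨a, b⟩
    · rw [a, b]; exact ⟨hd.2, hd.1⟩
    · rw [a, b]; exact hd

theorem CC2.hn (h : CC2 K H φ ψ) (v : Pl) (hv : v ≠ 0) {D D' : Data}
    (hf : Fr2 K H (Gd φ ψ) v D D' (nn (frφ v φ)) (nn (frφ v ψ)) (nrm φ v) (nrm ψ v)) (j : ℕ)
    (hj : j < D.m) : nn (frφ v φ) (D.s j) = nn (frφ v ψ) (D.s j) := by
  rcases h.alt v hv hf j hj with ⟨a, b⟩ | ⟨-, a, -⟩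
  · rw [a, b]
  · exact a

theorem CC2.c2b (h : CC2 K H φ ψ) (v : Pl) (hv : v ≠ 0) (hG : Gd φ ψ v)
    (hlt : fl K (-v) < fl K v) {D D' : Data}
    (hf : Fr2 K H (Gd φ ψ) v D D' (nn (frφ v φ)) (nn (frφ v ψ)) (nrm φ v) (nrm ψ v)) (z : ℕ)
    (hz : z < D.m) (hz0 : nn (frφ v φ) (D.s z) = 0) (z0 : 0 < z) (z1 : z + 1 < D.m) :
    Con K H := by
  have hp : 0 < fl K v := lt_of_le_of_lt (fl_nonneg _ _) hlt
  have hq : 0 < fl K (-v) := h.hS v hv hG hp
  rw [hf.p, hf.q] at hlt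
  rw [hf.p] at hp
  rw [hf.q] at hq
  have hx := nn_null (phi_fr v hv h.ctx.hφ) (D.s z) hz0
  rw [ee_fr v hv] at hx
  refine hf.con (sCDN D D' (nrm φ v) z ⟨hf.ok, hf.ok', hf.mate, hq, hlt, hf.hp, hf.hq, hG.1, z0, z1,
    ?_, ?_⟩)
  · intro j hj hjz
    rcases h.alt v hv hf j hj with ⟨a, -⟩ | ⟨-, -, a⟩
    · exact absurd (inj_s hf.ok hj hz (h.ctx.one hv hG.1 _ _ a hz0)) hjz
    · exact a
  · intro t ht htw
    have := hf.den2 (h.hn v hv hf) (hf.ee hp hq) t ht htw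
    rw [hx] at this
    exact this

/-- betweenness is preserved by the change of frame -/
theorem between (v u : Pl) (hv : v ≠ 0) (c σu σw σz a b d τv τw τz : ℝ) (hc : c ≠ 0)
    (ha : a ≠ 0) (hb : b ≠ 0) (hd : d ≠ 0) (hu : u = c • mul v (σu, 1))
    (hvu : v = a • mul u (τv, 1)) (hwu : mul v (σw, 1) = b • mul u (τw, 1))
    (hzu : mul v (σz, 1) = d • mul u (τz, 1))
    (hb' : (σz < σw ∧ σw < σu) ∨ (σu < σw ∧ σw < σz)) :
    (τv < τz ∧ τz < τw) ∨ (τw < τz ∧ τz < τv) := by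
  have hVV := sq_pos' v hv
  set V := v.1 ^ 2 + v.2 ^ 2 with hV
  have hu1 : u.1 = c * (v.1 * σu - v.2) := by
    rw [hu]; simp only [mul, Prod.smul_fst, smul_eq_mul]; ring
  have hu2 : u.2 = c * (v.2 * σu + v.1) := by
    rw [hu]; simp only [mul, Prod.smul_snd, smul_eq_mul]; ring
  -- if x = k • mul u (τ, 1) then dot u x = τ * crs u x
  have key : ∀ (x : Pl) (k τ : ℝ), x = k • mul u (τ, 1) →
      u.1 * x.1 + u.2 * x.2 = τ * (u.1 * x.2 - u.2 * x.1) := by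
    intro x k τ hx
    have e1 : x.1 = k * (u.1 * τ - u.2) := by
      rw [hx]; simp only [mul, Prod.smul_fst, smul_eq_mul]; ring
    have e2 : x.2 = k * (u.2 * τ + u.1) := by
      rw [hx]; simp only [mul, Prod.smul_snd, smul_eq_mul]; ring
    rw [e1, e2]
    ring
  have kv := key v a τv hvu
  have kw := key _ b τw hwu
  have kz := key _ d τz hzu
  have hcV : c * V ≠ 0 := mul_ne_zero hc hVV.ne'
  have rv : τv = -σu := by
    have : c * V * (τv + σu) = 0 := by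
      rw [hu1, hu2] at kv
      rw [hV]
      linear_combination kv
    rcases mul_eq_zero.1 this with h | h
    · exact absurd h hcV
    · linarith
  have gen : ∀ σ τ : ℝ, u.1 * (mul v (σ, 1)).1 + u.2 * (mul v (σ, 1)).2 =
      τ * (u.1 * (mul v (σ, 1)).2 - u.2 * (mul v (σ, 1)).1) →
      (τ + σu) * (σu - σ) = 1 + σu ^ 2 := by
    intro σ τ hh
    have : c * V * ((τ + σu) * (σu - σ) - (1 + σu ^ 2)) = 0 := by
      rw [hu1, hu2] at hh
      simp only [mul] at hh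
      rw [hV]
      linear_combination -hh
    rcases mul_eq_zero.1 this with h | h
    · exact absurd h hcV
    · linarith
  have gw := gen σw τw kw
  have gz := gen σz τz kz
  have hpos : 0 < 1 + σu ^ 2 := by positivity
  rcases hb' with ⟨h1, h2⟩ | ⟨h1, h2⟩
  · left
    have p1 : 0 < τz + σu := by
      rw [← gz] at hpos
      exact (pos_iff_pos_of_mul_pos hpos).2 (by linarith)
    have p2 : 0 < τw + σu := by
      rw [← gw] at hpos
      exact (pos_iff_pos_of_mul_pos hpos).2 (by linarith)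
    refine ⟨by linarith, ?_⟩
    by_contra hcon
    push Not at hcon
    nlinarith [mul_pos p1 (sub_pos.2 h1), mul_nonneg (sub_nonneg.2 hcon) (sub_pos.2 h2).le]
  · right
    have p1 : τz + σu < 0 := by
      by_contra hcon
      push Not at hcon
      nlinarith
    have p2 : τw + σu < 0 := by
      by_contra hcon
      push Not at hcon
      nlinarith
    refine ⟨?_, by linarith⟩
    by_contra hcon
    push Not at hcon
    nlinarith [mul_pos (neg_pos.2 p1) (sub_pos.2 h2), mul_nonneg (sub_nonneg.2 hcon)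
      (sub_pos.2 h1).le]

/-- change to the frame of an unbalanced direction `u` with an edge between `u` and `z` -/
theorem CC2.c2c (h : CC2 K H φ ψ) (v : Pl) (hv : v ≠ 0) (hG : Gd φ ψ v)
    (hlt : fl K (-v) < fl K v) {D D' : Data}
    (hf : Fr2 K H (Gd φ ψ) v D D' (nn (frφ v φ)) (nn (frφ v ψ)) (nrm φ v) (nrm ψ v)) (z u w : ℕ)
    (hz : z < D.m) (hu : u < D.m) (hw : w < D.m) (hz0 : nn (frφ v φ) (D.s z) = 0) (huz : u ≠ z)
    (hr : D'.r u ≠ D.r u)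
    (hb : (D.s z < D.s w ∧ D.s w < D.s u) ∨ (D.s u < D.s w ∧ D.s w < D.s z)) : Con K H := by
  have hp : 0 < fl K v := lt_of_le_of_lt (fl_nonneg _ _) hlt
  have hGu : Gd φ ψ (mul v (D.s u, 1)) := by
    rcases h.alt v hv hf u hu with ⟨a, -⟩ | ⟨a, -⟩
    · exact absurd (inj_s hf.ok hu hz (h.ctx.one hv hG.1 _ _ a hz0)) huz
    · exact a
  have hlr : D.l u ≠ D.r u := by
    rcases hf.pr u hu hGu with ⟨a, -⟩ | ⟨a, -⟩
    · exact absurd a hr
    · rw [← a]; exact hr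
  obtain ⟨c, hc, hcl⟩ : ∃ c : ℝ, c ≠ 0 ∧
      fl K (-(c • mul v (D.s u, 1))) < fl K (c • mul v (D.s u, 1)) := by
    rcases lt_or_gt_of_ne hlr with hl | hl
    · refine ⟨-1, by norm_num, ?_⟩
      rw [neg_one_smul, neg_neg, hf.l u hu, hf.r u hu]
      exact hl
    · refine ⟨1, one_ne_zero, ?_⟩
      rw [one_smul, hf.l u hu, hf.r u hu]
      exact hl
  set x := c • mul v (D.s u, 1) with hx
  have hxne : x ≠ 0 := by
    rw [hx]
    exact smul_ne_zero hc (mul_ne v hv _)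
  have hGx : Gd φ ψ x := by
    unfold Gd
    rw [hx, nrm_smul' h.ctx.hφ, nrm_smul' h.ctx.hψ]
    exact ⟨mul_pos (abs_pos.2 hc) hGu.1, mul_pos (abs_pos.2 hc) hGu.2⟩
  obtain ⟨E, E', hg⟩ := h.ctx.fr2 x hxne hGx
  have hVV := sq_pos' v hv
  have crx : ∀ y : Pl, crs x y = c * ((v.1 * D.s u - v.2) * y.2 - (v.2 * D.s u + v.1) * y.1) := by
    intro y
    rw [hx]
    simp only [crs, mul, Prod.smul_fst, Prod.smul_snd, smul_eq_mul]
    ring
  have c1 : crs x v ≠ 0 := by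
    rw [crx]
    have : (v.1 * D.s u - v.2) * v.2 - (v.2 * D.s u + v.1) * v.1 = -(v.1 ^ 2 + v.2 ^ 2) := by ring
    rw [this]
    exact mul_ne_zero hc (neg_ne_zero.2 hVV.ne')
  have c2 : ∀ σ, σ ≠ D.s u → crs x (mul v (σ, 1)) ≠ 0 := by
    intro σ hσ
    rw [crx]
    have : (v.1 * D.s u - v.2) * (mul v (σ, 1)).2 - (v.2 * D.s u + v.1) * (mul v (σ, 1)).1
        = (D.s u - σ) * (v.1 ^ 2 + v.2 ^ 2) := by
      simp only [mul]
      ring
    rw [this]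
    exact mul_ne_zero hc (mul_ne_zero (sub_ne_zero.2 (Ne.symm hσ)) hVV.ne')
  have hwu : D.s w ≠ D.s u := by
    rcases hb with ⟨-, h1⟩ | ⟨h1, -⟩
    · exact h1.ne
    · exact h1.ne'
  have hzu : D.s z ≠ D.s u := by
    rcases hb with ⟨h1, h2⟩ | ⟨h1, h2⟩
    · exact (h1.trans h2).ne
    · exact (h1.trans h2).ne'
  obtain ⟨iv, hiv, a, ha, hav⟩ := dir_index hxne hg.ok hg.hK v c1 (Or.inl hp)
  obtain ⟨iw, hiw, b, hb1, hbw⟩ := dir_index hxne hg.ok hg.hK _ (c2 _ hwu) (hf.edg_j w hw)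
  obtain ⟨iz, hiz, d, hd, hdz⟩ := dir_index hxne hg.ok hg.hK _ (c2 _ hzu) (hf.edg_j z hz)
  have hbt := between v x hv c (D.s u) (D.s w) (D.s z) a b d (E.s iv) (E.s iw) (E.s iz) hc ha hb1 hd
    hx hav hbw hdz hb
  have mono : ∀ i j, i < E.m → j < E.m → E.s i < E.s j → i < j := by
    intro i j hi hj hij
    by_contra hcon
    push Not at hcon
    rcases hcon.lt_or_eq with hl | hl
    · exact absurd (hg.ok.hs j i hl hi) (by linarith)
    · rw [hl] at hij; exact lt_irrefl _ hij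
  have hiz0 : 0 < iz ∧ iz + 1 < E.m := by
    rcases hbt with ⟨h1, h2⟩ | ⟨h1, h2⟩
    · have q1 := mono _ _ hiv hiz h1
      have q2 := mono _ _ hiz hiw h2
      omega
    · have q1 := mono _ _ hiw hiz h1
      have q2 := mono _ _ hiz hiv h2
      omega
  refine h.c2b x hxne hGx hcl hg iz hiz ?_ hiz0.1 hiz0.2
  rw [nn_fr x hxne]
  rw [nn_fr v hv, hdz, nrm_smul' h.ctx.hφ] at hz0
  rcases mul_eq_zero.1 hz0 with hh | hh
  · exact absurd (abs_eq_zero.1 hh) hd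
  · exact hh

theorem CC2.caseC (h : CC2 K H φ ψ) (hN : ∃ v, 0 < nrm φ v) : Con K H := by
  classical
  by_cases hd : ∃ v, v ≠ 0 ∧ Gd φ ψ v ∧ fl K (-v) < fl K v
  · obtain ⟨v, hv, hG, hlt⟩ := hd
    obtain ⟨D, D', hf⟩ := h.ctx.fr2 v hv hG
    by_cases hz : ∃ z, z < D.m ∧ nn (frφ v φ) (D.s z) = 0
    · obtain ⟨z, hz, hz0⟩ := hz
      by_cases hin : 0 < z ∧ z + 1 < D.m
      · exact h.c2b v hv hG hlt hf z hz hz0 hin.1 hin.2
      · by_cases hr : ∃ i j, i < j ∧ j < D.m ∧ i ≠ z ∧ j ≠ z ∧ D'.r i ≠ D.r i ∧ D'.r j ≠ D.r j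
        · obtain ⟨i, j, hij, hj, hiz, hjz, hri, hrj⟩ := hr
          have hi : i < D.m := hij.trans hj
          have hsij := hf.ok.hs i j hij hj
          by_cases h0 : z = 0
          · refine h.c2c v hv hG hlt hf z j i hz hj hi hz0 hjz hrj (Or.inl ⟨?_, hsij⟩)
            exact hf.ok.hs z i (by omega) hi
          · refine h.c2c v hv hG hlt hf z i j hz hi hj hz0 hiz hri (Or.inr ⟨hsij, ?_⟩)
            exact hf.ok.hs j z (by omega) hz
        · apply hf.con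
          obtain ⟨b, hb⟩ : ∃ b, ∀ j, j < D.m → j ≠ z → j ≠ b → D'.r j = D.r j := by
            by_cases hx : ∃ b, b < D.m ∧ b ≠ z ∧ D'.r b ≠ D.r b
            · obtain ⟨b, hbm, hbz, hb⟩ := hx
              refine ⟨b, fun j hj hjz hjb => ?_⟩
              by_contra hne
              rcases lt_or_gt_of_ne hjb with hl | hl
              · exact hr ⟨j, b, hl, hbm, hjz, hbz, hne, hb⟩
              · exact hr ⟨b, j, hl, hj, hbz, hjz, hb, hne⟩
            · refine ⟨0, fun j hj hjz _ => ?_⟩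
              by_contra hne
              exact hx ⟨j, hj, hjz, hne⟩
          exact specM2L.1 D D' hf.ok hf.ok' hf.mate hf.hp hf.hq z b hb
    · have hp : 0 < fl K v := lt_of_le_of_lt (fl_nonneg _ _) hlt
      have hq : 0 < fl K (-v) := h.hS v hv hG hp
      rw [hf.p, hf.q] at hlt
      rw [hf.q] at hq
      refine hf.caseD hq hlt (fun j hj => ?_) (h.hn v hv hf)
      rcases h.alt v hv hf j hj with ⟨a, -⟩ | ⟨a, -, b, c, -⟩
      · exact absurd ⟨j, hj, a⟩ hz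
      · exact ⟨a, b, c⟩
  · -- all good directions are balanced
    push Not at hd
    have hbal : ∀ v, v ≠ 0 → Gd φ ψ v → fl K v = fl K (-v) := by
      intro v hv hG
      refine le_antisymm (hd v hv hG) ?_
      have := hd (-v) (neg_ne_zero.2 hv) ⟨by rw [nrm_neg' h.ctx.hφ]; exact hG.1,
        by rw [nrm_neg' h.ctx.hψ]; exact hG.2⟩
      rwa [neg_neg] at this
    have mpos : ∀ D : Data, D.Ok → 0 < D.m := by
      intro D ok
      rcases Nat.eq_zero_or_pos D.m with h | h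
      · exfalso
        have h1 := ok.hrw
        have h2 := ok.hw
        rw [h] at h1
        simp [Yp] at h1
        linarith
      · exact h
    -- a good edge direction
    obtain ⟨g, hg, gE, gG⟩ : ∃ g, g ≠ 0 ∧ Edg K g ∧ Gd φ ψ g := by
      obtain ⟨D, D', c, c', hf⟩ := h.ctx.FR (1, 0) one_ne'
      have hm := mpos D hf.ok
      set x := mul (1, 0) (D.s 0, 1) with hx
      have hxne : x ≠ 0 := mul_ne _ one_ne' _
      have xE : Edg K x := hf.edg_j 0 hm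
      by_cases hx0 : nrm φ x = 0
      · obtain ⟨E, E', d, d', hg⟩ := h.ctx.FR x hxne
        have hm' := mpos E hg.ok
        have yE := hg.edg_j 0 hm'
        have hyne : mul x (E.s 0, 1) ≠ 0 := mul_ne _ hxne _
        have h1 : nrm φ (mul x (E.s 0, 1)) ≠ 0 := by
          intro h00
          obtain ⟨y, hy⟩ := hN
          exact hy.ne' (nrm_zero h.ctx.hφ x hxne _ hx0 h00 y)
        have h2 : nrm ψ (mul x (E.s 0, 1)) ≠ 0 := fun hh => h1 ((h.hC _ hyne yE).2 hh)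
        exact ⟨_, hyne, yE, lt_of_le_of_ne (nrm_nn' h.ctx.hφ _) (Ne.symm h1),
          lt_of_le_of_ne (nrm_nn' h.ctx.hψ _) (Ne.symm h2)⟩
      · have h2 : nrm ψ x ≠ 0 := fun hh => hx0 ((h.hC _ hxne xE).2 hh)
        exact ⟨x, hxne, xE, lt_of_le_of_ne (nrm_nn' h.ctx.hφ _) (Ne.symm hx0),
          lt_of_le_of_ne (nrm_nn' h.ctx.hψ _) (Ne.symm h2)⟩
    obtain ⟨D, D', hf⟩ := h.ctx.fr2 g hg gG
    refine hf.ml (h.ctx.one hg gG.1) (h.ctx.symm.one hg gG.2) ?_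
    intro j hj a b
    have hGj := hf.gd j hj a b
    have hb := hbal _ (mul_ne g hg _) hGj
    rw [hf.l j hj, hf.r j hj] at hb
    rcases hf.pr j hj hGj with ⟨x, -⟩ | ⟨x, -⟩
    · exact x
    · rw [x, hb]

/-- The theorem, if both valuations have a perimeter part. -/
theorem Ctx.mainN (h : Ctx K H φ ψ) (hN : ∃ v, 0 < nrm φ v) (hN' : ∃ v, 0 < nrm ψ v) :
    Con K H := by
  have sw : ∀ v, Gd φ ψ v ↔ Gd ψ φ v := fun v => ⟨fun h => ⟨h.2, h.1⟩, fun h => ⟨h.2, h.1⟩⟩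
  by_cases s1 : ∃ v, v ≠ 0 ∧ Gd φ ψ v ∧ 0 < fl K v ∧ ¬ 0 < fl K (-v)
  · obtain ⟨v, hv, hG, hp, hq⟩ := s1
    exact h.nS v hv hG hp hq
  by_cases s2 : ∃ v, v ≠ 0 ∧ Gd φ ψ v ∧ 0 < fl H v ∧ ¬ 0 < fl H (-v)
  · obtain ⟨v, hv, hG, hp, hq⟩ := s2
    exact (h.symm.nS v hv ((sw v).1 hG) hp hq).symm
  push Not at s1 s2
  by_cases z1 : ∃ z, z ≠ 0 ∧ Edg K z ∧ nrm φ z = 0 ∧ 0 < nrm ψ z
  · obtain ⟨z, hz, hE, a, b⟩ := z1
    exact h.caseZ hN s2 z hz hE a b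
  by_cases z2 : ∃ z, z ≠ 0 ∧ Edg H z ∧ nrm ψ z = 0 ∧ 0 < nrm φ z
  · obtain ⟨z, hz, hE, a, b⟩ := z2
    exact (h.symm.caseZ hN' (fun v hv hG => s1 v hv ((sw v).2 hG)) z hz hE a b).symm
  push Not at z1 z2
  have hC : ∀ u, u ≠ 0 → Edg K u → (nrm φ u = 0 ↔ nrm ψ u = 0) := by
    intro u hu hE
    constructor
    · intro h0
      exact le_antisymm (z1 u hu hE h0) (nrm_nn' h.hψ _)
    · intro h0
      exact le_antisymm (z2 u hu (h.edg_iff u hu hE) h0) (nrm_nn' h.hφ _)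
  exact (CC2.mk h s1 hC).caseC hN

end Pool.MP671
end

section
/-!
# MP_671ac3_gt : the theorem for all valuations
-/
namespace Pool.MP671

open MeasureTheory

theorem final2 : Final2 := by
  intro K H φ ψ hφ hψ ha hb hS hKi hHc hHi hcov
  have hKc : CC K := by
    obtain ⟨S, rfl⟩ := hS
    exact ⟨convex_convexHull ℝ _, S.finite_toSet.isCompact_convexHull (𝕜 := ℝ)⟩
  have pφ := sNZB φ hφ ha
  have pψ := sNZB ψ hψ hb
  have hd : dif K = dif H := sSP2 φ ψ hφ hψ pφ pψ K H hKc hHc hKi hHi hcov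
  have ctx : Ctx K H φ ψ := ⟨hφ, hψ, fun v hv =>
    exists_fram sFAN sFLB specFRM specRFL K H hKc hHc hKi hHi hS hd v hv, hcov⟩
  show Con K H
  by_cases h1 : ∃ v, 0 < nrm φ v
  · by_cases h2 : ∃ v, 0 < nrm ψ v
    · exact ctx.mainN h1 h2
    · push Not at h2
      exact (ctx.symm.mixed hKi (fun v => le_antisymm (h2 v) (nrm_nn' hψ v)) h1).elim
  · push Not at h1
    have h1' : ∀ v, nrm φ v = 0 := fun v => le_antisymm (h1 v) (nrm_nn' hφ v)
    by_cases h2 : ∃ v, 0 < nrm ψ v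
    · exact (ctx.mixed hHi h1' h2).elim
    · push Not at h2
      exact (CtxA.mk ctx h1' (fun v => le_antisymm (h2 v) (nrm_nn' hψ v)) (pφ K hKc hKi)
        (pψ H hHc hHi)).mainA

end Pool.MP671
end
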