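import Pool.Agent.Lib.MP_671ac3_gt.Spec2
import Pool.Agent.Lib.MP_671ac3_gt.SP2

/-!
# MP_671ac3_gt : module NUL, triangle inequality of `nrm`
-/

namespace Pool.MP671

open Set

namespace NUL

theorem key {φ : Set Pl → ℝ} (hφ : IsPhi φ) (hS : SpecSEG) (hR : SpecREP) {a b : ℝ}
    (hab : a < b) : ee φ * (b - a) ≤ nn φ a + nn φ b := by
  obtain ⟨α, hα⟩ := hR φ hφ
  obtain ⟨s1, s2, _⟩ := hS φ hφ
  refine NPR.lim0 (C := α * (b - a) / 2) fun t ht => ?_
  have h1 : φ (prof 0 (0 + t) (fun z => 0 + a * (z - 0)) (fun z => 0 + b * (z - 0))) =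
      t * (ee φ * (b - a) + nn φ a + nn φ b + α * (b - a) / 2 * t) := by
    rw [hα 0 t 0 a 0 b ht.le le_rfl (by nlinarith)]
    ring
  have h2 : φ (segment ℝ ((a * t, t) : Pl) (b * t, t)) = t * (2 * (ee φ * (b - a))) := by
    rw [s1]
    have e : ((b * t, t) : Pl) - (a * t, t) = ((b - a) * t) • ((1, 0) : Pl) := by
      ext
      · simp
        ring
      · simp
    rw [e, s2, abs_of_nonneg (by nlinarith)]
    unfold ee
    ring
  have h3 : segment ℝ ((a * t, t) : Pl) (b * t, t) ⊆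
      prof 0 (0 + t) (fun z => 0 + a * (z - 0)) (fun z => 0 + b * (z - 0)) := by
    refine NPR.seg_sub (NPR.cc_prof _ _ _ _ _ _) ?_ ?_
    · refine ⟨ht.le, by simp, ?_, ?_⟩
      · simp only
        linarith
      · simp only
        nlinarith
    · refine ⟨ht.le, by simp, ?_, ?_⟩
      · simp only
        nlinarith
      · simp only
        linarith
  have h4 := hφ.mono _ _ (NPR.cc_seg _ _) (NPR.cc_prof _ _ _ _ _ _) h3
  rw [h1, h2] at h4
  have := le_of_mul_le_mul_left h4 ht
  linarith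

theorem tri {φ : Set Pl → ℝ} (hφ : IsPhi φ) (hS : SpecSEG) (hR : SpecREP) (x y : ℝ) :
    ee φ ≤ nrm φ (x, y) + nrm φ (1 - x, -y) := by
  obtain ⟨s1, s2, s3⟩ := hS φ hφ
  have he : 0 ≤ ee φ := s3 _
  rcases lt_trichotomy y 0 with hy | hy | hy
  · have e1 : ((x, y) : Pl) = y • ((x / y, 1) : Pl) := by
      ext
      · simp [mul_div_cancel₀ x hy.ne]
      · simp
    have e2 : ((1 - x, -y) : Pl) = (-y) • (((x - 1) / y, 1) : Pl) := by
      ext
      · simp only [Prod.smul_mk, smul_eq_mul]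
        field_simp [hy.ne]
        ring
      · simp
    rw [e1, e2, s2, s2, abs_neg, abs_of_neg hy]
    have hlt : x / y < (x - 1) / y := by
      rw [div_lt_div_right_of_neg hy]
      linarith
    have h := key hφ hS hR hlt
    have e3 : (x - 1) / y - x / y = (-y)⁻¹ := by
      field_simp [hy.ne]
      ring
    rw [e3] at h
    have h5 := mul_le_mul_of_nonneg_left h (neg_nonneg.2 hy.le)
    have e4 : -y * (ee φ * (-y)⁻¹) = ee φ := by
      field_simp [hy.ne]
    unfold nn at h5
    linarith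
  · subst hy
    have e1 : ((x, 0) : Pl) = x • ((1, 0) : Pl) := by ext <;> simp
    have e2 : ((1 - x, -0) : Pl) = (1 - x) • ((1, 0) : Pl) := by ext <;> simp
    rw [e1, e2, s2, s2, ← add_mul]
    have h1 : 1 ≤ |x| + |1 - x| := by
      have := abs_add_le x (1 - x)
      rw [add_sub_cancel, abs_one] at this
      exact this
    have h2 := mul_le_mul_of_nonneg_right h1 he
    rw [one_mul] at h2
    exact h2
  · have e1 : ((x, y) : Pl) = y • ((x / y, 1) : Pl) := by
      ext
      · simp [mul_div_cancel₀ x hy.ne']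
      · simp
    have e2 : ((1 - x, -y) : Pl) = (-y) • (((x - 1) / y, 1) : Pl) := by
      ext
      · simp only [Prod.smul_mk, smul_eq_mul]
        field_simp [hy.ne']
        ring
      · simp
    rw [e1, e2, s2, s2, abs_neg, abs_of_pos hy]
    have hlt : (x - 1) / y < x / y := by
      rw [div_lt_div_iff_of_pos_right hy]
      linarith
    have h := key hφ hS hR hlt
    have e3 : x / y - (x - 1) / y = y⁻¹ := by
      field_simp [hy.ne']
      ring
    rw [e3] at h
    have h5 := mul_le_mul_of_nonneg_left h hy.le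
    have e4 : y * (ee φ * y⁻¹) = ee φ := by
      field_simp [hy.ne']
    unfold nn at h5
    linarith

theorem mul_coord {w u : Pl} (hw : w ≠ 0) :
    mul w ((w.1 * u.1 + w.2 * u.2) / (w.1 ^ 2 + w.2 ^ 2),
      (w.1 * u.2 - w.2 * u.1) / (w.1 ^ 2 + w.2 ^ 2)) = u := by
  have hn : w.1 ^ 2 + w.2 ^ 2 ≠ 0 := by
    intro h
    apply hw
    have h1 : w.1 = 0 := by nlinarith [sq_nonneg w.1, sq_nonneg w.2]
    have h2 : w.2 = 0 := by nlinarith [sq_nonneg w.1, sq_nonneg w.2]
    exact Prod.ext h1 h2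
  unfold mul
  ext
  · simp only
    field_simp
    ring
  · simp only
    field_simp
    ring

end NUL

theorem specNUL (hS : SpecSEG) (hR : SpecREP) (hF : SpecFRM) : SpecNUL := by
  intro φ hφ u v
  obtain ⟨s1, s2, s3⟩ := hS φ hφ
  by_cases hw : u + v = 0
  · rw [hw]
    have h0 : nrm φ 0 = 0 := by
      have := s2 0 0
      simpa using this
    rw [h0]
    exact add_nonneg (s3 u) (s3 v)
  · obtain ⟨f1, _, f3, _⟩ := hF (u + v) hw
    have hφ' := f1 φ hφ
    have ht := NUL.tri hφ' hS hR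
      (((u + v).1 * u.1 + (u + v).2 * u.2) / ((u + v).1 ^ 2 + (u + v).2 ^ 2))
      (((u + v).1 * u.2 - (u + v).2 * u.1) / ((u + v).1 ^ 2 + (u + v).2 ^ 2))
    unfold ee at ht
    rw [f3, f3, f3, NUL.mul_coord hw] at ht
    have e1 : mul (u + v) (1, 0) = u + v := by
      unfold mul
      ext <;> simp
    have e2 : mul (u + v)
        (1 - ((u + v).1 * u.1 + (u + v).2 * u.2) / ((u + v).1 ^ 2 + (u + v).2 ^ 2),
          -(((u + v).1 * u.2 - (u + v).2 * u.1) / ((u + v).1 ^ 2 + (u + v).2 ^ 2))) = v := by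
      have h1 : mul (u + v)
          (1 - ((u + v).1 * u.1 + (u + v).2 * u.2) / ((u + v).1 ^ 2 + (u + v).2 ^ 2),
            -(((u + v).1 * u.2 - (u + v).2 * u.1) / ((u + v).1 ^ 2 + (u + v).2 ^ 2))) =
          mul (u + v) (1, 0) - mul (u + v)
            (((u + v).1 * u.1 + (u + v).2 * u.2) / ((u + v).1 ^ 2 + (u + v).2 ^ 2),
              ((u + v).1 * u.2 - (u + v).2 * u.1) / ((u + v).1 ^ 2 + (u + v).2 ^ 2)) := by
        unfold mul
        ext
        · simp only [Prod.fst_sub]
          ring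
        · simp only [Prod.snd_sub]
          ring
      rw [h1, NUL.mul_coord hw, e1]
      abel
    rw [e1, e2] at ht
    exact ht

end Pool.MP671
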