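import Pool.Agent.Lib.MP_671ac3_gt.Defs

/-!
# MP_671ac3_gt : polygons, unknown valuations -- specifications of the modules

Final theorem: `K` a convex polygon, `H` any planar convex body, `φ`, `ψ` in `Φ²` (possibly
different), positive on the segments parallel to the edges of `K`. If the covariograms agree, then
`H` is a translate of `K` or of `-K`.
-/

namespace Pool.MP671

open MeasureTheory

/-! ## A. Valuations -/

/-- SEG (100 lines). `φ([a,b])` depends only on `b - a` (translation); it is additive along a line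
(valuation, `φ` of a point is `0`) and monotone, hence linear. Additive monotone functions on
`[0,∞)` are linear: compare `f (n t) = n f t` with `f ⌊n t⌋`. `nrm φ (-v) = nrm φ v` by translation. -/
def SpecSEG : Prop :=
  ∀ φ : Set Pl → ℝ, IsPhi φ →
    (∀ a b : Pl, φ (segment ℝ a b) = 2 * nrm φ (b - a)) ∧
    (∀ (t : ℝ) (v : Pl), nrm φ (t • v) = |t| * nrm φ v) ∧ ∀ v, 0 ≤ nrm φ v

/-- REP (250 lines). From SEG. Formula for trapezoids with horizontal bases. Let
`β(l,r) = φ(prof 0 h l r) - (perimeter terms)` for affine `l ≤ r` on `[0,h]`. Cutting along the graph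
of an affine `m`, `l ≤ m ≤ r` (the two parts meet in a segment of value `2 h n(m')`):
`β(l,r) = β(l,m) + β(m,r)`; `β` is invariant under translations; `z ↦ -z` and a translation:
`β(l,r) = β(l*,r*)` with `l*(y) = -r(h-y)`, `r*(y) = -l(h-y)`.
(1) parallelograms `β(by, by+c)`: additive in `c`, and monotone up to a linear term, so `= c β(by,by+1)`.
(2) shear: for `b ≤ b'`, cut `{by ≤ x ≤ b'y + c}` by `b'y` and by `by + c`: `β(b'y, b'y+c) = β(by, by+c)`.
(3) so `β = c A(h)`; `A` is additive in `h` (horizontal cuts of rectangles), monotone up to a linear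
term, so `A(h) = α h`. (4) triangle `by ≤ x ≤ b'y`, `c = (b'-b) h`: the parallelogram `by ≤ x ≤ by + c`
is cut by `b'y` in two triangles that are reflections of each other: `β = α h c / 2`. (5) trapezoid:
parallelogram plus triangle; if the slope of `l` is larger than that of `r`, use the reflection. -/
def SpecREP : Prop :=
  ∀ φ : Set Pl → ℝ, IsPhi φ → ∃ α : ℝ, ∀ y h a b c d : ℝ, 0 ≤ h → a ≤ c → a + b * h ≤ c + d * h →
    φ (prof y (y + h) (fun z => a + b * (z - y)) (fun z => c + d * (z - y))) =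
      ee φ * ((c - a) + (c + d * h - (a + b * h))) + h * nn φ b + h * nn φ d
        + α * (h * ((c - a) + (c + d * h - (a + b * h))) / 2)

/-- NPR (120 lines). From SEG, REP. Lipschitz: the triangle `b y ≤ x ≤ b' y`, `0 ≤ y ≤ h` contains
both of its sides; divide by `h → 0`. Convexity: the triangle with vertices `0`, `(b' λ h, λ h)`,
`(m h, h)`, `m = (1-λ) b + λ b'`, contains the segment from `0` to `(m h, h)`; cut it at height `λ h`,
use REP twice, divide by `h → 0`. -/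
def SpecNPR : Prop :=
  ∀ φ : Set Pl → ℝ, IsPhi φ → ConvexOn ℝ Set.univ (nn φ) ∧
    ∀ a b, |nn φ a - nn φ b| ≤ ee φ * |a - b|

/-- PAC (150 lines). Closure properties of piecewise affine functions (common refinements: induction
on both hypotheses; `min` of two affine functions: cut at the crossing point). -/
def SpecPAC : Prop :=
  (∀ a b f, PA a b f → a ≤ b ∧ ContinuousOn f (Set.Icc a b)) ∧
  (∀ a b f g, PA a b f → (∀ y ∈ Set.Icc a b, f y = g y) → PA a b g) ∧
  (∀ a b c f, PA a c f → a ≤ b → b ≤ c → PA a b f ∧ PA b c f) ∧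
  (∀ a b f g, PA a b f → PA a b g → PA a b (fun y => f y + g y)) ∧
  (∀ a b f c, PA a b f → PA a b (fun y => c * f y)) ∧
  (∀ a b f g, PA a b f → PA a b g → PA a b (fun y => min (f y) (g y))) ∧
  (∀ a b f g, PA a b f → PA a b g → PA a b (fun y => max (f y) (g y))) ∧
  (∀ a b f t, PA a b f → PA (a + t) (b + t) (fun y => f (y - t))) ∧
  (∀ a b f t, PA a b f → PA (t - b) (t - a) (fun y => f (t - y)))

/-- PAR (200 lines). From SEG, REP, PAC. The formula for sets between piecewise affine functions: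
common refinement of `l` and `r`, REP for the pieces, valuation property at the horizontal cuts
(the cut is a segment of value `2 ee φ (r - l)`). On an open piece `deriv l` is the slope. `prof` is
compact and convex. -/
def SpecPAR : Prop :=
  ∀ φ : Set Pl → ℝ, IsPhi φ → ∃ α : ℝ, ∀ (a b : ℝ) (l r : ℝ → ℝ), a ≤ b → PA a b l → PA a b r →
    ConvexOn ℝ (Set.Icc a b) l → ConcaveOn ℝ (Set.Icc a b) r → (∀ y ∈ Set.Icc a b, l y ≤ r y) →
    φ (prof a b l r) = ee φ * ((r a - l a) + (r b - l b))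
      + (∫ y in a..b, (nn φ (deriv l y) + nn φ (deriv r y))) + α * ∫ y in a..b, (r y - l y)

/-! ## B. Chains -/

/-- CHA (150 lines). Elementary facts on the chain functions. -/
def SpecCHA : Prop :=
  ∀ (m : ℕ) (a : ℕ → ℝ), (∀ j, j < m → 0 ≤ a j) →
    (∀ κ t, t ≤ 0 → ch m κ a t = 0) ∧
    (∀ κ t, Yp a m ≤ t → ch m κ a t = Xp κ a m) ∧
    (∀ κ k, k ≤ m → ch m κ a (Yp a k) = Xp κ a k) ∧
    (∀ κ k, k < m → ∀ t ∈ Set.Icc (Yp a k) (Yp a (k + 1)),
      ch m κ a t = Xp κ a k + κ k * (t - Yp a k)) ∧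
    (∀ κ, ∃ C, LipschitzWith C (ch m κ a)) ∧
    (∀ κ, Inc m κ → ConvexOn ℝ (Set.Icc 0 (Yp a m)) (ch m κ a))

/-- CHN (120 lines). Slopes of the chain on both sides of `t₀`: `i` is the last piece with
`Yp a i < t₀`, `j` the last one with `Yp a j ≤ t₀`. -/
def SpecCHN : Prop :=
  ∀ (m : ℕ) (a : ℕ → ℝ), (∀ j, j < m → 0 ≤ a j) → ∀ t₀, 0 < t₀ → t₀ < Yp a m →
    ∃ i j δ, i ≤ j ∧ j < m ∧ 0 < δ ∧ ∀ κ : ℕ → ℝ,
      (∀ t ∈ Set.Icc t₀ (t₀ + δ), ch m κ a t = ch m κ a t₀ + κ j * (t - t₀)) ∧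
      (∀ t ∈ Set.Icc (t₀ - δ) t₀, ch m κ a t = ch m κ a t₀ + κ i * (t - t₀)) ∧
      κ j - κ i = ∑ k ∈ Finset.range (m - 1), if Yp a (k + 1) = t₀ then κ (k + 1) - κ k else 0

/-- BOD (120 lines). From CHA, PAC. Facts on the boundary functions of a polygon. `L ≤ R`: `L` is
below the chord from `0` to `Xp s l m`, `R` above the chord from `q` to `q + Xp s r m`, `p, q ≥ 0`. -/
def SpecBOD : Prop :=
  ∀ D : Data, D.Ok →
    D.L 0 = 0 ∧ D.L D.w = Xp D.s D.l D.m ∧ D.R 0 = D.q ∧ D.R D.w = D.q + Xp D.s D.r D.m ∧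
    ConvexOn ℝ (Set.Icc 0 D.w) D.L ∧ ConcaveOn ℝ (Set.Icc 0 D.w) D.R ∧
    (∀ y ∈ Set.Icc 0 D.w, D.L y ≤ D.R y) ∧
    (∀ x y, x ≤ y → PA x y D.L ∧ PA x y D.R) ∧
    (∃ C, LipschitzWith C D.L) ∧ (∃ C, LipschitzWith C D.R) ∧ CC (body D)

/-! ## C. The covariogram -/

/-- COV (150 lines). From PAR, BOD, PAC. `K ∩ (K + (ξ,t))` is the set between `lo` (convex) and `up`
(concave) on `[t,w]`; the heights with `lo ≤ up` are an interval `[y₀,y₁]` (or empty); if `y₁ < w`
then `lo = up` at `y₁`. Apply PAR on `[y₀,y₁]`. -/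
def SpecCOV : Prop :=
  ∀ φ : Set Pl → ℝ, IsPhi φ → ∃ α : ℝ, ∀ D : Data, D.Ok → ∀ ξ t, 0 ≤ t → t ≤ D.w →
    cov φ (body D) (ξ, t) =
      ee φ * (max 0 (D.up ξ t t - D.lo ξ t t) + max 0 (D.up ξ t D.w - D.lo ξ t D.w))
      + (∫ y in t..D.w, if D.lo ξ t y ≤ D.up ξ t y then
          nn φ (deriv (D.lo ξ t) y) + nn φ (deriv (D.up ξ t) y) else 0)
      + α * ∫ y in t..D.w, max 0 (D.up ξ t y - D.lo ξ t y)

/-- XX (80 lines). The antiderivatives: `X2' = X1`, `X1' = χ`; and the integral of the length of the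
intersection of the intervals `[a,b]` and `[c+ξ,d+ξ]`, and of indicator functions. -/
def SpecXX : Prop :=
  ∀ χ : ℝ → ℝ, Continuous χ → HasCompactSupport χ →
    (∀ z, HasDerivAt (X1 χ) (χ z) z) ∧ (∀ z, HasDerivAt (X2 χ) (X1 χ z) z) ∧
    (∀ a b, a ≤ b → ∫ ξ in Set.Icc a b, χ ξ = X1 χ b - X1 χ a) ∧
    (∀ a b, ∫ ξ, χ ξ * ind a b ξ = if a ≤ b then X1 χ b - X1 χ a else 0) ∧
    (∀ a b c d, a ≤ b → c ≤ d →
      ∫ ξ, χ ξ * max 0 (min b (d + ξ) - max a (c + ξ)) =
        X2 χ (b - c) - X2 χ (b - d) - X2 χ (a - c) + X2 χ (a - d))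

/-- FUA (120 lines). From BOD. The density of the perimeter. Let `L`, `R` be differentiable at `y` and at
`y - t` (Lipschitz functions are differentiable almost everywhere). For all `ξ` except four values:
near `y` the function `up ξ t` is `R` (if `R y < R (y-t) + ξ`) or `R (· - t) + ξ`, so its derivative is
`R' y` or `R' (y-t)`; the same for `lo`. So (`lo ≤ up`) the `R' y` term appears iff `ξ` is between
`R y - R (y-t)` and `R y - L (y-t)`; `L' y`: between `L y - R (y-t)` and `L y - L (y-t)`; `R' (y-t)`: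
between `L y - R (y-t)` and `R y - R (y-t)`; `L' (y-t)`: between `L y - L (y-t)` and `R y - L (y-t)`. -/
def SpecFUA : Prop :=
  ∀ D : Data, D.Ok → ∀ (n : ℝ → ℝ) (t : ℝ), 0 < t → t < D.w →
    ∀ᵐ y ∂(volume.restrict (Set.Icc t D.w)), ∀ᵐ ξ,
      (if D.lo ξ t y ≤ D.up ξ t y then
        n (deriv (D.lo ξ t) y) + n (deriv (D.up ξ t) y) else 0) = D.Q n t ξ y

/-- FUB (250 lines). From COV, XX, BOD, FUA, NPR (continuity of `nn φ`). Multiply COV by `χ ξ` and
integrate; FUA and Fubini for the perimeter part (`D.Q` is measurable and bounded; `∫ χ ind` by XX gives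
`D.P`), Fubini for the area part and XX give `D.T`. -/
def SpecFUB : Prop :=
  ∀ φ : Set Pl → ℝ, IsPhi φ → ∃ α : ℝ, ∀ D : Data, D.Ok → ∀ χ : ℝ → ℝ, Continuous χ →
    HasCompactSupport χ → ∀ t, 0 < t → t < D.w →
    G φ (body D) χ t = ee φ * (D.T χ t t + D.T χ t D.w) + (∫ y in t..D.w, D.P (nn φ) χ t y)
      + α * ∫ y in t..D.w, D.T χ t y

/-- KL (200 lines). One-sided derivatives of an integral. `J = J₁ - J₂`,
`J₁ t = ∫ y in t₀..w, f y * Ψ (A y - B (y - t))` is differentiable at `t₀`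
(`hasDerivAt_integral_of_dominated_loc_of_lip`; `B` is Lipschitz, so differentiable at `y - t₀` for
almost every `y`), `J₂ t = ∫ y in t₀..t, ..` has the right derivative `cp * Ψ (A t₀ - B 0)` and the left
derivative `cm * Ψ (A t₀ - B 0)`. -/
def SpecKL : Prop :=
  ∀ (f A B Ψ Ψ' : ℝ → ℝ) (t₀ w cp cm δ M : ℝ) (CA CB : NNReal), t₀ < w → 0 < δ → Measurable f →
    (∀ y, |f y| ≤ M) → (∀ y ∈ Set.Ioo t₀ (t₀ + δ), f y = cp) →
    (∀ y ∈ Set.Ioo (t₀ - δ) t₀, f y = cm) → LipschitzWith CA A → LipschitzWith CB B →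
    (∀ z, HasDerivAt Ψ (Ψ' z) z) → Continuous Ψ' →
    Kink (fun t => ∫ y in t..w, f y * Ψ (A y - B (y - t))) t₀ (-(cp - cm) * Ψ (A t₀ - B 0))

/-- KNA (60 lines). From KL (`f = 1`), XX, BOD. The area term has no kink. -/
def SpecKNA : Prop :=
  ∀ D : Data, D.Ok → ∀ χ : ℝ → ℝ, Continuous χ → HasCompactSupport χ → ∀ t, 0 < t → t < D.w →
    Kink (fun t => ∫ y in t..D.w, D.T χ t y) t 0

/-- KNB (120 lines). From XX, CHN, CHA, BOD. The terms of the horizontal edges: chain rule with the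
one-sided slopes. Jump of the slope of `L` at the height `y`: `jmp m s l y`; of `R`:
`- jmp m s r (w - y)`. -/
def SpecKNB : Prop :=
  ∀ D : Data, D.Ok → ∀ χ : ℝ → ℝ, Continuous χ → HasCompactSupport χ → ∀ t, 0 < t → t < D.w →
    Kink (fun t => D.T χ t D.w) t
      (-(jmp D.m D.s D.r t) * (X1 χ (D.R D.w - D.R (D.w - t)) - X1 χ (D.L D.w - D.R (D.w - t)))
        - jmp D.m D.s D.l (D.w - t) *
          (X1 χ (D.R D.w - D.L (D.w - t)) - X1 χ (D.L D.w - D.L (D.w - t)))) ∧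
    Kink (fun t => D.T χ t t) t
      (-(jmp D.m D.s D.l t) * (X1 χ (D.L t - D.L 0) - X1 χ (D.L t - D.R 0))
        - jmp D.m D.s D.r (D.w - t) * (X1 χ (D.R t - D.L 0) - X1 χ (D.R t - D.R 0)))

/-- KNI (200 lines). From KL, XX, CHN, CHA, BOD. The integral of the density. Terms with
`n (deriv D.R y)`, `n (deriv D.L y)`: KL. Terms with `n (deriv D.R (y-t))`: substitute `y → w + t - y`,
then KL with `f y = n (deriv D.R (w - y))`, `B z = - D.R (w - z)` or `- D.L (w - z)`,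
`A y = - D.R (w - y)`. -/
def SpecKNI : Prop :=
  ∀ D : Data, D.Ok → ∀ n χ : ℝ → ℝ, Continuous n → Continuous χ → HasCompactSupport χ →
    ∀ t, 0 < t → t < D.w →
    Kink (fun t => ∫ y in t..D.w, D.P n χ t y) t
      (-(jmp D.m (fun j => n (D.s j)) D.r t) *
          (X1 χ (D.R D.w - D.R (D.w - t)) - X1 χ (D.L D.w - D.R (D.w - t)))
        + jmp D.m (fun j => n (D.s j)) D.l (D.w - t) *
          (X1 χ (D.R D.w - D.L (D.w - t)) - X1 χ (D.L D.w - D.L (D.w - t)))
        - jmp D.m (fun j => n (D.s j)) D.l t * (X1 χ (D.L t - D.L 0) - X1 χ (D.L t - D.R 0))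
        + jmp D.m (fun j => n (D.s j)) D.r (D.w - t) *
          (X1 χ (D.R t - D.L 0) - X1 χ (D.R t - D.R 0)))

/-- KNK (120 lines). From FUB, KNA, KNB, KNI, XX, CHA, BOD, NPR. Add the kinks of the terms of FUB (it
holds for all `t'` near `t`) and compare with `∫ χ F`: if `Yp r (k+1) = t` then
`D.R w - D.R (w-t) = Xp s r (k+1)`, `D.L w - D.R (w-t) = Xp s r (k+1) - p`; if `Yp l (k+1) = t` then
`D.L t = Xp s l (k+1)`; if `w - Yp l (k+1) = t` then `D.L w - D.L (w-t) = Xp s l m - Xp s l (k+1)`; if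
`w - Yp r (k+1) = t` then `D.R t - D.R 0 = Xp s r m - Xp s r (k+1)`. `∫ χ ind a b = X1 b - X1 a`. -/
def SpecKNK : Prop :=
  ∀ φ : Set Pl → ℝ, IsPhi φ → ∀ D : Data, D.Ok → ∀ χ : ℝ → ℝ, Continuous χ →
    HasCompactSupport χ → ∀ t, 0 < t → t < D.w →
    Kink (G φ (body D) χ) t (-∫ ξ, χ ξ * F D (nn φ) (ee φ) ξ t)

/-- FEQ (80 lines). From KNK. The kinks agree, so `∫ χ F = ∫ χ F'` for all `χ`; `F` and `F'` are bounded
step functions, so they agree almost everywhere. -/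
def SpecFEQ : Prop :=
  ∀ (φ ψ : Set Pl → ℝ), IsPhi φ → IsPhi ψ → ∀ D D' : Data, D.Ok → D'.Ok → D'.w = D.w →
    (∀ x, cov φ (body D) x = cov ψ (body D') x) → ∀ t, 0 < t → t < D.w →
    Dense (fun ξ => F D (nn φ) (ee φ) ξ t) (fun ξ => F D' (nn ψ) (ee ψ) ξ t)

/-- F1 (120 lines). From COV, BOD at `t = w`: `cov φ (body D) (ξ,w) = 2 ee φ * (overlap of
[x_B - p, x_B] and [ξ, ξ + q])`, `x_B = q + Xp s r m`, which is the same for `D'` (closing conditions and
`Mate`). Maximum of the overlap: `min p q`; near the right end its slope is `1`. -/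
def SpecF1 : Prop :=
  ∀ (φ ψ : Set Pl → ℝ), IsPhi φ → IsPhi ψ → ∀ D D' : Data, D.Ok → D'.Ok → Mate D D' →
    0 < ee φ → 0 < ee ψ → (∀ x, cov φ (body D) x = cov ψ (body D') x) →
    ((D'.p = D.p ∧ D'.q = D.q) ∨ (D'.p = D.q ∧ D'.q = D.p)) ∧
      (0 < D.p → 0 < D.q → ee φ = ee ψ)

/-! ## D. Combinatorics

Notation: `c_k = (Xp s r k, Yp r k)`, `d_k = (Xp s l k, Yp l k)`,
`b_k = (Xp s l m - Xp s l k, w - Yp l k)`, `a_k = (Xp s r m - Xp s r k, w - Yp r k)`, with `'` for `D'`.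
By the closing conditions and `Mate`, `c_m = c'_m` and `d_m = d'_m` (if `p = p'`, `q = q'`), and
`c_k + d_k = c'_k + d'_k` for all `k`. `tp, tm ≥ 0`, `tp k + tm k = 2 e (s_{k+1} - s_k) > 0`. If `tp k = 0`
then `n` has slope `-e` on `(-∞, s_{k+1}]` (convexity and Lipschitz condition), so `tp i = 0` for `i ≤ k`;
if `tm k = 0` then `n` has slope `e` on `[s_k, ∞)`, so `tm i = 0` for `i ≥ k`. -/

/-- MIR (200 lines). The mirror image exchanges `tp` and `tm`, right and left; reindex the sum by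
`k ↦ m - 2 - k`. -/
def SpecMIR : Prop :=
  (∀ D : Data, D.Ok → (mir D).Ok ∧
    (∀ n e ξ t, F (mir D) (fun x => n (-x)) e ξ t = F D n e (-ξ) t) ∧
    (∀ n e t, VR (mir D) (fun x => n (-x)) e t = VL D n e t) ∧
    (∀ n e k, k + 1 < D.m → tp (fun x => n (-x)) e (mir D).s k = tm n e D.s (D.m - 2 - k)) ∧
    (∀ k, k ≤ D.m → Yp (mir D).r k = D.w - Yp D.l (D.m - k) ∧
      Yp (mir D).l k = D.w - Yp D.r (D.m - k) ∧
      Xp (mir D).s (mir D).r k = -(Xp D.s D.l D.m - Xp D.s D.l (D.m - k)) ∧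
      Xp (mir D).s (mir D).l k = -(Xp D.s D.r D.m - Xp D.s D.r (D.m - k)))) ∧
  (∀ D D' n n' e e', SH D D' n n' e e' →
    SH (mir D) (mir D') (fun x => n (-x)) (fun x => n' (-x)) e e') ∧
  (∀ D D' n e, DH D D' n e → DH (mir D) (mir D') (fun x => n (-x)) e)

/-- CSV (200 lines). Fix `t`. All `k` with `Yp r (k+1) = t` have the same `x_R = Xp s r (k+1)`, all `k` with
`w - Yp l (k+1) = t` the same `x_L = Xp s l m - Xp s l (k+1)`; since `q = 0`,
`F ξ t = VR * ind (x_R - p) x_R ξ + VL * ind x_L (x_L + p) ξ`. With `ρ = Xp s r m / w`,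
`λ = Xp s l m / w` (the same for `D'`), `(ρ - λ) w = p`: the slopes are increasing, so `x_R ≤ ρ t`,
`x_L ≥ λ t`, hence `x_R - p ≤ λ t + (t/w) p - p < λ t`. So for `ξ < λ t` only the `VR` terms of `D` and `D'`
are seen. If `VR > 0`: on `(x_R - p, min x_R (λ t))` the function `F D` is `VR > 0`, so `VR' > 0` and
`x'_R ≤ x_R`; by symmetry `x_R = x'_R`, and `VR = VR'`. -/
def SpecCSV : Prop :=
  ∀ D D' n n' e e', SH D D' n n' e e' → ∀ t, 0 < t → t < D.w →
    VR D n e t = VR D' n' e' t ∧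
    (0 < VR D n e t → ∀ k k', k < D.m - 1 → k' < D.m - 1 → Yp D.r (k + 1) = t →
      Yp D'.r (k' + 1) = t → Xp D.s D.r (k + 1) = Xp D.s D'.r (k' + 1))

/-- CSE (150 lines). From CSV, MIR. First part: `r'_j = r_j` for `j > M`, `r'_M ≠ r_M`; `i` is the largest
index `≤ M` with `r_i > 0`, and some `r_{j₀} > 0`, `j₀ < i`. Let `T = Yp r (M+1) = Yp r' (M+1)` (`c_m = c'_m`
and equal tails), `i'` the largest index `≤ M` with `r'_{i'} > 0`, `t = Yp r i = T - r_i > 0`,
`t' = Yp r' i' = T - r'_{i'}`. Suppose `tp (i-1) > 0`. Then `VR D t > 0`, so `VR D' t > 0`, so there is `k'` with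
`Yp r' (k'+1) = t`, `tp' k' > 0`; `t < T`, so `k' + 1 ≤ i'`, `t ≤ t'` and `tp' (i'-1) > 0`. So `VR D' t' > 0`,
`VR D t' > 0`, and in the same way `t' ≤ t`. So `t = t'`, `r_i = r'_{i'}`, and the positions agree
(CSV): `Xp s r i = Xp s r' i'`; with `c_{M+1} = c'_{M+1}`: `r_i s_i = r'_{i'} s_{i'}`, so `i = i'`, `r_i = r'_i`;
then `r_M = r'_M`: contradiction. Second part: mirror image. -/
def SpecCSE : Prop :=
  ∀ D D' n n' e e', SH D D' n n' e e' →
    (∀ M i j₀, M < D.m → (∀ j, M < j → j < D.m → D'.r j = D.r j) → D'.r M ≠ D.r M → i ≤ M →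
      0 < D.r i → (∀ j, i < j → j ≤ M → D.r j = 0) → j₀ < i → 0 < D.r j₀ → tp n e D.s (i - 1) = 0) ∧
    (∀ M i j₀, M < D.m → (∀ j, j < M → D'.l j = D.l j) → D'.l M ≠ D.l M → M ≤ i → i < D.m →
      0 < D.l i → (∀ j, M ≤ j → j < i → D.l j = 0) → i < j₀ → j₀ < D.m → 0 < D.l j₀ →
      tm n e D.s i = 0)

/-- CSS (250 lines). From CSV, CSE, MIR. Let `J = {j : r'_j ≠ r_j}`, suppose `J ≠ ∅`. For `j ∈ J`:
`r'_j = l_j`, `l'_j = r_j`, `r_j ≠ l_j`. `∑_J (l_j - r_j) = 0`, `∑_J (l_j - r_j) s_j = 0`. `M = max J`,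
`M₀ = min J`. All `j ∈ J` with `r_j > 0` are `≤ i_R`, the largest index `≤ M` with `r > 0`.
(0) If two elements of `J` have `r_j > 0` then (CSE) `n` has slope `-e` on `(-∞, s_{i_R}]`; if two have
`l_j > 0` then `n` has slope `e` on `[s_{i_L}, ∞)`, `i_L` the smallest index `≥ M₀` with `l > 0`. The same
for `D'` (SH is symmetric).
(1) Two with `r_j > 0` and two with `l_j > 0`: then `i_R ≤ i_L`, all terms of
`∑_J (l_j - r_j) (s_j - s_{i_R}) = 0` are `≥ 0`, so `J ⊆ {i_R}`: contradiction.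
(2) Otherwise, after exchange of `D` and `D'`, `l_j > 0` for at most one `j ∈ J`; for none is impossible
(`∑_J r_j = 0`), so for exactly one `u ∈ J`; `∑_{J} (l_j - r_j) (s_j - s_u) = 0` gives `j₁ < u < j₂` in `J` with
`r > 0`. `M ≠ u`, so `r_M > 0`, `i_R = M`: `n` has slope `-e` on `(-∞, s_M]`. `l'_{M₀} = r_{M₀} > 0`: `n'` has
slope `e'` on `[s_{M₀}, ∞)`. If `l_j > 0` for some `j ≥ M₀`, `j ≠ u`, then (CSE) `n` has slope `e` on
`[s_i, ∞)` with `i ≤ u < M`: contradiction. So `l_j = 0` for `j ≥ M₀`, `j ≠ u`; in the same way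
`r'_j = 0` for `j ≤ M`, `j ≠ u`. So with `T = l_u = r'_u`: `Yp r' (M+1) = T = Yp r (M+1)`,
`w - Yp l M₀ = T = w - Yp l' M₀`.
`T < w`: otherwise all other `l_j`, `r'_j` are `0`, `Xp s r m = Xp s r' m = T s_u = Xp s l m`, and `p = 0`.
Let `f > M` be the first index with `r_f > 0`. Then `VR D T = n(s_f) + e (s_f - s_M) - n(s_M)
≤ 2 e (s_f - s_M) < 2 e (s_f - s_u)`, `VR D' T = n'(s_f) + e' (s_f - s_u) - n'(s_u) = 2 e' (s_f - s_u)`, so
`e' < e`. Let `g < M₀` be the last index with `l_g > 0`. Then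
`VL D T = n(s_g) + e (s_u - s_g) - n(s_u) = 2 e (s_u - s_g)`,
`VL D' T = n'(s_g) + e' (s_{M₀} - s_g) - n'(s_{M₀}) ≤ 2 e' (s_{M₀} - s_g) < 2 e' (s_u - s_g)`, so `e < e'`
(`VL D T = VL D' T` by CSV for the mirror images): contradiction. -/
def SpecCSS : Prop :=
  ∀ D D' n n' e e', SH D D' n n' e e' → ∀ j, j < D.m → D'.r j = D.r j ∧ D'.l j = D.l j

/-- TIL (150 lines). Two intervals. Flags `α β α' β'`. Starts are seen. `(1,0)/(1,0)`, `(0,1)/(0,1)`:
compare the starts. `(1,0)/(0,0)`: impossible, `(1,0)/(0,1)`: equal starts `c - p = d' - q`; to the right of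
`d' < Λ` the left side is `1`, the right side `0`. `(1,1)/(1,1)`, say `d < d'`, `δ = d' - d = c - c'`: the
leftmost starts agree, so `c' - p = d - q`; just to the right of `d < Λ`, `d' = d + δ`, the right side
is larger by `1`. -/
def SpecTIL : Prop :=
  ∀ (p q Λ c d c' d' : ℝ) (α β α' β' : Prop) [Decidable α] [Decidable β] [Decidable α']
    [Decidable β'], 0 < q → q < p → (α → c - p < Λ) → (β → d < Λ) → (α' → c' - p < Λ) →
    (β' → d' < Λ) → (α ∨ β ∨ α' ∨ β') → ((α ∧ β) ↔ (α' ∧ β')) → c + d = c' + d' →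
    (∀ x y, x < y → y ≤ Λ → ∃ ξ ∈ Set.Ioo x y,
      (if α then ind (c - p) c ξ else 0) + (if β then ind (d - q) d ξ else 0) =
        (if α' then ind (c' - p) c' ξ else 0) + (if β' then ind (d' - q) d' ξ else 0)) →
    (α ↔ α') ∧ (β ↔ β') ∧ c = c' ∧ d = d'

/-- CSH (250 lines). From TIL. `{k : tp (k-1) > 0}` is an upper set. Strong induction on `k`. Let `t` be the
smallest of `Yp r k`, `Yp l k`, `Yp r' k`, `Yp l' k` (all in `(0,w)`), `λ = Xp s l m / w`,
`ρ = Xp s r m / w`, `(ρ - λ) w = p - q > 0`, the same for `D'`. The slopes are strictly increasing and all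
lengths positive, so for all vertices at height `t`: `x(c) < ρ t`, `x(d) < λ t`, `x(b) > λ t`,
`x(a) > ρ t > λ t`. So for `ξ < λ t` the function `F D ξ t` is
`∑ tp (i-1) ([Yp r i = t] ind (x(c_i) - p) x(c_i) ξ + [Yp l i = t] ind (x(d_i) - q) x(d_i) ξ)`; terms with
`tp = 0` vanish, terms with `tp (i-1) > 0`, `i < k` are the same for `D` and `D'` (induction), terms with
`i > k` vanish (`Yp r i > Yp r k ≥ t`). Divide by `tp (k-1)`, apply TIL with `Λ = λ t`
(`x(c) - p < ρ t - p < λ t`); both heights are `t` for `D` iff for `D'`, because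
`Yp r k + Yp l k = Yp r' k + Yp l' k`. -/
def SpecCSH : Prop :=
  ∀ D D' n e, DH D D' n e → ∀ k, k + 1 < D.m → 0 < tp n e D.s k →
    Yp D'.r (k + 1) = Yp D.r (k + 1) ∧ Xp D.s D'.r (k + 1) = Xp D.s D.r (k + 1) ∧
    Yp D'.l (k + 1) = Yp D.l (k + 1) ∧ Xp D.s D'.l (k + 1) = Xp D.s D.l (k + 1)

/-- CSD (100 lines). From CSH, MIR. CSH and CSH for the mirror images: for every `k` with `k + 1 < m` one of
`tp k`, `tm k` is positive, so `Yp r' (k+1) = Yp r (k+1)`, `Yp l' (k+1) = Yp l (k+1)`. Subtract. -/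
def SpecCSD : Prop :=
  ∀ D D' n e, DH D D' n e → ∀ j, j < D.m → D'.r j = D.r j ∧ D'.l j = D.l j

/-! ## E. Geometry -/

/-- SUP (120 lines). From SEG. `cov φ K x > 0` for `x` in the interior of `dif K`: then `K ∩ (K + x)` has
an interior point, so it contains a small segment parallel to `v`. (If `x` is an interior point of
`dif K`, then `x / (1 - ε) = a - b` with `a, b ∈ K`; take an interior point `c` of `K` and
`(1-ε) a + ε c`, `(1-ε) b + ε c`.) `cov φ K x = 0` for `x ∉ dif K`. `dif K` is the closure of its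
interior. -/
def SpecSUP : Prop :=
  ∀ (φ ψ : Set Pl → ℝ), IsPhi φ → IsPhi ψ → ∀ K H : Set Pl, CC K → CC H → (interior K).Nonempty →
    (interior H).Nonempty → (∃ v : Pl, v ≠ 0 ∧ 0 < nrm φ v ∧ 0 < nrm ψ v) →
    (∀ x, cov φ K x = cov ψ H x) → dif K = dif H

/-- FNA (120 lines). For `K = conv S`: exceptional slopes are those of the differences of points of
`S`; between them the maximizing point of `S` is constant. -/
def SpecFNA : Prop :=
  ∀ S : Finset Pl, S.Nonempty → ∃ (m : ℕ) (s : ℕ → ℝ), Inc m s ∧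
    AffOff m s (fun σ => rs (convexHull ℝ (S : Set Pl)) σ + ls (convexHull ℝ (S : Set Pl)) σ)

/-- FNB (100 lines). `rs K + ls K` depends only on `dif K`; if it is affine on an interval, so are both
(convex functions with affine sum). -/
def SpecFNB : Prop :=
  (∀ K H : Set Pl, CC K → CC H → K.Nonempty → H.Nonempty → dif K = dif H →
    ∀ σ, rs K σ + ls K σ = rs H σ + ls H σ) ∧
  (∀ K : Set Pl, CC K → K.Nonempty → ∀ m s, AffOff m s (fun σ => rs K σ + ls K σ) →
    AffOff m s (rs K) ∧ AffOff m s (ls K))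

/-- FNC (350 lines). From CHA, BOD. Reconstruction: on the component number `k` of the complement of
the slopes, `rs K σ = x_k - σ y_k`, and `W_k = (x_k, y_k) ∈ K` (the maximizer for an inner `σ` is `W_k`,
because its affine function is below `rs K` and touches it). `W_k - W_{k+1} = r_k (s_k, 1)`,
`r_k = y_k - y_{k+1} ≥ 0` (compare the two affine functions on both sides of `s_k`). `y_0` is the
maximum of the second coordinate (`σ → -∞`), `y_m` the minimum. The same for `ls K σ = σ y'_k - x'_k`.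
`K ⊆ body`: `z.1 - s_k z.2 ≤ rs K (s_k)`; `body ⊆ K`: the points of the chains lie on the segments
`[W_k, W_{k+1}]`. -/
def SpecFNC : Prop :=
  ∀ K : Set Pl, CC K → (interior K).Nonempty → ∀ m s, Inc m s → AffOff m s (rs K) →
    AffOff m s (ls K) → ∃ D : Data, D.Ok ∧ D.m = m ∧ D.s = s ∧ ∃ c, K = tr c (body D)

/-- SUM (150 lines). From CHA, BOD. `rs (body D) σ = q + Xp s r m - σ w + ∑ r_j max 0 (σ - s_j)`,
`ls (body D) σ = ∑ l_j max 0 (σ - s_j)`. Compare the sums for `D` and `D'` (kink at `s_j`, large `σ`,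
small `σ`), then use the closing conditions. -/
def SpecSUM : Prop :=
  ∀ D D' : Data, D.Ok → D'.Ok → D'.m = D.m → D'.s = D.s → dif (body D) = dif (body D') →
    D'.w = D.w ∧ D'.p + D'.q = D.p + D.q ∧ ∀ j, j < D.m → D'.r j + D'.l j = D.r j + D.l j

/-- SKP (100 lines). An index with `r_j = l_j = 0` can be removed. -/
def SpecSKP : Prop :=
  ∀ D : Data, D.Ok → ∀ j, j < D.m → D.r j = 0 → D.l j = 0 →
    ∃ D₁ : Data, D₁.Ok ∧ D₁.m + 1 = D.m ∧ D₁.s = skp j D.s ∧ D₁.w = D.w ∧ D₁.p = D.p ∧ D₁.q = D.q ∧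
      body D₁ = body D

/-- FAN (120 lines). From FNA, FNB, FNC, SUM, SKP: common data for `K` and `H`; take `m` minimal. -/
def SpecFAN : Prop :=
  ∀ K H : Set Pl, CC K → CC H → (interior K).Nonempty → (interior H).Nonempty →
    (∃ S : Finset Pl, K = convexHull ℝ (S : Set Pl)) → dif K = dif H →
    ∃ (D D' : Data) (c c' : Pl), D.Ok ∧ D'.Ok ∧ Mate D D' ∧ K = tr c (body D) ∧ H = tr c' (body D')

/-- FLB (150 lines). From CHA, BOD. The faces of the polygon. Face on the left side of `(s_j, 1)`: the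
points of `body D` where `s_j z.2 - z.1` is maximal; `s_j y - L y` is maximal exactly for
`Yp l j ≤ y ≤ Yp l (j+1)` (strictly increasing slopes). -/
def SpecFLB : Prop :=
  ∀ D : Data, D.Ok → fl (body D) (1, 0) = D.p ∧ fl (body D) (-1, 0) = D.q ∧
    ∀ j, j < D.m → fl (body D) (D.s j, 1) = D.l j ∧ fl (body D) (-D.s j, -1) = D.r j

/-- FLP (60 lines). If the face is not a point, there is a segment in the boundary. -/
def SpecFLP : Prop :=
  ∀ (K : Set Pl) (v : Pl), CC K → K.Nonempty → v ≠ 0 → 0 < fl K v →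
    ∃ (a : Pl) (t : ℝ), 0 < t ∧ segment ℝ a (a + t • v) ⊆ frontier K

/-- FRM (200 lines). Change of frame. `mul v` is complex multiplication by `v`, a similarity
(bijective, inverse `mul` by `(v.1, -v.2) / |v|²`, homeomorphism, `crs (mul v x) (mul v y) = |v|² crs x y`,
maps segments to segments, `CC` sets to `CC` sets). -/
def SpecFRM : Prop :=
  ∀ v : Pl, v ≠ 0 →
    (∀ φ, IsPhi φ → IsPhi (frφ v φ)) ∧
    (∀ φ K x, cov (frφ v φ) (fr v K) x = cov φ K (mul v x)) ∧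
    (∀ φ u, nrm (frφ v φ) u = nrm φ (mul v u)) ∧
    (∀ K, CC K → CC (fr v K)) ∧
    (∀ K : Set Pl, (interior K).Nonempty → (interior (fr v K)).Nonempty) ∧
    (∀ K : Set Pl, (∃ S : Finset Pl, K = convexHull ℝ (S : Set Pl)) →
      ∃ S : Finset Pl, fr v K = convexHull ℝ (S : Set Pl)) ∧
    (∀ K u, fl (fr v K) u = fl K (mul v u)) ∧
    (∀ K H : Set Pl, dif K = dif H → dif (fr v K) = dif (fr v H)) ∧
    (∀ K H : Set Pl, ∀ c, fr v H = tr c (fr v K) → H = tr (mul v c) K) ∧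
    (∀ K H : Set Pl, ∀ c, fr v H = tr c (refl (fr v K)) → H = tr (mul v c) (refl K))

/-- RFL (120 lines). Translations and reflections. -/
def SpecRFL : Prop :=
  (∀ φ, IsPhi φ → ∀ K, CC K → ∀ x c, cov φ (tr c K) x = cov φ K x ∧ cov φ (refl K) x = cov φ K x) ∧
  (∀ (K : Set Pl) (c v : Pl), fl (tr c K) v = fl K v) ∧
  (∀ D : Data, D.Ok → D.flip.Ok ∧ ∃ c, body D.flip = tr c (refl (body D))) ∧
  (∀ D D' : Data, D'.m = D.m → D'.s = D.s → D'.w = D.w → D'.q = D.q →
    (∀ j, j < D.m → D'.r j = D.r j ∧ D'.l j = D.l j) → body D' = body D)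

/-! ## F. The theorem -/

/-- The theorem. -/
def Final : Prop :=
  ∀ (K H : Set Pl) (φ ψ : Set Pl → ℝ), IsPhi φ → IsPhi ψ →
    (∃ S : Finset Pl, K = convexHull ℝ (S : Set Pl)) → (interior K).Nonempty →
    CC H → (interior H).Nonempty →
    (∀ a b : Pl, a ≠ b → segment ℝ a b ⊆ frontier K → 0 < φ (segment ℝ a b) ∧ 0 < ψ (segment ℝ a b)) →
    (∀ x, cov φ K x = cov ψ H x) → ∃ t, H = tr t K ∨ H = tr t (refl K)

end Pool.MP671
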